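import Mathlib

/-!
# Project MA9, second phase: abstract large sieve for multiplicative kernels (helper4)

`A` is a commutative domain with coordinates `e : A ≃+ (Fin n → ℤ)`; `K i` are multiplicative
kernels, periodic modulo `q i`, pairwise orthogonal over complete systems of residues.
-/

set_option autoImplicit false

open scoped BigOperators

namespace Pool.Agent.H32.MA.AB

/-- a ring with coordinates; `c` bounds the structure constants -/
structure Lat (A : Type) [CommRing A] (n c : ℕ) where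
  e : A ≃+ (Fin n → ℤ)
  nrm : A → ℕ
  c_pos : 1 ≤ c
  one_le : ∀ i, |e 1 i| ≤ c
  mul_le : ∀ (x y : A) (R S : ℕ), (∀ i, |e x i| ≤ R) → (∀ i, |e y i| ≤ S) →
    ∀ i, |e (x * y) i| ≤ c * R * S
  nrm_mul : ∀ x y, nrm (x * y) = nrm x * nrm y
  nrm_pos : ∀ x, x ≠ 0 → 1 ≤ nrm x
  nrm_le : ∀ (x : A) (R : ℕ), (∀ i, |e x i| ≤ R) → nrm x ≤ c * R ^ n

section

variable {A : Type} [CommRing A] {n c : ℕ}

/-- the elements with coordinates in `[u i, u i + Q)` -/
noncomputable def cube (L : Lat A n c) (u : Fin n → ℤ) (Q : ℕ) : Finset A :=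
  (Fintype.piFinset fun i => Finset.Ico (u i) (u i + Q)).map L.e.symm.toEquiv.toEmbedding

/-- the elements with coordinates at most `R` in absolute value -/
noncomputable def bxA (L : Lat A n c) (R : ℕ) : Finset A := cube L (fun _ => -(R : ℤ)) (2 * R + 1)

/-- the kernels -/
structure Ker (L : Lat A n c) {ι : Type} (I : Finset ι) (K : ι → A → ℤ) (q : ι → ℕ) (E : ℝ) :
    Prop where
  q_pos : ∀ i ∈ I, 1 ≤ q i
  q_le : ∀ i ∈ I, (q i : ℝ) ≤ E
  abs_le : ∀ i ∈ I, ∀ x, |K i x| ≤ 1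
  one : ∀ i ∈ I, K i 1 = 1
  mul : ∀ i ∈ I, ∀ x y, K i (x * y) = K i x * K i y
  per : ∀ i ∈ I, ∀ x y, K i (x + q i * y) = K i x
  orth : ∀ i ∈ I, ∀ j ∈ I, i ≠ j → ∀ u, ∑ x ∈ cube L u (q i * q j), K i x * K j x = 0

theorem mem_cube {L : Lat A n c} {u : Fin n → ℤ} {Q : ℕ} {x : A} :
    x ∈ cube L u Q ↔ ∀ i, u i ≤ L.e x i ∧ L.e x i < u i + Q := by
  unfold cube
  rw [Finset.mem_map]
  constructor
  · rintro ⟨y, hy, rfl⟩ i
    have h1 := Fintype.mem_piFinset.1 hy i
    have h2 : L.e (L.e.symm.toEquiv.toEmbedding y) = y := L.e.apply_symm_apply y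
    rw [h2]
    exact Finset.mem_Ico.1 h1
  · intro h
    refine ⟨L.e x, Fintype.mem_piFinset.2 fun i => Finset.mem_Ico.2 (h i), ?_⟩
    exact L.e.symm_apply_apply x

theorem mem_bxA {L : Lat A n c} {R : ℕ} {x : A} : x ∈ bxA L R ↔ ∀ i, |L.e x i| ≤ R := by
  unfold bxA
  rw [mem_cube]
  refine forall_congr' fun i => ?_
  rw [abs_le]
  push_cast
  constructor <;> rintro ⟨h1, h2⟩ <;> constructor <;> linarith

theorem card_cube (L : Lat A n c) (u : Fin n → ℤ) (Q : ℕ) : (cube L u Q).card = Q ^ n := by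
  unfold cube
  rw [Finset.card_map, Fintype.card_piFinset]
  have h : ∀ i : Fin n, (Finset.Ico (u i) (u i + Q)).card = Q := by
    intro i
    rw [Int.card_Ico]
    have : u i + (Q : ℤ) - u i = Q := by ring
    rw [this, Int.toNat_natCast]
  rw [Finset.prod_congr rfl fun i _ => h i, Finset.prod_const, Finset.card_univ, Fintype.card_fin]

theorem card_bxA (L : Lat A n c) (R : ℕ) : (bxA L R).card = (2 * R + 1) ^ n := card_cube L _ _

/-- the cube of side `k Q` is a union of `k ^ n` cubes of side `Q` -/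
theorem sum_cube_mul (L : Lat A n c) (g : A → ℤ) (Q k : ℕ) (hQ : 1 ≤ Q)
    (h : ∀ u, ∑ x ∈ cube L u Q, g x = 0) (u : Fin n → ℤ) :
    ∑ x ∈ cube L u (k * Q), g x = 0 := by
  classical
  -- the index of the small cube
  let f : A → (Fin n → ℤ) := fun x i => (L.e x i - u i) / Q
  have h1 : ∀ t ∈ (cube L u (k * Q)).image f, ∑ x ∈ (cube L u (k * Q)).filter (fun x => f x = t),
      g x = 0 := by
    intro t ht
    obtain ⟨y, hy, rfl⟩ := Finset.mem_image.1 ht
    have hQ' : (0 : ℤ) < Q := by exact_mod_cast hQ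
    rw [mem_cube] at hy
    have e1 : (cube L u (k * Q)).filter (fun x => f x = f y) =
        cube L (fun i => u i + f y i * Q) Q := by
      ext x
      rw [Finset.mem_filter, mem_cube, mem_cube]
      constructor
      · rintro ⟨-, hx⟩ i
        have h2 : (L.e x i - u i) / Q = f y i := congrFun hx i
        have h3 := Int.emod_add_mul_ediv (L.e x i - u i) Q
        have h4 := Int.emod_nonneg (L.e x i - u i) hQ'.ne'
        have h5 := Int.emod_lt_of_pos (L.e x i - u i) hQ'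
        rw [h2] at h3
        constructor <;> nlinarith
      · intro hx
        have h2 : ∀ i, f x i = f y i := by
          intro i
          obtain ⟨h3, h4⟩ := hx i
          show (L.e x i - u i) / Q = f y i
          rw [Int.ediv_eq_iff_of_pos hQ']
          constructor <;> linarith
        refine ⟨fun i => ?_, funext h2⟩
        obtain ⟨h3, h4⟩ := hx i
        obtain ⟨h5, h6⟩ := hy i
        have h7 : 0 ≤ f y i := Int.ediv_nonneg (by linarith) hQ'.le
        have h8 : f y i < k := by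
          show (L.e y i - u i) / Q < k
          rw [Int.ediv_lt_iff_lt_mul hQ']
          push_cast at h6
          linarith
        push_cast
        constructor
        · nlinarith
        · nlinarith
    rw [e1]
    exact h _
  rw [← Finset.sum_fiberwise_of_maps_to (s := cube L u (k * Q))
    (t := (cube L u (k * Q)).image f) (g := f) (fun x hx => Finset.mem_image_of_mem f hx)]
  exact Finset.sum_eq_zero h1

/-- `a ^ n - b ^ n ≤ n a ^ (n - 1) (a - b)` -/
theorem pow_sub_le (n : ℕ) (a b : ℝ) (hb : 0 ≤ b) (hab : b ≤ a) :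
    a ^ n - b ^ n ≤ n * a ^ (n - 1) * (a - b) := by
  induction n with
  | zero => simp
  | succ n ih =>
    have ha : 0 ≤ a := hb.trans hab
    rcases Nat.eq_zero_or_pos n with rfl | hn
    · simp
    · have e : a ^ (n + 1) - b ^ (n + 1) = a * (a ^ n - b ^ n) + b ^ n * (a - b) := by ring
      rw [e]
      have h1 : a * (a ^ n - b ^ n) ≤ a * (n * a ^ (n - 1) * (a - b)) :=
        mul_le_mul_of_nonneg_left ih ha
      have h2 : b ^ n * (a - b) ≤ a ^ n * (a - b) :=
        mul_le_mul_of_nonneg_right (pow_le_pow_left₀ hb hab n) (by linarith)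
      have h3 : a * (n * a ^ (n - 1) * (a - b)) = n * a ^ n * (a - b) := by
        have : a ^ n = a * a ^ (n - 1) := by
          rw [← pow_succ']
          congr 1
          omega
        rw [this]
        ring
      have h4 : ((n + 1 : ℕ) : ℝ) * a ^ (n + 1 - 1) * (a - b) =
          n * a ^ n * (a - b) + a ^ n * (a - b) := by
        push_cast
        ring
      rw [h4]
      linarith

/-- incomplete sums -/
theorem inc (L : Lat A n c) (g : A → ℤ) (Q : ℕ) (hQ : 1 ≤ Q) (hg : ∀ x, |g x| ≤ 1)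
    (h : ∀ u, ∑ x ∈ cube L u Q, g x = 0) (R : ℕ) :
    |(∑ x ∈ bxA L R, (g x : ℝ))| ≤ n * (2 * R + 1 : ℝ) ^ (n - 1) * Q := by
  classical
  set k : ℕ := (2 * R + 1) / Q with hk
  have hk1 : k * Q ≤ 2 * R + 1 := Nat.div_mul_le_self _ _
  have hk2 : 2 * R + 1 < k * Q + Q := by
    have := Nat.lt_div_mul_add (a := 2 * R + 1) hQ
    rwa [← hk] at this
  have hsub : cube L (fun _ => -(R : ℤ)) (k * Q) ⊆ bxA L R := by
    intro x hx
    unfold bxA
    rw [mem_cube] at hx ⊢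
    intro i
    obtain ⟨h1, h2⟩ := hx i
    refine ⟨h1, h2.trans_le ?_⟩
    have : ((k * Q : ℕ) : ℤ) ≤ ((2 * R + 1 : ℕ) : ℤ) := by exact_mod_cast hk1
    linarith
  have h0 : ∑ x ∈ cube L (fun _ => -(R : ℤ)) (k * Q), (g x : ℝ) = 0 := by
    have := sum_cube_mul L g Q k hQ h (fun _ => -(R : ℤ))
    exact_mod_cast this
  rw [← Finset.sum_sdiff hsub, h0, add_zero]
  refine (Finset.abs_sum_le_sum_abs _ _).trans ?_
  have h1 : ∀ x ∈ bxA L R \ cube L (fun _ => -(R : ℤ)) (k * Q), |(g x : ℝ)| ≤ 1 := by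
    intro x _
    rw [← Int.cast_abs]
    exact_mod_cast hg x
  refine (Finset.sum_le_card_nsmul _ _ 1 h1).trans ?_
  have h2 := Finset.card_sdiff_add_card_eq_card hsub
  rw [card_bxA, card_cube] at h2
  have h3 : ((bxA L R \ cube L (fun _ => -(R : ℤ)) (k * Q)).card : ℝ) =
      (2 * R + 1 : ℝ) ^ n - ((k * Q : ℕ) : ℝ) ^ n := by
    have h4 : ((bxA L R \ cube L (fun _ => -(R : ℤ)) (k * Q)).card : ℝ) +
        ((k * Q : ℕ) : ℝ) ^ n = (2 * R + 1 : ℝ) ^ n := by exact_mod_cast h2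
    linarith
  rw [nsmul_eq_mul, mul_one, h3]
  have hk1' : ((k * Q : ℕ) : ℝ) ≤ 2 * R + 1 := by exact_mod_cast hk1
  have hk2' : (2 * R + 1 : ℝ) < ((k * Q : ℕ) : ℝ) + Q := by exact_mod_cast hk2
  refine (pow_sub_le n _ _ (Nat.cast_nonneg _) hk1').trans ?_
  exact mul_le_mul_of_nonneg_left (by linarith) (by positivity)

section LS

variable {L : Lat A n c} {ι : Type} {I : Finset ι} {K : ι → A → ℤ} {q : ι → ℕ} {E : ℝ}

theorem ls_off (hK : Ker L I K q E) {i j : ι} (hi : i ∈ I) (hj : j ∈ I) (hij : i ≠ j) (R : ℕ) :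
    |∑ x ∈ bxA L R, ((K i x : ℤ) : ℝ) * K j x| ≤ n * (2 * R + 1 : ℝ) ^ (n - 1) * E ^ 2 := by
  have hq : 1 ≤ q i * q j := Nat.mul_pos (hK.q_pos i hi) (hK.q_pos j hj)
  have h1 := inc L (fun x => K i x * K j x) (q i * q j) hq
    (fun x => by
      rw [abs_mul]
      exact mul_le_one₀ (hK.abs_le i hi x) (abs_nonneg _) (hK.abs_le j hj x))
    (fun u => hK.orth i hi j hj hij u) R
  have h2 : (∑ x ∈ bxA L R, ((K i x : ℤ) : ℝ) * K j x) =
      ∑ x ∈ bxA L R, ((K i x * K j x : ℤ) : ℝ) := by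
    push_cast
    rfl
  rw [h2]
  refine h1.trans (mul_le_mul_of_nonneg_left ?_ (by positivity))
  push_cast
  rw [sq]
  exact mul_le_mul (hK.q_le i hi) (hK.q_le j hj) (Nat.cast_nonneg _)
    ((Nat.cast_nonneg _).trans (hK.q_le i hi))

theorem ls_diag (hK : Ker L I K q E) {i : ι} (hi : i ∈ I) (R : ℕ) :
    |∑ x ∈ bxA L R, ((K i x : ℤ) : ℝ) * K i x| ≤ (2 * R + 1 : ℝ) ^ n := by
  refine (Finset.abs_sum_le_sum_abs _ _).trans ?_
  have h1 : ∀ x ∈ bxA L R, |((K i x : ℤ) : ℝ) * K i x| ≤ 1 := by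
    intro x _
    rw [abs_mul]
    have h2 : |((K i x : ℤ) : ℝ)| ≤ 1 := by
      rw [← Int.cast_abs]
      exact_mod_cast hK.abs_le i hi x
    exact mul_le_one₀ h2 (abs_nonneg _) h2
  refine (Finset.sum_le_card_nsmul _ _ 1 h1).trans ?_
  rw [nsmul_eq_mul, mul_one, card_bxA]
  push_cast
  exact le_rfl

/-- the large sieve, direct form -/
theorem ls (hK : Ker L I K q E) (R : ℕ) (a : ι → ℝ) :
    ∑ x ∈ bxA L R, (∑ i ∈ I, a i * K i x) ^ 2 ≤
      ((2 * R + 1 : ℝ) ^ n + n * (2 * R + 1 : ℝ) ^ (n - 1) * E ^ 2 * I.card) *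
        ∑ i ∈ I, a i ^ 2 := by
  classical
  have e1 : ∑ x ∈ bxA L R, (∑ i ∈ I, a i * K i x) ^ 2 =
      ∑ i ∈ I, ∑ j ∈ I, a i * a j * ∑ x ∈ bxA L R, ((K i x : ℤ) : ℝ) * K j x := by
    have h1 : ∀ x ∈ bxA L R, (∑ i ∈ I, a i * K i x) ^ 2 =
        ∑ i ∈ I, ∑ j ∈ I, a i * a j * (((K i x : ℤ) : ℝ) * K j x) := by
      intro x _
      rw [sq, Finset.sum_mul_sum]
      refine Finset.sum_congr rfl fun i _ => Finset.sum_congr rfl fun j _ => ?_
      ring
    rw [Finset.sum_congr rfl h1, Finset.sum_comm]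
    refine Finset.sum_congr rfl fun i _ => ?_
    rw [Finset.sum_comm]
    exact Finset.sum_congr rfl fun j _ => (Finset.mul_sum _ _ _).symm
  rw [e1]
  set D : ℝ := n * (2 * R + 1 : ℝ) ^ (n - 1) * E ^ 2 with hD
  have hD0 : 0 ≤ D := by positivity
  have e2 : ∀ i ∈ I, ∀ j ∈ I, a i * a j * ∑ x ∈ bxA L R, ((K i x : ℤ) : ℝ) * K j x ≤
      (if i = j then (2 * R + 1 : ℝ) ^ n * a i ^ 2 else 0) + D * (|a i| * |a j|) := by
    intro i hi j hj
    refine (le_abs_self _).trans ?_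
    rw [abs_mul, abs_mul]
    by_cases hij : i = j
    · subst hij
      rw [if_pos rfl]
      have h1 := ls_diag hK hi R
      have h2 : |a i| * |a i| = a i ^ 2 := by rw [← sq, sq_abs]
      have h3 : 0 ≤ D * (|a i| * |a i|) := by positivity
      have h4 : |a i| * |a i| * |∑ x ∈ bxA L R, ((K i x : ℤ) : ℝ) * K i x| ≤
          |a i| * |a i| * (2 * R + 1 : ℝ) ^ n := mul_le_mul_of_nonneg_left h1 (by positivity)
      rw [h2] at h4 h3 ⊢
      linarith
    · rw [if_neg hij, zero_add]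
      have h1 := ls_off hK hi hj hij R
      have h4 : |a i| * |a j| * |∑ x ∈ bxA L R, ((K i x : ℤ) : ℝ) * K j x| ≤
          |a i| * |a j| * D := mul_le_mul_of_nonneg_left h1 (by positivity)
      linarith
  refine (Finset.sum_le_sum fun i hi => Finset.sum_le_sum fun j hj => e2 i hi j hj).trans ?_
  have e3 : ∑ i ∈ I, ∑ j ∈ I, ((if i = j then (2 * R + 1 : ℝ) ^ n * a i ^ 2 else 0) +
        D * (|a i| * |a j|)) =
      (2 * R + 1 : ℝ) ^ n * ∑ i ∈ I, a i ^ 2 + D * (∑ i ∈ I, |a i|) ^ 2 := by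
    simp only [Finset.sum_add_distrib]
    congr 1
    · rw [Finset.mul_sum]
      refine Finset.sum_congr rfl fun i hi => ?_
      rw [Finset.sum_ite_eq, if_pos hi]
    · rw [sq (∑ i ∈ I, |a i|), Finset.sum_mul_sum, Finset.mul_sum]
      refine Finset.sum_congr rfl fun i _ => ?_
      rw [Finset.mul_sum]
  rw [e3]
  have e4 : (∑ i ∈ I, |a i|) ^ 2 ≤ I.card * ∑ i ∈ I, a i ^ 2 := by
    have := sq_sum_le_card_mul_sum_sq (s := I) (f := fun i => |a i|)
    simpa only [sq_abs] using this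
  have e5 : D * (∑ i ∈ I, |a i|) ^ 2 ≤ D * (I.card * ∑ i ∈ I, a i ^ 2) :=
    mul_le_mul_of_nonneg_left e4 hD0
  nlinarith [e5]

/-- the large sieve, dual form -/
theorem ld (hK : Ker L I K q E) (R : ℕ) (b : A → ℝ) :
    ∑ i ∈ I, (∑ x ∈ bxA L R, b x * K i x) ^ 2 ≤
      ((2 * R + 1 : ℝ) ^ n + n * (2 * R + 1 : ℝ) ^ (n - 1) * E ^ 2 * I.card) *
        ∑ x ∈ bxA L R, b x ^ 2 := by
  classical
  set g : ι → ℝ := fun i => ∑ x ∈ bxA L R, b x * K i x with hg
  set D : ℝ := (2 * R + 1 : ℝ) ^ n + n * (2 * R + 1 : ℝ) ^ (n - 1) * E ^ 2 * I.card with hD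
  have h1 : ∑ x ∈ bxA L R, (∑ i ∈ I, g i * K i x) ^ 2 ≤ D * ∑ i ∈ I, g i ^ 2 := ls hK R g
  have h2 : ∑ i ∈ I, g i ^ 2 = ∑ x ∈ bxA L R, b x * ∑ i ∈ I, g i * K i x := by
    have h3 : ∀ i ∈ I, g i ^ 2 = ∑ x ∈ bxA L R, b x * (g i * K i x) := by
      intro i _
      rw [sq]
      nth_rewrite 2 [hg]
      rw [Finset.mul_sum]
      refine Finset.sum_congr rfl fun x _ => ?_
      ring
    rw [Finset.sum_congr rfl h3, Finset.sum_comm]
    exact Finset.sum_congr rfl fun x _ => (Finset.mul_sum _ _ _).symm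
  have h3 : (∑ i ∈ I, g i ^ 2) ^ 2 ≤
      (∑ x ∈ bxA L R, b x ^ 2) * ∑ x ∈ bxA L R, (∑ i ∈ I, g i * K i x) ^ 2 := by
    nth_rewrite 1 [h2]
    exact Finset.sum_mul_sq_le_sq_mul_sq _ _ _
  have hB : 0 ≤ ∑ i ∈ I, g i ^ 2 := Finset.sum_nonneg fun i _ => sq_nonneg _
  have hc : 0 ≤ ∑ x ∈ bxA L R, b x ^ 2 := Finset.sum_nonneg fun x _ => sq_nonneg _
  have h4 : (∑ i ∈ I, g i ^ 2) ^ 2 ≤ (∑ x ∈ bxA L R, b x ^ 2) * (D * ∑ i ∈ I, g i ^ 2) :=
    h3.trans (mul_le_mul_of_nonneg_left h1 hc)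
  have hD0 : 0 ≤ D := by positivity
  change ∑ i ∈ I, g i ^ 2 ≤ D * ∑ x ∈ bxA L R, b x ^ 2
  rcases hB.eq_or_lt with h5 | h5
  · rw [← h5]
    positivity
  · have h6 : (∑ i ∈ I, g i ^ 2) * (∑ i ∈ I, g i ^ 2) ≤
        (D * ∑ x ∈ bxA L R, b x ^ 2) * (∑ i ∈ I, g i ^ 2) := by
      rw [← sq]
      refine h4.trans (le_of_eq ?_)
      ring
    exact le_of_mul_le_mul_right h6 h5

end LS

/-- orthogonality from a twist `T` with `g (T x) = - g x` -/
theorem orth_of_twist (L : Lat A n c) (g : A → ℤ) (Q : ℕ) (hQ : 1 ≤ Q)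
    (hper : ∀ x y, g (x + Q * y) = g x) (T : A →+ A)
    (hT : ∀ x, (∃ y, T x = Q * y) → ∃ y, x = Q * y) (hg : ∀ x, g (T x) = -g x)
    (u : Fin n → ℤ) : ∑ x ∈ cube L u Q, g x = 0 := by
  classical
  have hQ' : (0 : ℤ) < Q := by exact_mod_cast hQ
  have hcast : ∀ (y : A) (i : Fin n), L.e ((Q : A) * y) i = Q * L.e y i := by
    intro y i
    have h1 : (Q : A) * y = Q • y := (nsmul_eq_mul _ _).symm
    rw [h1, map_nsmul]
    simp
  -- the representative in the cube
  let rep : A → A := fun x => L.e.symm fun i => u i + (L.e x i - u i) % Q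
  have hrep_mem : ∀ x, rep x ∈ cube L u Q := by
    intro x
    rw [mem_cube]
    intro i
    have h1 : L.e (rep x) i = u i + (L.e x i - u i) % Q := by
      show L.e (L.e.symm _) i = _
      rw [L.e.apply_symm_apply]
    rw [h1]
    have h2 := Int.emod_nonneg (L.e x i - u i) hQ'.ne'
    have h3 := Int.emod_lt_of_pos (L.e x i - u i) hQ'
    constructor <;> linarith
  have hrep : ∀ x, ∃ y, x = rep x + Q * y := by
    intro x
    refine ⟨L.e.symm fun i => (L.e x i - u i) / Q, ?_⟩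
    apply L.e.injective
    funext i
    rw [map_add, Pi.add_apply, hcast]
    show L.e x i = L.e (L.e.symm _) i + Q * L.e (L.e.symm _) i
    rw [L.e.apply_symm_apply, L.e.apply_symm_apply]
    have := Int.emod_add_mul_ediv (L.e x i - u i) Q
    linarith
  -- two elements of the cube which are congruent are equal
  have huniq : ∀ x ∈ cube L u Q, ∀ y ∈ cube L u Q, (∃ z, x - y = Q * z) → x = y := by
    intro x hx y hy hz
    obtain ⟨z, hz⟩ := hz
    rw [mem_cube] at hx hy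
    apply L.e.injective
    funext i
    have h1 : L.e x i - L.e y i = Q * L.e z i := by
      rw [← hcast, ← hz, map_sub, Pi.sub_apply]
    obtain ⟨h2, h3⟩ := hx i
    obtain ⟨h4, h5⟩ := hy i
    have h6 : L.e z i = 0 := by
      by_contra hne
      rcases lt_or_gt_of_ne hne with h | h
      · nlinarith
      · nlinarith
    rw [h6] at h1
    linarith
  have hgrep : ∀ x, g (rep x) = g x := by
    intro x
    obtain ⟨y, hy⟩ := hrep x
    conv_rhs => rw [hy]
    exact (hper _ _).symm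
  have hinj : Set.InjOn (fun x => rep (T x)) (cube L u Q : Set A) := by
    intro x hx y hy hxy
    refine huniq x hx y hy (hT (x - y) ?_)
    obtain ⟨a, ha⟩ := hrep (T x)
    obtain ⟨b, hb⟩ := hrep (T y)
    refine ⟨a - b, ?_⟩
    simp only at hxy
    rw [map_sub, ha, hb, hxy]
    ring
  have himg : (cube L u Q).image (fun x => rep (T x)) = cube L u Q :=
    Finset.eq_of_subset_of_card_le
      (Finset.image_subset_iff.2 fun x _ => hrep_mem _)
      (by rw [Finset.card_image_of_injOn hinj])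
  have h1 : ∑ x ∈ cube L u Q, g x = ∑ x ∈ cube L u Q, g (rep (T x)) := by
    conv_lhs => rw [← himg]
    exact Finset.sum_image fun x hx y hy h => hinj hx hy h
  have h2 : ∑ x ∈ cube L u Q, g (rep (T x)) = -∑ x ∈ cube L u Q, g x := by
    rw [← Finset.sum_neg_distrib]
    exact Finset.sum_congr rfl fun x _ => by rw [hgrep, hg]
  linarith

end

end Pool.Agent.H32.MA.AB
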