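import Pool.Agent.H32.MA.RBase

/-!
# Project MA9 (MP_a9b340), block R: statements of the rows
-/

set_option autoImplicit false

open scoped BigOperators
open NumberField IsDedekindDomain

namespace Pool.Agent.H32.MA

open Pool.Agent.H98.MK (lg)
open Pool.Agent.H98.MF (ord)

/-- R1: the tame symbols are local symbols -/
def StTm : Prop := ∀ p : ℕ, p.Prime → p ≠ 2 → LocS p 1 (tm p)

/-- R1: the tame symbol of a unit -/
def StTmV : Prop := ∀ p : ℕ, p.Prime → p ≠ 2 → ∀ a b : ℚ, a ≠ 0 → b ≠ 0 → padicValRat p a = 0 →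
  tm p a b = ((padicValRat p b : ℤ) : ZMod 2) * lg (jacobiSym (a.num * a.den) p)

/-- R1: all but finitely many symbols are trivial -/
def StTmF : Prop := ∀ a b : ℚ, {p : {p : ℕ // p.Prime ∧ p ≠ 2} | tm p a b ≠ 0}.Finite

/-- R2: quadratic reciprocity -/
def StH2 : Prop := LocS 2 3 h2s

section

variable (K : Type) [Field K] [NumberField K]

/-- R3: integrality above `p` and exponents -/
def StIp : Prop := ∀ p : ℕ, p.Prime → ∀ γ : K, γ ∈ Ip K p ↔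
  ∀ P : HeightOneSpectrum (𝓞 K), 1 ≤ ord P (p : K) → 0 ≤ ord P γ

/-- R3: exponents of rational numbers -/
def StOrdR : Prop := ∀ p : ℕ, p.Prime → ∀ P : HeightOneSpectrum (𝓞 K), 1 ≤ ord P (p : K) →
  ∀ q : ℚ, q ≠ 0 → ord P (q : K) = ord P (p : K) * padicValRat p q

/-- R3: above every rational prime there is a prime -/
def StOver : Prop := ∀ p : ℕ, p.Prime → ∃ P : HeightOneSpectrum (𝓞 K), 1 ≤ ord P (p : K)

/-- R3: congruences above a prime factor of the modulus -/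
def StIpC : Prop := ∀ p : ℕ, p.Prime → ∀ m : ℕ, m ≠ 0 → p ∣ m → ∀ l : K, Cong m l →
  ∃ g ∈ Ip K p, l - 1 = (p : K) ^ (m.factorization p) * g

/-- R3: trace and norm of integral elements -/
def StIpT : Prop := ∀ p : ℕ, p.Prime → ∀ γ ∈ Ip K p,
  0 ≤ padicValRat p (trK γ) ∧ 0 ≤ padicValRat p (nmK γ)

/-- R4: approximate square roots above `p` of an element close to one -/
def StNewt : Prop := ∀ p : ℕ, p.Prime → ∀ c : ℕ, 1 ≤ c → (p = 2 → 3 ≤ c) → ∀ l : K,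
  (∃ g ∈ Ip K p, l - 1 = (p : K) ^ c * g) → ∀ k : ℕ,
    ∃ z : K, z ≠ 0 ∧ ∃ g ∈ Ip K p, z ^ 2 - l = (p : K) ^ k * g

/-- R8: elements with prescribed exponents above `p` -/
def StApx : Prop := ∀ p : ℕ, p.Prime → ∀ e : HeightOneSpectrum (𝓞 K) → ℤ,
  ∃ z : K, z ≠ 0 ∧ ∀ P : HeightOneSpectrum (𝓞 K), 1 ≤ ord P (p : K) → ord P z = e P

/-- R9: primes of degree one -/
def StRes : Prop := ∀ P : HeightOneSpectrum (𝓞 K), (nP P).Prime →
  1 ≤ ord P ((nP P : ℕ) : K) ∧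
    ∀ γ : K, 0 ≤ ord P γ → ∃ r : ℤ, γ = r ∨ 1 ≤ ord P (γ - r)

/-- R9: the characters `χ_P` at the primes of degree one with `ord P p = 1` -/
def StChP : Prop := ∀ P : HeightOneSpectrum (𝓞 K), (nP P).Prime → nP P ≠ 2 →
  ord P ((nP P : ℕ) : K) = 1 →
    (∀ a : K, chP P a = 1 ∨ chP P a = -1) ∧
    (∀ a b : K, a ≠ 0 → b ≠ 0 → chP P (a * b) = chP P a * chP P b) ∧
    (∀ a b : K, a ≠ 0 → b ≠ 0 → ord P a = 0 → 1 ≤ ord P (a - b) → chP P a = chP P b) ∧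
    (∀ q : ℚ, q ≠ 0 → padicValRat (nP P) q = 0 →
      chP P (q : K) = jacobiSym (q.num * q.den) (nP P))

end

section

variable {K : Type} [Field K] [NumberField K] (F : QF K)

/-- R5: invariance of the obstructions under squares -/
def StSq : Prop := ∀ (p c : ℕ) (s : ℚ → ℚ → ZMod 2), LocS p c s → ∀ b z : K, b ≠ 0 → z ≠ 0 →
  ThS F s (b * z ^ 2) = ThS F s b

/-- R5: the obstructions are locally constant -/
def StCong : Prop := ∀ (p c : ℕ) (s : ℚ → ℚ → ZMod 2), p.Prime → 1 ≤ c → (p = 2 → 3 ≤ c) →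
  LocS p c s → ∀ b l : K, b ≠ 0 → l ≠ 0 → (∃ g ∈ Ip K p, l - 1 = (p : K) ^ c * g) →
    ThS F s (l * b) = ThS F s b

/-- R6: the obstruction at infinity -/
def StInf : Prop := (∀ b z : K, b ≠ 0 → z ≠ 0 → ThI (b * z ^ 2) = ThI b) ∧
  ∀ b l : K, b ≠ 0 → l ≠ 0 → TotPos l → ThI (l * b) = ThI b

/-- R6: the symbol at infinity of the obstruction -/
def StInf2 : Prop := ∀ b : K, b ≠ 0 → ThS F tinf b = ThI b

/-- R7: the product formula -/
def StPF : Prop := ∀ b : K, b ≠ 0 → ThS F h2s b =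
  ThI b + ∑ᶠ p : {p : ℕ // p.Prime ∧ p ≠ 2}, Th F p b

/-- R7: the spin is local -/
def StSpn : Prop := ∀ m : ℕ, m ≠ 0 → 8 * F.d ∣ m → MLoc m (fun b : K => (spn F m b : ℝ))

/-- R7: the obstructions at the primes of the modulus are local -/
def StThL : Prop := ∀ m : ℕ, m ≠ 0 → ∀ p : ℕ, p.Prime → p ≠ 2 → p ∣ m →
  ∀ g : ZMod 2 → ℝ, MLoc m (fun b : K => g (Th F p b))

/-- R7: the obstruction at infinity is local -/
def StThIL : Prop := ∀ m : ℕ, ∀ g : ZMod 2 → ℝ, MLoc m (fun b : K => g (ThI b))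

/-- R10: primes not dividing `2 d` are unramified -/
def StUnr : Prop := ∀ p : ℕ, p.Prime → ¬ p ∣ 2 * F.d → ∀ P : HeightOneSpectrum (𝓞 K),
  1 ≤ ord P (p : K) → ord P (p : K) = 1

/-- R11: the obstruction at a prime with all exponents even -/
def StEven : Prop := ∀ p : ℕ, p.Prime → ¬ p ∣ 2 * F.d → ∀ b : K, b ≠ 0 →
  (∀ P : HeightOneSpectrum (𝓞 K), 1 ≤ ord P (p : K) → Even (ord P b)) → Th F p b = 0

/-- R11: the obstruction at a prime with all exponents odd -/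
def StOdd : Prop := ∀ p : ℕ, p.Prime → ¬ p ∣ 2 * F.d → ∀ b : K, b ≠ 0 →
  (∀ P : HeightOneSpectrum (𝓞 K), 1 ≤ ord P (p : K) → Odd (ord P b)) →
    Th F p b = tm p p (-(F.d * nmK b))

/-- R12: the obstruction at a split prime with one odd exponent -/
def StSpl : Prop := ∀ P : HeightOneSpectrum (𝓞 K), (nP P).Prime → ¬ nP P ∣ 2 * F.d → ∀ b : K,
  b ≠ 0 → Odd (ord P b) → Even (ord P (F.cj b)) → Th F (nP P) b = lg (chP P (F.cj b))

/-- R13: the spin of an element with odd exponents exactly at a good set -/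
def StChS : Prop := ∀ m : ℕ, m ≠ 0 → 8 * F.d ∣ m → ∀ S : Finset (HeightOneSpectrum (𝓞 K)),
  Good m S → ∀ b : K, b ≠ 0 → (∀ P : HeightOneSpectrum (𝓞 K), ¬ 1 ≤ ord P (m : K) →
    (Odd (ord P b) ↔ P ∈ S)) → spn F m b = chS S (F.cj b)

/-- R14: the example -/
def StEx : Prop := F.d = 3 →
  nmK (2 + 2 * F.dl) = -8 ∧ trK (2 + 2 * F.dl) = 4 ∧ ThI (2 + 2 * F.dl) = 0 ∧
  (∀ p : ℕ, p.Prime → p ≠ 2 → Th F p (2 + 2 * F.dl) = 0) ∧
  (∀ P : HeightOneSpectrum (𝓞 K), ord P (2 : K) = 0 → ord P (2 + 2 * F.dl) = 0) ∧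
  ∀ m : ℕ, spn F m (2 + 2 * F.dl) = 1

end

end Pool.Agent.H32.MA
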