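import Pool.Agent.H32.MA.OStm
import Pool.Agent.H32.MA.RStm
import Pool.Agent.H98.ML.Normal2
import Pool.Agent.H98.MK.ChiClass
import Pool.Agent.H98.MK.FldBasic

/-!
# Project MA9 (MP_a9b340), block A: basic definitions and facts (helper87)

Bits of the elements of the semidihedral group, the quadratic functions `IsF`, the
homomorphisms attached to an element of a quadratic field, twists.
-/

set_option autoImplicit false

open scoped BigOperators
open NumberField IsDedekindDomain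

namespace Pool.Agent.H32.MA

open Pool.Agent.H98.MK (Om Gam dabs fld chi dd adm par lg par_hom par_lc z12)
open Pool.Agent.H98.MF (ord)
open Pool.Agent.H98.ML (hind norb tau IsTau)

/-! ### bits -/

namespace SD

/-- the first bit -/
def pd (g : SD) : ZMod 2 := if g.b = 1 ∨ g.b = 3 ∨ g.b = 5 ∨ g.b = 7 then 1 else 0

/-- the second bit -/
def pf (g : SD) : ZMod 2 := if g.b = 2 ∨ g.b = 3 ∨ g.b = 6 ∨ g.b = 7 then 1 else 0

/-- the third bit -/
def ph (g : SD) : ZMod 2 := if g.b = 4 ∨ g.b = 5 ∨ g.b = 6 ∨ g.b = 7 then 1 else 0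

/-- the central elements -/
def zz (x : ZMod 2) : SD := ⟨if x = 0 then 0 else 4, 0⟩

/-- the element `x ↦ 3 x` -/
def ss : SD := ⟨0, 1⟩

theorem pd_mul (g g' : SD) : (g * g').pd = g.pd + g'.pd := by
  revert g g'; decide

theorem pf_mul (g g' : SD) : (g * g').pf = g.pf + g'.pf + (g.a + g.pd) * g'.pd := by
  revert g g'; decide

theorem bits_ext (g g' : SD) (ha : g.a = g'.a) (hd : g.pd = g'.pd) (hf : g.pf = g'.pf)
    (hh : g.ph = g'.ph) : g = g' := by
  revert g g'; decide

theorem zz_add (x y : ZMod 2) : zz (x + y) = zz x * zz y := by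
  revert x y; decide

theorem zz_comm (x : ZMod 2) (g : SD) : zz x * g = g * zz x := by
  revert x g; decide

theorem ss_conj_a (g : SD) : (ss * g * ss⁻¹).a = g.a := by
  revert g; decide

theorem ss_conj_pd (g : SD) : (ss * g * ss⁻¹).pd = g.pd := by
  revert g; decide

theorem ss_conj_pf (g : SD) : (ss * g * ss⁻¹).pf = g.pf + g.pd := by
  revert g; decide

theorem mul_zz_a (g : SD) (x : ZMod 2) : (g * zz x).a = g.a := by
  revert g x; decide

theorem mul_zz_pd (g : SD) (x : ZMod 2) : (g * zz x).pd = g.pd := by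
  revert g x; decide

theorem mul_zz_pf (g : SD) (x : ZMod 2) : (g * zz x).pf = g.pf := by
  revert g x; decide

/-- elements with the same image modulo the centre -/
theorem eq_mul_zz (g g' : SD) (ha : g.a = g'.a) (hd : g.pd = g'.pd) (hf : g.pf = g'.pf) :
    g' = g * zz (g.ph + g'.ph) := by
  revert g g'; decide

theorem clR_iff (g : SD) : clR g ↔ g.pd = 1 ∧ g.a = 0 := by
  revert g; decide

theorem clS_iff (g : SD) : clS g ↔ g.pd = 1 ∧ g.a = 1 := by
  revert g; decide

theorem clC_iff (g : SD) : clC g ↔ g.pd = 0 ∧ g.a = 1 := by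
  revert g; decide

theorem clT_iff (g : SD) : clT g ↔ g.pd = 0 ∧ g.a = 0 ∧ g.pf = 1 := by
  revert g; decide

theorem clZ_iff (g : SD) : clZ g ↔ g = zz 1 := by
  revert g; decide

theorem one_iff (g : SD) : g = zz 0 ↔ g = 1 := by
  revert g; decide

theorem central_iff (g : SD) : g.pd = 0 ∧ g.a = 0 ∧ g.pf = 0 ↔ g = 1 ∨ g = zz 1 := by
  revert g; decide

end SD

/-! ### quadratic functions -/

/-- the sign of a residue modulo two -/
noncomputable def sg (x : ZMod 2) : Om := if x = 0 then 1 else -1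

/-- the three bits of a residue modulo eight -/
def bit3 (x y z : ZMod 2) : ZMod 8 :=
  (if x = 0 then 0 else 1) + (if y = 0 then 0 else 2) + (if z = 0 then 0 else 4)

/-- `1` or `-1` -/
def pm (x : ZMod 2) : ZMod 8 := if x = 0 then 1 else -1

/-- `1` or `5` -/
def p5 (x : ZMod 2) : ZMod 8 := if x = 0 then 1 else 5

section

variable {K : Type} [Field K] [NumberField K]

/-- the action on a square root of `b` -/
def IsF (F : QF K) (j : K →+* Om) (b : K) (f : Gam → ZMod 2) : Prop :=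
  ∃ θ θ' : Om, θ ^ 2 = j b ∧ θ' ^ 2 = j (F.cj b) ∧
    (∀ σ : Gam, chi (F.d : ℚ) σ = 0 → σ θ = sg (f σ) * θ) ∧
    (∀ σ : Gam, chi (F.d : ℚ) σ = 1 → σ θ = sg (f σ) * θ')

/-- the homomorphisms attached to `b` -/
structure Cl (F : QF K) (j : K →+* Om) (b : K) (ρ : Gam →* SD) : Prop where
  lc : IsLocallyConstant ρ
  pd : ∀ σ, (ρ σ).pd = chi (F.d : ℚ) σ
  pf : IsF F j b (fun σ => (ρ σ).pf)

end

/-! ### twists -/

/-- the twist by a quadratic character -/
noncomputable def tw (ρ : Gam →* SD) (u : ℕ →₀ ZMod 2) : Gam →* SD :=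
  MonoidHom.mk' (fun σ => ρ σ * SD.zz (par u σ)) (fun σ τ => by
    rw [map_mul, par_hom u σ τ, SD.zz_add]
    calc ρ σ * ρ τ * (SD.zz (par u σ) * SD.zz (par u τ))
        = ρ σ * (ρ τ * SD.zz (par u σ)) * SD.zz (par u τ) := by simp only [mul_assoc]
      _ = ρ σ * (SD.zz (par u σ) * ρ τ) * SD.zz (par u τ) := by rw [SD.zz_comm]
      _ = ρ σ * SD.zz (par u σ) * (ρ τ * SD.zz (par u τ)) := by simp only [mul_assoc])

theorem tw_apply (ρ : Gam →* SD) (u : ℕ →₀ ZMod 2) (σ : Gam) :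
    tw ρ u σ = ρ σ * SD.zz (par u σ) := rfl

/-- the conjugate by `x ↦ 3 x` -/
noncomputable def cjs (ρ : Gam →* SD) : Gam →* SD := (MulAut.conj SD.ss).toMonoidHom.comp ρ

theorem cjs_apply (ρ : Gam →* SD) (σ : Gam) : cjs ρ σ = SD.ss * ρ σ * SD.ss⁻¹ := rfl

/-- the number of twists at the places `-1` and `2` with given exponent at two -/
noncomputable def muc (ρ : Gam →* SD) (c : ℕ) : ℕ :=
  {u : ZMod 2 × ZMod 2 | (dsc (tw ρ (z12 u.1 u.2))).factorization 2 = c}.ncard

/-! ### types of the odd primes -/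

section

variable {K : Type} [Field K] [NumberField K]

/-- all exponents even -/
def TyA (F : QF K) (p : ℕ) (b : K) : Prop :=
  ¬ p ∣ 2 * F.d ∧ ∀ P : HeightOneSpectrum (𝓞 K), 1 ≤ ord P (p : K) → Even (ord P b)

/-- exponents of different parity -/
def TyB (F : QF K) (p : ℕ) (b : K) : Prop := ¬ p ∣ 2 * F.d ∧ Odd (padicValRat p (nmK b))

/-- all exponents odd -/
def TyC (F : QF K) (p : ℕ) (b : K) : Prop :=
  ¬ p ∣ 2 * F.d ∧ ∀ P : HeightOneSpectrum (𝓞 K), 1 ≤ ord P (p : K) → Odd (ord P b)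

/-- even exponent at a ramified prime -/
def TyS (F : QF K) (p : ℕ) (b : K) : Prop :=
  p ∣ F.d ∧ ∀ P : HeightOneSpectrum (𝓞 K), 1 ≤ ord P (p : K) → Even (ord P b)

/-- odd exponent at a ramified prime -/
def TyR (F : QF K) (p : ℕ) (b : K) : Prop :=
  p ∣ F.d ∧ ∀ P : HeightOneSpectrum (𝓞 K), 1 ≤ ord P (p : K) → Odd (ord P b)

/-- the primes of the modulus have the types required by the parameters -/
def OTy (F : QF K) (o : Out) (b : K) (p : ℕ) : Prop :=
  (TyR F p b ↔ p ∣ o.d1) ∧ (TyC F p b ↔ p ∣ o.t) ∧ (p ∣ o.w → TyA F p b)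

open Classical in
/-- the exponents outside `m` are odd exactly at the primes of `S` -/
def InB (m : ℕ) (S : Finset (HeightOneSpectrum (𝓞 K))) (b : K) : Prop :=
  ∀ P : HeightOneSpectrum (𝓞 K), ¬ 1 ≤ ord P (m : K) →
    ((ord P b : ℤ) : ZMod 2) = if P ∈ S then 1 else 0

/-- the number of odd primes dividing `d t` -/
def Out.ex (o : Out) : ℕ := ((o.d * o.t).primeFactors.erase 2).card

open Classical in
/-- the local count of the twists at two -/
noncomputable def mh (F : QF K) (j : K →+* Om) (m c : ℕ) (b : K) : ℕ :=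
  if h : ∃ ρ : Gam →* SD, ∃ l z : K, l ≠ 0 ∧ z ≠ 0 ∧ Cong m l ∧ TotPos l ∧ ρ ∈ Hs ∧
    Cl F j (l * b * z ^ 2) ρ then muc h.choose c else 0

open Classical in
/-- the local factor -/
noncomputable def Phi (F : QF K) (j : K →+* Om) (o : Out) (b : K) : ℝ :=
  if ThI b = 0 ∧ ∀ p : ℕ, p.Prime → p ≠ 2 → p ∣ o.m → Th F p b = 0 ∧ OTy F o b p
  then 2 * 2 ^ o.ex * (mh F j o.m o.c b : ℝ) else 0

/-- the weight -/
noncomputable def Psi (F : QF K) (j : K →+* Om) (o : Out) (b : K) : ℝ :=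
  Phi F j o b * (1 + (spn F o.m b : ℝ))

end

end Pool.Agent.H32.MA
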