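import Pool.Agent.H32.MA.AStm

/-!
# Project MA9 (MP_a9b340), row A6: the action on the field, fixed elements
-/

set_option autoImplicit false

open scoped BigOperators
open NumberField IsDedekindDomain

namespace Pool.Agent.H32.MA

open Pool.Agent.H98.MK (Om Gam dabs fld chi dd adm par lg par_hom par_lc z12)

private theorem a6_alg : Algebra.IsAlgebraic ℚ Om := by
  have e : (DivisionRing.toRatAlgebra : Algebra ℚ Om) = AlgebraicClosure.instAlgebra ℚ :=
    Subsingleton.elim _ _
  rw [e]
  exact AlgebraicClosure.isAlgebraic ℚ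

private theorem a6_gal : IsGalois ℚ Om := by
  have h1 := a6_alg
  have h2 : IsAlgClosure ℚ Om := ⟨inferInstance, h1⟩
  infer_instance

variable {K : Type} [Field K] [NumberField K]

theorem a6_sq (F : QF K) (j : K →+* Om) : (j F.dl) ^ 2 = ((F.d : ℚ) : Om) := by
  rw [← map_pow, F.sq]
  simp

/-- **Row A6.** -/
theorem saAct {K : Type} [Field K] [NumberField K] (F : QF K) (j : K →+* Om) : SaAct F j := by
  intro σ b
  obtain ⟨x, y, rfl⟩ := F.exists_xy b
  constructor
  · intro h
    have h1 := (Pool.Agent.H98.MK.chi_eq_zero_iff' _ _ (a6_sq F j) σ).1 h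
    rw [map_add, map_mul, map_ratCast, map_ratCast, map_add, map_mul, map_ratCast, map_ratCast, h1]
  · intro h
    have h1 := (Pool.Agent.H98.MK.chi_eq_one_iff _ F.d_ne _ (a6_sq F j) σ).1 h
    rw [F.cj_xy, map_sub, map_add, map_mul, map_ratCast, map_ratCast, map_add, map_mul,
      map_ratCast, map_ratCast, h1]
    ring

/-- **Row A6.** -/
theorem saFix {K : Type} [Field K] [NumberField K] (F : QF K) (j : K →+* Om) : SaFix F j := by
  intro y hy
  have hg := a6_gal
  have h1 : y ∈ IntermediateField.fixedField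
      (IntermediateField.adjoin ℚ {j F.dl}).fixingSubgroup := by
    rintro ⟨σ, hσ⟩
    apply hy
    rw [Pool.Agent.H98.MK.chi_eq_zero_iff' _ _ (a6_sq F j) σ]
    exact hσ ⟨j F.dl, IntermediateField.mem_adjoin_simple_self ℚ _⟩
  rw [InfiniteGalois.fixedField_fixingSubgroup] at h1
  have h2 : IntermediateField.adjoin ℚ {j F.dl} ≤ j.toRatAlgHom.fieldRange := by
    rw [IntermediateField.adjoin_le_iff]
    rintro _ rfl
    exact ⟨F.dl, rfl⟩
  obtain ⟨b, hb⟩ := h2 h1
  exact ⟨b, hb.symm⟩

end Pool.Agent.H32.MA
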