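import Pool.Agent.H32.MA.RStm

/-!
# Project MA9 (MP_a9b340), block R, row R1: the tame symbols are local symbols
-/

set_option autoImplicit false

open scoped BigOperators
open NumberField IsDedekindDomain

namespace Pool.Agent.H32.MA

open Pool.Agent.H98.MK (lg)

/-- the class of a rational number of valuation zero -/
noncomputable def r1_L (p : ℕ) (x : ℚ) : ℤ := jacobiSym (x.num * x.den) p

/-- the argument of the tame symbol -/
noncomputable def r1_u (p : ℕ) (a b : ℚ) : ℚ :=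
  (-1) ^ (padicValRat p a * padicValRat p b) * a ^ padicValRat p b * b ^ (-padicValRat p a)

theorem r1_tm (p : ℕ) (a b : ℚ) : tm p a b = lg (r1_L p (r1_u p a b)) := rfl

section

variable {p : ℕ} (hp : p.Prime)

include hp

theorem r1_unit {x : ℚ} (hx : x ≠ 0) (h : padicValRat p x = 0) :
    ¬ (p : ℤ) ∣ x.num ∧ ¬ p ∣ x.den := by
  have := Fact.mk hp
  have hn : x.num ≠ 0 := Rat.num_ne_zero.2 hx
  have h1 : ((padicValInt p x.num : ℕ) : ℤ) - (padicValNat p x.den : ℤ) = 0 := h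
  have h2 : padicValInt p x.num = padicValNat p x.den := by omega
  have hc := x.reduced
  constructor
  · intro hd
    have h3 : p ∣ x.num.natAbs := Int.natCast_dvd.1 hd
    have h4 : 1 ≤ padicValInt p x.num := by
      have : 1 ≤ padicValNat p x.num.natAbs :=
        one_le_padicValNat_of_dvd (Int.natAbs_ne_zero.2 hn) h3
      exact this
    rw [h2] at h4
    have h5 : p ∣ x.den := dvd_of_one_le_padicValNat h4
    have h6 := Nat.dvd_gcd h3 h5
    rw [hc] at h6
    exact hp.one_lt.ne' (Nat.dvd_one.1 h6)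
  · intro h5
    have h4 : 1 ≤ padicValNat p x.den := one_le_padicValNat_of_dvd x.den_nz h5
    rw [← h2] at h4
    have h3 : p ∣ x.num.natAbs := dvd_of_one_le_padicValNat h4
    have h6 := Nat.dvd_gcd h3 h5
    rw [hc] at h6
    exact hp.one_lt.ne' (Nat.dvd_one.1 h6)

theorem r1_jsq {n : ℤ} (h : ¬ (p : ℤ) ∣ n) : jacobiSym n p * jacobiSym n p = 1 := by
  have h1 : Int.gcd n p = 1 := by
    rw [← Int.isCoprime_iff_gcd_eq_one]
    exact ((Nat.prime_iff_prime_int.1 hp).coprime_iff_not_dvd.2 h).symm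
  have := jacobiSym.sq_one h1
  rwa [pow_two] at this

theorem r1_L_pm {x : ℚ} (hx : x ≠ 0) (h : padicValRat p x = 0) :
    r1_L p x = 1 ∨ r1_L p x = -1 := by
  obtain ⟨h1, h2⟩ := r1_unit hp hx h
  have h3 : ¬ (p : ℤ) ∣ x.num * x.den := by
    intro h4
    rcases (Nat.prime_iff_prime_int.1 hp).dvd_or_dvd h4 with h5 | h5
    · exact h1 h5
    · exact h2 (Int.natCast_dvd_natCast.1 h5)
  have h5 := r1_jsq hp h3
  exact mul_self_eq_one_iff.1 h5

theorem r1_L_mul {x y : ℚ} (hx : x ≠ 0) (hy : y ≠ 0) (hvx : padicValRat p x = 0)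
    (hvy : padicValRat p y = 0) : r1_L p (x * y) = r1_L p x * r1_L p y := by
  have := Fact.mk hp
  have hxy : x * y ≠ 0 := mul_ne_zero hx hy
  have hv : padicValRat p (x * y) = 0 := by
    rw [padicValRat.mul hx hy, hvx, hvy, add_zero]
  obtain ⟨a1, a2⟩ := r1_unit hp hx hvx
  obtain ⟨b1, b2⟩ := r1_unit hp hy hvy
  obtain ⟨c1, c2⟩ := r1_unit hp hxy hv
  have e := Rat.mul_num_den' x y
  have j1 := congrArg (fun z : ℤ => jacobiSym z p) e
  simp only [jacobiSym.mul_left] at j1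
  have k1 := r1_jsq hp (n := (x.den : ℤ)) (fun h => a2 (Int.natCast_dvd_natCast.1 h))
  have k2 := r1_jsq hp (n := (y.den : ℤ)) (fun h => b2 (Int.natCast_dvd_natCast.1 h))
  have k3 := r1_jsq hp (n := ((x * y).den : ℤ)) (fun h => c2 (Int.natCast_dvd_natCast.1 h))
  unfold r1_L
  simp only [jacobiSym.mul_left]
  calc jacobiSym (x * y).num p * jacobiSym ((x * y).den : ℤ) p
      = (jacobiSym (x * y).num p * jacobiSym (x.den : ℤ) p * jacobiSym (y.den : ℤ) p) *
        jacobiSym ((x * y).den : ℤ) p * jacobiSym (x.den : ℤ) p * jacobiSym (y.den : ℤ) p := by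
        linear_combination (- jacobiSym (x * y).num p * jacobiSym ((x * y).den : ℤ) p *
          (jacobiSym (y.den : ℤ) p * jacobiSym (y.den : ℤ) p)) * k1 +
          (- jacobiSym (x * y).num p * jacobiSym ((x * y).den : ℤ) p) * k2
    _ = jacobiSym x.num p * jacobiSym (x.den : ℤ) p *
        (jacobiSym y.num p * jacobiSym (y.den : ℤ) p) := by
        rw [j1]
        linear_combination (jacobiSym x.num p * jacobiSym (x.den : ℤ) p *
          (jacobiSym y.num p * jacobiSym (y.den : ℤ) p)) * k3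

theorem r1_lg_mul {x y : ℚ} (hx : x ≠ 0) (hy : y ≠ 0) (hvx : padicValRat p x = 0)
    (hvy : padicValRat p y = 0) :
    lg (r1_L p (x * y)) = lg (r1_L p x) + lg (r1_L p y) := by
  rw [r1_L_mul hp hx hy hvx hvy]
  rcases r1_L_pm hp hx hvx with h1 | h1 <;> rcases r1_L_pm hp hy hvy with h2 | h2 <;>
    rw [h1, h2] <;> simp [lg] <;> decide

omit hp in
theorem r1_L_one : r1_L p 1 = 1 := by
  unfold r1_L
  simp

omit hp in
theorem r1_lg_one : lg (r1_L p 1) = 0 := by
  rw [r1_L_one]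
  simp [lg]

theorem r1_val_zpow (a : ℚ) (n : ℤ) :
    padicValRat p (a ^ n) = n * padicValRat p a := by
  have := Fact.mk hp
  exact padicValRat.zpow a

omit hp in
theorem r1_val_m1 : padicValRat p (-1 : ℚ) = 0 := by
  rw [padicValRat.neg, padicValRat.one]

theorem r1_lg_zpow {a : ℚ} (ha : a ≠ 0) (hv : padicValRat p a = 0) (n : ℤ) :
    lg (r1_L p (a ^ n)) = (n : ZMod 2) * lg (r1_L p a) := by
  let f : ℤ →+ ZMod 2 := AddMonoidHom.mk' (fun n => lg (r1_L p (a ^ n))) (by
    intro m n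
    rw [zpow_add₀ ha]
    exact r1_lg_mul hp (zpow_ne_zero _ ha) (zpow_ne_zero _ ha)
      (by rw [r1_val_zpow hp a, hv, mul_zero]) (by rw [r1_val_zpow hp a, hv, mul_zero]))
  have h1 : f n = n • f 1 := by
    rw [← map_zsmul]
    simp
  have h2 : f 1 = lg (r1_L p a) := by
    show lg (r1_L p (a ^ (1 : ℤ))) = _
    rw [zpow_one]
  have h3 : f n = lg (r1_L p (a ^ n)) := rfl
  rw [← h3, h1, h2, zsmul_eq_mul]

omit hp in
theorem r1_u_ne {a b : ℚ} (ha : a ≠ 0) (hb : b ≠ 0) : r1_u p a b ≠ 0 := by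
  unfold r1_u
  exact mul_ne_zero (mul_ne_zero (zpow_ne_zero _ (by norm_num)) (zpow_ne_zero _ ha))
    (zpow_ne_zero _ hb)

theorem r1_u_val {a b : ℚ} (ha : a ≠ 0) (hb : b ≠ 0) : padicValRat p (r1_u p a b) = 0 := by
  have := Fact.mk hp
  unfold r1_u
  rw [padicValRat.mul (mul_ne_zero (zpow_ne_zero _ (by norm_num)) (zpow_ne_zero _ ha))
    (zpow_ne_zero _ hb), padicValRat.mul (zpow_ne_zero _ (by norm_num)) (zpow_ne_zero _ ha),
    r1_val_zpow hp (-1), r1_val_zpow hp a, r1_val_zpow hp b, r1_val_m1]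
  ring

theorem r1_mul_left {a a' b : ℚ} (ha : a ≠ 0) (ha' : a' ≠ 0) (hb : b ≠ 0) :
    tm p (a * a') b = tm p a b + tm p a' b := by
  have := Fact.mk hp
  rw [r1_tm, r1_tm, r1_tm, ← r1_lg_mul hp (r1_u_ne ha hb) (r1_u_ne ha' hb)
    (r1_u_val hp ha hb) (r1_u_val hp ha' hb)]
  congr 2
  unfold r1_u
  rw [padicValRat.mul ha ha', add_mul, zpow_add₀ (by norm_num : (-1 : ℚ) ≠ 0), mul_zpow, neg_add,
    zpow_add₀ hb]
  ring

theorem r1_mul_right {a b b' : ℚ} (ha : a ≠ 0) (hb : b ≠ 0) (hb' : b' ≠ 0) :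
    tm p a (b * b') = tm p a b + tm p a b' := by
  have := Fact.mk hp
  rw [r1_tm, r1_tm, r1_tm, ← r1_lg_mul hp (r1_u_ne ha hb) (r1_u_ne ha hb')
    (r1_u_val hp ha hb) (r1_u_val hp ha hb')]
  congr 2
  unfold r1_u
  rw [padicValRat.mul hb hb', mul_add, zpow_add₀ (by norm_num : (-1 : ℚ) ≠ 0), mul_zpow,
    zpow_add₀ ha]
  ring

theorem r1_tmV {a b : ℚ} (ha : a ≠ 0) (h : padicValRat p a = 0) :
    tm p a b = ((padicValRat p b : ℤ) : ZMod 2) * lg (r1_L p a) := by
  rw [r1_tm, ← r1_lg_zpow hp ha h]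
  congr 2
  unfold r1_u
  rw [h, zero_mul, neg_zero, zpow_zero, zpow_zero, one_mul, mul_one]

theorem r1_tmV' {a b : ℚ} (hb : b ≠ 0) (h : padicValRat p b = 0) :
    tm p a b = ((padicValRat p a : ℤ) : ZMod 2) * lg (r1_L p b) := by
  have h1 : tm p a b = ((-padicValRat p a : ℤ) : ZMod 2) * lg (r1_L p b) := by
    rw [r1_tm, ← r1_lg_zpow hp hb h]
    congr 2
    unfold r1_u
    rw [h, mul_zero, zpow_zero, zpow_zero, one_mul, one_mul]
  rw [h1]
  congr 1
  push_cast
  exact ZMod.neg_eq_self_mod_two _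

theorem r1_sq_left {a b : ℚ} (ha : a ≠ 0) (hb : b ≠ 0) : tm p (a ^ 2) b = 0 := by
  rw [pow_two, r1_mul_left hp ha ha hb, z2]

theorem r1_sq_right {a b : ℚ} (ha : a ≠ 0) (hb : b ≠ 0) : tm p a (b ^ 2) = 0 := by
  rw [pow_two, r1_mul_right hp ha hb hb, z2]

omit hp in
theorem r1_neg_self {b : ℚ} (hb : b ≠ 0) : tm p (-b) b = 0 := by
  have h1 : r1_u p (-b) b = 1 := by
    unfold r1_u
    rw [padicValRat.neg]
    set v := padicValRat p b
    have h2 : (-b) ^ v = (-1) ^ v * b ^ v := by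
      rw [← mul_zpow]
      congr 1
      ring
    rw [h2, zpow_neg]
    have h3 : b ^ v ≠ 0 := zpow_ne_zero _ hb
    have h4 : (-1 : ℚ) ^ (v * v) * ((-1) ^ v * b ^ v) * (b ^ v)⁻¹ = (-1) ^ (v * v) * (-1) ^ v := by
      field_simp
    rw [h4, ← zpow_add₀ (by norm_num : (-1 : ℚ) ≠ 0)]
    have h5 : Even (v * v + v) := by
      rw [← mul_add_one]
      exact Int.even_mul_succ_self v
    exact h5.neg_one_zpow
  rw [r1_tm, h1, r1_lg_one]

theorem r1_val_one_add {c : ℚ} (h : c = 0 ∨ 1 ≤ padicValRat p c) (h1 : 1 + c ≠ 0) :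
    padicValRat p (1 + c) = 0 := by
  have := Fact.mk hp
  rcases h with h | h
  · rw [h, add_zero, padicValRat.one]
  · have hc : c ≠ 0 := by
      rintro rfl
      simp at h
    rw [padicValRat.add_eq_of_lt h1 one_ne_zero hc (by rw [padicValRat.one]; omega),
      padicValRat.one]

theorem r1_L_cong {u : ℚ} (hu : u ≠ 0) (h : u = 1 ∨ 1 ≤ padicValRat p (u - 1)) :
    padicValRat p u = 0 ∧ r1_L p u = 1 := by
  have := Fact.mk hp
  have h0 : padicValRat p u = 0 := by
    have := r1_val_one_add hp (c := u - 1) (by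
      rcases h with h | h
      · left; rw [h]; ring
      · right; exact h) (by rwa [add_sub_cancel])
    rwa [add_sub_cancel] at this
  refine ⟨h0, ?_⟩
  rcases h with h | h
  · rw [h, r1_L_one]
  obtain ⟨h1, h2⟩ := r1_unit hp hu h0
  have hu1 : u - 1 ≠ 0 := by
    intro h3
    rw [h3] at h
    simp at h
  have e : ((u.num - u.den : ℤ) : ℚ) = (u - 1) * (u.den : ℚ) := by
    have h4 := Rat.num_div_den u
    have h5 : (u.den : ℚ) ≠ 0 := by exact_mod_cast u.den_nz
    push_cast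
    rw [sub_mul, one_mul]
    congr 1
    rw [← h4]
    rw [div_eq_iff h5] at h4
    conv_lhs => rw [show ((u.num : ℚ) / u.den).num = u.num by rw [Rat.num_div_den]]
    rw [Rat.num_div_den]
    exact h4
  have h3 : (p : ℤ) ∣ u.num - u.den := by
    have h4 : u.num - u.den ≠ 0 := by
      intro h5
      rw [h5] at e
      have h6 : (u.den : ℚ) ≠ 0 := by exact_mod_cast u.den_nz
      exact (mul_ne_zero hu1 h6) (by rw [← e]; norm_num)
    have h5 : 1 ≤ padicValRat p ((u.num - u.den : ℤ) : ℚ) := by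
      rw [e, padicValRat.mul hu1 (by exact_mod_cast u.den_nz)]
      have : 0 ≤ padicValRat p (u.den : ℚ) := by
        rw [padicValRat.of_nat]
        positivity
      omega
    rw [padicValRat.of_int] at h5
    have h6 : 1 ≤ padicValInt p (u.num - u.den) := by exact_mod_cast h5
    by_contra h7
    rw [padicValInt.eq_zero_of_not_dvd h7] at h6
    omega
  unfold r1_L
  rw [jacobiSym.mul_left]
  have h4 : jacobiSym u.num p = jacobiSym (u.den : ℤ) p := by
    apply jacobiSym.mod_left'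
    exact ((Int.modEq_iff_dvd).2 h3).symm
  rw [h4]
  exact r1_jsq hp (fun h => h2 (Int.natCast_dvd_natCast.1 h))

theorem r1_cong {u b : ℚ} (hu : u ≠ 0) (h : u = 1 ∨ 1 ≤ padicValRat p (u - 1)) :
    tm p u b = 0 := by
  obtain ⟨h0, h1⟩ := r1_L_cong hp hu h
  rw [r1_tmV hp hu h0, h1]
  simp [lg]

theorem r1_stein {c : ℚ} (hc : c ≠ 0) (hc1 : 1 - c ≠ 0) : tm p (1 - c) c = 0 := by
  have := Fact.mk hp
  rcases lt_trichotomy (padicValRat p c) 0 with h | h | h
  · have hi : 1 - c⁻¹ ≠ 0 := by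
      intro h1
      apply hc1
      have h2 : c⁻¹ = 1 := by linarith
      rw [inv_eq_one.1 h2, sub_self]
    have e : 1 - c = (-c) * (1 - c⁻¹) := by
      field_simp
      ring
    rw [e, r1_mul_left hp (neg_ne_zero.2 hc) hi hc, r1_neg_self hc, zero_add]
    apply r1_cong hp hi
    right
    rw [show 1 - c⁻¹ - 1 = -c⁻¹ by ring, padicValRat.neg, padicValRat.inv]
    omega
  · have h1 : 0 ≤ padicValRat p (1 - c) := by
      have h2 := padicValRat.min_le_padicValRat_add (p := p) (q := 1) (r := -c)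
        (by rwa [← sub_eq_add_neg])
      rw [← sub_eq_add_neg, padicValRat.neg, h, padicValRat.one, min_self] at h2
      exact h2
    rw [r1_tmV' hp hc h]
    rcases h1.eq_or_lt with h2 | h2
    · rw [← h2]
      simp
    · have h3 : r1_L p c = 1 := by
        apply (r1_L_cong hp hc _).2
        right
        rw [show c - 1 = -(1 - c) by ring, padicValRat.neg]
        omega
      rw [h3]
      simp [lg]
  · apply r1_cong hp hc1
    right
    rw [show 1 - c - 1 = -c by ring, padicValRat.neg]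
    omega

theorem r1_norm {b x y : ℚ} (hb : b ≠ 0) (h : x ^ 2 - b * y ^ 2 ≠ 0) :
    tm p (x ^ 2 - b * y ^ 2) b = 0 := by
  by_cases hy : y = 0
  · rw [hy] at h ⊢
    have hx : x ≠ 0 := by
      rintro rfl
      apply h
      ring
    rw [show x ^ 2 - b * 0 ^ 2 = x ^ 2 by ring]
    exact r1_sq_left hp hx hb
  by_cases hx : x = 0
  · rw [hx] at h ⊢
    rw [show 0 ^ 2 - b * y ^ 2 = (-b) * y ^ 2 by ring,
      r1_mul_left hp (neg_ne_zero.2 hb) (pow_ne_zero _ hy) hb, r1_neg_self hb,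
      r1_sq_left hp hy hb, add_zero]
  have hyx : y / x ≠ 0 := div_ne_zero hy hx
  have hc : b * (y / x) ^ 2 ≠ 0 := mul_ne_zero hb (pow_ne_zero _ hyx)
  have e : x ^ 2 - b * y ^ 2 = x ^ 2 * (1 - b * (y / x) ^ 2) := by
    field_simp
  have hc1 : 1 - b * (y / x) ^ 2 ≠ 0 := by
    intro h1
    apply h
    rw [e, h1, mul_zero]
  have h1 := r1_stein hp hc hc1
  rw [r1_mul_right hp hc1 hb (pow_ne_zero _ hyx), r1_sq_right hp hc1 hyx, add_zero] at h1
  rw [e, r1_mul_left hp (pow_ne_zero _ hx) hc1 hb, r1_sq_left hp hx hb, h1, add_zero]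

end

/-- row R1: the tame symbols are local symbols -/
theorem st_tm : StTm := by
  intro p hp _
  exact ⟨fun a a' b ha ha' hb => r1_mul_left hp ha ha' hb,
    fun a b b' ha hb hb' => r1_mul_right hp ha hb hb',
    fun b x y hb h => r1_norm hp hb h,
    fun u b hu _ h => r1_cong hp hu (by simpa using h)⟩

/-- row R1: the tame symbol of a unit -/
theorem st_tmV : StTmV := by
  intro p hp _ a b ha _ h
  exact r1_tmV hp ha h

theorem r1_tm_zero_left (p : ℕ) (b : ℚ) : tm p 0 b = 0 := by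
  rw [r1_tm]
  unfold r1_u
  rw [padicValRat.zero, zero_mul, neg_zero, zpow_zero, zpow_zero, one_mul, mul_one]
  by_cases hv : padicValRat p b = 0
  · rw [hv, zpow_zero, r1_lg_one]
  · rw [zero_zpow _ hv]
    unfold r1_L lg
    rw [if_neg]
    intro h
    have h1 : (0 : ℚ).num * ((0 : ℚ).den : ℤ) = 0 := by simp
    rw [h1] at h
    have hp : p = 0 ∨ p = 1 ∨ 1 < p := by omega
    rcases hp with hp | hp | hp
    · rw [hp, jacobiSym.zero_right] at h
      omega
    · rw [hp, jacobiSym.one_right] at h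
      omega
    · rw [jacobiSym.zero_left hp] at h
      omega

theorem r1_tm_zero_right (p : ℕ) (a : ℚ) : tm p a 0 = 0 := by
  rw [r1_tm]
  unfold r1_u
  rw [padicValRat.zero, mul_zero, zpow_zero, zpow_zero, one_mul, one_mul]
  by_cases hv : -padicValRat p a = 0
  · rw [hv, zpow_zero, r1_lg_one]
  · rw [zero_zpow _ hv]
    unfold r1_L lg
    rw [if_neg]
    intro h
    have h1 : (0 : ℚ).num * ((0 : ℚ).den : ℤ) = 0 := by simp
    rw [h1] at h
    have hp : p = 0 ∨ p = 1 ∨ 1 < p := by omega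
    rcases hp with hp | hp | hp
    · rw [hp, jacobiSym.zero_right] at h
      omega
    · rw [hp, jacobiSym.one_right] at h
      omega
    · rw [jacobiSym.zero_left hp] at h
      omega

theorem r1_val_zero {p : ℕ} {a : ℚ} (h1 : ¬ p ∣ a.num.natAbs) (h2 : ¬ p ∣ a.den) :
    padicValRat p a = 0 := by
  have h3 : padicValInt p a.num = 0 := padicValNat.eq_zero_of_not_dvd h1
  have h4 : padicValNat p a.den = 0 := padicValNat.eq_zero_of_not_dvd h2
  show ((padicValInt p a.num : ℕ) : ℤ) - (padicValNat p a.den : ℤ) = 0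
  rw [h3, h4]
  rfl

/-- row R1: all but finitely many symbols are trivial -/
theorem st_tmF : StTmF := by
  intro a b
  by_cases ha : a = 0
  · rw [ha]
    simp only [r1_tm_zero_left]
    simp
  by_cases hb : b = 0
  · rw [hb]
    simp only [r1_tm_zero_right]
    simp
  have hN : a.num.natAbs * a.den * (b.num.natAbs * b.den) ≠ 0 :=
    mul_ne_zero (mul_ne_zero (Int.natAbs_ne_zero.2 (Rat.num_ne_zero.2 ha)) a.den_nz)
      (mul_ne_zero (Int.natAbs_ne_zero.2 (Rat.num_ne_zero.2 hb)) b.den_nz)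
  have hf : {q : {p : ℕ // p.Prime ∧ p ≠ 2} |
      (q : ℕ) ∈ ((a.num.natAbs * a.den * (b.num.natAbs * b.den)).divisors : Set ℕ)}.Finite :=
    Set.Finite.preimage (Subtype.val_injective.injOn) (Finset.finite_toSet _)
  apply hf.subset
  intro q hq
  simp only [Set.mem_ofPred_eq, Finset.mem_coe, Nat.mem_divisors]
  refine ⟨?_, hN⟩
  by_contra hd
  apply hq
  have d1 : ¬ (q : ℕ) ∣ a.num.natAbs := fun h => hd ((h.mul_right _).mul_right _)
  have d2 : ¬ (q : ℕ) ∣ a.den := fun h => hd ((h.mul_left _).mul_right _)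
  have d3 : ¬ (q : ℕ) ∣ b.num.natAbs := fun h => hd ((h.mul_right _).mul_left _)
  have d4 : ¬ (q : ℕ) ∣ b.den := fun h => hd ((h.mul_left _).mul_left _)
  rw [r1_tmV q.2.1 ha (r1_val_zero d1 d2), r1_val_zero d3 d4]
  simp

end Pool.Agent.H32.MA
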