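import Pool.Agent.H32.MA.AStm
import Pool.Agent.H32.MA.RTm
import Pool.Agent.H98.MK.ParClass
import Pool.Agent.H98.ML.Embed2
import Pool.Agent.H98.ML.Nec2

/-!
# Project MA9 (MP_a9b340), block A, row A4: cup products of quadratic characters and symbols
-/

set_option autoImplicit false

open scoped BigOperators

namespace Pool.Agent.H32.MA

open Pool.Agent.H98.MK (Om Gam chi dd adm par lg par_hom par_lc k3tt k3_one tate steinberg chi_mul
  chi_hom chi_lc chi_isSquare par_exists)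
open Pool.Agent.H98.ML (Dt IsLift Sol ek_coord ek_tame ek_inf nec)

theorem a4_one {φ : ℚ → ZMod 2} (h : ∀ x y, x ≠ 0 → y ≠ 0 → φ (x * y) = φ x + φ y) :
    φ 1 = 0 := by
  have h1 := h 1 1 one_ne_zero one_ne_zero
  rw [mul_one, z2] at h1
  exact h1

theorem a4_prod {φ : ℚ → ZMod 2} (h : ∀ x y, x ≠ 0 → y ≠ 0 → φ (x * y) = φ x + φ y)
    (S : Finset ℕ) (u : ℕ → ℚ) (hu : ∀ i ∈ S, u i ≠ 0) (w : ℕ → ZMod 2) :
    (∏ i ∈ S, u i ^ (w i).val) ≠ 0 ∧
      φ (∏ i ∈ S, u i ^ (w i).val) = ∑ i ∈ S, w i * φ (u i) := by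
  classical
  induction S using Finset.induction_on with
  | empty => exact ⟨by simp, by simpa using a4_one h⟩
  | insert a T ha ih =>
    obtain ⟨h1, h2⟩ := ih fun i hi => hu i (Finset.mem_insert_of_mem hi)
    have h3 : u a ^ (w a).val ≠ 0 := pow_ne_zero _ (hu a (Finset.mem_insert_self _ _))
    rw [Finset.prod_insert ha, Finset.sum_insert ha]
    refine ⟨mul_ne_zero h3 h1, ?_⟩
    rw [h _ _ h3 h1, h2]
    congr 1
    have h4 : w a = 0 ∨ w a = 1 := by
      generalize w a = y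
      revert y
      decide
    rcases h4 with h4 | h4
    · rw [h4]
      simpa using a4_one h
    · rw [h4]
      have : (1 : ZMod 2).val = 1 := rfl
      rw [this, pow_one, one_mul]

/-- values at a rational number with given quadratic character -/
theorem a4_phi {φ : ℚ → ZMod 2} (h : ∀ x y, x ≠ 0 → y ≠ 0 → φ (x * y) = φ x + φ y)
    (S : Finset ℕ) (u : ℕ → ℚ) (hu : ∀ i ∈ S, u i ≠ 0) (w : ℕ → ZMod 2) {c : ℚ} (hc : c ≠ 0)
    (hch : ∀ σ : Gam, chi c σ = ∑ i ∈ S, w i * chi (u i) σ) :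
    φ c = ∑ i ∈ S, w i * φ (u i) := by
  obtain ⟨h1, h2⟩ := a4_prod h S u hu w
  set P := ∏ i ∈ S, u i ^ (w i).val with hP
  have h3 : ∀ σ : Gam, chi (c * P) σ = 0 := by
    intro σ
    obtain ⟨-, h5⟩ := a4_prod (φ := fun x => chi x σ)
      (fun x y hx hy => chi_mul x y hx hy σ) S u hu w
    rw [chi_mul c P hc h1 σ, hch σ]
    change _ + chi P σ = 0
    rw [show chi P σ = ∑ i ∈ S, w i * chi (u i) σ from h5, z2]
  obtain ⟨z, hz⟩ := chi_isSquare _ h3
  have hz0 : z ≠ 0 := by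
    intro h6
    rw [h6, mul_zero] at hz
    exact mul_ne_zero hc h1 hz
  have h7 : φ c + φ P = 0 := by
    rw [← h c P hc h1, hz, h z z hz0 hz0, z2]
  rw [z2' h7, h2]

/-- bilinear expansion of a symbol -/
theorem a4_bil {s : ℚ → ℚ → ZMod 2}
    (hl : ∀ a a' b : ℚ, a ≠ 0 → a' ≠ 0 → b ≠ 0 → s (a * a') b = s a b + s a' b)
    (hr : ∀ a b b' : ℚ, a ≠ 0 → b ≠ 0 → b' ≠ 0 → s a (b * b') = s a b + s a b')
    (S : Finset ℕ) (u : ℕ → ℚ) (hu : ∀ i ∈ S, u i ≠ 0) (v w : ℕ → ZMod 2) {c d : ℚ}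
    (hc : c ≠ 0) (hd : d ≠ 0)
    (hcc : ∀ σ : Gam, chi c σ = ∑ i ∈ S, v i * chi (u i) σ)
    (hdd : ∀ σ : Gam, chi d σ = ∑ i ∈ S, w i * chi (u i) σ) :
    s c d = ∑ i ∈ S, ∑ j ∈ S, v j * w i * s (u j) (u i) := by
  rw [a4_phi (φ := fun x => s x d) (fun x y hx hy => hl x y d hx hy hd) S u hu v hc hcc,
    Finset.sum_comm]
  refine Finset.sum_congr rfl fun j hj => ?_
  rw [a4_phi (φ := fun x => s (u j) x) (fun x y hx hy => hr (u j) x y (hu j hj) hx hy) S u hu w
    hd hdd, Finset.mul_sum]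
  refine Finset.sum_congr rfl fun i _ => ?_
  rw [mul_assoc]

theorem a4_inf_left {a a' b : ℚ} (ha : a ≠ 0) (ha' : a' ≠ 0) (_hb : b ≠ 0) :
    tinf (a * a') b = tinf a b + tinf a' b := by
  unfold tinf
  by_cases h : b < 0
  · rcases lt_or_gt_of_ne ha with h1 | h1 <;> rcases lt_or_gt_of_ne ha' with h2 | h2
    · have h3 : ¬ a * a' < 0 := not_lt.2 (mul_pos_of_neg_of_neg h1 h2).le
      simp only [h, h1, h2, h3, and_true, if_true, if_false]
      rfl
    · have h3 : a * a' < 0 := mul_neg_of_neg_of_pos h1 h2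
      simp only [h, h1, not_lt.2 h2.le, h3, and_true, if_true, if_false, add_zero]
    · have h3 : a * a' < 0 := mul_neg_of_pos_of_neg h1 h2
      simp only [h, h2, not_lt.2 h1.le, h3, and_true, if_true, if_false, zero_add]
    · have h3 : ¬ a * a' < 0 := not_lt.2 (mul_pos h1 h2).le
      simp only [h, not_lt.2 h2.le, not_lt.2 h1.le, h3, and_true, if_false, add_zero]
  · simp only [h, and_false, if_false, add_zero]

theorem a4_inf_symm (a b : ℚ) : tinf a b = tinf b a := by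
  unfold tinf
  simp only [and_comm]

theorem a4_inf_right {a b b' : ℚ} (ha : a ≠ 0) (hb : b ≠ 0) (hb' : b' ≠ 0) :
    tinf a (b * b') = tinf a b + tinf a b' := by
  rw [a4_inf_symm, a4_inf_left hb hb' ha, a4_inf_symm b, a4_inf_symm b']

/-- the data of the sum of three cup products -/
@[reducible] noncomputable def a4D : Dt where
  r := 6
  s := 1
  β := LinearMap.mk₂ (ZMod 2) (fun v w _ => v 0 * w 3 + v 1 * w 4 + v 2 * w 5)
    (by intro m m' n; funext i; simp only [Pi.add_apply]; ring)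
    (by intro c m n; funext i; simp only [Pi.smul_apply, smul_eq_mul]; ring)
    (by intro m m' n; funext i; simp only [Pi.add_apply]; ring)
    (by intro c m n; funext i; simp only [Pi.smul_apply, smul_eq_mul]; ring)
  spz := by
    rw [eq_top_iff]
    intro z _
    have h1 : z = z 0 • (LinearMap.mk₂ (ZMod 2)
        (fun v w (_ : Fin 1) => v 0 * w 3 + v 1 * w 4 + v 2 * w 5)
        (by intro m m' n; funext i; simp only [Pi.add_apply]; ring)
        (by intro c m n; funext i; simp only [Pi.smul_apply, smul_eq_mul]; ring)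
        (by intro m m' n; funext i; simp only [Pi.add_apply]; ring)
        (by intro c m n; funext i; simp only [Pi.smul_apply, smul_eq_mul]; ring)
        : (Fin 6 → ZMod 2) →ₗ[ZMod 2] (Fin 6 → ZMod 2) →ₗ[ZMod 2] (Fin 1 → ZMod 2))
        ![1, 0, 0, 1, 0, 0] ![1, 0, 0, 1, 0, 0] := by
      funext i
      have hi : i = 0 := Subsingleton.elim _ _
      subst hi
      simp [LinearMap.mk₂_apply]
    rw [h1]
    exact Submodule.smul_mem _ _ (Submodule.subset_span ⟨_, rfl⟩)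

theorem a4_beta (v w : a4D.V) (k : Fin a4D.s) :
    a4D.β v w k = v (0 : Fin 6) * w (3 : Fin 6) + v (1 : Fin 6) * w (4 : Fin 6) +
      v (2 : Fin 6) * w (5 : Fin 6) := rfl

theorem a4_dd_ne {i : ℕ} (hi : i = 1 ∨ i.Prime) : ((dd i : ℤ) : ℚ) ≠ 0 := by
  have h1 : dd i ≠ 0 := by
    unfold dd
    rcases hi with hi | hi
    · rw [if_pos hi]
      decide
    · have := hi.pos
      split_ifs <;> omega
  exact_mod_cast h1

theorem a4_val_self {p : ℕ} (hp : p.Prime) (hp2 : p ≠ 2) :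
    padicValRat p ((dd p : ℤ) : ℚ) = 1 := by
  have := Fact.mk hp
  have h1 : dd p = (p : ℤ) ∨ dd p = -(p : ℤ) := by
    unfold dd
    have := hp.one_lt
    split_ifs <;> omega
  rcases h1 with h1 | h1
  · rw [h1]
    simp [hp.one_lt]
  · rw [h1]
    push_cast
    rw [padicValRat.neg]
    simp [hp.one_lt]

theorem a4_val_ne {p i : ℕ} (hp : p.Prime) (hp2 : p ≠ 2) (hi : i = 1 ∨ i.Prime) (hip : i ≠ p) :
    padicValRat p ((dd i : ℤ) : ℚ) = 0 := by
  have := Fact.mk hp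
  rw [padicValRat.of_int]
  have h1 : (dd i).natAbs = i ∨ (dd i).natAbs = 1 := by
    unfold dd
    split_ifs <;> omega
  have h2 : ¬ (p : ℤ) ∣ dd i := by
    intro h3
    have h4 : p ∣ (dd i).natAbs := Int.natCast_dvd.1 h3
    rcases h1 with h1 | h1
    · rw [h1] at h4
      rcases hi with hi | hi
      · rw [hi] at h4
        exact hp.one_lt.ne' (Nat.dvd_one.1 h4)
      · exact hip ((Nat.prime_dvd_prime_iff_eq hp hi).1 h4).symm
    · rw [h1] at h4
      exact hp.one_lt.ne' (Nat.dvd_one.1 h4)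
  rw [padicValInt.eq_zero_of_not_dvd h2]
  rfl

theorem a4_tm_tt {p i j : ℕ} (hp : p.Prime) (hp2 : p ≠ 2) (hi : i = 1 ∨ i.Prime)
    (hj : j = 1 ∨ j.Prime) : tm p ((dd j : ℤ) : ℚ) ((dd i : ℤ) : ℚ) = k3tt p i j := by
  have hT := st_tm p hp hp2
  have hi0 := a4_dd_ne hi
  have hj0 := a4_dd_ne hj
  unfold k3tt
  by_cases h1 : i = p
  · by_cases h2 : j = p
    · rw [if_pos ⟨h1, h2⟩, h1, h2]
      have hp0 := a4_dd_ne (Or.inr hp)
      have h3 := hT.neg_self hp0
      have h4 := hT.mul_left (-1) ((dd p : ℤ) : ℚ) ((dd p : ℤ) : ℚ) (by norm_num) hp0 hp0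
      rw [neg_one_mul, h3] at h4
      rw [← z2' h4.symm, st_tmV p hp hp2 _ _ (by norm_num) hp0 r1_val_m1, a4_val_self hp hp2]
      norm_num
    · rw [if_neg (fun h => h2 h.2), if_pos h1, h1,
        st_tmV p hp hp2 _ _ hj0 (a4_dd_ne (Or.inr hp)) (a4_val_ne hp hp2 hj h2),
        a4_val_self hp hp2]
      simp
  · by_cases h2 : j = p
    · rw [if_neg (fun h => h1 h.1), if_neg h1, if_pos h2, hT.symm hj0 hi0, h2,
        st_tmV p hp hp2 _ _ hi0 (a4_dd_ne (Or.inr hp)) (a4_val_ne hp hp2 hi h1),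
        a4_val_self hp hp2]
      simp
    · rw [if_neg (fun h => h1 h.1), if_neg h1, if_neg h2,
        st_tmV p hp hp2 _ _ hj0 hi0 (a4_val_ne hp hp2 hj h2), a4_val_ne hp hp2 hi h1]
      simp

theorem a4_inf_tt (i j : ℕ) : tinf ((dd j : ℤ) : ℚ) ((dd i : ℤ) : ℚ) =
    if dd i < 0 ∧ dd j < 0 then 1 else 0 := by
  unfold tinf
  have h1 : ∀ n : ℤ, ((n : ℤ) : ℚ) < 0 ↔ n < 0 := fun n => by exact_mod_cast Iff.rfl
  simp only [h1, and_comm]

/-- A4: symbols and cup products -/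
theorem saBr (h1 : StTm) : SaBr := by
  intro a b ha hb
  set f : Gam → (Fin 6 → ZMod 2) := fun σ =>
    ![chi (a 0) σ, chi (a 1) σ, chi (a 2) σ, chi (b 0) σ, chi (b 1) σ, chi (b 2) σ] with hf
  have hlc : IsLocallyConstant f := by
    rw [IsLocallyConstant.iff_eventually_eq]
    intro σ
    filter_upwards [(IsLocallyConstant.iff_eventually_eq _).1 (chi_lc (a 0)) σ,
      (IsLocallyConstant.iff_eventually_eq _).1 (chi_lc (a 1)) σ,
      (IsLocallyConstant.iff_eventually_eq _).1 (chi_lc (a 2)) σ,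
      (IsLocallyConstant.iff_eventually_eq _).1 (chi_lc (b 0)) σ,
      (IsLocallyConstant.iff_eventually_eq _).1 (chi_lc (b 1)) σ,
      (IsLocallyConstant.iff_eventually_eq _).1 (chi_lc (b 2)) σ] with y h1 h2 h3 h4 h5 h6
    simp only [hf, h1, h2, h3, h4, h5, h6]
  have hhom : ∀ σ τ, f (σ * τ) = f σ + f τ := by
    intro σ τ
    funext k
    fin_cases k <;> simp [hf, chi_hom]
  obtain ⟨x, hx, hxf⟩ : ∃ x : ℕ →₀ a4D.V, adm x ∧ par x = f := par_exists f hlc hhom
  have hxs : ∀ i ∈ x.support, i = 1 ∨ i.Prime := fun i hi => hx i (Finsupp.mem_support_iff.1 hi)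
  have hu : ∀ i ∈ x.support, ((dd i : ℤ) : ℚ) ≠ 0 := fun i hi => a4_dd_ne (hxs i hi)
  have hch : ∀ (k : Fin 6) (σ : Gam),
      f σ k = ∑ i ∈ x.support, x i k * chi ((dd i : ℤ) : ℚ) σ := by
    intro k σ
    rw [← hxf]
    unfold par
    simp only [Finsupp.sum, Finset.sum_apply, Pi.smul_apply, smul_eq_mul]
    refine Finset.sum_congr rfl fun i _ => mul_comm _ _
  have hsum : ∀ s : ℚ → ℚ → ZMod 2,
      (∀ a a' b : ℚ, a ≠ 0 → a' ≠ 0 → b ≠ 0 → s (a * a') b = s a b + s a' b) →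
      (∀ a b b' : ℚ, a ≠ 0 → b ≠ 0 → b' ≠ 0 → s a (b * b') = s a b + s a b') →
      ∑ i, s (a i) (b i) = ∑ i ∈ x.support, ∑ j ∈ x.support,
        a4D.β (x j) (x i) (0 : Fin 1) * s ((dd j : ℤ) : ℚ) ((dd i : ℤ) : ℚ) := by
    intro s hl hr
    rw [Fin.sum_univ_three,
      a4_bil hl hr x.support (fun i => ((dd i : ℤ) : ℚ)) hu (fun i => x i 0) (fun i => x i 3)
        (ha 0) (hb 0) (hch 0) (hch 3),
      a4_bil hl hr x.support (fun i => ((dd i : ℤ) : ℚ)) hu (fun i => x i 1) (fun i => x i 4)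
        (ha 1) (hb 1) (hch 1) (hch 4),
      a4_bil hl hr x.support (fun i => ((dd i : ℤ) : ℚ)) hu (fun i => x i 2) (fun i => x i 5)
        (ha 2) (hb 2) (hch 2) (hch 5),
      ← Finset.sum_add_distrib, ← Finset.sum_add_distrib]
    refine Finset.sum_congr rfl fun i _ => ?_
    rw [← Finset.sum_add_distrib, ← Finset.sum_add_distrib]
    refine Finset.sum_congr rfl fun j _ => ?_
    rw [a4_beta]
    ring
  have htm : ∀ p : ℕ, p.Prime → p ≠ 2 → ∑ i, tm p (a i) (b i) =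
      ∑ i ∈ x.support, ∑ j ∈ x.support, a4D.β (x j) (x i) (0 : Fin 1) * k3tt p i j := by
    intro p hp hp2
    have hT := h1 p hp hp2
    rw [hsum (tm p) hT.mul_left hT.mul_right]
    refine Finset.sum_congr rfl fun i hi => Finset.sum_congr rfl fun j hj => ?_
    rw [a4_tm_tt hp hp2 (hxs i hi) (hxs j hj)]
  have hinf : ∑ i, tinf (a i) (b i) = ∑ i ∈ x.support, ∑ j ∈ x.support,
      (if dd i < 0 ∧ dd j < 0 then a4D.β (x j) (x i) (0 : Fin 1) else 0) := by
    rw [hsum tinf (fun a a' b => a4_inf_left) (fun a b b' => a4_inf_right)]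
    refine Finset.sum_congr rfl fun i _ => Finset.sum_congr rfl fun j _ => ?_
    rw [a4_inf_tt]
    split_ifs <;> simp
  have hcup : ∀ σ τ : Gam, a4D.β (par x σ) (par x τ) (0 : Fin 1) = ∑ i, chi (a i) σ * chi (b i) τ := by
    intro σ τ
    rw [a4_beta, hxf, Fin.sum_univ_three]
    rfl
  constructor
  · rintro ⟨g, hg, hg2⟩
    have hL : IsLift a4D x (fun σ _ => g σ) := by
      refine ⟨?_, ?_⟩
      · rw [IsLocallyConstant.iff_eventually_eq]
        intro σ
        filter_upwards [(IsLocallyConstant.iff_eventually_eq _).1 hg σ] with y hy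
        rw [hy]
      · intro σ τ
        funext k
        have hk : k = (0 : Fin 1) := Subsingleton.elim (α := Fin 1) _ _
        subst hk
        change g (σ * τ) = g σ + g τ + a4D.β (par x σ) (par x τ) (0 : Fin 1)
        rw [hg2, hcup]
    obtain ⟨h2, h3⟩ := nec (D := a4D) hx hL
    refine ⟨fun p hp hp2 => ?_, ?_⟩
    · rw [htm p hp hp2]
      by_cases h4 : p ∈ x.support
      · exact ek_tame a4D x p h4 (h2 p hp hp2 (Finsupp.mem_support_iff.1 h4)) (0 : Fin 1)
      · refine Finset.sum_eq_zero fun i hi => Finset.sum_eq_zero fun j hj => ?_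
        have hi' : i ≠ p := fun h => h4 (h ▸ hi)
        have hj' : j ≠ p := fun h => h4 (h ▸ hj)
        unfold k3tt
        rw [if_neg (fun h => hi' h.1), if_neg hi', if_neg hj', mul_zero]
    · rw [hinf]
      exact ek_inf a4D x h3 (0 : Fin 1)
  · rintro ⟨h2, h3⟩
    obtain ⟨g, hg, hg2⟩ := k3_one (fun s hl hr hs S hS c h1 h2 => tate s hl hr hs S hS c h1 h2)
      steinberg chi_mul x.support hxs (fun i j => a4D.β (x j) (x i) (0 : Fin 1))
      (fun p _ hpp hp2 => by rw [← htm p hpp hp2]; exact h2 p hpp hp2)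
      (by rw [← hinf]; exact h3)
    refine ⟨g, hg, fun σ τ => ?_⟩
    rw [hg2, ← hcup, ek_coord]

end Pool.Agent.H32.MA
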