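import Pool.Agent.H32.MA.AStm
import Pool.Agent.H98.ML.ExistsTau
import Pool.Agent.H98.MK.ChiBasic

/-!
# Project MA9 (MP_a9b340), block A, row A3: quadratic characters at the tame generators
-/

set_option autoImplicit false

open scoped BigOperators
open NumberField IsDedekindDomain

namespace Pool.Agent.H32.MA

open Pool.Agent.H98.MK (Om Gam dabs fld chi dd adm par lg par_hom par_lc z12 chi_mul chi_sq)
open Pool.Agent.H98.MF (ord)
open Pool.Agent.H98.ML (hind norb tau IsTau)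

private theorem a3_one (σ : Gam) : chi 1 σ = 0 := by
  have h := chi_sq 1 σ
  rwa [one_pow] at h

private theorem a3_pow (x : ℚ) (hx : x ≠ 0) (σ : Gam) (v : ℕ) :
    chi (x ^ v) σ = (v : ZMod 2) * chi x σ := by
  induction v with
  | zero => simp [a3_one]
  | succ v ih =>
    rw [pow_succ, chi_mul _ _ (pow_ne_zero _ hx) hx, ih]
    push_cast
    ring

private theorem a3_tau (p : ℕ) (hp : p.Prime) (h2 : p ≠ 2) : ∃ φ : Gam, IsTau p (tau p) φ := by
  have : Fact p.Prime := ⟨hp⟩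
  have h := Pool.Agent.H98.ML.exists_tau p h2
  unfold tau
  rw [dif_pos h]
  exact h.choose_spec

private theorem a3_p (p : ℕ) (hp : p.Prime) (h2 : p ≠ 2) : chi (p : ℚ) (tau p) = 1 := by
  obtain ⟨φ, h⟩ := a3_tau p hp h2
  have hp1 : p ≠ 1 := hp.one_lt.ne'
  have h3 := h.chi1
  unfold dd at h3
  rw [if_neg hp1, if_neg h2] at h3
  split_ifs at h3 with h4
  · simpa using h3
  · have h5 : (((-(p : ℤ)) : ℤ) : ℚ) = ((-1 : ℤ) : ℚ) * (p : ℚ) := by
      push_cast
      ring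
    rw [h5, chi_mul _ _ (by norm_num) (by exact_mod_cast hp.ne_zero)] at h3
    have h6 : ¬ (p : ℤ) ∣ -1 := by
      intro h7
      have h8 : (p : ℤ) ∣ 1 := by
        have := dvd_neg.mpr h7
        simpa using this
      have h9 : p ∣ 1 := by exact_mod_cast h8
      exact hp1 (Nat.dvd_one.mp h9)
    rw [(h.chi0 (-1) h6).1, zero_add] at h3
    exact h3

private theorem a3_nat (p : ℕ) (hp : p.Prime) (h2 : p ≠ 2) (n : ℕ) (hn : n ≠ 0) :
    chi (n : ℚ) (tau p) = ((padicValNat p n : ℕ) : ZMod 2) := by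
  have : Fact p.Prime := ⟨hp⟩
  obtain ⟨φ, h⟩ := a3_tau p hp h2
  obtain ⟨c, hc⟩ := pow_padicValNat_dvd (p := p) (n := n)
  have hc0 : c ≠ 0 := by
    rintro rfl
    exact hn (by rw [hc, mul_zero])
  have hpc : ¬ (p : ℤ) ∣ (c : ℤ) := by
    intro h7
    have h8 : p ∣ c := by exact_mod_cast h7
    obtain ⟨e, he⟩ := h8
    have h9 : p ^ (padicValNat p n + 1) ∣ n := by
      refine ⟨e, ?_⟩
      rw [pow_succ, mul_assoc, ← he]
      exact hc
    exact pow_succ_padicValNat_not_dvd hn h9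
  have h10 : (n : ℚ) = (p : ℚ) ^ padicValNat p n * ((c : ℤ) : ℚ) := by
    conv_lhs => rw [hc]
    push_cast
    ring
  have hp0 : (p : ℚ) ≠ 0 := by exact_mod_cast hp.ne_zero
  rw [h10, chi_mul _ _ (pow_ne_zero _ hp0) (by exact_mod_cast hc0), a3_pow _ hp0,
    a3_p p hp h2, (h.chi0 (c : ℤ) hpc).1, mul_one, add_zero]

private theorem a3_neg (p : ℕ) (hp : p.Prime) (h2 : p ≠ 2) : chi (-1 : ℚ) (tau p) = 0 := by
  obtain ⟨φ, h⟩ := a3_tau p hp h2
  have h6 : ¬ (p : ℤ) ∣ -1 := by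
    intro h7
    have h8 : (p : ℤ) ∣ 1 := by
      have := dvd_neg.mpr h7
      simpa using this
    have h9 : p ∣ 1 := by exact_mod_cast h8
    exact hp.one_lt.ne' (Nat.dvd_one.mp h9)
  have h3 := (h.chi0 (-1) h6).1
  simpa using h3

private theorem a3_int (p : ℕ) (hp : p.Prime) (h2 : p ≠ 2) (n : ℤ) (hn : n ≠ 0) :
    chi (n : ℚ) (tau p) = ((padicValInt p n : ℕ) : ZMod 2) := by
  have h1 : n.natAbs ≠ 0 := Int.natAbs_ne_zero.mpr hn
  have h3 := a3_nat p hp h2 n.natAbs h1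
  rcases Int.natAbs_eq n with h4 | h4
  · have h5 : (n : ℚ) = (n.natAbs : ℚ) := by
      rw [← Int.cast_natCast (R := ℚ) n.natAbs, ← h4]
    rw [h5, h3]
    rfl
  · have h5 : (n : ℚ) = -1 * (n.natAbs : ℚ) := by
      rw [← Int.cast_natCast (R := ℚ) n.natAbs]
      have h6 : ((n.natAbs : ℤ) : ℚ) = ((-n : ℤ) : ℚ) := by
        rw [show (n.natAbs : ℤ) = -n by omega]
      rw [h6]
      push_cast
      ring
    rw [h5, chi_mul _ _ (by norm_num) (by exact_mod_cast h1), a3_neg p hp h2, zero_add, h3]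
    rfl

theorem saChiT : SaChiT := by
  intro p hp h2 q hq
  have hden : q.den ≠ 0 := q.den_nz
  have hden0 : (q.den : ℚ) ≠ 0 := by exact_mod_cast hden
  have hnum : q.num ≠ 0 := Rat.num_ne_zero.mpr hq
  have h1 : q * (q.den : ℚ) ^ 2 = (q.num : ℚ) * (q.den : ℚ) := by
    have h3 : q * (q.den : ℚ) = (q.num : ℚ) := Rat.mul_den_eq_num q
    rw [pow_two, ← mul_assoc, h3]
  have h4 : chi q (tau p) = chi (q * (q.den : ℚ) ^ 2) (tau p) := by
    rw [chi_mul _ _ hq (pow_ne_zero _ hden0), chi_sq, add_zero]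
  rw [h4, h1, chi_mul _ _ (by exact_mod_cast hnum) hden0, a3_int p hp h2 _ hnum,
    a3_nat p hp h2 _ hden]
  unfold padicValRat
  rw [Int.cast_sub, Int.cast_natCast, Int.cast_natCast, sub_eq_add_neg]
  congr 1
  exact (ZMod.neg_eq_self_mod_two _).symm

end Pool.Agent.H32.MA
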