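import Pool.Agent.H32.MA.RStm
import Pool.Agent.H98.MF.L.QuadX

/-!
# Project MA9 (MP_a9b340), block R, row R13: the spin of an element with odd exponents exactly
at a good set
-/

set_option autoImplicit false

open scoped BigOperators
open NumberField IsDedekindDomain

namespace Pool.Agent.H32.MA

open Pool.Agent.H98.MK (lg)
open Pool.Agent.H98.MF (ord)

section

variable {K : Type} [Field K] [NumberField K]

theorem r13_chP (P : HeightOneSpectrum (𝓞 K)) (γ : K) : chP P γ = 1 ∨ chP P γ = -1 := by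
  unfold chP
  split_ifs
  · exact Or.inl rfl
  · exact Or.inr rfl

theorem r13_ord_nat (h2 : StOrdR K) {p : ℕ} (hp : p.Prime) {P : HeightOneSpectrum (𝓞 K)}
    (hP : 1 ≤ ord P (p : K)) {m : ℕ} (hm : m ≠ 0) (hpm : ¬ p ∣ m) : ord P (m : K) = 0 := by
  have h := h2 p hp P hP m (by exact_mod_cast hm)
  rw [padicValRat.of_nat, padicValNat.eq_zero_of_not_dvd hpm] at h
  simpa using h

/-- the residue characteristic is unique -/
theorem r13_unique (h2 : StOrdR K) {p q : ℕ} (hp : p.Prime) (hq : q.Prime)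
    {P : HeightOneSpectrum (𝓞 K)} (hP : 1 ≤ ord P (p : K)) (hQ : 1 ≤ ord P (q : K)) : p = q := by
  by_contra hne
  have h := r13_ord_nat h2 hp hP hq.ne_zero
    (fun h => hne ((Nat.prime_dvd_prime_iff_eq hp hq).1 h))
  omega

/-- the conjugate of a prime of degree one is different -/
theorem r13_cj (F : QF K) (h2 : StOrdR K) (h3 : StRes K) {P : HeightOneSpectrum (𝓞 K)}
    (hP : (nP P).Prime) (hd : ¬ nP P ∣ 2 * F.d) : Pool.Agent.H98.MF.cj F.cj P ≠ P := by
  intro hPP
  obtain ⟨hPp, hres⟩ := h3 P hP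
  have hd2 : ¬ nP P ∣ 2 := fun h => hd (h.mul_right _)
  have hdd : ¬ nP P ∣ F.d := fun h => hd (h.mul_left _)
  have ho2 : ord P (2 : K) = 0 := by
    have h := r13_ord_nat h2 hP hPp two_ne_zero hd2
    simpa using h
  have hod : ord P (F.d : K) = 0 := r13_ord_nat h2 hP hPp F.d_pos.ne' hdd
  have hdl : ord P F.dl = 0 := by
    have h5 : ord P (F.dl ^ 2) = 0 := by rw [F.sq, hod]
    rw [Pool.Agent.H98.MF.ord_pow] at h5
    push_cast at h5
    omega
  obtain ⟨r, hr⟩ := hres F.dl hdl.ge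
  have hr1 : 1 ≤ ord P (F.dl - r) := by
    rcases hr with hr | hr
    · exact absurd (by push_cast; exact hr.symm) (F.dl_notin (r : ℚ))
    · exact hr
  have hr2 : 1 ≤ ord P (-F.dl - r) := by
    have h5 : ord (Pool.Agent.H98.MF.cj F.cj P) (F.dl - r) = ord P (F.cj (F.dl - r)) :=
      Pool.Agent.H98.MF.ord_cj F.cj P _
    rw [hPP, map_sub, F.cdl, map_intCast] at h5
    rw [← h5]
    exact hr1
  have h6 := Pool.Agent.H98.MF.le_ord_add P (a := F.dl - r) (b := -(-F.dl - r)) 1 (Or.inr hr1)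
    (Or.inr (by rw [Pool.Agent.H98.MF.ord_neg]; exact hr2))
  have h7 : F.dl - (r : K) + -(-F.dl - r) = 2 * F.dl := by ring
  rw [h7] at h6
  rcases h6 with h6 | h6
  · exact mul_ne_zero two_ne_zero F.dl_ne h6
  · rw [Pool.Agent.H98.MF.ord_mul P two_ne_zero F.dl_ne, ho2, hdl] at h6
    omega

theorem st_chS (F : QF K) (_h1 : StTmF) (h2 : StOrdR K) (h3 : StRes K) (h4 : StEven F)
    (h5 : StSpl F) (_h6 : StChP K) (_h7 : StUnr F) : StChS F := by
  classical
  intro m hm hdm S hS b hb hodd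
  have h2m : 2 * F.d ∣ m := (mul_dvd_mul_right (by norm_num : (2 : ℕ) ∣ 8) F.d).trans hdm
  have hm0 : ∀ {p : ℕ}, p.Prime → ¬ p ∣ m → ∀ {P : HeightOneSpectrum (𝓞 K)},
      1 ≤ ord P (p : K) → ¬ 1 ≤ ord P (m : K) := by
    intro p hp hpm P hP
    rw [r13_ord_nat h2 hp hP hm hpm]
    norm_num
  -- factors at the primes without an element of `S`
  have hA : ∀ p : ℕ, p.Prime → ¬ p ∣ m → (∀ P ∈ S, nP P ≠ p) → Th F p b = 0 := by
    intro p hp hpm hno
    refine h4 p hp (fun h => hpm (h.trans h2m)) b hb fun P hP => ?_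
    rw [← Int.not_odd_iff_even]
    intro ho
    have hPS := (hodd P (hm0 hp hpm hP)).1 ho
    have hnp := (hS.1 P hPS).1
    exact hno P hPS (r13_unique h2 hnp hp (h3 P hnp).1 hP)
  -- factors at the primes of `S`
  have hB : ∀ P ∈ S, (if Th F (nP P) b = 0 then (1 : ℤ) else -1) = chP P (F.cj b) := by
    intro P hPS
    obtain ⟨hp, hpm⟩ := hS.1 P hPS
    have hPp := (h3 P hp).1
    have hd : ¬ nP P ∣ 2 * F.d := fun h => hpm (h.trans h2m)
    have ho : Odd (ord P b) := (hodd P (hm0 hp hpm hPp)).2 hPS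
    have he : Even (ord P (F.cj b)) := by
      rw [← Int.not_odd_iff_even]
      intro ho'
      rw [← Pool.Agent.H98.MF.ord_cj F.cj P b] at ho'
      have hP' : 1 ≤ ord (Pool.Agent.H98.MF.cj F.cj P) ((nP P : ℕ) : K) := by
        rw [Pool.Agent.H98.MF.ord_cj F.cj P, map_natCast]
        exact hPp
      have hS' := (hodd _ (hm0 hp hpm hP')).1 ho'
      have hp' := (hS.1 _ hS').1
      have heq : nP (Pool.Agent.H98.MF.cj F.cj P) = nP P :=
        r13_unique h2 hp' hp (h3 _ hp').1 hP'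
      exact r13_cj F h2 h3 hp hd (hS.2 (Finset.mem_coe.2 hS') (Finset.mem_coe.2 hPS) heq)
    rw [h5 P hp hd b hb ho he]
    rcases r13_chP P (F.cj b) with h | h
    · rw [h]
      decide
    · rw [h]
      decide
  -- the index of a prime in `S`
  have hI : ∀ P ∈ S, (nP P).Prime ∧ nP P ≠ 2 ∧ ¬ nP P ∣ m := by
    intro P hPS
    obtain ⟨hp, hpm⟩ := hS.1 P hPS
    refine ⟨hp, fun h => hpm ?_, hpm⟩
    rw [h]
    exact (Dvd.intro _ rfl : 2 ∣ 2 * F.d).trans h2m
  let φ : {P // P ∈ S} → {p : ℕ // p.Prime ∧ p ≠ 2 ∧ ¬ p ∣ m} := fun P => ⟨nP P.1, hI P.1 P.2⟩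
  have hφ : Function.Injective φ := by
    intro P Q h
    have h' : nP P.1 = nP Q.1 := congrArg Subtype.val h
    exact Subtype.ext (hS.2 (Finset.mem_coe.2 P.2) (Finset.mem_coe.2 Q.2) h')
  unfold spn chS
  rw [finprod_eq_prod_of_mulSupport_subset (s := S.attach.map ⟨φ, hφ⟩)]
  · rw [Finset.prod_map, ← Finset.prod_attach S]
    exact Finset.prod_congr rfl fun P _ => hB P.1 P.2
  · intro p hp
    rw [Function.mem_mulSupport] at hp
    rw [Finset.mem_coe, Finset.mem_map]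
    by_contra hno
    apply hp
    rw [if_pos]
    refine hA p.1 p.2.1 p.2.2.2 fun P hPS h => hno ?_
    exact ⟨⟨P, hPS⟩, Finset.mem_attach _ _, Subtype.ext h⟩

end

end Pool.Agent.H32.MA
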