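import Pool.Agent.H32.MA.RStm

/-!
# Project MA9 (MP_a9b340), block R, row R3a: integral elements above `p`, exponents of rationals
-/

set_option autoImplicit false

open scoped BigOperators
open NumberField IsDedekindDomain

namespace Pool.Agent.H32.MA

open Pool.Agent.H98.MF (ord)
open Pool.Agent.H98.MF.B (ord_mul ord_one ord_inv ord_div ord_pow ord_neg)

section

variable {K : Type} [Field K] [NumberField K]

theorem r3_ord_nat_nonneg (P : HeightOneSpectrum (𝓞 K)) (n : ℕ) : 0 ≤ ord P (n : K) := by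
  have h := Pool.Agent.H98.MF.ord_int_nonneg P (n : 𝓞 K)
  simpa using h

theorem r3_ord_integral (P : HeightOneSpectrum (𝓞 K)) {x : K} (hx : IsIntegral ℤ x) :
    0 ≤ ord P x :=
  Pool.Agent.H98.MF.ord_int_nonneg P (⟨x, hx⟩ : 𝓞 K)

theorem r3_mem (P : HeightOneSpectrum (𝓞 K)) {p : ℕ} (hP : 1 ≤ ord P (p : K)) :
    (p : 𝓞 K) ∈ P.asIdeal := by
  have h := (Pool.Agent.H98.MF.le_ord_iff P (p : 𝓞 K) 1).1 (Or.inr (by simpa using hP))
  rwa [pow_one] at h

theorem r3_ord_coprime (P : HeightOneSpectrum (𝓞 K)) {p n : ℕ} (hP : 1 ≤ ord P (p : K))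
    (hn : n.Coprime p) : ord P (n : K) = 0 := by
  have hp := r3_mem P hP
  have hn' : (n : 𝓞 K) ∉ P.asIdeal := by
    intro h
    have h1 : IsCoprime ((n : ℕ) : ℤ) (p : ℤ) := Nat.isCoprime_iff_coprime.2 hn
    obtain ⟨a, b, hab⟩ := h1
    have h2 : (1 : 𝓞 K) = (a : 𝓞 K) * (n : 𝓞 K) + (b : 𝓞 K) * (p : 𝓞 K) := by
      have := congrArg (fun z : ℤ => (z : 𝓞 K)) hab
      push_cast at this
      exact this.symm
    apply P.isPrime.ne_top
    rw [Ideal.eq_top_iff_one, h2]
    exact P.asIdeal.add_mem (P.asIdeal.mul_mem_left _ h) (P.asIdeal.mul_mem_left _ hp)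
  have h := Pool.Agent.H98.MF.ord_unit P hn'
  simpa using h

theorem r3_ord_nat (P : HeightOneSpectrum (𝓞 K)) {p : ℕ} (hp : p.Prime)
    (hP : 1 ≤ ord P (p : K)) {n : ℕ} (hn : n ≠ 0) :
    ord P (n : K) = ord P (p : K) * padicValNat p n := by
  have h1 : p ^ (n.factorization p) * (n / p ^ (n.factorization p)) = n :=
    Nat.ordProj_mul_ordCompl_eq_self n p
  have h2 : (n / p ^ (n.factorization p)).Coprime p := (Nat.coprime_ordCompl hp hn).symm
  obtain ⟨m, hm⟩ : ∃ m, m = n / p ^ (n.factorization p) := ⟨_, rfl⟩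
  rw [← hm] at h1 h2
  have hpK : (p : K) ≠ 0 := by exact_mod_cast hp.ne_zero
  have hm0 : m ≠ 0 := by
    rintro rfl
    rw [mul_zero] at h1
    exact hn h1.symm
  have hmK : (m : K) ≠ 0 := by exact_mod_cast hm0
  have h3 : (n : K) = (p : K) ^ (n.factorization p) * (m : K) := by exact_mod_cast h1.symm
  rw [h3, ord_mul P (pow_ne_zero _ hpK) hmK, ord_pow, r3_ord_coprime P hP h2,
    ← Nat.factorization_def n hp]
  ring

theorem r3_ord_int (P : HeightOneSpectrum (𝓞 K)) {p : ℕ} (hp : p.Prime)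
    (hP : 1 ≤ ord P (p : K)) {z : ℤ} (hz : z ≠ 0) :
    ord P (z : K) = ord P (p : K) * padicValInt p z := by
  have h1 : ord P (z : K) = ord P ((z.natAbs : ℕ) : K) := by
    rcases Int.natAbs_eq z with h | h
    · conv_lhs => rw [h]
      simp
    · conv_lhs => rw [h]
      rw [Int.cast_neg, ord_neg]
      simp
  rw [h1, r3_ord_nat P hp hP (Int.natAbs_ne_zero.2 hz)]
  rfl

end

variable (K : Type) [Field K] [NumberField K]

theorem st_ordR : StOrdR K := by
  intro p hp P hP q hq
  have hn : q.num ≠ 0 := Rat.num_ne_zero.2 hq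
  have hd : q.den ≠ 0 := q.den_nz
  have h1 : (q : K) = (q.num : K) / ((q.den : ℕ) : K) := Rat.cast_def q
  rw [h1, ord_div P (by exact_mod_cast hn) (by exact_mod_cast hd), r3_ord_int P hp hP hn,
    r3_ord_nat P hp hP hd, padicValRat_def]
  ring

theorem st_ip : StIp K := by
  intro p hp γ
  by_cases hγ : γ = 0
  · rw [hγ]
    constructor
    · intro _ P _
      rw [Pool.Agent.H98.MF.ord_zero]
    · intro _
      exact (Ip K p).zero_mem
  constructor
  · rintro ⟨s, hs, hint⟩ P hP
    have hs0 : s ≠ 0 := by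
      rintro rfl
      rw [Nat.coprime_zero_left] at hs
      exact hp.ne_one hs
    have hsK : (s : K) ≠ 0 := by exact_mod_cast hs0
    have h1 := r3_ord_integral P hint
    rw [ord_mul P hsK hγ, r3_ord_coprime P hP hs, zero_add] at h1
    exact h1
  · intro h
    have halg : IsAlgebraic ℤ γ := by
      rw [IsFractionRing.isAlgebraic_iff ℤ ℚ K]
      exact Algebra.IsAlgebraic.isAlgebraic γ
    obtain ⟨y, hy0, hy⟩ := halg.exists_integral_multiple
    have hy' : IsIntegral ℤ (((y.natAbs : ℕ) : K) * γ) := by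
      have h1 : y • γ = (y : K) * γ := by rw [zsmul_eq_mul]
      rw [h1] at hy
      rcases Int.natAbs_eq y with h2 | h2
      · have h3 : (y : K) = ((y.natAbs : ℕ) : K) := by
          conv_lhs => rw [h2]
          simp
        rwa [← h3]
      · have h3 : (y : K) = -((y.natAbs : ℕ) : K) := by
          conv_lhs => rw [h2]
          simp
        rw [h3] at hy
        have h4 := hy.neg
        rwa [show -(-((y.natAbs : ℕ) : K) * γ) = ((y.natAbs : ℕ) : K) * γ by ring] at h4
    obtain ⟨n, hn⟩ : ∃ n, n = y.natAbs := ⟨_, rfl⟩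
    rw [← hn] at hy'
    have hn0 : n ≠ 0 := by
      rw [hn]
      exact Int.natAbs_ne_zero.2 hy0
    have h1 : p ^ (n.factorization p) * (n / p ^ (n.factorization p)) = n :=
      Nat.ordProj_mul_ordCompl_eq_self n p
    have h2 : (n / p ^ (n.factorization p)).Coprime p := (Nat.coprime_ordCompl hp hn0).symm
    obtain ⟨m, hm⟩ : ∃ m, m = n / p ^ (n.factorization p) := ⟨_, rfl⟩
    rw [← hm] at h1 h2
    have hpK : (p : K) ≠ 0 := by exact_mod_cast hp.ne_zero
    have hm0 : m ≠ 0 := by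
      rintro rfl
      rw [mul_zero] at h1
      exact hn0 h1.symm
    have hmK : (m : K) ≠ 0 := by exact_mod_cast hm0
    have h3 : (n : K) = (p : K) ^ (n.factorization p) * (m : K) := by exact_mod_cast h1.symm
    refine ⟨m, h2, ?_⟩
    have h4 : (m : K) * γ ∈ (algebraMap (𝓞 K) K).range := by
      refine HeightOneSpectrum.mem_integers_of_valuation_le_one K _ fun P => ?_
      have h5 : 0 ≤ ord P ((m : K) * γ) := by
        by_cases hP : 1 ≤ ord P (p : K)
        · rw [ord_mul P hmK hγ]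
          exact add_nonneg (r3_ord_nat_nonneg P m) (h P hP)
        · have hP0 : ord P (p : K) = 0 := by
            have := r3_ord_nat_nonneg P p
            omega
          have h6 := r3_ord_integral P hy'
          rw [h3, mul_assoc, ord_mul P (pow_ne_zero _ hpK) (mul_ne_zero hmK hγ), ord_pow, hP0,
            mul_zero, zero_add] at h6
          exact h6
      have h7 := (Pool.Agent.H98.MF.le_ord_iff_valuation P ((m : K) * γ) 0).1 (Or.inr h5)
      simpa using h7
    obtain ⟨r, hr⟩ := h4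
    rw [← hr]
    exact RingOfIntegers.isIntegral_coe r

theorem st_over : StOver K := by
  intro p hp
  have hpO : (p : 𝓞 K) ≠ 0 := by exact_mod_cast hp.ne_zero
  have hu : Ideal.span {(p : 𝓞 K)} ≠ ⊤ := by
    intro h
    rw [Ideal.span_singleton_eq_top] at h
    obtain ⟨u, hu⟩ := h.exists_right_inv
    have hpQ : (p : ℚ) ≠ 0 := by exact_mod_cast hp.ne_zero
    have hpK : (p : K) ≠ 0 := by exact_mod_cast hp.ne_zero
    have h1 : (u : K) = algebraMap ℚ K ((p : ℚ)⁻¹) := by
      have h2 : (p : K) * (u : K) = 1 := by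
        have := congrArg (fun z : 𝓞 K => (z : K)) hu
        simpa using this
      rw [map_inv₀, map_natCast]
      exact eq_inv_of_mul_eq_one_right h2
    have h3 : IsIntegral ℤ ((p : ℚ)⁻¹) := by
      have h4 : IsIntegral ℤ (u : K) := RingOfIntegers.isIntegral_coe u
      rw [h1] at h4
      exact (isIntegral_algebraMap_iff (algebraMap ℚ K).injective).1 h4
    obtain ⟨y, hy⟩ := IsIntegrallyClosed.isIntegral_iff.1 h3
    have h5 : (p : ℤ) * y = 1 := by
      have h6 : ((p : ℤ) * y : ℚ) = 1 := by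
        have h7 : (y : ℚ) = (p : ℚ)⁻¹ := by simpa using hy
        rw [h7]
        push_cast
        exact mul_inv_cancel₀ hpQ
      exact_mod_cast h6
    have h8 : (p : ℤ) ∣ 1 := ⟨y, h5.symm⟩
    have h9 : p ∣ 1 := by exact_mod_cast h8
    exact hp.one_lt.ne' (Nat.dvd_one.1 h9)
  obtain ⟨M, hM, hle⟩ := Ideal.exists_le_maximal _ hu
  have hpM : (p : 𝓞 K) ∈ M := hle (Ideal.mem_span_singleton_self _)
  have hMb : M ≠ ⊥ := by
    rintro rfl
    exact hpO (by simpa using hpM)
  refine ⟨⟨M, hM.isPrime, hMb⟩, ?_⟩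
  have h := (Pool.Agent.H98.MF.le_ord_iff (⟨M, hM.isPrime, hMb⟩ : HeightOneSpectrum (𝓞 K))
    (p : 𝓞 K) 1).2 (by rw [pow_one]; exact hpM)
  have h1 := h.resolve_left hpO
  simpa using h1

end Pool.Agent.H32.MA
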