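import Pool.Agent.H32.MA.AStm
import Pool.Agent.H32.MA.RFin
import Pool.Agent.H32.MA.RIp

/-!
# Project MA9 (MP_a9b340), block A, row A25: number of admissible parameters (helper28)
-/

set_option autoImplicit false

open scoped BigOperators
open NumberField IsDedekindDomain

namespace Pool.Agent.H32.MA

open Pool.Agent.H98.MK (Om Gam dabs fld chi dd adm par lg par_hom par_lc z12)
open Pool.Agent.H98.MF (ord)

private theorem a25_cases (x : ZMod 2) : x = 0 ∨ x = 1 := by
  revert x; decide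

open Classical in
/-- the value at `i` of the parameters with given values at `1`, `2` and the primes of `Q` -/
private noncomputable def a25_val (Q : Finset ℕ) (w : ℕ)
    (v : (Q → ZMod 2) × (ZMod 2 × ZMod 2)) (i : ℕ) : ZMod 2 :=
  if i = 1 then v.2.1 else if i = 2 then v.2.2 else
    if h : i ∈ Q then v.1 ⟨i, h⟩ else if i.Prime ∧ i ∣ w then 1 else 0

open Classical in
private theorem a25_supp (Q : Finset ℕ) (w : ℕ) (hw : w ≠ 0)
    (v : (Q → ZMod 2) × (ZMod 2 × ZMod 2)) (i : ℕ) (h : a25_val Q w v i ≠ 0) :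
    i ∈ ({1, 2} ∪ Q ∪ w.primeFactors : Finset ℕ) := by
  unfold a25_val at h
  by_cases h1 : i = 1
  · simp [h1]
  by_cases h2 : i = 2
  · simp [h2]
  by_cases h3 : i ∈ Q
  · simp [h3]
  rw [if_neg h1, if_neg h2, dif_neg h3] at h
  by_cases h4 : i.Prime ∧ i ∣ w
  · apply Finset.mem_union_right
    rw [Nat.mem_primeFactors]
    exact ⟨h4.1, h4.2, hw⟩
  · rw [if_neg h4] at h
    exact absurd rfl h

open Classical in
/-- the parameters with given values at `1`, `2` and the primes of `Q` -/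
private noncomputable def a25_u (Q : Finset ℕ) (w : ℕ) (hw : w ≠ 0)
    (v : (Q → ZMod 2) × (ZMod 2 × ZMod 2)) : ℕ →₀ ZMod 2 :=
  Finsupp.onFinset ({1, 2} ∪ Q ∪ w.primeFactors) (a25_val Q w v) (a25_supp Q w hw v)

private theorem a25_apply (Q : Finset ℕ) (w : ℕ) (hw : w ≠ 0)
    (v : (Q → ZMod 2) × (ZMod 2 × ZMod 2)) (i : ℕ) :
    a25_u Q w hw v i = a25_val Q w v i := rfl

private theorem a25_inj (Q : Finset ℕ) (w : ℕ) (hw : w ≠ 0) (hQ : ∀ p ∈ Q, p.Prime ∧ p ≠ 2) :
    Function.Injective (a25_u Q w hw) := by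
  intro v v' h
  have h1 : ∀ i, a25_val Q w v i = a25_val Q w v' i := by
    intro i
    rw [← a25_apply Q w hw, ← a25_apply Q w hw, h]
  refine Prod.ext (funext fun i => ?_) (Prod.ext ?_ ?_)
  · have h2 := h1 i.1
    have h3 : (i : ℕ) ≠ 1 := fun h => (hQ _ i.2).1.ne_one h
    have h4 : (i : ℕ) ≠ 2 := (hQ _ i.2).2
    unfold a25_val at h2
    rw [if_neg h3, if_neg h4, dif_pos i.2, if_neg h3, if_neg h4, dif_pos i.2] at h2
    exact h2
  · have h2 := h1 1
    unfold a25_val at h2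
    rw [if_pos rfl, if_pos rfl] at h2
    exact h2
  · have h2 := h1 2
    have h3 : (2 : ℕ) ≠ 1 := by norm_num
    unfold a25_val at h2
    rw [if_neg h3, if_pos rfl, if_neg h3, if_pos rfl] at h2
    exact h2

private theorem a25_image (Q : Finset ℕ) (w : ℕ) (M : Set (ZMod 2 × ZMod 2)) (hw : w ≠ 0)
    (hQ : ∀ p ∈ Q, p.Prime ∧ p ≠ 2) :
    {u : ℕ →₀ ZMod 2 | adm u ∧ (u 1, u 2) ∈ M ∧ ∀ p : ℕ, p.Prime → p ≠ 2 → p ∉ Q →
      (u p = 1 ↔ p ∣ w)} = a25_u Q w hw '' (Set.univ ×ˢ M) := by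
  classical
  have h21 : (2 : ℕ) ≠ 1 := by norm_num
  ext u
  constructor
  · rintro ⟨h1, h2, h3⟩
    refine ⟨(fun i => u i.1, (u 1, u 2)), ⟨Set.mem_univ _, h2⟩, ?_⟩
    ext i
    rw [a25_apply]
    unfold a25_val
    by_cases c1 : i = 1
    · rw [if_pos c1, c1]
    by_cases c2 : i = 2
    · rw [if_neg c1, if_pos c2, c2]
    by_cases c3 : i ∈ Q
    · rw [if_neg c1, if_neg c2, dif_pos c3]
    rw [if_neg c1, if_neg c2, dif_neg c3]
    by_cases c4 : i.Prime
    · have h4 := h3 i c4 c2 c3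
      by_cases c5 : i ∣ w
      · rw [if_pos ⟨c4, c5⟩, h4.2 c5]
      · rw [if_neg (fun h => c5 h.2)]
        rcases a25_cases (u i) with h5 | h5
        · rw [h5]
        · exact absurd (h4.1 h5) c5
    · rw [if_neg (fun h => c4 h.1)]
      by_contra h5
      rcases h1 i (fun h => h5 h.symm) with h6 | h6
      · exact c1 h6
      · exact c4 h6
  · rintro ⟨v, ⟨_, hv⟩, rfl⟩
    refine ⟨?_, ?_, ?_⟩
    · intro i hi
      rw [a25_apply] at hi
      have h1 := a25_supp Q w hw v i hi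
      rw [Finset.mem_union, Finset.mem_union, Finset.mem_insert, Finset.mem_singleton] at h1
      rcases h1 with ((h1 | h1) | h1) | h1
      · exact Or.inl h1
      · exact Or.inr (h1 ▸ Nat.prime_two)
      · exact Or.inr (hQ i h1).1
      · exact Or.inr (Nat.prime_of_mem_primeFactors h1)
    · rw [a25_apply, a25_apply]
      unfold a25_val
      rw [if_pos rfl, if_neg h21, if_pos rfl]
      exact hv
    · intro p hp h2 h3
      rw [a25_apply]
      unfold a25_val
      rw [if_neg hp.ne_one, if_neg h2, dif_neg h3]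
      by_cases h4 : p ∣ w
      · rw [if_pos ⟨hp, h4⟩]
        exact ⟨fun _ => h4, fun _ => rfl⟩
      · rw [if_neg (fun h => h4 h.2)]
        refine ⟨fun h => absurd h (by decide), fun h => absurd h h4⟩

/-- **Row A25.** The number of admissible parameters. -/
theorem saCntU : SaCntU := by
  classical
  intro Q w M hw hQ
  rw [a25_image Q w M hw hQ]
  refine ⟨(Set.toFinite _).image _, ?_⟩
  rw [Set.ncard_image_of_injective _ (a25_inj Q w hw hQ), Set.ncard_prod, Set.ncard_univ]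
  congr 1
  rw [Nat.card_eq_fintype_card, Fintype.card_fun, ZMod.card, Fintype.card_coe]

/-- **Row A25.** Almost all odd primes have the first type. -/
theorem saQFin {K : Type} [Field K] [NumberField K] (F : QF K) : SaQFin F := by
  intro b hb
  have hT := Pool.Agent.H98.MF.B.ord_finite (k := K) b hb
  have h1 : {p : ℕ | p.Prime ∧ p ≠ 2 ∧ ¬ TyA F p b} ⊆
      ((2 * F.d).divisors : Set ℕ) ∪ ⋃ P ∈ {P : HeightOneSpectrum (𝓞 K) | ord P b ≠ 0},
        {p : ℕ | p.Prime ∧ 1 ≤ ord P (p : K)} := by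
    rintro p ⟨hp, _, hA⟩
    by_cases h2 : p ∣ 2 * F.d
    · left
      rw [Finset.mem_coe, Nat.mem_divisors]
      exact ⟨h2, Nat.mul_ne_zero two_ne_zero F.d_pos.ne'⟩
    · right
      by_contra h3
      apply hA
      refine ⟨h2, fun P hP => ?_⟩
      by_contra h4
      apply h3
      refine Set.mem_iUnion₂.2 ⟨P, ?_, hp, hP⟩
      intro h5
      apply h4
      rw [h5]
      exact Even.zero
  refine Set.Finite.subset ((Finset.finite_toSet _).union (hT.biUnion fun P _ => ?_)) h1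
  apply Set.Subsingleton.finite
  rintro p ⟨hp, hP⟩ q ⟨hq, hQ⟩
  exact r13_unique (st_ordR K) hp hq hP hQ

end Pool.Agent.H32.MA
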