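import Pool.Agent.H32.MA.ACocA

/-!
# Project MA9 (MP_a9b340), A10: the explicit cochain
-/

set_option autoImplicit false

open scoped BigOperators
open NumberField IsDedekindDomain

namespace Pool.Agent.H32.MA

open Pool.Agent.H98.MK (Om Gam chi sq_sq chi_hom)

/-! ### the element of order four -/

private theorem a10_key {K : Type} [Field K] [NumberField K] (F : QF K) (j : K →+* Om)
    (b : K) (f : Gam → ZMod 2) (hb : b ≠ 0) (hT : trK b ≠ 0)
    (hf : IsF F j b f) : ∃ w ε : Om, w ^ 4 = -1 ∧ ε ≠ 0 ∧ ∀ σ : Gam, ∃ k : ZMod 8,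
      σ ε = a10_zp w k * a10_ep (chi (-1) σ + chi (nmK b) σ + chi (F.d : ℚ) σ) ε ∧
      (k = a10_m (chi (F.d : ℚ) σ) (f σ + chi (trK b) σ) (chi (-1) σ + chi (nmK b) σ) ∨
       k = a10_m (chi (F.d : ℚ) σ) (f σ + chi (trK b) σ) (chi (-1) σ + chi (nmK b) σ) + 4) := by
  obtain ⟨θ, θ', hθ, hθ', h0, h1⟩ := hf
  obtain ⟨w, hw⟩ := IsAlgClosed.exists_pow_nat_eq (-1 : Om) (n := 4) (by norm_num)
  have hi2 : (w ^ 2) ^ 2 = ((-1 : ℚ) : Om) := by
    push_cast
    rw [← pow_mul]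
    exact hw
  obtain ⟨r, hr2⟩ : ∃ r : Om, r ^ 2 = ((trK b : ℚ) : Om) := ⟨_, sq_sq (trK b)⟩
  set i : Om := w ^ 2 with hi
  have hii : i * i = -1 := by
    have := hi2
    push_cast at this
    linear_combination this
  have hTO : ((trK b : ℚ) : Om) ≠ 0 := by exact_mod_cast hT
  have hr0 : r ≠ 0 := by
    intro h
    rw [h] at hr2
    apply hTO
    rw [← hr2]
    ring
  have hjb : j b ≠ 0 := by
    rw [Ne, map_eq_zero]
    exact hb
  have hjb' : j (F.cj b) ≠ 0 := by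
    rw [Ne, map_eq_zero]
    exact F.cj_ne hb
  have hθ0 : θ ≠ 0 := by
    intro h
    rw [h] at hθ
    apply hjb
    rw [← hθ]
    ring
  have hθ'0 : θ' ≠ 0 := by
    intro h
    rw [h] at hθ'
    apply hjb'
    rw [← hθ']
    ring
  have hsum : θ ^ 2 + θ' ^ 2 = r ^ 2 := by
    rw [hθ, hθ', ← map_add, ← F.tr_eq, map_ratCast, hr2]
  have hprod : (θ * θ') ^ 2 = ((nmK b : ℚ) : Om) := by
    rw [mul_pow, hθ, hθ', ← map_mul, ← F.nm_eq, map_ratCast]
  have hmul : (θ + i * θ') * (θ - i * θ') = r ^ 2 := by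
    linear_combination hsum - θ' ^ 2 * hii
  have hnum : θ + i * θ' ≠ 0 := by
    intro h
    rw [h, zero_mul] at hmul
    exact (pow_ne_zero 2 hr0) hmul.symm
  have hζ0 : (θ + i * θ') / r ≠ 0 := div_ne_zero hnum hr0
  have hζi : ((θ + i * θ') / r)⁻¹ = (θ - i * θ') / r := by
    apply inv_eq_of_mul_eq_one_right
    rw [div_mul_div_comm, hmul, pow_two, div_self (mul_ne_zero hr0 hr0)]
  have hep : ∀ y : ZMod 2, a10_ep y ((θ + i * θ') / r) = (θ + sg y * (i * θ')) / r := by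
    intro y
    rcases a10_z2 y with rfl | rfl
    · rw [a10_ep_zero, a10_sg_zero, one_mul]
    · rw [a10_ep_one, hζi, a10_sg_one]
      ring
  obtain ⟨ε, hε⟩ := IsAlgClosed.exists_pow_nat_eq ((θ + i * θ') / r) (n := 2) two_pos
  have hε0 : ε ≠ 0 := by
    intro h
    rw [h] at hε
    apply hζ0
    rw [← hε]
    ring
  refine ⟨w, ε, hw, hε0, ?_⟩
  intro σ
  have hσi := a10_root (-1) (by norm_num) i hi2 σ
  have hσr := a10_root (trK b) hT r hr2 σ
  have hσp := a10_root (nmK b) (nm_ne hb) (θ * θ') hprod σ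
  rw [map_mul] at hσp
  have hF := a10_sg_sq (f σ)
  have hA1 := a10_sg_sq (chi (-1) σ)
  have hN1 := a10_sg_sq (chi (nmK b) σ)
  have hT1 := a10_sg_sq (chi (trK b) σ)
  have hF0 := a10_sg_ne (f σ)
  have hT0 := a10_sg_ne (chi (trK b) σ)
  have key : σ ((θ + i * θ') / r) =
      a10_zp w (2 * a10_m (chi (F.d : ℚ) σ) (f σ + chi (trK b) σ)
        (chi (-1) σ + chi (nmK b) σ)) *
      a10_ep (chi (-1) σ + chi (nmK b) σ + chi (F.d : ℚ) σ) ((θ + i * θ') / r) := by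
    rw [map_div₀, map_add, map_mul, hσi, hσr, hep]
    rcases a10_z2 (chi (F.d : ℚ) σ) with hd | hd
    · have h2 := h0 σ hd
      have h3 : σ θ' = sg (f σ) * sg (chi (nmK b) σ) * θ' := by
        rw [h2] at hσp
        apply mul_left_cancel₀ (mul_ne_zero hF0 hθ0)
        rw [hσp]
        linear_combination (-(sg (chi (nmK b) σ) * θ * θ')) * hF
      rw [h2, h3, hd, a10_zm0 hw, add_zero, a10_sg_add, a10_sg_add]
      rw [div_eq_iff (mul_ne_zero hT0 hr0), a10_aux _ _ _ _ hr0]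
      linear_combination (-(sg (f σ) * (θ + sg (chi (-1) σ) * sg (chi (nmK b) σ) *
        (i * θ')))) * hT1
    · have h2 := h1 σ hd
      have h3 : σ θ' = sg (f σ) * sg (chi (nmK b) σ) * θ := by
        rw [h2] at hσp
        apply mul_left_cancel₀ (mul_ne_zero hF0 hθ'0)
        rw [hσp]
        linear_combination (-(sg (chi (nmK b) σ) * θ * θ')) * hF
      rw [h2, h3, hd, a10_zm1 hw]
      simp only [a10_sg_add, a10_sg_one]
      rw [div_eq_iff (mul_ne_zero hT0 hr0), ← hi, a10_aux _ _ _ _ hr0]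
      linear_combination (-(sg (f σ) * (sg (chi (-1) σ) * sg (chi (nmK b) σ) * i * θ -
        (sg (chi (-1) σ) * sg (chi (nmK b) σ)) ^ 2 * i ^ 2 * θ'))) * hT1 +
        sg (f σ) * θ' * sg (chi (nmK b) σ) ^ 2 * i ^ 2 * hA1 + sg (f σ) * θ' * i ^ 2 * hN1 +
        sg (f σ) * θ' * hii
  set m : ZMod 8 := a10_m (chi (F.d : ℚ) σ) (f σ + chi (trK b) σ)
    (chi (-1) σ + chi (nmK b) σ) with hm
  set u : ZMod 2 := chi (-1) σ + chi (nmK b) σ + chi (F.d : ℚ) σ with hu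
  have hsq : (σ ε) ^ 2 = (a10_zp w m * a10_ep u ε) ^ 2 := by
    rw [← map_pow, hε, key, two_mul, a10_zp_add hw, ← hε, pow_two ε, a10_ep_mul]
    ring
  rcases sq_eq_sq_iff_eq_or_eq_neg.1 hsq with h | h
  · exact ⟨m, h, Or.inl rfl⟩
  · refine ⟨m + 4, ?_, Or.inr rfl⟩
    rw [h, a10_zp_add hw, a10_zp_four hw]
    ring

theorem saCoc {K : Type} [Field K] [NumberField K] (F : QF K) (j : K →+* Om)
    (hA : SaAct F j) : SaCoc F j := by
  intro b f hb hT hf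
  obtain ⟨w, ε, hw, hε0, hk⟩ := a10_key F j b f hb hT hf
  choose k hk1 hk2 using hk
  have hcoc : ∀ σ τ : Gam, k (σ * τ) = pm (chi (-1) σ) * p5 (chi 2 σ) * k τ +
      pm (chi (-1) τ + chi (nmK b) τ + chi (F.d : ℚ) τ) * k σ := by
    intro σ τ
    have h1 := hk1 (σ * τ)
    rw [AlgEquiv.mul_apply, hk1 τ, map_mul, a10_map_zp hw, a10_map_ep, hk1 σ, a10_ep_mul,
      a10_ep_zp hw, a10_ep_ep, ← mul_assoc, ← a10_zp_add hw] at h1
    have h2 : chi (-1) (σ * τ) + chi (nmK b) (σ * τ) + chi (F.d : ℚ) (σ * τ) =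
        (chi (-1) τ + chi (nmK b) τ + chi (F.d : ℚ) τ) +
          (chi (-1) σ + chi (nmK b) σ + chi (F.d : ℚ) σ) := by
      rw [chi_hom, chi_hom, chi_hom]
      ring
    rw [h2] at h1
    exact (a10_zp_inj hw (mul_right_cancel₀ (a10_ep_ne _ hε0) h1)).symm
  set c : Gam → ZMod 8 := fun σ =>
    -(pm (chi (-1) σ + chi (nmK b) σ + chi (F.d : ℚ) σ) * k σ) with hc
  have hbit : ∀ σ : Gam, bit3 (chi (F.d : ℚ) σ) (f σ + chi (trK b) σ) (a10_B (c σ)) = c σ :=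
    fun σ => a10_bits _ _ _ _ (hk2 σ)
  refine ⟨fun σ => a10_B (c σ), ?_, ?_⟩
  · classical
    apply IsLocallyConstant.comp (f := c) _ a10_B
    apply a10_loc {ε, Pool.Agent.H98.MK.sq (-1), Pool.Agent.H98.MK.sq (nmK b),
      Pool.Agent.H98.MK.sq (F.d : ℚ)}
    intro σ τ h
    have h1 : σ ε = τ ε := h _ (by simp)
    have h2 : chi (-1) σ = chi (-1) τ := by
      unfold chi
      rw [h (Pool.Agent.H98.MK.sq (-1)) (by simp)]
    have h3 : chi (nmK b) σ = chi (nmK b) τ := by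
      unfold chi
      rw [h (Pool.Agent.H98.MK.sq (nmK b)) (by simp)]
    have h4 : chi (F.d : ℚ) σ = chi (F.d : ℚ) τ := by
      unfold chi
      rw [h (Pool.Agent.H98.MK.sq (F.d : ℚ)) (by simp)]
    rw [hk1 σ, hk1 τ, h2, h3, h4] at h1
    have h5 := a10_zp_inj hw (mul_right_cancel₀ (a10_ep_ne _ hε0) h1)
    simp only [hc, h2, h3, h4, h5]
  · intro σ τ
    rw [hbit, hbit, hbit]
    simp only [hc]
    rw [hcoc σ τ, chi_hom, chi_hom, chi_hom]
    simp only [a10_pm_add]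
    have e1 := a10_pm_sq (chi (-1) σ)
    have e2 := a10_pm_sq (chi (-1) τ)
    have e3 := a10_pm_sq (chi (nmK b) τ)
    have e4 := a10_pm_sq (chi (F.d : ℚ) τ)
    linear_combination (-(pm (chi (-1) τ) * pm (chi (nmK b) σ) * pm (chi (nmK b) τ) *
      pm (chi (F.d : ℚ) σ) * pm (chi (F.d : ℚ) τ) * p5 (chi 2 σ) * k τ)) *
        (a10_pm_sq (chi (-1) σ)) -
      pm (chi (-1) σ) * pm (chi (nmK b) σ) * pm (chi (F.d : ℚ) σ) * k σ *
        (pm (chi (nmK b) τ) ^ 2 * pm (chi (F.d : ℚ) τ) ^ 2 * e2 +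
          pm (chi (F.d : ℚ) τ) ^ 2 * e3 + e4)

end Pool.Agent.H32.MA
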