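import Pool.Agent.H32.MA.AStm

/-!
# Project MA9 (MP_a9b340), A10: the explicit cochain, preparations
-/

set_option autoImplicit false

open scoped BigOperators
open NumberField IsDedekindDomain

namespace Pool.Agent.H32.MA

open Pool.Agent.H98.MK (Om Gam chi sq_sq chi_eq_zero_iff' chi_eq_one_iff chi_hom)

/-! ### signs -/

theorem a10_z2 (x : ZMod 2) : x = 0 ∨ x = 1 := by
  revert x; decide

theorem a10_one_ne : (1 : ZMod 2) ≠ 0 := by decide

theorem a10_sg_zero : sg 0 = 1 := by simp [sg]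

theorem a10_sg_one : sg 1 = -1 := by simp [sg]

theorem a10_sg_add (x y : ZMod 2) : sg (x + y) = sg x * sg y := by
  have h2 : (1 : ZMod 2) + 1 = 0 := by decide
  rcases a10_z2 x with rfl | rfl <;> rcases a10_z2 y with rfl | rfl
  · simp [a10_sg_zero]
  · simp [a10_sg_zero]
  · simp [a10_sg_zero]
  · rw [h2, a10_sg_zero, a10_sg_one]
    ring

theorem a10_sg_sq (x : ZMod 2) : sg x * sg x = 1 := by
  unfold sg
  split_ifs <;> ring

theorem a10_sg_ne (x : ZMod 2) : sg x ≠ 0 := by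
  intro h
  have := a10_sg_sq x
  rw [h] at this
  simp at this

theorem a10_root (q : ℚ) (hq : q ≠ 0) (y : Om) (hy : y ^ 2 = (q : Om)) (σ : Gam) :
    σ y = sg (chi q σ) * y := by
  rcases a10_z2 (chi q σ) with h1 | h1
  · have h2 := (chi_eq_zero_iff' q y hy σ).1 h1
    rw [h1, h2, a10_sg_zero, one_mul]
  · have h2 := (chi_eq_one_iff q hq y hy σ).1 h1
    rw [h1, h2, a10_sg_one, neg_one_mul]

/-- values at finitely many points are locally constant -/
theorem a10_loc {β : Type} (s : Finset Om) (f : Gam → β)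
    (hf : ∀ σ τ : Gam, (∀ x ∈ s, σ x = τ x) → f σ = f τ) : IsLocallyConstant f := by
  rw [IsLocallyConstant.iff_exists_open]
  intro σ
  have halg : Algebra.IsAlgebraic ℚ Om := AlgebraicClosure.isAlgebraic ℚ
  have hfin : FiniteDimensional ℚ (IntermediateField.adjoin ℚ (s : Set Om)) := by
    apply IntermediateField.finiteDimensional_adjoin
    intro x _
    exact (Algebra.IsAlgebraic.isAlgebraic x).isIntegral
  have hopen := IntermediateField.fixingSubgroup_isOpen
    (IntermediateField.adjoin ℚ (s : Set Om))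
  refine ⟨(fun τ : Gam => σ⁻¹ * τ) ⁻¹'
    ((IntermediateField.adjoin ℚ (s : Set Om)).fixingSubgroup : Set Gam),
    hopen.preimage (continuous_const.mul continuous_id), ?_, ?_⟩
  · show σ⁻¹ * σ ∈ (IntermediateField.adjoin ℚ (s : Set Om)).fixingSubgroup
    rw [inv_mul_cancel]
    exact Subgroup.one_mem _
  · intro τ hτ
    apply hf
    intro x hx
    have h1 : (σ⁻¹ * τ) x = x := by
      have h2 := (IntermediateField.mem_fixingSubgroup_iff _ _).1 hτ x
      exact h2 (IntermediateField.subset_adjoin ℚ _ hx)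
    have h3 : σ ((σ⁻¹ * τ) x) = τ x := by
      rw [← AlgEquiv.mul_apply, ← mul_assoc, mul_inv_cancel, one_mul]
    rw [← h3, h1]

/-! ### powers of an eighth root of unity -/

noncomputable def a10_zp (w : Om) (x : ZMod 8) : Om := w ^ x.val

theorem a10_pow8 {w : Om} (hw : w ^ 4 = -1) : w ^ 8 = 1 := by
  rw [show (8 : ℕ) = 4 * 2 from rfl, pow_mul, hw]
  ring

theorem a10_zp_add {w : Om} (hw : w ^ 4 = -1) (x y : ZMod 8) :
    a10_zp w (x + y) = a10_zp w x * a10_zp w y := by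
  unfold a10_zp
  rw [ZMod.val_add, ← pow_eq_pow_mod _ (a10_pow8 hw), pow_add]

theorem a10_zp_mul {w : Om} (hw : w ^ 4 = -1) (x y : ZMod 8) :
    a10_zp w (x * y) = (a10_zp w x) ^ y.val := by
  unfold a10_zp
  rw [ZMod.val_mul, ← pow_eq_pow_mod _ (a10_pow8 hw), pow_mul]

theorem a10_zp_zero (w : Om) : a10_zp w 0 = 1 := by
  unfold a10_zp
  rw [ZMod.val_zero, pow_zero]

theorem a10_v1 : (1 : ZMod 8).val = 1 := rfl
theorem a10_v2 : (2 : ZMod 8).val = 2 := rfl
theorem a10_v3 : (3 : ZMod 8).val = 3 := rfl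
theorem a10_v4 : (4 : ZMod 8).val = 4 := rfl
theorem a10_v5 : (5 : ZMod 8).val = 5 := rfl
theorem a10_v7 : (7 : ZMod 8).val = 7 := rfl

theorem a10_zp_one (w : Om) : a10_zp w 1 = w := by
  unfold a10_zp
  rw [a10_v1, pow_one]

theorem a10_zp_two (w : Om) : a10_zp w 2 = w ^ 2 := by
  unfold a10_zp
  rw [a10_v2]

theorem a10_zp_four {w : Om} (hw : w ^ 4 = -1) : a10_zp w 4 = -1 := by
  unfold a10_zp
  rw [a10_v4, hw]

theorem a10_ne {w : Om} (hw : w ^ 4 = -1) : w ≠ 0 := by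
  intro h
  rw [h] at hw
  norm_num at hw

theorem a10_zp_ne {w : Om} (hw : w ^ 4 = -1) (x : ZMod 8) : a10_zp w x ≠ 0 :=
  pow_ne_zero _ (a10_ne hw)

theorem a10_zp_neg {w : Om} (hw : w ^ 4 = -1) (x : ZMod 8) :
    a10_zp w (-x) = (a10_zp w x)⁻¹ := by
  apply eq_inv_of_mul_eq_one_left
  rw [← a10_zp_add hw, neg_add_cancel, a10_zp_zero]

theorem a10_zp_inj {w : Om} (hw : w ^ 4 = -1) {x y : ZMod 8}
    (h : a10_zp w x = a10_zp w y) : x = y := by
  have h1 : orderOf w = 2 ^ (2 + 1) := by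
    apply orderOf_eq_prime_pow
    · rw [show (2 : ℕ) ^ 2 = 4 from rfl, hw]
      intro h3
      have h4 : (2 : Om) = 0 := by linear_combination -h3
      exact two_ne_zero h4
    · rw [show (2 : ℕ) ^ (2 + 1) = 8 from rfl, a10_pow8 hw]
  have h2 : IsPrimitiveRoot w 8 := by
    have h3 := IsPrimitiveRoot.orderOf w
    rw [h1] at h3
    exact h3
  unfold a10_zp at h
  exact ZMod.val_injective 8 (h2.pow_inj (ZMod.val_lt x) (ZMod.val_lt y) h)

/-- the action on the root of unity -/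
theorem a10_kap {w : Om} (hw : w ^ 4 = -1) (σ : Gam) :
    σ w = a10_zp w (pm (chi (-1) σ) * p5 (chi 2 σ)) := by
  have hi : (w ^ 2) ^ 2 = ((-1 : ℚ) : Om) := by
    push_cast
    rw [← pow_mul]
    exact hw
  have hs : (w - w ^ 3) ^ 2 = ((2 : ℚ) : Om) := by
    push_cast
    linear_combination (w ^ 2 - 2) * hw
  have h1 := a10_root (-1) (by norm_num) _ hi σ
  have h2 := a10_root 2 (by norm_num) _ hs σ
  rw [map_pow] at h1
  rw [map_sub, map_pow] at h2
  set v := σ w with hv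
  have hz : (2 : Om) ≠ 0 := two_ne_zero
  have h01 : pm (0 : ZMod 2) * p5 0 = 1 := by decide
  have h02 : pm (0 : ZMod 2) * p5 1 = 5 := by decide
  have h03 : pm (1 : ZMod 2) * p5 0 = 7 := by decide
  have h04 : pm (1 : ZMod 2) * p5 1 = 3 := by decide
  rcases a10_z2 (chi (-1) σ) with e1 | e1 <;> rcases a10_z2 (chi 2 σ) with e2 | e2 <;>
    rw [e1] at h1 ⊢ <;> rw [e2] at h2 ⊢
  · rw [a10_sg_zero] at h1 h2
    rw [h01]
    unfold a10_zp
    rw [a10_v1, pow_one]
    apply mul_left_cancel₀ hz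
    linear_combination (1 + w ^ 2) * h2 + v * (1 + w ^ 2) * h1 + (v - w) * hw
  · rw [a10_sg_zero] at h1
    rw [a10_sg_one] at h2
    rw [h02]
    unfold a10_zp
    rw [a10_v5]
    apply mul_left_cancel₀ hz
    linear_combination (1 + w ^ 2) * h2 + v * (1 + w ^ 2) * h1 + (v - w) * hw
  · rw [a10_sg_one] at h1
    rw [a10_sg_zero] at h2
    rw [h03]
    unfold a10_zp
    rw [a10_v7]
    apply mul_left_cancel₀ hz
    linear_combination (1 - w ^ 2) * h2 + v * (1 - w ^ 2) * h1 + (v + w - 2 * w ^ 3) * hw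
  · rw [a10_sg_one] at h1 h2
    rw [h04]
    unfold a10_zp
    rw [a10_v3]
    apply mul_left_cancel₀ hz
    linear_combination (1 - w ^ 2) * h2 + v * (1 - w ^ 2) * h1 + (v - w) * hw

/-- the action on the powers of the root of unity -/
theorem a10_map_zp {w : Om} (hw : w ^ 4 = -1) (σ : Gam) (x : ZMod 8) :
    σ (a10_zp w x) = a10_zp w (pm (chi (-1) σ) * p5 (chi 2 σ) * x) := by
  rw [a10_zp_mul hw, ← a10_kap hw σ, ← map_pow]
  rfl

/-! ### exponents `1` and `-1` -/

noncomputable def a10_ep (y : ZMod 2) (e : Om) : Om := if y = 0 then e else e⁻¹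

theorem a10_ep_zero (e : Om) : a10_ep 0 e = e := by
  unfold a10_ep
  rw [if_pos rfl]

theorem a10_ep_one (e : Om) : a10_ep 1 e = e⁻¹ := by
  unfold a10_ep
  rw [if_neg a10_one_ne]

theorem a10_ep_mul (y : ZMod 2) (e e' : Om) :
    a10_ep y (e * e') = a10_ep y e * a10_ep y e' := by
  unfold a10_ep
  split_ifs
  · rfl
  · exact mul_inv e e'

theorem a10_ep_zp {w : Om} (hw : w ^ 4 = -1) (y : ZMod 2) (x : ZMod 8) :
    a10_ep y (a10_zp w x) = a10_zp w (pm y * x) := by
  have h0 : pm (0 : ZMod 2) = 1 := by decide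
  have h1 : pm (1 : ZMod 2) = -1 := by decide
  rcases a10_z2 y with rfl | rfl
  · rw [a10_ep_zero, h0, one_mul]
  · rw [a10_ep_one, h1, neg_one_mul, a10_zp_neg hw]

theorem a10_ep_ep (y y' : ZMod 2) (e : Om) :
    a10_ep y (a10_ep y' e) = a10_ep (y + y') e := by
  have h2 : (1 : ZMod 2) + 1 = 0 := by decide
  rcases a10_z2 y with rfl | rfl <;> rcases a10_z2 y' with rfl | rfl
  · rw [add_zero, a10_ep_zero]
  · rw [zero_add, a10_ep_zero]
  · rw [add_zero, a10_ep_zero]
  · rw [h2, a10_ep_zero, a10_ep_one, a10_ep_one, inv_inv]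

theorem a10_map_ep (σ : Gam) (y : ZMod 2) (e : Om) :
    σ (a10_ep y e) = a10_ep y (σ e) := by
  unfold a10_ep
  split_ifs
  · rfl
  · exact map_inv₀ σ e

theorem a10_ep_ne (y : ZMod 2) {e : Om} (he : e ≠ 0) : a10_ep y e ≠ 0 := by
  unfold a10_ep
  split_ifs
  · exact he
  · exact inv_ne_zero he

/-! ### finite computations -/

/-- half of the exponent -/
def a10_m (x y z : ZMod 2) : ZMod 8 :=
  if x = 0 then (if y = 0 then 0 else 2) else (if y + z = 0 then 1 else 3)

/-- the third bit -/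
def a10_B (c : ZMod 8) : ZMod 2 := if c = 4 ∨ c = 5 ∨ c = 6 ∨ c = 7 then 1 else 0

theorem a10_bits : ∀ (x y z : ZMod 2) (k : ZMod 8), (k = a10_m x y z ∨
    k = a10_m x y z + 4) → bit3 x y (a10_B (-(pm (z + x) * k))) = -(pm (z + x) * k) := by
  decide

theorem a10_pm_add : ∀ x y : ZMod 2, pm (x + y) = pm x * pm y := by decide

theorem a10_pm_sq : ∀ x : ZMod 2, pm x * pm x = 1 := by decide

theorem a10_zm0 {w : Om} (hw : w ^ 4 = -1) (x z : ZMod 2) :
    a10_zp w (2 * a10_m 0 x z) = sg x := by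
  have h0 : a10_m 0 0 z = 0 := by revert z; decide
  have h1 : 2 * a10_m 0 1 z = 4 := by revert z; decide
  rcases a10_z2 x with rfl | rfl
  · rw [h0, mul_zero, a10_zp_zero, a10_sg_zero]
  · rw [h1, a10_zp_four hw, a10_sg_one]

theorem a10_zm1 {w : Om} (hw : w ^ 4 = -1) (x z : ZMod 2) :
    a10_zp w (2 * a10_m 1 x z) = sg (x + z) * w ^ 2 := by
  have h0 : x + z = 0 → 2 * a10_m 1 x z = 2 := by revert x z; decide
  have h1 : x + z = 1 → 2 * a10_m 1 x z = 4 + 2 := by revert x z; decide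
  rcases a10_z2 (x + z) with h | h
  · rw [h0 h, h, a10_zp_two, a10_sg_zero, one_mul]
  · rw [h1 h, h, a10_zp_add hw, a10_zp_four hw, a10_zp_two, a10_sg_one]

theorem a10_aux (a X T r : Om) (hr : r ≠ 0) : a * (X / r) * (T * r) = a * X * T := by
  field_simp

end Pool.Agent.H32.MA
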