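import Pool.Agent.H32.MA.RStm

/-!
# Project MA9 (MP_a9b340), row R6: the obstruction at infinity
-/

set_option autoImplicit false

open scoped BigOperators
open NumberField IsDedekindDomain

namespace Pool.Agent.H32.MA

section

variable {K : Type} [Field K] [NumberField K]

/-- all complex embeddings are real -/
theorem r6_im (F : QF K) (ψ : K →+* ℂ) (b : K) : (ψ b).im = 0 := by
  have h1 : (ψ F.dl).im = 0 := by
    have h2 : ψ F.dl ^ 2 = ((F.d : ℝ) : ℂ) := by
      rw [← map_pow, F.sq, map_natCast]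
      simp
    have h3 := congrArg Complex.im h2
    have h4 := congrArg Complex.re h2
    rw [pow_two, Complex.mul_im, Complex.ofReal_im] at h3
    rw [pow_two, Complex.mul_re, Complex.ofReal_re] at h4
    have h5 : (0 : ℝ) < F.d := by exact_mod_cast F.d_pos
    by_contra h6
    have h7 : (ψ F.dl).re * (ψ F.dl).im = 0 := by linarith
    rcases mul_eq_zero.1 h7 with h8 | h8
    · rw [h8] at h4
      nlinarith [mul_self_pos.2 h6]
    · exact h6 h8
  obtain ⟨x, y, rfl⟩ := F.exists_xy b
  rw [map_add, map_mul, map_ratCast, map_ratCast, Complex.add_im, Complex.mul_im, h1]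
  simp

/-- there is a real embedding -/
theorem r6_exists (F : QF K) : Nonempty (K →+* ℝ) := by
  obtain ⟨ψ⟩ : Nonempty (K →+* ℂ) := inferInstance
  have h := r6_im F ψ
  exact ⟨{
    toFun := fun b => (ψ b).re
    map_one' := by rw [map_one]; rfl
    map_zero' := by rw [map_zero]; rfl
    map_mul' := fun a b => by rw [map_mul, Complex.mul_re, h a, h b]; ring
    map_add' := fun a b => by rw [map_add, Complex.add_re] }⟩

/-- the condition in terms of the two embeddings -/
theorem r6_iff (F : QF K) (φ : K →+* ℝ) (b : K) :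
    (trK b < 0 ∧ 0 < nmK b) ↔ (φ b < 0 ∧ φ (F.cj b) < 0) := by
  have h1 := congrArg φ (F.tr_eq b)
  have h2 := congrArg φ (F.nm_eq b)
  rw [map_ratCast, map_add] at h1
  rw [map_ratCast, map_mul] at h2
  have e1 : trK b < 0 ↔ φ b + φ (F.cj b) < 0 := by
    rw [← h1]
    exact_mod_cast Iff.rfl
  have e2 : 0 < nmK b ↔ 0 < φ b * φ (F.cj b) := by
    rw [← h2]
    exact_mod_cast Iff.rfl
  rw [e1, e2]
  constructor
  · rintro ⟨h3, h4⟩
    rcases mul_pos_iff.1 h4 with ⟨h5, h6⟩ | ⟨h5, h6⟩
    · linarith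
    · exact ⟨h5, h6⟩
  · rintro ⟨h3, h4⟩
    exact ⟨by linarith, mul_pos_of_neg_of_neg h3 h4⟩

theorem r6_congr (F : QF K) (φ : K →+* ℝ) (b c : K) (h1 : φ b < 0 ↔ φ c < 0)
    (h2 : φ (F.cj b) < 0 ↔ φ (F.cj c) < 0) : ThI b = ThI c := by
  unfold ThI
  have h3 : (trK b < 0 ∧ 0 < nmK b) ↔ (trK c < 0 ∧ 0 < nmK c) := by
    rw [r6_iff F φ, r6_iff F φ, h1, h2]
  by_cases h : trK b < 0 ∧ 0 < nmK b
  · rw [if_pos h, if_pos (h3.1 h)]
  · rw [if_neg h, if_neg fun h' => h (h3.2 h')]

theorem r6_neg_iff {x y : ℝ} (h : 0 < y) : x * y < 0 ↔ x < 0 := by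
  constructor
  · intro h1
    by_contra h2
    push Not at h2
    have := mul_nonneg h2 h.le
    linarith
  · intro h1
    exact mul_neg_of_neg_of_pos h1 h

/-- R6: the obstruction at infinity -/
theorem st_inf (F : QF K) : StInf (K := K) := by
  obtain ⟨φ⟩ := r6_exists F
  refine ⟨fun b z _ hz => ?_, fun b l _ _ hl => ?_⟩
  · refine r6_congr F φ _ _ ?_ ?_
    · rw [map_mul, map_pow]
      exact r6_neg_iff (by
        have : φ z ≠ 0 := (map_ne_zero φ).2 hz
        positivity)
    · rw [map_mul, map_pow, map_mul, map_pow]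
      exact r6_neg_iff (by
        have : φ (F.cj z) ≠ 0 := (map_ne_zero φ).2 (F.cj_ne hz)
        positivity)
  · refine r6_congr F φ _ _ ?_ ?_
    · rw [map_mul, mul_comm]
      exact r6_neg_iff (hl φ)
    · rw [map_mul, map_mul, mul_comm]
      exact r6_neg_iff (hl (φ.comp (F.cj : K →+* K)))

/-- R6: the symbol at infinity of the obstruction -/
theorem st_inf2 (F : QF K) : StInf2 F := by
  intro b _
  have hd : (0 : ℚ) < F.d := by exact_mod_cast F.d_pos
  unfold ThS ThI tinf
  rw [if_neg (fun h => absurd h.1 (not_lt.2 hd.le)), zero_add]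
  by_cases h : trK b = 0
  · rw [if_pos h, if_neg (fun h' => absurd h'.1 (by rw [h]; exact lt_irrefl _))]
  · rw [if_neg h]
    have h1 : (trK b < 0 ∧ -(F.d * nmK b) < 0) ↔ (trK b < 0 ∧ 0 < nmK b) := by
      constructor
      · rintro ⟨h2, h3⟩
        refine ⟨h2, ?_⟩
        by_contra h4
        push Not at h4
        have := mul_nonpos_of_nonneg_of_nonpos hd.le h4
        linarith
      · rintro ⟨h2, h3⟩
        exact ⟨h2, by have := mul_pos hd h3; linarith⟩
    by_cases h2 : trK b < 0 ∧ 0 < nmK b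
    · rw [if_pos h2, if_pos (h1.2 h2)]
    · rw [if_neg h2, if_neg fun h' => h2 (h1.1 h')]

end

end Pool.Agent.H32.MA
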