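import Pool.Agent.H32.MA.RStm

/-!
# Project MA9 (MP_a9b340), block R, row R5: local constancy of the obstructions
-/

set_option autoImplicit false

open scoped BigOperators
open NumberField IsDedekindDomain

namespace Pool.Agent.H32.MA

open Pool.Agent.H98.MF (ord)
open Pool.Agent.H98.MF.B (ord_mul ord_pow ord_finite)

section

variable {K : Type} [Field K] [NumberField K]

/-- the first argument of the first symbol -/
theorem r5_first (F : QF K) {p c : ℕ} {s : ℚ → ℚ → ZMod 2} (hs : LocS p c s) {n u : ℚ}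
    (hn : n ≠ 0) (hu : u ≠ 0) :
    s F.d (2 * F.d * (n * u)) = s F.d (2 * F.d * n) + s F.d u := by
  rw [← mul_assoc, hs.mul_right _ _ _ F.d_ne (mul_ne_zero (mul_ne_zero two_ne_zero F.d_ne) hn) hu]

theorem r5_neg (F : QF K) {b : K} (hb : b ≠ 0) : -(F.d * nmK b : ℚ) ≠ 0 :=
  neg_ne_zero.2 (mul_ne_zero F.d_ne (nm_ne hb))

/-- if the trace vanishes, every symbol with the second argument vanishes -/
theorem r5_zero (F : QF K) {p c : ℕ} {s : ℚ → ℚ → ZMod 2} (hs : LocS p c s) {b : K} (hb : b ≠ 0)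
    (h : trK b = 0) {a : ℚ} (ha : a ≠ 0) : s a (-(F.d * nmK b)) = 0 := by
  obtain ⟨r, hr⟩ := tr_zero F h
  have h0 := r5_neg F hb
  rw [hr] at h0 ⊢
  exact hs.sq_right ha (fun h1 => h0 (by rw [h1]; ring))

/-- the symbols of the traces of `b` and `b * z ^ 2` -/
theorem r5_tr (F : QF K) {p c : ℕ} {s : ℚ → ℚ → ZMod 2} (hs : LocS p c s) {b z : K}
    (hb : b ≠ 0) (h1 : trK b ≠ 0) (h2 : trK (b * z ^ 2) ≠ 0) :
    s (trK (b * z ^ 2)) (-(F.d * nmK b)) = s (trK b) (-(F.d * nmK b)) := by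
  have h0 := r5_neg F hb
  have h3 := tr_norm F b z
  have h4 : s (trK b * trK (b * z ^ 2)) (-(F.d * nmK b)) = 0 := by
    rw [h3]
    apply hs.norm _ _ _ h0
    rw [← h3]
    exact mul_ne_zero h1 h2
  rw [hs.mul_left _ _ _ h1 h2 h0] at h4
  exact (z2' h4).symm

theorem st_sq (F : QF K) : StSq F := by
  intro p c s hs b z hb hz
  have hbz : b * z ^ 2 ≠ 0 := mul_ne_zero hb (pow_ne_zero 2 hz)
  have hnz := nm_ne hz
  have hn : nmK (b * z ^ 2) = nmK b * nmK z ^ 2 := by
    rw [nm_mul, pow_two z, nm_mul]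
    ring
  unfold ThS
  have e1 : s F.d (2 * F.d * nmK (b * z ^ 2)) = s F.d (2 * F.d * nmK b) := by
    rw [hn, r5_first F hs (nm_ne hb) (pow_ne_zero 2 hnz), hs.sq_right F.d_ne hnz, add_zero]
  have e2 : ∀ a : ℚ, a ≠ 0 → s a (-(F.d * nmK (b * z ^ 2))) = s a (-(F.d * nmK b)) := by
    intro a ha
    rw [hn, show -((F.d : ℚ) * (nmK b * nmK z ^ 2)) = -(F.d * nmK b) * nmK z ^ 2 by ring,
      hs.mul_right _ _ _ ha (r5_neg F hb) (pow_ne_zero 2 hnz), hs.sq_right ha hnz, add_zero]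
  rw [e1]
  congr 1
  by_cases h1 : trK b = 0
  · rw [if_pos h1]
    by_cases h2 : trK (b * z ^ 2) = 0
    · rw [if_pos h2]
    · rw [if_neg h2, e2 _ h2, r5_zero F hs hb h1 h2]
  · rw [if_neg h1]
    by_cases h2 : trK (b * z ^ 2) = 0
    · rw [if_pos h2, ← e2 _ h1, r5_zero F hs hbz h2 h1]
    · rw [if_neg h2, e2 _ h2, r5_tr F hs hb h1 h2]

/-- the norm of an element close to one -/
theorem r5_nm (F : QF K) (h3 : StIpT K) {p : ℕ} (hp : p.Prime) {c : ℕ} {l : K} {g : K}
    (hg : g ∈ Ip K p) (h : l - 1 = (p : K) ^ c * g) :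
    nmK l = 1 ∨ (c : ℤ) ≤ padicValRat p (nmK l - 1) := by
  have : Fact p.Prime := ⟨hp⟩
  have hp0 : (p : ℚ) ≠ 0 := by exact_mod_cast hp.ne_zero
  obtain ⟨h1, h2⟩ := h3 p hp g hg
  have hl : l = 1 + (p : K) ^ c * g := by linear_combination h
  have e : nmK l - 1 = (p : ℚ) ^ c * (trK g + (p : ℚ) ^ c * nmK g) := by
    obtain ⟨x, y, hxy⟩ := F.exists_xy g
    have e1 : l = ((1 + (p : ℚ) ^ c * x : ℚ) : K) + (((p : ℚ) ^ c * y : ℚ) : K) * F.dl := by
      rw [hl, hxy]
      push_cast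
      ring
    rw [e1, hxy, F.nm_xy, F.tr_xy, F.nm_xy]
    ring
  by_cases h4 : nmK l = 1
  · exact Or.inl h4
  · right
    have h5 : trK g + (p : ℚ) ^ c * nmK g ≠ 0 := by
      intro h6
      rw [h6, mul_zero] at e
      exact h4 (by linarith)
    rw [e, padicValRat.mul (pow_ne_zero c hp0) h5, padicValRat.pow, padicValRat.self hp.one_lt]
    have h6 : 0 ≤ padicValRat p (trK g + (p : ℚ) ^ c * nmK g) := by
      by_cases ht : trK g = 0
      · rw [ht, zero_add]
        by_cases hn : nmK g = 0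
        · rw [hn, mul_zero, padicValRat.zero]
        · rw [padicValRat.mul (pow_ne_zero c hp0) hn, padicValRat.pow,
            padicValRat.self hp.one_lt]
          have : (0 : ℤ) ≤ c := Int.natCast_nonneg c
          nlinarith
      · by_cases hn : nmK g = 0
        · rw [hn, mul_zero, add_zero]
          exact h1
        · refine le_trans ?_ (padicValRat.min_le_padicValRat_add h5)
          refine le_min h1 ?_
          rw [padicValRat.mul (pow_ne_zero c hp0) hn, padicValRat.pow,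
            padicValRat.self hp.one_lt]
          have : (0 : ℤ) ≤ c := Int.natCast_nonneg c
          nlinarith
    nlinarith

/-- every element is integral above `p` after multiplication by a power of `p` -/
theorem r5_den (h1 : StIp K) {p : ℕ} (hp : p.Prime) (b : K) :
    ∃ M : ℕ, (p : K) ^ M * b ∈ Ip K p := by
  by_cases hb : b = 0
  · exact ⟨0, by rw [hb, mul_zero]; exact (Ip K p).zero_mem⟩
  have hpK : (p : K) ≠ 0 := by exact_mod_cast hp.ne_zero
  have hT := ord_finite b hb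
  refine ⟨∑ P ∈ hT.toFinset, (ord P b).natAbs, ?_⟩
  rw [h1 p hp]
  intro P hP
  rw [ord_mul P (pow_ne_zero _ hpK) hb, ord_pow]
  by_cases h0 : ord P b = 0
  · rw [h0, add_zero]
    positivity
  have h2 : (ord P b).natAbs ≤ ∑ P ∈ hT.toFinset, (ord P b).natAbs :=
    Finset.single_le_sum (f := fun P => (ord P b).natAbs) (fun _ _ => Nat.zero_le _)
      (by rw [Set.Finite.mem_toFinset]; exact h0)
  have h3 : ((ord P b).natAbs : ℤ) ≤ ((∑ P ∈ hT.toFinset, (ord P b).natAbs : ℕ) : ℤ) := by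
    exact_mod_cast h2
  have h4 : -((ord P b).natAbs : ℤ) ≤ ord P b := by omega
  have h5 : (0 : ℤ) ≤ ((∑ P ∈ hT.toFinset, (ord P b).natAbs : ℕ) : ℤ) := Int.natCast_nonneg _
  nlinarith

/-- the trace of an approximation -/
theorem r5_apx (h1 : StIp K) (h3 : StIpT K) (h4 : StNewt K) {p : ℕ} (hp : p.Prime) {c : ℕ}
    (hc : 1 ≤ c) (hc2 : p = 2 → 3 ≤ c) {b l : K} (hl : ∃ g ∈ Ip K p, l - 1 = (p : K) ^ c * g)
    (hT : trK (l * b) ≠ 0) : ∃ z : K, z ≠ 0 ∧ ∃ u : ℚ, u ≠ 0 ∧
      trK (z ^ 2 * b) = trK (l * b) * u ∧ (u = 1 ∨ (c : ℤ) ≤ padicValRat p (u - 1)) := by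
  have : Fact p.Prime := ⟨hp⟩
  have hp0 : (p : ℚ) ≠ 0 := by exact_mod_cast hp.ne_zero
  have hpK : (p : K) ≠ 0 := by exact_mod_cast hp.ne_zero
  obtain ⟨M, hM⟩ := r5_den h1 hp b
  set T := trK (l * b) with hTdef
  obtain ⟨z, hz, g, hg, hzg⟩ := h4 p hp c hc hc2 l hl (M + c + (padicValRat p T).natAbs)
  set k := c + (padicValRat p T).natAbs with hk
  have hk' : M + c + (padicValRat p T).natAbs = M + k := by rw [hk]; ring
  rw [hk'] at hzg
  refine ⟨z, hz, trK (z ^ 2 * b) / T, ?_, by field_simp, ?_⟩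
  all_goals
    have e1 : z ^ 2 * b = l * b + ((p : ℚ) ^ k : ℚ) * (g * ((p : K) ^ M * b)) := by
      push_cast
      linear_combination b * hzg
    have e2 : trK (z ^ 2 * b) = T + (p : ℚ) ^ k * trK (g * ((p : K) ^ M * b)) := by
      rw [e1, tr_add, tr_rat_mul]
    have h5 := (h3 p hp _ ((Ip K p).mul_mem hg hM)).1
    set t := trK (g * ((p : K) ^ M * b)) with ht
    have key : trK (z ^ 2 * b) / T = 1 ∨ (c : ℤ) ≤ padicValRat p (trK (z ^ 2 * b) / T - 1) := by
      by_cases ht0 : t = 0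
      · left
        rw [e2, ht0, mul_zero, add_zero, div_self hT]
      · right
        have e3 : trK (z ^ 2 * b) / T - 1 = (p : ℚ) ^ k * t / T := by
          rw [e2]
          field_simp
          ring
        rw [e3, padicValRat.div (mul_ne_zero (pow_ne_zero k hp0) ht0) hT,
          padicValRat.mul (pow_ne_zero k hp0) ht0, padicValRat.pow, padicValRat.self hp.one_lt]
        have h6 : padicValRat p T ≤ |padicValRat p T| := le_abs_self _
        rw [hk]
        push_cast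
        linarith
  · intro h0
    rw [h0] at key
    rcases key with h6 | h6
    · exact zero_ne_one h6
    · rw [zero_sub, padicValRat.neg, padicValRat.one] at h6
      omega
  · exact key

theorem st_cong (F : QF K) (h1 : StIp K) (h3 : StIpT K) (h4 : StNewt K) : StCong F := by
  intro p c s hp hc hc2 hs b l hb hl hg
  have hlb : l * b ≠ 0 := mul_ne_zero hl hb
  have hnl := nm_ne hl
  have hnm : nmK l = 1 ∨ (c : ℤ) ≤ padicValRat p (nmK l - 1) := by
    obtain ⟨g, hg1, hg2⟩ := hg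
    exact r5_nm F h3 hp hg1 hg2
  have hB := r5_neg F hb
  have e0 : nmK (l * b) = nmK b * nmK l := by
    rw [nm_mul, mul_comm]
  have e1 : s F.d (2 * F.d * nmK (l * b)) = s F.d (2 * F.d * nmK b) := by
    rw [e0, r5_first F hs (nm_ne hb) hnl, hs.cong_right hnl F.d_ne hnm, add_zero]
  have e2 : ∀ a : ℚ, a ≠ 0 → s a (-(F.d * nmK (l * b))) = s a (-(F.d * nmK b)) := by
    intro a ha
    rw [e0, show -((F.d : ℚ) * (nmK b * nmK l)) = -(F.d * nmK b) * nmK l by ring,
      hs.mul_right _ _ _ ha hB hnl, hs.cong_right hnl ha hnm, add_zero]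
  unfold ThS
  rw [e1]
  congr 1
  by_cases hT0 : trK b = 0
  · rw [if_pos hT0]
    by_cases hT : trK (l * b) = 0
    · rw [if_pos hT]
    · rw [if_neg hT, e2 _ hT, r5_zero F hs hb hT0 hT]
  · rw [if_neg hT0]
    by_cases hT : trK (l * b) = 0
    · rw [if_pos hT, ← e2 _ hT0, r5_zero F hs hlb hT hT0]
    · rw [if_neg hT, e2 _ hT]
      obtain ⟨z, hz, u, hu, e3, hu1⟩ := r5_apx h1 h3 h4 hp hc hc2 hg hT
      have h5 : trK (b * z ^ 2) ≠ 0 := by
        rw [mul_comm, e3]
        exact mul_ne_zero hT hu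
      rw [← r5_tr F hs hb hT0 h5, mul_comm b, e3, hs.mul_left _ _ _ hT hu hB,
        hs.cong u _ hu hB hu1, add_zero]

end

end Pool.Agent.H32.MA
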