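import Pool.Agent.H32.MA.AStm
import Pool.Agent.H32.MA.RLoc
import Pool.Agent.H32.MA.RInf
import Pool.Agent.H32.MA.RTm

/-!
# Project MA9 (MP_a9b340), row A12: the criterion for lifts
-/

set_option autoImplicit false

open scoped BigOperators
open NumberField IsDedekindDomain

namespace Pool.Agent.H32.MA

open Pool.Agent.H98.MK (Om Gam dabs fld chi dd adm par lg par_hom par_lc z12)
open Pool.Agent.H98.MF (ord)
open Pool.Agent.H98.ML (hind norb tau IsTau)

/-- the symbol of an element with itself -/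
theorem a12_self {p c : ℕ} {s : ℚ → ℚ → ZMod 2} (hs : LocS p c s) {T : ℚ} (hT : T ≠ 0) :
    s T T = s T (-1) := by
  have h1 := hs.neg_self hT
  rw [show -T = (-1) * T by ring, hs.mul_left _ _ _ (by norm_num) hT hT] at h1
  rw [← z2' h1]
  exact hs.symm (by norm_num) hT

/-- the sum of the three symbols -/
theorem a12_sum {p c : ℕ} {s : ℚ → ℚ → ZMod 2} (hs : LocS p c s) {d n T : ℚ} (hd : d ≠ 0)
    (hn : n ≠ 0) (hT : T ≠ 0) :
    s (d * n) T + s T T + s (2 * d * n) d = s d (2 * d * n) + s T (-(d * n)) := by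
  have hdn : d * n ≠ 0 := mul_ne_zero hd hn
  have h2 : 2 * d * n ≠ 0 := mul_ne_zero (mul_ne_zero two_ne_zero hd) hn
  rw [a12_self hs hT, hs.symm hdn hT, hs.symm h2 hd, show -(d * n) = (d * n) * (-1) by ring,
    hs.mul_right _ _ _ hT hdn (by norm_num)]
  ring

/-- the sum of the three symbols at infinity -/
theorem a12_inf {d n T : ℚ} (hd : 0 < d) (hn : n ≠ 0) :
    tinf (d * n) T + tinf T T + tinf (2 * d * n) d = if T < 0 ∧ 0 < n then 1 else 0 := by
  unfold tinf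
  rw [if_neg (fun h : 2 * d * n < 0 ∧ d < 0 => absurd h.2 (not_lt.2 hd.le)), add_zero]
  by_cases hT : T < 0
  · rw [if_pos (show T < 0 ∧ T < 0 from ⟨hT, hT⟩)]
    rcases lt_or_gt_of_ne hn with h | h
    · rw [if_pos (show d * n < 0 ∧ T < 0 from ⟨mul_neg_of_pos_of_neg hd h, hT⟩),
        if_neg (fun h' : T < 0 ∧ 0 < n => absurd h'.2 (not_lt.2 h.le))]
      decide
    · rw [if_neg (fun h' : d * n < 0 ∧ T < 0 => absurd h'.1 (not_lt.2 (mul_pos hd h).le)),
        if_pos (show T < 0 ∧ 0 < n from ⟨hT, h⟩), zero_add]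
  · rw [if_neg (fun h' : T < 0 ∧ T < 0 => hT h'.1), if_neg (fun h' : d * n < 0 ∧ T < 0 => hT h'.2),
      if_neg (fun h' : T < 0 ∧ 0 < n => hT h'.1), add_zero]

section

variable {K : Type} [Field K] [NumberField K]

/-- the criterion, if the trace is not zero -/
theorem a12_main (F : QF K) (j : K →+* Om) (hL : SaLift F j) (hB : SaBr) (b : K)
    (f : Gam → ZMod 2) (hb : b ≠ 0) (hT : trK b ≠ 0) (hf : IsF F j b f) :
    ((∃ ρ : Gam →* SD, Cl F j b ρ ∧ ∀ σ, (ρ σ).pf = f σ) ↔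
      (∀ p : ℕ, p.Prime → p ≠ 2 → Th F p b = 0) ∧ ThI b = 0) := by
  have hd := F.d_ne
  have hn := nm_ne hb
  have hdn : (F.d : ℚ) * nmK b ≠ 0 := mul_ne_zero hd hn
  have h2 : 2 * (F.d : ℚ) * nmK b ≠ 0 := mul_ne_zero (mul_ne_zero two_ne_zero hd) hn
  rw [hL b f hb hT hf]
  have key := hB ![F.d * nmK b, trK b, 2 * F.d * nmK b] ![trK b, trK b, (F.d : ℚ)]
    (by
      intro i
      fin_cases i
      · exact hdn
      · exact hT
      · exact h2)
    (by
      intro i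
      fin_cases i
      · exact hT
      · exact hT
      · exact hd)
  simp only [Fin.sum_univ_three, Matrix.cons_val_zero, Matrix.cons_val_one,
    Matrix.cons_val] at key
  rw [key]
  have e1 : ∀ p : ℕ, p.Prime → p ≠ 2 → tm p (F.d * nmK b) (trK b) + tm p (trK b) (trK b) +
      tm p (2 * F.d * nmK b) F.d = Th F p b := by
    intro p hp hp2
    rw [a12_sum (st_tm p hp hp2) hd hn hT]
    unfold Th
    rw [if_neg hT]
  have e2 : tinf (F.d * nmK b) (trK b) + tinf (trK b) (trK b) +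
      tinf (2 * F.d * nmK b) F.d = ThI b := by
    rw [a12_inf (by exact_mod_cast F.d_pos) hn]
    rfl
  rw [e2]
  refine and_congr (forall_congr' fun p => forall_congr' fun hp => forall_congr' fun hp2 => ?_)
    Iff.rfl
  rw [e1 p hp hp2]

/-- elements of trace zero have a multiple by a square with nonzero trace -/
theorem a12_tr (F : QF K) {b : K} (hb : b ≠ 0) (h : trK b = 0) :
    ∃ z : K, z ≠ 0 ∧ trK (b * z ^ 2) ≠ 0 := by
  obtain ⟨x, y, rfl⟩ := F.exists_xy b
  rw [F.tr_xy] at h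
  have hx : x = 0 := by linarith
  subst hx
  have hy : y ≠ 0 := by
    rintro rfl
    apply hb
    simp
  refine ⟨(1 : ℚ) + (1 : ℚ) * F.dl, ?_, ?_⟩
  · intro h1
    exact absurd (F.indep h1).1 one_ne_zero
  · have e : (((0 : ℚ) : K) + y * F.dl) * (((1 : ℚ) : K) + ((1 : ℚ) : K) * F.dl) ^ 2 =
        ((2 * F.d * y : ℚ) : K) + ((y * (1 + F.d) : ℚ) : K) * F.dl := by
      push_cast
      linear_combination ((y : K) * 2 + y * F.dl) * F.sq
    rw [e, F.tr_xy]
    exact mul_ne_zero two_ne_zero (mul_ne_zero (mul_ne_zero two_ne_zero F.d_ne) hy)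

/-- the functions attached to an element depend only on the class modulo squares -/
theorem a12_isF (F : QF K) (j : K →+* Om) (hS : SaFSq F j) (b z : K) (f : Gam → ZMod 2)
    (hb : b ≠ 0) (hz : z ≠ 0) : IsF F j (b * z ^ 2) f ↔ IsF F j b f := by
  refine ⟨fun h => ?_, hS b z f hb hz⟩
  have h1 := hS (b * z ^ 2) z⁻¹ f (mul_ne_zero hb (pow_ne_zero 2 hz)) (inv_ne_zero hz) h
  have e : b * z ^ 2 * z⁻¹ ^ 2 = b := by
    field_simp
  rwa [e] at h1

/-- the homomorphisms attached to an element depend only on the class modulo squares -/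
theorem a12_cl (F : QF K) (j : K →+* Om) (hS : SaFSq F j) (b z : K) (ρ : Gam →* SD)
    (hb : b ≠ 0) (hz : z ≠ 0) : Cl F j (b * z ^ 2) ρ ↔ Cl F j b ρ :=
  ⟨fun h => ⟨h.lc, h.pd, (a12_isF F j hS b z _ hb hz).1 h.pf⟩,
    fun h => ⟨h.lc, h.pd, (a12_isF F j hS b z _ hb hz).2 h.pf⟩⟩

/-- A12: the criterion -/
theorem saCrit {K : Type} [Field K] [NumberField K] (F : QF K) (j : K →+* Om)
    (hL : SaLift F j) (hB : SaBr) (hS : SaFSq F j) : SaCrit F j := by
  intro b f hb hf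
  by_cases hT : trK b = 0
  · obtain ⟨z, hz, hz2⟩ := a12_tr F hb hT
    have hbz : b * z ^ 2 ≠ 0 := mul_ne_zero hb (pow_ne_zero 2 hz)
    have h1 := a12_main F j hL hB (b * z ^ 2) f hbz hz2 ((a12_isF F j hS b z f hb hz).2 hf)
    have e1 : ∀ p : ℕ, p.Prime → p ≠ 2 → Th F p (b * z ^ 2) = Th F p b := by
      intro p hp hp2
      rw [Th_eq, Th_eq]
      exact st_sq F p 1 _ (st_tm p hp hp2) b z hb hz
    have e2 : ThI (b * z ^ 2) = ThI b := (st_inf F).1 b z hb hz
    rw [e2] at h1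
    constructor
    · rintro ⟨ρ, h2, h3⟩
      obtain ⟨h4, h5⟩ := h1.1 ⟨ρ, (a12_cl F j hS b z ρ hb hz).2 h2, h3⟩
      exact ⟨fun p hp hp2 => by rw [← e1 p hp hp2]; exact h4 p hp hp2, h5⟩
    · rintro ⟨h4, h5⟩
      obtain ⟨ρ, h2, h3⟩ := h1.2 ⟨fun p hp hp2 => by rw [e1 p hp hp2]; exact h4 p hp hp2, h5⟩
      exact ⟨ρ, (a12_cl F j hS b z ρ hb hz).1 h2, h3⟩
  · exact a12_main F j hL hB b f hb hT hf

end

end Pool.Agent.H32.MA
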