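import Pool.Agent.H32.MA.RStm

/-!
# Project MA9 (MP_a9b340), row MA-R8: elements with prescribed exponents above `p`
-/

set_option autoImplicit false

open scoped BigOperators
open NumberField IsDedekindDomain

namespace Pool.Agent.H32.MA

open Pool.Agent.H98.MF (ord)

section

variable {K : Type} [Field K] [NumberField K]

theorem r8_ord_prod (P : HeightOneSpectrum (𝓞 K)) {ι : Type} (s : Finset ι) (f : ι → K)
    (hf : ∀ i ∈ s, f i ≠ 0) : ord P (∏ i ∈ s, f i) = ∑ i ∈ s, ord P (f i) := by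
  classical
  induction s using Finset.induction_on with
  | empty => simp [Pool.Agent.H98.MF.B.ord_one]
  | insert i s hi ih =>
    have h1 : ∀ j ∈ s, f j ≠ 0 := fun j hj => hf j (Finset.mem_insert_of_mem hj)
    rw [Finset.prod_insert hi, Finset.sum_insert hi,
      Pool.Agent.H98.MF.B.ord_mul P (hf i (Finset.mem_insert_self _ _))
        (Finset.prod_ne_zero_iff.2 h1), ih h1]

/-- a uniformizer at `P` that is a unit at the other primes of a finite set -/
theorem r8_unif (T : Finset (HeightOneSpectrum (𝓞 K))) (P : HeightOneSpectrum (𝓞 K))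
    (hP : P ∈ T) : ∃ y : K, y ≠ 0 ∧ ord P y = 1 ∧ ∀ Q ∈ T, Q ≠ P → ord Q y = 0 := by
  classical
  obtain ⟨a, ha1, ha2⟩ := Ideal.exists_mem_pow_notMem_pow_succ P.asIdeal P.ne_bot
    P.isPrime.ne_top 1
  obtain ⟨z, hz⟩ := IsDedekindDomain.exists_forall_sub_mem_ideal (s := T)
    (fun Q : HeightOneSpectrum (𝓞 K) => Q.asIdeal) (fun _ => 2) (fun Q _ => Q.prime)
    (fun Q _ R _ hQR h => hQR (HeightOneSpectrum.ext h)) (fun Q => if Q.1 = P then a else 1)
  have h1 : z - a ∈ P.asIdeal ^ 2 := by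
    have := hz P hP
    simpa using this
  have h2 : z ∉ P.asIdeal ^ 2 := by
    intro h
    apply ha2
    have h3 : a = z - (z - a) := by ring
    rw [h3]
    exact Ideal.sub_mem _ h h1
  have h4 : z ∈ P.asIdeal ^ 1 := by
    have h5 : z = (z - a) + a := by ring
    rw [h5]
    exact Ideal.add_mem _ (Ideal.pow_le_pow_right (by norm_num) h1) ha1
  have hz0 : z ≠ 0 := by
    intro h
    apply h2
    rw [h]
    exact Ideal.zero_mem _
  refine ⟨(z : K), fun h => hz0 (by exact_mod_cast h), ?_, fun Q hQ hQP => ?_⟩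
  · have h5 := (Pool.Agent.H98.MF.le_ord_iff P z 1).2 h4
    have h6 : ¬ ((2 : ℕ) : ℤ) ≤ ord P (z : K) := fun h =>
      h2 ((Pool.Agent.H98.MF.le_ord_iff P z 2).1 (Or.inr h))
    have h7 := h5.resolve_left hz0
    push_cast at h6 h7
    omega
  · have h3 : z - 1 ∈ Q.asIdeal ^ 2 := by
      have := hz Q hQ
      simpa [hQP] using this
    have h5 : z ∉ Q.asIdeal ^ 1 := by
      intro h
      apply Q.isPrime.ne_top
      rw [Ideal.eq_top_iff_one]
      have h6 : (1 : 𝓞 K) = z - (z - 1) := by ring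
      rw [h6]
      rw [pow_one] at h
      exact Ideal.sub_mem _ h (Ideal.pow_le_self (by norm_num) h3)
    have h6 : ¬ ((1 : ℕ) : ℤ) ≤ ord Q (z : K) := fun h =>
      h5 ((Pool.Agent.H98.MF.le_ord_iff Q z 1).1 (Or.inr h))
    have h7 := Pool.Agent.H98.MF.ord_int_nonneg Q z
    push_cast at h6
    omega

end

/-- row MA-R8 -/
theorem st_apx (K : Type) [Field K] [NumberField K] : StApx K := by
  classical
  intro p hp e
  have hpK : ((p : ℕ) : K) ≠ 0 := by exact_mod_cast hp.ne_zero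
  set T : Finset (HeightOneSpectrum (𝓞 K)) :=
    (Pool.Agent.H98.MF.B.ord_finite ((p : ℕ) : K) hpK).toFinset with hT
  have hex : ∀ P : HeightOneSpectrum (𝓞 K), ∃ y : K, P ∈ T → y ≠ 0 ∧ ord P y = 1 ∧
      ∀ Q ∈ T, Q ≠ P → ord Q y = 0 := by
    intro P
    by_cases hP : P ∈ T
    · obtain ⟨y, hy⟩ := r8_unif T P hP
      exact ⟨y, fun _ => hy⟩
    · exact ⟨1, fun h => absurd h hP⟩
  choose y hy using hex
  have hne : ∀ P ∈ T, y P ^ e P ≠ 0 := fun P hP => zpow_ne_zero _ (hy P hP).1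
  refine ⟨∏ P ∈ T, y P ^ e P, Finset.prod_ne_zero_iff.2 hne, fun Q hQ => ?_⟩
  have hQT : Q ∈ T := by
    rw [hT, Set.Finite.mem_toFinset]
    change ord Q ((p : ℕ) : K) ≠ 0
    omega
  rw [r8_ord_prod Q T _ hne, Finset.sum_eq_single Q]
  · rw [Pool.Agent.H98.MF.B.ord_zpow, (hy Q hQT).2.1, mul_one]
  · intro P hP hPQ
    rw [Pool.Agent.H98.MF.B.ord_zpow, (hy P hP).2.2 Q hQT hPQ.symm, mul_zero]
  · intro h
    exact absurd hQT h

end Pool.Agent.H32.MA
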