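import Pool.Agent.H32.MA.RStm

/-!
# Project MA9 (MP_a9b340), block R, row R11: the obstruction at primes with constant parity
-/

set_option autoImplicit false

open scoped BigOperators
open NumberField IsDedekindDomain

namespace Pool.Agent.H32.MA

open Pool.Agent.H98.MF (ord)
open Pool.Agent.H98.MF.B (ord_mul ord_pow ord_inv ord_div)

section

variable {K : Type} [Field K] [NumberField K]

theorem r11_vd {F : QF K} {p : ℕ} (hpd : ¬ p ∣ 2 * F.d) :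
    p ≠ 2 ∧ padicValRat p (F.d : ℚ) = 0 ∧ padicValRat p (2 : ℚ) = 0 := by
  have h1 : ¬ p ∣ 2 := fun h => hpd (h.trans (Dvd.intro _ rfl))
  have h2 : ¬ p ∣ F.d := fun h => hpd (h.trans (Dvd.intro_left _ rfl))
  refine ⟨fun h => h1 (by rw [h]), ?_, ?_⟩
  · rw [padicValRat.of_nat, padicValNat.eq_zero_of_not_dvd h2, Nat.cast_zero]
  · have := padicValRat.of_nat (p := p) (n := 2)
    rw [padicValNat.eq_zero_of_not_dvd h1, Nat.cast_zero] at this
    exact_mod_cast this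

/-- trace and norm of a unit above `p` -/
theorem r11_unit (h3 : StIp K) (h5 : StIpT K) {p : ℕ} (hp : p.Prime) {b : K} (hb : b ≠ 0)
    (h : ∀ P : HeightOneSpectrum (𝓞 K), 1 ≤ ord P (p : K) → ord P b = 0) :
    0 ≤ padicValRat p (trK b) ∧ padicValRat p (nmK b) = 0 := by
  have : Fact p.Prime := ⟨hp⟩
  have h6 := h5 p hp b ((h3 p hp b).2 fun P hP => (h P hP).ge)
  have h7 := h5 p hp b⁻¹ ((h3 p hp b⁻¹).2 fun P hP => by rw [ord_inv, h P hP, neg_zero])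
  have h8 : nmK b⁻¹ = (nmK b)⁻¹ := by
    apply eq_inv_of_mul_eq_one_left
    rw [← nm_mul, inv_mul_cancel₀ hb]
    unfold nmK
    rw [map_one]
  rw [h8, padicValRat.inv] at h7
  exact ⟨h6.1, le_antisymm (by linarith [h7.2]) h6.2⟩

theorem r11_zero (F : QF K) (h1 : StTm) (h2 : StTmV) (h3 : StIp K) (h5 : StIpT K) {p : ℕ}
    (hp : p.Prime) (hpd : ¬ p ∣ 2 * F.d) {b : K} (hb : b ≠ 0)
    (h : ∀ P : HeightOneSpectrum (𝓞 K), 1 ≤ ord P (p : K) → ord P b = 0) :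
    Th F p b = 0 := by
  have : Fact p.Prime := ⟨hp⟩
  obtain ⟨hp2, hd, h20⟩ := r11_vd hpd
  obtain ⟨ht, hn⟩ := r11_unit h3 h5 hp hb h
  have hn0 := nm_ne hb
  have hd0 := F.d_ne
  have hs := h1 p hp hp2
  have hB0 : -(F.d * nmK b : ℚ) ≠ 0 := neg_ne_zero.2 (mul_ne_zero hd0 hn0)
  have hvB : padicValRat p (-(F.d * nmK b : ℚ)) = 0 := by
    rw [padicValRat.neg, padicValRat.mul hd0 hn0, hd, hn, add_zero]
  have e1 : tm p F.d (2 * F.d * nmK b) = 0 := by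
    have h2d : (2 * F.d : ℚ) ≠ 0 := mul_ne_zero two_ne_zero hd0
    rw [h2 p hp hp2 _ _ hd0 (mul_ne_zero h2d hn0) hd, padicValRat.mul h2d hn0,
      padicValRat.mul two_ne_zero hd0, h20, hd, hn]
    simp
  unfold Th
  rw [e1, zero_add]
  by_cases ht0 : trK b = 0
  · rw [if_pos ht0]
  rw [if_neg ht0]
  by_cases hv : padicValRat p (trK b) = 0
  · rw [h2 p hp hp2 _ _ ht0 hB0 hv, hvB]
    simp
  obtain ⟨x, y, hxy⟩ := F.exists_xy b
  have htx : trK b = 2 * x := by rw [hxy, F.tr_xy]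
  have hnx : nmK b = x ^ 2 - F.d * y ^ 2 := by rw [hxy, F.nm_xy]
  have hx0 : x ≠ 0 := by
    rintro rfl
    exact ht0 (by rw [htx, mul_zero])
  have hvx : 1 ≤ padicValRat p x := by
    rw [htx, padicValRat.mul two_ne_zero hx0, h20, zero_add] at ht hv
    omega
  -- `-d N b = (d y) ^ 2 - d x ^ 2`
  have e2 : -(F.d * nmK b : ℚ) = (F.d * y) ^ 2 + -(F.d * x ^ 2) := by
    rw [hnx]
    ring
  have hdx0 : -(F.d * x ^ 2 : ℚ) ≠ 0 := neg_ne_zero.2 (mul_ne_zero hd0 (pow_ne_zero 2 hx0))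
  have hvdx : padicValRat p (-(F.d * x ^ 2 : ℚ)) = 2 * padicValRat p x := by
    rw [padicValRat.neg, padicValRat.mul hd0 (pow_ne_zero 2 hx0), hd, zero_add, padicValRat.pow]
    push_cast
    ring
  have hr0 : (F.d * y : ℚ) ≠ 0 := by
    intro h0
    rw [h0] at e2
    rw [e2, show (0 : ℚ) ^ 2 + -(F.d * x ^ 2) = -(F.d * x ^ 2) by ring, hvdx] at hvB
    omega
  have hvr : padicValRat p (F.d * y : ℚ) = 0 := by
    have h6 : (F.d * y : ℚ) ^ 2 = -(F.d * nmK b) + F.d * x ^ 2 := by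
      rw [hnx]
      ring
    have h7 : padicValRat p ((F.d * y : ℚ) ^ 2) = 0 := by
      rw [h6]
      have h8 : padicValRat p (-(F.d * nmK b : ℚ)) < padicValRat p (F.d * x ^ 2 : ℚ) := by
        rw [hvB]
        have : padicValRat p (F.d * x ^ 2 : ℚ) = 2 * padicValRat p x := by
          rw [← hvdx, padicValRat.neg]
        rw [this]
        omega
      rw [padicValRat.add_eq_of_lt (by rw [← h6]; exact pow_ne_zero 2 hr0) hB0
        (mul_ne_zero hd0 (pow_ne_zero 2 hx0)) h8, hvB]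
    rw [padicValRat.pow] at h7
    push_cast at h7
    omega
  have hu : -(F.d * nmK b : ℚ) = (F.d * y) ^ 2 * (-(F.d * nmK b) / (F.d * y) ^ 2) :=
    (mul_div_cancel₀ _ (pow_ne_zero 2 hr0)).symm
  have hu0 : -(F.d * nmK b : ℚ) / (F.d * y) ^ 2 ≠ 0 := div_ne_zero hB0 (pow_ne_zero 2 hr0)
  have hu1 : padicValRat p (-(F.d * nmK b : ℚ) / (F.d * y) ^ 2 - 1) = 2 * padicValRat p x := by
    have h6 : -(F.d * nmK b : ℚ) / (F.d * y) ^ 2 - 1 = -(F.d * x ^ 2) / (F.d * y) ^ 2 := by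
      rw [e2, add_div, div_self (pow_ne_zero 2 hr0), add_sub_cancel_left]
    rw [h6, padicValRat.div hdx0 (pow_ne_zero 2 hr0), hvdx, padicValRat.pow, hvr]
    push_cast
    ring
  rw [hu, hs.mul_right _ _ _ ht0 (pow_ne_zero 2 hr0) hu0, hs.sq_right ht0 hr0, zero_add]
  exact hs.cong_right hu0 ht0 (Or.inr (by rw [hu1]; push_cast; omega))

theorem st_even (F : QF K) (h1 : StTm) (h2 : StTmV) (h3 : StIp K) (h5 : StIpT K) (h6 : StApx K)
    (h7 : StSq F) : StEven F := by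
  intro p hp hpd b hb hev
  obtain ⟨hp2, -, -⟩ := r11_vd hpd
  obtain ⟨z, hz, hz1⟩ := h6 p hp (fun P => -(ord P b) / 2)
  have e : Th F p b = Th F p (b * z ^ 2) := (h7 p 1 (tm p) (h1 p hp hp2) b z hb hz).symm
  rw [e]
  refine r11_zero F h1 h2 h3 h5 hp hpd (mul_ne_zero hb (pow_ne_zero 2 hz)) fun P hP => ?_
  rw [ord_mul P hb (pow_ne_zero 2 hz), ord_pow, hz1 P hP]
  obtain ⟨k, hk⟩ := hev P hP
  rw [hk]
  push_cast
  omega

theorem st_odd (F : QF K) (h1 : StTm) (h6 : StApx K) (h7 : StSq F) (h8 : StUnr F)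
    (h9 : StEven F) : StOdd F := by
  intro p hp hpd b hb hodd
  have : Fact p.Prime := ⟨hp⟩
  obtain ⟨hp2, hd, h20⟩ := r11_vd hpd
  have hs := h1 p hp hp2
  have hd0 := F.d_ne
  have hpQ : (p : ℚ) ≠ 0 := by exact_mod_cast hp.ne_zero
  have hpK : (p : K) ≠ 0 := by exact_mod_cast hp.ne_zero
  obtain ⟨z, hz, hz1⟩ := h6 p hp (fun P => (1 - ord P b) / 2)
  have hz2 := pow_ne_zero 2 hz
  have hbz := mul_ne_zero hb hz2
  set b0 : K := b * z ^ 2 / p with hb0def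
  have hb0 : b0 ≠ 0 := div_ne_zero hbz hpK
  have hbz' : b * z ^ 2 = ((p : ℚ) : K) * b0 := by
    rw [hb0def]
    push_cast
    field_simp
  have e : Th F p b = Th F p (b * z ^ 2) := (h7 p 1 (tm p) hs b z hb hz).symm
  have h0 : Th F p b0 = 0 := by
    refine h9 p hp hpd b0 hb0 fun P hP => ?_
    rw [hb0def, ord_div P hbz hpK, ord_mul P hb hz2, ord_pow, hz1 P hP, h8 p hp hpd P hP]
    obtain ⟨k, hk⟩ := hodd P hP
    rw [hk]
    refine ⟨0, ?_⟩
    push_cast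
    omega
  have hn0 := nm_ne hb0
  have hB0 : -(F.d * nmK b0 : ℚ) ≠ 0 := neg_ne_zero.2 (mul_ne_zero hd0 hn0)
  have hnz := nm_ne hz
  have hnbz : nmK (b * z ^ 2) = p ^ 2 * nmK b0 := by
    rw [hbz', nm_mul, nm_rat F]
  have hnb : nmK b * nmK z ^ 2 = p ^ 2 * nmK b0 := by
    rw [← hnbz, nm_mul, pow_two z, nm_mul]
    ring
  have htz : trK (b * z ^ 2) = p * trK b0 := by
    rw [hbz', tr_rat_mul]
  -- the right hand side
  have hR : tm p p (-(F.d * nmK b)) = tm p p (-(F.d * nmK b0)) := by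
    have hBb : -(F.d * nmK b : ℚ) ≠ 0 := neg_ne_zero.2 (mul_ne_zero hd0 (nm_ne hb))
    have e1 : tm p p (-(F.d * nmK b) * nmK z ^ 2) = tm p p (-(F.d * nmK b)) := by
      rw [hs.mul_right _ _ _ hpQ hBb (pow_ne_zero 2 hnz), hs.sq_right hpQ hnz, add_zero]
    have e2 : tm p p (-(F.d * nmK b0) * (p : ℚ) ^ 2) = tm p p (-(F.d * nmK b0)) := by
      rw [hs.mul_right _ _ _ hpQ hB0 (pow_ne_zero 2 hpQ), hs.sq_right hpQ hpQ, add_zero]
    rw [← e1, ← e2]
    congr 1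
    linear_combination -(F.d : ℚ) * hnb
  rw [e, hR]
  unfold Th at h0 ⊢
  have e3 : tm p F.d (2 * F.d * nmK (b * z ^ 2)) = tm p F.d (2 * F.d * nmK b0) := by
    rw [hnbz, show (2 * F.d * ((p : ℚ) ^ 2 * nmK b0) : ℚ) = 2 * F.d * nmK b0 * p ^ 2 by ring,
      hs.mul_right _ _ _ hd0 (mul_ne_zero (mul_ne_zero two_ne_zero hd0) hn0)
        (pow_ne_zero 2 hpQ), hs.sq_right hd0 hpQ, add_zero]
  rw [e3]
  by_cases ht : trK b0 = 0
  · rw [if_pos ht, add_zero] at h0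
    rw [if_pos (by rw [htz, ht, mul_zero]), h0, add_zero]
    obtain ⟨r, hr⟩ := tr_zero F ht
    rw [hr] at hB0 ⊢
    exact (hs.sq_right hpQ (fun h => hB0 (by rw [h]; ring))).symm
  · rw [if_neg ht] at h0
    rw [if_neg (by rw [htz]; exact mul_ne_zero hpQ ht), htz, hnbz,
      show -((F.d : ℚ) * ((p : ℚ) ^ 2 * nmK b0)) = -(F.d * nmK b0) * p ^ 2 by ring,
      hs.mul_right _ _ _ (mul_ne_zero hpQ ht) hB0 (pow_ne_zero 2 hpQ),
      hs.sq_right (mul_ne_zero hpQ ht) hpQ, add_zero, hs.mul_left _ _ _ hpQ ht hB0]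
    rw [add_left_comm, h0, add_zero]

end

end Pool.Agent.H32.MA
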