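import Pool.Agent.H32.MA.RStm

/-!
# Project MA9 (MP_a9b340), row R14: the example `d = 3`
-/

set_option autoImplicit false

open scoped BigOperators
open NumberField IsDedekindDomain

namespace Pool.Agent.H32.MA

open Pool.Agent.H98.MK (lg)
open Pool.Agent.H98.MF (ord)

theorem r14_val {p n : ℕ} (h : ¬ p ∣ n) : padicValRat p (n : ℚ) = 0 := by
  rw [padicValRat.of_nat, padicValNat.eq_zero_of_not_dvd h, Nat.cast_zero]

theorem r14_not_dvd {p : ℕ} (hp : p.Prime) (h2 : p ≠ 2) (h3 : p ≠ 3) (a b : ℕ) :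
    ¬ p ∣ 2 ^ a * 3 ^ b := by
  intro h
  rcases (hp.dvd_mul).1 h with h | h
  · exact h2 ((Nat.prime_dvd_prime_iff_eq hp Nat.prime_two).1 (hp.dvd_of_dvd_pow h))
  · exact h3 ((Nat.prime_dvd_prime_iff_eq hp Nat.prime_three).1 (hp.dvd_of_dvd_pow h))

theorem r14_lg_one : lg 1 = 0 := by decide

/-- units -/
theorem r14_tm_zero (p : ℕ) (a b : ℚ) (ha : padicValRat p a = 0) (hb : padicValRat p b = 0) :
    tm p a b = 0 := by
  unfold tm
  rw [ha, hb]
  simp only [mul_zero, zpow_zero, mul_one, neg_zero, Rat.num_one, Rat.den_one, Nat.cast_one,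
    jacobiSym.one_left]
  exact r14_lg_one

theorem r14_val3 : padicValRat 3 (3 : ℚ) = 1 := by
  have := padicValRat.self (p := 3) (by norm_num)
  exact_mod_cast this

theorem r14_tm1 : tm 3 3 (-48) = 0 := by
  have : Fact (Nat.Prime 3) := ⟨Nat.prime_three⟩
  have h1 : padicValRat 3 (-48 : ℚ) = 1 := by
    rw [padicValRat.neg, show (48 : ℚ) = 3 * ((16 : ℕ) : ℚ) by norm_num,
      padicValRat.mul (by norm_num) (by norm_num), r14_val3, r14_val (by norm_num)]
    norm_num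
  unfold tm
  simp only [r14_val3, h1]
  have h2 : ((-1 : ℚ) ^ ((1 : ℤ) * 1) * 3 ^ (1 : ℤ) * (-48) ^ (-(1 : ℤ))) = 1 / ((16 : ℕ) : ℚ) := by
    rw [mul_one, zpow_one, zpow_one, zpow_neg_one]
    norm_num
  rw [h2]
  have h3 : (1 / ((16 : ℕ) : ℚ)).num = 1 := by norm_num
  have h4 : (1 / ((16 : ℕ) : ℚ)).den = 16 := by norm_num
  rw [h3, h4]
  have h5 : jacobiSym (1 * ((16 : ℕ) : ℤ)) 3 = 1 := by
    rw [show (1 * ((16 : ℕ) : ℤ)) = 4 ^ 2 by norm_num]
    exact jacobiSym.sq_one' (by norm_num)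
  rw [h5]
  exact r14_lg_one

theorem r14_tm2 : tm 3 4 24 = 0 := by
  have : Fact (Nat.Prime 3) := ⟨Nat.prime_three⟩
  have h0 : padicValRat 3 (4 : ℚ) = 0 := by
    have := r14_val (p := 3) (n := 4) (by norm_num)
    exact_mod_cast this
  have h1 : padicValRat 3 (24 : ℚ) = 1 := by
    rw [show (24 : ℚ) = 3 * ((8 : ℕ) : ℚ) by norm_num,
      padicValRat.mul (by norm_num) (by norm_num), r14_val3, r14_val (by norm_num)]
    norm_num
  unfold tm
  simp only [h0, h1]
  have h2 : ((-1 : ℚ) ^ ((0 : ℤ) * 1) * 4 ^ (1 : ℤ) * 24 ^ (-(0 : ℤ))) = ((4 : ℤ) : ℚ) := by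
    rw [zero_mul, zpow_zero, zpow_one, neg_zero, zpow_zero]
    norm_num
  rw [h2, Rat.num_intCast, Rat.den_intCast]
  have h5 : jacobiSym (4 * ((1 : ℕ) : ℤ)) 3 = 1 := by
    rw [show (4 * ((1 : ℕ) : ℤ)) = 2 ^ 2 by norm_num]
    exact jacobiSym.sq_one' (by norm_num)
  rw [h5]
  exact r14_lg_one

section

variable {K : Type} [Field K] [NumberField K]

theorem r14_ord_nonneg (P : HeightOneSpectrum (𝓞 K)) {b : K} (hb : IsIntegral ℤ b)
    (hb0 : b ≠ 0) : 0 ≤ ord P b := by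
  have h1 := (Pool.Agent.H98.MF.le_ord_iff P (⟨b, hb⟩ : 𝓞 K) 0).2 (by simp)
  rcases h1 with h1 | h1
  · exact absurd (congrArg (fun x : 𝓞 K => (x : K)) h1) (by simpa using hb0)
  · exact_mod_cast h1

theorem st_ex (F : QF K) : StEx F := by
  intro hd
  have hb : (2 + 2 * F.dl : K) = ((2 : ℚ) : K) + ((2 : ℚ) : K) * F.dl := by
    push_cast
    ring
  have htr : trK (2 + 2 * F.dl : K) = 4 := by
    rw [hb, F.tr_xy]
    norm_num
  have hnm : nmK (2 + 2 * F.dl : K) = -8 := by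
    rw [hb, F.nm_xy, hd]
    norm_num
  have hb0 : (2 + 2 * F.dl : K) ≠ 0 := by
    intro h
    rw [hb] at h
    exact absurd (F.indep h).1 (by norm_num)
  have hth : ∀ p : ℕ, p.Prime → p ≠ 2 → Th F p (2 + 2 * F.dl) = 0 := by
    intro p hp h2
    have : Fact p.Prime := ⟨hp⟩
    have h3 : Th F p (2 + 2 * F.dl) = tm p 3 (-48) + tm p 4 24 := by
      unfold Th
      rw [htr, hnm, hd, if_neg (by norm_num)]
      norm_num
    rw [h3]
    by_cases hp3 : p = 3
    · subst hp3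
      rw [r14_tm1, r14_tm2, add_zero]
    · have e3 : padicValRat p (3 : ℚ) = 0 := by
        have h4 := r14_val (r14_not_dvd hp h2 hp3 0 1)
        norm_num at h4
        exact h4
      have e4 : padicValRat p (4 : ℚ) = 0 := by
        have h4 := r14_val (r14_not_dvd hp h2 hp3 2 0)
        norm_num at h4
        exact h4
      have e24 : padicValRat p (24 : ℚ) = 0 := by
        have h4 := r14_val (r14_not_dvd hp h2 hp3 3 1)
        norm_num at h4
        exact h4
      have e48 : padicValRat p (-48 : ℚ) = 0 := by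
        have h4 := r14_val (r14_not_dvd hp h2 hp3 4 1)
        norm_num at h4
        rw [padicValRat.neg]
        exact h4
      rw [r14_tm_zero p _ _ e3 e48, r14_tm_zero p _ _ e4 e24, add_zero]
  refine ⟨hnm, htr, ?_, hth, ?_, ?_⟩
  · unfold ThI
    rw [htr, if_neg]
    rintro ⟨h1, -⟩
    norm_num at h1
  · intro P hP
    have hdl : IsIntegral ℤ F.dl := by
      refine IsIntegral.of_pow (n := 2) (by norm_num) ?_
      rw [F.sq]
      exact_mod_cast isIntegral_algebraMap (R := ℤ) (A := K) (x := (F.d : ℤ))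
    have h2i : IsIntegral ℤ (2 : K) := by
      have h := isIntegral_algebraMap (R := ℤ) (A := K) (x := (2 : ℤ))
      rwa [map_ofNat] at h
    have hi : IsIntegral ℤ (2 + 2 * F.dl : K) := h2i.add (h2i.mul hdl)
    have hc : F.cj (2 + 2 * F.dl : K) = 2 - 2 * F.dl := by
      rw [hb, F.cj_xy]
      push_cast
      ring
    have hi' : IsIntegral ℤ (F.cj (2 + 2 * F.dl : K)) := by
      rw [hc]
      exact h2i.sub (h2i.mul hdl)
    have hc0 : F.cj (2 + 2 * F.dl : K) ≠ 0 := F.cj_ne hb0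
    have h1 := r14_ord_nonneg P hi hb0
    have h2 := r14_ord_nonneg P hi' hc0
    have h3 : ord P ((2 + 2 * F.dl : K) * F.cj (2 + 2 * F.dl)) = 0 := by
      rw [← F.nm_eq, hnm]
      have h4 : (((-8 : ℚ)) : K) = -(2 ^ 3) := by
        push_cast
        norm_num
      rw [h4, Pool.Agent.H98.MF.B.ord_neg, Pool.Agent.H98.MF.B.ord_pow, hP, mul_zero]
    rw [Pool.Agent.H98.MF.B.ord_mul P hb0 hc0] at h3
    omega
  · intro m
    unfold spn
    refine finprod_eq_one_of_forall_eq_one fun p => ?_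
    rw [if_pos (hth p p.2.1 p.2.2.1)]

end

end Pool.Agent.H32.MA
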