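import Pool.Agent.H32.MA.RStm

/-!
# Project MA9 (MP_a9b340), block R, row R3b: congruences above `p`, trace and norm of integral
elements
-/

set_option autoImplicit false

open scoped BigOperators
open NumberField IsDedekindDomain

namespace Pool.Agent.H32.MA

open Pool.Agent.H98.MF (ord)
open Pool.Agent.H98.MF.B (ord_div ord_pow)

theorem st_ipC (K : Type) [Field K] [NumberField K] (h1 : StIp K) (h2 : StOrdR K) : StIpC K := by
  intro p hp m hm hpm l hl
  by_cases hl1 : l = 1
  · exact ⟨0, (Ip K p).zero_mem, by rw [hl1]; ring⟩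
  have hpK : (p : K) ≠ 0 := by exact_mod_cast hp.ne_zero
  have hl0 : l - 1 ≠ 0 := sub_ne_zero.2 hl1
  have hpv : (p : K) ^ (m.factorization p) ≠ 0 := pow_ne_zero _ hpK
  refine ⟨(l - 1) / (p : K) ^ (m.factorization p), ?_, ?_⟩
  · rw [h1 p hp]
    intro P hP
    have hv : 1 ≤ m.factorization p := hp.factorization_pos_of_dvd hm hpm
    have hq : ((m : ℚ) : K) = (m : K) := by push_cast; rfl
    have h3 := h2 p hp P hP (m : ℚ) (by exact_mod_cast hm)
    rw [hq, padicValRat.of_nat, ← Nat.factorization_def m hp] at h3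
    have hv' : (1 : ℤ) ≤ (m.factorization p : ℤ) := by exact_mod_cast hv
    have h4 : 1 ≤ ord P (m : K) := by
      rw [h3]
      calc (1 : ℤ) = 1 * 1 := (one_mul 1).symm
        _ ≤ ord P (p : K) * (m.factorization p : ℤ) :=
          mul_le_mul hP hv' zero_le_one (by linarith)
    have h5 : ord P (m : K) ≤ ord P (l - 1) := by
      rcases hl P h4 with h | h
      · exact absurd h hl1
      · exact h
    rw [ord_div P hl0 hpv, ord_pow]
    rw [h3] at h5
    linarith
  · rw [mul_div_cancel₀ _ hpv]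

/-- a rational number with an integral multiple prime to `p` -/
theorem r3_val {p : ℕ} (hp : p.Prime) {s : ℕ} (hs : s.Coprime p) {q : ℚ} {y : ℤ}
    (h : (s : ℚ) * q = y) : 0 ≤ padicValRat p q := by
  have := Fact.mk hp
  by_cases hq : q = 0
  · rw [hq, padicValRat.zero]
  have hs0 : s ≠ 0 := by
    rintro rfl
    rw [Nat.coprime_zero_left] at hs
    exact hp.one_lt.ne' hs
  have hsq : (s : ℚ) ≠ 0 := by exact_mod_cast hs0
  have hsv : padicValRat p (s : ℚ) = 0 := by
    rw [padicValRat.of_nat]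
    have : ¬ p ∣ s := fun h => by
      have h1 := Nat.Coprime.eq_one_of_dvd hs.symm h
      exact hp.one_lt.ne' h1
    rw [padicValNat.eq_zero_of_not_dvd this]
    rfl
  have h1 := padicValRat.mul (p := p) hsq hq
  rw [h, hsv, zero_add, padicValRat.of_int] at h1
  rw [← h1]
  exact Int.natCast_nonneg _

theorem st_ipT (K : Type) [Field K] [NumberField K] : StIpT K := by
  intro p hp γ hγ
  obtain ⟨s, hs, hint⟩ := hγ
  have hsK : ((s : ℚ) : K) = (s : K) := by push_cast; rfl
  constructor
  · have h1 : IsIntegral ℤ (Algebra.trace ℚ K ((s : K) * γ)) := Algebra.isIntegral_trace hint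
    obtain ⟨y, hy⟩ := IsIntegrallyClosed.isIntegral_iff.1 h1
    have h2 : Algebra.trace ℚ K ((s : K) * γ) = (s : ℚ) * trK γ := by
      rw [← hsK]
      exact tr_rat_mul (s : ℚ) γ
    refine r3_val hp hs (y := y) ?_
    rw [← h2, ← hy]
    rfl
  · have h1 : IsIntegral ℤ (Algebra.norm ℚ ((s : K) * γ)) := Algebra.isIntegral_norm ℚ hint
    obtain ⟨y, hy⟩ := IsIntegrallyClosed.isIntegral_iff.1 h1
    have h2 : Algebra.norm ℚ ((s : K) * γ) = ((s ^ Module.finrank ℚ K : ℕ) : ℚ) * nmK γ := by
      rw [map_mul, ← hsK]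
      have h3 : ((s : ℚ) : K) = algebraMap ℚ K (s : ℚ) := rfl
      rw [h3, Algebra.norm_algebraMap]
      push_cast
      rfl
    refine r3_val hp (Nat.Coprime.pow_left (Module.finrank ℚ K) hs) (y := y) ?_
    rw [← h2, ← hy]
    rfl

end Pool.Agent.H32.MA
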