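import Pool.Agent.H32.MA.RStm

/-!
# Project MA9 (MP_a9b340), row R4: approximate square roots
-/

set_option autoImplicit false

open scoped BigOperators
open NumberField IsDedekindDomain

namespace Pool.Agent.H32.MA

open Pool.Agent.H98.MF (ord)

section

variable {K : Type} [Field K] [CharZero K] {p : ℕ}

/-- divisibility by a power of `p` above `p` -/
def r4D (p n : ℕ) (x : K) : Prop := ∃ g ∈ Ip K p, x = (p : K) ^ n * g

theorem r4_nat (n : ℕ) : (n : K) ∈ Ip K p := natCast_mem _ n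

theorem r4_add {n : ℕ} {x y : K} (hx : r4D p n x) (hy : r4D p n y) : r4D p n (x + y) := by
  obtain ⟨g, hg, rfl⟩ := hx
  obtain ⟨h, hh, rfl⟩ := hy
  exact ⟨g + h, add_mem hg hh, by ring⟩

theorem r4_neg {n : ℕ} {x : K} (hx : r4D p n x) : r4D p n (-x) := by
  obtain ⟨g, hg, rfl⟩ := hx
  exact ⟨-g, neg_mem hg, by ring⟩

theorem r4_sub {n : ℕ} {x y : K} (hx : r4D p n x) (hy : r4D p n y) : r4D p n (x - y) := by
  rw [sub_eq_add_neg]
  exact r4_add hx (r4_neg hy)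

theorem r4_mul {m n : ℕ} {x y : K} (hx : r4D p m x) (hy : r4D p n y) :
    r4D p (m + n) (x * y) := by
  obtain ⟨g, hg, rfl⟩ := hx
  obtain ⟨h, hh, rfl⟩ := hy
  exact ⟨g * h, mul_mem hg hh, by ring⟩

theorem r4_mono {m n : ℕ} (h : m ≤ n) {x : K} (hx : r4D p n x) : r4D p m x := by
  obtain ⟨g, hg, rfl⟩ := hx
  refine ⟨(p : K) ^ (n - m) * g, mul_mem (pow_mem (r4_nat p) _) hg, ?_⟩
  rw [← mul_assoc, ← pow_add]
  congr 2
  omega

theorem r4_zero {n : ℕ} : r4D p n (0 : K) := ⟨0, zero_mem _, by ring⟩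

/-- halves for odd `p` -/
theorem r4_half (hp : p.Prime) (h2 : p ≠ 2) {n : ℕ} {x : K} (hx : r4D p n x) :
    r4D p n (x / 2) := by
  obtain ⟨g, hg, rfl⟩ := hx
  have hh : (1 / 2 : K) ∈ Ip K p := by
    refine ⟨2, ?_, ?_⟩
    · exact (Nat.coprime_primes Nat.prime_two hp).2 (Ne.symm h2)
    · have : ((2 : ℕ) : K) * (1 / 2) = 1 := by norm_num
      rw [this]
      exact isIntegral_one
  exact ⟨g * (1 / 2), mul_mem hg hh, by ring⟩

/-- halves for `p = 2` -/
theorem r4_half2 {n : ℕ} {x : K} (hx : r4D 2 (n + 1) x) : r4D 2 n (x / 2) := by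
  obtain ⟨g, hg, rfl⟩ := hx
  refine ⟨g, hg, ?_⟩
  push_cast
  rw [pow_succ]
  ring

theorem r4_step {a c k : ℕ} (ha : 1 ≤ a) {l z : K}
    (hhalf : ∀ x : K, r4D p (c + k) x → r4D p a (x / 2) ∧ r4D p 1 (x / 4))
    (h1 : r4D p a (z - 1)) (h2 : r4D p (c + k) (z ^ 2 - l)) :
    r4D p a ((z - (z ^ 2 - l) / 2) - 1) ∧
      r4D p (c + (k + 1)) ((z - (z ^ 2 - l) / 2) ^ 2 - l) := by
  have h3 := hhalf _ h2
  constructor
  · have h4 : (z - (z ^ 2 - l) / 2) - 1 = (z - 1) - (z ^ 2 - l) / 2 := by ring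
    rw [h4]
    exact r4_sub h1 h3.1
  · have h4 : (z - (z ^ 2 - l) / 2) ^ 2 - l = (z ^ 2 - l) * ((z ^ 2 - l) / 4 - (z - 1)) := by
      ring
    rw [h4, ← add_assoc]
    exact r4_mul h2 (r4_sub h3.2 (r4_mono ha h1))

theorem r4_iter {a c : ℕ} (ha : 1 ≤ a) {l : K}
    (hhalf : ∀ k : ℕ, ∀ x : K, r4D p (c + k) x → r4D p a (x / 2) ∧ r4D p 1 (x / 4))
    (hl : r4D p c (l - 1)) (k : ℕ) :
    ∃ z : K, r4D p a (z - 1) ∧ r4D p (c + k) (z ^ 2 - l) := by
  induction k with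
  | zero =>
    refine ⟨1, ?_, ?_⟩
    · rw [sub_self]
      exact r4_zero
    · have h : (1 : K) ^ 2 - l = -(l - 1) := by ring
      rw [h]
      exact r4_neg hl
  | succ k ih =>
    obtain ⟨z, h1, h2⟩ := ih
    exact ⟨_, r4_step ha (hhalf k) h1 h2⟩

end

theorem st_newt (K : Type) [Field K] [NumberField K] (h1 : StIp K) (h2 : StOrdR K)
    (h3 : StOver K) : StNewt K := by
  intro p hp c hc hc2 l hl k
  have key : ∃ z : K, r4D p 1 (z - 1) ∧ r4D p (c + k) (z ^ 2 - l) := by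
    by_cases hp2 : p = 2
    · subst hp2
      have h3c := hc2 rfl
      obtain ⟨z, hz1, hz2⟩ := r4_iter (p := 2) (a := 2) (c := c) (l := l) (by norm_num)
        (fun k x hx => by
          have h4 : r4D 2 (2 + 1) x := r4_mono (by omega) hx
          have h5 := r4_half2 h4
          have h6 := r4_half2 (n := 1) h5
          refine ⟨h5, ?_⟩
          have h7 : x / 4 = x / 2 / 2 := by ring
          rw [h7]
          exact h6) hl k
      exact ⟨z, r4_mono (by norm_num) hz1, hz2⟩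
    · exact r4_iter (p := p) (a := 1) (c := c) (l := l) le_rfl
        (fun k x hx => by
          have h4 : r4D p 1 x := r4_mono (by omega) hx
          have h5 := r4_half hp hp2 h4
          refine ⟨h5, ?_⟩
          have h7 : x / 4 = x / 2 / 2 := by ring
          rw [h7]
          exact r4_half hp hp2 h5) hl k
  obtain ⟨z, hz1, hz2⟩ := key
  refine ⟨z, ?_, r4_mono (by omega) hz2⟩
  rintro rfl
  obtain ⟨g, hg, hg1⟩ := hz1
  obtain ⟨P, hP⟩ := h3 p hp
  have hp0 : (p : K) ≠ 0 := by exact_mod_cast hp.ne_zero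
  have hg0 : g ≠ 0 := by
    rintro rfl
    rw [mul_zero] at hg1
    norm_num at hg1
  have h4 : 0 ≤ ord P g := (h1 p hp g).1 hg P hP
  have h5 : ord P ((p : K) ^ 1 * g) = ord P (p : K) + ord P g := by
    rw [pow_one]
    exact Pool.Agent.H98.MF.B.ord_mul P hp0 hg0
  rw [← hg1, zero_sub, Pool.Agent.H98.MF.B.ord_neg_one] at h5
  omega

end Pool.Agent.H32.MA
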