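import Pool.Agent.H32.MA.RStm

/-!
# Project MA9 (MP_a9b340), row R2: quadratic reciprocity, the symbol at two
-/

set_option autoImplicit false

open scoped BigOperators
open NumberField IsDedekindDomain

namespace Pool.Agent.H32.MA

open Pool.Agent.H98.MK (lg)
open Pool.Agent.H98.MF (ord)

/-- odd primes -/
abbrev r2_P : Type := {p : ℕ // p.Prime ∧ p ≠ 2}

theorem r2_two (x : ZMod 2) : x = 0 ∨ x = 1 := by
  revert x
  decide

theorem r2_tinf_mul_left {a a' b : ℚ} (ha : a ≠ 0) (ha' : a' ≠ 0) :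
    tinf (a * a') b = tinf a b + tinf a' b := by
  unfold tinf
  by_cases hb : b < 0
  · rcases lt_or_gt_of_ne ha with h1 | h1 <;> rcases lt_or_gt_of_ne ha' with h2 | h2
    · rw [if_neg (fun h => absurd h.1 (not_lt.2 (mul_pos_of_neg_of_neg h1 h2).le)),
        if_pos ⟨h1, hb⟩, if_pos ⟨h2, hb⟩]
      decide
    · rw [if_pos ⟨mul_neg_of_neg_of_pos h1 h2, hb⟩, if_pos ⟨h1, hb⟩,
        if_neg (fun h => absurd h.1 (not_lt.2 h2.le)), add_zero]
    · rw [if_pos ⟨mul_neg_of_pos_of_neg h1 h2, hb⟩, if_neg (fun h => absurd h.1 (not_lt.2 h1.le)),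
        if_pos ⟨h2, hb⟩, zero_add]
    · rw [if_neg (fun h => absurd h.1 (not_lt.2 (mul_pos h1 h2).le)),
        if_neg (fun h => absurd h.1 (not_lt.2 h1.le)),
        if_neg (fun h => absurd h.1 (not_lt.2 h2.le)), add_zero]
  · rw [if_neg (fun h => hb h.2), if_neg (fun h => hb h.2), if_neg (fun h => hb h.2), add_zero]

theorem r2_tinf_symm (a b : ℚ) : tinf a b = tinf b a := by
  unfold tinf
  by_cases h : a < 0 ∧ b < 0
  · rw [if_pos h, if_pos h.symm]
  · rw [if_neg h, if_neg (fun h' => h h'.symm)]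

theorem r2_tinf_pos {a b : ℚ} (h : 0 ≤ b) : tinf a b = 0 :=
  if_neg fun h' => absurd h'.2 (not_lt.2 h)

section

variable (h1 : StTm) (h3 : StTmF)

include h1 h3

theorem r2_mul_left {a a' b : ℚ} (ha : a ≠ 0) (ha' : a' ≠ 0) (hb : b ≠ 0) :
    h2s (a * a') b = h2s a b + h2s a' b := by
  unfold h2s
  have h : ∑ᶠ p : r2_P, tm p (a * a') b = ∑ᶠ p : r2_P, tm p a b + ∑ᶠ p : r2_P, tm p a' b := by
    rw [← finsum_add_distrib (h3 a b) (h3 a' b)]
    exact finsum_congr fun p => (h1 p.1 p.2.1 p.2.2).mul_left a a' b ha ha' hb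
  rw [h, r2_tinf_mul_left ha ha']
  ring

theorem r2_mul_right {a b b' : ℚ} (ha : a ≠ 0) (hb : b ≠ 0) (hb' : b' ≠ 0) :
    h2s a (b * b') = h2s a b + h2s a b' := by
  unfold h2s
  have h : ∑ᶠ p : r2_P, tm p a (b * b') = ∑ᶠ p : r2_P, tm p a b + ∑ᶠ p : r2_P, tm p a b' := by
    rw [← finsum_add_distrib (h3 a b) (h3 a b')]
    exact finsum_congr fun p => (h1 p.1 p.2.1 p.2.2).mul_right a b b' ha hb hb'
  rw [h, r2_tinf_symm a (b * b'), r2_tinf_mul_left hb hb', r2_tinf_symm b a, r2_tinf_symm b' a]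
  ring

theorem r2_sq_left {a b : ℚ} (ha : a ≠ 0) (hb : b ≠ 0) : h2s (a ^ 2) b = 0 := by
  rw [pow_two, r2_mul_left h1 h3 ha ha hb, z2]

theorem r2_sq_right {a b : ℚ} (ha : a ≠ 0) (hb : b ≠ 0) : h2s a (b ^ 2) = 0 := by
  rw [pow_two, r2_mul_right h1 h3 ha hb hb, z2]

omit h3 in
theorem r2_norm {b x y : ℚ} (hb : b ≠ 0) (h : x ^ 2 - b * y ^ 2 ≠ 0) :
    h2s (x ^ 2 - b * y ^ 2) b = 0 := by
  unfold h2s
  have h2 : ∑ᶠ p : r2_P, tm p (x ^ 2 - b * y ^ 2) b = 0 := by
    rw [← finsum_zero (α := r2_P) (M := ZMod 2)]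
    exact finsum_congr fun p => (h1 p.1 p.2.1 p.2.2).norm b x y hb h
  rw [h2, add_zero]
  unfold tinf
  refine if_neg fun h' => ?_
  nlinarith [h'.1, h'.2, sq_nonneg x, sq_nonneg y]

theorem r2_self {a : ℚ} (ha : a ≠ 0) : h2s a a = h2s (-1) a := by
  have h := r2_norm h1 (b := a) (x := 0) (y := 1) ha (by simpa using ha)
  have e : (0 : ℚ) ^ 2 - a * 1 ^ 2 = (-1) * a := by ring
  rw [e, r2_mul_left h1 h3 (by norm_num) ha ha] at h
  exact (z2' h).symm

end

/-! ### Jacobi symbols as sums -/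

theorem r2_lg_mul {x y : ℤ} (hx : x = 1 ∨ x = -1) (hy : y = 1 ∨ y = -1) :
    lg (x * y) = lg x + lg y := by
  rcases hx with rfl | rfl <;> rcases hy with rfl | rfl <;> decide

theorem r2_lg_one : lg 1 = 0 := by decide

theorem r2_lg_neg : lg (-1) = 1 := by decide

theorem r2_jac {a : ℤ} {n : ℕ} (h : IsCoprime a n) : jacobiSym a n = 1 ∨ jacobiSym a n = -1 :=
  jacobiSym.eq_one_or_neg_one (Int.isCoprime_iff_gcd_eq_one.1 h)

theorem r2_cop {q C : ℤ} (h : IsCoprime q C) : IsCoprime q (C.natAbs : ℤ) := by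
  rw [Int.isCoprime_iff_gcd_eq_one] at h ⊢
  exact h

theorem r2_supp (n : ℕ) (hn : n ≠ 0) (g : r2_P → ZMod 2) :
    (Function.support fun p : r2_P =>
      ((padicValRat p.1 (n : ℚ) : ℤ) : ZMod 2) * g p).Finite := by
  have h : {p : r2_P | p.1 ∣ n}.Finite := by
    have h1 : {p : ℕ | p ∣ n}.Finite :=
      (Nat.divisors n).finite_toSet.subset fun p hp => by
        simpa [hn] using hp
    exact Set.Finite.preimage (f := (Subtype.val : r2_P → ℕ)) Subtype.val_injective.injOn h1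
  refine h.subset fun p hp => ?_
  by_contra hc
  apply hp
  have h2 : padicValRat p.1 (n : ℚ) = 0 := by
    rw [padicValRat.of_nat, padicValNat.eq_zero_of_not_dvd hc]
    rfl
  show ((padicValRat p.1 (n : ℚ) : ℤ) : ZMod 2) * g p = 0
  rw [h2, Int.cast_zero, zero_mul]

theorem r2_sum_jac (a : ℤ) (n : ℕ) : Odd n → IsCoprime a (n : ℤ) →
    ∑ᶠ p : r2_P, ((padicValRat p.1 (n : ℚ) : ℤ) : ZMod 2) * lg (jacobiSym a p.1) =
      lg (jacobiSym a n) := by
  induction n using Nat.recOnMul with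
  | zero => exact fun h => absurd h (by decide)
  | one =>
    intro _ _
    have h : ∀ p : r2_P, ((padicValRat p.1 ((1 : ℕ) : ℚ) : ℤ) : ZMod 2) *
        lg (jacobiSym a p.1) = 0 := by
      intro p
      rw [Nat.cast_one, padicValRat.one, Int.cast_zero, zero_mul]
    rw [finsum_congr h, finsum_zero, jacobiSym.one_right]
    rfl
  | prime q hq =>
    intro hodd _
    have hq2 : q ≠ 2 := by
      rintro rfl
      exact absurd hodd (by decide)
    have hF := Fact.mk hq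
    rw [finsum_eq_single _ (⟨q, hq, hq2⟩ : r2_P)]
    · rw [padicValRat.of_nat, padicValNat.self hq.one_lt]
      simp
    · intro p hp
      have hpq : ¬ p.1 ∣ q := by
        intro h
        rcases (Nat.dvd_prime hq).1 h with h | h
        · exact p.2.1.one_lt.ne' h
        · exact hp (Subtype.ext h)
      rw [padicValRat.of_nat, padicValNat.eq_zero_of_not_dvd hpq]
      simp
  | mul m n hm hn =>
    intro hodd hcop
    have ho := Nat.odd_mul.1 hodd
    rw [Nat.cast_mul] at hcop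
    have hc1 : IsCoprime a (m : ℤ) := hcop.of_mul_right_left
    have hc2 : IsCoprime a (n : ℤ) := hcop.of_mul_right_right
    have hm0 : m ≠ 0 := ho.1.pos.ne'
    have hn0 : n ≠ 0 := ho.2.pos.ne'
    have i1 : NeZero m := ⟨hm0⟩
    have i2 : NeZero n := ⟨hn0⟩
    rw [jacobiSym.mul_right, r2_lg_mul (r2_jac hc1) (r2_jac hc2), ← hm ho.1 hc1, ← hn ho.2 hc2,
      ← finsum_add_distrib (r2_supp m hm0 _) (r2_supp n hn0 _)]
    refine finsum_congr fun p => ?_
    have hF := Fact.mk p.2.1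
    rw [Nat.cast_mul, padicValRat.mul (by exact_mod_cast hm0) (by exact_mod_cast hn0),
      Int.cast_add, add_mul]

theorem r2_val_abs (p : ℕ) (C : ℤ) : padicValRat p (C : ℚ) = padicValRat p ((C.natAbs : ℕ) : ℚ) := by
  rw [padicValRat.of_int, padicValRat.of_nat]
  rfl

theorem r2_nd (q : ℤ) : (q : ℚ).num * ((q : ℚ).den : ℤ) = q := by
  rw [Rat.num_intCast, Rat.den_intCast]
  simp

section

variable (h1 : StTm) (h2 : StTmV)

include h1 h2

/-- the symbol with an integer prime to `C` -/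
theorem r2_tm {C q : ℤ} (hC : C ≠ 0) (hq : q ≠ 0) (p : r2_P) (h : ¬ (p.1 : ℤ) ∣ q) :
    tm p.1 C q = ((padicValRat p.1 ((C.natAbs : ℕ) : ℚ) : ℤ) : ZMod 2) *
      lg (jacobiSym q p.1) := by
  have hF := Fact.mk p.2.1
  have hC' : (C : ℚ) ≠ 0 := by exact_mod_cast hC
  have hq' : (q : ℚ) ≠ 0 := by exact_mod_cast hq
  have hv : padicValRat p.1 (q : ℚ) = 0 := by
    rw [padicValRat.of_int, padicValInt.eq_zero_of_not_dvd h]
    rfl
  rw [(h1 p.1 p.2.1 p.2.2).symm hC' hq', h2 p.1 p.2.1 p.2.2 q C hq' hC' hv, r2_nd, r2_val_abs]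


/-- the sum over the odd primes for an integer prime to `C` -/
theorem r2_sum {C q : ℤ} (hC : Odd C) (hq : q ≠ 0) (hc : IsCoprime q C)
    (hu : ∀ p : r2_P, ¬ (p.1 : ℤ) ∣ q) :
    h2s C q = tinf C q + lg (jacobiSym q C.natAbs) := by
  have hC0 : C ≠ 0 := by
    rintro rfl
    exact absurd hC (by decide)
  unfold h2s
  rw [← r2_sum_jac q C.natAbs (Int.natAbs_odd.2 hC) (r2_cop hc)]
  congr 1
  exact finsum_congr fun p => r2_tm h1 h2 hC0 hq p (hu p)

theorem r2_neg_one {C : ℤ} (hC : C % 8 = 1) : h2s C (-1 : ℤ) = 0 := by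
  have hodd : Odd C := Int.odd_iff.2 (by omega)
  rw [r2_sum h1 h2 hodd (by norm_num) isCoprime_one_left.neg_left
    (fun p h => p.2.1.one_lt.ne' (by
      have h' := Int.natAbs_dvd_natAbs.2 h
      simpa using h')),
    jacobiSym.at_neg_one (Int.natAbs_odd.2 hodd)]
  unfold tinf
  rcases lt_or_ge C 0 with h | h
  · have h3 : C.natAbs % 4 = 3 := by omega
    rw [ZMod.χ₄_nat_three_mod_four h3, if_pos ⟨by exact_mod_cast h, by norm_num⟩, r2_lg_neg]
    decide
  · have h3 : C.natAbs % 4 = 1 := by omega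
    rw [ZMod.χ₄_nat_one_mod_four h3, if_neg (fun h' => absurd h'.1 (not_lt.2 (by exact_mod_cast h))),
      r2_lg_one, add_zero]

theorem r2_at_two {C : ℤ} (hC : C % 8 = 1) : h2s C (2 : ℤ) = 0 := by
  have hodd : Odd C := Int.odd_iff.2 (by omega)
  have hcop : IsCoprime (2 : ℤ) C := by
    obtain ⟨m, hm⟩ := hodd
    exact ⟨-m, 1, by rw [hm]; ring⟩
  rw [r2_sum h1 h2 hodd (by norm_num) hcop
    (fun p h => by
      have h' : p.1 ∣ 2 := by exact_mod_cast h
      rcases (Nat.dvd_prime Nat.prime_two).1 h' with h3 | h3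
      · exact p.2.1.one_lt.ne' h3
      · exact p.2.2 h3),
    jacobiSym.at_two (Int.natAbs_odd.2 hodd), ZMod.χ₈_nat_eq_if_mod_eight, if_neg (by omega),
    if_pos (by omega), r2_lg_one, add_zero]
  exact r2_tinf_pos (by norm_num)

theorem r2_prime {q : ℕ} (hq : q.Prime) (hq2 : q ≠ 2) {C : ℤ} (hC : Odd C) (hd : ¬ (q : ℤ) ∣ C)
    (h4 : q % 4 = 1 ∨ C % 4 = 1) : h2s C (q : ℤ) = 0 := by
  classical
  have hC0 : C ≠ 0 := by
    rintro rfl
    exact absurd hC (by decide)
  have hF := Fact.mk hq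
  have hq0 : (q : ℤ) ≠ 0 := by exact_mod_cast hq.pos.ne'
  have hqo : Odd q := hq.odd_of_ne_two hq2
  have hCn : Odd C.natAbs := Int.natAbs_odd.2 hC
  have hcop : IsCoprime (q : ℤ) C :=
    (Nat.prime_iff_prime_int.1 hq).irreducible.coprime_iff_not_dvd.2 hd
  -- the terms
  have hterm : ∀ p : r2_P, tm p.1 C ((q : ℤ) : ℚ) =
      ((padicValRat p.1 ((C.natAbs : ℕ) : ℚ) : ℤ) : ZMod 2) * lg (jacobiSym q p.1) +
        if p = ⟨q, hq, hq2⟩ then lg (jacobiSym C q) else 0 := by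
    intro p
    by_cases hp : p = ⟨q, hq, hq2⟩
    · subst hp
      have hv : padicValRat q (C : ℚ) = 0 := by
        rw [padicValRat.of_int, padicValInt.eq_zero_of_not_dvd hd]
        rfl
      rw [if_pos rfl, ← r2_val_abs, hv, h2 q hq hq2 C _ (by exact_mod_cast hC0)
        (by exact_mod_cast hq0) hv, r2_nd, Int.cast_natCast, padicValRat.of_nat,
        padicValNat.self hq.one_lt]
      simp
    · rw [if_neg hp, add_zero]
      refine r2_tm h1 h2 hC0 hq0 p fun h => hp ?_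
      have h' : p.1 ∣ q := by exact_mod_cast h
      rcases (Nat.dvd_prime hq).1 h' with h5 | h5
      · exact absurd h5 p.2.1.one_lt.ne'
      · exact Subtype.ext h5
  have hCa : IsCoprime (q : ℤ) (C.natAbs : ℤ) := r2_cop hcop
  have hsum : ∑ᶠ p : r2_P, tm p.1 C ((q : ℤ) : ℚ) =
      lg (jacobiSym q C.natAbs) + lg (jacobiSym C q) := by
    rw [finsum_congr hterm, finsum_add_distrib (r2_supp C.natAbs (Int.natAbs_ne_zero.2 hC0) _)
      ((Set.finite_singleton (⟨q, hq, hq2⟩ : r2_P)).subset fun p hp => by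
        by_contra hc
        exact hp (if_neg hc)), r2_sum_jac q C.natAbs hCn hCa,
      finsum_eq_single _ (⟨q, hq, hq2⟩ : r2_P) fun p hp => if_neg hp, if_pos rfl]
  have hjac : jacobiSym C q = jacobiSym q C.natAbs := by
    rcases lt_or_ge C 0 with h | h
    · have e : C = -((C.natAbs : ℕ) : ℤ) := by omega
      have e1 : jacobiSym C q = ZMod.χ₄ q * jacobiSym ((C.natAbs : ℕ) : ℤ) q := by
        conv_lhs => rw [e]
        exact jacobiSym.neg _ hqo
      rw [e1]
      by_cases hq4 : q % 4 = 1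
      · rw [ZMod.χ₄_nat_one_mod_four hq4, one_mul,
          jacobiSym.quadratic_reciprocity_one_mod_four' hCn hq4]
      · have hq3 : q % 4 = 3 := by
          have := Nat.odd_iff.1 hqo
          omega
        have hC1 : C % 4 = 1 := h4.resolve_left hq4
        have hC3 : C.natAbs % 4 = 3 := by omega
        rw [ZMod.χ₄_nat_three_mod_four hq3,
          jacobiSym.quadratic_reciprocity_three_mod_four hC3 hq3]
        ring
    · have e : C = ((C.natAbs : ℕ) : ℤ) := by omega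
      have e1 : jacobiSym C q = jacobiSym ((C.natAbs : ℕ) : ℤ) q := by rw [← e]
      rw [e1]
      rcases h4 with h4 | h4
      · exact jacobiSym.quadratic_reciprocity_one_mod_four' hCn h4
      · exact jacobiSym.quadratic_reciprocity_one_mod_four (by omega) hqo
  unfold h2s
  rw [hsum, hjac, z2, add_zero]
  exact r2_tinf_pos (by exact_mod_cast hq.pos.le)

end

section

variable (h1 : StTm) (h2 : StTmV) (h3 : StTmF)

include h1 h2 h3

theorem r2_prime_all {q : ℕ} (hq : q.Prime) (hq2 : q ≠ 2) (n : ℕ) : ∀ C : ℤ, C.natAbs ≤ n →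
    C % 8 = 1 → h2s C (q : ℤ) = 0 := by
  have hq0 : (q : ℤ) ≠ 0 := by exact_mod_cast hq.pos.ne'
  have hqQ : ((q : ℤ) : ℚ) ≠ 0 := by exact_mod_cast hq.pos.ne'
  have hqo : q % 2 = 1 := Nat.odd_iff.1 (hq.odd_of_ne_two hq2)
  induction n with
  | zero =>
    intro C hC h8
    omega
  | succ n ih =>
    intro C hC h8
    by_cases hd : (q : ℤ) ∣ C
    · obtain ⟨C2, rfl⟩ := hd
      have hC20 : C2 ≠ 0 := by
        rintro rfl
        simp at h8
      by_cases hd2 : (q : ℤ) ∣ C2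
      · obtain ⟨C3, rfl⟩ := hd2
        have hC30 : C3 ≠ 0 := by
          rintro rfl
          simp at h8
        have e : (((q : ℤ) * ((q : ℤ) * C3) : ℤ) : ℚ) = ((q : ℤ) : ℚ) ^ 2 * (C3 : ℚ) := by
          push_cast
          ring
        rw [e, r2_mul_left h1 h3 (pow_ne_zero 2 hqQ) (by exact_mod_cast hC30) hqQ,
          r2_sq_left h1 h3 hqQ hqQ, zero_add]
        apply ih
        · have h5 : ((q : ℤ) * ((q : ℤ) * C3)).natAbs = q * (q * C3.natAbs) := by
            rw [Int.natAbs_mul, Int.natAbs_mul, Int.natAbs_natCast]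
          rw [h5] at hC
          have h6 : 0 < C3.natAbs := Int.natAbs_pos.2 hC30
          have h7 : 2 ≤ q := hq.two_le
          have h9 : 2 * (2 * C3.natAbs) ≤ q * (q * C3.natAbs) :=
            Nat.mul_le_mul h7 (Nat.mul_le_mul_right _ h7)
          omega
        · have h5 : ((q : ℤ) * q) % 8 = 1 := by
            have h6 : (q : ℤ) % 8 = 1 ∨ (q : ℤ) % 8 = 3 ∨ (q : ℤ) % 8 = 5 ∨ (q : ℤ) % 8 = 7 := by
              omega
            rcases h6 with h6 | h6 | h6 | h6 <;> rw [Int.mul_emod, h6] <;> norm_num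
          have h6 : ((q : ℤ) * ((q : ℤ) * C3)) % 8 = C3 % 8 := by
            rw [← mul_assoc, Int.mul_emod, h5, one_mul, Int.emod_emod]
          rw [← h6]
          exact h8
      · have e : (((q : ℤ) * C2 : ℤ) : ℚ) = ((q : ℤ) : ℚ) * (C2 : ℚ) := by
          push_cast
          ring
        have hC2Q : (C2 : ℚ) ≠ 0 := by exact_mod_cast hC20
        have e2 : ((-C2 : ℤ) : ℚ) = (-1) * (C2 : ℚ) := by
          push_cast
          ring
        rw [e, r2_mul_left h1 h3 hqQ hC2Q hqQ, r2_self h1 h3 hqQ,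
          ← r2_mul_left h1 h3 (by norm_num) hC2Q hqQ, ← e2]
        have hres : (q : ℤ) % 4 * (C2 % 4) % 4 = 1 := by
          rw [← Int.mul_emod]
          omega
        have hodd : C2 % 2 = 1 := by
          have h5 : ((q : ℤ) * C2) % 2 = 1 := by omega
          rcases Int.emod_two_eq_zero_or_one C2 with h6 | h6
          · rw [Int.mul_emod, h6, mul_zero] at h5
            norm_num at h5
          · exact h6
        refine r2_prime h1 h2 hq hq2 ?_ (fun h => hd2 (by simpa using h)) ?_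
        · exact Int.odd_iff.2 (by omega)
        · have h5 : (q : ℤ) % 4 = 1 ∨ (q : ℤ) % 4 = 3 := by omega
          rcases h5 with h5 | h5
          · left
            omega
          · right
            rw [h5] at hres
            omega
    · exact r2_prime h1 h2 hq hq2 (Int.odd_iff.2 (by omega)) hd (Or.inr (by omega))

theorem r2_nat {C : ℤ} (hC : C % 8 = 1) (n : ℕ) : n ≠ 0 → h2s C (n : ℚ) = 0 := by
  have hC0 : (C : ℚ) ≠ 0 := by
    have : C ≠ 0 := by omega
    exact_mod_cast this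
  induction n using Nat.recOnMul with
  | zero => exact fun h => absurd rfl h
  | one =>
    intro _
    have h := r2_sq_right h1 h3 (a := C) (b := 1) hC0 one_ne_zero
    rwa [one_pow] at h
  | prime q hq =>
    intro _
    by_cases hq2 : q = 2
    · subst hq2
      have h := r2_at_two h1 h2 hC
      exact_mod_cast h
    · have h := r2_prime_all h1 h2 h3 hq hq2 C.natAbs C le_rfl hC
      exact_mod_cast h
  | mul m n hm hn =>
    intro h
    have h' := mul_ne_zero_iff.1 h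
    rw [Nat.cast_mul, r2_mul_right h1 h3 hC0 (by exact_mod_cast h'.1) (by exact_mod_cast h'.2),
      hm h'.1, hn h'.2, add_zero]

theorem r2_int {C : ℤ} (hC : C % 8 = 1) {n : ℤ} (hn : n ≠ 0) : h2s C (n : ℚ) = 0 := by
  have hC0 : (C : ℚ) ≠ 0 := by
    have : C ≠ 0 := by omega
    exact_mod_cast this
  have hn0 : n.natAbs ≠ 0 := Int.natAbs_ne_zero.2 hn
  rcases Int.natAbs_eq n with h | h
  · have e : (n : ℚ) = ((n.natAbs : ℤ) : ℚ) := congrArg (fun z : ℤ => (z : ℚ)) h
    rw [Int.cast_natCast] at e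
    rw [e]
    exact r2_nat h1 h2 h3 hC _ hn0
  · have e : (n : ℚ) = ((-1 : ℤ) : ℚ) * (n.natAbs : ℚ) := by
      have h5 : (n : ℚ) = ((-(n.natAbs : ℤ) : ℤ) : ℚ) := congrArg (fun z : ℤ => (z : ℚ)) h
      rw [Int.cast_neg, Int.cast_natCast] at h5
      rw [Int.cast_neg, Int.cast_one, neg_one_mul]
      exact h5
    rw [e, r2_mul_right h1 h3 hC0 (by norm_num) (by exact_mod_cast hn0),
      r2_neg_one h1 h2 hC, r2_nat h1 h2 h3 hC _ hn0, add_zero]

theorem r2_cong {u b : ℚ} (hu : u ≠ 0) (hb : b ≠ 0)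
    (h : u = 1 ∨ (3 : ℤ) ≤ padicValRat 2 (u - 1)) : h2s u b = 0 := by
  have hF := Fact.mk Nat.prime_two
  rcases h with rfl | h
  · have h := r2_sq_left h1 h3 (a := 1) (b := b) one_ne_zero hb
    rwa [one_pow] at h
  -- the numerator and the denominator
  have hd0 : (u.den : ℚ) ≠ 0 := by exact_mod_cast u.den_nz
  have hdZ : (u.den : ℤ) ≠ 0 := by exact_mod_cast u.den_nz
  have hn0 : u.num ≠ 0 := Rat.num_ne_zero.2 hu
  have hnQ : (u.num : ℚ) ≠ 0 := by exact_mod_cast hn0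
  have hne : u - 1 ≠ 0 := by
    intro h0
    rw [h0, padicValRat.zero] at h
    norm_num at h
  have e2 : (u - 1) * (u.den : ℚ) = ((u.num - u.den : ℤ) : ℚ) := by
    rw [sub_mul, Rat.mul_den_eq_num, one_mul, Int.cast_sub, Int.cast_natCast]
  have hv : padicValRat 2 (((u.num - u.den : ℤ) : ℚ)) =
      padicValRat 2 (u - 1) + padicValRat 2 (u.den : ℚ) := by
    rw [← e2, padicValRat.mul hne hd0]
  have hden : 0 ≤ padicValRat 2 (u.den : ℚ) := by
    rw [padicValRat.of_nat]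
    exact Int.natCast_nonneg _
  have hge : 3 ≤ padicValInt 2 (u.num - u.den) := by
    rw [padicValRat.of_int] at hv
    omega
  have hdvd : (8 : ℤ) ∣ u.num - u.den := by
    have h5 : ((2 : ℕ) : ℤ) ^ 3 ∣ u.num - u.den := by
      rw [padicValInt_dvd_iff]
      exact Or.inr hge
    norm_num at h5
    exact h5
  -- the denominator is odd
  have hdo : (u.den : ℤ) % 2 = 1 := by
    by_contra hc
    have h5 : (2 : ℤ) ∣ u.den := by omega
    have h6 : (2 : ℤ) ∣ u.num := by omega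
    have h7 : Nat.Coprime u.num.natAbs u.den := u.reduced
    have h8 : 2 ∣ u.num.natAbs := by omega
    have h9 : 2 ∣ u.den := by omega
    have h10 := Nat.dvd_gcd h8 h9
    rw [Nat.Coprime] at h7
    rw [h7] at h10
    omega
  have hC : (u.num * (u.den : ℤ)) % 8 = 1 := by
    have h5 : u.num % 8 = (u.den : ℤ) % 8 := by omega
    rw [Int.mul_emod, h5]
    have h6 : (u.den : ℤ) % 8 = 1 ∨ (u.den : ℤ) % 8 = 3 ∨ (u.den : ℤ) % 8 = 5 ∨
        (u.den : ℤ) % 8 = 7 := by omega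
    rcases h6 with h6 | h6 | h6 | h6 <;> rw [h6] <;> norm_num
  have hCQ : ((u.num * (u.den : ℤ) : ℤ) : ℚ) ≠ 0 := by
    exact_mod_cast mul_ne_zero hn0 hdZ
  have e3 : u * (u.den : ℚ) ^ 2 = ((u.num * (u.den : ℤ) : ℤ) : ℚ) := by
    rw [pow_two, ← mul_assoc, Rat.mul_den_eq_num, Int.cast_mul, Int.cast_natCast]
  have h4 : h2s u b = h2s ((u.num * (u.den : ℤ) : ℤ) : ℚ) b := by
    rw [← e3, r2_mul_left h1 h3 hu (pow_ne_zero 2 hd0) hb, r2_sq_left h1 h3 hd0 hb, add_zero]
  have hbd : (b.den : ℚ) ≠ 0 := by exact_mod_cast b.den_nz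
  have hbZ : (b.den : ℤ) ≠ 0 := by exact_mod_cast b.den_nz
  have e4 : b * (b.den : ℚ) ^ 2 = ((b.num * (b.den : ℤ) : ℤ) : ℚ) := by
    rw [pow_two, ← mul_assoc, Rat.mul_den_eq_num, Int.cast_mul, Int.cast_natCast]
  have h5 : h2s ((u.num * (u.den : ℤ) : ℤ) : ℚ) b =
      h2s ((u.num * (u.den : ℤ) : ℤ) : ℚ) ((b.num * (b.den : ℤ) : ℤ) : ℚ) := by
    rw [← e4, r2_mul_right h1 h3 hCQ hb (pow_ne_zero 2 hbd), r2_sq_right h1 h3 hCQ hbd, add_zero]
  rw [h4, h5]
  exact r2_int h1 h2 h3 hC (mul_ne_zero (Rat.num_ne_zero.2 hb) hbZ)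

end

/-- the symbol at two is a local symbol -/
theorem st_h2 (h1 : StTm) (h2 : StTmV) (h3 : StTmF) : StH2 where
  mul_left _ _ _ ha ha' hb := r2_mul_left h1 h3 ha ha' hb
  mul_right _ _ _ ha hb hb' := r2_mul_right h1 h3 ha hb hb'
  norm _ _ _ hb h := r2_norm h1 hb h
  cong _ _ hu hb h := r2_cong h1 h2 h3 hu hb (by exact_mod_cast h)

end Pool.Agent.H32.MA
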