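import Pool.Agent.H32.MA.RStm
import Pool.Agent.H98.MF.L.QuadX

/-!
# Project MA9 (MP_a9b340), row R9: primes of degree one and the characters `χ_P`
-/

set_option autoImplicit false
set_option linter.unusedSectionVars false

open scoped BigOperators
open NumberField IsDedekindDomain

namespace Pool.Agent.H32.MA

open Pool.Agent.H98.MF (ord)

variable {K : Type} [Field K] [NumberField K]

/-! ### congruences modulo `P` -/

/-- divisible by `P` -/
def r9M (P : HeightOneSpectrum (𝓞 K)) (x : K) : Prop := x = 0 ∨ 1 ≤ ord P x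

theorem r9_add {P : HeightOneSpectrum (𝓞 K)} {x y : K} (hx : r9M P x) (hy : r9M P y) :
    r9M P (x + y) := Pool.Agent.H98.MF.le_ord_add P 1 hx hy

theorem r9_neg {P : HeightOneSpectrum (𝓞 K)} {x : K} (hx : r9M P x) : r9M P (-x) := by
  rcases hx with hx | hx
  · left
    rw [hx, neg_zero]
  · right
    rwa [Pool.Agent.H98.MF.ord_neg]

theorem r9_sub {P : HeightOneSpectrum (𝓞 K)} {x y : K} (hx : r9M P x) (hy : r9M P y) :
    r9M P (x - y) := by
  rw [sub_eq_add_neg]
  exact r9_add hx (r9_neg hy)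

theorem r9_mul {P : HeightOneSpectrum (𝓞 K)} {x y : K} (hx : 0 ≤ ord P x) (hy : r9M P y) :
    r9M P (x * y) := by
  by_cases hx0 : x = 0
  · left
    rw [hx0, zero_mul]
  by_cases hy0 : y = 0
  · left
    rw [hy0, mul_zero]
  right
  rw [Pool.Agent.H98.MF.ord_mul P hx0 hy0]
  have := hy.resolve_left hy0
  omega

theorem r9_nn_mul {P : HeightOneSpectrum (𝓞 K)} {x y : K} (hx : 0 ≤ ord P x)
    (hy : 0 ≤ ord P y) : 0 ≤ ord P (x * y) := by
  by_cases hx0 : x = 0
  · rw [hx0, zero_mul, Pool.Agent.H98.MF.ord_zero]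
  by_cases hy0 : y = 0
  · rw [hy0, mul_zero, Pool.Agent.H98.MF.ord_zero]
  rw [Pool.Agent.H98.MF.ord_mul P hx0 hy0]
  omega

theorem r9_cm {P : HeightOneSpectrum (𝓞 K)} {x x' y y' : K} (hx' : 0 ≤ ord P x')
    (hy : 0 ≤ ord P y) (h : r9M P (x - y)) (h' : r9M P (x' - y')) :
    r9M P (x * x' - y * y') := by
  have e : x * x' - y * y' = x' * (x - y) + y * (x' - y') := by ring
  rw [e]
  exact r9_add (r9_mul hx' h) (r9_mul hy h')

theorem r9_int_nn (P : HeightOneSpectrum (𝓞 K)) (n : ℤ) : 0 ≤ ord P (n : K) := by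
  have h := Pool.Agent.H98.MF.ord_int_nonneg P ((n : ℤ) : 𝓞 K)
  have e : (((n : ℤ) : 𝓞 K) : K) = (n : K) := by
    simp
  rwa [e] at h

theorem r9_not {P : HeightOneSpectrum (𝓞 K)} {x : K} (hx : x ≠ 0) (h0 : ord P x = 0) :
    ¬ r9M P x := by
  rintro (h | h)
  · exact hx h
  · omega

/-! ### primes of degree one -/

theorem st_res (K : Type) [Field K] [NumberField K] : StRes K := by
  intro P hp
  have hmem : ((nP P : ℕ) : 𝓞 K) ∈ P.asIdeal := Ideal.absNorm_mem P.asIdeal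
  constructor
  · have h1 := (Pool.Agent.H98.MF.le_ord_iff P ((nP P : ℕ) : 𝓞 K) 1).2 (by rwa [pow_one])
    have h2 : ((nP P : ℕ) : 𝓞 K) ≠ 0 := by exact_mod_cast hp.ne_zero
    have h3 := h1.resolve_left h2
    have e : ((((nP P : ℕ) : ℕ) : 𝓞 K) : K) = ((nP P : ℕ) : K) := by simp
    rw [e] at h3
    exact_mod_cast h3
  · intro γ hγ
    have hmax := P.isMaximal
    obtain ⟨x, y, hy, hxy⟩ := (Pool.Agent.H98.MF.ord_nonneg_iff P γ).1 hγ
    obtain ⟨y', i, hi, hyi⟩ := hmax.exists_inv hy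
    -- an integer congruent to `x y'`
    have hcard : Nat.card (𝓞 K ⧸ P.asIdeal) = nP P := rfl
    have : Fact (nP P).Prime := ⟨hp⟩
    have hne : (1 : 𝓞 K ⧸ P.asIdeal) ≠ 0 := by
      have : Nontrivial (𝓞 K ⧸ P.asIdeal) := Ideal.Quotient.nontrivial_iff.2 P.isPrime.ne_top
      exact one_ne_zero
    have h1 := mem_zmultiples_of_prime_card (G := 𝓞 K ⧸ P.asIdeal) hcard hne
      (g' := Ideal.Quotient.mk P.asIdeal (x * y'))
    rw [AddSubgroup.mem_zmultiples_iff] at h1
    obtain ⟨r, hr⟩ := h1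
    refine ⟨r, ?_⟩
    have h2 : x * y' - (r : 𝓞 K) ∈ P.asIdeal := by
      rw [← Ideal.Quotient.eq, ← hr]
      simp
    have h3 : x - (r : 𝓞 K) * y ∈ P.asIdeal := by
      have e : x - (r : 𝓞 K) * y = (x * y' - r) * y + x * (1 - y' * y) := by ring
      rw [e]
      refine P.asIdeal.add_mem (P.asIdeal.mul_mem_right _ h2) (P.asIdeal.mul_mem_left _ ?_)
      have e2 : 1 - y' * y = i := by rw [← hyi]; ring
      rw [e2]
      exact hi
    have h4 := (Pool.Agent.H98.MF.le_ord_iff P (x - (r : 𝓞 K) * y) 1).2 (by rwa [pow_one])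
    have hy0 : (y : K) ≠ 0 := by
      intro h0
      have : y = 0 := by exact_mod_cast h0
      exact hy (this ▸ P.asIdeal.zero_mem)
    have e3 : ((x - (r : 𝓞 K) * y : 𝓞 K) : K) = (γ - (r : K)) * (y : K) := by
      push_cast
      rw [sub_mul, hxy]
      simp
    by_cases h5 : γ - (r : K) = 0
    · left
      exact sub_eq_zero.1 h5
    · right
      have h6 := Pool.Agent.H98.MF.ord_mul P h5 hy0
      rw [Pool.Agent.H98.MF.ord_unit P hy, add_zero, ← e3] at h6
      rw [← h6]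
      rcases h4 with h4 | h4
      · exfalso
        rw [h4] at e3
        have h7 : ((0 : 𝓞 K) : K) = 0 := rfl
        rw [h7] at e3
        exact mul_ne_zero h5 hy0 e3.symm
      · exact_mod_cast h4

/-! ### the characters -/

/-- the condition of the character -/
def r9E (P : HeightOneSpectrum (𝓞 K)) (u : K) : Prop :=
  ∃ c : K, u * c ^ 2 = 1 ∨ 1 ≤ ord P (u * c ^ 2 - 1)

theorem r9E_iff (P : HeightOneSpectrum (𝓞 K)) (u : K) : r9E P u ↔ ∃ c : K, r9M P (u * c ^ 2 - 1) := by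
  unfold r9E r9M
  simp only [sub_eq_zero]

theorem r9E_sq (P : HeightOneSpectrum (𝓞 K)) (u : K) {w : K} (hw : w ≠ 0) :
    r9E P (u * w ^ 2) ↔ r9E P u := by
  rw [r9E_iff, r9E_iff]
  constructor
  · rintro ⟨c, hc⟩
    refine ⟨w * c, ?_⟩
    have e : u * (w * c) ^ 2 = u * w ^ 2 * c ^ 2 := by ring
    rwa [e]
  · rintro ⟨c, hc⟩
    refine ⟨c / w, ?_⟩
    have e : u * w ^ 2 * (c / w) ^ 2 = u * c ^ 2 := by
      field_simp
    rwa [e]

/-- integers divisible by `P` -/
theorem r9_int (h2 : StOrdR K) {P : HeightOneSpectrum (𝓞 K)} (hp : (nP P).Prime)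
    (h1 : ord P ((nP P : ℕ) : K) = 1) (n : ℤ) : r9M P (n : K) ↔ ((nP P : ℕ) : ℤ) ∣ n := by
  constructor
  · intro h
    by_cases hn : n = 0
    · rw [hn]
      exact dvd_zero _
    have hnK : (n : K) ≠ 0 := by exact_mod_cast hn
    have h3 := h2 (nP P) hp P h1.ge (n : ℚ) (by exact_mod_cast hn)
    rw [h1, one_mul] at h3
    have h4 : ((n : ℚ) : K) = (n : K) := by simp
    rw [h4] at h3
    have h5 := h.resolve_left hnK
    rw [h3, padicValRat.of_int] at h5
    have h6 : padicValInt (nP P) n ≠ 0 := by omega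
    by_contra h7
    exact h6 (padicValInt.eq_zero_of_not_dvd h7)
  · rintro ⟨m, rfl⟩
    push_cast
    rw [mul_comm]
    exact r9_mul (r9_int_nn P m) (Or.inr h1.ge)

theorem r9_key (h1 : StRes K) (h2 : StOrdR K) {P : HeightOneSpectrum (𝓞 K)}
    (hp : (nP P).Prime) (hord : ord P ((nP P : ℕ) : K) = 1) {u : K} (hu : u ≠ 0)
    (hu0 : ord P u = 0) {r : ℤ} (hr : r9M P (u - r)) :
    r.gcd (nP P) = 1 ∧ (r9E P u ↔ jacobiSym r (nP P) = 1) := by
  have hcop : ∀ {s : K} {t : ℤ}, s ≠ 0 → ord P s = 0 → r9M P (s - t) →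
      ¬ ((nP P : ℕ) : ℤ) ∣ t := by
    intro s t hs hs0 hst ht
    have h3 := (r9_int h2 hp hord t).2 ht
    have h4 := r9_add hst h3
    rw [sub_add_cancel] at h4
    exact r9_not hs hs0 h4
  have hgcd : ∀ {t : ℤ}, ¬ ((nP P : ℕ) : ℤ) ∣ t → t.gcd (nP P) = 1 := by
    intro t ht
    have h3 := (Nat.Prime.coprime_iff_not_dvd hp (n := t.natAbs)).2 (by
      intro h
      exact ht (Int.natCast_dvd.2 h))
    rw [Int.gcd_comm]
    exact h3
  have hr1 := hcop hu hu0 hr
  refine ⟨hgcd hr1, ?_⟩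
  have : Fact (nP P).Prime := ⟨hp⟩
  rw [r9E_iff]
  constructor
  · rintro ⟨c, hc⟩
    have hc0 : c ≠ 0 := by
      rintro rfl
      apply r9_not (P := P) (x := (-1 : K)) (neg_ne_zero.2 one_ne_zero)
        (by rw [Pool.Agent.H98.MF.ord_neg, Pool.Agent.H98.MF.ord_one])
      simpa using hc
    have hc1 : ord P c = 0 := by
      have h3 : ord P (u * c ^ 2) = 0 := by
        have h4 : u * c ^ 2 = 1 + (u * c ^ 2 - 1) := by ring
        rw [h4]
        rw [(Pool.Agent.H98.MF.ord_add_eq P (a := 1) (b := u * c ^ 2 - 1) one_ne_zero (by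
          rcases hc with hc | hc
          · left; exact hc
          · right
            rw [Pool.Agent.H98.MF.ord_one]
            omega)).2, Pool.Agent.H98.MF.ord_one]
      rw [Pool.Agent.H98.MF.ord_mul P hu (pow_ne_zero 2 hc0), hu0,
        Pool.Agent.H98.MF.ord_pow] at h3
      push_cast at h3
      omega
    obtain ⟨s, hs⟩ := (h1 P hp).2 c hc1.ge
    have hs' : r9M P (c - s) := by
      rcases hs with hs | hs
      · left; rw [hs, sub_self]
      · right; exact hs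
    have hs1 := hcop hc0 hc1 hs'
    have h3 : r9M P (u * c ^ 2 - r * s ^ 2) := by
      rw [pow_two, pow_two]
      apply r9_cm (r9_nn_mul hc1.ge hc1.ge) (r9_int_nn P r) hr
      exact r9_cm hc1.ge (r9_int_nn P s) hs' hs'
    have h4 : r9M P (((r * s ^ 2 - 1 : ℤ)) : K) := by
      have h5 := r9_sub hc h3
      have e : u * c ^ 2 - 1 - (u * c ^ 2 - r * s ^ 2) = ((r * s ^ 2 - 1 : ℤ) : K) := by
        push_cast
        ring
      rwa [e] at h5
    rw [r9_int h2 hp hord] at h4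
    have h5 : jacobiSym (r * s ^ 2) (nP P) = 1 := by
      have h6 : (r * s ^ 2) % (nP P : ℤ) = 1 % (nP P : ℤ) :=
        ((Int.modEq_iff_dvd (n := (nP P : ℤ)) (a := 1) (b := r * s ^ 2)).2 h4).symm
      rw [jacobiSym.mod_left' h6, jacobiSym.one_left]
    rw [jacobiSym.mul_left, jacobiSym.sq_one' (hgcd hs1), mul_one] at h5
    exact h5
  · intro h
    rw [← jacobiSym.legendreSym.to_jacobiSym] at h
    have hr2 : ((r : ℤ) : ZMod (nP P)) ≠ 0 := by
      rw [Ne, ZMod.intCast_zmod_eq_zero_iff_dvd]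
      exact hr1
    rw [legendreSym.eq_one_iff _ hr2] at h
    obtain ⟨t, ht⟩ := h
    have ht0 : t ≠ 0 := by
      rintro rfl
      rw [mul_zero] at ht
      exact hr2 ht
    obtain ⟨s, hs⟩ := ZMod.intCast_surjective (t⁻¹)
    refine ⟨(s : K), ?_⟩
    have h3 : ((nP P : ℕ) : ℤ) ∣ r * s ^ 2 - 1 := by
      rw [← ZMod.intCast_zmod_eq_zero_iff_dvd]
      push_cast
      rw [ht, hs]
      field_simp
      ring
    have h4 := (r9_int h2 hp hord _).2 h3
    have h5 : r9M P (u * s ^ 2 - r * s ^ 2) := by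
      have e : u * (s : K) ^ 2 - r * s ^ 2 = (s : K) ^ 2 * (u - r) := by ring
      rw [e]
      apply r9_mul _ hr
      rw [pow_two]
      exact r9_nn_mul (r9_int_nn P s) (r9_int_nn P s)
    have h6 := r9_add h5 h4
    push_cast at h6
    have e : u * (s : K) ^ 2 - r * s ^ 2 + (r * s ^ 2 - 1) = u * s ^ 2 - 1 := by ring
    rwa [e] at h6

theorem r9_chP (P : HeightOneSpectrum (𝓞 K)) (a : K) [Decidable (r9E P (a * (nP P : K) ^ (-(ord P a))))] :
    chP P a = if r9E P (a * (nP P : K) ^ (-(ord P a))) then 1 else -1 := by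
  unfold chP r9E
  congr

theorem r9_chP_of {P : HeightOneSpectrum (𝓞 K)} {a : K} {j : ℤ} (hj : j = 1 ∨ j = -1)
    (h : r9E P (a * (nP P : K) ^ (-(ord P a))) ↔ j = 1) : chP P a = j := by
  classical
  rw [r9_chP]
  by_cases h0 : j = 1
  · rw [if_pos (h.2 h0), h0]
  · rw [if_neg (fun h1 => h0 (h.1 h1))]
    exact (hj.resolve_left h0).symm

theorem r9_ord_zpow (P : HeightOneSpectrum (𝓞 K)) (hp : (nP P).Prime)
    (hord : ord P ((nP P : ℕ) : K) = 1) {a : K} (ha : a ≠ 0) :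
    a * (nP P : K) ^ (-(ord P a)) ≠ 0 ∧ ord P (a * (nP P : K) ^ (-(ord P a))) = 0 := by
  have h0 : ((nP P : ℕ) : K) ≠ 0 := by exact_mod_cast hp.ne_zero
  have h1 : (nP P : K) ^ (-(ord P a)) ≠ 0 := zpow_ne_zero _ h0
  refine ⟨mul_ne_zero ha h1, ?_⟩
  rw [Pool.Agent.H98.MF.ord_mul P ha h1, Pool.Agent.H98.MF.B.ord_zpow P, hord]
  ring

theorem r9_value (h1 : StRes K) (h2 : StOrdR K) {P : HeightOneSpectrum (𝓞 K)}
    (hp : (nP P).Prime) (hord : ord P ((nP P : ℕ) : K) = 1) {a : K} (ha : a ≠ 0) :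
    ∃ r : ℤ, r9M P (a * (nP P : K) ^ (-(ord P a)) - r) ∧ r.gcd (nP P) = 1 ∧
      chP P a = jacobiSym r (nP P) := by
  obtain ⟨h3, h4⟩ := r9_ord_zpow P hp hord ha
  obtain ⟨r, hr⟩ := (h1 P hp).2 _ h4.ge
  have hr' : r9M P (a * (nP P : K) ^ (-(ord P a)) - r) := by
    rcases hr with hr | hr
    · left; rw [hr, sub_self]
    · right; exact hr
  obtain ⟨h5, h6⟩ := r9_key h1 h2 hp hord h3 h4 hr'
  exact ⟨r, hr', h5, r9_chP_of (jacobiSym.eq_one_or_neg_one h5) h6⟩

theorem r9_value' (h1 : StRes K) (h2 : StOrdR K) {P : HeightOneSpectrum (𝓞 K)}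
    (hp : (nP P).Prime) (hord : ord P ((nP P : ℕ) : K) = 1) {a : K} (ha : a ≠ 0) {r : ℤ}
    (hr : r9M P (a * (nP P : K) ^ (-(ord P a)) - r)) : chP P a = jacobiSym r (nP P) := by
  obtain ⟨h3, h4⟩ := r9_ord_zpow P hp hord ha
  obtain ⟨h5, h6⟩ := r9_key h1 h2 hp hord h3 h4 hr
  exact r9_chP_of (jacobiSym.eq_one_or_neg_one h5) h6

theorem st_chP (K : Type) [Field K] [NumberField K] (h1 : StRes K) (h2 : StOrdR K) : StChP K := by
  intro P hp hp2 hord
  have hp0 : ((nP P : ℕ) : K) ≠ 0 := by exact_mod_cast hp.ne_zero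
  refine ⟨?_, ?_, ?_, ?_⟩
  · intro a
    classical
    rw [r9_chP]
    split_ifs
    · left; rfl
    · right; rfl
  · intro a b ha hb
    obtain ⟨r, hr, hr1, hra⟩ := r9_value h1 h2 hp hord ha
    obtain ⟨s, hs, hs1, hsb⟩ := r9_value h1 h2 hp hord hb
    rw [hra, hsb, ← jacobiSym.mul_left]
    apply r9_value' h1 h2 hp hord (mul_ne_zero ha hb)
    have e : a * b * (nP P : K) ^ (-(ord P (a * b))) =
        (a * (nP P : K) ^ (-(ord P a))) * (b * (nP P : K) ^ (-(ord P b))) := by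
      rw [Pool.Agent.H98.MF.ord_mul P ha hb, neg_add, zpow_add₀ hp0]
      ring
    rw [e]
    push_cast
    exact r9_cm (r9_ord_zpow P hp hord hb).2.ge (r9_int_nn P r) hr hs
  · intro a b ha hb ha0 hab
    obtain ⟨r, hr, hr1, hra⟩ := r9_value h1 h2 hp hord ha
    rw [hra]
    symm
    apply r9_value' h1 h2 hp hord hb
    have hb0 : ord P b = 0 := by
      have e : b = a + -(a - b) := by ring
      rw [e, ← ha0]
      exact (Pool.Agent.H98.MF.ord_add_eq P ha (by
        right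
        rw [Pool.Agent.H98.MF.ord_neg]
        omega)).2
    rw [ha0, neg_zero, zpow_zero, mul_one] at hr
    rw [hb0, neg_zero, zpow_zero, mul_one]
    have e : b - (r : K) = (a - r) - (a - b) := by ring
    rw [e]
    exact r9_sub hr (Or.inr hab)
  · intro q hq hq0
    have hqK : (q : K) ≠ 0 := by exact_mod_cast hq
    have hden : ¬ ((nP P : ℕ) : ℤ) ∣ q.den := by
      intro h
      have h3 : nP P ∣ q.den := by exact_mod_cast h
      have h4 : ¬ nP P ∣ q.num.natAbs := by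
        intro h5
        have h6 := Nat.dvd_gcd h5 h3
        rw [q.reduced.gcd_eq_one] at h6
        exact hp.one_lt.ne' (Nat.dvd_one.1 h6)
      have : Fact (nP P).Prime := ⟨hp⟩
      have h5 : padicValRat (nP P) q = padicValInt (nP P) q.num - padicValNat (nP P) q.den := rfl
      rw [hq0, padicValInt, padicValNat.eq_zero_of_not_dvd h4] at h5
      have h6 := (one_le_padicValNat_of_dvd q.den_ne_zero h3)
      omega
    have hnum : ¬ ((nP P : ℕ) : ℤ) ∣ q.num := by
      intro h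
      have h3 : nP P ∣ q.num.natAbs := Int.natCast_dvd.1 h
      have h4 : ¬ nP P ∣ q.den := fun h5 => hden (by exact_mod_cast h5)
      have : Fact (nP P).Prime := ⟨hp⟩
      have h5 : padicValRat (nP P) q = padicValInt (nP P) q.num - padicValNat (nP P) q.den := rfl
      rw [hq0, padicValInt, padicValNat.eq_zero_of_not_dvd h4] at h5
      have h6 := (one_le_padicValNat_of_dvd (Int.natAbs_ne_zero.2 (Rat.num_ne_zero.2 hq)) h3)
      omega
    have hordq : ord P (q : K) = 0 := by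
      rw [h2 (nP P) hp P hord.ge q hq, hq0, mul_zero]
    have hd0 : ((q.den : ℕ) : K) ≠ 0 := by exact_mod_cast q.den_ne_zero
    have hnd : ((q.num * q.den : ℤ) : K) = (q : K) * (q.den : K) ^ 2 := by
      push_cast
      have : (q : K) = (q.num : K) / (q.den : K) := Rat.cast_def q
      rw [this]
      field_simp
    have hprod : ¬ ((nP P : ℕ) : ℤ) ∣ q.num * q.den := by
      intro h
      have hpi : Prime ((nP P : ℕ) : ℤ) := Nat.prime_iff_prime_int.1 hp
      rcases hpi.dvd_or_dvd h with h | h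
      · exact hnum h
      · exact hden h
    have hne : ((q.num * q.den : ℤ) : K) ≠ 0 := by
      rw [hnd]
      exact mul_ne_zero hqK (pow_ne_zero 2 hd0)
    have hord0 : ord P ((q.num * q.den : ℤ) : K) = 0 := by
      by_contra h
      have h3 := r9_int_nn P (q.num * q.den)
      exact hprod ((r9_int h2 hp hord _).1 (Or.inr (by omega)))
    obtain ⟨h5, h6⟩ := r9_key h1 h2 hp hord hne hord0 (r := q.num * q.den)
      (Or.inl (sub_self _))
    apply r9_chP_of (jacobiSym.eq_one_or_neg_one h5)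
    rw [hordq, neg_zero, zpow_zero, mul_one, ← h6, hnd, r9E_sq P _ hd0]

end Pool.Agent.H32.MA
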