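import Pool.Agent.H32.MA.RStm

/-!
# Project MA9 (MP_a9b340), block R, row R12: the obstruction at a split prime
-/

set_option autoImplicit false

open scoped BigOperators
open NumberField IsDedekindDomain

namespace Pool.Agent.H32.MA

open Pool.Agent.H98.MK (lg)
open Pool.Agent.H98.MF (ord)
open Pool.Agent.H98.MF.B (ord_mul ord_one ord_inv ord_div ord_pow ord_neg ord_zpow ord_finite
  ord_add ord_add_of_lt ord_of_sub_one)

section

variable {K : Type} [Field K] [NumberField K] (F : QF K)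

private theorem r12_vd {p : ℕ} (hp : ¬ p ∣ 2 * F.d) : padicValRat p (F.d : ℚ) = 0 := by
  rw [padicValRat.of_nat, padicValNat.eq_zero_of_not_dvd (fun h => hp (Dvd.dvd.mul_left h 2))]
  rfl

private theorem r12_v2 {p : ℕ} (hp : ¬ p ∣ 2 * F.d) : padicValRat p (2 : ℚ) = 0 := by
  have h : padicValRat p ((2 : ℕ) : ℚ) = 0 := by
    rw [padicValRat.of_nat, padicValNat.eq_zero_of_not_dvd (fun h => hp (Dvd.dvd.mul_right h _))]
    rfl
  exact_mod_cast h

/-- `d` is a square modulo a split prime -/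
private theorem r12_jac (h4 : StOrdR K) (h8 : StRes K) {P : HeightOneSpectrum (𝓞 K)}
    (hpr : (nP P).Prime) (hnd : ¬ nP P ∣ 2 * F.d) (h1 : ord P ((nP P : ℕ) : K) = 1) :
    jacobiSym (F.d : ℤ) (nP P) = 1 := by
  have hfact : Fact (nP P).Prime := ⟨hpr⟩
  have hd1 : ord P ((F.d : ℚ) : K) = 0 := by
    rw [h4 _ hpr P (by rw [h1]) _ F.d_ne, r12_vd F hnd, mul_zero]
  have hdl : ord P F.dl = 0 := by
    have h := ord_pow P F.dl 2
    rw [F.sq] at h
    push_cast at hd1 h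
    rw [hd1] at h
    omega
  obtain ⟨r, hr⟩ := (h8 P hpr).2 F.dl (by rw [hdl])
  have hr1 : F.dl - r ≠ 0 := by
    intro h
    apply F.dl_notin r
    push_cast
    exact (sub_eq_zero.1 h).symm
  have hr2 : 1 ≤ ord P (F.dl - r) := by
    rcases hr with h | h
    · exact absurd (sub_eq_zero.2 h) hr1
    · exact h
  have hr3 : F.dl + r ≠ 0 := by
    intro h
    apply F.dl_notin (-r)
    push_cast
    exact (eq_neg_of_add_eq_zero_left h).symm
  have hr4 : 0 ≤ ord P (F.dl + r) := by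
    by_cases hr0 : (r : K) = 0
    · rw [hr0, add_zero, hdl]
    · have h := ord_add P F.dl_ne hr0 hr3
      have h5 : 0 ≤ ord P (r : K) := by
        have := Pool.Agent.H98.MF.B.ord_alg_nonneg P (r : 𝓞 K)
        simpa using this
      rw [hdl, min_eq_left h5] at h
      exact h
  have hq0 : (F.d : ℚ) - (r : ℚ) ^ 2 ≠ 0 := by
    intro h
    exact F.not_sq r (sub_eq_zero.1 h).symm
  have hqe : (((F.d : ℚ) - (r : ℚ) ^ 2 : ℚ) : K) = (F.dl - r) * (F.dl + r) := by
    push_cast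
    linear_combination -F.sq
  have hv : 1 ≤ padicValRat (nP P) ((F.d : ℚ) - (r : ℚ) ^ 2) := by
    have h := h4 _ hpr P (by rw [h1]) _ hq0
    rw [h1, one_mul, hqe, ord_mul P hr1 hr3] at h
    omega
  have hz : (F.d : ℚ) - (r : ℚ) ^ 2 = (((F.d : ℤ) - r ^ 2 : ℤ) : ℚ) := by
    push_cast
    ring
  have hdvd : (nP P : ℤ) ∣ (F.d : ℤ) - r ^ 2 := by
    by_contra hc
    rw [hz, padicValRat.of_int, padicValInt.eq_zero_of_not_dvd hc] at hv
    norm_num at hv
  have hpd : ¬ (nP P : ℤ) ∣ (F.d : ℤ) := by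
    intro h
    apply hnd
    exact Dvd.dvd.mul_left (by exact_mod_cast h) 2
  have hpr' : ¬ (nP P : ℤ) ∣ r := by
    intro h
    apply hpd
    have h5 : (F.d : ℤ) = ((F.d : ℤ) - r ^ 2) + r * r := by ring
    rw [h5]
    exact dvd_add hdvd (Dvd.dvd.mul_right h r)
  have hgcd : r.gcd (nP P) = 1 := by
    rw [Int.gcd_comm]
    have h5 : IsCoprime (nP P : ℤ) r :=
      (Prime.coprime_iff_not_dvd (Nat.prime_iff_prime_int.1 hpr)).2 hpr'
    exact Int.isCoprime_iff_gcd_eq_one.1 h5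
  have hmod : (F.d : ℤ) % (nP P) = r ^ 2 % (nP P) := (Int.modEq_iff_dvd.2 hdvd).symm
  rw [jacobiSym.mod_left' hmod]
  exact jacobiSym.sq_one' hgcd

private theorem r12_main (h2 : StTmV) (h4 : StOrdR K) (h8 : StRes K) (h9 : StChP K)
    {P : HeightOneSpectrum (𝓞 K)} (hpr : (nP P).Prime) (hnd : ¬ nP P ∣ 2 * F.d)
    (hp2 : nP P ≠ 2) (h1 : ord P ((nP P : ℕ) : K) = 1) {b : K} (hb : b ≠ 0) (ho1 : ord P b = 1)
    (ho2 : ord P (F.cj b) = 0) : Th F (nP P) b = lg (chP P (F.cj b)) := by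
  have hfact : Fact (nP P).Prime := ⟨hpr⟩
  have hc : F.cj b ≠ 0 := F.cj_ne hb
  have hN : nmK b ≠ 0 := nm_ne hb
  have hvN : padicValRat (nP P) (nmK b) = 1 := by
    have h := h4 _ hpr P (by rw [h1]) _ hN
    rw [h1, one_mul, F.nm_eq, ord_mul P hb hc, ho1, ho2] at h
    omega
  have hadd := ord_add_of_lt P hc hb (by rw [ho1, ho2]; norm_num)
  rw [add_comm, ← F.tr_eq, ho2] at hadd
  have hT : trK b ≠ 0 := by
    intro h
    apply hadd.1
    rw [h]
    exact Rat.cast_zero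
  have hvT : padicValRat (nP P) (trK b) = 0 := by
    have h := h4 _ hpr P (by rw [h1]) _ hT
    rw [h1, one_mul, hadd.2] at h
    exact h.symm
  obtain ⟨-, -, hch3, hch4⟩ := h9 P hpr hp2 h1
  have hch5 : chP P ((trK b : ℚ) : K) = chP P (F.cj b) := by
    refine hch3 _ _ hadd.1 hc hadd.2 ?_
    rw [F.tr_eq, add_sub_cancel_right, ho1]
  have hd0 := F.d_ne
  have hvd := r12_vd F hnd
  have hv2 := r12_v2 F hnd
  have hv3 : padicValRat (nP P) (-(F.d * nmK b)) = 1 := by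
    rw [padicValRat.neg, padicValRat.mul hd0 hN, hvd, hvN]
    norm_num
  have hv4 : padicValRat (nP P) (2 * F.d * nmK b) = 1 := by
    rw [padicValRat.mul (mul_ne_zero two_ne_zero hd0) hN, padicValRat.mul two_ne_zero hd0,
      hvd, hvN, hv2]
    norm_num
  unfold Th
  rw [if_neg hT, h2 _ hpr hp2 _ _ hT (neg_ne_zero.2 (mul_ne_zero hd0 hN)) hvT, hv3,
    h2 _ hpr hp2 _ _ hd0 (mul_ne_zero (mul_ne_zero two_ne_zero hd0) hN) hvd, hv4,
    ← hch4 _ hT hvT, hch5]
  have hj : jacobiSym ((F.d : ℚ).num * (F.d : ℚ).den) (nP P) = 1 := by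
    rw [Rat.num_natCast, Rat.den_natCast, Nat.cast_one, mul_one]
    exact r12_jac F h4 h8 hpr hnd h1
  rw [hj]
  have hl : lg 1 = 0 := by
    unfold lg
    norm_num
  rw [hl, Int.cast_one, one_mul, one_mul, zero_add]

theorem st_spl (h1 : StTm) (h2 : StTmV) (h3 : StIp K) (h4 : StOrdR K)
    (h5 : StApx K) (h6 : StSq F) (h7 : StUnr F) (h8 : StRes K) (h9 : StChP K) : StSpl F := by
  have _ := h3
  intro P hpr hnd b hb hodd heven
  have hP1 := (h8 P hpr).1
  have hP : ord P ((nP P : ℕ) : K) = 1 := h7 _ hpr hnd P hP1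
  have hp2 : nP P ≠ 2 := by
    intro h
    apply hnd
    rw [h]
    exact Dvd.intro _ rfl
  classical
  let P' := Pool.Agent.H98.MF.cj F.cj P
  have hP' : ∀ x : K, ord P' x = ord P (F.cj x) := fun x => Pool.Agent.H98.MF.ord_cj F.cj P x
  have hne : P' ≠ P := by
    intro h
    have h10 := hP' b
    rw [h] at h10
    rw [h10] at hodd
    exact (Int.not_odd_iff_even.2 heven) hodd
  obtain ⟨k, hk⟩ := hodd
  obtain ⟨l, hl⟩ := heven
  obtain ⟨z, hz, hze⟩ := h5 _ hpr (fun R => if R = P then -k else -l)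
  have hz1 : ord P z = -k := by
    rw [hze P hP1, if_pos rfl]
  have hz2 : ord P (F.cj z) = -l := by
    rw [← hP', hze P' (by rw [hP', map_natCast]; exact hP1), if_neg hne]
  have hcz := F.cj_ne hz
  have hcb := F.cj_ne hb
  have hb' : b * z ^ 2 ≠ 0 := mul_ne_zero hb (pow_ne_zero 2 hz)
  have ho1 : ord P (b * z ^ 2) = 1 := by
    rw [ord_mul P hb (pow_ne_zero 2 hz), ord_pow, hz1, hk]
    push_cast
    ring
  have ho2 : ord P (F.cj (b * z ^ 2)) = 0 := by
    rw [map_mul, map_pow, ord_mul P hcb (pow_ne_zero 2 hcz), ord_pow, hz2, hl]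
    push_cast
    ring
  have hmain := r12_main F h2 h4 h8 h9 hpr hnd hp2 hP hb' ho1 ho2
  rw [Th_eq, h6 _ 1 _ (h1 _ hpr hp2) b z hb hz, ← Th_eq] at hmain
  rw [hmain]
  congr 1
  obtain ⟨hch1, hch2, -, -⟩ := h9 P hpr hp2 hP
  rw [map_mul, map_pow, pow_two, hch2 _ _ hcb (mul_ne_zero hcz hcz), hch2 _ _ hcz hcz]
  rcases hch1 (F.cj z) with h | h <;> rw [h] <;> ring

end

end Pool.Agent.H32.MA
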