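import Pool.Agent.H32.MA.RStm

/-!
# Project MA9 (MP_a9b340), block R, row R7: product formula and locality of the spin
-/

set_option autoImplicit false

open scoped BigOperators
open NumberField IsDedekindDomain

namespace Pool.Agent.H32.MA

open Pool.Agent.H98.MF (ord)

theorem LocS.mono {p c c' : ℕ} {s : ℚ → ℚ → ZMod 2} (hs : LocS p c s) (h : c ≤ c') :
    LocS p c' s where
  mul_left := hs.mul_left
  mul_right := hs.mul_right
  norm := hs.norm
  cong u b hu hb h1 := hs.cong u b hu hb (by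
    rcases h1 with h1 | h1
    · exact Or.inl h1
    · right
      have : (c : ℤ) ≤ c' := by exact_mod_cast h
      linarith)

/-- the index type of the odd primes -/
abbrev OP : Type := {p : ℕ // p.Prime ∧ p ≠ 2}

/-- signs -/
theorem r7_sg (t : ZMod 2) : t = 0 ∨ t = 1 := by
  revert t
  decide

/-- sign of a class -/
def r7s (t : ZMod 2) : ℤ := if t = 0 then 1 else -1

theorem r7s_add (a b : ZMod 2) : r7s (a + b) = r7s a * r7s b := by
  revert a b
  decide

theorem r7s_zero : r7s 0 = 1 := rfl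

/-- the product of signs -/
theorem r7_prod {ι : Type} (f : ι → ZMod 2) (h : {i | f i ≠ 0}.Finite) :
    ∏ᶠ i, r7s (f i) = r7s (∑ᶠ i, f i) := by
  classical
  have h1 : Function.support f ⊆ h.toFinset := by
    intro i hi
    simpa using hi
  have h2 : Function.mulSupport (fun i => r7s (f i)) ⊆ h.toFinset := by
    intro i hi
    have : r7s (f i) ≠ 1 := hi
    rw [Finset.mem_coe, Set.Finite.mem_toFinset]
    intro h0
    rw [h0] at this
    exact this rfl
  rw [finsum_eq_sum_of_support_subset _ h1, finprod_eq_prod_of_mulSupport_subset _ h2]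
  generalize h.toFinset = T
  induction T using Finset.induction_on with
  | empty => rfl
  | insert a T ha ih => rw [Finset.prod_insert ha, Finset.sum_insert ha, ih, r7s_add]

section

variable {K : Type} [Field K] [NumberField K]

/-- finitely many obstructions are nonzero -/
theorem r7_fin (F : QF K) (h1 : StTmF) (b : K) : {p : OP | Th F p b ≠ 0}.Finite := by
  refine Set.Finite.subset ((h1 F.d (2 * F.d * nmK b)).union
    (h1 (trK b) (-(F.d * nmK b)))) ?_
  intro p hp
  by_contra h
  rw [Set.mem_union, not_or] at h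
  have h2 : tm p F.d (2 * F.d * nmK b) = 0 := by
    by_contra h3
    exact h.1 h3
  have h3 : tm p (trK b) (-(F.d * nmK b)) = 0 := by
    by_contra h3
    exact h.2 h3
  apply hp
  unfold Th
  rw [h2, h3]
  simp

theorem st_pf (F : QF K) (h1 : StTmF) (h2 : StInf2 F) : StPF F := by
  intro b hb
  rw [← h2 b hb]
  have e : ∀ p : OP, Th F p b = tm p F.d (2 * F.d * nmK b) +
      (if trK b = 0 then 0 else tm p (trK b) (-(F.d * nmK b))) := fun p => rfl
  have hf2 : (Function.support fun p : OP =>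
      (if trK b = 0 then (0 : ZMod 2) else tm p (trK b) (-(F.d * nmK b)))).Finite := by
    refine Set.Finite.subset (h1 (trK b) (-(F.d * nmK b))) ?_
    intro p hp
    by_cases ht : trK b = 0
    · simp [ht] at hp
    · rw [Function.mem_support, if_neg ht] at hp
      exact hp
  rw [finsum_congr e, finsum_add_distrib (h1 F.d (2 * F.d * nmK b)) hf2]
  unfold ThS h2s
  by_cases ht : trK b = 0
  · simp only [ht, if_true, add_zero, finsum_zero]
  · simp only [ht, if_false]
    ring

theorem st_thL (F : QF K) (h1 : StTm) (h2 : StIpC K) (h3 : StSq F) (h4 : StCong F) : StThL F := by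
  intro m hm p hp hp2 hpm g
  refine MLoc.of_eq g (fun b => Th F p b) ?_ ?_
  · intro b z hb hz
    exact h3 p 1 (tm p) (h1 p hp hp2) b z hb hz
  · intro b l hb hl hc _
    have hv : 1 ≤ m.factorization p := (hp.dvd_iff_one_le_factorization hm).1 hpm
    exact h4 p (m.factorization p) (tm p) hp hv (fun h => absurd h hp2)
      ((h1 p hp hp2).mono hv) b l hb hl (h2 p hp m hm hpm l hc)

theorem st_thIL (h : StInf (K := K)) : StThIL (K := K) := by
  intro m g
  refine MLoc.of_eq g (fun b => ThI b) ?_ ?_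
  · exact h.1
  · intro b l hb hl _ hp
    exact h.2 b l hb hl hp

/-- the spin as a sign -/
theorem r7_spn (F : QF K) (h1 : StTmF) (m : ℕ) (hm : m ≠ 0) (b : K) :
    spn F m b = r7s ((∑ᶠ p : OP, Th F p b) +
      ∑ p ∈ m.primeFactors.filter (fun p => p ≠ 2), Th F p b) := by
  classical
  have hfin := r7_fin F h1 b
  have e1 : spn F m b = ∏ᶠ p : {p : ℕ // p.Prime ∧ p ≠ 2 ∧ ¬ p ∣ m}, r7s (Th F p b) := rfl
  let ι : {p : ℕ // p.Prime ∧ p ≠ 2 ∧ ¬ p ∣ m} → OP := fun p => ⟨p.1, p.2.1, p.2.2.1⟩
  have hι : Function.Injective ι := by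
    intro p q h
    have := congrArg (fun x : OP => x.1) h
    exact Subtype.ext this
  have hfin2 : {p : {p : ℕ // p.Prime ∧ p ≠ 2 ∧ ¬ p ∣ m} | Th F p b ≠ 0}.Finite :=
    Set.Finite.preimage hι.injOn hfin
  rw [e1, r7_prod _ hfin2]
  congr 1
  -- all odd primes, with the primes not dividing `m` removed
  have e2 : ∑ᶠ p : {p : ℕ // p.Prime ∧ p ≠ 2 ∧ ¬ p ∣ m}, Th F p b =
      ∑ᶠ (p : OP) (_ : p ∈ Set.range ι), Th F p b := by
    rw [finsum_mem_range hι]
  have e3 : (Set.univ : Set OP) = Set.range ι ∪ {p : OP | (p : ℕ) ∣ m} := by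
    ext p
    simp only [Set.mem_univ, true_iff, Set.mem_union]
    by_cases hp : (p : ℕ) ∣ m
    · exact Or.inr hp
    · exact Or.inl ⟨⟨p.1, p.2.1, p.2.2, hp⟩, rfl⟩
  have hdis : Disjoint (Set.range ι) {p : OP | (p : ℕ) ∣ m} := by
    rw [Set.disjoint_left]
    rintro _ ⟨p, rfl⟩ h
    exact p.2.2.2 h
  have e4 : ∑ᶠ p : OP, Th F p b = (∑ᶠ (p : OP) (_ : p ∈ Set.range ι), Th F p b) +
      ∑ᶠ (p : OP) (_ : p ∈ {p : OP | (p : ℕ) ∣ m}), Th F p b := by
    rw [← finsum_mem_univ, e3]
    exact finsum_mem_union' hdis (hfin.subset fun p hp => hp.2) (hfin.subset fun p hp => hp.2)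
  have e5 : ∑ᶠ (p : OP) (_ : p ∈ {p : OP | (p : ℕ) ∣ m}), Th F p b =
      ∑ p ∈ m.primeFactors.filter (fun p => p ≠ 2), Th F p b := by
    let T : Finset OP := (m.primeFactors.filter (fun p => p ≠ 2)).attach.map
      ⟨fun p => ⟨p.1, by
          have h := Finset.mem_filter.1 p.2
          exact ⟨Nat.prime_of_mem_primeFactors h.1, h.2⟩⟩, by
          intro p q h
          have := congrArg (fun x : OP => x.1) h
          exact Subtype.ext this⟩
    have hT : ({p : OP | (p : ℕ) ∣ m} : Set OP) = (T : Set OP) := by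
      ext p
      simp only [Set.mem_setOf_eq, Finset.mem_coe, T, Finset.mem_map, Finset.mem_attach, true_and,
        Function.Embedding.coeFn_mk, Subtype.exists]
      constructor
      · intro hp
        exact ⟨p.1, Finset.mem_filter.2 ⟨Nat.mem_primeFactors.2 ⟨p.2.1, hp, hm⟩, p.2.2⟩, rfl⟩
      · rintro ⟨q, hq, rfl⟩
        exact Nat.dvd_of_mem_primeFactors (Finset.mem_filter.1 hq).1
    rw [hT, finsum_mem_coe_finset, Finset.sum_map]
    exact Finset.sum_attach (m.primeFactors.filter (fun p => p ≠ 2)) (fun p => Th F p b)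
  rw [e2, e4, e5, add_assoc, z2, add_zero]

theorem st_spn (F : QF K) (h1 : StTm) (h2 : StTmF) (h3 : StH2) (h4 : StIpC K) (h5 : StSq F)
    (h6 : StCong F) (h7 : StInf (K := K)) (h8 : StPF F) : StSpn F := by
  intro m hm hdm
  have h8m : 8 ∣ m := (Dvd.intro _ rfl).trans hdm
  have h2m : 2 ∣ m := (by norm_num : 2 ∣ 8).trans h8m
  have hv : 3 ≤ m.factorization 2 := by
    have : 2 ^ 3 ∣ m := by simpa using h8m
    exact (Nat.prime_two.pow_dvd_iff_le_factorization hm).1 this
  have hthL := st_thL F h1 h4 h5 h6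
  -- the sum over all odd primes
  have key : ∀ b : K, b ≠ 0 → spn F m b = r7s (ThS F h2s b + ThI b +
      ∑ p ∈ m.primeFactors.filter (fun p => p ≠ 2), Th F p b) := by
    intro b hb
    rw [r7_spn F h2 m hm b, h8 b hb]
    congr 1
    have := z2 (ThI b)
    calc (∑ᶠ p : OP, Th F p b) + ∑ p ∈ m.primeFactors.filter (fun p => p ≠ 2), Th F p b
        = (ThI b + ThI b) + (∑ᶠ p : OP, Th F p b) +
          ∑ p ∈ m.primeFactors.filter (fun p => p ≠ 2), Th F p b := by rw [this, zero_add]
      _ = _ := by ring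
  constructor
  · intro b z hb hz
    have hbz : b * z ^ 2 ≠ 0 := mul_ne_zero hb (pow_ne_zero 2 hz)
    show (spn F m (b * z ^ 2) : ℝ) = (spn F m b : ℝ)
    rw [key _ hbz, key _ hb, h5 2 3 h2s h3 b z hb hz, h7.1 b z hb hz]
    congr 3
    refine Finset.sum_congr rfl fun p hp => ?_
    have hp1 := Nat.prime_of_mem_primeFactors (Finset.mem_filter.1 hp).1
    exact h5 p 1 (tm p) (h1 p hp1 (Finset.mem_filter.1 hp).2) b z hb hz
  · intro b l hb hl hc hpos
    have hlb : l * b ≠ 0 := mul_ne_zero hl hb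
    show (spn F m (l * b) : ℝ) = (spn F m b : ℝ)
    rw [key _ hlb, key _ hb, h7.2 b l hb hl hpos,
      h6 2 (m.factorization 2) h2s Nat.prime_two (le_trans (by norm_num) hv) (fun _ => hv)
        (h3.mono hv) b l hb hl (h4 2 Nat.prime_two m hm h2m l hc)]
    congr 3
    refine Finset.sum_congr rfl fun p hp => ?_
    have hp1 := Nat.prime_of_mem_primeFactors (Finset.mem_filter.1 hp).1
    have hpm := Nat.dvd_of_mem_primeFactors (Finset.mem_filter.1 hp).1
    have hv' : 1 ≤ m.factorization p := (hp1.dvd_iff_one_le_factorization hm).1 hpm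
    exact h6 p (m.factorization p) (tm p) hp1 hv' (fun h => absurd h (Finset.mem_filter.1 hp).2)
      ((h1 p hp1 (Finset.mem_filter.1 hp).2).mono hv') b l hb hl (h4 p hp1 m hm hpm l hc)

end

end Pool.Agent.H32.MA
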