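import Pool.Agent.H32.MA.RStm
import Pool.Agent.H98.MF.L.QuadX

/-!
# Project MA9 (MP_a9b340), row R10: primes not dividing `2 d` are unramified
-/

set_option autoImplicit false

open scoped BigOperators
open NumberField IsDedekindDomain

namespace Pool.Agent.H32.MA

open Pool.Agent.H98.MF (ord)

variable {K : Type} [Field K] [NumberField K]

theorem r10_two {p : ℕ} (hp : p.Prime) (h2 : p ≠ 2) : padicValRat p (2 : ℚ) = 0 := by
  have h : ((2 : ℕ) : ℚ) = 2 := by norm_num
  rw [← h, padicValRat.of_nat]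
  have h3 : padicValNat p 2 = 0 := by
    apply padicValNat.eq_zero_of_not_dvd
    intro h4
    exact h2 ((Nat.prime_dvd_prime_iff_eq hp Nat.prime_two).1 h4)
  rw [h3]
  rfl

theorem st_unr (F : QF K) (_h1 : StIp K) (h2 : StOrdR K) (h3 : StApx K) : StUnr F := by
  intro p hp hpd P hP
  have hp2 : p ≠ 2 := by
    rintro rfl
    exact hpd (Dvd.intro _ rfl)
  have hpd' : ¬ p ∣ F.d := fun h => hpd (h.mul_left 2)
  set P' := Pool.Agent.H98.MF.cj F.cj P with hP'
  have hcj : ∀ z : K, ord P' z = ord P (F.cj z) := Pool.Agent.H98.MF.ord_cj F.cj P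
  have hcp : F.cj (p : K) = p := map_natCast F.cj p
  classical
  obtain ⟨π, hπ0, hπ⟩ := h3 p hp (fun Q => if Q = P then 1 else 0)
  have hπP : ord P π = 1 := by
    rw [hπ P hP, if_pos rfl]
  have hcπ0 : F.cj π ≠ 0 := F.cj_ne hπ0
  have hP'p : 1 ≤ ord P' (p : K) := by
    rw [hcj, hcp]
    exact hP
  have hnm : ord P ((nmK π : ℚ) : K) = 1 + ord P' π := by
    rw [F.nm_eq, Pool.Agent.H98.MF.ord_mul P hπ0 hcπ0, hπP, hcj]
  have hnm2 := h2 p hp P hP (nmK π) (nm_ne hπ0)
  rw [hnm] at hnm2
  by_cases hPP : P' = P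
  · rw [hPP, hπP] at hnm2
    by_contra hne
    have he : ord P (p : K) = 2 := by
      have h5 : ord P (p : K) ∣ 2 := ⟨_, by rw [← hnm2]; norm_num⟩
      have h6 := Int.le_of_dvd (by norm_num) h5
      omega
    obtain ⟨x, y, hxy⟩ := F.exists_xy π
    have hcjP : ord P (F.cj π) = 1 := by
      rw [← hcj, hPP, hπP]
    have h2P : ord P (2 : K) = 0 := by
      have h5 := h2 p hp P hP 2 (by norm_num)
      rw [r10_two hp hp2, mul_zero] at h5
      simpa using h5
    -- the exponent of `x`
    have hx : (x : K) = 0 ∨ 2 ≤ ord P (x : K) := by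
      by_cases hx0 : x = 0
      · left
        rw [hx0, Rat.cast_zero]
      · right
        have hxK : (x : K) ≠ 0 := by exact_mod_cast hx0
        have h5 : π + F.cj π = 2 * (x : K) := by
          rw [hxy, F.cj_xy]
          ring
        have h6 := Pool.Agent.H98.MF.le_ord_add P (a := π) (b := F.cj π) 1 (Or.inr hπP.ge)
          (Or.inr hcjP.ge)
        rw [h5] at h6
        have h7 : (2 : K) * (x : K) ≠ 0 := mul_ne_zero two_ne_zero hxK
        have h8 := h6.resolve_left h7
        rw [Pool.Agent.H98.MF.ord_mul P two_ne_zero hxK, h2P, zero_add] at h8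
        have h9 := h2 p hp P hP x hx0
        rw [he] at h9
        omega
    have hyd : (y : K) * F.dl = π + -(x : K) := by
      rw [hxy]
      ring
    have hord : (y : K) * F.dl ≠ 0 ∧ ord P ((y : K) * F.dl) = 1 := by
      rw [hyd, ← hπP]
      apply Pool.Agent.H98.MF.ord_add_eq P hπ0
      rcases hx with hx | hx
      · left
        rw [hx, neg_zero]
      · right
        rw [Pool.Agent.H98.MF.ord_neg, hπP]
        omega
    have hy0 : (y : K) ≠ 0 := left_ne_zero_of_mul hord.1
    have hdl : ord P F.dl = 0 := by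
      have h5 : ord P (F.dl ^ 2) = 0 := by
        rw [F.sq]
        have h6 := h2 p hp P hP F.d F.d_ne
        rw [padicValRat.of_nat, padicValNat.eq_zero_of_not_dvd hpd'] at h6
        simpa using h6
      rw [Pool.Agent.H98.MF.ord_pow] at h5
      push_cast at h5
      omega
    have hy1 := hord.2
    rw [Pool.Agent.H98.MF.ord_mul P hy0 F.dl_ne, hdl, add_zero,
      h2 p hp P hP y (by exact_mod_cast hy0), he] at hy1
    omega
  · have h5 : ord P' π = 0 := by
      rw [hπ P' hP'p, if_neg hPP]
    rw [h5, add_zero] at hnm2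
    have h6 : ord P (p : K) ∣ 1 := ⟨_, hnm2⟩
    have h7 := Int.le_of_dvd (by norm_num) h6
    omega

end Pool.Agent.H32.MA
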