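import Pool.Agent.H32.MA.RTm
import Pool.Agent.H32.MA.RRec
import Pool.Agent.H32.MA.RIp
import Pool.Agent.H32.MA.RIpC
import Pool.Agent.H32.MA.RNewt
import Pool.Agent.H32.MA.RLoc
import Pool.Agent.H32.MA.RInf
import Pool.Agent.H32.MA.RSpn
import Pool.Agent.H32.MA.RApx
import Pool.Agent.H32.MA.RRes
import Pool.Agent.H32.MA.RUnr
import Pool.Agent.H32.MA.REven
import Pool.Agent.H32.MA.RSpl
import Pool.Agent.H32.MA.RFin
import Pool.Agent.H32.MA.REx

/-!
# Project MA9 (MP_a9b340), block R: the statements of `RStm.lean` without hypotheses
-/

set_option autoImplicit false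

open scoped BigOperators
open NumberField IsDedekindDomain

namespace Pool.Agent.H32.MA.R

theorem h2 : StH2 := st_h2 st_tm st_tmV st_tmF

section

variable (K : Type) [Field K] [NumberField K]

theorem ip : StIp K := st_ip K

theorem ordR : StOrdR K := st_ordR K

theorem ovr : StOver K := st_over K

theorem ipC : StIpC K := st_ipC K (ip K) (ordR K)

theorem ipT : StIpT K := st_ipT K

theorem newt : StNewt K := st_newt K (ip K) (ordR K) (ovr K)

theorem apx : StApx K := st_apx K

theorem res : StRes K := st_res K

theorem chP : StChP K := st_chP K (res K) (ordR K)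

end

section

variable {K : Type} [Field K] [NumberField K] (F : QF K)

theorem sq : StSq F := st_sq F

theorem cong : StCong F := st_cong F (ip K) (ipT K) (newt K)

include F in
theorem inf : StInf (K := K) := st_inf F

theorem inf2 : StInf2 F := st_inf2 F

/-- the product formula for the spin -/
theorem pf : StPF F := st_pf F st_tmF (inf2 F)

/-- the spin is local -/
theorem spnL : StSpn F :=
  st_spn F st_tm st_tmF h2 (ipC K) (sq F) (cong F) (inf F) (pf F)

/-- the obstruction at a prime is local -/
theorem thL : StThL F := st_thL F st_tm (ipC K) (sq F) (cong F)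

include F in
/-- the obstruction at infinity is local -/
theorem thIL : StThIL (K := K) := st_thIL (inf F)

theorem unr : StUnr F := st_unr F (ip K) (ordR K) (apx K)

theorem even : StEven F := st_even F st_tm st_tmV (ip K) (ipT K) (apx K) (sq F)

theorem odd : StOdd F := st_odd F st_tm (apx K) (sq F) (unr F) (even F)

theorem spl : StSpl F :=
  st_spl F st_tm st_tmV (ip K) (ordR K) (apx K) (sq F) (unr F) (res K) (chP K)

/-- the spin as a product of characters -/
theorem chS : StChS F :=
  st_chS F st_tmF (ordR K) (res K) (even F) (spl F) (chP K) (unr F)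

/-- the example `d = 3` -/
theorem ex : StEx F := st_ex F

end

end Pool.Agent.H32.MA.R
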