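import Pool.Agent.H32.MA.AFin
import Pool.Agent.H32.MA.RFinal

/-!
# Project MA9 (MP_a9b340), row A35: decomposition of the set of homomorphisms (helper87)
-/

set_option autoImplicit false

open scoped BigOperators
open NumberField IsDedekindDomain

namespace Pool.Agent.H32.MA

open Pool.Agent.H98.MK (Om Gam dabs fld chi dd adm par lg par_hom par_lc z12)
open Pool.Agent.H98.MF (ord)
open Pool.Agent.H98.ML (hind norb tau IsTau)

section

variable {K : Type} [Field K] [NumberField K] (F : QF K) (j : K →+* Om)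

theorem a35_not {m : ℕ} {S : Finset (HeightOneSpectrum (𝓞 K))} (hS : Good m S)
    {P : HeightOneSpectrum (𝓞 K)} (hP : P ∈ S) : ¬ 1 ≤ ord P (m : K) := by
  obtain ⟨h1, h2⟩ := hS.1 P hP
  have h3 := (R.res K P h1).1
  have h4 : ord P (m : K) = 0 :=
    r3_ord_coprime P h3 ((Nat.Prime.coprime_iff_not_dvd h1).2 h2).symm
  rw [h4]
  norm_num

theorem a35_uniq {m : ℕ} {S S' : Finset (HeightOneSpectrum (𝓞 K))} {b : K} (hS : Good m S)
    (hS' : Good m S') (h : InB m S b) (h' : InB m S' b) : S = S' := by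
  classical
  have key : ∀ T T' : Finset (HeightOneSpectrum (𝓞 K)), Good m T → InB m T b → InB m T' b →
      T ⊆ T' := by
    intro T T' hT h1 h2 P hP
    have hn := a35_not hT hP
    have e1 := h1 P hn
    have e2 := h2 P hn
    rw [if_pos hP] at e1
    by_contra hP'
    rw [if_neg hP', e1] at e2
    exact one_ne_zero e2
  exact Finset.Subset.antisymm (key S S' hS h h') (key S' S hS' h' h)

theorem saDec (hG : SaGood F j) (hK : SaKum F j) (hI : SaFInj F j) (hSq : SaFSq F j)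
    (hInB : SaInB F) (hGL : SaGLF K) (hR : SaRp K) (hBB : StmBB) (hFin : SaFibF F j) :
    SaDec F j := by
  classical
  intro o lo x ho hod
  have _ := hInB
  have hm := a38_m_ne ho
  have h8 : 8 * F.d ∣ o.m := by
    rw [← hod]
    exact a38_dvd o
  set IS : Set (Finset (HeightOneSpectrum (𝓞 K))) :=
    {S | S ∈ GoodLe K o.m x ∧ lo < nS S} with hIS
  set fib : SqC K → Set (Gam →* SD) :=
    fun q => {ρ : Gam →* SD | ρ ∈ Hs ∧ Cl F j (rp q) ρ ∧ HasO o ρ} with hfib
  have hISf : IS.Finite := (hGL o.m x).subset fun S hS => hS.1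
  have hBf : ∀ S ∈ IS, (BB o.m S).Finite := fun S _ => (hBB K F o.m hm h8 S).1
  have hff : ∀ q, (fib q).Finite := fun q => hFin o (rp q) ho hod (hR.1 q)
  have hT : {ρ : Gam →* SD | ρ ∈ Hs ∧ HasO o ρ ∧ lo < pcl SD.clC ρ ∧
      (pcl SD.clC ρ : ℝ) ≤ x} = ⋃ q ∈ (⋃ S ∈ IS, BB o.m S), fib q := by
    ext ρ
    simp only [Set.mem_iUnion, exists_prop]
    constructor
    · rintro ⟨hρ, hO, hlo, hx⟩
      have hpd : ∀ σ, (ρ σ).pd = chi (F.d : ℚ) σ := by
        intro σ
        have h1 := hO.d σ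
        rw [hod] at h1
        unfold SD.pd
        by_cases h2 : chi (F.d : ℚ) σ = 1
        · rw [if_pos (h1.2 h2), h2]
        · rw [if_neg (fun h3 => h2 (h1.1 h3))]
          have h4 : ∀ y : ZMod 2, y ≠ 1 → 0 = y := by decide
          exact h4 _ h2
      obtain ⟨b, hb, hc⟩ := hK ρ hρ.2 hpd
      obtain ⟨q, z, hz, hq⟩ := hR.2.1 b hb
      have hc' : Cl F j (rp q) ρ := by
        rw [hq]
        exact ⟨hc.lc, hc.pd, hSq b z _ hb hz hc.pf⟩
      obtain ⟨S, hS, hSb, hSn⟩ := hG o (rp q) ρ ho hod (hR.1 q) hρ hc' hO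
      refine ⟨q, ⟨S, ⟨⟨hS, ?_⟩, ?_⟩, hSb⟩, hρ, hc', hO⟩
      · rw [hSn]
        exact hx
      · rw [hSn]
        exact hlo
    · rintro ⟨q, ⟨S, ⟨⟨hS, hSx⟩, hSl⟩, hq⟩, hρ, hc, hO⟩
      obtain ⟨S', hS', hSb', hSn'⟩ := hG o (rp q) ρ ho hod (hR.1 q) hρ hc hO
      have he : S = S' := a35_uniq hS hS' hq hSb'
      subst he
      refine ⟨hρ, hO, ?_, ?_⟩
      · rw [← hSn']
        exact hSl
      · rw [← hSn']
        exact hSx
  have hd1 : IS.PairwiseDisjoint fun S => BB o.m S := by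
    intro S hS S' hS' hne
    rw [Function.onFun, Set.disjoint_left]
    intro q h1 h2
    exact hne (a35_uniq hS.1.1 hS'.1.1 h1 h2)
  have hd2 : ∀ B : Set (SqC K), B.PairwiseDisjoint fib := by
    intro B q _ q' _ hne
    rw [Function.onFun, Set.disjoint_left]
    intro ρ h1 h2
    obtain ⟨z, hz, hq⟩ := hI (rp q) (rp q') _ (hR.1 q) (hR.1 q') h1.2.1.pf h2.2.1.pf
    exact hne (hR.2.2 q q' z hz hq)
  have hBf' : (⋃ S ∈ IS, BB o.m S).Finite := hISf.biUnion hBf
  rw [hT]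
  refine ⟨hBf'.biUnion fun q _ => hff q, ?_⟩
  rw [Set.Finite.ncard_biUnion hBf' (fun q _ => hff q) (hd2 _),
    finsum_mem_biUnion hd1 hISf hBf]

end

end Pool.Agent.H32.MA
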