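import Pool.Agent.H32.MA.Defs
import Pool.Agent.H98.ML.FDefs

/-!
# Project MA9 (MP_a9b340): definitions for the algebraic part

The semidihedral group of order 16, homomorphisms of the absolute Galois group, their
invariants, tame symbols.
-/

set_option autoImplicit false

open scoped BigOperators
open NumberField IsDedekindDomain

namespace Pool.Agent.H32.MA

open Pool.Agent.H98.MK (Om Gam dabs fld chi dd lg)
open Pool.Agent.H98.MF (ord)
open Pool.Agent.H98.ML (hind norb tau IsTau)

/-! ### the group -/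

/-- `1` or `3` -/
def pw (a : ZMod 2) : ZMod 8 := if a = 0 then 1 else 3

theorem pw_add (a a' : ZMod 2) : pw (a + a') = pw a * pw a' := by
  revert a a'; decide

theorem pw_sq (a : ZMod 2) : pw a * pw a = 1 := by
  revert a; decide

/-- the maps `x ↦ 3 ^ a x + b` of `ZMod 8`: the semidihedral group of order 16 -/
@[ext] structure SD where
  b : ZMod 8
  a : ZMod 2

namespace SD

instance : Mul SD := ⟨fun x y => ⟨x.b + pw x.a * y.b, x.a + y.a⟩⟩
instance : One SD := ⟨⟨0, 0⟩⟩
instance : Inv SD := ⟨fun x => ⟨-(pw x.a * x.b), x.a⟩⟩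

@[simp] theorem mul_b (x y : SD) : (x * y).b = x.b + pw x.a * y.b := rfl
@[simp] theorem mul_a (x y : SD) : (x * y).a = x.a + y.a := rfl
@[simp] theorem one_b : (1 : SD).b = 0 := rfl
@[simp] theorem one_a : (1 : SD).a = 0 := rfl
@[simp] theorem inv_b (x : SD) : (x⁻¹).b = -(pw x.a * x.b) := rfl
@[simp] theorem inv_a (x : SD) : (x⁻¹).a = x.a := rfl

instance : Group SD :=
  Group.ofLeftAxioms
    (fun x y z => by
      apply SD.ext
      · simp only [mul_b, mul_a, pw_add]; ring
      · simp only [mul_a]; ring)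
    (fun x => by
      apply SD.ext
      · simp only [mul_b, one_b, one_a]
        have : pw 0 = 1 := by decide
        rw [this]; ring
      · simp only [mul_a, one_a]; ring)
    (fun x => by
      apply SD.ext
      · simp only [mul_b, inv_b, inv_a, one_b]; ring
      · simp only [mul_a, inv_a, one_a]; exact CharTwo.add_self_eq_zero _)

/-- coordinates -/
def equivProd : SD ≃ ZMod 8 × ZMod 2 where
  toFun x := (x.b, x.a)
  invFun y := ⟨y.1, y.2⟩
  left_inv _ := rfl
  right_inv _ := rfl

instance : Fintype SD := Fintype.ofEquiv _ equivProd.symm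

instance : DecidableEq SD := equivProd.decidableEq

/-- the point stabiliser -/
def H0 : Subgroup SD where
  carrier := {x | x.b = 0}
  mul_mem' := by
    intro x y hx hy
    show x.b + pw x.a * y.b = 0
    rw [show x.b = 0 from hx, show y.b = 0 from hy]; ring
  one_mem' := rfl
  inv_mem' := by
    intro x hx
    show -(pw x.a * x.b) = 0
    rw [show x.b = 0 from hx]; ring

/-- the noncentral involutions `x ↦ 3 x + b`, `b` even -/
def clC (g : SD) : Prop := g.a = 1 ∧ (g.b = 0 ∨ g.b = 2 ∨ g.b = 4 ∨ g.b = 6)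

/-- the central involution -/
def clZ (g : SD) : Prop := g.a = 0 ∧ g.b = 4

/-- translations by `2` and `6` -/
def clT (g : SD) : Prop := g.a = 0 ∧ (g.b = 2 ∨ g.b = 6)

/-- the elements `x ↦ 3 x + b`, `b` odd -/
def clS (g : SD) : Prop := g.a = 1 ∧ (g.b = 1 ∨ g.b = 3 ∨ g.b = 5 ∨ g.b = 7)

/-- the elements of order 8 -/
def clR (g : SD) : Prop := g.a = 0 ∧ (g.b = 1 ∨ g.b = 3 ∨ g.b = 5 ∨ g.b = 7)

instance (g : SD) : Decidable (clC g) := by unfold clC; infer_instance
instance (g : SD) : Decidable (clZ g) := by unfold clZ; infer_instance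
instance (g : SD) : Decidable (clT g) := by unfold clT; infer_instance
instance (g : SD) : Decidable (clS g) := by unfold clS; infer_instance
instance (g : SD) : Decidable (clR g) := by unfold clR; infer_instance

end SD

/-! ### homomorphisms and their invariants -/

/-- continuous surjective homomorphisms -/
def Hs : Set (Gam →* SD) := {ρ | Function.Surjective ρ ∧ IsLocallyConstant ρ}

open Classical in
/-- the product of the odd primes with tame generator in a class -/
noncomputable def pcl (C : SD → Prop) (ρ : Gam →* SD) : ℕ :=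
  ∏ᶠ p : {p : ℕ // p.Prime ∧ p ≠ 2 ∧ C (ρ (tau p))}, (p : ℕ)

/-- the discriminant of the octic field -/
noncomputable def dsc (ρ : Gam →* SD) : ℕ := dabs (fld (SD.H0.comap ρ))

/-- the parameters of the outer sum -/
structure Out where
  d : ℕ
  d1 : ℕ
  t : ℕ
  w : ℕ
  c : ℕ

/-- the modulus -/
def Out.m (o : Out) : ℕ := 8 * o.d * o.t * o.w

/-- `ρ` has the outer parameters `o` -/
structure HasO (o : Out) (ρ : Gam →* SD) : Prop where
  d : ∀ σ, ((ρ σ).b = 1 ∨ (ρ σ).b = 3 ∨ (ρ σ).b = 5 ∨ (ρ σ).b = 7) ↔ chi (o.d : ℚ) σ = 1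
  d1 : pcl SD.clR ρ = o.d1
  t : pcl SD.clT ρ = o.t
  w : pcl SD.clZ ρ = o.w
  c : (dsc ρ).factorization 2 = o.c

/-- the number of homomorphisms with outer parameters `o` and `lo < N ≤ x` -/
noncomputable def AO (o : Out) (lo : ℕ) (x : ℝ) : ℕ :=
  {ρ : Gam →* SD | ρ ∈ Hs ∧ HasO o ρ ∧ lo < pcl SD.clC ρ ∧ (pcl SD.clC ρ : ℝ) ≤ x}.ncard

/-! ### tame symbols -/

/-- the tame symbol at an odd prime, in additive notation -/
noncomputable def tm (p : ℕ) (a b : ℚ) : ZMod 2 :=
  let va := padicValRat p a
  let vb := padicValRat p b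
  let u : ℚ := (-1) ^ (va * vb) * a ^ vb * b ^ (-va)
  lg (jacobiSym (u.num * u.den) p)

section

variable {K : Type} [Field K] [NumberField K]

/-- the trace -/
noncomputable def trK (b : K) : ℚ := Algebra.trace ℚ K b

/-- the norm -/
noncomputable def nmK (b : K) : ℚ := Algebra.norm ℚ b

open Classical in
/-- the obstruction at an odd prime -/
noncomputable def Th (F : QF K) (p : ℕ) (b : K) : ZMod 2 :=
  tm p F.d (2 * F.d * nmK b) + if trK b = 0 then 0 else tm p (trK b) (-(F.d * nmK b))

open Classical in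
/-- the obstruction at infinity -/
noncomputable def ThI (b : K) : ZMod 2 := if trK b < 0 ∧ 0 < nmK b then 1 else 0

open Classical in
/-- the product of the obstructions at the odd primes outside `m` -/
noncomputable def spn (F : QF K) (m : ℕ) (b : K) : ℤ :=
  ∏ᶠ p : {p : ℕ // p.Prime ∧ p ≠ 2 ∧ ¬ p ∣ m}, if Th F (p : ℕ) b = 0 then 1 else -1

end

end Pool.Agent.H32.MA
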