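import Pool.Agent.H32.MA.AStm
import Pool.Agent.H98.ML.LhTau

/-!
# Project MA9 (MP_a9b340), row A20: ramified primes and the discriminant
-/

set_option autoImplicit false

open scoped BigOperators
open NumberField IsDedekindDomain

namespace Pool.Agent.H32.MA

open Pool.Agent.H98.MK (Om Gam dabs fld dabs_pos)
open Pool.Agent.H98.ML (hind norb tau IsTau m3_ex m3_tau m3_norb m3_norb_lt)

theorem a20_card : Nat.card SD = 2 ^ 4 := by
  rw [Nat.card_congr SD.equivProd, Nat.card_prod, Nat.card_eq_fintype_card,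
    Nat.card_eq_fintype_card, ZMod.card, ZMod.card]
  norm_num

theorem a20_ker (ρ : Gam →* SD) : ∃ k, ρ.ker.index = 2 ^ k := by
  have h : ρ.ker.index ∣ 2 ^ 4 := by
    rw [Subgroup.index_ker]
    have h1 := Subgroup.card_subgroup_dvd_card ρ.range
    rwa [a20_card] at h1
  obtain ⟨k, -, hk⟩ := (Nat.dvd_prime_pow Nat.prime_two).1 h
  exact ⟨k, hk⟩

theorem a20_ker_open (ρ : Gam →* SD) (hρ : IsLocallyConstant ρ) :
    IsOpen (ρ.ker : Set Gam) := by
  have h := hρ.isOpen_fiber (1 : SD)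
  have h2 : (ρ.ker : Set Gam) = {x | ρ x = 1} := by
    ext x
    exact MonoidHom.mem_ker
  rw [h2]
  exact h

theorem a20_comap_open (ρ : Gam →* SD) (hρ : IsLocallyConstant ρ) (H : Subgroup SD) :
    IsOpen ((H.comap ρ : Subgroup Gam) : Set Gam) :=
  hρ (H : Set SD)

theorem saFinR : SaFinR := by
  intro ρ hρ
  refine Set.Finite.subset (dabs (fld ρ.ker)).primeFactors.finite_toSet ?_
  rintro p ⟨hp, hp2, h1⟩
  obtain ⟨φ, hφ⟩ := m3_tau m3_ex p hp hp2
  have h2 := hφ.disc ρ.ker (a20_ker_open ρ hρ) (a20_ker ρ) ρ.ker le_rfl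
  have h3 : norb ρ.ker (tau p) < ρ.ker.index := by
    apply m3_norb_lt
    · obtain ⟨k, hk⟩ := a20_ker ρ
      rw [hk]
      positivity
    · intro h
      exact h1 (MonoidHom.mem_ker.1 h)
  have h4 : (dabs (fld ρ.ker)).factorization p ≠ 0 := by omega
  rw [Finset.mem_coe, ← Nat.support_factorization, Finsupp.mem_support_iff]
  exact h4

theorem saDsc : SaDsc := by
  rintro ρ ⟨hs, hρ⟩
  refine ⟨(dabs_pos _ (a20_comap_open ρ hρ SD.H0)).ne', ?_⟩
  intro p hp hp2
  obtain ⟨φ, hφ⟩ := m3_tau m3_ex p hp hp2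
  have h1 := hφ.disc ρ.ker (a20_ker_open ρ hρ) (a20_ker ρ) (SD.H0.comap ρ) (by
    intro x hx
    rw [Subgroup.mem_comap, MonoidHom.mem_ker.1 hx]
    exact SD.H0.one_mem)
  rw [m3_norb ρ hs, Subgroup.index_comap_of_surjective SD.H0 hs] at h1
  unfold dsc hind
  omega

end Pool.Agent.H32.MA
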