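import Pool.Agent.H32.MA.AStm
import Pool.Agent.H32.MA.REx

/-!
# Project MA9 (MP_a9b340), block A, row A39: the example `d = 3`
-/

set_option autoImplicit false

open scoped BigOperators
open NumberField IsDedekindDomain

namespace Pool.Agent.H32.MA

open Pool.Agent.H98.MK (Om Gam dabs fld chi dd adm par lg par_hom par_lc z12)
open Pool.Agent.H98.MF (ord)

private theorem a39_neg {x : ℚ} (h : x < 0) : ¬ IsSquare x := by
  rintro ⟨r, hr⟩
  nlinarith [mul_self_nonneg r]

theorem stmEx (hQ : SaQF)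
    (hC : ∀ (K : Type) [Field K] [NumberField K] (F : QF K) (j : K →+* Om), SaCrit F j)
    (hE : ∀ (K : Type) [Field K] [NumberField K] (F : QF K) (j : K →+* Om), SaFEx F j)
    (hS : ∀ (K : Type) [Field K] [NumberField K] (F : QF K) (j : K →+* Om), SaSur2 F j) :
    StmEx := by
  have h3 : Squarefree (3 : ℕ) := Nat.prime_three.squarefree
  obtain ⟨K, iK, iN, F, j, hd⟩ := hQ 3 h3 (by norm_num)
  obtain ⟨hn, -, hI, hT, -, -⟩ := st_ex F hd
  set b : K := 2 + 2 * F.dl with hb
  have hb0 : b ≠ 0 := by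
    intro h0
    rw [h0] at hn
    have h1 : nmK (0 : K) = 0 := by
      have := nm_rat F 0
      simpa using this
    rw [h1] at hn
    norm_num at hn
  obtain ⟨f, hf⟩ := hE K F j b hb0
  obtain ⟨ρ, hρ, -⟩ := (hC K F j b f hb0 hf).mpr ⟨hT, hI⟩
  refine ⟨ρ, ?_, hρ.lc⟩
  refine (hS K F j b ρ hb0 hρ).mpr ⟨?_, ?_⟩
  · rw [hn]
    exact a39_neg (by norm_num)
  · rw [hn, hd]
    exact a39_neg (by norm_num)

end Pool.Agent.H32.MA
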