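import Pool.Agent.H32.MA.ADefs
import Pool.Agent.H98.MF.C.Val
import Pool.Agent.H98.MF.L.QuadX

/-!
# Project MA9 (MP_a9b340), block R: basic facts and definitions

Coordinates of a quadratic field, trace and norm, local symbols on the rationals, elements
that are integral above a rational prime, closure properties of `m`-local functions.
-/

set_option autoImplicit false

open scoped BigOperators
open NumberField IsDedekindDomain

namespace Pool.Agent.H32.MA

open Pool.Agent.H98.MK (lg)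
open Pool.Agent.H98.MF (ord)
open Pool.Agent.H98.MF.B (ord_mul ord_one ord_inv ord_div ord_pow ord_neg ord_zpow ord_finite
  ord_add ord_add_of_lt ord_of_sub_one)

/-! ### symbols on the rationals -/

/-- a local symbol: bimultiplicative, trivial on norms, trivial near one -/
structure LocS (p c : ℕ) (s : ℚ → ℚ → ZMod 2) : Prop where
  mul_left : ∀ a a' b : ℚ, a ≠ 0 → a' ≠ 0 → b ≠ 0 → s (a * a') b = s a b + s a' b
  mul_right : ∀ a b b' : ℚ, a ≠ 0 → b ≠ 0 → b' ≠ 0 → s a (b * b') = s a b + s a b'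
  norm : ∀ b x y : ℚ, b ≠ 0 → x ^ 2 - b * y ^ 2 ≠ 0 → s (x ^ 2 - b * y ^ 2) b = 0
  cong : ∀ u b : ℚ, u ≠ 0 → b ≠ 0 → (u = 1 ∨ (c : ℤ) ≤ padicValRat p (u - 1)) → s u b = 0

theorem z2 (x : ZMod 2) : x + x = 0 := CharTwo.add_self_eq_zero x

theorem z2' {x y : ZMod 2} (h : x + y = 0) : x = y := by
  have h1 := z2 y
  have : x = x + (y + y) := by rw [h1, add_zero]
  rw [this, ← add_assoc, h, zero_add]

namespace LocS

variable {p c : ℕ} {s : ℚ → ℚ → ZMod 2} (hs : LocS p c s)

include hs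

theorem sq_left {a b : ℚ} (ha : a ≠ 0) (hb : b ≠ 0) : s (a ^ 2) b = 0 := by
  rw [pow_two, hs.mul_left a a b ha ha hb, z2]

theorem sq_right {a b : ℚ} (ha : a ≠ 0) (hb : b ≠ 0) : s a (b ^ 2) = 0 := by
  rw [pow_two, hs.mul_right a b b ha hb hb, z2]

theorem neg_self {a : ℚ} (ha : a ≠ 0) : s (-a) a = 0 := by
  have h := hs.norm a 0 1 ha (by simpa using ha)
  simpa using h

theorem symm {a b : ℚ} (ha : a ≠ 0) (hb : b ≠ 0) : s a b = s b a := by
  have hab := mul_ne_zero ha hb
  have h1 := hs.neg_self hab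
  have h2 : s (-(a * b)) (a * b) = s (-a) a + s (-a) b + (s b a + s b b) := by
    rw [show -(a * b) = (-a) * b by ring, hs.mul_left _ _ _ (neg_ne_zero.2 ha) hb hab,
      hs.mul_right _ _ _ (neg_ne_zero.2 ha) ha hb, hs.mul_right _ _ _ hb ha hb]
  have h3 : s (-a) b = s (-1) b + s a b := by
    rw [show -a = (-1) * a by ring, hs.mul_left _ _ _ (by norm_num) ha hb]
  have h4 : s (-1) b + s b b = 0 := by
    rw [← hs.mul_left _ _ _ (by norm_num) hb hb, show (-1 : ℚ) * b = -b by ring]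
    exact hs.neg_self hb
  rw [h2, hs.neg_self ha, h3, zero_add] at h1
  have h5 : s (-1) b + s a b + (s b a + s b b) = (s (-1) b + s b b) + (s a b + s b a) := by ring
  rw [h5, h4, zero_add] at h1
  exact z2' h1

theorem cong_right {u b : ℚ} (hu : u ≠ 0) (hb : b ≠ 0)
    (h : u = 1 ∨ (c : ℤ) ≤ padicValRat p (u - 1)) : s b u = 0 := by
  rw [hs.symm hb hu]
  exact hs.cong u b hu hb h

end LocS

open Classical in
/-- the symbol at infinity -/
noncomputable def tinf (a b : ℚ) : ZMod 2 := if a < 0 ∧ b < 0 then 1 else 0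

/-- the symbol at two, defined through the product formula -/
noncomputable def h2s (a b : ℚ) : ZMod 2 :=
  tinf a b + ∑ᶠ p : {p : ℕ // p.Prime ∧ p ≠ 2}, tm p a b

/-! ### quadratic fields -/

section

variable {K : Type} [Field K] [NumberField K]

open Classical in
/-- the obstruction for a general symbol -/
noncomputable def ThS (F : QF K) (s : ℚ → ℚ → ZMod 2) (b : K) : ZMod 2 :=
  s F.d (2 * F.d * nmK b) + if trK b = 0 then 0 else s (trK b) (-(F.d * nmK b))

theorem Th_eq (F : QF K) (p : ℕ) (b : K) : Th F p b = ThS F (tm p) b := rfl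

namespace QF

variable (F : QF K)

theorem d_pos : 0 < F.d := lt_trans one_pos F.lt

theorem d_ne : (F.d : ℚ) ≠ 0 := by exact_mod_cast F.d_pos.ne'

theorem dK_ne : (F.d : K) ≠ 0 := by exact_mod_cast F.d_pos.ne'

theorem dl_ne : F.dl ≠ 0 := by
  intro h
  have h1 := F.sq
  rw [h] at h1
  exact F.dK_ne (by rw [← h1]; ring)

theorem not_sq (r : ℚ) : r ^ 2 ≠ (F.d : ℚ) := by
  intro h
  have h1 : IsSquare (F.d : ℚ) := ⟨r, by rw [← h]; ring⟩
  rw [Rat.isSquare_natCast_iff] at h1
  obtain ⟨t, ht⟩ := h1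
  have h2 := F.sqf
  rw [ht] at h2
  have h3 := h2 t (dvd_refl _)
  rw [Nat.isUnit_iff] at h3
  have h4 := F.lt
  rw [ht, h3] at h4
  exact lt_irrefl _ h4

theorem dl_notin (r : ℚ) : (r : K) ≠ F.dl := by
  intro h
  have h1 := F.sq
  rw [← h] at h1
  exact F.not_sq r (by exact_mod_cast h1)

theorem indep {x y : ℚ} (h : (x : K) + y * F.dl = 0) : x = 0 ∧ y = 0 := by
  have hy : y = 0 := by
    by_contra hy
    have hyK : (y : K) ≠ 0 := by exact_mod_cast hy
    apply F.dl_notin (-x / y)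
    push_cast
    rw [div_eq_iff hyK]
    linear_combination -h
  refine ⟨?_, hy⟩
  rw [hy] at h
  have h1 : (x : K) = 0 := by simpa using h
  exact_mod_cast h1

/-- the basis `1, δ` -/
noncomputable def basis : Module.Basis (Fin 2) ℚ K :=
  basisOfLinearIndependentOfCardEqFinrank (b := ![(1 : K), F.dl])
    (by
      rw [LinearIndependent.pair_iff]
      intro x y h
      rw [Algebra.smul_def, Algebra.smul_def, mul_one] at h
      exact F.indep (by simpa using h))
    (by rw [F.rank]; rfl)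

theorem exists_xy (b : K) : ∃ x y : ℚ, b = x + y * F.dl := by
  refine ⟨F.basis.repr b 0, F.basis.repr b 1, ?_⟩
  have h := F.basis.sum_repr b
  rw [Fin.sum_univ_two] at h
  have h0 : F.basis 0 = (1 : K) := by simp [basis]
  have h1 : F.basis 1 = F.dl := by simp [basis]
  rw [h0, h1, Algebra.smul_def, Algebra.smul_def, mul_one] at h
  simpa using h.symm

theorem cj_rat (x : ℚ) : F.cj (x : K) = x := by
  have := F.cj.commutes x
  simpa using this

theorem cj_xy (x y : ℚ) : F.cj ((x : K) + y * F.dl) = x - y * F.dl := by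
  rw [map_add, map_mul, F.cj_rat, F.cj_rat, F.cdl]
  ring

theorem cj_cj (b : K) : F.cj (F.cj b) = b := by
  obtain ⟨x, y, rfl⟩ := F.exists_xy b
  rw [F.cj_xy, sub_eq_add_neg, ← neg_mul]
  have := F.cj_xy x (-y)
  push_cast at this
  rw [this]
  ring

theorem cj_ne {b : K} (hb : b ≠ 0) : F.cj b ≠ 0 := by simpa using hb

theorem leftMul (x y : ℚ) : Algebra.leftMulMatrix F.basis ((x : K) + y * F.dl) =
    !![x, F.d * y; y, x] := by
  have h0 : F.basis 0 = (1 : K) := by simp [basis]
  have h1 : F.basis 1 = F.dl := by simp [basis]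
  have key : ∀ u v : ℚ, F.basis.repr ((u : K) + v * F.dl) = Finsupp.equivFunOnFinite.symm ![u, v] := by
    intro u v
    have h2 : ((u : K) + v * F.dl) = u • F.basis 0 + v • F.basis 1 := by
      rw [h0, h1, Algebra.smul_def, Algebra.smul_def, mul_one]
      simp
    rw [h2, map_add, map_smul, map_smul, Module.Basis.repr_self, Module.Basis.repr_self]
    ext i
    fin_cases i <;> simp
  have e0 : ((x : K) + y * F.dl) * F.basis 0 = (x : K) + y * F.dl := by
    rw [h0, mul_one]
  have e1 : ((x : K) + y * F.dl) * F.basis 1 = ((F.d * y : ℚ) : K) + (x : ℚ) * F.dl := by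
    rw [h1]
    push_cast
    linear_combination (y : K) * F.sq
  have r0 : ∀ i, F.basis.repr (((x : K) + y * F.dl) * F.basis 0) i = ![x, y] i := by
    intro i
    rw [e0, key]
    fin_cases i <;> simp
  have r1 : ∀ i, F.basis.repr (((x : K) + y * F.dl) * F.basis 1) i = ![F.d * y, x] i := by
    intro i
    rw [e1, key]
    fin_cases i <;> simp
  ext i j
  rw [Algebra.leftMulMatrix_eq_repr_mul]
  have hj : j = 0 ∨ j = 1 := by omega
  rcases hj with rfl | rfl
  · rw [r0 i]
    fin_cases i <;> simp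
  · rw [r1 i]
    fin_cases i <;> simp

theorem tr_xy (x y : ℚ) : trK ((x : K) + y * F.dl) = 2 * x := by
  unfold trK
  rw [Algebra.trace_eq_matrix_trace F.basis, F.leftMul, Matrix.trace_fin_two]
  simp
  ring

theorem nm_xy (x y : ℚ) : nmK ((x : K) + y * F.dl) = x ^ 2 - F.d * y ^ 2 := by
  unfold nmK
  rw [Algebra.norm_eq_matrix_det F.basis, F.leftMul, Matrix.det_fin_two]
  simp
  ring

theorem tr_eq (b : K) : ((trK b : ℚ) : K) = b + F.cj b := by
  obtain ⟨x, y, rfl⟩ := F.exists_xy b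
  rw [F.tr_xy, F.cj_xy]
  push_cast
  ring

theorem nm_eq (b : K) : ((nmK b : ℚ) : K) = b * F.cj b := by
  obtain ⟨x, y, rfl⟩ := F.exists_xy b
  rw [F.nm_xy, F.cj_xy]
  push_cast
  linear_combination (y : K) ^ 2 * F.sq

end QF

theorem nm_ne {b : K} (hb : b ≠ 0) : nmK b ≠ 0 := by
  unfold nmK
  rwa [Ne, Algebra.norm_eq_zero_iff]

theorem nm_mul (a b : K) : nmK (a * b) = nmK a * nmK b := by
  unfold nmK
  rw [map_mul]

theorem nm_rat (F : QF K) (x : ℚ) : nmK (x : K) = x ^ 2 := by
  have := F.nm_xy x 0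
  simpa using this

theorem tr_rat (F : QF K) (x : ℚ) : trK (x : K) = 2 * x := by
  have := F.tr_xy x 0
  simpa using this

theorem tr_add (a b : K) : trK (a + b) = trK a + trK b := by
  unfold trK
  rw [map_add]

theorem tr_rat_mul (x : ℚ) (b : K) : trK ((x : K) * b) = x * trK b := by
  unfold trK
  have : (x : K) * b = x • b := by rw [Algebra.smul_def]; simp
  rw [this, map_smul, smul_eq_mul]

/-- the identity behind the invariance of the obstructions under squares -/
theorem tr_norm (F : QF K) (b z : K) :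
    trK b * trK (b * z ^ 2) = trK (b * z) ^ 2 - (-(F.d * nmK b)) * (trK (z * F.dl) / F.d) ^ 2 := by
  obtain ⟨x, y, rfl⟩ := F.exists_xy b
  obtain ⟨u, v, rfl⟩ := F.exists_xy z
  have h1 : ((x : K) + y * F.dl) * ((u : K) + v * F.dl) =
      ((x * u + F.d * y * v : ℚ) : K) + ((x * v + y * u : ℚ) : K) * F.dl := by
    push_cast
    linear_combination (y * v : K) * F.sq
  have h2 : ((x : K) + y * F.dl) * ((u : K) + v * F.dl) ^ 2 =
      ((x * (u ^ 2 + F.d * v ^ 2) + F.d * y * (2 * u * v) : ℚ) : K) +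
      ((x * (2 * u * v) + y * (u ^ 2 + F.d * v ^ 2) : ℚ) : K) * F.dl := by
    push_cast
    linear_combination ((x : K) * v ^ 2 + y * 2 * u * v + y * v ^ 2 * F.dl) * F.sq
  have h3 : ((u : K) + v * F.dl) * F.dl = ((F.d * v : ℚ) : K) + ((u : ℚ) : K) * F.dl := by
    push_cast
    linear_combination (v : K) * F.sq
  rw [h1, h2, h3, F.tr_xy, F.tr_xy, F.tr_xy, F.tr_xy, F.nm_xy]
  have hd := F.d_ne
  field_simp
  ring

/-- elements of trace zero -/
theorem tr_zero (F : QF K) {b : K} (h : trK b = 0) : ∃ r : ℚ, -(F.d * nmK b) = r ^ 2 := by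
  obtain ⟨x, y, rfl⟩ := F.exists_xy b
  rw [F.tr_xy] at h
  have hx : x = 0 := by linarith
  refine ⟨F.d * y, ?_⟩
  rw [F.nm_xy, hx]
  ring

/-! ### elements integral above a rational prime -/

variable (K) in
/-- elements integral above `p` -/
def Ip (p : ℕ) : Subring K where
  carrier := {γ | ∃ s : ℕ, s.Coprime p ∧ IsIntegral ℤ ((s : K) * γ)}
  mul_mem' := by
    rintro a b ⟨s, hs, ha⟩ ⟨t, ht, hb⟩
    refine ⟨s * t, Nat.Coprime.mul_left hs ht, ?_⟩
    have := ha.mul hb
    push_cast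
    rwa [show (s : K) * t * (a * b) = s * a * (t * b) by ring]
  one_mem' := ⟨1, Nat.coprime_one_left p, by simpa using isIntegral_one⟩
  add_mem' := by
    rintro a b ⟨s, hs, ha⟩ ⟨t, ht, hb⟩
    refine ⟨s * t, Nat.Coprime.mul_left hs ht, ?_⟩
    have ht' : IsIntegral ℤ (t : K) := by
      exact_mod_cast isIntegral_algebraMap (R := ℤ) (A := K) (x := (t : ℤ))
    have hs' : IsIntegral ℤ (s : K) := by
      exact_mod_cast isIntegral_algebraMap (R := ℤ) (A := K) (x := (s : ℤ))
    have := (ht'.mul ha).add (hs'.mul hb)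
    push_cast
    rwa [show (s : K) * t * (a + b) = t * (s * a) + s * (t * b) by ring]
  zero_mem' := ⟨1, Nat.coprime_one_left p, by simpa using isIntegral_zero⟩
  neg_mem' := by
    rintro a ⟨s, hs, ha⟩
    refine ⟨s, hs, ?_⟩
    rw [show (s : K) * (-a) = -(s * a) by ring]
    exact ha.neg

/-! ### local functions -/

theorem MLoc.mul {m : ℕ} {f g : K → ℝ} (hf : MLoc m f) (hg : MLoc m g) :
    MLoc m (fun b => f b * g b) where
  sq b z hb hz := by simp only [hf.sq b z hb hz, hg.sq b z hb hz]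
  loc b l hb hl h1 h2 := by simp only [hf.loc b l hb hl h1 h2, hg.loc b l hb hl h1 h2]

theorem MLoc.add {m : ℕ} {f g : K → ℝ} (hf : MLoc m f) (hg : MLoc m g) :
    MLoc m (fun b => f b + g b) where
  sq b z hb hz := by simp only [hf.sq b z hb hz, hg.sq b z hb hz]
  loc b l hb hl h1 h2 := by simp only [hf.loc b l hb hl h1 h2, hg.loc b l hb hl h1 h2]

theorem MLoc.const (m : ℕ) (r : ℝ) : MLoc m (fun _ : K => r) where
  sq _ _ _ _ := rfl
  loc _ _ _ _ _ _ := rfl

theorem MLoc.prod {m : ℕ} {ι : Type} (s : Finset ι) (f : ι → K → ℝ)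
    (h : ∀ i ∈ s, MLoc m (f i)) : MLoc m (fun b => ∏ i ∈ s, f i b) where
  sq b z hb hz := Finset.prod_congr rfl fun i hi => (h i hi).sq b z hb hz
  loc b l hb hl h1 h2 := Finset.prod_congr rfl fun i hi => (h i hi).loc b l hb hl h1 h2

theorem MLoc.of_eq {m : ℕ} {X : Type} (g : X → ℝ) (f : K → X)
    (hsq : ∀ b z : K, b ≠ 0 → z ≠ 0 → f (b * z ^ 2) = f b)
    (hloc : ∀ b l : K, b ≠ 0 → l ≠ 0 → Cong m l → TotPos l → f (l * b) = f b) :
    MLoc m (fun b => g (f b)) where
  sq b z hb hz := by simp only [hsq b z hb hz]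
  loc b l hb hl h1 h2 := by simp only [hloc b l hb hl h1 h2]

end

end Pool.Agent.H32.MA
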