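import Pool.Agent.H32.MA.AStm
import Pool.Agent.H32.MA.RBase

/-!
# Project MA9 (MP_a9b340), block A, row A7: the functions attached to an element (helper28)

Existence of the functions `IsF`, their local constancy and the cocycle relation.
-/

set_option autoImplicit false

open scoped BigOperators
open NumberField IsDedekindDomain

namespace Pool.Agent.H32.MA

open Pool.Agent.H98.MK (Om Gam dabs fld chi dd adm par lg par_hom par_lc z12 sq_sq)
open Pool.Agent.H98.MF (ord)

/-! ### signs -/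

private theorem a7_cases (x : ZMod 2) : x = 0 ∨ x = 1 := by
  revert x; decide

private theorem a7_zero : sg 0 = 1 := by simp [sg]

private theorem a7_one : sg 1 = -1 := by simp [sg]

private theorem a7_add (x y : ZMod 2) : sg (x + y) = sg x * sg y := by
  have h2 : (1 : ZMod 2) + 1 = 0 := by decide
  rcases a7_cases x with rfl | rfl <;> rcases a7_cases y with rfl | rfl
  · simp [a7_zero]
  · simp [a7_zero]
  · simp [a7_zero]
  · rw [h2, a7_zero, a7_one]
    ring

private theorem a7_sq (x : ZMod 2) : sg x * sg x = 1 := by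
  rcases a7_cases x with rfl | rfl
  · rw [a7_zero]; ring
  · rw [a7_one]; ring

private theorem a7_ne (x : ZMod 2) : sg x ≠ 0 := by
  intro h
  have h1 := a7_sq x
  rw [h, zero_mul] at h1
  exact zero_ne_one h1

private theorem a7_inj {x y : ZMod 2} {c : Om} (hc : c ≠ 0) (h : sg x * c = sg y * c) :
    x = y := by
  have h1 := mul_right_cancel₀ hc h
  have h5 : (1 : Om) ≠ -1 := by
    intro h
    have h6 : (2 : Om) = 0 := by linear_combination h
    exact two_ne_zero h6
  rcases a7_cases x with rfl | rfl <;> rcases a7_cases y with rfl | rfl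
  · rfl
  · rw [a7_zero, a7_one] at h1
    exact absurd h1 h5
  · rw [a7_zero, a7_one] at h1
    exact absurd h1.symm h5
  · rfl

private theorem a7_map (σ : Gam) (x : ZMod 2) : σ (sg x) = sg x := by
  rcases a7_cases x with rfl | rfl
  · rw [a7_zero]; exact map_one σ
  · rw [a7_one, map_neg, map_one]

private theorem a7_sqne {d : ℚ} (hd : d ≠ 0) : H98.MK.sq d ≠ 0 := by
  intro h
  have h1 := sq_sq d
  rw [h] at h1
  apply hd
  have h2 : (d : Om) = ((0 : ℚ) : Om) := by
    rw [← h1]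
    norm_num
  exact_mod_cast h2

private theorem a7_chi (d : ℚ) (σ : Gam) : σ (H98.MK.sq d) = sg (chi d σ) * H98.MK.sq d := by
  have h4 : (1 : ZMod 2) ≠ 0 := by decide
  have h1 : σ (H98.MK.sq d) ^ 2 = H98.MK.sq d ^ 2 := by
    rw [← map_pow, sq_sq, map_ratCast]
  unfold chi sg
  by_cases h : σ (H98.MK.sq d) = H98.MK.sq d
  · rw [if_pos h, if_pos rfl, h, one_mul]
  · rw [if_neg h, if_neg h4]
    rcases sq_eq_sq_iff_eq_or_eq_neg.1 h1 with h2 | h2
    · exact absurd h2 h
    · rw [h2]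
      ring

private theorem a7_chi_mul {d : ℚ} (hd : d ≠ 0) (σ τ : Gam) :
    chi d (σ * τ) = chi d σ + chi d τ := by
  apply a7_inj (a7_sqne hd)
  rw [← a7_chi, AlgEquiv.mul_apply, a7_chi d τ, map_mul, a7_chi d σ, a7_add, a7_map]
  ring

/-- any square root of a rational number transforms with the same character -/
private theorem a7_root {d : ℚ} {s : Om} (hs : s ^ 2 = (d : Om)) (σ : Gam) :
    σ s = sg (chi d σ) * s := by
  have h1 : s ^ 2 = H98.MK.sq d ^ 2 := by rw [hs, sq_sq]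
  rcases sq_eq_sq_iff_eq_or_eq_neg.1 h1 with h2 | h2
  · rw [h2, a7_chi]
  · rw [h2, map_neg, a7_chi]
    ring

/-- functions depending on finitely many values are locally constant -/
private theorem a7_loc {β : Type} (s : Finset Om) (f : Gam → β)
    (hf : ∀ σ τ : Gam, (∀ x ∈ s, σ x = τ x) → f σ = f τ) : IsLocallyConstant f := by
  rw [IsLocallyConstant.iff_exists_open]
  intro σ
  have halg : Algebra.IsAlgebraic ℚ Om := AlgebraicClosure.isAlgebraic ℚ
  have hfin : FiniteDimensional ℚ (IntermediateField.adjoin ℚ (s : Set Om)) := by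
    apply IntermediateField.finiteDimensional_adjoin
    intro x _
    exact (Algebra.IsAlgebraic.isAlgebraic x).isIntegral
  have hopen := IntermediateField.fixingSubgroup_isOpen
    (IntermediateField.adjoin ℚ (s : Set Om))
  refine ⟨(fun τ : Gam => σ⁻¹ * τ) ⁻¹'
    ((IntermediateField.adjoin ℚ (s : Set Om)).fixingSubgroup : Set Gam),
    hopen.preimage (continuous_const.mul continuous_id), ?_, ?_⟩
  · show σ⁻¹ * σ ∈ (IntermediateField.adjoin ℚ (s : Set Om)).fixingSubgroup
    rw [inv_mul_cancel]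
    exact Subgroup.one_mem _
  · intro τ hτ
    apply hf
    intro x hx
    have h1 : (σ⁻¹ * τ) x = x := by
      have h2 := (IntermediateField.mem_fixingSubgroup_iff _ _).1 hτ x
      exact h2 (IntermediateField.subset_adjoin ℚ _ hx)
    have h3 : σ ((σ⁻¹ * τ) x) = τ x := by
      rw [← AlgEquiv.mul_apply, ← mul_assoc, mul_inv_cancel, one_mul]
    rw [← h3, h1]

/-! ### the norm -/

section

variable {K : Type} [Field K] [NumberField K]

private theorem a7_nm (F : QF K) (j : K →+* Om) (b : K) :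
    j b * j (F.cj b) = ((nmK b : ℚ) : Om) := by
  rw [← map_mul, ← F.nm_eq, map_ratCast]

/-- **Row A7.** Existence of the functions. -/
theorem saFEx (F : QF K) (j : K →+* Om) (hA : SaAct F j) : SaFEx F j := by
  classical
  intro b hb
  have hz4 : (1 : ZMod 2) ≠ 0 := by decide
  have hjb : j b ≠ 0 := by rwa [Ne, map_eq_zero]
  obtain ⟨θ, hθ⟩ := IsAlgClosed.exists_pow_nat_eq (j b) (n := 2) two_pos
  have hθ0 : θ ≠ 0 := by
    intro h
    apply hjb
    rw [← hθ, h]
    norm_num
  have hθ2 : (H98.MK.sq (nmK b) / θ) ^ 2 = j (F.cj b) := by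
    rw [div_pow, sq_sq, hθ, ← a7_nm F j b]
    field_simp
  refine ⟨fun σ => if chi (F.d : ℚ) σ = 0 then (if σ θ = θ then 0 else 1)
    else (if σ θ = H98.MK.sq (nmK b) / θ then 0 else 1), θ, H98.MK.sq (nmK b) / θ, hθ, hθ2,
    ?_, ?_⟩
  · intro σ hσ
    have h2 := (hA σ b).1 hσ
    have h3 : (σ θ) ^ 2 = θ ^ 2 := by rw [← map_pow, hθ, h2]
    show σ θ = sg (if chi (F.d : ℚ) σ = 0 then (if σ θ = θ then 0 else 1)
      else (if σ θ = H98.MK.sq (nmK b) / θ then 0 else 1)) * θ
    rw [if_pos hσ]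
    by_cases h4 : σ θ = θ
    · rw [if_pos h4, h4, a7_zero, one_mul]
    · rw [if_neg h4, a7_one]
      rcases sq_eq_sq_iff_eq_or_eq_neg.1 h3 with h5 | h5
      · exact absurd h5 h4
      · rw [h5]
        ring
  · intro σ hσ
    have h2 := (hA σ b).2 hσ
    have h3 : (σ θ) ^ 2 = (H98.MK.sq (nmK b) / θ) ^ 2 := by rw [← map_pow, hθ, h2, hθ2]
    show σ θ = sg (if chi (F.d : ℚ) σ = 0 then (if σ θ = θ then 0 else 1)
      else (if σ θ = H98.MK.sq (nmK b) / θ then 0 else 1)) * (H98.MK.sq (nmK b) / θ)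
    rw [if_neg (by rw [hσ]; exact hz4)]
    by_cases h4 : σ θ = H98.MK.sq (nmK b) / θ
    · rw [if_pos h4, h4, a7_zero, one_mul]
    · rw [if_neg h4, a7_one]
      rcases sq_eq_sq_iff_eq_or_eq_neg.1 h3 with h5 | h5
      · exact absurd h5 h4
      · rw [h5]
        ring

/-- **Row A7.** The functions are locally constant and satisfy the cocycle relation. -/
theorem saFCo (F : QF K) (j : K →+* Om) (hA : SaAct F j) : SaFCo F j := by
  classical
  have _ := hA
  intro b f hb hf
  obtain ⟨θ, θ', hθ, hθ', hf0, hf1⟩ := hf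
  have hjb : j b ≠ 0 := by rwa [Ne, map_eq_zero]
  have hjc : j (F.cj b) ≠ 0 := by
    rw [Ne, map_eq_zero]
    exact F.cj_ne hb
  have hθ0 : θ ≠ 0 := by
    intro h
    apply hjb
    rw [← hθ, h]
    norm_num
  have hθ'0 : θ' ≠ 0 := by
    intro h
    apply hjc
    rw [← hθ', h]
    norm_num
  have hs : (θ * θ') ^ 2 = ((nmK b : ℚ) : Om) := by
    rw [mul_pow, hθ, hθ', a7_nm]
  have hg0 : ∀ σ : Gam, chi (F.d : ℚ) σ = 0 →
      σ θ' = sg (chi (nmK b) σ) * sg (f σ) * θ' := by
    intro σ hσ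
    have h1 := a7_root hs σ
    rw [map_mul, hf0 σ hσ] at h1
    have h2 := a7_sq (f σ)
    apply mul_left_cancel₀ (mul_ne_zero (a7_ne (f σ)) hθ0)
    rw [h1]
    linear_combination -sg (chi (nmK b) σ) * θ * θ' * h2
  have hg1 : ∀ σ : Gam, chi (F.d : ℚ) σ = 1 →
      σ θ' = sg (chi (nmK b) σ) * sg (f σ) * θ := by
    intro σ hσ
    have h1 := a7_root hs σ
    rw [map_mul, hf1 σ hσ] at h1
    have h2 := a7_sq (f σ)
    apply mul_left_cancel₀ (mul_ne_zero (a7_ne (f σ)) hθ'0)
    rw [h1]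
    linear_combination -sg (chi (nmK b) σ) * θ * θ' * h2
  refine ⟨?_, ?_⟩
  · refine a7_loc {H98.MK.sq (F.d : ℚ), θ} f ?_
    intro σ τ h
    have h2 : σ (H98.MK.sq (F.d : ℚ)) = τ (H98.MK.sq (F.d : ℚ)) := h _ (by simp)
    have h3 : σ θ = τ θ := h θ (by simp)
    have h4 : chi (F.d : ℚ) σ = chi (F.d : ℚ) τ := by
      unfold chi
      rw [h2]
    rcases a7_cases (chi (F.d : ℚ) σ) with hσ | hσ
    · apply a7_inj hθ0
      rw [← hf0 σ hσ, ← hf0 τ (h4 ▸ hσ), h3]
    · apply a7_inj hθ'0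
      rw [← hf1 σ hσ, ← hf1 τ (h4 ▸ hσ), h3]
  · intro σ τ
    have hm := a7_chi_mul F.d_ne σ τ
    rcases a7_cases (chi (F.d : ℚ) σ) with hσ | hσ <;>
      rcases a7_cases (chi (F.d : ℚ) τ) with hτ | hτ
    · rw [hτ, mul_zero, add_zero]
      rw [hσ, hτ, add_zero] at hm
      apply a7_inj hθ0
      rw [← hf0 _ hm, AlgEquiv.mul_apply, hf0 τ hτ, map_mul, a7_map, hf0 σ hσ, a7_add]
      ring
    · rw [hτ, mul_one]
      rw [hσ, hτ, zero_add] at hm
      apply a7_inj hθ'0
      rw [← hf1 _ hm, AlgEquiv.mul_apply, hf1 τ hτ, map_mul, a7_map, hg0 σ hσ, a7_add,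
        a7_add]
      ring
    · rw [hτ, mul_zero, add_zero]
      rw [hσ, hτ, add_zero] at hm
      apply a7_inj hθ'0
      rw [← hf1 _ hm, AlgEquiv.mul_apply, hf0 τ hτ, map_mul, a7_map, hf1 σ hσ, a7_add]
      ring
    · rw [hτ, mul_one]
      rw [hσ, hτ] at hm
      have hm' : chi (F.d : ℚ) (σ * τ) = 0 := by
        rw [hm]
        decide
      apply a7_inj hθ0
      rw [← hf0 _ hm', AlgEquiv.mul_apply, hf1 τ hτ, map_mul, a7_map, hg1 σ hσ, a7_add,
        a7_add]
      ring

end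

end Pool.Agent.H32.MA
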