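import Pool.Agent.H32.MA.AStm

/-!
# Project MA9 (MP_a9b340), block A, row A8: uniqueness, squares, rational multiples
-/

set_option autoImplicit false

open scoped BigOperators
open NumberField IsDedekindDomain

namespace Pool.Agent.H32.MA

open Pool.Agent.H98.MK (Om Gam dabs fld chi dd adm par lg par_hom par_lc z12 sq_sq
  chi_eq_zero_iff' chi_eq_one_iff chi_isSquare)
open Pool.Agent.H98.MF (ord)
open Pool.Agent.H98.ML (hind norb tau IsTau)

private theorem a8_cases (x : ZMod 2) : x = 0 ∨ x = 1 := by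
  revert x; decide

private theorem a8_sg_zero : sg 0 = 1 := if_pos rfl

private theorem a8_sg_one : sg 1 = -1 := if_neg one_ne_zero

private theorem a8_sg_add (x y : ZMod 2) : sg (x + y) = sg x * sg y := by
  have h11 : (1 : ZMod 2) + 1 = 0 := by decide
  rcases a8_cases x with rfl | rfl <;> rcases a8_cases y with rfl | rfl
  · rw [zero_add, a8_sg_zero, one_mul]
  · rw [zero_add, a8_sg_zero, one_mul]
  · rw [add_zero, a8_sg_zero, mul_one]
  · rw [h11, a8_sg_zero, a8_sg_one]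
    ring

private theorem a8_sg_ne (x : ZMod 2) : sg x ≠ 0 := by
  rcases a8_cases x with rfl | rfl
  · rw [a8_sg_zero]
    exact one_ne_zero
  · rw [a8_sg_one]
    exact neg_ne_zero.mpr one_ne_zero

private theorem a8_sg_inj {x y : ZMod 2} (h : sg x = sg y) : x = y := by
  have hne : (1 : Om) ≠ -1 := by
    intro h
    have h2 : (2 : Om) = 0 := by linear_combination h
    exact two_ne_zero h2
  rcases a8_cases x with rfl | rfl <;> rcases a8_cases y with rfl | rfl
  · rfl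
  · rw [a8_sg_zero, a8_sg_one] at h
    exact absurd h hne
  · rw [a8_sg_zero, a8_sg_one] at h
    exact absurd h.symm hne
  · rfl

private theorem a8_sg_map (σ : Gam) (x : ZMod 2) : σ (sg x) = sg x := by
  rcases a8_cases x with rfl | rfl
  · rw [a8_sg_zero, map_one]
  · rw [a8_sg_one, map_neg, map_one]

private theorem a8_root {x y : Om} (h : x ^ 2 = y ^ 2) : ∃ e : ZMod 2, x = sg e * y := by
  rcases sq_eq_sq_iff_eq_or_eq_neg.mp h with h1 | h1
  · exact ⟨0, by rw [a8_sg_zero, one_mul, h1]⟩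
  · exact ⟨1, by rw [a8_sg_one, h1]; ring⟩

private theorem a8_chi (t : ℚ) (ht : t ≠ 0) (σ : Gam) : σ (H98.MK.sq t) = sg (chi t σ) * H98.MK.sq t := by
  rcases a8_cases (chi t σ) with h | h
  · rw [h, a8_sg_zero, one_mul]
    exact (chi_eq_zero_iff' t (H98.MK.sq t) (sq_sq t) σ).mp h
  · rw [h, a8_sg_one, neg_one_mul]
    exact (chi_eq_one_iff t ht (H98.MK.sq t) (sq_sq t) σ).mp h

section

variable {K : Type} [Field K] [NumberField K]

private theorem a8_ne (j : K →+* Om) {b : K} (hb : b ≠ 0) {θ : Om} (h : θ ^ 2 = j b) : θ ≠ 0 := by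
  rintro rfl
  rw [zero_pow two_ne_zero] at h
  exact hb ((map_eq_zero j).mp h.symm)

theorem saFTwo (F : QF K) (j : K →+* Om) (hA : SaAct F j) (hF : SaFix F j) : SaFTwo F j := by
  intro b f f' hb hf
  obtain ⟨θ, θ', h1, h2, h3, h4⟩ := hf
  constructor
  · rintro ⟨η, η', k1, k2, k3, k4⟩
    have hθ := a8_ne j hb h1
    have hθ' := a8_ne j (F.cj_ne hb) h2
    obtain ⟨e, he⟩ := a8_root (k1.trans h1.symm)
    obtain ⟨e', he'⟩ := a8_root (k2.trans h2.symm)
    have g0 : ∀ σ, chi (F.d : ℚ) σ = 0 → f' σ = f σ := by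
      intro σ hσ
      have l1 := k3 σ hσ
      rw [he, map_mul, a8_sg_map, h3 σ hσ] at l1
      have l2 : sg (f' σ) * (sg e * θ) = sg (f σ) * (sg e * θ) := by
        rw [← l1]
        ring
      exact a8_sg_inj (mul_right_cancel₀ (mul_ne_zero (a8_sg_ne e) hθ) l2)
    have g1 : ∀ σ, chi (F.d : ℚ) σ = 1 → f' σ = f σ + (e + e') := by
      intro σ hσ
      have l1 := k4 σ hσ
      rw [he, he', map_mul, a8_sg_map, h4 σ hσ] at l1
      have l2 : sg (f' σ + e') * θ' = sg (f σ + e) * θ' := by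
        rw [a8_sg_add, a8_sg_add, mul_assoc, ← l1]
        ring
      have l3 := a8_sg_inj (mul_right_cancel₀ hθ' l2)
      have l4 : e' + e' = 0 := z2 e'
      calc f' σ = f' σ + e' + e' := by rw [add_assoc, l4, add_zero]
        _ = f σ + (e + e') := by rw [l3, add_assoc]
    rcases a8_cases (e + e') with h | h
    · left
      funext σ
      rcases a8_cases (chi (F.d : ℚ) σ) with hσ | hσ
      · exact g0 σ hσ
      · rw [g1 σ hσ, h, add_zero]
    · right
      funext σ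
      rcases a8_cases (chi (F.d : ℚ) σ) with hσ | hσ
      · rw [g0 σ hσ, hσ, add_zero]
      · rw [g1 σ hσ, h, hσ]
  · rintro (rfl | rfl)
    · exact ⟨θ, θ', h1, h2, h3, h4⟩
    · refine ⟨θ, -θ', h1, by rw [neg_sq, h2], fun σ hσ => ?_, fun σ hσ => ?_⟩
      · simp only [hσ, add_zero]
        exact h3 σ hσ
      · simp only [hσ]
        rw [h4 σ hσ, a8_sg_add, a8_sg_one]
        ring

theorem saFSq (F : QF K) (j : K →+* Om) (hA : SaAct F j) : SaFSq F j := by
  intro b z f hb hz hf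
  obtain ⟨θ, θ', h1, h2, h3, h4⟩ := hf
  refine ⟨θ * j z, θ' * j (F.cj z), ?_, ?_, fun σ hσ => ?_, fun σ hσ => ?_⟩
  · rw [mul_pow, h1, map_mul, map_pow]
  · rw [mul_pow, h2, map_mul, map_mul, map_pow, map_pow]
  · rw [map_mul, h3 σ hσ, (hA σ z).1 hσ]
    ring
  · rw [map_mul, h4 σ hσ, (hA σ z).2 hσ]
    ring

theorem saFRat (F : QF K) (j : K →+* Om) (hA : SaAct F j) : SaFRat F j := by
  intro b t f hb ht hf
  obtain ⟨θ, θ', h1, h2, h3, h4⟩ := hf
  refine ⟨H98.MK.sq t * θ, H98.MK.sq t * θ', ?_, ?_, fun σ hσ => ?_, fun σ hσ => ?_⟩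
  · rw [mul_pow, sq_sq, h1, map_mul, map_ratCast]
  · rw [mul_pow, sq_sq, h2, map_mul, map_mul, F.cj_rat, map_ratCast]
  · rw [map_mul, a8_chi t ht, h3 σ hσ, a8_sg_add]
    ring
  · rw [map_mul, a8_chi t ht, h4 σ hσ, a8_sg_add]
    ring

theorem saFInj (F : QF K) (j : K →+* Om) (hA : SaAct F j) (hF : SaFix F j) : SaFInj F j := by
  intro b b' f hb hb' hf hf'
  obtain ⟨θ, θ', h1, h2, h3, h4⟩ := hf
  obtain ⟨η, η', k1, k2, k3, k4⟩ := hf'
  obtain ⟨c, hc⟩ := hF (θ * η) (fun σ hσ => by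
    rw [map_mul, h3 σ hσ, k3 σ hσ]
    have : sg (f σ) * sg (f σ) = 1 := by
      rw [← a8_sg_add, z2, a8_sg_zero]
    linear_combination (θ * η) * this)
  have h5 : b * b' = c ^ 2 := by
    apply j.injective
    rw [map_mul, map_pow, ← hc, mul_pow, h1, k1]
  have hc0 : c ≠ 0 := by
    rintro rfl
    rw [zero_pow two_ne_zero] at h5
    exact mul_ne_zero hb hb' h5
  refine ⟨c / b, div_ne_zero hc0 hb, ?_⟩
  rw [div_pow, ← h5]
  field_simp

end

end Pool.Agent.H32.MA
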