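import Pool.Agent.H32.MA.AStm

/-!
# Project MA9 (MP_a9b340), row A26: the number of homomorphisms attached to an element (helper87)
-/

set_option autoImplicit false

open scoped BigOperators
open NumberField IsDedekindDomain

namespace Pool.Agent.H32.MA

open Pool.Agent.H98.MK (Om Gam dabs fld chi dd adm par lg par_hom par_lc z12)
open Pool.Agent.H98.MF (ord)
open Pool.Agent.H98.ML (hind norb tau IsTau)

private theorem a26_zz (x : ZMod 2) : SD.zz x = SD.zz 1 ↔ x = 1 := by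
  revert x; decide

private theorem a26_pd1 : ∃ g : SD, g.pd = 1 := ⟨⟨1, 0⟩, by decide⟩

section

variable {K : Type} [Field K] [NumberField K] (F : QF K) (j : K →+* Om)

private theorem a26_muc (hM : SaMu F j) {b : K} {ρ ρ' : Gam →* SD} (hb : b ≠ 0) (hρ : ρ ∈ Hs)
    (hρ' : ρ' ∈ Hs) (h : Cl F j b ρ) (h' : Cl F j b ρ') (c : ℕ) : muc ρ' c = muc ρ c := by
  have h1 : Cl F j (1 * b * 1 ^ 2) ρ' := by
    rw [one_pow, mul_one, one_mul]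
    exact h'
  exact (hM b 1 1 ρ ρ' hb one_ne_zero one_ne_zero (fun P _ => Or.inl rfl) hρ hρ' h h1 c).symm

/-- the twists with the right parameters -/
private def a26U (Q : Finset ℕ) (w c : ℕ) (ρ : Gam →* SD) : Set (ℕ →₀ ZMod 2) :=
  {u : ℕ →₀ ZMod 2 | adm u ∧
    (u 1, u 2) ∈ {v : ZMod 2 × ZMod 2 | (dsc (tw ρ (z12 v.1 v.2))).factorization 2 = c} ∧
    ∀ p : ℕ, p.Prime → p ≠ 2 → p ∉ Q → (u p = 1 ↔ p ∣ w)}

private theorem a26_mem (hTw : SaTw F j) (hTT : SaTwT) (hTS : SaTwS) (hV : SaV2)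
    (hH : SaHasO F j) {o : Out} {b : K} {ρ : Gam →* SD} (ho : WfO o) (hod : o.d = F.d)
    (hb : b ≠ 0) (hρ : ρ ∈ Hs) (h : Cl F j b ρ)
    (hn : ∀ p : ℕ, p.Prime → p ≠ 2 → TyA F p b → ρ (tau p) = 1)
    (hO : ∀ p : ℕ, p.Prime → p ≠ 2 → OTy F o b p)
    (Q : Finset ℕ) (hQ : ∀ p, p ∈ Q ↔ p.Prime ∧ p ≠ 2 ∧ ¬ TyA F p b)
    (u : ℕ →₀ ZMod 2) (hu : adm u) :
    HasO o (tw ρ u) ↔ u ∈ a26U Q o.w o.c ρ := by
  rw [hH o b (tw ρ u) ho hod hb ((hTS ρ hρ).1 u) ((hTw b ρ hb h).1 u), hV ρ hρ u hu]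
  have key : ∀ p : ℕ, p.Prime → p ≠ 2 → TyA F p b →
      (tw ρ u (tau p) = SD.zz 1 ↔ u p = 1) := by
    intro p hp hp2 hA
    rw [hTT ρ u hu p hp hp2, hn p hp hp2 hA, one_mul, a26_zz]
  constructor
  · rintro ⟨_, h1, h2⟩
    refine ⟨hu, h2, fun p hp hp2 hpQ => ?_⟩
    have hA : TyA F p b := by
      by_contra hA
      exact hpQ ((hQ p).2 ⟨hp, hp2, hA⟩)
    rw [← key p hp hp2 hA]
    exact h1 p hp hp2 hA
  · rintro ⟨_, h2, h1⟩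
    refine ⟨hO, fun p hp hp2 hA => ?_, h2⟩
    rw [key p hp hp2 hA]
    exact h1 p hp hp2 (fun h3 => ((hQ p).1 h3).2.2 hA)

theorem saFib (hN : SaNor F j) (hTw : SaTw F j) (hE : SaTwEx F j) (hAdd : SaTwAdd)
    (hI : SaTwInj) (hTT : SaTwT) (hTS : SaTwS) (hV : SaV2) (hM : SaMu F j) (hH : SaHasO F j)
    (hC : SaCntU) (hTy : SaTyp F j) (hQ : SaQFin F) : SaFib F j := by
  classical
  intro o b ρ ho hod hb hρ h hO
  have _ := hTy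
  have _ := hAdd
  obtain ⟨u0, hu0, hn1⟩ := hN b ρ hb h
  set ρ1 : Gam →* SD := tw ρ u0 with hρ1
  have h1 : Cl F j b ρ1 := (hTw b ρ hb h).1 u0
  have hs1 : ρ1 ∈ Hs := (hTS ρ hρ).1 u0
  set ρ2 : Gam →* SD := cjs ρ1 with hρ2
  have h2 : Cl F j b ρ2 := (hTw b ρ1 hb h1).2
  have hs2 : ρ2 ∈ Hs := (hTS ρ1 hs1).2
  have hn2 : ∀ p : ℕ, p.Prime → p ≠ 2 → TyA F p b → ρ2 (tau p) = 1 := by
    intro p hp hp2 hA
    rw [hρ2, cjs_apply, hn1 p hp hp2 hA, mul_one, mul_inv_cancel]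
  set Q : Finset ℕ := (hQ b hb).toFinset with hQdef
  have hQm : ∀ p, p ∈ Q ↔ p.Prime ∧ p ≠ 2 ∧ ¬ TyA F p b := by
    intro p
    rw [hQdef, Set.Finite.mem_toFinset]
    exact Iff.rfl
  have hQc : {p : ℕ | p.Prime ∧ p ≠ 2 ∧ ¬ TyA F p b}.ncard = Q.card :=
    Set.ncard_eq_toFinset_card _ (hQ b hb)
  have hw : o.w ≠ 0 := by
    intro h0
    have h3 := ho.sqw
    rw [h0, mul_zero] at h3
    exact not_squarefree_zero h3
  have hc1 := hC Q o.w {v : ZMod 2 × ZMod 2 |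
    (dsc (tw ρ1 (z12 v.1 v.2))).factorization 2 = o.c} hw (fun p hp => ⟨((hQm p).1 hp).1,
      ((hQm p).1 hp).2.1⟩)
  have hc2 := hC Q o.w {v : ZMod 2 × ZMod 2 |
    (dsc (tw ρ2 (z12 v.1 v.2))).factorization 2 = o.c} hw (fun p hp => ⟨((hQm p).1 hp).1,
      ((hQm p).1 hp).2.1⟩)
  have hm1 : muc ρ1 o.c = muc ρ o.c := a26_muc F j hM hb hρ hs1 h h1 o.c
  have hm2 : muc ρ2 o.c = muc ρ o.c := a26_muc F j hM hb hρ hs2 h h2 o.c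
  have hX : {ρ' : Gam →* SD | ρ' ∈ Hs ∧ Cl F j b ρ' ∧ HasO o ρ'} =
      tw ρ1 '' a26U Q o.w o.c ρ1 ∪ tw ρ2 '' a26U Q o.w o.c ρ2 := by
    ext ρ'
    constructor
    · rintro ⟨_, hc', ho'⟩
      obtain ⟨u, hu, h3 | h3⟩ := hE b ρ1 ρ' hb h1 hc'
      · left
        refine ⟨u, ?_, h3.symm⟩
        rw [h3] at ho'
        exact (a26_mem F j hTw hTT hTS hV hH ho hod hb hs1 h1 hn1 hO Q hQm u hu).1 ho'
      · right
        refine ⟨u, ?_, h3.symm⟩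
        rw [h3] at ho'
        exact (a26_mem F j hTw hTT hTS hV hH ho hod hb hs2 h2 hn2 hO Q hQm u hu).1 ho'
    · rintro (⟨u, hu, rfl⟩ | ⟨u, hu, rfl⟩)
      · exact ⟨(hTS ρ1 hs1).1 u, (hTw b ρ1 hb h1).1 u,
          (a26_mem F j hTw hTT hTS hV hH ho hod hb hs1 h1 hn1 hO Q hQm u hu.1).2 hu⟩
      · exact ⟨(hTS ρ2 hs2).1 u, (hTw b ρ2 hb h2).1 u,
          (a26_mem F j hTw hTT hTS hV hH ho hod hb hs2 h2 hn2 hO Q hQm u hu.1).2 hu⟩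
  have hinj : ∀ ρ' : Gam →* SD, Set.InjOn (tw ρ') (a26U Q o.w o.c ρ') := by
    intro ρ' u hu u' hu' he
    exact hI ρ' u u' hu.1 hu'.1 he
  have hdis : Disjoint (tw ρ1 '' a26U Q o.w o.c ρ1) (tw ρ2 '' a26U Q o.w o.c ρ2) := by
    rw [Set.disjoint_left]
    rintro ρ' ⟨u, _, h3⟩ ⟨u', _, h4⟩
    obtain ⟨g, hg⟩ := a26_pd1
    obtain ⟨σ, hσ⟩ := hs1.1 g
    have h5 : (tw ρ1 u σ).pf = (tw ρ2 u' σ).pf := by rw [h3, h4]
    have e1 : (tw ρ1 u σ).pf = (ρ1 σ).pf := SD.mul_zz_pf _ _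
    have e2 : (tw ρ2 u' σ).pf = (ρ1 σ).pf + (ρ1 σ).pd :=
      (SD.mul_zz_pf _ _).trans (SD.ss_conj_pf _)
    rw [e1, e2, hσ, hg] at h5
    have h6 : ∀ x : ZMod 2, x ≠ x + 1 := by decide
    exact h6 _ h5
  have hf1 : (a26U Q o.w o.c ρ1).Finite := hc1.1
  have hf2 : (a26U Q o.w o.c ρ2).Finite := hc2.1
  rw [hX]
  refine ⟨?_, (hf1.image _).union (hf2.image _)⟩
  rw [Set.ncard_union_eq hdis (hf1.image _) (hf2.image _), (hinj ρ1).ncard_image,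
    (hinj ρ2).ncard_image, hQc]
  have e1 : (a26U Q o.w o.c ρ1).ncard = 2 ^ Q.card * muc ρ1 o.c := hc1.2
  have e2 : (a26U Q o.w o.c ρ2).ncard = 2 ^ Q.card * muc ρ2 o.c := hc2.2
  rw [e1, e2, hm1, hm2]
  ring

theorem saFibF (hF : SaFib F j) (hH : SaHasO F j) : SaFibF F j := by
  intro o b ho hod hb
  by_cases hne : ({ρ : Gam →* SD | ρ ∈ Hs ∧ Cl F j b ρ ∧ HasO o ρ}).Nonempty
  · obtain ⟨ρ, h1, h2, h3⟩ := hne
    exact (hF o b ρ ho hod hb h1 h2 ((hH o b ρ ho hod hb h1 h2).1 h3).1).2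
  · rw [Set.not_nonempty_iff_eq_empty.1 hne]
    exact Set.finite_empty

end

end Pool.Agent.H32.MA
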