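import Pool.Agent.H32.MA.AStm
import Pool.Agent.H32.MA.RFinal

/-!
# Project MA9 (MP_a9b340), row A29: the fibre with the local factor
-/

set_option autoImplicit false

open scoped BigOperators
open NumberField IsDedekindDomain

namespace Pool.Agent.H32.MA

open Pool.Agent.H98.MK (Om Gam dabs fld chi dd adm par lg par_hom par_lc z12)
open Pool.Agent.H98.MF (ord)
open Pool.Agent.H98.ML (hind norb tau IsTau)

section

variable {K : Type} [Field K] [NumberField K]

theorem a29_m_ne {o : Out} (hw : WfO o) : o.m ≠ 0 := by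
  have h1 : o.d ≠ 0 := by have := hw.ltd; omega
  have h2 : o.t ≠ 0 := by
    rintro h
    have := hw.sqt
    rw [h, mul_zero] at this
    exact not_squarefree_zero this
  have h3 : o.w ≠ 0 := by
    rintro h
    have := hw.sqw
    rw [h, mul_zero] at this
    exact not_squarefree_zero this
  unfold Out.m
  positivity

theorem a29_dvd_m_of_d {o : Out} {p : ℕ} (h : p ∣ o.d) : p ∣ o.m := by
  unfold Out.m
  exact ((h.mul_left 8).mul_right o.t).mul_right o.w

theorem a29_dvd_m_of_t {o : Out} {p : ℕ} (h : p ∣ o.t) : p ∣ o.m := by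
  unfold Out.m
  exact (h.mul_left _).mul_right o.w

theorem a29_dvd_m_of_w {o : Out} {p : ℕ} (h : p ∣ o.w) : p ∣ o.m := by
  unfold Out.m
  exact h.mul_left _

theorem a29_of_dvd_m {o : Out} {p : ℕ} (hp : p.Prime) (h2 : p ≠ 2) (h : p ∣ o.m) :
    p ∣ o.d ∨ p ∣ o.t ∨ p ∣ o.w := by
  unfold Out.m at h
  rcases (hp.dvd_mul).1 h with h | h
  · rcases (hp.dvd_mul).1 h with h | h
    · rcases (hp.dvd_mul).1 h with h | h
      · exfalso
        have h3 : p ∣ 2 := hp.dvd_of_dvd_pow (show p ∣ 2 ^ 3 by norm_num; exact h)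
        exact h2 ((Nat.prime_dvd_prime_iff_eq hp Nat.prime_two).1 h3)
      · exact Or.inl h
    · exact Or.inr (Or.inl h)
  · exact Or.inr (Or.inr h)

theorem a29_eight_dvd {o : Out} : 8 ∣ o.m := by
  unfold Out.m
  exact Dvd.intro _ (by ring : 8 * (o.d * o.t * o.w) = 8 * o.d * o.t * o.w)

/-- no prime has both the first and the third type -/
theorem a29_not_AC (F : QF K) {p : ℕ} (hp : p.Prime) {b : K} (hA : TyA F p b)
    (hC : TyC F p b) : False := by
  obtain ⟨P, hP⟩ := R.ovr K p hp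
  exact (Int.not_even_iff_odd.2 (hC.2 P hP)) (hA.2 P hP)

theorem a29_val_dmul {p : ℕ} (hp : p.Prime) {d : ℕ} (hd : ¬ p ∣ d) {q : ℚ} (hq : q ≠ 0) :
    padicValRat p ((d : ℚ) * q) = padicValRat p q := by
  haveI := Fact.mk hp
  have h0 : d ≠ 0 := by rintro rfl; exact hd (dvd_zero _)
  rw [padicValRat.mul (by exact_mod_cast h0) hq, padicValRat.of_nat,
    padicValNat.eq_zero_of_not_dvd hd]
  simp

theorem a29_not_sq {p : ℕ} (hp : p.Prime) {q : ℚ} (hq : q ≠ 0) (ho : Odd (padicValRat p q)) :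
    ¬ IsSquare q := by
  haveI := Fact.mk hp
  rintro ⟨r, rfl⟩
  have hr : r ≠ 0 := by
    rintro rfl
    exact hq (by ring)
  rw [padicValRat.mul hr hr] at ho
  exact (Int.not_even_iff_odd.2 ho) ⟨_, rfl⟩

/-- the two classes are not squares -/
theorem a29_nsq (F : QF K) (hI : SaInB F) (h1 : SaTri F) {o : Out}
    {S : Finset (HeightOneSpectrum (𝓞 K))} {b : K} (hw : WfO o) (hd : o.d = F.d)
    (hS : Good o.m S) (hne : S.Nonempty) (hb : b ≠ 0) (hin : InB o.m S b) :
    ¬ IsSquare (nmK b) ∧ ¬ IsSquare (F.d * nmK b) := by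
  obtain ⟨P, hP⟩ := hne
  have hp : (nP P).Prime := (hS.1 P hP).1
  obtain ⟨h3, h4, h5, -⟩ := (hI o S b hw hd hS hb hin).1 P hP
  have h6 := (h1 (nP P) hp h5 b hb).1 P (R.res K P hp).1
  have h7 : Odd (padicValRat (nP P) (nmK b)) := by
    rw [h6]
    exact h3.add_even h4
  have h8 : ¬ nP P ∣ F.d := fun h => h5 (h.mul_left 2)
  have h9 := nm_ne hb
  refine ⟨a29_not_sq hp h9 h7, a29_not_sq hp ?_ ?_⟩
  · have : (F.d : ℚ) ≠ 0 := by
      have := F.lt
      positivity
    exact mul_ne_zero this h9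
  · rw [a29_val_dmul hp h8 h9]
    exact h7

/-- the types at the primes outside the modulus are right -/
theorem a29_oty_out (F : QF K) (hI : SaInB F) {o : Out}
    {S : Finset (HeightOneSpectrum (𝓞 K))} {b : K} (hw : WfO o) (hd : o.d = F.d)
    (hS : Good o.m S) (hb : b ≠ 0) (hin : InB o.m S b) {p : ℕ} (hp : p.Prime)
    (hpm : ¬ p ∣ o.m) : OTy F o b p := by
  have h3 := ((hI o S b hw hd hS hb hin).2 p hp hpm).1
  refine ⟨⟨fun h => ?_, fun h => ?_⟩, ⟨fun h => absurd h h3, fun h => ?_⟩, fun h => ?_⟩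
  · exact absurd (a29_dvd_m_of_d (hd ▸ h.1)) hpm
  · exact absurd (a29_dvd_m_of_d (h.trans hw.d1)) hpm
  · exact absurd (a29_dvd_m_of_t h) hpm
  · exact absurd (a29_dvd_m_of_w h) hpm

theorem a29_oty_all (F : QF K) (hI : SaInB F) {o : Out}
    {S : Finset (HeightOneSpectrum (𝓞 K))} {b : K} (hw : WfO o) (hd : o.d = F.d)
    (hS : Good o.m S) (hb : b ≠ 0) (hin : InB o.m S b)
    (h : ∀ p : ℕ, p.Prime → p ≠ 2 → p ∣ o.m → OTy F o b p) :
    ∀ p : ℕ, p.Prime → p ≠ 2 → OTy F o b p := by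
  intro p hp h2
  by_cases hpm : p ∣ o.m
  · exact h p hp h2 hpm
  · exact a29_oty_out F hI hw hd hS hb hin hp hpm

open Classical in
/-- the primes which are not of the first type -/
theorem a29_Q (F : QF K) (hI : SaInB F) {o : Out}
    {S : Finset (HeightOneSpectrum (𝓞 K))} {b : K} (hw : WfO o) (hd : o.d = F.d)
    (hS : Good o.m S) (hb : b ≠ 0) (hin : InB o.m S b)
    (hO : ∀ p : ℕ, p.Prime → p ≠ 2 → OTy F o b p) :
    {p : ℕ | p.Prime ∧ p ≠ 2 ∧ ¬ TyA F p b}.ncard = S.card + o.ex := by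
  have h1 := hI o S b hw hd hS hb hin
  have hset : {p : ℕ | p.Prime ∧ p ≠ 2 ∧ ¬ TyA F p b} =
      ((S.image nP ∪ (o.d * o.t).primeFactors.erase 2 : Finset ℕ) : Set ℕ) := by
    ext p
    simp only [Set.mem_setOf_eq, Finset.coe_union, Set.mem_union, Finset.mem_coe,
      Finset.mem_image, Finset.mem_erase, Nat.mem_primeFactors]
    have hdt : o.d * o.t ≠ 0 := by
      have := a29_m_ne hw
      unfold Out.m at this
      intro h0
      apply this
      calc 8 * o.d * o.t * o.w = 8 * (o.d * o.t) * o.w := by ring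
        _ = 0 := by rw [h0]; ring
    constructor
    · rintro ⟨hp, h2, hA⟩
      by_cases hpm : p ∣ o.m
      · right
        refine ⟨h2, hp, ?_, hdt⟩
        rcases a29_of_dvd_m hp h2 hpm with h | h | h
        · exact h.mul_right _
        · exact h.mul_left _
        · exact absurd ((hO p hp h2).2.2 h) hA
      · left
        by_contra hc
        exact hA (((h1.2 p hp hpm).2.2).2 hc)
    · rintro (⟨P, hP, rfl⟩ | ⟨h2, hp, hdv, -⟩)
      · have h3 := h1.1 P hP
        have hp := (hS.1 P hP).1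
        refine ⟨hp, ?_, ?_⟩
        · intro h2
          exact h3.2.2.1 (by rw [h2]; exact Dvd.intro _ rfl)
        · intro hA
          exact (((h1.2 (nP P) hp h3.2.2.2).2.2).1 hA) ⟨P, hP, rfl⟩
      · refine ⟨hp, h2, fun hA => ?_⟩
        rcases (hp.dvd_mul).1 hdv with h | h
        · exact hA.1 ((hd ▸ h : p ∣ F.d).mul_left 2)
        · exact a29_not_AC F hp hA (((hO p hp h2).2.1).2 h)
  rw [hset, Set.ncard_coe_finset, Finset.card_union_of_disjoint, Finset.card_image_of_injOn hS.2]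
  · rfl
  · rw [Finset.disjoint_left]
    intro p hp hp'
    obtain ⟨P, hP, rfl⟩ := Finset.mem_image.1 hp
    have h3 := (h1.1 P hP).2.2.2
    rw [Finset.mem_erase, Nat.mem_primeFactors] at hp'
    obtain ⟨-, hpp, hdv, -⟩ := hp'
    rcases (hpp.dvd_mul).1 hdv with h | h
    · exact h3 (a29_dvd_m_of_d h)
    · exact h3 (a29_dvd_m_of_t h)

theorem a29_chP (P : HeightOneSpectrum (𝓞 K)) (γ : K) : chP P γ = 1 ∨ chP P γ = -1 := by
  unfold chP
  split_ifs
  · exact Or.inl rfl
  · exact Or.inr rfl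

theorem a29_cong_one (m : ℕ) : Cong (K := K) m 1 := fun _ _ => Or.inl rfl

theorem a29_totPos_one : TotPos (1 : K) := fun φ => by rw [map_one]; exact one_pos

end

theorem saFib2 {K : Type} [Field K] [NumberField K] (F : QF K) (j : K →+* Om)
    (hC : SaCrit F j) (hE : SaFEx F j) (h2 : SaSur2 F j) (hF : SaFib F j) (hI : SaInB F)
    (h1 : SaTri F) (hM : SaMh F j) (hH : SaHasO F j) : SaFib2 F j := by
  classical
  intro o S b hw hd hS hne hb hin
  have hnsq := a29_nsq F hI h1 hw hd hS hne hb hin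
  have hHs : ∀ ρ : Gam →* SD, Cl F j b ρ → ρ ∈ Hs := fun ρ hρ =>
    ⟨(h2 b ρ hb hρ).2 hnsq, hρ.lc⟩
  have hInB := hI o S b hw hd hS hb hin
  by_cases hA : (∀ p : ℕ, p.Prime → p ≠ 2 → Th F p b = 0) ∧ ThI b = 0
  · -- there is a lift
    obtain ⟨f, hf⟩ := hE b hb
    obtain ⟨ρ₀, hρ₀, -⟩ := (hC b f hb hf).2 hA
    have hprod : ∏ P ∈ S, (1 + (chP P (F.cj b) : ℝ)) = 2 ^ S.card := by
      rw [← Finset.prod_const]
      refine Finset.prod_congr rfl fun P hP => ?_
      obtain ⟨h3, h4, h5, -⟩ := hInB.1 P hP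
      have hp := (hS.1 P hP).1
      have h6 := R.spl F P hp h5 b hb h3 h4
      have hp2 : nP P ≠ 2 := by
        intro h
        exact h5 (by rw [h]; exact Dvd.intro _ rfl)
      rw [hA.1 _ hp hp2] at h6
      rcases a29_chP P (F.cj b) with h7 | h7
      · rw [h7]; norm_num
      · rw [h7] at h6
        exact absurd h6 (by decide)
    by_cases hO : ∀ p : ℕ, p.Prime → p ≠ 2 → p ∣ o.m → OTy F o b p
    · have hO' := a29_oty_all F hI hw hd hS hb hin hO
      have h3 := (hF o b ρ₀ hw hd hb (hHs ρ₀ hρ₀) hρ₀ hO').1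
      rw [a29_Q F hI hw hd hS hb hin hO'] at h3
      have h4 : mh F j o.m o.c b = muc ρ₀ o.c :=
        hM o.m o.c b 1 1 ρ₀ (a29_m_ne hw) a29_eight_dvd hb one_ne_zero one_ne_zero
          (a29_cong_one _) a29_totPos_one (hHs ρ₀ hρ₀) (by simpa using hρ₀)
      have h5 : Phi F j o b = 2 * 2 ^ o.ex * (mh F j o.m o.c b : ℝ) := by
        unfold Phi
        rw [if_pos ⟨hA.2, fun p hp hp2 hpm => ⟨hA.1 p hp hp2, hO p hp hp2 hpm⟩⟩]
      rw [h3, h5, h4, hprod]
      push_cast
      ring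
    · have h5 : Phi F j o b = 0 := by
        unfold Phi
        rw [if_neg]
        rintro ⟨-, h⟩
        exact hO fun p hp hp2 hpm => (h p hp hp2 hpm).2
      have h6 : {ρ : Gam →* SD | ρ ∈ Hs ∧ Cl F j b ρ ∧ HasO o ρ} = ∅ := by
        rw [Set.eq_empty_iff_forall_notMem]
        rintro ρ ⟨hρ, hcl, hh⟩
        exact hO fun p hp hp2 _ => ((hH o b ρ hw hd hb hρ hcl).1 hh).1 p hp hp2
      rw [h5, h6, Set.ncard_empty]
      simp
  · -- no lift
    have h6 : {ρ : Gam →* SD | ρ ∈ Hs ∧ Cl F j b ρ ∧ HasO o ρ} = ∅ := by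
      rw [Set.eq_empty_iff_forall_notMem]
      rintro ρ ⟨-, hcl, -⟩
      exact hA ((hC b (fun σ => (ρ σ).pf) hb hcl.pf).1 ⟨ρ, hcl, fun _ => rfl⟩)
    rw [h6, Set.ncard_empty, Nat.cast_zero, eq_comm]
    by_cases hI0 : ThI b = 0
    · have h7 : ∃ p : ℕ, p.Prime ∧ p ≠ 2 ∧ Th F p b ≠ 0 := by
        by_contra hc
        push Not at hc
        exact hA ⟨hc, hI0⟩
      obtain ⟨p, hp, hp2, hT⟩ := h7
      by_cases hpm : p ∣ o.m
      · have h5 : Phi F j o b = 0 := by
          unfold Phi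
          rw [if_neg]
          rintro ⟨-, h⟩
          exact hT (h p hp hp2 hpm).1
        rw [h5, zero_mul]
      · have hTyA : ¬ TyA F p b := fun hA' => hT (R.even F p hp hA'.1 b hb hA'.2)
        obtain ⟨P, hP, hPp⟩ : ∃ P ∈ S, nP P = p := by
          by_contra hc
          exact hTyA (((hInB.2 p hp hpm).2.2).2 hc)
        obtain ⟨h3, h4, h5, -⟩ := hInB.1 P hP
        have h8 := R.spl F P (hS.1 P hP).1 h5 b hb h3 h4
        rw [hPp] at h8
        have h9 : chP P (F.cj b) = -1 := by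
          rcases a29_chP P (F.cj b) with h | h
          · rw [h] at h8
            exact absurd h8 hT
          · exact h
        rw [Finset.prod_eq_zero hP (by rw [h9]; norm_num), mul_zero]
    · have h5 : Phi F j o b = 0 := by
        unfold Phi
        rw [if_neg]
        rintro ⟨h, -⟩
        exact hI0 h
      rw [h5, zero_mul]

theorem saFib3 {K : Type} [Field K] [NumberField K] (F : QF K) (j : K →+* Om) (hF : SaFib F j)
    (hI : SaInB F) (hH : SaHasO F j) : SaFib3 F j := by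
  classical
  intro o b hw hd hb hin
  rcases Set.eq_empty_or_nonempty {ρ : Gam →* SD | ρ ∈ Hs ∧ Cl F j b ρ ∧ HasO o ρ} with h | h
  · rw [h]
    exact ⟨Set.finite_empty, by rw [Set.ncard_empty]; exact Nat.zero_le _⟩
  · obtain ⟨ρ, hρ, hcl, hh⟩ := h
    have hO := ((hH o b ρ hw hd hb hρ hcl).1 hh).1
    obtain ⟨h1, h2⟩ := hF o b ρ hw hd hb hρ hcl hO
    refine ⟨h2, ?_⟩
    rw [h1]
    have hgood : Good o.m (∅ : Finset (HeightOneSpectrum (𝓞 K))) :=
      ⟨fun P hP => absurd hP (Finset.notMem_empty P), by simp⟩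
    have hInB := hI o ∅ b hw hd hgood hb hin
    have h3 : muc ρ o.c ≤ 4 := by
      unfold muc
      calc _ ≤ (Set.univ : Set (ZMod 2 × ZMod 2)).ncard :=
            Set.ncard_le_ncard (Set.subset_univ _) (Set.toFinite _)
        _ = 4 := by
            rw [Set.ncard_univ, Nat.card_prod, Nat.card_zmod]
    have h4 : {p : ℕ | p.Prime ∧ p ≠ 2 ∧ ¬ TyA F p b}.ncard ≤ o.m.primeFactors.card := by
      rw [← Set.ncard_coe_finset]
      refine Set.ncard_le_ncard ?_ (Finset.finite_toSet _)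
      rintro p ⟨hp, -, hA⟩
      rw [Finset.mem_coe, Nat.mem_primeFactors]
      refine ⟨hp, ?_, a29_m_ne hw⟩
      by_contra hpm
      refine hA (((hInB.2 p hp hpm).2.2).2 ?_)
      rintro ⟨P, hP, -⟩
      exact Finset.notMem_empty P hP
    calc 2 * 2 ^ {p : ℕ | p.Prime ∧ p ≠ 2 ∧ ¬ TyA F p b}.ncard * muc ρ o.c
        ≤ 2 * 2 ^ o.m.primeFactors.card * 4 := by
          refine Nat.mul_le_mul (Nat.mul_le_mul_left _ ?_) h3
          exact Nat.pow_le_pow_right (by norm_num) h4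
      _ = 8 * 2 ^ o.m.primeFactors.card := by ring

end Pool.Agent.H32.MA
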