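import Pool.Agent.H32.MA.AStm

/-!
# Project MA9 (MP_a9b340), row A38: finiteness, the part with `N = 1`, the main formula (helper87)
-/

set_option autoImplicit false

open scoped BigOperators
open NumberField IsDedekindDomain

namespace Pool.Agent.H32.MA

open Pool.Agent.H98.MK (Om Gam dabs fld chi dd adm par lg par_hom par_lc z12)
open Pool.Agent.H98.MF (ord)
open Pool.Agent.H98.ML (hind norb tau IsTau)

theorem a38_m_ne {o : Out} (ho : WfO o) : o.m ≠ 0 := by
  have h1 : o.d ≠ 0 := (lt_trans one_pos ho.ltd).ne'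
  have h2 : o.t ≠ 0 := by
    intro h0
    have h3 := ho.sqt
    rw [h0, mul_zero] at h3
    exact not_squarefree_zero h3
  have h3 : o.w ≠ 0 := by
    intro h0
    have h3 := ho.sqw
    rw [h0, mul_zero] at h3
    exact not_squarefree_zero h3
  unfold Out.m
  positivity

theorem a38_dvd (o : Out) : 8 * o.d ∣ o.m := by
  unfold Out.m
  exact ⟨o.t * o.w, by ring⟩

theorem stmFin (hQ : SaQF)
    (hD : ∀ (K : Type) [Field K] [NumberField K] (F : QF K) (j : K →+* Om), SaDec F j) :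
    StmFin := by
  intro o lo x ho
  obtain ⟨K, _, _, F, j, hd⟩ := hQ o.d ho.sqd ho.ltd
  exact (hD K F j o lo x ho hd.symm).1

theorem stmOne (hQ : SaQF)
    (hD : ∀ (K : Type) [Field K] [NumberField K] (F : QF K) (j : K →+* Om), SaDec F j)
    (h3 : ∀ (K : Type) [Field K] [NumberField K] (F : QF K) (j : K →+* Om), SaFib3 F j)
    (hBB : StmBB) (hR : ∀ (K : Type) [Field K] [NumberField K], SaRp K) : StmOne := by
  classical
  intro o ho
  obtain ⟨K, _, _, F, j, hd⟩ := hQ o.d ho.sqd ho.ltd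
  have hm := a38_m_ne ho
  have h8 : 8 * F.d ∣ o.m := by
    rw [hd]
    exact a38_dvd o
  have h1 := (hD K F j o 0 1 ho hd.symm).2
  have hS : {S : Finset (HeightOneSpectrum (𝓞 K)) | S ∈ GoodLe K o.m 1 ∧ 0 < nS S} =
      {∅} := by
    ext S
    constructor
    · rintro ⟨⟨hg, hle⟩, _⟩
      by_contra hne
      have hne' : S.Nonempty := Finset.nonempty_iff_ne_empty.2 hne
      obtain ⟨P, hP⟩ := hne'
      have h2 : 2 ≤ nS S := by
        unfold nS
        rw [← Finset.mul_prod_erase S nP hP]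
        have h4 : 2 ≤ nP P := (hg.1 P hP).1.two_le
        have h5 : 1 ≤ ∏ Q ∈ S.erase P, nP Q :=
          Finset.one_le_prod' fun Q hQ' => (hg.1 Q (Finset.mem_of_mem_erase hQ')).1.one_le
        nlinarith
      have h6 : (2 : ℝ) ≤ nS S := by exact_mod_cast h2
      linarith
    · rintro rfl
      refine ⟨⟨⟨fun P hP => absurd hP (Finset.notMem_empty P), ?_⟩, ?_⟩, ?_⟩
      · simp
      · simp [nS]
      · simp [nS]
  rw [hS, finsum_mem_singleton] at h1
  have hb := hBB K F o.m hm h8 ∅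
  have h5 : AO o 0 1 = ∑ᶠ q ∈ BB o.m (∅ : Finset (HeightOneSpectrum (𝓞 K))),
      {ρ : Gam →* SD | ρ ∈ Hs ∧ Cl F j (rp q) ρ ∧ HasO o ρ}.ncard := h1
  rw [h5, finsum_mem_eq_finite_toFinset_sum _ hb.1]
  have h6 : ∀ q ∈ hb.1.toFinset,
      {ρ : Gam →* SD | ρ ∈ Hs ∧ Cl F j (rp q) ρ ∧ HasO o ρ}.ncard ≤
        8 * 2 ^ o.m.primeFactors.card := by
    intro q hq
    have hq' : q ∈ BB o.m (∅ : Finset (HeightOneSpectrum (𝓞 K))) := hb.1.mem_toFinset.1 hq
    exact (h3 K F j o (rp q) ho hd.symm ((hR K).1 q) hq').2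
  refine (Finset.sum_le_card_nsmul _ _ _ h6).trans ?_
  have h7 : hb.1.toFinset.card ≤ 4 ^ (o.m.primeFactors.card + 1) := by
    rw [← Set.ncard_eq_toFinset_card _ hb.1]
    exact hb.2
  rw [smul_eq_mul]
  refine (Nat.mul_le_mul_right _ h7).trans ?_
  have h8' : (8 : ℕ) ^ o.m.primeFactors.card = 4 ^ o.m.primeFactors.card *
      2 ^ o.m.primeFactors.card := by
    rw [← mul_pow]
    norm_num
  rw [pow_succ, pow_succ, h8']
  have h9 : 0 < 4 ^ o.m.primeFactors.card * 2 ^ o.m.primeFactors.card := by positivity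
  nlinarith

theorem stmAlg (hQ : SaQF)
    (hS : ∀ (K : Type) [Field K] [NumberField K] (F : QF K) (j : K →+* Om), SaSum F j)
    (hL : ∀ (K : Type) [Field K] [NumberField K] (F : QF K) (j : K →+* Om), SaLoc F j)
    (hB : ∀ (K : Type) [Field K] [NumberField K] (F : QF K) (j : K →+* Om), SaBd F j)
    (hP : ∀ (K : Type) [Field K] [NumberField K] (F : QF K) (j : K →+* Om), SaPos F j) :
    StmAlg := by
  intro o ho
  obtain ⟨K, i1, i2, F, j, hd⟩ := hQ o.d ho.sqd ho.ltd
  exact ⟨K, i1, i2, F, Psi F j o, hd, hB K F j o ho hd.symm, hL K F j o ho hd.symm,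
    hS K F j o ho hd.symm, hP K F j o ho hd.symm⟩

end Pool.Agent.H32.MA
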