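import Pool.Agent.H32.MA.AStm

/-!
# Project MA9 (MP_a9b340), row A34: finitely many good sets, representatives
-/

set_option autoImplicit false

open scoped BigOperators
open NumberField IsDedekindDomain

namespace Pool.Agent.H32.MA

section

variable {K : Type} [Field K] [NumberField K]

private theorem a34_one_le {m : ℕ} {P : HeightOneSpectrum (𝓞 K)} (h : gP m P) : 1 ≤ nP P :=
  h.1.one_lt.le

private theorem a34_le_nS {m : ℕ} {S : Finset (HeightOneSpectrum (𝓞 K))} (h : Good m S)
    {P : HeightOneSpectrum (𝓞 K)} (hP : P ∈ S) : nP P ≤ nS S :=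
  Finset.single_le_prod' (f := nP) (fun Q hQ => a34_one_le (h.1 Q hQ)) hP

private theorem a34_finite (x : ℝ) : {P : HeightOneSpectrum (𝓞 K) | (nP P : ℝ) ≤ x}.Finite := by
  have h1 := Ideal.finite_setOfPred_absNorm_le (S := 𝓞 K) ⌊x⌋₊
  refine Set.Finite.of_finite_image (f := fun P : HeightOneSpectrum (𝓞 K) => P.asIdeal)
    (h1.subset ?_) ?_
  · rintro _ ⟨P, hP, rfl⟩
    exact Nat.le_floor hP
  · intro P _ Q _ h
    exact HeightOneSpectrum.ext h

omit [NumberField K] in
/-- two elements with the same class differ by a square -/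
private theorem a34_mk (q : SqC K) (u : Kˣ) (h : (QuotientGroup.mk u : SqC K) = q) :
    ∃ z : K, z ≠ 0 ∧ rp q = (u : K) * z ^ 2 := by
  have h1 : (QuotientGroup.mk u : SqC K) = QuotientGroup.mk (Quotient.out q) := by
    rw [h]
    exact (Quotient.out_eq q).symm
  rw [QuotientGroup.eq] at h1
  obtain ⟨z, hz⟩ := h1
  refine ⟨(z : K), z.ne_zero, ?_⟩
  have h2 : (Quotient.out q : Kˣ) = u * z ^ 2 := by
    have h3 : z ^ 2 = u⁻¹ * Quotient.out q := hz
    rw [h3, mul_inv_cancel_left]
  unfold rp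
  rw [h2]
  push_cast
  ring

end

theorem saGLF (K : Type) [Field K] [NumberField K] : SaGLF K := by
  classical
  intro m x
  refine Set.Finite.subset (Finset.finite_toSet (a34_finite (K := K) x).toFinset.powerset) ?_
  rintro S ⟨h1, h2⟩
  rw [Finset.mem_coe, Finset.mem_powerset]
  intro P hP
  rw [Set.Finite.mem_toFinset]
  have h3 : (nP P : ℝ) ≤ nS S := by exact_mod_cast a34_le_nS h1 hP
  exact h3.trans h2

theorem saRp (K : Type) [Field K] [NumberField K] : SaRp K := by
  refine ⟨fun q => (Quotient.out q : Kˣ).ne_zero, ?_, ?_⟩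
  · intro b hb
    obtain ⟨z, hz, h⟩ := a34_mk (QuotientGroup.mk (Units.mk0 b hb) : SqC K) (Units.mk0 b hb) rfl
    exact ⟨_, z, hz, h⟩
  · intro q q' z hz h
    have h1 : (QuotientGroup.mk (Quotient.out q : Kˣ) : SqC K) = q := Quotient.out_eq q
    have h2 : (QuotientGroup.mk (Quotient.out q' : Kˣ) : SqC K) = q' := Quotient.out_eq q'
    rw [← h1, ← h2, QuotientGroup.eq]
    refine ⟨Units.mk0 z hz, ?_⟩
    have h3 : (Quotient.out q' : Kˣ) = Quotient.out q * Units.mk0 z hz ^ 2 := by
      apply Units.ext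
      push_cast
      exact h
    show Units.mk0 z hz ^ 2 = (Quotient.out q)⁻¹ * Quotient.out q'
    rw [h3, inv_mul_cancel_left]

end Pool.Agent.H32.MA
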