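import Pool.Agent.H32.MA.FDefs

/-!
# Project MA9 (MP_a9b340), block F, row F1: conjugate primes
-/

set_option autoImplicit false

open scoped BigOperators
open NumberField IsDedekindDomain

namespace Pool.Agent.H32.MA

open Pool.Agent.H98.MF (ord)
open Pool.Agent.H98.MF.B (ord_div le_ord_iff ord_alg_nonneg)

section

variable {K : Type} [Field K] [NumberField K]

theorem f_cjP_ord_zero (P : HeightOneSpectrum (𝓞 K)) : ord P (0 : K) = 0 := by
  unfold ord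
  rw [FractionalIdeal.spanSingleton_zero, FractionalIdeal.count_zero]

theorem f_cjP_alg_ne {r : 𝓞 K} (hr : r ≠ 0) : algebraMap (𝓞 K) K r ≠ 0 := by
  intro h
  exact hr ((FaithfulSMul.algebraMap_injective (𝓞 K) K) (by rw [h, map_zero]))

theorem f_cjP_mem (P : HeightOneSpectrum (𝓞 K)) {r : 𝓞 K} (hr : r ≠ 0) (n : ℕ) :
    (n : ℤ) ≤ ord P (algebraMap (𝓞 K) K r) ↔ r ∈ P.asIdeal ^ n := by
  rw [le_ord_iff P (f_cjP_alg_ne hr), HeightOneSpectrum.valuation_of_algebraMap,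
    HeightOneSpectrum.intValuation_le_pow_iff_mem]

theorem f_cjP_mem_one (P : HeightOneSpectrum (𝓞 K)) {r : 𝓞 K}
    (h : 1 ≤ ord P (algebraMap (𝓞 K) K r)) : r ∈ P.asIdeal := by
  by_cases hr : r = 0
  · rw [hr]
    exact Ideal.zero_mem _
  · have := (f_cjP_mem P hr 1).mp (by exact_mod_cast h)
    rwa [pow_one] at this

/-- the conjugation on the integers -/
noncomputable def f_cjP_tau (F : QF K) : 𝓞 K ≃+* 𝓞 K :=
  RingOfIntegers.mapRingEquiv F.cj.toRingEquiv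

theorem f_cjP_tau_coe (F : QF K) (x : 𝓞 K) :
    algebraMap (𝓞 K) K (f_cjP_tau F x) = F.cj (algebraMap (𝓞 K) K x) := rfl

/-- the conjugate prime -/
noncomputable def f_cjP_P (F : QF K) (P : HeightOneSpectrum (𝓞 K)) :
    HeightOneSpectrum (𝓞 K) where
  asIdeal := P.asIdeal.comap (f_cjP_tau F)
  isPrime := by
    have := P.isPrime
    infer_instance
  ne_bot := by
    obtain ⟨x, hx, hx0⟩ := (Submodule.ne_bot_iff _).mp P.ne_bot
    rw [Submodule.ne_bot_iff]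
    refine ⟨(f_cjP_tau F).symm x, ?_, ?_⟩
    · show f_cjP_tau F ((f_cjP_tau F).symm x) ∈ P.asIdeal
      rw [RingEquiv.apply_symm_apply]
      exact hx
    · intro h
      apply hx0
      have := congrArg (f_cjP_tau F) h
      rwa [RingEquiv.apply_symm_apply, map_zero] at this

theorem f_cjP_memP (F : QF K) (P : HeightOneSpectrum (𝓞 K)) (x : 𝓞 K) :
    x ∈ (f_cjP_P F P).asIdeal ↔ f_cjP_tau F x ∈ P.asIdeal := Iff.rfl

theorem f_cjP_pow (F : QF K) (P : HeightOneSpectrum (𝓞 K)) (n : ℕ) (x : 𝓞 K) :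
    x ∈ (f_cjP_P F P).asIdeal ^ n ↔ f_cjP_tau F x ∈ P.asIdeal ^ n := by
  have h : (f_cjP_P F P).asIdeal ^ n = (P.asIdeal ^ n).comap (f_cjP_tau F) := by
    show (P.asIdeal.comap (f_cjP_tau F)) ^ n = _
    rw [← Ideal.map_symm, ← Ideal.map_symm, Ideal.map_pow]
  rw [h]
  rfl

theorem f_cjP_norm (F : QF K) (P : HeightOneSpectrum (𝓞 K)) : nP (f_cjP_P F P) = nP P := by
  unfold nP
  rw [Ideal.absNorm_apply, Ideal.absNorm_apply, Submodule.cardQuot_apply,
    Submodule.cardQuot_apply]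
  refine Nat.card_congr (Ideal.quotientEquiv (f_cjP_P F P).asIdeal P.asIdeal (f_cjP_tau F)
    ?_).toEquiv
  exact (Ideal.map_comap_of_surjective (f_cjP_tau F : 𝓞 K →+* 𝓞 K)
    (f_cjP_tau F).surjective P.asIdeal).symm

theorem f_cjP_ord_int (F : QF K) (P : HeightOneSpectrum (𝓞 K)) {r : 𝓞 K} (hr : r ≠ 0) :
    ord (f_cjP_P F P) (algebraMap (𝓞 K) K r) = ord P (F.cj (algebraMap (𝓞 K) K r)) := by
  have hr' : f_cjP_tau F r ≠ 0 := by
    intro h
    exact hr ((f_cjP_tau F).injective (by rw [h, map_zero]))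
  rw [← f_cjP_tau_coe]
  obtain ⟨a, ha⟩ := Int.eq_ofNat_of_zero_le (ord_alg_nonneg (f_cjP_P F P) r)
  obtain ⟨b, hb⟩ := Int.eq_ofNat_of_zero_le (ord_alg_nonneg P (f_cjP_tau F r))
  apply le_antisymm
  · rw [ha, f_cjP_mem P hr', ← f_cjP_pow, ← f_cjP_mem _ hr, ha]
  · rw [hb, f_cjP_mem _ hr, f_cjP_pow, ← f_cjP_mem P hr', hb]

theorem f_cjP_ord (F : QF K) (P : HeightOneSpectrum (𝓞 K)) (a : K) :
    ord (f_cjP_P F P) a = ord P (F.cj a) := by
  by_cases ha : a = 0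
  · rw [ha, map_zero, f_cjP_ord_zero, f_cjP_ord_zero]
  obtain ⟨x, y, hy, rfl⟩ := IsFractionRing.div_surjective (A := 𝓞 K) a
  have hy0 : y ≠ 0 := nonZeroDivisors.ne_zero hy
  have hx0 : x ≠ 0 := by
    rintro rfl
    exact ha (by rw [map_zero, zero_div])
  have hyk := f_cjP_alg_ne hy0
  have hxk := f_cjP_alg_ne hx0
  rw [ord_div _ hxk hyk, map_div₀, ord_div _ (F.cj_ne hxk) (F.cj_ne hyk), f_cjP_ord_int F P hx0,
    f_cjP_ord_int F P hy0]

/-- `δ` as an integer -/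
theorem f_cjP_dl (F : QF K) : ∃ z : 𝓞 K, algebraMap (𝓞 K) K z = F.dl := by
  have h : IsIntegral ℤ F.dl := by
    apply IsIntegral.of_pow (n := 2) (by norm_num)
    rw [F.sq]
    exact_mod_cast isIntegral_algebraMap (R := ℤ) (A := K) (x := (F.d : ℤ))
  exact ⟨⟨F.dl, h⟩, rfl⟩

/-- a rational number that is integral -/
theorem f_cjP_rat {x : ℚ} (h : IsIntegral ℤ (x : K)) : ∃ n : ℤ, (n : ℚ) = x := by
  have h1 : IsIntegral ℤ x := by
    have h2 : (x : K) = algebraMap ℚ K x := by simp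
    rw [h2] at h
    exact (isIntegral_algebraMap_iff (algebraMap ℚ K).injective).mp h
  obtain ⟨n, hn⟩ := IsIntegrallyClosed.isIntegral_iff.mp h1
  exact ⟨n, by simpa using hn⟩

/-- `2 d x` is an integral combination of `1` and `δ` -/
theorem f_cjP_comb (F : QF K) (z : 𝓞 K) (hz : algebraMap (𝓞 K) K z = F.dl) (x : 𝓞 K) :
    ∃ s t : ℤ, (2 * F.d : 𝓞 K) * x = (s : 𝓞 K) + (t : 𝓞 K) * z := by
  obtain ⟨a, b, hab⟩ := F.exists_xy (algebraMap (𝓞 K) K x)
  have hx : IsIntegral ℤ (algebraMap (𝓞 K) K x) := RingOfIntegers.isIntegral_coe x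
  have hcx : IsIntegral ℤ (algebraMap (𝓞 K) K (f_cjP_tau F x)) :=
    RingOfIntegers.isIntegral_coe _
  have hdl : IsIntegral ℤ F.dl := by
    rw [← hz]
    exact RingOfIntegers.isIntegral_coe z
  rw [f_cjP_tau_coe, hab, F.cj_xy] at hcx
  rw [hab] at hx
  have h1 : IsIntegral ℤ ((2 * a : ℚ) : K) := by
    have h2 := hx.add hcx
    have h3 : (a : K) + b * F.dl + (a - b * F.dl) = ((2 * a : ℚ) : K) := by
      push_cast
      ring
    rwa [h3] at h2
  have h4 : IsIntegral ℤ ((2 * b * F.d : ℚ) : K) := by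
    have h2 := (hx.sub hcx).mul hdl
    have h3 : ((a : K) + b * F.dl - (a - b * F.dl)) * F.dl = ((2 * b * F.d : ℚ) : K) := by
      push_cast
      linear_combination (2 * b : K) * F.sq
    rwa [h3] at h2
  obtain ⟨s, hs⟩ := f_cjP_rat h1
  obtain ⟨t, ht⟩ := f_cjP_rat h4
  refine ⟨s * F.d, t, ?_⟩
  apply FaithfulSMul.algebraMap_injective (𝓞 K) K
  have hs' : (s : K) = 2 * a := by
    have := congrArg (fun q : ℚ => (q : K)) hs
    push_cast at this
    exact this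
  have ht' : (t : K) = 2 * b * F.d := by
    have := congrArg (fun q : ℚ => (q : K)) ht
    push_cast at this
    exact this
  simp only [map_mul, map_add, map_intCast, map_natCast, map_ofNat]
  rw [hz, hab]
  push_cast
  rw [hs', ht']
  ring

/-- an integer in a prime that contains the prime number `p` -/
theorem f_cjP_int (P : HeightOneSpectrum (𝓞 K)) {p : ℕ} (hp : p.Prime)
    (h : (p : 𝓞 K) ∈ P.asIdeal) (n : ℤ) : (n : 𝓞 K) ∈ P.asIdeal ↔ (p : ℤ) ∣ n := by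
  constructor
  · intro hn
    by_contra hc
    have hcop : IsCoprime (p : ℤ) n := by
      rw [Int.isCoprime_iff_gcd_eq_one]
      have := (Nat.Prime.coprime_iff_not_dvd hp (n := n.natAbs)).mpr (by
        rwa [← Int.natCast_dvd])
      simpa [Int.gcd] using this
    obtain ⟨u, v, huv⟩ := hcop
    apply P.isPrime.ne_top
    rw [Ideal.eq_top_iff_one]
    have h1 : (1 : 𝓞 K) = (u : 𝓞 K) * (p : 𝓞 K) + (v : 𝓞 K) * (n : 𝓞 K) := by
      have := congrArg (fun q : ℤ => (q : 𝓞 K)) huv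
      push_cast at this
      exact this.symm
    rw [h1]
    exact Ideal.add_mem _ (Ideal.mul_mem_left _ _ h) (Ideal.mul_mem_left _ _ hn)
  · rintro ⟨m, rfl⟩
    push_cast
    exact Ideal.mul_mem_right _ _ h

/-- a prime above `p` not dividing `2d` is determined by the residue of `δ` -/
theorem f_cjP_det (F : QF K) (z : 𝓞 K) (hz : algebraMap (𝓞 K) K z = F.dl)
    (P Q : HeightOneSpectrum (𝓞 K)) {p : ℕ} (hp : p.Prime) (hpd : ¬ p ∣ 2 * F.d)
    (hP : (p : 𝓞 K) ∈ P.asIdeal) (hQ : (p : 𝓞 K) ∈ Q.asIdeal) (r : ℤ)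
    (hr : z - (r : 𝓞 K) ∈ P.asIdeal) (hr' : z - (r : 𝓞 K) ∈ Q.asIdeal) : Q = P := by
  have key : ∀ R : HeightOneSpectrum (𝓞 K), (p : 𝓞 K) ∈ R.asIdeal → z - (r : 𝓞 K) ∈ R.asIdeal →
      ∀ x : 𝓞 K, ∀ s t : ℤ, (2 * F.d : 𝓞 K) * x = (s : 𝓞 K) + (t : 𝓞 K) * z →
        (x ∈ R.asIdeal ↔ (p : ℤ) ∣ s + t * r) := by
    intro R hR hzR x s t hst
    have h2d : (2 * F.d : 𝓞 K) ∉ R.asIdeal := by
      intro h
      have h1 : (((2 * F.d : ℕ) : ℤ) : 𝓞 K) ∈ R.asIdeal := by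
        push_cast
        exact h
      rw [f_cjP_int R hp hR] at h1
      exact hpd (by exact_mod_cast h1)
    have h3 : x ∈ R.asIdeal ↔ (2 * F.d : 𝓞 K) * x ∈ R.asIdeal := by
      constructor
      · intro h
        exact Ideal.mul_mem_left _ _ h
      · intro h
        exact (R.isPrime.mem_or_mem h).resolve_left h2d
    rw [h3, hst, ← f_cjP_int R hp hR]
    have h4 : (s : 𝓞 K) + (t : 𝓞 K) * z = ((s + t * r : ℤ) : 𝓞 K) + (t : 𝓞 K) * (z - (r : 𝓞 K)) := by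
      push_cast
      ring
    rw [h4]
    exact Ideal.add_mem_iff_left _ (Ideal.mul_mem_left _ _ hzR)
  apply HeightOneSpectrum.ext
  ext x
  obtain ⟨s, t, hst⟩ := f_cjP_comb F z hz x
  rw [key Q hQ hr' x s t hst, key P hP hr x s t hst]

/-- in a prime of prime norm every element has a rational residue -/
theorem f_cjP_res (P : HeightOneSpectrum (𝓞 K)) (hp : (nP P).Prime) (x : 𝓞 K) :
    ∃ r : ℤ, x - (r : 𝓞 K) ∈ P.asIdeal := by
  have hcard : Nat.card (𝓞 K ⧸ P.asIdeal) = nP P := by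
    unfold nP
    rw [Ideal.absNorm_apply, Submodule.cardQuot_apply]
  have : Fact (nP P).Prime := ⟨hp⟩
  have : P.asIdeal.IsPrime := P.isPrime
  have hne : (1 : 𝓞 K ⧸ P.asIdeal) ≠ 0 := one_ne_zero
  have htop := zmultiples_eq_top_of_prime_card hcard hne
  have hx : (Ideal.Quotient.mk P.asIdeal x) ∈ AddSubgroup.zmultiples (1 : 𝓞 K ⧸ P.asIdeal) := by
    rw [htop]
    exact AddSubgroup.mem_top _
  obtain ⟨r, hr⟩ := AddSubgroup.mem_zmultiples_iff.mp hx
  refine ⟨r, ?_⟩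
  rw [← Ideal.Quotient.eq_zero_iff_mem, map_sub, map_intCast, ← hr]
  simp

theorem f_cjP (F : QF K) : StCjP F := by
  intro P
  refine ⟨f_cjP_P F P, f_cjP_norm F P, f_cjP_ord F P, fun hp hpd => ?_⟩
  obtain ⟨z, hz⟩ := f_cjP_dl F
  have hzz : z * z = (F.d : 𝓞 K) := by
    apply FaithfulSMul.algebraMap_injective (𝓞 K) K
    rw [map_mul, hz, map_natCast, ← pow_two, F.sq]
  have htz : f_cjP_tau F z = -z := by
    apply FaithfulSMul.algebraMap_injective (𝓞 K) K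
    rw [f_cjP_tau_coe, hz, F.cdl, map_neg, hz]
  have hpP : ((nP P : ℕ) : 𝓞 K) ∈ P.asIdeal := Ideal.absNorm_mem _
  obtain ⟨r, hr⟩ := f_cjP_res P hp z
  have hpP' : ((nP P : ℕ) : 𝓞 K) ∈ (f_cjP_P F P).asIdeal := by
    rw [f_cjP_memP, map_natCast]
    exact hpP
  have hr' : z - ((-r : ℤ) : 𝓞 K) ∈ (f_cjP_P F P).asIdeal := by
    rw [f_cjP_memP, map_sub, map_intCast, htz]
    have h1 : -z - ((-r : ℤ) : 𝓞 K) = -(z - (r : 𝓞 K)) := by
      push_cast
      ring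
    rw [h1]
    exact Ideal.neg_mem_iff _ |>.mpr hr
  constructor
  · intro heq
    rw [heq] at hr'
    -- `2 z ∈ P`, hence `4 d ∈ P`
    have h1 : (2 : 𝓞 K) * z ∈ P.asIdeal := by
      have h2 := Ideal.add_mem _ hr hr'
      have h3 : z - (r : 𝓞 K) + (z - ((-r : ℤ) : 𝓞 K)) = 2 * z := by
        push_cast
        ring
      rwa [h3] at h2
    have h4 : (((2 * (2 * F.d) : ℕ) : ℤ) : 𝓞 K) ∈ P.asIdeal := by
      have h5 := Ideal.mul_mem_left P.asIdeal (2 * z) h1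
      have h6 : 2 * z * (2 * z) = (((2 * (2 * F.d) : ℕ) : ℤ) : 𝓞 K) := by
        push_cast
        linear_combination (4 : 𝓞 K) * hzz
      rwa [h6] at h5
    rw [f_cjP_int P hp hpP] at h4
    have h7 : nP P ∣ 2 * (2 * F.d) := by exact_mod_cast h4
    rcases (Nat.Prime.dvd_mul hp).mp h7 with h8 | h8
    · exact hpd (h8.mul_right _)
    · exact hpd h8
  · intro Q hQ
    have hpQ : ((nP P : ℕ) : 𝓞 K) ∈ Q.asIdeal := by
      apply f_cjP_mem_one
      rw [map_natCast]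
      exact hQ
    -- `(z - r) (z + r) = d - r²` lies in `Q`
    have h1 : (F.d : 𝓞 K) - (r : 𝓞 K) * r ∈ P.asIdeal := by
      have h2 := Ideal.mul_mem_left P.asIdeal (z + (r : 𝓞 K)) hr
      have h3 : (z + (r : 𝓞 K)) * (z - (r : 𝓞 K)) = (F.d : 𝓞 K) - (r : 𝓞 K) * r := by
        linear_combination hzz
      rwa [h3] at h2
    have h2 : (((F.d : ℤ) - r * r : ℤ) : 𝓞 K) ∈ P.asIdeal := by
      push_cast
      exact h1
    rw [f_cjP_int P hp hpP, ← f_cjP_int Q hp hpQ] at h2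
    have h3 : (z - (r : 𝓞 K)) * (z - ((-r : ℤ) : 𝓞 K)) ∈ Q.asIdeal := by
      have h4 : (z - (r : 𝓞 K)) * (z - ((-r : ℤ) : 𝓞 K)) = (((F.d : ℤ) - r * r : ℤ) : 𝓞 K) := by
        push_cast
        linear_combination hzz
      rw [h4]
      exact h2
    rcases Q.isPrime.mem_or_mem h3 with h4 | h4
    · left
      exact f_cjP_det F z hz P Q hp hpd hpP hpQ r hr h4
    · right
      exact f_cjP_det F z hz (f_cjP_P F P) Q hp hpd hpP' hpQ (-r) hr' h4

end

end Pool.Agent.H32.MA
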