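import Pool.Agent.H32.MA.AStm
import Pool.Agent.H32.MA.FCj

/-!
# Project MA9 (MP_a9b340), block A, row A28: the good set of a homomorphism
-/

set_option autoImplicit false

open scoped BigOperators
open NumberField IsDedekindDomain

namespace Pool.Agent.H32.MA

open Pool.Agent.H98.MK (Om Gam dabs fld chi dd adm par lg par_hom par_lc z12)
open Pool.Agent.H98.MF (ord)
open Pool.Agent.H98.MF.B (ord_finite)
open Pool.Agent.H98.ML (hind norb tau IsTau)

section

variable {K : Type} [Field K] [NumberField K]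

private theorem a28_nat (P : HeightOneSpectrum (𝓞 K)) (n : ℕ) :
    n ≠ 0 → (n : 𝓞 K) ∈ P.asIdeal → ∃ p : ℕ, p.Prime ∧ (p : 𝓞 K) ∈ P.asIdeal := by
  induction n using Nat.strong_induction_on with
  | _ n ih =>
    intro hn0 hn
    have hn1 : n ≠ 1 := by
      rintro rfl
      apply P.isPrime.ne_top
      rw [Ideal.eq_top_iff_one]
      simpa using hn
    have hq := Nat.minFac_prime hn1
    obtain ⟨m, hm⟩ := Nat.minFac_dvd n
    have hmn : (n : 𝓞 K) = (n.minFac : 𝓞 K) * (m : 𝓞 K) := by
      exact_mod_cast congrArg (fun x : ℕ => (x : 𝓞 K)) hm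
    rw [hmn] at hn
    rcases P.isPrime.mem_or_mem hn with h | h
    · exact ⟨_, hq, h⟩
    · have hm0 : m ≠ 0 := by
        rintro rfl
        rw [mul_zero] at hm
        exact hn0 hm
      refine ih m ?_ hm0 h
      have h2 := hq.two_le
      rw [hm]
      rcases Nat.pos_of_ne_zero hm0 with h3
      nlinarith

private theorem a28_below (P : HeightOneSpectrum (𝓞 K)) :
    ∃ p : ℕ, p.Prime ∧ (p : 𝓞 K) ∈ P.asIdeal := by
  refine a28_nat P (Ideal.absNorm P.asIdeal) ?_ (Ideal.absNorm_mem _)
  rw [Ne, Ideal.absNorm_eq_zero_iff]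
  exact P.ne_bot

/-- `1 ≤ ord P n` for natural numbers -/
theorem a28_mem (P : HeightOneSpectrum (𝓞 K)) {n : ℕ} (hn : n ≠ 0) :
    1 ≤ ord P (n : K) ↔ (n : 𝓞 K) ∈ P.asIdeal := by
  have h0 : (n : 𝓞 K) ≠ 0 := by exact_mod_cast hn
  have h1 := f_cjP_mem P h0 1
  rw [pow_one, map_natCast] at h1
  exact_mod_cast h1

private theorem a28_odd (z : ℤ) (h : Odd z) : ((z : ℤ) : ZMod 2) = 1 := by
  obtain ⟨k, rfl⟩ := h
  push_cast
  have : (2 : ZMod 2) = 0 := by decide
  rw [this, zero_mul, zero_add]

private theorem a28_even (z : ℤ) (h : ¬ Odd z) : ((z : ℤ) : ZMod 2) = 0 := by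
  rw [Int.not_odd_iff_even] at h
  obtain ⟨k, rfl⟩ := h
  push_cast
  exact CharTwo.add_self_eq_zero _

theorem saGood (F : QF K) (j : K →+* Om) (hH : SaHasO F j) (hP : SaPcl) (hT : SaTyp F j)
    (h1 : SaTri F) (h2 : SaTriR F) : SaGood F j := by
  classical
  intro o b ρ hwf hod hb hρ hcl hho
  have hOT := ((hH o b ρ hwf hod hb hρ hcl).mp hho).1
  have ho0 : o.m ≠ 0 := by
    have hd := hwf.ltd
    have ht : o.t ≠ 0 := by
      intro h
      have := hwf.sqt
      rw [h, mul_zero] at this
      exact not_squarefree_zero this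
    have hw : o.w ≠ 0 := by
      intro h
      have := hwf.sqw
      rw [h, mul_zero] at this
      exact not_squarefree_zero this
    unfold Out.m
    have hd0 : o.d ≠ 0 := by omega
    exact mul_ne_zero (mul_ne_zero (mul_ne_zero (by norm_num) hd0) ht) hw
  -- properties of the primes not dividing `m`
  have hpm : ∀ p : ℕ, p.Prime → ¬ p ∣ o.m → p ≠ 2 ∧ ¬ p ∣ 2 * F.d ∧ ¬ p ∣ o.t ∧ ¬ p ∣ o.w := by
    intro p hp hpm
    unfold Out.m at hpm
    have hd : ¬ p ∣ o.d := fun h => hpm ((h.mul_left 8).mul_right _ |>.mul_right _)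
    have ht : ¬ p ∣ o.t := fun h => hpm ((h.mul_left _).mul_right _)
    have hw : ¬ p ∣ o.w := fun h => hpm (h.mul_left _)
    have h2 : p ≠ 2 := by
      rintro rfl
      exact hpm ((((show 2 ∣ 8 by norm_num).mul_right _).mul_right _).mul_right _)
    refine ⟨h2, ?_, ht, hw⟩
    intro h
    rcases (Nat.Prime.dvd_mul hp).mp h with h3 | h3
    · exact h2 ((Nat.prime_dvd_prime_iff_eq hp Nat.prime_two).mp h3)
    · exact hd (by rw [hod]; exact h3)
  have hfin : {P : HeightOneSpectrum (𝓞 K) | ¬ 1 ≤ ord P (o.m : K) ∧ Odd (ord P b)}.Finite := by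
    refine (ord_finite b hb).subset ?_
    rintro P ⟨_, hP2⟩ h0
    rw [h0] at hP2
    exact absurd hP2 (by decide)
  -- the primes of the set
  have key : ∀ P : HeightOneSpectrum (𝓞 K), ¬ 1 ≤ ord P (o.m : K) → Odd (ord P b) →
      (nP P).Prime ∧ ¬ nP P ∣ o.m ∧ TyB F (nP P) b ∧
      ∀ P' : HeightOneSpectrum (𝓞 K), 1 ≤ ord P' ((nP P : ℕ) : K) → Odd (ord P' b) → P' = P := by
    intro P hPm hPb
    obtain ⟨p, hp, hpP⟩ := a28_below P
    have hpm' : ¬ p ∣ o.m := by
      intro h
      apply hPm
      rw [a28_mem P ho0]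
      obtain ⟨c, hc⟩ := h
      rw [hc]
      push_cast
      exact Ideal.mul_mem_right _ _ hpP
    obtain ⟨q1, q2, q3, q4⟩ := hpm p hp hpm'
    have hpP1 : 1 ≤ ord P (p : K) := (a28_mem P hp.ne_zero).mpr hpP
    have h3 := h1 p hp q2 b hb
    have hB : TyB F p b := by
      rcases h3.2.1 with hA | hB | hC
      · exact absurd hPb (Int.not_odd_iff_even.mpr (hA.2 P hpP1))
      · exact hB
      · exact absurd ((hOT p hp q1).2.1.mp hC) q3
    obtain ⟨P0, k1, k2, k3, k4, k5⟩ := h3.2.2 hB
    have hall : ∀ P' : HeightOneSpectrum (𝓞 K), 1 ≤ ord P' (p : K) → Odd (ord P' b) → P' = P0 := by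
      intro P' m1 m2
      by_contra hne
      exact absurd m2 (Int.not_odd_iff_even.mpr (k5 P' m1 hne))
    have hPP0 : P = P0 := hall P hpP1 hPb
    have hnP : nP P = p := by rw [hPP0, k2]
    rw [hnP]
    refine ⟨hp, hpm', hB, fun P' m1 m2 => ?_⟩
    rw [hPP0]
    exact hall P' m1 m2
  refine ⟨hfin.toFinset, ⟨?_, ?_⟩, ?_, ?_⟩
  · intro P hPS
    rw [Set.Finite.mem_toFinset] at hPS
    obtain ⟨k1, k2, -, -⟩ := key P hPS.1 hPS.2
    exact ⟨k1, k2⟩
  · intro P hPS P' hPS' hEq
    rw [Finset.mem_coe, Set.Finite.mem_toFinset] at hPS hPS'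
    obtain ⟨k1, k2, k3, k4⟩ := key P hPS.1 hPS.2
    refine (k4 P' ?_ hPS'.2).symm
    rw [hEq, a28_mem P' (by rw [← hEq]; exact k1.ne_zero)]
    exact Ideal.absNorm_mem _
  · intro P hPm
    by_cases hodd : Odd (ord P b)
    · rw [if_pos ((Set.Finite.mem_toFinset hfin).mpr ⟨hPm, hodd⟩)]
      exact a28_odd _ hodd
    · rw [if_neg (fun h => hodd ((Set.Finite.mem_toFinset hfin).mp h).2)]
      exact a28_even _ hodd
  · obtain ⟨hsq, hdv⟩ := hP ρ SD.clC hcl.lc (by decide)
    have hsq' : Squarefree (pcl SD.clC ρ) := hsq.squarefree_of_dvd (Dvd.intro_left _ rfl)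
    have hne2 : ¬ 2 ∣ pcl SD.clC ρ := by
      rintro ⟨c, hc⟩
      have h3 := hsq 2 ⟨c, by rw [hc]; ring⟩
      exact absurd (Nat.isUnit_iff.mp h3) (by norm_num)
    have hinj : Set.InjOn nP (hfin.toFinset : Set (HeightOneSpectrum (𝓞 K))) := by
      intro P hPS P' hPS' hEq
      rw [Finset.mem_coe, Set.Finite.mem_toFinset] at hPS hPS'
      obtain ⟨k1, k2, k3, k4⟩ := key P hPS.1 hPS.2
      refine (k4 P' ?_ hPS'.2).symm
      rw [hEq, a28_mem P' (by rw [← hEq]; exact k1.ne_zero)]
      exact Ideal.absNorm_mem _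
    have himg : hfin.toFinset.image nP = (pcl SD.clC ρ).primeFactors := by
      ext p
      rw [Finset.mem_image, Nat.mem_primeFactors]
      constructor
      · rintro ⟨P, hPS, rfl⟩
        rw [Set.Finite.mem_toFinset] at hPS
        obtain ⟨k1, k2, k3, k4⟩ := key P hPS.1 hPS.2
        have hne : nP P ≠ 2 := (hpm _ k1 k2).1
        refine ⟨k1, (hdv _ k1 hne).mpr ?_, hsq'.ne_zero⟩
        exact (hT b ρ hb hcl _ k1 hne).2.1 k3
      · rintro ⟨hp, hpd, -⟩
        have hp2 : p ≠ 2 := by
          rintro rfl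
          exact hne2 hpd
        have hC := (hdv p hp hp2).mp hpd
        have hC' := (SD.clC_iff _).mp hC
        obtain ⟨tA, tB, tC, tS, tR⟩ := hT b ρ hb hcl p hp hp2
        have hnA : ¬ TyA F p b := by
          intro h
          rcases tA h with h3 | h3
          · rw [h3] at hC
            exact absurd hC (by decide)
          · rw [h3] at hC
            exact absurd hC (by decide)
        have hnC : ¬ TyC F p b := by
          intro h
          have h3 := (SD.clT_iff _).mp (tC h)
          rw [h3.2.1] at hC'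
          exact absurd hC'.2 (by decide)
        have hnd : ¬ p ∣ F.d := by
          intro hpF
          have hSR : TyS F p b ∨ TyR F p b := by
            by_cases hE : ∀ P : HeightOneSpectrum (𝓞 K), 1 ≤ ord P (p : K) → Even (ord P b)
            · exact Or.inl ⟨hpF, hE⟩
            · right
              push Not at hE
              obtain ⟨P, m1, m2⟩ := hE
              refine ⟨hpF, fun P' m3 => ?_⟩
              rw [(h2 p hp hp2 hpF b hb P m1).2 P' m3]
              exact Int.not_even_iff_odd.mp m2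
          rcases hSR with h3 | h3
          · have h4 := (SD.clS_iff _).mp (tS h3)
            rw [h4.1] at hC'
            exact absurd hC'.1 (by decide)
          · have h4 := (SD.clR_iff _).mp (tR h3)
            rw [h4.1] at hC'
            exact absurd hC'.1 (by decide)
        have hnt : ¬ p ∣ o.t := fun h => hnC ((hOT p hp hp2).2.1.mpr h)
        have hnw : ¬ p ∣ o.w := fun h => hnA ((hOT p hp hp2).2.2 h)
        have hn2d : ¬ p ∣ 2 * F.d := by
          intro h
          rcases (Nat.Prime.dvd_mul hp).mp h with h3 | h3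
          · exact hp2 ((Nat.prime_dvd_prime_iff_eq hp Nat.prime_two).mp h3)
          · exact hnd h3
        have hnm : ¬ p ∣ o.m := by
          unfold Out.m
          intro h
          rcases (Nat.Prime.dvd_mul hp).mp h with h3 | h3
          · rcases (Nat.Prime.dvd_mul hp).mp h3 with h4 | h4
            · rcases (Nat.Prime.dvd_mul hp).mp h4 with h5 | h5
              · have h6 : p ∣ 2 ^ 3 := by
                  norm_num
                  exact h5
                exact hp2 ((Nat.prime_dvd_prime_iff_eq hp Nat.prime_two).mp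
                  (hp.dvd_of_dvd_pow h6))
              · rw [hod] at h5
                exact hnd h5
            · exact hnt h4
          · exact hnw h3
        have h3 := h1 p hp hn2d b hb
        have hB : TyB F p b := by
          rcases h3.2.1 with h4 | h4 | h4
          · exact absurd h4 hnA
          · exact h4
          · exact absurd h4 hnC
        obtain ⟨P0, k1, k2, k3, k4, k5⟩ := h3.2.2 hB
        refine ⟨P0, (Set.Finite.mem_toFinset hfin).mpr ⟨?_, k3⟩, k2⟩
        intro h4
        rw [a28_mem P0 ho0] at h4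
        have h5 := (a28_mem P0 hp.ne_zero).mp k1
        have h6 : ((o.m : ℤ) : 𝓞 K) ∈ P0.asIdeal := by
          push_cast
          exact h4
        rw [f_cjP_int P0 hp h5] at h6
        exact hnm (by exact_mod_cast h6)
    show ∏ P ∈ hfin.toFinset, nP P = pcl SD.clC ρ
    rw [← Nat.prod_primeFactors_of_squarefree hsq', ← himg, Finset.prod_image hinj]

end

end Pool.Agent.H32.MA
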