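import Pool.Agent.H32.MA.AStm

/-!
# Project MA9 (MP_a9b340), block A: the parameters in terms of the types (row A24)
-/

set_option autoImplicit false

open scoped BigOperators
open NumberField IsDedekindDomain

namespace Pool.Agent.H32.MA

open Pool.Agent.H98.MK (Om Gam dabs fld chi dd adm par lg par_hom par_lc z12)
open Pool.Agent.H98.MF (ord)
open Pool.Agent.H98.ML (hind norb tau IsTau)

private theorem a24_sqf (T : Finset ℕ) (h : ∀ p ∈ T, p.Prime) : Squarefree (∏ p ∈ T, p) := by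
  classical
  induction T using Finset.induction_on with
  | empty => simp
  | insert q T hq ih =>
    rw [Finset.prod_insert hq]
    have hqp := h q (Finset.mem_insert_self _ _)
    have hcop : Nat.Coprime q (∏ p ∈ T, p) := by
      refine Nat.Coprime.prod_right fun p hp => ?_
      rw [Nat.coprime_primes hqp (h p (Finset.mem_insert_of_mem hp))]
      rintro rfl
      exact hq hp
    rw [Nat.squarefree_mul hcop]
    exact ⟨Irreducible.squarefree hqp, ih fun p hp => h p (Finset.mem_insert_of_mem hp)⟩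

private theorem a24_dvd (T : Finset ℕ) (h : ∀ p ∈ T, p.Prime) (p : ℕ) (hp : p.Prime) :
    p ∣ ∏ q ∈ T, q ↔ p ∈ T := by
  rw [Prime.dvd_finsetProd_iff hp.prime]
  constructor
  · rintro ⟨q, hq, hd⟩
    rwa [(Nat.prime_dvd_prime_iff_eq hp (h q hq)).1 hd]
  · intro hq
    exact ⟨p, hq, dvd_rfl⟩

/-- the products of the primes in a class -/
theorem saPcl (hR : SaFinR) : SaPcl := by
  classical
  intro ρ C hlc hC
  have hfin : {p : ℕ | p.Prime ∧ p ≠ 2 ∧ C (ρ (tau p))}.Finite :=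
    (hR ρ hlc).subset fun p hp => ⟨hp.1, hp.2.1, fun h => hC (by rw [← h]; exact hp.2.2)⟩
  have hT : ∀ p, p ∈ hfin.toFinset ↔ p.Prime ∧ p ≠ 2 ∧ C (ρ (tau p)) :=
    fun p => hfin.mem_toFinset
  have e : pcl C ρ = ∏ p ∈ hfin.toFinset, p := by
    unfold pcl
    have : Fintype {p : ℕ // p.Prime ∧ p ≠ 2 ∧ C (ρ (tau p))} := hfin.fintype
    rw [finprod_eq_prod_of_fintype, Finset.prod_subtype hfin.toFinset hT (fun p => p)]
  have hpr : ∀ p ∈ hfin.toFinset, p.Prime := fun p hp => ((hT p).1 hp).1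
  rw [e]
  constructor
  · have h2 : (2 : ℕ) ∉ hfin.toFinset := fun h => ((hT 2).1 h).2.1 rfl
    have h3 := a24_sqf (insert 2 hfin.toFinset) (fun p hp => by
      rcases Finset.mem_insert.1 hp with h | h
      · rw [h]; exact Nat.prime_two
      · exact hpr p h)
    rwa [Finset.prod_insert h2] at h3
  · intro p hp hp2
    rw [a24_dvd _ hpr p hp, hT]
    exact ⟨fun h => h.2.2, fun h => ⟨hp, hp2, h⟩⟩

private theorem a24_eq (x y : ℕ) (hx : Squarefree (2 * x)) (hy : Squarefree (2 * y))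
    (h : ∀ p : ℕ, p.Prime → p ≠ 2 → (p ∣ x ↔ p ∣ y)) : x = y := by
  have n2 : ∀ z : ℕ, Squarefree (2 * z) → ¬ 2 ∣ z := by
    rintro z hz ⟨w, hw⟩
    have h1 := hz 2 ⟨w, by rw [hw]; ring⟩
    rw [Nat.isUnit_iff] at h1
    omega
  rw [Nat.Squarefree.ext_iff (hx.squarefree_of_dvd (dvd_mul_left _ _))
    (hy.squarefree_of_dvd (dvd_mul_left _ _))]
  intro p hp
  by_cases h2 : p = 2
  · rw [h2]
    exact ⟨fun h3 => absurd h3 (n2 x hx), fun h3 => absurd h3 (n2 y hy)⟩
  · exact h p hp h2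

private theorem a24_d1 (g : SD) (h : g = 1 ∨ g = SD.zz 1) : ¬ SD.clR g ∧ ¬ SD.clT g := by
  revert g; decide

private theorem a24_d2 (g : SD) (h : SD.clC g) : ¬ SD.clR g ∧ ¬ SD.clT g ∧ ¬ SD.clZ g := by
  revert g; decide

private theorem a24_d3 (g : SD) (h : SD.clT g) : ¬ SD.clR g ∧ ¬ SD.clZ g := by
  revert g; decide

private theorem a24_d4 (g : SD) (h : SD.clS g) : ¬ SD.clR g ∧ ¬ SD.clT g ∧ ¬ SD.clZ g := by
  revert g; decide

private theorem a24_d5 (g : SD) (h : SD.clR g) : ¬ SD.clT g ∧ ¬ SD.clZ g := by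
  revert g; decide

private theorem a24_cases {K : Type} [Field K] [NumberField K] (F : QF K) (j : K →+* Om)
    (hT : SaTyp F j) (h1 : SaTri F) (h2 : SaTriR F) (b : K) (ρ : Gam →* SD) (hb : b ≠ 0)
    (hcl : Cl F j b ρ) (p : ℕ) (hp : p.Prime) (hp2 : p ≠ 2) :
    (SD.clR (ρ (tau p)) ↔ TyR F p b) ∧ (SD.clT (ρ (tau p)) ↔ TyC F p b) ∧
      (SD.clZ (ρ (tau p)) → TyA F p b) := by
  obtain ⟨tA, tB, tC, tS, tR⟩ := hT b ρ hb hcl p hp hp2
  have key : TyA F p b ∨ TyB F p b ∨ TyC F p b ∨ TyS F p b ∨ TyR F p b := by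
    by_cases hd : p ∣ 2 * F.d
    · have hd' : p ∣ F.d := (hp.dvd_mul.1 hd).resolve_left
        (fun h => hp2 ((Nat.prime_dvd_prime_iff_eq hp Nat.prime_two).1 h))
      right; right; right
      by_cases hex : ∃ P : HeightOneSpectrum (𝓞 K), 1 ≤ ord P (p : K)
      · obtain ⟨P, hPp⟩ := hex
        obtain ⟨-, huniq⟩ := h2 p hp hp2 hd' b hb P hPp
        rcases Int.even_or_odd (ord P b) with he | ho
        · left
          exact ⟨hd', fun P' hP' => by rw [huniq P' hP']; exact he⟩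
        · right
          exact ⟨hd', fun P' hP' => by rw [huniq P' hP']; exact ho⟩
      · left
        exact ⟨hd', fun P hPp => absurd ⟨P, hPp⟩ hex⟩
    · rcases (h1 p hp hd b hb).2.1 with h | h | h
      · exact Or.inl h
      · exact Or.inr (Or.inl h)
      · exact Or.inr (Or.inr (Or.inl h))
  refine ⟨⟨fun h => ?_, tR⟩, ⟨fun h => ?_, tC⟩, fun h => ?_⟩
  · rcases key with k | k | k | k | k
    · exact absurd h (a24_d1 _ (tA k)).1
    · exact absurd h (a24_d2 _ (tB k)).1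
    · exact absurd h (a24_d3 _ (tC k)).1
    · exact absurd h (a24_d4 _ (tS k)).1
    · exact k
  · rcases key with k | k | k | k | k
    · exact absurd h (a24_d1 _ (tA k)).2
    · exact absurd h (a24_d2 _ (tB k)).2.1
    · exact k
    · exact absurd h (a24_d4 _ (tS k)).2.1
    · exact absurd h (a24_d5 _ (tR k)).1
  · rcases key with k | k | k | k | k
    · exact k
    · exact absurd h (a24_d2 _ (tB k)).2.2
    · exact absurd h (a24_d3 _ (tC k)).2
    · exact absurd h (a24_d4 _ (tS k)).2.2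
    · exact absurd h (a24_d5 _ (tR k)).2

/-- the parameters in terms of the types -/
theorem saHasO {K : Type} [Field K] [NumberField K] (F : QF K) (j : K →+* Om) (hP : SaPcl)
    (hT : SaTyp F j) (h1 : SaTri F) (h2 : SaTriR F) : SaHasO F j := by
  intro o b ρ hw hd hb hρ hcl
  have hlc : IsLocallyConstant ρ := hρ.2
  have hcs := fun p hp hp2 => a24_cases F j hT h1 h2 b ρ hb hcl p hp hp2
  obtain ⟨sR, dR⟩ := hP ρ SD.clR hlc (by decide)
  obtain ⟨sT, dT⟩ := hP ρ SD.clT hlc (by decide)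
  obtain ⟨sZ, dZ⟩ := hP ρ SD.clZ hlc (by decide)
  constructor
  · intro h
    refine ⟨fun p hp hp2 => ⟨?_, ?_, ?_⟩, fun p hp hp2 hA => ?_, h.c⟩
    · rw [← h.d1, dR p hp hp2, (hcs p hp hp2).1]
    · rw [← h.t, dT p hp hp2, (hcs p hp hp2).2.1]
    · rw [← h.w, dZ p hp hp2]
      exact (hcs p hp hp2).2.2
    · rw [← SD.clZ_iff, ← h.w, dZ p hp hp2]
  · rintro ⟨ho, hA, hc⟩
    refine ⟨fun σ => ?_, ?_, ?_, ?_, hc⟩
    · rw [hd, ← hcl.pd σ]
      unfold SD.pd
      split_ifs with h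
      · exact ⟨fun _ => rfl, fun _ => h⟩
      · exact ⟨fun h' => absurd h' h, fun h' => absurd h' (by decide)⟩
    · refine a24_eq _ _ sR ?_ fun p hp hp2 => ?_
      · rw [Nat.squarefree_mul (Nat.coprime_two_left.2 hw.odd)]
        exact ⟨Irreducible.squarefree Nat.prime_two, hw.sqd.squarefree_of_dvd hw.d1⟩
      · rw [dR p hp hp2, (hcs p hp hp2).1, (ho p hp hp2).1]
    · refine a24_eq _ _ sT hw.sqt fun p hp hp2 => ?_
      rw [dT p hp hp2, (hcs p hp hp2).2.1, (ho p hp hp2).2.1]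
    · refine a24_eq _ _ sZ hw.sqw fun p hp hp2 => ?_
      rw [dZ p hp hp2]
      constructor
      · intro h
        exact (hA p hp hp2 ((hcs p hp hp2).2.2 h)).1 ((SD.clZ_iff _).1 h)
      · intro h
        exact (SD.clZ_iff _).2 ((hA p hp hp2 ((ho p hp hp2).2.2 h)).2 h)

end Pool.Agent.H32.MA
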