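import Pool.Agent.H32.MA.AStm
import Pool.Agent.H32.MA.RIp
import Pool.Agent.H32.MA.RIpC
import Pool.Agent.H32.MA.RRes
import Pool.Agent.H32.MA.RUnr
import Pool.Agent.H32.MA.RApx

/-!
# Project MA9 (MP_a9b340), row MA-A27: types of the elements of a class (helper62)
-/

set_option autoImplicit false

open scoped BigOperators
open NumberField IsDedekindDomain

namespace Pool.Agent.H32.MA

open Pool.Agent.H98.MF (ord)
open Pool.Agent.H98.MF.B (ord_mul ord_one ord_inv ord_div ord_pow ord_neg ord_zpow ord_add)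

variable {K : Type} [Field K] [NumberField K]

/-- a prime of degree one not dividing `2 d` is not the only prime above its norm -/
theorem a27_not_only (F : QF K) (P : HeightOneSpectrum (𝓞 K)) (hpr : (nP P).Prime)
    (hnd : ¬ nP P ∣ 2 * F.d)
    (hu : ∀ P' : HeightOneSpectrum (𝓞 K), 1 ≤ ord P' ((nP P : ℕ) : K) → P' = P) : False := by
  have hfact : Fact (nP P).Prime := ⟨hpr⟩
  have hab : 1 ≤ ord P ((nP P : ℕ) : K) := (st_res K P hpr).1
  have h1 : ord P ((nP P : ℕ) : K) = 1 :=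
    st_unr F (st_ip K) (st_ordR K) (st_apx K) (nP P) hpr hnd P hab
  have hp2 : ¬ nP P ∣ 2 := fun h => hnd (Dvd.dvd.mul_right h _)
  have hpd : ¬ nP P ∣ F.d := fun h => hnd (Dvd.dvd.mul_left h _)
  have hcop : ∀ n : ℕ, ¬ nP P ∣ n → ord P (n : K) = 0 := fun n hn =>
    r3_ord_coprime P hab (((Nat.Prime.coprime_iff_not_dvd hpr).2 hn).symm)
  have hdl : ord P F.dl = 0 := by
    have h := ord_pow P F.dl 2
    rw [F.sq, hcop _ hpd] at h
    omega
  obtain ⟨r, hr⟩ := (st_res K P hpr).2 F.dl (by rw [hdl])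
  have hr1 : F.dl - r ≠ 0 := by
    intro h
    apply F.dl_notin r
    push_cast
    exact (sub_eq_zero.1 h).symm
  have hr2 : 1 ≤ ord P (F.dl - r) := by
    rcases hr with h | h
    · exact absurd (sub_eq_zero.2 h) hr1
    · exact h
  have hr0 : r ≠ 0 := by
    rintro rfl
    rw [Int.cast_zero, sub_zero, hdl] at hr2
    omega
  have hrK : (r : K) ≠ 0 := by exact_mod_cast hr0
  obtain ⟨k, hk⟩ : ∃ k : ℕ, ord P (F.dl - r) = k :=
    ⟨(ord P (F.dl - r)).toNat, (Int.toNat_of_nonneg (by omega)).symm⟩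
  have hpK : ((nP P : ℕ) : K) ≠ 0 := by exact_mod_cast hpr.ne_zero
  have hpQ : ((nP P : ℕ) : ℚ) ≠ 0 := by exact_mod_cast hpr.ne_zero
  have hz : (F.dl - r) / ((nP P : ℕ) : K) ^ k ∈ Ip K (nP P) := by
    rw [st_ip K (nP P) hpr]
    intro P' hP'
    rw [hu P' hP', ord_div P hr1 (pow_ne_zero _ hpK), ord_pow, h1, hk]
    omega
  have ht := (st_ipT K (nP P) hpr _ hz).1
  have htr : trK ((F.dl - r) / ((nP P : ℕ) : K) ^ k) = (-2 * (r : ℚ)) / ((nP P : ℕ) : ℚ) ^ k := by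
    have e1 : (F.dl - r) / ((nP P : ℕ) : K) ^ k =
        (((((nP P : ℕ) : ℚ) ^ k)⁻¹ : ℚ) : K) * (((-r : ℚ) : K) + ((1 : ℚ) : K) * F.dl) := by
      push_cast
      rw [div_eq_mul_inv]
      ring
    rw [e1, tr_rat_mul, F.tr_xy, div_eq_mul_inv]
    ring
  have hrQ : (r : ℚ) ≠ 0 := by exact_mod_cast hr0
  have hv2 : padicValRat (nP P) (-2 : ℚ) = 0 := by
    rw [padicValRat.neg, show (2 : ℚ) = ((2 : ℕ) : ℚ) by norm_num, padicValRat.of_nat,
      padicValNat.eq_zero_of_not_dvd hp2]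
    rfl
  rw [htr, padicValRat.div (mul_ne_zero (by norm_num) hrQ) (pow_ne_zero _ hpQ),
    padicValRat.mul (by norm_num) hrQ, hv2, show (((nP P : ℕ) : ℚ) ^ k) = (((nP P) ^ k : ℕ) : ℚ) by push_cast; rfl, padicValRat.of_nat, padicValNat.prime_pow] at ht
  have hor : ord P (r : K) = padicValRat (nP P) (r : ℚ) := by
    have h := st_ordR K (nP P) hpr P hab r hrQ
    rw [h1, one_mul] at h
    rw [← h]
    push_cast
    rfl
  have hadd := ord_add P hr1 hrK (by rw [sub_add_cancel]; exact F.dl_ne)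
  rw [sub_add_cancel, hdl, hk, hor] at hadd
  have h2 : (1 : ℤ) ≤ min (k : ℤ) (padicValRat (nP P) (r : ℚ)) := by
    apply le_min
    · omega
    · omega
  omega

theorem a27_zmod {n : ℤ} : ((n : ℤ) : ZMod 2) = 1 ↔ Odd n := by
  rw [ZMod.intCast_eq_one_iff_odd]

theorem saInB {K : Type} [Field K] [NumberField K] (F : QF K) (h1 : SaTri F) : SaInB F := by
  classical
  intro o S b hW hd hG hb hI
  have hnP : ∀ p : ℕ, p.Prime → ¬ p ∣ o.m → ¬ p ∣ 2 * F.d := by
    intro p _ hm h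
    apply hm
    refine h.trans ?_
    rw [← hd]
    exact ⟨4 * o.t * o.w, by unfold Out.m; ring⟩
  have hout : ∀ p : ℕ, p.Prime → ¬ p ∣ o.m → ∀ P : HeightOneSpectrum (𝓞 K),
      1 ≤ ord P (p : K) → ¬ 1 ≤ ord P (o.m : K) := by
    intro p hp hm P hP
    rw [r3_ord_coprime P hP (((Nat.Prime.coprime_iff_not_dvd hp).2 hm).symm)]
    omega
  have hodd : ∀ p : ℕ, p.Prime → ¬ p ∣ o.m → ∀ P : HeightOneSpectrum (𝓞 K),
      1 ≤ ord P (p : K) → (Odd (ord P b) ↔ P ∈ S) := by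
    intro p hp hm P hP
    have h := hI P (hout p hp hm P hP)
    rw [← a27_zmod, h]
    by_cases hS : P ∈ S
    · simp [hS]
    · simp [hS]
  have habove : ∀ P ∈ S, 1 ≤ ord P ((nP P : ℕ) : K) := fun P hP =>
    (st_res K P (hG.1 P hP).1).1
  have hnorm : ∀ p : ℕ, p.Prime → ∀ P ∈ S, 1 ≤ ord P (p : K) → nP P = p := by
    intro p hp P hP hPp
    by_contra hne
    have h := r3_ord_coprime P hPp ((Nat.coprime_primes (hG.1 P hP).1 hp).2 hne)
    have h2 := habove P hP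
    omega
  -- no prime has type C
  have hC : ∀ p : ℕ, p.Prime → ¬ p ∣ o.m → ¬ TyC F p b := by
    intro p hp hm hC
    obtain ⟨P, hP⟩ := st_over K p hp
    have hPS : P ∈ S := (hodd p hp hm P hP).1 (hC.2 P hP)
    have hPn := hnorm p hp P hPS hP
    apply a27_not_only F P (hG.1 P hPS).1 (by rw [hPn]; exact hC.1)
    intro P' hP'
    rw [hPn] at hP'
    have hPS' : P' ∈ S := (hodd p hp hm P' hP').1 (hC.2 P' hP')
    exact hG.2 hPS' hPS (by rw [hPn, hnorm p hp P' hPS' hP'])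
  have hS : ∀ P ∈ S, Odd (ord P b) ∧ Even (ord P (F.cj b)) := by
    intro P hP
    have hpr := (hG.1 P hP).1
    have hm := (hG.1 P hP).2
    have hab := habove P hP
    have hob : Odd (ord P b) := (hodd _ hpr hm P hab).2 hP
    refine ⟨hob, ?_⟩
    obtain ⟨hv, ht, -⟩ := h1 (nP P) hpr (hnP _ hpr hm) b hb
    rcases ht with hA | hB | hC'
    · exact absurd (hA.2 P hab) (Int.not_even_iff_odd.2 hob)
    · have h2 := hB.2
      rw [hv P hab, Int.odd_add] at h2
      exact h2.1 hob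
    · exact absurd hC' (hC _ hpr hm)
  have hB : ∀ p : ℕ, p.Prime → ¬ p ∣ o.m → (TyB F p b ↔ ∃ P ∈ S, nP P = p) := by
    intro p hp hm
    obtain ⟨hv, -, hB⟩ := h1 p hp (hnP p hp hm) b hb
    constructor
    · intro h
      obtain ⟨P, hP, hn, ho, -⟩ := hB h
      exact ⟨P, (hodd p hp hm P hP).1 ho, hn⟩
    · rintro ⟨P, hP, hn⟩
      have hab := habove P hP
      rw [hn] at hab
      refine ⟨hnP p hp hm, ?_⟩
      rw [hv P hab, Int.odd_add]
      exact ⟨fun _ => (hS P hP).2, fun _ => (hS P hP).1⟩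
  refine ⟨fun P hP => ⟨(hS P hP).1, (hS P hP).2, hnP _ (hG.1 P hP).1 (hG.1 P hP).2,
    (hG.1 P hP).2⟩, fun p hp hm => ⟨hC p hp hm, hB p hp hm, ?_⟩⟩
  constructor
  · rintro hA ⟨P, hP, hn⟩
    have hab := habove P hP
    rw [hn] at hab
    exact absurd (hA.2 P hab) (Int.not_even_iff_odd.2 (hS P hP).1)
  · intro h
    rcases (h1 p hp (hnP p hp hm) b hb).2.1 with hA | hB' | hC'
    · exact hA
    · exact absurd ((hB p hp hm).1 hB') h
    · exact absurd hC' (hC p hp hm)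

end Pool.Agent.H32.MA
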