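import Pool.Agent.H32.MA.AStm

/-!
# Project MA9 (MP_a9b340), block A, row A9: every homomorphism comes from an element (Kummer)
-/

set_option autoImplicit false

open scoped BigOperators
open NumberField IsDedekindDomain

namespace Pool.Agent.H32.MA

open Pool.Agent.H98.MK (Om Gam dabs fld chi dd adm par lg par_hom par_lc z12)
open Pool.Agent.H98.MF (ord)

/-- the elements with vanishing first two bits -/
private def a9_S : Subgroup SD where
  carrier := {g | g.pd = 0 ∧ g.pf = 0}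
  mul_mem' := by
    intro g h hg hh
    revert g h
    decide
  one_mem' := by
    show (1 : SD).pd = 0 ∧ (1 : SD).pf = 0
    decide
  inv_mem' := by
    intro g hg
    revert g
    decide

private theorem a9_conj (g h : SD) (hg : g.pd = 0) (hh : h.pd = 0 ∧ h.pf = 0) :
    (g⁻¹ * h * g).pd = 0 ∧ (g⁻¹ * h * g).pf = 0 := by
  revert g h; decide

private theorem a9_inv_mul (g h : SD) (hg : g.pd = 0) (hh : h.pd = 0) :
    (g⁻¹ * h).pd = 0 ∧ (g⁻¹ * h).pf = g.pf + h.pf := by
  revert g h; decide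

private theorem a9_mul (g h : SD) (hh : h.pd = 0) :
    (g * h).pf = g.pf + h.pf := by
  revert g h; decide

private theorem a9_z (x : ZMod 2) : x = 0 ∨ x = 1 := by
  revert x; decide

private theorem a9_sg_add (x y : ZMod 2) : sg (x + y) = sg x * sg y := by
  rcases a9_z x with rfl | rfl <;> rcases a9_z y with rfl | rfl
  · simp [sg]
  · simp [sg]
  · simp [sg]
  · have h : (1 : ZMod 2) + 1 = 0 := by decide
    rw [h]
    simp [sg]

private theorem a9_sg_sq (x : ZMod 2) : sg x ^ 2 = 1 := by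
  rcases a9_z x with rfl | rfl
  · simp [sg]
  · simp [sg]

private theorem a9_sg_fix (σ : Gam) (x : ZMod 2) : σ (sg x) = sg x := by
  rcases a9_z x with rfl | rfl
  · simp [sg]
  · simp [sg]

theorem saKum {K : Type} [Field K] [NumberField K] (F : QF K) (j : K →+* Om)
    (hA : SaAct F j) (hF : SaFix F j) : SaKum F j := by
  intro ρ hlc hpd
  -- an automorphism moving the square root of d
  have hτ : ∃ τ0 : Gam, chi (F.d : ℚ) τ0 = 1 := by
    by_contra hno
    push Not at hno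
    have h0 : ∀ σ, chi (F.d : ℚ) σ = 0 := fun σ => (a9_z _).resolve_right (hno σ)
    have h1 := Pool.Agent.H98.MK.chi_isSquare _ h0
    have h2 : IsSquare F.d := by
      exact_mod_cast h1
    obtain ⟨r, hr⟩ := h2
    have h3 : IsUnit r := F.sqf r (by rw [← hr])
    rw [Nat.isUnit_iff] at h3
    have := F.lt
    rw [hr, h3] at this
    omega
  obtain ⟨τ0, hτ0⟩ := hτ
  -- the element θ
  have key : ∃ θ : Om, θ ≠ 0 ∧ ∀ σ : Gam, chi (F.d : ℚ) σ = 0 → σ θ = sg (ρ σ).pf * θ := by
    by_cases hall : ∀ σ : Gam, chi (F.d : ℚ) σ = 0 → (ρ σ).pf = 0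
    · refine ⟨1, one_ne_zero, fun σ hσ => ?_⟩
      rw [hall σ hσ, map_one]
      simp [sg]
    · push Not at hall
      obtain ⟨s, hs, hs1⟩ := hall
      have hs1 : (ρ s).pf = 1 := (a9_z _).resolve_left hs1
      have hspd : (ρ s).pd = 0 := by rw [hpd, hs]
      let H : Subgroup Gam := a9_S.comap ρ
      have hmem : ∀ σ : Gam, σ ∈ H ↔ (ρ σ).pd = 0 ∧ (ρ σ).pf = 0 := fun σ => Iff.rfl
      have hop : IsOpen (H : Set Gam) := hlc {g | g.pd = 0 ∧ g.pf = 0}
      have hsH : s ∉ H := by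
        rw [hmem, hs1]
        intro h
        exact one_ne_zero h.2
      rw [← Pool.Agent.H98.MK.fld_fixing H hop, IntermediateField.mem_fixingSubgroup_iff] at hsH
      push Not at hsH
      obtain ⟨y, hy, hsy⟩ := hsH
      have hyf : ∀ σ ∈ H, σ y = y := (IntermediateField.mem_fixedField_iff H y).1 hy
      refine ⟨y - s y, sub_ne_zero.2 (Ne.symm hsy), fun σ hσ => ?_⟩
      have hσpd : (ρ σ).pd = 0 := by rw [hpd, hσ]
      rcases a9_z (ρ σ).pf with h0 | h1
      · -- σ in H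
        have h1 : σ ∈ H := (hmem σ).2 ⟨hσpd, h0⟩
        have h2 : s⁻¹ * σ * s ∈ H := by
          rw [hmem, map_mul, map_mul, map_inv]
          exact a9_conj _ _ hspd ⟨hσpd, h0⟩
        have h3 : σ (s y) = s y := by
          have h4 := hyf _ h2
          have h5 : (s * (s⁻¹ * σ * s)) y = s y := by
            rw [AlgEquiv.mul_apply, h4]
          have h6 : s * (s⁻¹ * σ * s) = σ * s := by group
          rw [h6, AlgEquiv.mul_apply] at h5
          exact h5
        rw [h0, map_sub, hyf σ h1, h3]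
        simp [sg]
      · have h2 : s⁻¹ * σ ∈ H := by
          rw [hmem, map_mul, map_inv]
          have h3 := a9_inv_mul _ _ hspd hσpd
          refine ⟨h3.1, ?_⟩
          rw [h3.2, hs1, h1]
          decide
        have h3 : σ * s ∈ H := by
          rw [hmem, map_mul, SD.pd_mul, a9_mul _ _ hspd, h1, hs1, hσpd, hspd]
          decide
        have h4 : σ y = s y := by
          have h5 := hyf _ h2
          have h6 : (s * (s⁻¹ * σ)) y = s y := by rw [AlgEquiv.mul_apply, h5]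
          rwa [mul_inv_cancel_left] at h6
        have h5 : σ (s y) = y := by
          have h6 := hyf _ h3
          rwa [AlgEquiv.mul_apply] at h6
        rw [h1, map_sub, h4, h5]
        simp [sg]
  obtain ⟨θ, hθ0, hθ⟩ := key
  obtain ⟨b, hb⟩ := hF (θ ^ 2) (fun σ hσ => by
    rw [map_pow, hθ σ hσ, mul_pow, a9_sg_sq, one_mul])
  have hb0 : b ≠ 0 := by
    rintro rfl
    rw [map_zero] at hb
    exact hθ0 (pow_eq_zero_iff (two_ne_zero) |>.1 hb)
  refine ⟨b, hb0, hlc, hpd, θ, sg (ρ τ0).pf * τ0 θ, hb, ?_, hθ, ?_⟩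
  · rw [mul_pow, a9_sg_sq, one_mul, ← map_pow, hb]
    exact (hA τ0 b).2 hτ0
  · intro σ hσ
    have h1 : chi (F.d : ℚ) (τ0⁻¹ * σ) = 0 := by
      have h2 : chi (F.d : ℚ) (τ0 * (τ0⁻¹ * σ)) = chi (F.d : ℚ) τ0 + chi (F.d : ℚ) (τ0⁻¹ * σ) :=
        Pool.Agent.H98.MK.chi_hom _ _ _
      rw [mul_inv_cancel_left, hσ, hτ0] at h2
      rcases a9_z (chi (F.d : ℚ) (τ0⁻¹ * σ)) with h | h
      · exact h
      · rw [h] at h2
        exact absurd h2 (by decide)
    have h2 : (ρ σ).pf = (ρ τ0).pf + (ρ (τ0⁻¹ * σ)).pf := by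
      have h3 : ρ σ = ρ τ0 * ρ (τ0⁻¹ * σ) := by rw [← map_mul, mul_inv_cancel_left]
      rw [h3]
      exact a9_mul _ _ (by rw [hpd, h1])
    have h3 : σ θ = τ0 ((τ0⁻¹ * σ) θ) := by
      rw [← AlgEquiv.mul_apply, mul_inv_cancel_left]
    show σ θ = sg (ρ σ).pf * (sg (ρ τ0).pf * τ0 θ)
    rw [h3, hθ _ h1, map_mul, a9_sg_fix, h2, a9_sg_add]
    have h4 := a9_sg_sq (ρ τ0).pf
    linear_combination (-(sg (ρ (τ0⁻¹ * σ)).pf * τ0 θ)) * h4

end Pool.Agent.H32.MA
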