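import Pool.Agent.H32.MA.AStm

/-!
# Project MA9 (MP_a9b340), block A, row A11: lifts and cup products
-/

set_option autoImplicit false

open scoped BigOperators
open NumberField IsDedekindDomain

namespace Pool.Agent.H32.MA

open Pool.Agent.H98.MK (Om Gam dabs fld chi dd adm par lg par_hom par_lc z12 chi_hom chi_lc chi_mul
  chi_isSquare)
open Pool.Agent.H98.MF (ord)

/-- the third bit -/
def a11_four (z : ZMod 2) : ZMod 8 := if z = 0 then 0 else 4

/-- the first two bits -/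
def a11_bit2 (x y : ZMod 2) : ZMod 8 := (if x = 0 then 0 else 1) + (if y = 0 then 0 else 2)

theorem a11_bit3 (x y z : ZMod 2) : bit3 x y z = a11_bit2 x y + a11_four z := rfl

theorem a11_four_add (x y : ZMod 2) : a11_four (x + y) = a11_four x + a11_four y := by
  revert x y; decide

theorem a11_four_neg (x : ZMod 2) : -a11_four x = a11_four x := by
  revert x; decide

theorem a11_four_inj (x y : ZMod 2) : a11_four x = a11_four y ↔ x = y := by
  revert x y; decide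

theorem a11_pw_four (a x : ZMod 2) : pw a * a11_four x = a11_four x := by
  revert a x; decide

theorem a11_pm_four (a x : ZMod 2) : pm a * a11_four x = a11_four x := by
  revert a x; decide

theorem a11_p5_four (a x : ZMod 2) : p5 a * a11_four x = a11_four x := by
  revert a x; decide

theorem a11_key (D1 D2 N1 T1 T2 W1 f1 f2 : ZMod 2) :
    a11_bit2 (D1 + D2) (f1 + f2 + N1 * D2) - a11_bit2 D1 f1 - pw (D1 + N1) * a11_bit2 D2 f2 =
    (a11_bit2 (D1 + D2) (f1 + f2 + N1 * D2 + (T1 + T2)) - a11_bit2 D1 (f1 + T1) -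
      pm (D1 + N1) * p5 W1 * a11_bit2 D2 (f2 + T2)) +
    a11_four ((f1 + f2 + N1 * D2 + 1) * (T1 + T2) + (f1 + 1) * T1 + (f2 + 1) * T2) +
    a11_four ((D1 + N1) * T2 + T1 * T2 + (W1 + D1 + N1) * D2) := by
  revert D1 D2 N1 T1 T2 W1 f1 f2
  decide +kernel

theorem a11_b (g : SD) : g.b = bit3 g.pd g.pf g.ph := by
  revert g; decide

theorem a11_pd (x y z a : ZMod 2) : (SD.mk (bit3 x y z) a).pd = x := by
  revert x y z a; decide

theorem a11_pf (x y z a : ZMod 2) : (SD.mk (bit3 x y z) a).pf = y := by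
  revert x y z a; decide

/-- the equivalence of the two relations -/
theorem a11_iff (D1 D2 N1 T1 T2 W1 f1 f2 h1 h2 h12 g1 g2 g12 : ZMod 2)
    (hB : bit3 (D1 + D2) (f1 + f2 + N1 * D2 + (T1 + T2)) h12 = bit3 D1 (f1 + T1) h1 +
      pm (D1 + N1) * p5 W1 * bit3 D2 (f2 + T2) h2) :
    bit3 (D1 + D2) (f1 + f2 + N1 * D2)
        (h12 + (f1 + f2 + N1 * D2 + 1) * (T1 + T2) + g12) =
      bit3 D1 f1 (h1 + (f1 + 1) * T1 + g1) +
        pw (D1 + N1) * bit3 D2 f2 (h2 + (f2 + 1) * T2 + g2) ↔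
    g12 = g1 + g2 + ((D1 + N1) * T2 + T1 * T2 + (W1 + D1 + N1) * D2) := by
  have hK := a11_key D1 D2 N1 T1 T2 W1 f1 f2
  rw [a11_bit3, a11_bit3, a11_bit3, mul_add, mul_assoc (pm _), mul_assoc (pm _), a11_p5_four,
    a11_pm_four, ← mul_assoc (pm _)] at hB
  rw [a11_bit3, a11_bit3, a11_bit3, mul_add (pw _), a11_pw_four]
  have e1 : a11_bit2 (D1 + D2) (f1 + f2 + N1 * D2 + (T1 + T2)) - a11_bit2 D1 (f1 + T1) -
      pm (D1 + N1) * p5 W1 * a11_bit2 D2 (f2 + T2) = a11_four (h1 + h2 + h12) := by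
    rw [a11_four_add, a11_four_add]
    have := a11_four_neg h12
    linear_combination hB + this
  rw [e1] at hK
  have e2 : ∀ a b c : ZMod 2, a11_bit2 (D1 + D2) (f1 + f2 + N1 * D2) + a11_four c =
      a11_bit2 D1 f1 + a11_four a + (pw (D1 + N1) * a11_bit2 D2 f2 + a11_four b) ↔
      a11_four (a + b + c) = a11_bit2 (D1 + D2) (f1 + f2 + N1 * D2) - a11_bit2 D1 f1 -
        pw (D1 + N1) * a11_bit2 D2 f2 := by
    intro a b c
    rw [a11_four_add, a11_four_add]
    have := a11_four_neg c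
    constructor
    · intro h
      linear_combination -h - this
    · intro h
      linear_combination -h - this
  rw [e2, hK, ← a11_four_add, ← a11_four_add, a11_four_inj]
  have hz : ∀ x : ZMod 2, x + x = 0 := CharTwo.add_self_eq_zero
  constructor
  · intro h
    linear_combination h - hz (g1 + g2)
  · intro h
    linear_combination h + hz (g1 + g2)

section

variable {K : Type} [Field K] [NumberField K] (F : QF K) (j : K →+* Om)

theorem a11_chi2 (T : Gam → ZMod 2) (hT : IsLocallyConstant T) (f : Gam → ZMod 2)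
    (hf : IsLocallyConstant f) (h g : Gam → ZMod 2) (hh : IsLocallyConstant h)
    (hg : IsLocallyConstant g) :
    IsLocallyConstant (fun σ => h σ + (f σ + 1) * T σ + g σ) := by
  have h1 : IsLocallyConstant (fun σ => (f σ, T σ, h σ, g σ)) :=
    hf.prodMk (hT.prodMk (hh.prodMk hg))
  exact h1.comp (fun x : ZMod 2 × ZMod 2 × ZMod 2 × ZMod 2 => x.2.2.1 + (x.1 + 1) * x.2.1 + x.2.2.2)

theorem saLift (hC : SaCoc F j) (hCo : SaFCo F j) : SaLift F j := by
  intro b f hb hT hf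
  obtain ⟨hflc, hfco⟩ := hCo b f hb hf
  obtain ⟨h, hhlc, hh⟩ := hC b f hb hT hf
  have hn : nmK b ≠ 0 := nm_ne hb
  have hd := F.d_ne
  have hD := chi_hom (F.d : ℚ)
  have hN := chi_hom (nmK b)
  have hTT := chi_hom (trK b)
  have hdn : ∀ σ, chi (F.d * nmK b) σ = chi (F.d : ℚ) σ + chi (nmK b) σ := fun σ =>
    chi_mul _ _ hd hn σ
  have h2dn : ∀ σ, chi (2 * F.d * nmK b) σ = chi 2 σ + chi (F.d : ℚ) σ + chi (nmK b) σ := by
    intro σ
    rw [chi_mul _ _ (mul_ne_zero two_ne_zero hd) hn σ, chi_mul _ _ two_ne_zero hd σ]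
  have hB : ∀ σ τ : Gam,
      bit3 (chi (F.d : ℚ) σ + chi (F.d : ℚ) τ) (f σ + f τ + chi (nmK b) σ * chi (F.d : ℚ) τ +
        (chi (trK b) σ + chi (trK b) τ)) (h (σ * τ)) =
      bit3 (chi (F.d : ℚ) σ) (f σ + chi (trK b) σ) (h σ) +
      pm (chi (F.d : ℚ) σ + chi (nmK b) σ) * p5 (chi 2 σ) *
        bit3 (chi (F.d : ℚ) τ) (f τ + chi (trK b) τ) (h τ) := by
    intro σ τ
    have := hh σ τ
    rwa [hD, hfco, hTT] at this
  constructor
  · rintro ⟨ρ, hCl, hpf⟩
    have ha : ∀ σ, (ρ σ).a = chi (F.d : ℚ) σ + chi (nmK b) σ := by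
      intro σ
      obtain ⟨τ, hτ⟩ : ∃ τ, chi (F.d : ℚ) τ = 1 := by
        by_contra hcon
        push Not at hcon
        have h1 : ∀ σ, chi (F.d : ℚ) σ = 0 := by
          intro σ
          have h2 := hcon σ
          have h3 : ∀ x : ZMod 2, x ≠ 1 → x = 0 := by decide
          exact h3 _ h2
        obtain ⟨r, hr⟩ := chi_isSquare _ h1
        exact F.not_sq r (by rw [hr]; ring)
      have h1 := SD.pf_mul (ρ σ) (ρ τ)
      rw [← map_mul, hpf, hpf, hpf, hCl.pd, hCl.pd, hτ, hfco, hτ] at h1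
      have h2 : chi (nmK b) σ = (ρ σ).a + chi (F.d : ℚ) σ := by linear_combination h1
      rw [h2]
      have h3 := CharTwo.add_self_eq_zero (chi (F.d : ℚ) σ)
      linear_combination -h3
    refine ⟨fun σ => h σ + (f σ + 1) * chi (trK b) σ + (ρ σ).ph,
      a11_chi2 _ (chi_lc _) _ hflc _ _ hhlc (hCl.lc.comp SD.ph), ?_⟩
    intro σ τ
    have hz : ∀ x : ZMod 2, x + x = 0 := CharTwo.add_self_eq_zero
    have e3 : ∀ σ, (ρ σ).ph = h σ + (f σ + 1) * chi (trK b) σ +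
        (h σ + (f σ + 1) * chi (trK b) σ + (ρ σ).ph) := by
      intro σ
      have := hz (h σ + (f σ + 1) * chi (trK b) σ)
      linear_combination -this
    have h4 : (ρ (σ * τ)).b = (ρ σ).b + pw (ρ σ).a * (ρ τ).b := by
      rw [map_mul]; rfl
    rw [a11_b (ρ (σ * τ)), a11_b (ρ σ), a11_b (ρ τ), hCl.pd, hCl.pd, hCl.pd, hpf, hpf, hpf, ha,
      hD, hfco] at h4
    have h5 := (a11_iff (chi (F.d : ℚ) σ) (chi (F.d : ℚ) τ) (chi (nmK b) σ) (chi (trK b) σ)
      (chi (trK b) τ) (chi 2 σ) (f σ) (f τ) (h σ) (h τ) (h (σ * τ))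
      (h σ + (f σ + 1) * chi (trK b) σ + (ρ σ).ph) (h τ + (f τ + 1) * chi (trK b) τ + (ρ τ).ph)
      (h (σ * τ) + (f (σ * τ) + 1) * chi (trK b) (σ * τ) + (ρ (σ * τ)).ph) (hB σ τ)).mp (by
        rw [← e3 σ, ← e3 τ]
        rw [e3 (σ * τ), hfco, hTT] at h4
        rw [hfco, hTT]
        exact h4)
    show h (σ * τ) + (f (σ * τ) + 1) * chi (trK b) (σ * τ) + (ρ (σ * τ)).ph = _
    rw [h5, hdn, h2dn]
  · rintro ⟨g, hglc, hg⟩
    let ρ : Gam →* SD := MonoidHom.mk' (fun σ => SD.mk (bit3 (chi (F.d : ℚ) σ) (f σ)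
      (h σ + (f σ + 1) * chi (trK b) σ + g σ)) (chi (F.d : ℚ) σ + chi (nmK b) σ)) (by
        intro σ τ
        apply SD.ext
        · rw [SD.mul_b]
          have h5 := (a11_iff (chi (F.d : ℚ) σ) (chi (F.d : ℚ) τ) (chi (nmK b) σ) (chi (trK b) σ)
            (chi (trK b) τ) (chi 2 σ) (f σ) (f τ) (h σ) (h τ) (h (σ * τ)) (g σ) (g τ) (g (σ * τ))
            (hB σ τ)).mpr (by rw [hg σ τ, hdn, h2dn])
          show bit3 (chi (F.d : ℚ) (σ * τ)) (f (σ * τ)) (h (σ * τ) + (f (σ * τ) + 1) *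
            chi (trK b) (σ * τ) + g (σ * τ)) = _
          rw [hD, hfco, hTT]
          exact h5
        · rw [SD.mul_a]
          show chi (F.d : ℚ) (σ * τ) + chi (nmK b) (σ * τ) = _
          rw [hD, hN]
          ring)
    have hρ : ∀ σ, ρ σ = SD.mk (bit3 (chi (F.d : ℚ) σ) (f σ)
      (h σ + (f σ + 1) * chi (trK b) σ + g σ)) (chi (F.d : ℚ) σ + chi (nmK b) σ) := fun _ => rfl
    have hpf : ∀ σ, (ρ σ).pf = f σ := fun σ => by rw [hρ]; exact a11_pf _ _ _ _
    refine ⟨ρ, ⟨?_, fun σ => by rw [hρ]; exact a11_pd _ _ _ _, ?_⟩, hpf⟩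
    · have h1 : IsLocallyConstant (fun σ => (chi (F.d : ℚ) σ, f σ,
          (h σ + (f σ + 1) * chi (trK b) σ + g σ), chi (nmK b) σ)) :=
        (chi_lc _).prodMk (hflc.prodMk
          ((a11_chi2 _ (chi_lc _) _ hflc _ _ hhlc hglc).prodMk (chi_lc _)))
      exact h1.comp (fun x : ZMod 2 × ZMod 2 × ZMod 2 × ZMod 2 =>
        SD.mk (bit3 x.1 x.2.1 x.2.2.1) (x.1 + x.2.2.2))
    · have h1 : (fun σ => (ρ σ).pf) = f := funext hpf
      rw [h1]
      exact hf

end

end Pool.Agent.H32.MA
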