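import Pool.Agent.H32.MA.AStm
import Pool.Agent.H32.MA.RFinal

/-!
# Project MA9 (MP_a9b340), row A31: the weight is local and bounded
-/

set_option autoImplicit false

open scoped BigOperators
open NumberField IsDedekindDomain

namespace Pool.Agent.H32.MA

open Pool.Agent.H98.MK (Om Gam dabs fld chi dd adm par lg par_hom par_lc z12)
open Pool.Agent.H98.MF (ord)
open Pool.Agent.H98.MF.B (ord_mul ord_pow ord_of_sub_one)
open Pool.Agent.H98.ML (hind norb tau IsTau)

/-! ### the modulus -/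

theorem a31_m {o : Out} (ho : WfO o) : o.m ≠ 0 := by
  have hd : o.d ≠ 0 := by have := ho.ltd; omega
  have ht : o.t ≠ 0 := by
    have := ho.sqt.ne_zero
    omega
  have hw : o.w ≠ 0 := by
    have := ho.sqw.ne_zero
    omega
  unfold Out.m
  positivity

theorem a31_m8 (o : Out) : 8 * o.d ∣ o.m := ⟨o.t * o.w, by unfold Out.m; ring⟩

section

variable {K : Type} [Field K] [NumberField K]

/-! ### exponents -/

/-- primes above a prime factor of the modulus -/
theorem a31_above {p m : ℕ} (hm : m ≠ 0) (hpm : p ∣ m) {P : HeightOneSpectrum (𝓞 K)}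
    (hP : 1 ≤ ord P (p : K)) : 1 ≤ ord P (m : K) := by
  obtain ⟨k, rfl⟩ := hpm
  have hp : (p : K) ≠ 0 := by
    have : p ≠ 0 := by rintro rfl; simp at hm
    exact_mod_cast this
  have hk : (k : K) ≠ 0 := by
    have : k ≠ 0 := by rintro rfl; simp at hm
    exact_mod_cast this
  have h1 := r3_ord_nat_nonneg P k
  have h2 := ord_mul P hp hk
  push_cast
  linarith

theorem a31_ord_cong {p m : ℕ} (hm : m ≠ 0) (hpm : p ∣ m) {l : K} (hl : Cong m l)
    {P : HeightOneSpectrum (𝓞 K)} (hP : 1 ≤ ord P (p : K)) : ord P l = 0 := by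
  have h1 := a31_above hm hpm hP
  refine (ord_of_sub_one P ?_).2
  rcases hl P h1 with h | h
  · exact Or.inl h
  · exact Or.inr (le_trans h1 h)

/-- same parity of the exponents above the prime factors of the modulus -/
def a31_Par (m : ℕ) (b b' : K) : Prop := ∀ p : ℕ, p.Prime → p ∣ m →
  ∀ P : HeightOneSpectrum (𝓞 K), 1 ≤ ord P (p : K) → (Even (ord P b') ↔ Even (ord P b))

theorem a31_par_sq (m : ℕ) {b z : K} (hb : b ≠ 0) (hz : z ≠ 0) : a31_Par m b (b * z ^ 2) := by
  intro p _ _ P _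
  rw [ord_mul P hb (pow_ne_zero 2 hz), ord_pow, Int.even_add]
  have h : Even (((2 : ℕ) : ℤ) * ord P z) := ⟨ord P z, by push_cast; ring⟩
  exact ⟨fun h1 => h1.2 h, fun h1 => ⟨fun _ => h, fun _ => h1⟩⟩

theorem a31_par_cong {m : ℕ} (hm : m ≠ 0) {b l : K} (hb : b ≠ 0) (hl : l ≠ 0)
    (hc : Cong m l) : a31_Par m b (l * b) := by
  intro p _ hpm P hP
  rw [ord_mul P hl hb, a31_ord_cong hm hpm hc hP, zero_add]

/-! ### the types depend only on the parities -/

theorem a31_tyA (F : QF K) {m p : ℕ} {b b' : K} (hp : p.Prime) (hpm : p ∣ m)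
    (h : a31_Par m b b') : TyA F p b' ↔ TyA F p b := by
  unfold TyA
  refine and_congr Iff.rfl (forall_congr' fun P => forall_congr' fun hP => ?_)
  exact h p hp hpm P hP

theorem a31_odd {m p : ℕ} {b b' : K} (hp : p.Prime) (hpm : p ∣ m)
    (h : a31_Par m b b') (P : HeightOneSpectrum (𝓞 K)) (hP : 1 ≤ ord P (p : K)) :
    Odd (ord P b') ↔ Odd (ord P b) := by
  rw [← Int.not_even_iff_odd, ← Int.not_even_iff_odd, h p hp hpm P hP]

theorem a31_tyC (F : QF K) {m p : ℕ} {b b' : K} (hp : p.Prime) (hpm : p ∣ m)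
    (h : a31_Par m b b') : TyC F p b' ↔ TyC F p b := by
  unfold TyC
  refine and_congr Iff.rfl (forall_congr' fun P => forall_congr' fun hP => ?_)
  exact a31_odd hp hpm h P hP

theorem a31_tyR (F : QF K) {m p : ℕ} {b b' : K} (hp : p.Prime) (hpm : p ∣ m)
    (h : a31_Par m b b') : TyR F p b' ↔ TyR F p b := by
  unfold TyR
  refine and_congr Iff.rfl (forall_congr' fun P => forall_congr' fun hP => ?_)
  exact a31_odd hp hpm h P hP

theorem a31_oty (F : QF K) (o : Out) {p : ℕ} {b b' : K} (hp : p.Prime) (hpm : p ∣ o.m)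
    (h : a31_Par o.m b b') : OTy F o b' p ↔ OTy F o b p := by
  unfold OTy
  rw [a31_tyA F hp hpm h, a31_tyC F hp hpm h, a31_tyR F hp hpm h]

/-- the weight depends only on the local data -/
theorem a31_psi (F : QF K) (j : K →+* Om) (o : Out) (b b' : K) (h1 : ThI b' = ThI b)
    (h2 : ∀ p : ℕ, p.Prime → p ≠ 2 → p ∣ o.m → Th F p b' = Th F p b)
    (h3 : a31_Par o.m b b') (h4 : (mh F j o.m o.c b' : ℝ) = mh F j o.m o.c b)
    (h5 : (spn F o.m b' : ℝ) = spn F o.m b) : Psi F j o b' = Psi F j o b := by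
  unfold Psi
  rw [h5]
  congr 1
  unfold Phi
  have h6 : (ThI b' = 0 ∧ ∀ p : ℕ, p.Prime → p ≠ 2 → p ∣ o.m → Th F p b' = 0 ∧ OTy F o b' p) ↔
      (ThI b = 0 ∧ ∀ p : ℕ, p.Prime → p ≠ 2 → p ∣ o.m → Th F p b = 0 ∧ OTy F o b p) := by
    rw [h1]
    refine and_congr Iff.rfl (forall_congr' fun p => forall_congr' fun hp =>
      forall_congr' fun hp2 => forall_congr' fun hpm => ?_)
    rw [h2 p hp hp2 hpm, a31_oty F o hp hpm h3]
  by_cases h : ThI b = 0 ∧ ∀ p : ℕ, p.Prime → p ≠ 2 → p ∣ o.m → Th F p b = 0 ∧ OTy F o b p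
  · rw [if_pos h, if_pos (h6.2 h), h4]
  · rw [if_neg h, if_neg fun h' => h (h6.1 h')]

/-- A31: the weight is local -/
theorem saLoc {K : Type} [Field K] [NumberField K] (F : QF K) (j : K →+* Om)
    (hM : SaMhL F j) : SaLoc F j := by
  intro o ho hod
  have hm := a31_m ho
  have hdm : 8 * F.d ∣ o.m := by rw [← hod]; exact a31_m8 o
  have h8 : 8 ∣ o.m := (Dvd.intro _ rfl).trans hdm
  have hmh := hM o.m o.c hm h8
  have hsp := R.spnL F o.m hm hdm
  constructor
  · intro b z hb hz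
    refine a31_psi F j o b (b * z ^ 2) ((R.inf F).1 b z hb hz) ?_ (a31_par_sq o.m hb hz)
      (hmh.sq b z hb hz) (hsp.sq b z hb hz)
    intro p hp hp2 _
    rw [Th_eq, Th_eq]
    exact R.sq F p 1 _ (st_tm p hp hp2) b z hb hz
  · intro b l hb hl hc hpos
    refine a31_psi F j o b (l * b) ((R.inf F).2 b l hb hl hpos) ?_ (a31_par_cong hm hb hl hc)
      (hmh.loc b l hb hl hc hpos) (hsp.loc b l hb hl hc hpos)
    intro p hp hp2 hpm
    rw [Th_eq, Th_eq]
    have hv : 1 ≤ o.m.factorization p := (hp.dvd_iff_one_le_factorization hm).1 hpm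
    exact R.cong F p (o.m.factorization p) (tm p) hp hv (fun h => absurd h hp2)
      ((st_tm p hp hp2).mono hv) b l hb hl (R.ipC K p hp o.m hm hpm l hc)

/-! ### the bound -/

theorem a31_muc (ρ : Gam →* SD) (c : ℕ) : muc ρ c ≤ 4 := by
  unfold muc
  refine (Set.ncard_le_ncard (Set.subset_univ _) Set.finite_univ).trans ?_
  rw [Set.ncard_univ, Nat.card_eq_fintype_card]
  decide

theorem a31_mh (F : QF K) (j : K →+* Om) (m c : ℕ) (b : K) : mh F j m c b ≤ 4 := by
  unfold mh
  split_ifs with h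
  · exact a31_muc _ _
  · exact Nat.zero_le _

theorem a31_spn (F : QF K) {m : ℕ} (hm : m ≠ 0) (b : K) :
    spn F m b = 1 ∨ spn F m b = -1 := by
  rw [r7_spn F st_tmF m hm b]
  rcases r7_sg ((∑ᶠ p : OP, Th F p b) + ∑ p ∈ m.primeFactors.filter (fun p => p ≠ 2), Th F p b)
    with h | h
  · rw [h]; exact Or.inl rfl
  · rw [h]; exact Or.inr rfl

/-- A31: the weight is bounded -/
theorem saBd {K : Type} [Field K] [NumberField K] (F : QF K) (j : K →+* Om) : SaBd F j := by
  intro o ho _ b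
  have hm := a31_m ho
  have hex : o.ex ≤ o.m.primeFactors.card := by
    unfold Out.ex
    refine (Finset.card_le_card (Finset.erase_subset _ _)).trans
      (Finset.card_le_card (Nat.primeFactors_mono ⟨8 * o.w, by unfold Out.m; ring⟩ hm))
  have hpow : (2 : ℝ) ^ o.ex ≤ 2 ^ o.m.primeFactors.card :=
    pow_le_pow_right₀ (by norm_num) hex
  have hpow0 : (0 : ℝ) ≤ 2 ^ o.ex := by positivity
  have hmh : (mh F j o.m o.c b : ℝ) ≤ 4 := by exact_mod_cast a31_mh F j o.m o.c b
  have hmh0 : (0 : ℝ) ≤ (mh F j o.m o.c b : ℝ) := by positivity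
  have hPhi0 : 0 ≤ Phi F j o b := by
    unfold Phi
    split_ifs
    · positivity
    · exact le_refl _
  have hPhi : Phi F j o b ≤ 8 * 2 ^ o.m.primeFactors.card := by
    unfold Phi
    split_ifs
    · calc 2 * 2 ^ o.ex * (mh F j o.m o.c b : ℝ) ≤ 2 * 2 ^ o.ex * 4 := by
            exact mul_le_mul_of_nonneg_left hmh (by positivity)
        _ = 8 * 2 ^ o.ex := by ring
        _ ≤ 8 * 2 ^ o.m.primeFactors.card := by linarith
    · positivity
  unfold Psi
  rcases a31_spn F hm b with h | h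
  · rw [h]
    push_cast
    constructor
    · linarith
    · have : (0 : ℝ) ≤ 2 ^ o.m.primeFactors.card := by positivity
      linarith
  · rw [h]
    push_cast
    constructor
    · simp
    · have : (0 : ℝ) ≤ 2 ^ o.m.primeFactors.card := by positivity
      linarith

end

end Pool.Agent.H32.MA
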