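import Pool.Agent.H32.MA.AStm
import Pool.Agent.H98.MF.C.Val

/-!
# Project MA9 (MP_a9b340), block A, row A30: the local count is local
-/

set_option autoImplicit false

open scoped BigOperators
open NumberField IsDedekindDomain

namespace Pool.Agent.H32.MA

open Pool.Agent.H98.MK (Om Gam dabs fld chi dd adm par lg par_hom par_lc z12)
open Pool.Agent.H98.MF (ord)
open Pool.Agent.H98.MF.B (ord_mul ord_div ord_neg ord_add ord_of_sub_one ord_one ord_alg_nonneg)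

section

variable {K : Type} [Field K] [NumberField K]

private theorem a30_cong8 {m : ℕ} (hm : m ≠ 0) (h8 : 8 ∣ m) {l : K} (h : Cong m l) :
    Cong 8 l := by
  intro P hP
  obtain ⟨k, rfl⟩ := h8
  have hk : k ≠ 0 := fun h0 => hm (by rw [h0])
  have hkK : ((k : ℕ) : K) ≠ 0 := by exact_mod_cast hk
  have h8K : ((8 : ℕ) : K) ≠ 0 := by exact_mod_cast (by norm_num : (8 : ℕ) ≠ 0)
  have h1 : ord P (((8 * k : ℕ)) : K) = ord P ((8 : ℕ) : K) + ord P ((k : ℕ) : K) := by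
    rw [Nat.cast_mul, ord_mul P h8K hkK]
  have h2 : 0 ≤ ord P ((k : ℕ) : K) := by
    have := ord_alg_nonneg P ((k : ℕ) : 𝓞 K)
    simpa using this
  rcases h P (by rw [h1]; linarith) with h3 | h3
  · exact Or.inl h3
  · right
    rw [h1] at h3
    linarith

private theorem a30_div {m : ℕ} {l l' : K} (h : Cong m l) (h' : Cong m l') :
    Cong m (l' / l) := by
  intro P hP
  have hl : l ≠ 0 ∧ ord P l = 0 := by
    refine ord_of_sub_one P ?_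
    rcases h P hP with h3 | h3
    · exact Or.inl h3
    · exact Or.inr (hP.trans h3)
  by_cases he : l' = l
  · left
    rw [he, div_self hl.1]
  right
  have hs : l' - l ≠ 0 := sub_ne_zero.mpr he
  have e : l' / l - 1 = (l' - l) / l := by
    rw [sub_div, div_self hl.1]
  rw [e, ord_div P hs hl.1, hl.2, sub_zero]
  by_cases h1 : l = 1
  · rw [h1]
    rcases h' P hP with h3 | h3
    · exact absurd (h3.trans h1.symm) he
    · exact h3
  have h2 : ord P (m : K) ≤ ord P (l - 1) := (h P hP).resolve_left h1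
  by_cases h1' : l' = 1
  · have e2 : l' - l = -(l - 1) := by rw [h1']; ring
    rw [e2, ord_neg]
    exact h2
  have h2' : ord P (m : K) ≤ ord P (l' - 1) := (h' P hP).resolve_left h1'
  have e3 : l' - l = (l' - 1) + -(l - 1) := by ring
  have h4 := ord_add P (sub_ne_zero.mpr h1') (neg_ne_zero.mpr (sub_ne_zero.mpr h1))
    (by rw [← e3]; exact hs)
  rw [← e3, ord_neg] at h4
  exact (le_min h2' h2).trans h4

private theorem a30_mul {m : ℕ} {l l' : K} (h : Cong m l) (h' : Cong m l') :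
    Cong m (l' * l) := by
  have h1 : Cong m (1 : K) := fun _ _ => Or.inl rfl
  have h2 := a30_div (a30_div h h1) h'
  have e : l' / (1 / l) = l' * l := by
    rw [one_div, div_inv_eq_mul]
  rwa [e] at h2

theorem saMh (F : QF K) (j : K →+* Om) (hM : SaMu F j) : SaMh F j := by
  intro m c b l z ρ hm h8 hb hl hz hc ht hρ hcl
  have h : ∃ ρ : Gam →* SD, ∃ l z : K, l ≠ 0 ∧ z ≠ 0 ∧ Cong m l ∧ TotPos l ∧ ρ ∈ Hs ∧
    Cl F j (l * b * z ^ 2) ρ := ⟨ρ, l, z, hl, hz, hc, ht, hρ, hcl⟩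
  unfold mh
  rw [dif_pos h]
  obtain ⟨l1, z1, hl1, hz1, hc1, ht1, hρ1, hcl1⟩ := h.choose_spec
  set ρ1 := h.choose with hρ1d
  refine (hM (l * b * z ^ 2) (l1 / l) (z1 / z) ρ ρ1
    (mul_ne_zero (mul_ne_zero hl hb) (pow_ne_zero 2 hz)) (div_ne_zero hl1 hl)
    (div_ne_zero hz1 hz) (a30_cong8 hm h8 (a30_div hc hc1)) hρ hρ1 hcl ?_ c).symm
  have e : l1 / l * (l * b * z ^ 2) * (z1 / z) ^ 2 = l1 * b * z1 ^ 2 := by
    field_simp
  rw [e]
  exact hcl1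

private theorem a30_congr (F : QF K) (j : K →+* Om) (hM : SaMh F j) {m c : ℕ} (hm : m ≠ 0)
    (h8 : 8 ∣ m) {b b' : K} (hb : b ≠ 0) (hb' : b' ≠ 0)
    (h : ∀ ρ : Gam →* SD, (∃ l z : K, l ≠ 0 ∧ z ≠ 0 ∧ Cong m l ∧ TotPos l ∧ ρ ∈ Hs ∧
      Cl F j (l * b * z ^ 2) ρ) → ∃ l z : K, l ≠ 0 ∧ z ≠ 0 ∧ Cong m l ∧ TotPos l ∧ ρ ∈ Hs ∧
      Cl F j (l * b' * z ^ 2) ρ)
    (h' : ∀ ρ : Gam →* SD, (∃ l z : K, l ≠ 0 ∧ z ≠ 0 ∧ Cong m l ∧ TotPos l ∧ ρ ∈ Hs ∧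
      Cl F j (l * b' * z ^ 2) ρ) → ∃ l z : K, l ≠ 0 ∧ z ≠ 0 ∧ Cong m l ∧ TotPos l ∧ ρ ∈ Hs ∧
      Cl F j (l * b * z ^ 2) ρ) : mh F j m c b' = mh F j m c b := by
  by_cases he : ∃ ρ : Gam →* SD, ∃ l z : K, l ≠ 0 ∧ z ≠ 0 ∧ Cong m l ∧ TotPos l ∧ ρ ∈ Hs ∧
    Cl F j (l * b * z ^ 2) ρ
  · obtain ⟨ρ, hρ⟩ := he
    obtain ⟨l', z', g1, g2, g3, g4, g5, g6⟩ := h ρ hρ
    obtain ⟨l, z, k1, k2, k3, k4, k5, k6⟩ := hρ
    rw [hM m c b l z ρ hm h8 hb k1 k2 k3 k4 k5 k6, hM m c b' l' z' ρ hm h8 hb' g1 g2 g3 g4 g5 g6]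
  · have he' : ¬ ∃ ρ : Gam →* SD, ∃ l z : K, l ≠ 0 ∧ z ≠ 0 ∧ Cong m l ∧ TotPos l ∧ ρ ∈ Hs ∧
        Cl F j (l * b' * z ^ 2) ρ := fun ⟨ρ, hρ⟩ => he ⟨ρ, h' ρ hρ⟩
    unfold mh
    rw [dif_neg he, dif_neg he']

theorem saMhL (F : QF K) (j : K →+* Om) (hM : SaMh F j) : SaMhL F j := by
  intro m c hm h8
  constructor
  · intro b z0 hb hz0
    have h0 : (z0 ^ 2 : K) ≠ 0 := pow_ne_zero 2 hz0
    show ((mh F j m c (b * z0 ^ 2) : ℕ) : ℝ) = (mh F j m c b : ℝ)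
    congr 1
    refine a30_congr F j hM hm h8 hb (mul_ne_zero hb h0) ?_ ?_
    · rintro ρ ⟨l, z, h1, h2, h3, h4, h5, h6⟩
      refine ⟨l, z / z0, h1, div_ne_zero h2 hz0, h3, h4, h5, ?_⟩
      have e : l * (b * z0 ^ 2) * (z / z0) ^ 2 = l * b * z ^ 2 := by field_simp
      rw [e]
      exact h6
    · rintro ρ ⟨l, z, h1, h2, h3, h4, h5, h6⟩
      refine ⟨l, z0 * z, h1, mul_ne_zero hz0 h2, h3, h4, h5, ?_⟩
      have e : l * b * (z0 * z) ^ 2 = l * (b * z0 ^ 2) * z ^ 2 := by ring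
      rw [e]
      exact h6
  · intro b l0 hb hl0 hc0 ht0
    show ((mh F j m c (l0 * b) : ℕ) : ℝ) = (mh F j m c b : ℝ)
    congr 1
    refine a30_congr F j hM hm h8 hb (mul_ne_zero hl0 hb) ?_ ?_
    · rintro ρ ⟨l, z, h1, h2, h3, h4, h5, h6⟩
      refine ⟨l / l0, z, div_ne_zero h1 hl0, h2, a30_div hc0 h3, ?_, h5, ?_⟩
      · intro φ
        rw [map_div₀]
        exact div_pos (h4 φ) (ht0 φ)
      · have e : l / l0 * (l0 * b) * z ^ 2 = l * b * z ^ 2 := by field_simp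
        rw [e]
        exact h6
    · rintro ρ ⟨l, z, h1, h2, h3, h4, h5, h6⟩
      refine ⟨l * l0, z, mul_ne_zero h1 hl0, h2, a30_mul hc0 h3, ?_, h5, ?_⟩
      · intro φ
        rw [map_mul]
        exact mul_pos (h4 φ) (ht0 φ)
      · have e : l * l0 * b * z ^ 2 = l * (l0 * b) * z ^ 2 := by ring
        rw [e]
        exact h6

end

end Pool.Agent.H32.MA
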