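import Pool.Agent.H32.MA.AStm
import Pool.Agent.H32.MA.RIp
import Pool.Agent.H32.MA.RIpC

/-!
# Project MA9 (MP_a9b340), block A, row A22: the local count at two is locally constant
-/

set_option autoImplicit false

open scoped BigOperators
open NumberField IsDedekindDomain

namespace Pool.Agent.H32.MA

open Pool.Agent.H98.MK (Om Gam dabs fld chi dd adm par lg par_hom par_lc z12)
open Pool.Agent.H98.MF (ord)

private theorem a22_z (x : ZMod 2) : x = 0 ∨ x = 1 := by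
  revert x; decide

private theorem a22_sg_add (x y : ZMod 2) : sg (x + y) = sg x * sg y := by
  rcases a22_z x with rfl | rfl <;> rcases a22_z y with rfl | rfl
  · simp [sg]
  · simp [sg]
  · simp [sg]
  · have h : (1 : ZMod 2) + 1 = 0 := by decide
    rw [h]
    simp [sg]

private theorem a22_par (u1 u2 : ZMod 2) (σ : Gam) :
    par (z12 u1 u2) σ = u1 * chi (-1) σ + u2 * chi 2 σ := by
  unfold z12
  rw [Pool.Agent.H98.MK.par_add]
  have h1 : ((dd 1 : ℤ) : ℚ) = -1 := by simp [dd]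
  have h2 : ((dd 2 : ℤ) : ℚ) = 2 := by simp [dd]
  simp only [par]
  rw [Finsupp.sum_single_index (by simp), Finsupp.sum_single_index (by simp), h1, h2,
    smul_eq_mul, smul_eq_mul, mul_comm, mul_comm (chi 2 σ)]

private theorem a22_open (θ : Om) : IsOpen {σ : Gam | σ θ = θ} := by
  have halg : Algebra.IsAlgebraic ℚ Om := by
    have e : (DivisionRing.toRatAlgebra : Algebra ℚ Om) = AlgebraicClosure.instAlgebra ℚ :=
      Subsingleton.elim _ _
    rw [e]
    exact AlgebraicClosure.isAlgebraic ℚ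
  have hint : IsIntegral ℚ θ := Algebra.IsIntegral.isIntegral _
  have hfin : FiniteDimensional ℚ (IntermediateField.adjoin ℚ ({θ} : Set Om)) :=
    IntermediateField.adjoin.finiteDimensional hint
  have hopen : IsOpen ((IntermediateField.adjoin ℚ ({θ} : Set Om)).fixingSubgroup : Set Gam) :=
    IntermediateField.fixingSubgroup_isOpen _
  have hle : (IntermediateField.adjoin ℚ ({θ} : Set Om)).fixingSubgroup ≤
      MulAction.stabilizer Gam θ := by
    intro σ hσ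
    rw [IntermediateField.mem_fixingSubgroup_iff] at hσ
    rw [MulAction.mem_stabilizer_iff]
    exact hσ _ (IntermediateField.mem_adjoin_simple_self ℚ θ)
  exact Subgroup.isOpen_mono hle hopen

private theorem a22_zz_inj (x y : ZMod 2) (h : SD.zz x = SD.zz y) : x = y := by
  revert x y; decide

private theorem a22_add (X Y : SD) (a b c : ZMod 2)
    (h : X * Y * SD.zz c = X * SD.zz a * (Y * SD.zz b)) : c = a + b := by
  apply a22_zz_inj
  rw [SD.zz_add]
  have h1 : X * SD.zz a * (Y * SD.zz b) = X * Y * (SD.zz a * SD.zz b) := by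
    rw [mul_assoc X, ← mul_assoc (SD.zz a), SD.zz_comm, mul_assoc Y, ← mul_assoc X]
  rw [h1] at h
  exact mul_left_cancel h

private theorem a22_fin (g R : SD) (v : ZMod 2) :
    g * (R * SD.zz v) * g⁻¹ = g * R * g⁻¹ * SD.zz v := by
  rw [← mul_assoc, mul_assoc (g * R), SD.zz_comm, ← mul_assoc]

private theorem a22_conj (g : SD) (hg : g = 1 ∨ g = SD.ss) (h h' : SD) (ha : h.a = h'.a)
    (hd : h.pd = h'.pd) (hf : h'.pf = h.pf + if g = 1 then 0 else h.pd) :
    h' = g * h * g⁻¹ * SD.zz ((g * h * g⁻¹).ph + h'.ph) := by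
  rcases hg with rfl | rfl
  · revert h h'; decide
  · revert h h'; decide

section

variable {K : Type} [Field K] [NumberField K] (F : QF K) (j : K →+* Om)

/-- approximate square roots -/
private theorem a22_int (l : K) (h : Cong 8 l) : ∃ (s : ℕ) (y : K), Odd s ∧ IsIntegral ℤ y ∧
    (s : K) * (l - 1) = 8 * y := by
  obtain ⟨g, ⟨s, hs, hg⟩, h1⟩ := st_ipC K (st_ip K) (st_ordR K) 2 Nat.prime_two 8 (by norm_num)
    (by norm_num) l h
  refine ⟨s, (s : K) * g, ?_, hg, ?_⟩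
  · rwa [← Nat.coprime_two_right]
  · have h2 : (8 : ℕ).factorization 2 = 3 := by
      have : (8 : ℕ) = 2 ^ 3 := by norm_num
      rw [this, Nat.Prime.factorization_pow Nat.prime_two]
      simp
    rw [h1, h2]
    push_cast
    ring

/-- the action on the square roots of `l` and its conjugate -/
private theorem a22_act (hA : SaAct F j) {l : K} {t t' : Om} (ht : t ^ 2 = j l)
    (ht' : t' ^ 2 = j (F.cj l)) (σ : Gam) :
    (chi (F.d : ℚ) σ = 0 → (σ t = t ∨ σ t = -t) ∧ (σ t' = t' ∨ σ t' = -t')) ∧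
    (chi (F.d : ℚ) σ = 1 → (σ t = t' ∨ σ t = -t') ∧ (σ t' = t ∨ σ t' = -t)) := by
  have h1 := hA σ l
  have h2 := hA σ (F.cj l)
  rw [F.cj_cj] at h2
  refine ⟨fun h => ⟨?_, ?_⟩, fun h => ⟨?_, ?_⟩⟩
  · apply sq_eq_sq_iff_eq_or_eq_neg.mp
    rw [← map_pow, ht, h1.1 h]
  · apply sq_eq_sq_iff_eq_or_eq_neg.mp
    rw [← map_pow, ht', h2.1 h]
  · apply sq_eq_sq_iff_eq_or_eq_neg.mp
    rw [← map_pow, ht, h1.2 h, ht']
  · apply sq_eq_sq_iff_eq_or_eq_neg.mp
    rw [← map_pow, ht', h2.2 h, ht]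

/-- the normal subgroup -/
private def a22_U (ρ ρ' : Gam →* SD) (t t' : Om) : Subgroup Gam where
  carrier := {σ | ρ σ = 1 ∧ ρ' σ = 1 ∧ chi (-1) σ = 0 ∧ chi 2 σ = 0 ∧ σ t = t ∧ σ t' = t'}
  mul_mem' := by
    rintro σ τ ⟨h1, h2, h3, h4, h5, h6⟩ ⟨k1, k2, k3, k4, k5, k6⟩
    refine ⟨?_, ?_, ?_, ?_, ?_, ?_⟩
    · rw [map_mul, h1, k1, one_mul]
    · rw [map_mul, h2, k2, one_mul]
    · rw [Pool.Agent.H98.MK.chi_hom, h3, k3, add_zero]
    · rw [Pool.Agent.H98.MK.chi_hom, h4, k4, add_zero]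
    · rw [AlgEquiv.mul_apply, k5, h5]
    · rw [AlgEquiv.mul_apply, k6, h6]
  one_mem' := by
    have h : ∀ q : ℚ, chi q (1 : Gam) = 0 := by
      intro q
      have := Pool.Agent.H98.MK.chi_hom q (1 : Gam) 1
      rw [one_mul] at this
      simpa using this
    exact ⟨map_one _, map_one _, h _, h _, rfl, rfl⟩
  inv_mem' := by
    rintro σ ⟨h1, h2, h3, h4, h5, h6⟩
    have h : ∀ q : ℚ, chi q σ = 0 → chi q σ⁻¹ = 0 := by
      intro q hq
      have h7 := Pool.Agent.H98.MK.chi_hom q σ σ⁻¹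
      have h8 := Pool.Agent.H98.MK.chi_hom q (1 : Gam) 1
      rw [one_mul] at h8
      rw [mul_inv_cancel, hq, zero_add] at h7
      rw [← h7]
      simpa using h8
    have h' : ∀ x : Om, σ x = x → σ⁻¹ x = x := by
      intro x hx
      have h9 : σ⁻¹ (σ x) = x := by rw [← AlgEquiv.mul_apply, inv_mul_cancel]; rfl
      rwa [hx] at h9
    exact ⟨by rw [map_inv, h1, inv_one], by rw [map_inv, h2, inv_one], h _ h3, h _ h4,
      h' _ h5, h' _ h6⟩

private theorem a22_normal (hA : SaAct F j) (ρ ρ' : Gam →* SD) {l : K} {t t' : Om}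
    (ht : t ^ 2 = j l) (ht' : t' ^ 2 = j (F.cj l)) : (a22_U ρ ρ' t t').Normal := by
  constructor
  rintro n ⟨h1, h2, h3, h4, h5, h6⟩ g
  have hc : ∀ q : ℚ, chi q n = 0 → chi q (g * n * g⁻¹) = 0 := by
    intro q hq
    have e1 := Pool.Agent.H98.MK.chi_hom q (g * n) g⁻¹
    have e2 := Pool.Agent.H98.MK.chi_hom q g n
    have e3 := Pool.Agent.H98.MK.chi_hom q g g⁻¹
    have e4 := Pool.Agent.H98.MK.chi_hom q (1 : Gam) 1
    rw [one_mul] at e4
    have e5 : chi q (1 : Gam) = 0 := by simpa using e4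
    rw [mul_inv_cancel, e5] at e3
    rw [e1, e2, hq, add_zero, ← e3]
  have hn : ∀ x : Om, n (g⁻¹ x) = g⁻¹ x → (g * n * g⁻¹) x = x := by
    intro x hx
    rw [AlgEquiv.mul_apply, AlgEquiv.mul_apply, hx, ← AlgEquiv.mul_apply, mul_inv_cancel]
    rfl
  have hact := a22_act F j hA ht ht' g⁻¹
  refine ⟨?_, ?_, hc _ h3, hc _ h4, hn _ ?_, hn _ ?_⟩
  · rw [map_mul, map_mul, h1, mul_one, map_inv, mul_inv_cancel]
  · rw [map_mul, map_mul, h2, mul_one, map_inv, mul_inv_cancel]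
  · rcases a22_z (chi (F.d : ℚ) g⁻¹) with h | h
    · rcases (hact.1 h).1 with e | e <;> rw [e]
      · exact h5
      · rw [map_neg, h5]
    · rcases (hact.2 h).1 with e | e <;> rw [e]
      · exact h6
      · rw [map_neg, h6]
  · rcases a22_z (chi (F.d : ℚ) g⁻¹) with h | h
    · rcases (hact.1 h).2 with e | e <;> rw [e]
      · exact h6
      · rw [map_neg, h6]
    · rcases (hact.2 h).2 with e | e <;> rw [e]
      · exact h5
      · rw [map_neg, h5]

private theorem a22_isOpen (ρ ρ' : Gam →* SD) (hρ : IsLocallyConstant ρ)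
    (hρ' : IsLocallyConstant ρ') (t t' : Om) : IsOpen (a22_U ρ ρ' t t' : Set Gam) := by
  have h1 : IsOpen {σ : Gam | ρ σ = 1} := hρ {1}
  have h2 : IsOpen {σ : Gam | ρ' σ = 1} := hρ' {1}
  have h3 : IsOpen {σ : Gam | chi (-1) σ = 0} := Pool.Agent.H98.MK.chi_lc (-1) {0}
  have h4 : IsOpen {σ : Gam | chi 2 σ = 0} := Pool.Agent.H98.MK.chi_lc 2 {0}
  exact h1.inter (h2.inter (h3.inter (h4.inter ((a22_open t).inter (a22_open t')))))

/-- the choice of the sign -/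
private theorem a22_sign {A : Set Om} {t : Om} (h : t ∈ A ∨ -t ∈ A) :
    ∃ u : Om, u ∈ A ∧ (u = t ∨ u = -t) := by
  rcases h with h | h
  · exact ⟨t, h, Or.inl rfl⟩
  · exact ⟨-t, h, Or.inr rfl⟩

theorem saMu (hT : SaTwo) (hA : SaAct F j) (h3 : SaFTwo F j) (hS : SaTwS) (hAA : SaA F j) :
    SaMu F j := by
  intro b l z ρ ρ' hb hl hz hcong hρ hρ' hC hC' c
  obtain ⟨t0, ht0⟩ := IsAlgClosed.exists_pow_nat_eq (j l) (n := 2) two_pos
  obtain ⟨t0', ht0'⟩ := IsAlgClosed.exists_pow_nat_eq (j (F.cj l)) (n := 2) two_pos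
  have hN : (a22_U ρ ρ' t0 t0').Normal := a22_normal F j hA ρ ρ' ht0 ht0'
  obtain ⟨I, Dc, hUI, hID, hcmp, -, hhom, A, hA1, hA2, hA3⟩ :=
    hT (a22_U ρ ρ' t0 t0') (a22_isOpen ρ ρ' hC.lc hC'.lc t0 t0')
      (fun σ hσ => hσ.2.2.1) (fun σ hσ => hσ.2.2.2.1)
  obtain ⟨s, y, hs, hy, hsy⟩ := a22_int l hcong
  -- signs
  obtain ⟨t, htA, htt⟩ := a22_sign (hA3 t0 (fun σ hσ => hσ.2.2.2.2.1)
    ⟨s, j y, hs, hy.map (j.toIntAlgHom), by
      rw [ht0]
      have := congrArg j hsy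
      rw [map_mul, map_mul, map_sub, map_one, map_natCast, map_ofNat] at this
      exact this⟩)
  obtain ⟨t', htA', htt'⟩ := a22_sign (hA3 t0' (fun σ hσ => hσ.2.2.2.2.2)
    ⟨s, j (F.cj y), hs, (hy.map (F.cj : K →+* K).toIntAlgHom).map (j.toIntAlgHom), by
      rw [ht0']
      have h8 : F.cj ((s : K) * (l - 1)) = F.cj (8 * y) := congrArg F.cj hsy
      rw [map_mul, map_mul, map_sub, map_one, map_natCast, map_ofNat] at h8
      have := congrArg j h8
      rw [map_mul, map_mul, map_sub, map_one, map_natCast, map_ofNat] at this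
      exact this⟩)
  have ht : t ^ 2 = j l := by
    rcases htt with rfl | rfl
    · exact ht0
    · rw [neg_sq, ht0]
  have ht' : t' ^ 2 = j (F.cj l) := by
    rcases htt' with rfl | rfl
    · exact ht0'
    · rw [neg_sq, ht0']
  -- the action of the decomposition group
  have hD0 : ∀ σ ∈ Dc, chi (F.d : ℚ) σ = 0 → σ t = t ∧ σ t' = t' := by
    intro σ hσ h
    have h1 := (a22_act F j hA ht ht' σ).1 h
    refine ⟨h1.1.resolve_right fun e => ?_, h1.2.resolve_right fun e => ?_⟩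
    · exact hA2 t htA (e ▸ hA1 σ hσ t htA)
    · exact hA2 t' htA' (e ▸ hA1 σ hσ t' htA')
  have hD1 : ∀ σ ∈ Dc, chi (F.d : ℚ) σ = 1 → σ t = t' ∧ σ t' = t := by
    intro σ hσ h
    have h1 := (a22_act F j hA ht ht' σ).2 h
    refine ⟨h1.1.resolve_right fun e => ?_, h1.2.resolve_right fun e => ?_⟩
    · exact hA2 t' htA' (e ▸ hA1 σ hσ t htA)
    · exact hA2 t htA (e ▸ hA1 σ hσ t' htA')
  have hNl : ∀ σ ∈ Dc, chi (nmK l) σ = 0 := by
    intro σ hσ
    have h1 : (t * t') ^ 2 = ((nmK l : ℚ) : Om) := by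
      rw [mul_pow, ht, ht', ← map_mul, ← F.nm_eq, map_ratCast]
    rw [Pool.Agent.H98.MK.chi_eq_zero_iff' _ _ h1, map_mul]
    rcases a22_z (chi (F.d : ℚ) σ) with h | h
    · rw [(hD0 σ hσ h).1, (hD0 σ hσ h).2]
    · rw [(hD1 σ hσ h).1, (hD1 σ hσ h).2, mul_comm]
  -- the quadratic function
  obtain ⟨r, r', hr, hr', hr0, hr1⟩ := hC.pf
  have hne : l * b * z ^ 2 ≠ 0 := mul_ne_zero (mul_ne_zero hl hb) (pow_ne_zero 2 hz)
  classical
  let e : Gam → ZMod 2 := fun σ =>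
    if (chi (F.d : ℚ) σ = 0 ∧ σ t = t) ∨ (chi (F.d : ℚ) σ = 1 ∧ σ t = t') then 0 else 1
  have he0 : ∀ σ, chi (F.d : ℚ) σ = 0 → σ t = sg (e σ) * t := by
    intro σ h
    by_cases h1 : σ t = t
    · have : e σ = 0 := if_pos (Or.inl ⟨h, h1⟩)
      rw [this, h1]
      simp [sg]
    · have h2 : e σ = 1 := if_neg (by
        rintro (h2 | h2)
        · exact h1 h2.2
        · rw [h] at h2
          exact zero_ne_one h2.1)
      have h3 := ((a22_act F j hA ht ht' σ).1 h).1.resolve_left h1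
      rw [h2, h3]
      simp [sg]
  have he1 : ∀ σ, chi (F.d : ℚ) σ = 1 → σ t = sg (e σ) * t' := by
    intro σ h
    by_cases h1 : σ t = t'
    · have : e σ = 0 := if_pos (Or.inr ⟨h, h1⟩)
      rw [this, h1]
      simp [sg]
    · have h2 : e σ = 1 := if_neg (by
        rintro (h2 | h2)
        · rw [h] at h2
          exact one_ne_zero h2.1
        · exact h1 h2.2)
      have h3 := ((a22_act F j hA ht ht' σ).2 h).1.resolve_left h1
      rw [h2, h3]
      simp [sg]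
  have heD : ∀ σ ∈ Dc, e σ = 0 := by
    intro σ hσ
    apply if_pos
    rcases a22_z (chi (F.d : ℚ) σ) with h | h
    · exact Or.inl ⟨h, (hD0 σ hσ h).1⟩
    · exact Or.inr ⟨h, (hD1 σ hσ h).1⟩
  have hIs : IsF F j (l * b * z ^ 2) (fun σ => (ρ σ).pf + e σ) := by
    refine ⟨t * r * j z, t' * r' * j (F.cj z), ?_, ?_, ?_, ?_⟩
    · rw [mul_pow, mul_pow, ht, hr, map_mul, map_mul, map_pow]
    · rw [mul_pow, mul_pow, ht', hr', map_mul, map_mul, map_pow, map_mul, map_mul, map_pow]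
    · intro σ h
      rw [map_mul, map_mul, he0 σ h, hr0 σ h, (hA σ z).1 h, a22_sg_add]
      ring
    · intro σ h
      rw [map_mul, map_mul, he1 σ h, hr1 σ h, (hA σ z).2 h, a22_sg_add]
      ring
  have hcase := (h3 (l * b * z ^ 2) _ _ hne hIs).1 hC'.pf
  -- the conjugating element
  obtain ⟨g, hg, hpf⟩ : ∃ g : SD, (g = 1 ∨ g = SD.ss) ∧ ∀ σ ∈ Dc,
      (ρ' σ).pf = (ρ σ).pf + if g = 1 then 0 else (ρ σ).pd := by
    rcases hcase with h | h
    · refine ⟨1, Or.inl rfl, fun σ hσ => ?_⟩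
      have h1 : (ρ' σ).pf = (ρ σ).pf + e σ := congrFun h σ
      rw [h1, heD σ hσ, if_pos rfl]
    · refine ⟨SD.ss, Or.inr rfl, fun σ hσ => ?_⟩
      have h1 : (ρ' σ).pf = (ρ σ).pf + e σ + chi (F.d : ℚ) σ := congrFun h σ
      rw [h1, heD σ hσ, if_neg (by decide), add_zero, hC.pd]
  have ha : ∀ σ ∈ Dc, (ρ σ).a = (ρ' σ).a := by
    intro σ hσ
    rw [hAA b ρ hb hC σ, hAA _ ρ' hne hC' σ, nm_mul, nm_mul,
      Pool.Agent.H98.MK.chi_mul _ _ (mul_ne_zero (nm_ne hl) (nm_ne hb))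
        (nm_ne (pow_ne_zero 2 hz)),
      Pool.Agent.H98.MK.chi_mul _ _ (nm_ne hl) (nm_ne hb), hNl σ hσ, pow_two, nm_mul,
      ← pow_two, Pool.Agent.H98.MK.chi_sq, zero_add, add_zero]
  have hpd : ∀ σ, (ρ σ).pd = (ρ' σ).pd := fun σ => by rw [hC.pd, hC'.pd]
  have hmain : ∀ σ ∈ Dc, ρ' σ = g * ρ σ * g⁻¹ *
      SD.zz ((g * ρ σ * g⁻¹).ph + (ρ' σ).ph) := fun σ hσ =>
    a22_conj g hg (ρ σ) (ρ' σ) (ha σ hσ) (hpd σ) (hpf σ hσ)
  obtain ⟨x, y', hxy⟩ := hhom (fun σ => (g * ρ σ * g⁻¹).ph + (ρ' σ).ph) (by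
    intro σ hσ τ hτ
    apply a22_add (g * ρ σ * g⁻¹) (g * ρ τ * g⁻¹)
    have h5 : ρ' (σ * τ) = ρ' σ * ρ' τ := map_mul _ _ _
    have h6 : g * ρ (σ * τ) * g⁻¹ = (g * ρ σ * g⁻¹) * (g * ρ τ * g⁻¹) := by
      rw [map_mul]
      group
    rw [← hmain σ hσ, ← hmain τ hτ, ← h5, ← h6, ← hmain (σ * τ) (Dc.mul_mem hσ hτ)]) (by
    intro σ hσ
    have h1 : ρ σ = 1 := hσ.1
    have h2 : ρ' σ = 1 := hσ.2.1
    simp only [h1, h2, mul_one, mul_inv_cancel]
    decide)
  have hkey : ∀ u1 u2 : ZMod 2,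
      (dsc (tw ρ (z12 (u1 + x) (u2 + y')))).factorization 2 =
        (dsc (tw ρ' (z12 u1 u2))).factorization 2 := by
    intro u1 u2
    refine hcmp SD _ _ SD.H0 g ?_ ?_ ((hS ρ hρ).1 _).1 ((hS ρ' hρ').1 _).1 ?_
    · intro σ hσ
      rw [MonoidHom.mem_ker, tw_apply, hσ.1, a22_par, hσ.2.2.1, hσ.2.2.2.1, mul_zero, mul_zero,
        add_zero]
      decide
    · intro σ hσ
      rw [MonoidHom.mem_ker, tw_apply, hσ.2.1, a22_par, hσ.2.2.1, hσ.2.2.2.1, mul_zero, mul_zero,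
        add_zero]
      decide
    · intro σ hσ
      have h1 : (g * ρ σ * g⁻¹).ph + (ρ' σ).ph = x * chi (-1) σ + y' * chi 2 σ := hxy σ hσ
      have h2 := hmain σ (hID hσ)
      rw [h1] at h2
      rw [tw_apply, tw_apply, h2, a22_par, a22_par, a22_fin, mul_assoc, ← SD.zz_add]
      congr 2
      ring
  unfold muc
  refine Set.ncard_congr (fun u _ => (u.1 + x, u.2 + y')) ?_ ?_ ?_
  · intro u hu
    show (dsc (tw ρ' (z12 (u.1 + x) (u.2 + y')))).factorization 2 = c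
    rw [← hkey, add_assoc, add_assoc, z2, z2, add_zero, add_zero]
    exact hu
  · intro u v _ _ huv
    have h1 : u.1 + x = v.1 + x := congrArg Prod.fst huv
    have h2 : u.2 + y' = v.2 + y' := congrArg Prod.snd huv
    exact Prod.ext (add_right_cancel h1) (add_right_cancel h2)
  · intro v hv
    refine ⟨(v.1 + x, v.2 + y'), ?_, ?_⟩
    · show (dsc (tw ρ (z12 (v.1 + x) (v.2 + y')))).factorization 2 = c
      rw [hkey]
      exact hv
    · show (v.1 + x + x, v.2 + y' + y') = v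
      rw [add_assoc, add_assoc, z2, z2, add_zero, add_zero]

end

end Pool.Agent.H32.MA
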