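import Pool.Agent.H32.MA.AStm

/-!
# Project MA9 (MP_a9b340), block A, row A19: normalised lifts
-/

set_option autoImplicit false

open scoped BigOperators
open NumberField IsDedekindDomain

namespace Pool.Agent.H32.MA

open Pool.Agent.H98.MK (Om Gam dabs fld chi dd adm par lg par_hom par_lc z12)
open Pool.Agent.H98.MF (ord)
open Pool.Agent.H98.ML (hind norb tau IsTau)

theorem saNor {K : Type} [Field K] [NumberField K] (F : QF K) (j : K →+* Om) (hT : SaTyp F j)
    (hR : SaFinR) (hTw : SaTwT) : SaNor F j := by
  classical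
  intro b ρ hb hρ
  have hfin := hR ρ hρ.lc
  set g : ℕ → ZMod 2 := fun p =>
    if p.Prime ∧ p ≠ 2 ∧ ρ (tau p) ≠ 1 ∧ TyA F p b then 1 else 0 with hg
  refine ⟨Finsupp.onFinset hfin.toFinset g ?_, ?_, ?_⟩
  · intro p hp
    rw [Set.Finite.mem_toFinset]
    by_contra hc
    apply hp
    rw [hg]
    refine if_neg fun h => hc ⟨h.1, h.2.1, h.2.2.1⟩
  · intro p hp
    right
    rw [Finsupp.onFinset_apply] at hp
    by_contra hc
    apply hp
    rw [hg]
    exact if_neg fun h => hc h.1
  · intro p hp hp2 hA
    have hadm : adm (Finsupp.onFinset hfin.toFinset g (by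
        intro p hp
        rw [Set.Finite.mem_toFinset]
        by_contra hc
        apply hp
        rw [hg]
        refine if_neg fun h => hc ⟨h.1, h.2.1, h.2.2.1⟩)) := by
      intro p hp
      right
      rw [Finsupp.onFinset_apply] at hp
      by_contra hc
      apply hp
      rw [hg]
      exact if_neg fun h => hc h.1
    rw [hTw ρ _ hadm p hp hp2, Finsupp.onFinset_apply]
    by_cases h1 : ρ (tau p) = 1
    · have h2 : g p = 0 := by
        rw [hg]
        exact if_neg fun h => h.2.2.1 h1
      rw [h1, h2, one_mul]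
      exact (SD.one_iff _).mp rfl
    · have h2 : g p = 1 := by
        rw [hg]
        exact if_pos ⟨hp, hp2, h1, hA⟩
      have h3 := ((hT b ρ hb hρ p hp hp2).1 hA).resolve_left h1
      rw [h3, h2]
      decide

end Pool.Agent.H32.MA
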