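import Pool.Agent.H32.MA.AStm

/-!
# Project MA9 (MP_a9b340): A33, the product over the good set and the sum over the pairs
-/

set_option autoImplicit false

open scoped BigOperators
open NumberField IsDedekindDomain

namespace Pool.Agent.H32.MA

section

variable {K : Type} [Field K] [NumberField K]

theorem a33_chP_sq (P : HeightOneSpectrum (𝓞 K)) (γ : K) : chP P γ * chP P γ = 1 := by
  unfold chP
  split_ifs <;> norm_num

theorem a33_chS_sq (S : Finset (HeightOneSpectrum (𝓞 K))) (γ : K) : chS S γ * chS S γ = 1 := by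
  unfold chS
  rw [← Finset.prod_mul_distrib]
  exact Finset.prod_eq_one fun P _ => a33_chP_sq P γ

open Classical in
theorem a33_chS_sdiff {S e : Finset (HeightOneSpectrum (𝓞 K))} (h : e ⊆ S) (γ : K) :
    chS (S \ e) γ = chS S γ * chS e γ := by
  have h1 : chS (S \ e) γ * chS e γ = chS S γ := Finset.prod_sdiff h
  rw [← h1, mul_assoc, a33_chS_sq, mul_one]

theorem a33_dvd {m : ℕ} {S e f : Finset (HeightOneSpectrum (𝓞 K))} (hS : Good m S) (he : e ⊆ S)
    (hf : f ⊆ S) (h : nS e = nS f) (P : HeightOneSpectrum (𝓞 K)) (hP : P ∈ e) : P ∈ f := by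
  have h1 : nP P ∣ nS f := by
    rw [← h]
    exact Finset.dvd_prod_of_mem nP hP
  have hp : (nP P).Prime := (hS.1 P (he hP)).1
  obtain ⟨Q, hQ, h2⟩ := (hp.prime.dvd_finset_prod_iff nP).1 h1
  have hq : (nP Q).Prime := (hS.1 Q (hf hQ)).1
  have h3 : nP P = nP Q := (Nat.prime_dvd_prime_iff_eq hp hq).1 h2
  have h4 : P = Q := hS.2 (Finset.mem_coe.2 (he hP)) (Finset.mem_coe.2 (hf hQ)) h3
  rw [h4]
  exact hQ

open Classical in
theorem a33_ne {m : ℕ} {S e : Finset (HeightOneSpectrum (𝓞 K))} (hS : Good m S) (he : e ⊆ S)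
    (hne : S.Nonempty) : nS e ≠ nS (S \ e) := by
  intro h
  obtain ⟨P, hP⟩ := hne
  by_cases hPe : P ∈ e
  · have := a33_dvd hS he Finset.sdiff_subset h P hPe
    exact (Finset.mem_sdiff.1 this).2 hPe
  · have h1 : P ∈ S \ e := Finset.mem_sdiff.2 ⟨hP, hPe⟩
    exact hPe (a33_dvd hS Finset.sdiff_subset he h.symm P h1)

open Classical in
theorem a33_swap (S : Finset (HeightOneSpectrum (𝓞 K)))
    (f : Finset (HeightOneSpectrum (𝓞 K)) → ℝ) :
    ∑ e ∈ S.powerset, f e = ∑ e ∈ S.powerset, f (S \ e) := by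
  refine Finset.sum_bij' (fun e _ => S \ e) (fun e _ => S \ e) ?_ ?_ ?_ ?_ ?_
  · intro e _
    exact Finset.mem_powerset.2 Finset.sdiff_subset
  · intro e _
    exact Finset.mem_powerset.2 Finset.sdiff_subset
  · intro e he
    exact Finset.sdiff_sdiff_eq_self (Finset.mem_powerset.1 he)
  · intro e he
    exact Finset.sdiff_sdiff_eq_self (Finset.mem_powerset.1 he)
  · intro e he
    rw [Finset.sdiff_sdiff_eq_self (Finset.mem_powerset.1 he)]

end

theorem saPair (K : Type) [Field K] [NumberField K] : SaPair K := by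
  classical
  intro m S γ hS hne
  have h1 : ∏ P ∈ S, (1 + (chP P γ : ℝ)) = ∑ e ∈ S.powerset, (chS e γ : ℝ) := by
    rw [Finset.prod_one_add]
    refine Finset.sum_congr rfl fun e _ => ?_
    unfold chS
    push_cast
    rfl
  have h2 : ∑ e ∈ S.powerset, (chS e γ : ℝ) =
      ∑ e ∈ S.powerset, (if nS e < nS (S \ e) then (chS e γ : ℝ) else 0) +
      ∑ e ∈ S.powerset, (if nS (S \ e) < nS e then (chS e γ : ℝ) else 0) := by
    rw [← Finset.sum_add_distrib]
    refine Finset.sum_congr rfl fun e he => ?_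
    rcases lt_or_gt_of_ne (a33_ne hS (Finset.mem_powerset.1 he) hne) with h | h
    · rw [if_pos h, if_neg (not_lt.2 h.le), add_zero]
    · rw [if_neg (not_lt.2 (le_of_lt h)), if_pos h, zero_add]
  have h3 : ∑ e ∈ S.powerset, (if nS (S \ e) < nS e then (chS e γ : ℝ) else 0) =
      ∑ e ∈ S.powerset, (if nS e < nS (S \ e) then (chS S γ : ℝ) * (chS e γ : ℝ) else 0) := by
    rw [a33_swap]
    refine Finset.sum_congr rfl fun e he => ?_
    have hes := Finset.mem_powerset.1 he
    rw [Finset.sdiff_sdiff_eq_self hes, a33_chS_sdiff hes]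
    push_cast
    rfl
  rw [h1, h2, h3, ← Finset.sum_add_distrib]
  refine Finset.sum_congr rfl fun e _ => ?_
  by_cases h : nS e < nS (S \ e)
  · simp only [if_pos h]
    ring
  · simp only [if_neg h, add_zero]

end Pool.Agent.H32.MA
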