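import Pool.Agent.H32.MA.AStm

/-!
# Project MA9 (MP_a9b340), block A, row A32: positivity (helper33)
-/

set_option autoImplicit false

open scoped BigOperators
open NumberField IsDedekindDomain

namespace Pool.Agent.H32.MA

open Pool.Agent.H98.MK (Om Gam dabs fld chi dd adm par lg par_hom par_lc z12)
open Pool.Agent.H98.MF (ord)
open Pool.Agent.H98.ML (hind norb tau IsTau)

private theorem a32_tw (ρ : Gam →* SD) : tw ρ (z12 (0 : ZMod 2) 0) = ρ := by
  have h0 : z12 (0 : ZMod 2) 0 = 0 := by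
    unfold z12
    rw [Finsupp.single_zero, Finsupp.single_zero, add_zero]
  have h2 : SD.zz 0 = 1 := by decide
  refine MonoidHom.ext fun σ => ?_
  have h1 : par (0 : ℕ →₀ ZMod 2) σ = 0 := by
    unfold par
    exact Finsupp.sum_zero_index
  rw [tw_apply, h0, h1, h2, mul_one]

theorem saPos {K : Type} [Field K] [NumberField K] (F : QF K) (j : K →+* Om)
    (hG : SaGood F j) (hK : SaKum F j) (hC : SaCrit F j) (hM : SaMh F j) (hH : SaHasO F j) :
    SaPos F j := by
  classical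
  intro o ho hd hex
  obtain ⟨ρ, hρ, hO⟩ := hex
  have hm0 : o.m ≠ 0 := by
    have h1 : o.d ≠ 0 := ho.sqd.ne_zero
    have h2 : o.t ≠ 0 := fun h0 => ho.sqt.ne_zero (by rw [h0, mul_zero])
    have h3 : o.w ≠ 0 := fun h0 => ho.sqw.ne_zero (by rw [h0, mul_zero])
    unfold Out.m
    positivity
  have h8 : 8 ∣ o.m := by
    unfold Out.m
    exact ⟨o.d * o.t * o.w, by ring⟩
  have h01 : ∀ x : ZMod 2, x = 0 ∨ x = 1 := by decide
  have hpd : ∀ σ, (ρ σ).pd = chi (F.d : ℚ) σ := by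
    intro σ
    have h1 := hO.d σ
    rw [hd] at h1
    unfold SD.pd
    split_ifs with h2
    · exact (h1.1 h2).symm
    · rcases h01 (chi (F.d : ℚ) σ) with h3 | h3
      · exact h3.symm
      · exact absurd (h1.2 h3) h2
  obtain ⟨b, hb, hcl⟩ := hK ρ hρ.2 hpd
  obtain ⟨S, hgood, hin, -⟩ := hG o b ρ ho hd hb hρ hcl hO
  have hcrit := (hC b (fun σ => (ρ σ).pf) hb hcl.pf).1 ⟨ρ, hcl, fun σ => rfl⟩
  have hOT := (hH o b ρ ho hd hb hρ hcl).1 hO
  -- the spin
  have hspn : spn F o.m b = 1 := by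
    unfold spn
    have h1 : ∀ p : {p : ℕ // p.Prime ∧ p ≠ 2 ∧ ¬ p ∣ o.m},
        (if Th F (p : ℕ) b = 0 then (1 : ℤ) else -1) = 1 := by
      intro p
      rw [if_pos (hcrit.1 p p.2.1 p.2.2.1)]
    rw [finprod_congr h1, finprod_one]
  -- the local count
  have hmh : mh F j o.m o.c b = muc ρ o.c := by
    refine hM o.m o.c b 1 1 ρ hm0 h8 hb one_ne_zero one_ne_zero ?_ ?_ hρ ?_
    · intro P _
      exact Or.inl rfl
    · intro φ
      rw [map_one]
      exact one_pos
    · rw [one_mul, one_pow, mul_one]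
      exact hcl
  have hmuc : 1 ≤ muc ρ o.c := by
    unfold muc
    have hne : ({u : ZMod 2 × ZMod 2 |
        (dsc (tw ρ (z12 u.1 u.2))).factorization 2 = o.c}).Nonempty := by
      refine ⟨(0, 0), ?_⟩
      show (dsc (tw ρ (z12 (0 : ZMod 2) 0))).factorization 2 = o.c
      rw [a32_tw]
      exact hO.c
    exact (Set.ncard_pos (Set.toFinite _)).2 hne
  refine ⟨b, S, hb, ?_, hgood, ?_⟩
  · unfold Psi Phi
    rw [hspn, if_pos ⟨hcrit.2, fun p hp hp2 _ => ⟨hcrit.1 p hp hp2, hOT.1 p hp hp2⟩⟩, hmh]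
    have h1 : (0 : ℝ) < (muc ρ o.c : ℝ) := by exact_mod_cast hmuc
    push_cast
    positivity
  · intro P hP
    have h1 := hin P hP
    constructor
    · intro h2
      rw [h1, if_pos h2]
    · intro h2
      rw [h1, if_neg h2]

end Pool.Agent.H32.MA
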