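import Pool.Agent.H32.MA.AStm

/-!
# Project MA9 (MP_a9b340), row A5: existence of the real quadratic field
-/

set_option autoImplicit false

open scoped BigOperators
open NumberField IsDedekindDomain Polynomial

namespace Pool.Agent.H32.MA

open Pool.Agent.H98.MK (Om Gam)

theorem a5_not_sq {d : ℕ} (hd : Squarefree d) (h1 : 1 < d) : ¬ IsSquare (d : ℚ) := by
  intro h
  rw [Rat.isSquare_natCast_iff] at h
  obtain ⟨r, hr⟩ := h
  have h2 : IsUnit r := hd r ⟨1, by rw [mul_one]; exact hr⟩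
  rw [Nat.isUnit_iff] at h2
  subst h2
  omega

/-- A5. -/
theorem saQF : SaQF := by
  intro d hd h1
  have hns : ¬ IsSquare (d : ℚ) := a5_not_sq hd h1
  have hirr : Irreducible (X ^ 2 - C (d : ℚ)) := by
    apply X_pow_sub_C_irreducible_of_prime Nat.prime_two
    intro b hb
    exact hns ⟨b, by rw [← hb, pow_two]⟩
  have : Fact (Irreducible (X ^ 2 - C (d : ℚ))) := ⟨hirr⟩
  let K := AdjoinRoot (X ^ 2 - C (d : ℚ))
  have hne : (X ^ 2 - C (d : ℚ)) ≠ 0 := hirr.ne_zero
  have hfin : FiniteDimensional ℚ K := PowerBasis.finite (AdjoinRoot.powerBasis hne)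
  have hnf : NumberField K := { to_charZero := inferInstance, to_finiteDimensional := hfin }
  have hrank : Module.finrank ℚ K = 2 := by
    rw [(AdjoinRoot.powerBasis hne).finrank, AdjoinRoot.powerBasis_dim]
    exact natDegree_X_pow_sub_C
  let s : K := AdjoinRoot.root (X ^ 2 - C (d : ℚ))
  have hs : s ^ 2 = algebraMap ℚ K (d : ℚ) := by
    have h := AdjoinRoot.eval₂_root (X ^ 2 - C (d : ℚ))
    rw [eval₂_sub, eval₂_pow, eval₂_X, eval₂_C, sub_eq_zero] at h
    exact h
  obtain ⟨σ, hσ, -, -⟩ := Pool.Agent.H98.MF.qx_conj hs hns hrank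
  let e : K →ₐ[ℚ] Om := IsAlgClosed.lift
  refine ⟨K, inferInstance, hnf, ⟨d, s, σ, hd, h1, ?_, hσ, hrank⟩, e.toRingHom, rfl⟩
  rw [hs]
  simp

end Pool.Agent.H32.MA
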