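import Pool.Agent.H32.MA.AStm

/-!
# Project MA9 (MP_a9b340), block A, row A13: last coordinate and surjectivity (helper63)
-/

set_option autoImplicit false

open scoped BigOperators
open NumberField IsDedekindDomain

namespace Pool.Agent.H32.MA

open Pool.Agent.H98.MK (Om Gam chi)

private theorem a13_ne_sq {K : Type} [Field K] [NumberField K] (F : QF K) :
    ∃ τ : Gam, chi (F.d : ℚ) τ = 1 := by
  by_contra h
  push Not at h
  have h1 : ∀ σ : Gam, chi (F.d : ℚ) σ = 0 := by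
    intro σ
    have h2 := h σ
    generalize chi (F.d : ℚ) σ = x at h2
    revert x
    decide
  obtain ⟨r, hr⟩ := Pool.Agent.H98.MK.chi_isSquare _ h1
  exact F.not_sq r (by rw [hr]; ring)

theorem saA {K : Type} [Field K] [NumberField K] (F : QF K) (j : K →+* Om) (hCo : SaFCo F j) :
    SaA F j := by
  intro b ρ hb hρ σ
  obtain ⟨τ, hτ⟩ := a13_ne_sq F
  have h1 := (hCo b _ hb hρ.pf).2 σ τ
  rw [map_mul, SD.pf_mul, hρ.pd, hρ.pd, hτ, mul_one, mul_one] at h1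
  have h2 : (ρ σ).a + chi (F.d : ℚ) σ = chi (nmK b) σ := add_left_cancel h1
  rw [← h2]
  generalize (ρ σ).a = x
  generalize chi (F.d : ℚ) σ = y
  revert x y
  decide

/-- the character of a square is trivial -/
private theorem a13_sq {q : ℚ} (h : IsSquare q) (σ : Gam) : chi q σ = 0 := by
  obtain ⟨r, rfl⟩ := h
  rw [Pool.Agent.H98.MK.chi_eq_zero_iff' (r * r) (r : Om) (by push_cast; ring)]
  exact map_ratCast σ r

private theorem a13_nsq {q : ℚ} (h : ¬ IsSquare q) : ∃ σ : Gam, chi q σ = 1 := by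
  by_contra h2
  push Not at h2
  apply h
  apply Pool.Agent.H98.MK.chi_isSquare
  intro σ
  have h3 := h2 σ
  generalize chi q σ = x at h3
  revert x
  decide

theorem saSur2 {K : Type} [Field K] [NumberField K] (F : QF K) (j : K →+* Om) (hA : SaA F j)
    (hS : SaSurj) : SaSur2 F j := by
  intro b ρ hb hρ
  have ha := hA b ρ hb hρ
  have hd0 : (F.d : ℚ) ≠ 0 := F.d_ne
  have hn0 : nmK b ≠ 0 := nm_ne hb
  have hmul : ∀ σ : Gam, chi (F.d * nmK b) σ = chi (F.d : ℚ) σ + chi (nmK b) σ :=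
    Pool.Agent.H98.MK.chi_mul _ _ hd0 hn0
  have hhom : ∀ (q : ℚ) (σ τ : Gam), chi q (σ * τ) = chi q σ + chi q τ :=
    Pool.Agent.H98.MK.chi_hom
  rw [hS ρ]
  simp only [hρ.pd, ha]
  have z : ∀ x y : ZMod 2, (x = 1 ∧ x + y = 0 ↔ x = 1 ∧ y = 1) ∧
      (x = 0 ∧ x + y = 1 ↔ x = 0 ∧ y = 1) := by decide
  simp only [(z _ _).1, (z _ _).2]
  constructor
  · rintro ⟨⟨σ, h1, h2⟩, ⟨τ, h3, h4⟩⟩
    refine ⟨fun h => ?_, fun h => ?_⟩
    · rw [a13_sq h] at h2
      exact zero_ne_one h2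
    · have h5 := hmul τ
      rw [a13_sq h, h3, h4] at h5
      exact absurd h5 (by decide)
  · rintro ⟨h1, h2⟩
    obtain ⟨σ1, hσ1⟩ := a13_nsq h1
    obtain ⟨σ2, hσ2⟩ := a13_nsq h2
    obtain ⟨σ3, hσ3⟩ := a13_ne_sq F
    rw [hmul] at hσ2
    have dich : ∀ x : ZMod 2, x = 0 ∨ x = 1 := by decide
    rcases dich (chi (F.d : ℚ) σ1) with h3 | h3
    · refine ⟨?_, σ1, h3, hσ1⟩
      rcases dich (chi (nmK b) σ3) with h4 | h4
      · exact ⟨σ1 * σ3, by rw [hhom, h3, hσ3]; rfl, by rw [hhom, hσ1, h4]; rfl⟩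
      · exact ⟨σ3, hσ3, h4⟩
    · refine ⟨⟨σ1, h3, hσ1⟩, ?_⟩
      rcases dich (chi (F.d : ℚ) σ2) with h4 | h4
      · rw [h4, zero_add] at hσ2
        exact ⟨σ2, h4, hσ2⟩
      · have h5 : chi (nmK b) σ2 = 0 := by
          rw [h4] at hσ2
          generalize chi (nmK b) σ2 = x at hσ2
          revert x
          decide
        exact ⟨σ1 * σ2, by rw [hhom, h3, h4]; rfl, by rw [hhom, hσ1, h5]; rfl⟩

end Pool.Agent.H32.MA
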