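import Pool.Agent.H32.MA.AStm

/-!
# Project MA9 (MP_a9b340), row A2: surjectivity onto the semidihedral group (helper8)
-/

set_option autoImplicit false

namespace Pool.Agent.H32.MA

open Pool.Agent.H98.MK (Gam)

/-- powers of a translation -/
private theorem a2_pow (g : SD) (hg : g.a = 0) (i : ℕ) : g ^ i = ⟨(i : ZMod 8) * g.b, 0⟩ := by
  induction i with
  | zero =>
    rw [pow_zero]
    apply SD.ext
    · simp
    · rfl
  | succ i ih =>
    rw [pow_succ, ih]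
    apply SD.ext
    · show (i : ZMod 8) * g.b + pw 0 * g.b = ((i + 1 : ℕ) : ZMod 8) * g.b
      have h : pw 0 = 1 := by decide
      rw [h]; push_cast; ring
    · show (0 : ZMod 2) + g.a = 0
      rw [hg]; rfl

private theorem a2_sq (g : SD) (hg : g.pd = 1) : g.b * g.b = 1 := by
  revert g; decide

private theorem a2_mem (g y : SD) (hg : g.pd = 1) (ha : g.a = 0) (hy : y.a = 0) :
    ∃ i : ℕ, g ^ i = y := by
  refine ⟨(y.b * g.b).val, ?_⟩
  rw [a2_pow g ha]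
  apply SD.ext
  · show (((y.b * g.b).val : ℕ) : ZMod 8) * g.b = y.b
    rw [ZMod.natCast_zmod_val, mul_assoc, a2_sq g hg, mul_one]
  · exact hy.symm

theorem saSurj : SaSurj := by
  intro ρ
  constructor
  · intro h
    constructor
    · obtain ⟨σ, hσ⟩ := h ⟨1, 0⟩
      exact ⟨σ, by rw [hσ]; decide, by rw [hσ]⟩
    · obtain ⟨σ, hσ⟩ := h ⟨0, 1⟩
      exact ⟨σ, by rw [hσ]; decide, by rw [hσ]⟩
  · rintro ⟨⟨σ, hσ, hσ'⟩, ⟨τ, hτ, hτ'⟩⟩ x
    rcases (show x.a = 0 ∨ x.a = 1 from by revert x; decide) with hx | hx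
    · obtain ⟨i, hi⟩ := a2_mem (ρ σ) x hσ hσ' hx
      exact ⟨σ ^ i, by rw [map_pow, hi]⟩
    · have h0 : (x * (ρ τ)⁻¹).a = 0 := by
        show x.a + (ρ τ).a = 0
        rw [hx, hτ']; rfl
      obtain ⟨i, hi⟩ := a2_mem (ρ σ) _ hσ hσ' h0
      exact ⟨σ ^ i * τ, by rw [map_mul, map_pow, hi]; group⟩

end Pool.Agent.H32.MA
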