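import Pool.Agent.H32.MA.AStm
import Pool.Agent.H32.MA.FCj
import Pool.Agent.H32.MA.RFinal

/-!
# Project MA9 (MP_a9b340), row A14: exponents and the norm at the unramified primes
-/

set_option autoImplicit false

open scoped BigOperators
open NumberField IsDedekindDomain

namespace Pool.Agent.H32.MA

open Pool.Agent.H98.MF (ord)
open Pool.Agent.H98.MF.B (ord_mul ord_alg_nonneg)

section

variable {K : Type} [Field K] [NumberField K]

/-- a prime above `p` contains `p` -/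
theorem a14_mem {P : HeightOneSpectrum (𝓞 K)} {p : ℕ} (h : 1 ≤ ord P (p : K)) :
    (p : 𝓞 K) ∈ P.asIdeal := by
  apply f_cjP_mem_one
  rw [map_natCast]
  exact h

/-- the conjugate prime lies above the same prime number -/
theorem a14_cj (F : QF K) {P : HeightOneSpectrum (𝓞 K)} {p : ℕ} (h : 1 ≤ ord P (p : K)) :
    1 ≤ ord (f_cjP_P F P) (p : K) := by
  rw [f_cjP_ord, map_natCast]
  exact h

/-- the product of an integer with its conjugate is a rational integer -/
theorem a14_nm (F : QF K) (x : 𝓞 K) : ∃ n : ℤ, x * f_cjP_tau F x = (n : 𝓞 K) := by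
  have h1 : algebraMap (𝓞 K) K (x * f_cjP_tau F x) = ((nmK (algebraMap (𝓞 K) K x) : ℚ) : K) := by
    rw [map_mul, f_cjP_tau_coe, F.nm_eq]
  have h2 : IsIntegral ℤ ((nmK (algebraMap (𝓞 K) K x) : ℚ) : K) := by
    rw [← h1]
    exact RingOfIntegers.isIntegral_coe _
  obtain ⟨n, hn⟩ := f_cjP_rat h2
  refine ⟨n, ?_⟩
  apply FaithfulSMul.algebraMap_injective (𝓞 K) K
  rw [h1, ← hn]
  simp

/-- the primes above `p` are conjugate -/
theorem a14_two (F : QF K) {p : ℕ} (hp : p.Prime) {P Q : HeightOneSpectrum (𝓞 K)}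
    (hP : 1 ≤ ord P (p : K)) (hQ : 1 ≤ ord Q (p : K)) : Q = P ∨ Q = f_cjP_P F P := by
  by_contra hne
  push Not at hne
  obtain ⟨h1, h2⟩ := hne
  have hnot : ¬ ((Q.asIdeal : Set (𝓞 K)) ⊆ P.asIdeal ∪ (f_cjP_P F P).asIdeal) := by
    rw [Ideal.subset_union]
    rintro (h | h)
    · exact h1 (HeightOneSpectrum.ext (Q.isMaximal.eq_of_le P.isPrime.ne_top h))
    · exact h2 (HeightOneSpectrum.ext (Q.isMaximal.eq_of_le (f_cjP_P F P).isPrime.ne_top h))
  obtain ⟨x, hx1, hx2⟩ := Set.not_subset.1 hnot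
  have hx3 : x ∉ P.asIdeal := fun h => hx2 (Or.inl h)
  have hx4 : f_cjP_tau F x ∉ P.asIdeal := fun h => hx2 (Or.inr ((f_cjP_memP F P x).2 h))
  obtain ⟨n, hn⟩ := a14_nm F x
  have h3 : (n : 𝓞 K) ∈ Q.asIdeal := by
    rw [← hn]
    exact Ideal.mul_mem_right _ _ hx1
  rw [f_cjP_int Q hp (a14_mem hQ), ← f_cjP_int P hp (a14_mem hP), ← hn] at h3
  rcases P.isPrime.mem_or_mem h3 with h4 | h4
  · exact hx3 h4
  · exact hx4 h4

/-- two different primes above `p` have norm `p` -/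
theorem a14_norm (F : QF K) {p : ℕ} (hp : p.Prime) {P : HeightOneSpectrum (𝓞 K)}
    (hP : 1 ≤ ord P (p : K)) (hne : f_cjP_P F P ≠ P) : nP P = p := by
  have h1 : P.asIdeal ∣ Ideal.span {(p : 𝓞 K)} := by
    rw [Ideal.dvd_span_singleton]
    exact a14_mem hP
  have h2 : (f_cjP_P F P).asIdeal ∣ Ideal.span {(p : 𝓞 K)} := by
    rw [Ideal.dvd_span_singleton]
    exact a14_mem (a14_cj F hP)
  have h3 : IsCoprime P.asIdeal (f_cjP_P F P).asIdeal := P.isCoprime_of_ne _ fun h => hne h.symm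
  have h4 := map_dvd (Ideal.absNorm (S := 𝓞 K)) (h3.mul_dvd h1 h2)
  have h5 : Ideal.absNorm (Ideal.span {(p : 𝓞 K)}) = p ^ 2 := by
    rw [Ideal.absNorm_span_singleton, Algebra.norm_natCast, RingOfIntegers.rank, F.rank]
    simp
  rw [map_mul, h5] at h4
  have h6 : Ideal.absNorm (f_cjP_P F P).asIdeal = nP P := f_cjP_norm F P
  rw [h6] at h4
  have h7 : nP P ^ 2 ∣ p ^ 2 := by
    rw [pow_two (nP P)]
    exact h4
  have h8 : nP P ∣ p := (Nat.pow_dvd_pow_iff two_ne_zero).1 h7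
  rcases (Nat.dvd_prime hp).1 h8 with h9 | h9
  · exfalso
    exact P.isPrime.ne_top (Ideal.absNorm_eq_one_iff.1 h9)
  · exact h9

theorem saTri (F : QF K) : SaTri F := by
  intro p hp hpd b hb
  have hcb : F.cj b ≠ 0 := F.cj_ne hb
  have hsum : ∀ P : HeightOneSpectrum (𝓞 K), 1 ≤ ord P (p : K) →
      padicValRat p (nmK b) = ord P b + ord P (F.cj b) := by
    intro P hP
    have h1 := R.ordR K p hp P hP (nmK b) (nm_ne hb)
    rw [R.unr F p hp hpd P hP, one_mul, F.nm_eq, ord_mul P hb hcb] at h1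
    exact h1.symm
  have hpar : ∀ P Q : HeightOneSpectrum (𝓞 K), 1 ≤ ord P (p : K) → 1 ≤ ord Q (p : K) →
      Even (padicValRat p (nmK b)) → (Even (ord Q b) ↔ Even (ord P b)) := by
    intro P Q hP hQ hev
    rcases a14_two F hp hP hQ with rfl | rfl
    · rfl
    · rw [f_cjP_ord]
      rw [hsum P hP, Int.even_add] at hev
      exact hev.symm
  refine ⟨hsum, ?_, ?_⟩
  · by_cases hodd : Odd (padicValRat p (nmK b))
    · exact Or.inr (Or.inl ⟨hpd, hodd⟩)
    · rw [Int.not_odd_iff_even] at hodd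
      obtain ⟨P, hP⟩ := R.ovr K p hp
      by_cases he : Even (ord P b)
      · exact Or.inl ⟨hpd, fun Q hQ => (hpar P Q hP hQ hodd).2 he⟩
      · refine Or.inr (Or.inr ⟨hpd, fun Q hQ => ?_⟩)
        rw [← Int.not_even_iff_odd]
        exact fun h => he ((hpar P Q hP hQ hodd).1 h)
  · rintro ⟨-, hodd⟩
    have key : ∀ P : HeightOneSpectrum (𝓞 K), 1 ≤ ord P (p : K) → Odd (ord P b) →
        ∃ P : HeightOneSpectrum (𝓞 K), 1 ≤ ord P (p : K) ∧ nP P = p ∧ Odd (ord P b) ∧
        Even (ord P (F.cj b)) ∧ ∀ P' : HeightOneSpectrum (𝓞 K), 1 ≤ ord P' (p : K) → P' ≠ P →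
        Even (ord P' b) := by
      intro P hP ho
      have h1 := hodd
      rw [hsum P hP, Int.odd_add] at h1
      have he : Even (ord P (F.cj b)) := h1.1 ho
      have hne : f_cjP_P F P ≠ P := by
        intro h
        have h2 := f_cjP_ord F P b
        rw [h] at h2
        rw [← h2] at he
        exact (Int.not_even_iff_odd.2 ho) he
      refine ⟨P, hP, a14_norm F hp hP hne, ho, he, fun Q hQ hQP => ?_⟩
      rcases a14_two F hp hP hQ with h2 | h2
      · exact absurd h2 hQP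
      · rw [h2, f_cjP_ord]
        exact he
    obtain ⟨P, hP⟩ := R.ovr K p hp
    by_cases ho : Odd (ord P b)
    · exact key P hP ho
    · have h1 := hodd
      rw [hsum P hP, Int.odd_add'] at h1
      rw [Int.not_odd_iff_even] at ho
      have h2 : Odd (ord (f_cjP_P F P) b) := by
        rw [f_cjP_ord]
        exact h1.2 ho
      exact key _ (a14_cj F hP) h2

end

end Pool.Agent.H32.MA
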