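import Pool.Agent.H32.MA.AStm
import Pool.Agent.H32.MA.RIp

/-!
# Project MA9 (MP_a9b340), row MA-A15: exponents and norm at the ramified primes (helper64)
-/

set_option autoImplicit false

open scoped BigOperators
open NumberField IsDedekindDomain

namespace Pool.Agent.H32.MA

open Pool.Agent.H98.MF (ord ord_mul ord_pow ord_neg ord_add_eq exists_unif le_ord_iff)

variable {K : Type} [Field K] [NumberField K]

/-- the exponent of `x + y δ` at a ramified prime -/
noncomputable def a15v (p : ℕ) (h : ℤ) (x y : ℚ) : ℤ :=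
  if y = 0 then 2 * h * padicValRat p x else if x = 0 then 2 * h * padicValRat p y + h else
    min (2 * h * padicValRat p x) (2 * h * padicValRat p y + h)

theorem a15v_neg (p : ℕ) (h : ℤ) (x y : ℚ) : a15v p h x (-y) = a15v p h x y := by
  unfold a15v
  simp only [neg_eq_zero, padicValRat.neg]

/-- the exponent of the square root of `d` -/
theorem a15_dl (F : QF K) {p : ℕ} (hp : p.Prime) (hpd : p ∣ F.d) (P : HeightOneSpectrum (𝓞 K))
    (hP : 1 ≤ ord P (p : K)) : ord P (p : K) = 2 * ord P F.dl ∧ 1 ≤ ord P F.dl := by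
  have h1 := st_ordR K p hp P hP F.d F.d_ne
  have h2 : padicValRat p (F.d : ℚ) = 1 := by
    rw [padicValRat.of_nat]
    have h3 : F.d.factorization p = 1 := by
      refine le_antisymm ((Nat.squarefree_iff_factorization_le_one F.d_pos.ne').1 F.sqf p) ?_
      exact (hp.dvd_iff_one_le_factorization F.d_pos.ne').1 hpd
    rw [← Nat.factorization_def F.d hp, h3]
    rfl
  have h4 : ord P ((F.d : ℚ) : K) = 2 * ord P F.dl := by
    rw [Rat.cast_natCast, ← F.sq, ord_pow]
    push_cast
    ring
  rw [h4, h2, mul_one] at h1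
  exact ⟨h1.symm, by omega⟩

theorem a15_ord (F : QF K) {p : ℕ} (hp : p.Prime) (hpd : p ∣ F.d) (P : HeightOneSpectrum (𝓞 K))
    (hP : 1 ≤ ord P (p : K)) (x y : ℚ) (hxy : (x : K) + y * F.dl ≠ 0) :
    ord P ((x : K) + y * F.dl) = a15v p (ord P F.dl) x y := by
  obtain ⟨h1, h2⟩ := a15_dl F hp hpd P hP
  have hx : x ≠ 0 → ord P (x : K) = 2 * ord P F.dl * padicValRat p x := fun h => by
    rw [st_ordR K p hp P hP x h, h1]
  have hy : y ≠ 0 → ord P ((y : K) * F.dl) = 2 * ord P F.dl * padicValRat p y + ord P F.dl :=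
    fun h => by
    rw [ord_mul P (by exact_mod_cast h) F.dl_ne, st_ordR K p hp P hP y h, h1]
  unfold a15v
  by_cases hy0 : y = 0
  · rw [if_pos hy0, hy0, Rat.cast_zero, zero_mul, add_zero]
    refine hx fun hx0 => hxy ?_
    rw [hx0, hy0]
    simp
  · rw [if_neg hy0]
    by_cases hx0 : x = 0
    · rw [if_pos hx0, hx0, Rat.cast_zero, zero_add]
      exact hy hy0
    · rw [if_neg hx0]
      have hxK : (x : K) ≠ 0 := by exact_mod_cast hx0
      have hyK : (y : K) * F.dl ≠ 0 := mul_ne_zero (by exact_mod_cast hy0) F.dl_ne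
      rcases lt_trichotomy (ord P (x : K)) (ord P ((y : K) * F.dl)) with h | h | h
      · rw [(ord_add_eq P hxK (Or.inr h)).2]
        rw [hx hx0, hy hy0] at h
        rw [hx hx0, min_eq_left h.le]
      · exfalso
        rw [hx hx0, hy hy0] at h
        have h3 : ord P F.dl * (2 * (padicValRat p x - padicValRat p y) - 1) = 0 := by
          linear_combination h
        rcases mul_eq_zero.1 h3 with h4 | h4
        · omega
        · omega
      · rw [add_comm, (ord_add_eq P hyK (Or.inr h)).2]
        rw [hx hx0, hy hy0] at h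
        rw [hy hy0, min_eq_right h.le]

theorem a15_dvd (p : ℕ) (h : ℤ) (x y : ℚ) : h ∣ a15v p h x y := by
  unfold a15v
  split_ifs
  · exact ⟨2 * padicValRat p x, by ring⟩
  · exact ⟨2 * padicValRat p y + 1, by ring⟩
  · rcases min_choice (2 * h * padicValRat p x) (2 * h * padicValRat p y + h) with h1 | h1
    · rw [h1]
      exact ⟨2 * padicValRat p x, by ring⟩
    · rw [h1]
      exact ⟨2 * padicValRat p y + 1, by ring⟩

/-- the exponent of the square root of `d` is one -/
theorem a15_one (F : QF K) {p : ℕ} (hp : p.Prime) (hpd : p ∣ F.d) (P : HeightOneSpectrum (𝓞 K))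
    (hP : 1 ≤ ord P (p : K)) : ord P F.dl = 1 := by
  obtain ⟨h1, h2⟩ := a15_dl F hp hpd P hP
  obtain ⟨π, hπ⟩ := exists_unif P
  obtain ⟨x, y, hxy⟩ := F.exists_xy (π : K)
  have h3 : (x : K) + y * F.dl ≠ 0 := by
    intro h
    rw [hxy, h, Pool.Agent.H98.MF.ord_zero] at hπ
    exact absurd hπ (by norm_num)
  have h4 := a15_ord F hp hpd P hP x y h3
  rw [← hxy, hπ] at h4
  have h5 : ord P F.dl ∣ 1 := by
    rw [h4]
    exact a15_dvd p _ x y
  have h6 := Int.le_of_dvd (by norm_num) h5
  omega

theorem saTriR {K : Type} [Field K] [NumberField K] (F : QF K) : SaTriR F := by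
  intro p hp _ hpd b hb P hP
  obtain ⟨x, y, hxy⟩ := F.exists_xy b
  have hPd := a15_one F hp hpd P hP
  have hPp : ord P (p : K) = 2 := by
    rw [(a15_dl F hp hpd P hP).1, hPd]
    norm_num
  constructor
  · have h1 : ord P b = a15v p 1 x y := by
      rw [← hPd, hxy]
      exact a15_ord F hp hpd P hP x y (hxy ▸ hb)
    have hcb : F.cj b = (x : K) + ((-y : ℚ) : K) * F.dl := by
      rw [hxy, F.cj_xy]
      push_cast
      ring
    have h2 : ord P (F.cj b) = a15v p 1 x y := by
      have h3 := a15_ord F hp hpd P hP x (-y) (hcb ▸ F.cj_ne hb)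
      rw [← hcb, hPd, a15v_neg] at h3
      exact h3
    have h3 := st_ordR K p hp P hP (nmK b) (nm_ne hb)
    rw [F.nm_eq, ord_mul P hb (F.cj_ne hb), h2, hPp] at h3
    rw [h1]
    omega
  · intro P' hP'
    have hPd' := a15_one F hp hpd P' hP'
    have h1 : ∀ z : K, z ≠ 0 → ord P' z = ord P z := by
      intro z hz
      obtain ⟨x, y, hxy⟩ := F.exists_xy z
      have h2 := a15_ord F hp hpd P hP x y (hxy ▸ hz)
      have h3 := a15_ord F hp hpd P' hP' x y (hxy ▸ hz)
      rw [← hxy, hPd] at h2
      rw [← hxy, hPd'] at h3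
      rw [h2, h3]
    refine HeightOneSpectrum.ext ?_
    ext a
    have h2 := le_ord_iff P a 1
    have h3 := le_ord_iff P' a 1
    rw [pow_one] at h2 h3
    rw [← h2, ← h3]
    by_cases ha : a = 0
    · simp [ha]
    · have haK : (a : K) ≠ 0 := by
        intro h
        exact ha (RingOfIntegers.coe_injective (by simpa using h))
      rw [h1 _ haK]

end Pool.Agent.H32.MA
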