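import Pool.Agent.H32.MA.AStm
import Pool.Agent.H98.ML.GD
import Pool.Agent.H98.MK.ChiBasic
import Pool.Agent.H98.MK.FldBasic
import Pool.Agent.H98.MK.TwoQuad
import Pool.Agent.H98.MK.DecHom

/-!
# Project MA9 (MP_a9b340), row A21: the local lemma at two with approximate square roots
(helper87; adapted from ML/LocalTwo2.lean)
-/

set_option autoImplicit false

open scoped BigOperators Pointwise

open Filter NumberField Pool.Agent.H67.MU

namespace Pool.Agent.H32.MA

open Pool.Agent.H98.MK (Om Gam dabs fld chi dd adm par par_hom par_lc z12)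
open Pool.Agent.H98.ML (gd_compare)

open Pool.Agent.H98.MK (fld_finite fld_mono fld_fixing fld_finrank fld_galois exists_res
  chi_eq_zero_iff' sq sq_sq two_four two_eight dec_hom)


private theorem a21_prime {K : Type} [Field K] [NumberField K] (p : ℕ) [Fact p.Prime] :
    ∃ P : Ideal (𝓞 K), P.IsPrime ∧ P ≠ ⊥ ∧ (p : 𝓞 K) ∈ P := by
  have hp : Prime (p : ℤ) := Nat.prime_iff_prime_int.1 (Fact.out : p.Prime)
  have h1 : (Ideal.span {(p : ℤ)}).IsPrime := (Ideal.span_singleton_prime hp.ne_zero).2 hp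
  have h0 : Ideal.span {(p : ℤ)} ≠ ⊥ := by
    rw [Ne, Ideal.span_singleton_eq_bot]
    exact hp.ne_zero
  have h2 : (Ideal.span {(p : ℤ)}).IsMaximal := h1.isMaximal h0
  obtain ⟨P, hP⟩ := (inferInstance : Nonempty ((Ideal.span {(p : ℤ)}).primesOver (𝓞 K)))
  have hP1 : P.IsPrime := hP.1
  have hP2 : P.LiesOver (Ideal.span {(p : ℤ)}) := hP.2
  refine ⟨P, hP1, Ideal.ne_bot_of_liesOver_of_ne_bot h0 P, ?_⟩
  have h3 : (p : ℤ) ∈ P.under ℤ := by
    rw [← hP2.over]
    exact Ideal.mem_span_singleton_self _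
  rw [Ideal.mem_comap] at h3
  simpa using h3

private theorem a21_dabs (U : Subgroup Gam) [h : NumberField (fld U)] :
    dabs (fld U) = (discr (fld U)).natAbs := by
  unfold dabs
  rw [dif_pos h]

private theorem a21_nf (U : Subgroup Gam) (hU : IsOpen (U : Set Gam)) : NumberField (fld U) :=
  { to_charZero := inferInstance, to_finiteDimensional := fld_finite U hU }

private theorem a21_sq_mem {U : Subgroup Gam} {d : ℚ} (h : ∀ σ ∈ U, chi d σ = 0) :
    sq d ∈ fld U := by
  unfold fld
  rw [IntermediateField.mem_fixedField_iff]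
  intro σ hσ
  exact (chi_eq_zero_iff' d (sq d) (sq_sq d) σ).1 (h σ hσ)

private theorem a21_ne (z : ZMod 2) (h : z ≠ 0) : 1 = z := by
  revert z
  decide

/-- transport of an intermediate field to the finite level -/
private theorem a21_restrict (U : Subgroup Gam) [U.Normal] (hU : IsOpen (U : Set Gam))
    [NumberField (fld U)]
    (π : Gam →* ((fld U) ≃ₐ[ℚ] (fld U)))
    (hπ : ∀ (σ : Gam) (x : fld U), ((π σ x : fld U) : Om) = σ (x : Om))
    (W : Subgroup Gam) (hUW : U ≤ W) :
    ∃ F : IntermediateField ℚ (fld U),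
      F.fixingSubgroup.comap π = W ∧ (discr F).natAbs = dabs (fld W) := by
  have hWo : IsOpen (W : Set Gam) := Subgroup.isOpen_mono hUW hU
  have hNW : NumberField (fld W) := a21_nf W hWo
  have hle : fld W ≤ fld U := fld_mono hUW
  have e : fld W ≃ₐ[ℚ] (IntermediateField.restrict hle) := IntermediateField.restrictAlgEquiv hle
  refine ⟨IntermediateField.restrict hle, ?_, ?_⟩
  · ext σ
    rw [Subgroup.mem_comap, IntermediateField.mem_fixingSubgroup_iff]
    conv_rhs => rw [← fld_fixing W hWo, IntermediateField.mem_fixingSubgroup_iff]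
    constructor
    · intro h x hx
      have h1 := h ⟨x, hle hx⟩ ((IntermediateField.mem_restrict hle _).2 hx)
      have h2 := congrArg (fun z : fld U => (z : Om)) h1
      simpa only [hπ] using h2
    · intro h x hx
      apply Subtype.ext
      rw [hπ]
      exact h _ ((IntermediateField.mem_restrict hle _).1 hx)
  · rw [a21_dabs]
    exact congrArg Int.natAbs (NumberField.discr_eq_discr_of_algEquiv _ e).symm

/-- **Row A21**: the local lemma at `2`, with approximate square roots. -/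
theorem saTwo : SaTwo := by
  intro U _ hU h1 h2
  classical
  have hNU : NumberField (fld U) := a21_nf U hU
  have hGU := fld_galois U hU
  have hF2 : Fact (Nat.Prime 2) := ⟨Nat.prime_two⟩
  obtain ⟨P, hP, hP0, h2P⟩ := a21_prime (K := fld U) 2
  have h2P' : (2 : 𝓞 (fld U)) ∈ P := by simpa using h2P
  obtain ⟨π, hπs, hπk, hπ⟩ := exists_res U hU
  have hker : ∀ σ, σ ∈ U ↔ π σ = 1 := by
    intro σ
    rw [← MonoidHom.mem_ker, hπk]
  have hsq : ∀ (m : ℤ) (hm : ∀ σ ∈ U, chi m σ = 0),
      (⟨sq (m : ℚ), a21_sq_mem hm⟩ : fld U) ^ 2 = (m : fld U) := by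
    intro m hm
    apply Subtype.ext
    push_cast
    rw [sq_sq, Rat.cast_intCast]
  have hfix : ∀ (d : ℚ) (hm : ∀ σ ∈ U, chi d σ = 0) (σ : Gam),
      π σ (⟨sq d, a21_sq_mem hm⟩ : fld U) = (⟨sq d, a21_sq_mem hm⟩ : fld U) ↔ chi d σ = 0 := by
    intro d hm σ
    rw [chi_eq_zero_iff' _ _ (sq_sq _) σ]
    constructor
    · intro h
      have := congrArg (fun z : fld U => (z : Om)) h
      simpa only [hπ] using this
    · intro h
      apply Subtype.ext
      rw [hπ]
      exact h
  refine ⟨(P.inertia (fld U ≃ₐ[ℚ] fld U)).comap π,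
    (MulAction.stabilizer (fld U ≃ₐ[ℚ] fld U) P).comap π, ?_, ?_, ?_, ?_, ?_, ?_⟩
  · intro σ hσ
    rw [Subgroup.mem_comap, (hker σ).1 hσ]
    exact Subgroup.one_mem _
  · exact Subgroup.comap_mono (Ideal.inertia_le_stabilizer (M := fld U ≃ₐ[ℚ] fld U) P)
  · intro G _ _ ρ ρ' H g hk hk' hs hs' hI
    have key : ∀ (ρ : Gam →* G), U ≤ ρ.ker → Function.Surjective ρ →
        ∃ (r : (fld U ≃ₐ[ℚ] fld U) →* G) (F : IntermediateField ℚ (fld U)),
          Function.Surjective r ∧ F.fixingSubgroup = H.comap r ∧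
          (discr F).natAbs = dabs (fld (H.comap ρ)) ∧ ∀ σ, r (π σ) = ρ σ := by
      intro ρ hk hs
      have hk2 : π.ker ≤ ρ.ker := by rw [hπk]; exact hk
      have hr : ∀ σ, π.liftOfSurjective hπs ⟨ρ, hk2⟩ (π σ) = ρ σ := fun σ =>
        MonoidHom.liftOfRightInverse_comp_apply π _ _ ⟨ρ, hk2⟩ σ
      have hUW : U ≤ H.comap ρ := by
        intro u hu
        rw [Subgroup.mem_comap, (MonoidHom.mem_ker).1 (hk hu)]
        exact H.one_mem
      obtain ⟨F, hF1, hF2⟩ := a21_restrict U hU π hπ (H.comap ρ) hUW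
      refine ⟨π.liftOfSurjective hπs ⟨ρ, hk2⟩, F, ?_, ?_, hF2, hr⟩
      · intro g
        obtain ⟨σ, rfl⟩ := hs g
        exact ⟨π σ, hr σ⟩
      · apply Subgroup.comap_injective hπs
        rw [hF1]
        ext σ
        rw [Subgroup.mem_comap, Subgroup.mem_comap, Subgroup.mem_comap, hr]
    obtain ⟨r, F, hr1, hr2, hr3, hr4⟩ := key ρ hk hs
    obtain ⟨r', F', hr1', hr2', hr3', hr4'⟩ := key ρ' hk' hs'
    rw [← hr3, ← hr3']
    refine (gd_compare 2 P h2P H r' r hr1' hr1 F' F hr2' hr2 g fun s hs => ?_).symm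
    obtain ⟨σ, rfl⟩ := hπs s
    rw [hr4, hr4', hI σ hs]
  · intro m hm hσU σ hσ
    have := two_four P h2P' m hm _ (hsq m hσU) (π σ) hσ
    exact (hfix (m : ℚ) hσU σ).1 this
  · intro h hadd hzero
    choose s hs using hπs
    have hsD : ∀ g ∈ MulAction.stabilizer (fld U ≃ₐ[ℚ] fld U) P,
        s g ∈ (MulAction.stabilizer (fld U ≃ₐ[ℚ] fld U) P).comap π := by
      intro g hg
      rw [Subgroup.mem_comap, hs]
      exact hg
    have hUD : ∀ u ∈ U, u ∈ (MulAction.stabilizer (fld U ≃ₐ[ℚ] fld U) P).comap π := by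
      intro u hu
      rw [Subgroup.mem_comap, (hker u).1 hu]
      exact Subgroup.one_mem _
    have hsh : ∀ σ ∈ (MulAction.stabilizer (fld U ≃ₐ[ℚ] fld U) P).comap π,
        h (s (π σ)) = h σ := by
      intro σ hσ
      have hu : σ⁻¹ * s (π σ) ∈ U := by
        rw [hker, map_mul, map_inv, hs, inv_mul_cancel]
      have h3 : s (π σ) = σ * (σ⁻¹ * s (π σ)) := by group
      rw [h3, hadd σ hσ _ (hUD _ hu), hzero _ hu, add_zero]
    have hi : (⟨sq (-1), a21_sq_mem h1⟩ : fld U) ^ 2 = -1 := by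
      apply Subtype.ext
      push_cast
      rw [sq_sq]
      push_cast
      rfl
    have ht : (⟨sq 2, a21_sq_mem h2⟩ : fld U) ^ 2 = 2 := by
      apply Subtype.ext
      push_cast
      rw [sq_sq]
      push_cast
      rfl
    obtain ⟨x, y, hxy⟩ := dec_hom P h2P' _ _ hi ht (fun g => h (s g)) (by
      intro g hg g' hg'
      have h3 := hsh (s g * s g') (Subgroup.mul_mem _ (hsD g hg) (hsD g' hg'))
      rw [map_mul, hs, hs] at h3
      show h (s (g * g')) = h (s g) + h (s g')
      rw [h3, hadd _ (hsD g hg) _ (hsD g' hg')])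
    refine ⟨x, y, fun σ hσ => ?_⟩
    have hσ' : π σ ∈ P.inertia (fld U ≃ₐ[ℚ] fld U) := hσ
    have h4 := hxy (π σ) hσ'
    have hσD : σ ∈ (MulAction.stabilizer (fld U ≃ₐ[ℚ] fld U) P).comap π :=
      Ideal.inertia_le_stabilizer (M := fld U ≃ₐ[ℚ] fld U) P hσ'
    have h5 : ∀ (d : ℚ) (hm : ∀ σ ∈ U, chi d σ = 0)
        (inst : Decidable (π σ (⟨sq d, a21_sq_mem hm⟩ : fld U) =
          (⟨sq d, a21_sq_mem hm⟩ : fld U))),
        chi d σ = @ite _ _ inst (0 : ZMod 2) 1 := by
      intro d hm inst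
      by_cases hc : chi d σ = 0
      · rw [if_pos ((hfix d hm σ).2 hc), hc]
      · rw [if_neg (fun hh => hc ((hfix d hm σ).1 hh))]
        exact (a21_ne _ hc).symm
    rw [← hsh σ hσD]
    convert h4 using 3
    · exact h5 (-1) h1 _
    · exact h5 2 h2 _
  · let ι : 𝓞 (fld U) →+* Om :=
      (algebraMap (fld U) Om).comp (algebraMap (𝓞 (fld U)) (fld U))
    have hι : ∀ a : 𝓞 (fld U), ι a = ((a : fld U) : Om) := fun _ => rfl
    have hinj : Function.Injective ι := by
      intro a b hab
      apply RingOfIntegers.ext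
      apply Subtype.ext
      exact hab
    refine ⟨{θ : Om | ∃ (s : ℕ) (a : 𝓞 (fld U)), Odd s ∧ a ∈ P ∧
      (s : Om) * (θ - 1) = 2 * ((a : fld U) : Om)}, ?_, ?_, ?_⟩
    · rintro σ hσ θ ⟨s, a, hs, ha, h⟩
      have hst : π σ • P = P := hσ
      refine ⟨s, π σ • a, hs, ?_, ?_⟩
      · rw [← hst]
        exact Ideal.smul_mem_pointwise_smul (π σ) a P ha
      · have h3 : (((π σ • a : 𝓞 (fld U)) : fld U) : Om) = σ ((a : fld U) : Om) := hπ σ a
        rw [h3, ← map_natCast σ s, ← map_one σ, ← map_sub, ← map_mul, h, map_mul]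
        congr 1
        exact map_ofNat σ 2
    · rintro θ ⟨s, a, hs, ha, h⟩ ⟨t, b, ht, hb, h'⟩
      have h4 : ((s * t : ℕ) : 𝓞 (fld U)) = -((t : 𝓞 (fld U)) * a + (s : 𝓞 (fld U)) * b) := by
        apply hinj
        have h6 : (2 : Om) ≠ 0 := two_ne_zero
        apply mul_left_cancel₀ h6
        simp only [map_natCast, map_neg, map_add, map_mul, hι]
        push_cast
        linear_combination (-(t : Om)) * h - (s : Om) * h'
      have h5 : ((s * t : ℕ) : 𝓞 (fld U)) ∈ P := by
        rw [h4]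
        exact P.neg_mem (P.add_mem (P.mul_mem_left _ ha) (P.mul_mem_left _ hb))
      obtain ⟨r, hr⟩ := hs.mul ht
      rw [hr] at h5
      push_cast at h5
      exact hP.ne_top ((Ideal.eq_top_iff_one _).2
        ((Ideal.add_mem_iff_right _ (P.mul_mem_right _ h2P')).1 h5))
    · rintro θ hθ ⟨s, y, hs, hy, h⟩
      have hθm : θ ∈ fld U := by
        unfold fld
        rw [IntermediateField.mem_fixedField_iff]
        exact hθ
      have h8 : (8 : Om) ≠ 0 := by norm_num
      have h2' : (2 : Om) ≠ 0 := two_ne_zero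
      have hyv : y = (s : Om) * (θ ^ 2 - 1) / 8 := by
        rw [h]
        field_simp
      have hym : y ∈ fld U := by
        rw [hyv]
        refine div_mem (mul_mem (natCast_mem _ s) (sub_mem (pow_mem hθm 2) (one_mem _))) ?_
        exact_mod_cast natCast_mem (fld U) 8
      have ham : (s : Om) * (θ - 1) / 2 ∈ fld U := by
        refine div_mem (mul_mem (natCast_mem _ s) (sub_mem hθm (one_mem _))) ?_
        exact_mod_cast natCast_mem (fld U) 2
      have hai : IsIntegral ℤ ((s : Om) * (θ - 1) / 2) := by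
        have hd : (Polynomial.X ^ 2 + Polynomial.C (s : ℤ) * Polynomial.X :
            Polynomial ℤ).natDegree = 2 := by
          compute_degree!
        have hm : (Polynomial.X ^ 2 + Polynomial.C (s : ℤ) * Polynomial.X :
            Polynomial ℤ).Monic := by
          monicity!
        refine IsIntegral.of_aeval_monic hm (by rw [hd]; norm_num) ?_
        have h3 : Polynomial.aeval ((s : Om) * (θ - 1) / 2)
            (Polynomial.X ^ 2 + Polynomial.C (s : ℤ) * Polynomial.X : Polynomial ℤ) =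
            ((2 * s : ℕ) : Om) * y := by
          simp only [map_add, map_mul, map_pow, Polynomial.aeval_X, Polynomial.aeval_C]
          rw [hyv]
          push_cast
          field_simp
          ring
        rw [h3]
        exact (isIntegral_algebraMap (R := ℤ) (A := Om) (x := ((2 * s : ℕ) : ℤ))).mul hy |> fun h => by
          simpa using h
      have hai' : IsIntegral ℤ (⟨_, ham⟩ : fld U) :=
        (isIntegral_algHom_iff (IntermediateField.val (fld U)).toIntAlgHom
          (Subtype.val_injective)).1 hai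
      have hyi' : IsIntegral ℤ (⟨y, hym⟩ : fld U) :=
        (isIntegral_algHom_iff (IntermediateField.val (fld U)).toIntAlgHom
          (Subtype.val_injective)).1 hy
      obtain ⟨a, ha⟩ : ∃ a : 𝓞 (fld U), ι a = (s : Om) * (θ - 1) / 2 := ⟨⟨_, hai'⟩, rfl⟩
      obtain ⟨y0, hy0⟩ : ∃ a : 𝓞 (fld U), ι a = y := ⟨⟨_, hyi'⟩, rfl⟩
      have h3 : a * (a + (s : 𝓞 (fld U))) = 2 * ((s : 𝓞 (fld U)) * y0) := by
        apply hinj
        simp only [map_mul, map_add, map_natCast, ha, hy0, map_ofNat]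
        rw [hyv]
        field_simp
        ring
      have h4 : a * (a + (s : 𝓞 (fld U))) ∈ P := by
        rw [h3]
        exact P.mul_mem_right _ h2P'
      rcases hP.mem_or_mem h4 with h5 | h5
      · left
        refine ⟨s, a, hs, h5, ?_⟩
        rw [← hι, ha]
        field_simp
      · right
        refine ⟨s, -(a + (s : 𝓞 (fld U))), hs, P.neg_mem h5, ?_⟩
        rw [← hι, map_neg, map_add, map_natCast, ha]
        field_simp
        ring

end Pool.Agent.H32.MA
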