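import Pool.Agent.H32.MA.AStm
import Pool.Agent.H32.MA.RFinal

/-!
# Project MA9 (MP_a9b340), row A17: the classes of the tame generators
-/

set_option autoImplicit false

open scoped BigOperators
open NumberField IsDedekindDomain

namespace Pool.Agent.H32.MA

open Pool.Agent.H98.MK (Om Gam dabs fld chi chi_hom chi_eq_zero_iff' om_galois)
open Pool.Agent.H98.MF (ord)
open Pool.Agent.H98.MF.B (ord_mul)
open Pool.Agent.H98.ML (norb tau IsTau m3_tau m4_ex m3_norb_lt)

/-- a subgroup cut out by additive functions on a subgroup of index at most two -/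
private theorem a17_index {G : Type} [Group G] (c : G → ZMod 2)
    (hc : ∀ s t, c (s * t) = c s + c t) (W : Subgroup G) (u v : G → ZMod 2)
    (huv : ∀ s t, c s = 0 → c t = 0 → u (s * t) = u s + u t ∧ v (s * t) = v s + v t)
    (hW : ∀ s, s ∈ W ↔ c s = 0 ∧ u s = 0 ∧ v s = 0) : ∃ k, W.index = 2 ^ k := by
  let φ : G →* Multiplicative (ZMod 2) :=
    MonoidHom.mk' (fun s => Multiplicative.ofAdd (c s)) (fun s t => by
      rw [hc, ofAdd_add])
  have hφ : ∀ s, s ∈ φ.ker ↔ c s = 0 := by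
    intro s
    rw [MonoidHom.mem_ker]
    exact ofAdd_eq_one
  have hle : W ≤ φ.ker := fun s hs => (hφ s).2 ((hW s).1 hs).1
  let ψ : φ.ker →* Multiplicative (ZMod 2 × ZMod 2) :=
    MonoidHom.mk' (fun s => Multiplicative.ofAdd (u s, v s)) (fun s t => by
      have h := huv s t ((hφ _).1 s.2) ((hφ _).1 t.2)
      rw [← ofAdd_add, Prod.mk_add_mk, ← h.1, ← h.2]
      rfl)
  have hψ : W.subgroupOf φ.ker = ψ.ker := by
    ext s
    rw [Subgroup.mem_subgroupOf, MonoidHom.mem_ker, hW]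
    constructor
    · rintro ⟨-, h1, h2⟩
      show Multiplicative.ofAdd (u s, v s) = 1
      rw [h1, h2]
      rfl
    · intro h
      have h1 : (u s, v s) = (0, 0) := h
      rw [Prod.mk.injEq] at h1
      exact ⟨(hφ _).1 s.2, h1.1, h1.2⟩
  have h1 : φ.ker.index ∣ 2 := by
    rw [Subgroup.index_ker]
    have h := Subgroup.card_subgroup_dvd_card φ.range
    rwa [Nat.card_eq_fintype_card (α := Multiplicative (ZMod 2)), Fintype.card_multiplicative,
      ZMod.card] at h
  have h2 : W.relIndex φ.ker ∣ 4 := by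
    rw [Subgroup.relIndex, hψ, Subgroup.index_ker]
    have h := Subgroup.card_subgroup_dvd_card ψ.range
    rwa [Nat.card_eq_fintype_card (α := Multiplicative (ZMod 2 × ZMod 2)),
      Fintype.card_multiplicative, Fintype.card_prod, ZMod.card] at h
  have h3 : W.index ∣ 2 ^ 3 := by
    rw [← Subgroup.relIndex_mul_index hle]
    exact mul_dvd_mul h2 h1
  obtain ⟨k, -, hk⟩ := (Nat.dvd_prime_pow Nat.prime_two).1 h3
  exact ⟨k, hk⟩

private theorem a17_mem (S : Set Om) (σ : Gam) :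
    σ ∈ (IntermediateField.adjoin ℚ S).fixingSubgroup ↔ ∀ x ∈ S, σ x = x := by
  rw [IntermediateField.mem_fixingSubgroup_iff]
  constructor
  · intro h x hx
    exact h x (IntermediateField.subset_adjoin ℚ S hx)
  · intro h x hx
    have h1 : IntermediateField.adjoin ℚ S ≤
        IntermediateField.fixedField (Subgroup.zpowers σ) := by
      rw [IntermediateField.adjoin_le_iff]
      intro y hy
      rw [SetLike.mem_coe, IntermediateField.mem_fixedField_iff]
      have h2 : Subgroup.zpowers σ ≤ MulAction.stabilizer Gam y := by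
        rw [Subgroup.zpowers_le, MulAction.mem_stabilizer_iff]
        exact h y hy
      intro g hg
      exact MulAction.mem_stabilizer_iff.1 (h2 hg)
    exact (IntermediateField.mem_fixedField_iff _ x).1 (h1 hx) σ (Subgroup.mem_zpowers σ)

private theorem a17_open (S : Set Om) (hS : S.Finite) :
    IsOpen ((IntermediateField.adjoin ℚ S).fixingSubgroup : Set Gam) := by
  have h1 : Finite S := hS
  have h2 : FiniteDimensional ℚ (IntermediateField.adjoin ℚ S) :=
    IntermediateField.finiteDimensional_adjoin fun x _ => Algebra.IsIntegral.isIntegral x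
  exact IntermediateField.fixingSubgroup_isOpen _

open Classical in
/-- the sign of the action on an element -/
private noncomputable def a17_s (y : Om) (σ : Gam) : ZMod 2 := if σ y = y then 0 else 1

private theorem a17_s_zero (y : Om) (σ : Gam) : a17_s y σ = 0 ↔ σ y = y := by
  unfold a17_s
  split_ifs with h
  · simp [h]
  · simp [h]

private theorem a17_s_mul {y : Om} (hy : y ≠ 0) {σ τ : Gam} (h1 : σ y = y ∨ σ y = -y)
    (h2 : τ y = y ∨ τ y = -y) : a17_s y (σ * τ) = a17_s y σ + a17_s y τ := by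
  have hn : -y ≠ y := by
    intro h
    have h3 : (2 : Om) * y = 0 := by linear_combination -h
    rcases mul_eq_zero.1 h3 with h4 | h4
    · exact two_ne_zero h4
    · exact hy h4
  have h0 : ∀ ρ : Gam, ρ y = y → a17_s y ρ = 0 := fun ρ h => if_pos h
  have h3 : ∀ ρ : Gam, ρ y = -y → a17_s y ρ = 1 := fun ρ h =>
    if_neg (by rw [h]; exact hn)
  rcases h1 with h1 | h1 <;> rcases h2 with h2 | h2
  · rw [h0 σ h1, h0 τ h2, h0 _ (by rw [AlgEquiv.mul_apply, h2, h1]), add_zero]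
  · rw [h0 σ h1, h3 τ h2, h3 _ (by rw [AlgEquiv.mul_apply, h2, map_neg, h1]), zero_add]
  · rw [h3 σ h1, h0 τ h2, h3 _ (by rw [AlgEquiv.mul_apply, h2, h1]), add_zero]
  · rw [h3 σ h1, h3 τ h2, h0 _ (by rw [AlgEquiv.mul_apply, h2, map_neg, h1, neg_neg])]
    decide

section

variable {K : Type} [Field K] [NumberField K]

/-- the square roots are permuted up to sign -/
private theorem a17_perm (F : QF K) (j : K →+* Om) (hAct : SaAct F j) {b : K} {θ θ' : Om}
    (h1 : θ ^ 2 = j b) (h2 : θ' ^ 2 = j (F.cj b)) (σ : Gam) :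
    ∀ x ∈ ({j F.dl, θ, θ'} : Set Om), ∃ y ∈ ({j F.dl, θ, θ'} : Set Om), σ x = y ∨ σ x = -y := by
  have hd : σ (j F.dl) = j F.dl ∨ σ (j F.dl) = -j F.dl := by
    rcases (by generalize chi (F.d : ℚ) σ = x; revert x; decide :
      chi (F.d : ℚ) σ = 0 ∨ chi (F.d : ℚ) σ = 1) with h | h
    · exact Or.inl ((hAct σ F.dl).1 h)
    · right
      rw [(hAct σ F.dl).2 h, F.cdl, map_neg]
  have e1 : (σ θ) ^ 2 = σ (j b) := by rw [← map_pow, h1]
  have e2 : (σ θ') ^ 2 = σ (j (F.cj b)) := by rw [← map_pow, h2]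
  intro x hx
  rcases hx with rfl | rfl | rfl
  · exact ⟨_, Or.inl rfl, hd⟩
  · rcases (by generalize chi (F.d : ℚ) σ = x; revert x; decide :
      chi (F.d : ℚ) σ = 0 ∨ chi (F.d : ℚ) σ = 1) with h | h
    · rw [(hAct σ b).1 h, ← h1] at e1
      exact ⟨_, Or.inr (Or.inl rfl), sq_eq_sq_iff_eq_or_eq_neg.1 e1⟩
    · rw [(hAct σ b).2 h, ← h2] at e1
      exact ⟨_, Or.inr (Or.inr rfl), sq_eq_sq_iff_eq_or_eq_neg.1 e1⟩
  · rcases (by generalize chi (F.d : ℚ) σ = x; revert x; decide :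
      chi (F.d : ℚ) σ = 0 ∨ chi (F.d : ℚ) σ = 1) with h | h
    · rw [(hAct σ (F.cj b)).1 h, ← h2] at e2
      exact ⟨_, Or.inr (Or.inr rfl), sq_eq_sq_iff_eq_or_eq_neg.1 e2⟩
    · rw [(hAct σ (F.cj b)).2 h, F.cj_cj, ← h1] at e2
      exact ⟨_, Or.inr (Or.inl rfl), sq_eq_sq_iff_eq_or_eq_neg.1 e2⟩

/-- the function vanishes at the tame generator -/
private theorem a17_key (F : QF K) (j : K →+* Om) (hU : SaUnr F j) (hAct : SaAct F j)
    {b : K} (hb : b ≠ 0) {f : Gam → ZMod 2} (hf : IsF F j b f) {p : ℕ} (hp : p.Prime)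
    (hp2 : p ≠ 2) (hA : TyA F p b) : chi (F.d : ℚ) (tau p) = 0 ∧ f (tau p) = 0 := by
  obtain ⟨θ, θ', h1, h2, h3, -⟩ := hf
  have hjd : (j F.dl) ^ 2 = ((F.d : ℚ) : Om) := by
    rw [← map_pow, F.sq, map_natCast]
    simp
  have hθ : θ ≠ 0 := by
    rintro rfl
    rw [zero_pow two_ne_zero, eq_comm, map_eq_zero] at h1
    exact hb h1
  have hθ' : θ' ≠ 0 := by
    rintro rfl
    rw [zero_pow two_ne_zero, eq_comm, map_eq_zero] at h2
    exact F.cj_ne hb h2
  have hchi : ∀ σ : Gam, chi (F.d : ℚ) σ = 0 ↔ σ (j F.dl) = j F.dl := fun σ =>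
    chi_eq_zero_iff' _ _ hjd σ
  set S : Set Om := {j F.dl, θ, θ'} with hS
  set U : Subgroup Gam := (IntermediateField.adjoin ℚ S).fixingSubgroup with hUd
  set W : Subgroup Gam := (IntermediateField.adjoin ℚ {j F.dl, θ}).fixingSubgroup with hWd
  have hUm : ∀ σ : Gam, σ ∈ U ↔ ∀ x ∈ S, σ x = x := a17_mem S
  have hUn : U.Normal := by
    refine ⟨fun τ hτ σ => ?_⟩
    rw [hUm] at hτ ⊢
    intro x hx
    obtain ⟨y, hy, hxy⟩ := a17_perm F j hAct h1 h2 σ⁻¹ x hx
    have h4 : τ (σ⁻¹ x) = σ⁻¹ x := by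
      rcases hxy with h | h
      · rw [h, hτ y hy]
      · rw [h, map_neg, hτ y hy]
    rw [AlgEquiv.mul_apply, AlgEquiv.mul_apply, h4, ← AlgEquiv.mul_apply, mul_inv_cancel,
      AlgEquiv.one_apply]
  have hSf : S.Finite := by
    rw [hS]
    exact Set.toFinite _
  have hUo : IsOpen (U : Set Gam) := a17_open S hSf
  have hpm : ∀ σ : Gam, chi (F.d : ℚ) σ = 0 → (σ θ = θ ∨ σ θ = -θ) ∧
      (σ θ' = θ' ∨ σ θ' = -θ') := by
    intro σ hσ
    constructor
    · apply sq_eq_sq_iff_eq_or_eq_neg.1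
      rw [← map_pow, h1]
      exact (hAct σ b).1 hσ
    · apply sq_eq_sq_iff_eq_or_eq_neg.1
      rw [← map_pow, h2]
      exact (hAct σ (F.cj b)).1 hσ
  have hUi : ∃ k, U.index = 2 ^ k := by
    refine a17_index (chi (F.d : ℚ)) (chi_hom _) U (a17_s θ) (a17_s θ') ?_ ?_
    · intro s t hs ht
      exact ⟨a17_s_mul hθ (hpm s hs).1 (hpm t ht).1, a17_s_mul hθ' (hpm s hs).2 (hpm t ht).2⟩
    · intro s
      rw [hUm, a17_s_zero, a17_s_zero, hchi, hS]
      simp
  have hUW : U ≤ W := by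
    apply IntermediateField.fixingSubgroup_antitone
    apply IntermediateField.adjoin.mono
    intro x hx
    rcases hx with rfl | rfl
    · exact Or.inl rfl
    · exact Or.inr (Or.inl rfl)
  have hfW : fld W = IntermediateField.adjoin ℚ {j F.dl, θ} :=
    InfiniteGalois.fixedField_fixingSubgroup _
  obtain ⟨φ, hφ⟩ := m3_tau m4_ex p hp hp2
  have h4 := hφ.disc U hUo hUi W hUW
  rw [hfW, hU b θ hb h1 p hp hp2 hA, zero_add] at h4
  have hWi : W.index ≠ 0 := by
    obtain ⟨k, hk⟩ := hUi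
    have h5 := Subgroup.index_dvd_of_le hUW
    rw [hk] at h5
    intro h6
    rw [h6, zero_dvd_iff] at h5
    exact pow_ne_zero k two_ne_zero h5
  have hτW : tau p ∈ W := by
    by_contra h
    have h5 := m3_norb_lt W hWi (tau p) h
    omega
  rw [hWd, a17_mem] at hτW
  have hτd : chi (F.d : ℚ) (tau p) = 0 := (hchi _).2 (hτW _ (Or.inl rfl))
  refine ⟨hτd, ?_⟩
  have h5 := h3 (tau p) hτd
  rw [hτW θ (Or.inr rfl)] at h5
  by_contra h6
  unfold sg at h5
  rw [if_neg h6] at h5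
  have h7 : (2 : Om) * θ = 0 := by linear_combination h5
  rcases mul_eq_zero.1 h7 with h8 | h8
  · exact two_ne_zero h8
  · exact hθ h8

end

theorem saTyp {K : Type} [Field K] [NumberField K] (F : QF K) (j : K →+* Om) (hU : SaUnr F j)
    (hT : SaChiT) (h1 : SaTri F) (h2 : SaTriR F) (hA : SaA F j) (hR : SaFRat F j)
    (h3 : SaFTwo F j) (hAct : SaAct F j) : SaTyp F j := by
  intro b ρ hb hcl p hp hp2
  have hchi : ∀ σ, (ρ σ).pd = chi (F.d : ℚ) σ := hcl.pd
  have ha := hA b ρ hb hcl (tau p)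
  rw [hT p hp hp2 (nmK b) (nm_ne hb)] at ha
  -- even norm for the first type
  have hev : ∀ c : K, c ≠ 0 → TyA F p c → Even (padicValRat p (nmK c)) := by
    intro c hc hA
    by_contra h
    rw [Int.not_even_iff_odd] at h
    obtain ⟨P, hP, -, hodd, -, -⟩ := (h1 p hp hA.1 c hc).2.2 ⟨hA.1, h⟩
    exact (Int.not_even_iff_odd.2 hodd) (hA.2 P hP)
  have hz : ∀ n : ℤ, Even n → ((n : ℤ) : ZMod 2) = 0 := fun n hn => by
    rw [ZMod.intCast_zmod_eq_zero_iff_dvd]
    exact_mod_cast hn.two_dvd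
  have ho : ∀ n : ℤ, Odd n → ((n : ℤ) : ZMod 2) = 1 := fun n hn => by
    obtain ⟨k, rfl⟩ := hn
    push_cast
    have h4 : (2 : ZMod 2) = 0 := rfl
    rw [h4, zero_mul, zero_add]
  have hdQ : (F.d : ℚ) ≠ 0 := F.d_ne
  have hd0 : ¬ p ∣ 2 * F.d → chi (F.d : ℚ) (tau p) = 0 := by
    intro h
    rw [hT p hp hp2 _ hdQ, padicValRat.of_nat,
      padicValNat.eq_zero_of_not_dvd (fun h4 => h (h4.mul_left 2))]
    rfl
  have hd1 : p ∣ F.d → chi (F.d : ℚ) (tau p) = 1 := by
    intro h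
    have h4 : padicValNat p F.d = 1 := by
      have := Fact.mk hp
      have h5 : 1 ≤ padicValNat p F.d :=
        one_le_padicValNat_of_dvd (by exact_mod_cast hdQ) h
      have h6 : padicValNat p F.d ≤ 1 := by
        have h7 := (Nat.squarefree_iff_factorization_le_one (by exact_mod_cast hdQ)).1 F.sqf p
        rwa [Nat.factorization_def _ hp] at h7
      omega
    rw [hT p hp hp2 _ hdQ, padicValRat.of_nat, h4]
    rfl
  refine ⟨fun hty => ?_, fun hty => ?_, fun hty => ?_, fun hty => ?_, fun hty => ?_⟩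
  · have hk := a17_key F j hU hAct hb hcl.pf hp hp2 hty
    rw [← SD.central_iff]
    refine ⟨by rw [hchi, hk.1], ?_, hk.2⟩
    rw [ha, hk.1, hz _ (hev b hb hty), add_zero]
  · rw [SD.clC_iff, hchi, ha, hd0 hty.1, ho _ hty.2, zero_add]
    exact ⟨rfl, rfl⟩
  · have hpK : (p : K) ≠ 0 := by exact_mod_cast hp.ne_zero
    have hpQ : (p : ℚ) ≠ 0 := by exact_mod_cast hp.ne_zero
    have hpb : ((p : ℚ) : K) * b ≠ 0 := by
      rw [Rat.cast_natCast]
      exact mul_ne_zero hpK hb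
    have htA : TyA F p (((p : ℚ) : K) * b) := by
      refine ⟨hty.1, fun P hP => ?_⟩
      rw [Rat.cast_natCast, ord_mul P hpK hb, R.unr F p hp hty.1 P hP]
      exact odd_one.add_odd (hty.2 P hP)
    have hk := a17_key F j hU hAct hpb (hR b p _ hb hpQ hcl.pf) hp hp2 htA
    have hv := hev _ hpb htA
    have hpv : padicValRat p (p : ℚ) = 1 := by
      have := Fact.mk hp
      exact padicValRat.self hp.one_lt
    have hv2 : padicValRat p (nmK (((p : ℚ) : K) * b)) = 2 + padicValRat p (nmK b) := by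
      have := Fact.mk hp
      rw [nm_mul, nm_rat F, padicValRat.mul (pow_ne_zero 2 hpQ) (nm_ne hb),
        padicValRat.pow, hpv]
      norm_num
    rw [hv2] at hv
    have hv3 : Even (padicValRat p (nmK b)) := by
      rw [Int.even_add] at hv
      exact hv.1 even_two
    rw [SD.clT_iff, hchi, ha, hd0 hty.1, hz _ hv3, add_zero]
    refine ⟨rfl, rfl, ?_⟩
    have h4 := hk.2
    rw [hT p hp hp2 _ hpQ, hpv] at h4
    have h5 := z2' h4
    rw [h5]
    rfl
  · obtain ⟨P, hP⟩ := R.ovr K p hp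
    have h4 := (h2 p hp hp2 hty.1 b hb P hP).1
    rw [SD.clS_iff, hchi, ha, hd1 hty.1, h4, hz _ (hty.2 P hP), add_zero]
    exact ⟨rfl, rfl⟩
  · obtain ⟨P, hP⟩ := R.ovr K p hp
    have h4 := (h2 p hp hp2 hty.1 b hb P hP).1
    rw [SD.clR_iff, hchi, ha, hd1 hty.1, h4, ho _ (hty.2 P hP)]
    exact ⟨rfl, rfl⟩

end Pool.Agent.H32.MA
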