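import Pool.Agent.H32.MA.AStm
import Pool.Agent.H98.MK.Conj

/-!
# Project MA9 (MP_a9b340), row A37: the outer parameters (helper19)
-/

set_option autoImplicit false

open scoped BigOperators
open NumberField IsDedekindDomain

namespace Pool.Agent.H32.MA

open Pool.Agent.H98.MK (Om Gam dabs fld chi dd adm par lg par_hom par_lc z12)
open Pool.Agent.H98.MK (chi_mul chi_sq chi_isSquare exists_chi exists_conj)
open Pool.Agent.H98.MF (ord)
open Pool.Agent.H98.ML (hind norb tau IsTau)

/-! ### arithmetic -/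

/-- squarefree numbers whose product is a square are equal -/
private theorem a37_eq {a b : ℕ} (ha : Squarefree a) (hb : Squarefree b)
    (h : IsSquare (a * b)) : a = b := by
  have ha0 := ha.ne_zero
  have hb0 := hb.ne_zero
  obtain ⟨c, hc⟩ := h
  have hc0 : c ≠ 0 := by
    rintro rfl
    exact (mul_ne_zero ha0 hb0) (hc.trans (mul_zero 0))
  apply Nat.eq_of_factorization_eq ha0 hb0
  intro p
  have h1 : (a * b).factorization p = (c * c).factorization p := by rw [hc]
  rw [Nat.factorization_mul ha0 hb0, Nat.factorization_mul hc0 hc0, Finsupp.add_apply,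
    Finsupp.add_apply] at h1
  have h2 := ha.natFactorization_le_one p
  have h3 := hb.natFactorization_le_one p
  omega

/-- a squarefree number divides every number divisible by its prime divisors -/
private theorem a37_dvd {n m : ℕ} (hn : Squarefree n) (hm : m ≠ 0)
    (h : ∀ p : ℕ, p.Prime → p ∣ n → p ∣ m) : n ∣ m := by
  rw [← Nat.prod_primeFactors_of_squarefree hn]
  refine dvd_trans (Finset.prod_dvd_prod_of_subset _ m.primeFactors _ ?_)
    (Nat.prod_primeFactors_dvd m)
  intro p hp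
  rw [Nat.mem_primeFactors] at hp ⊢
  exact ⟨hp.1, h p hp.1 hp.2.1, hm⟩

/-- exponents of a squarefree number -/
private theorem a37_fac {n p : ℕ} (hn : Squarefree n) (hp : p.Prime) :
    n.factorization p = if p ∣ n then 1 else 0 := by
  split_ifs with h
  · have h1 := hn.natFactorization_le_one p
    have h2 := (hp.dvd_iff_one_le_factorization hn.ne_zero).mp h
    omega
  · exact Nat.factorization_eq_zero_of_not_dvd h

/-- multiplication by a square does not change the character -/
private theorem a37_chi (x y : ℚ) (hx : x ≠ 0) (hy : y ≠ 0) : chi (x * y ^ 2) = chi x := by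
  funext σ
  rw [chi_mul x (y ^ 2) hx (pow_ne_zero 2 hy), chi_sq, add_zero]

/-- elements of `ZMod 2` -/
private theorem a37_z2 (x y : ZMod 2) (h : x = 1 ↔ y = 1) : x = y := by
  revert x y; decide

/-! ### uniqueness -/

theorem stmUni : StmUni := by
  intro ρ o o' hw hw' h h'
  have hd : o.d = o'.d := by
    apply a37_eq hw.sqd hw'.sqd
    have h1 : (o.d : ℚ) ≠ 0 := by exact_mod_cast hw.sqd.ne_zero
    have h2 : (o'.d : ℚ) ≠ 0 := by exact_mod_cast hw'.sqd.ne_zero
    have h3 : IsSquare ((o.d : ℚ) * o'.d) := by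
      apply chi_isSquare
      intro σ
      rw [chi_mul _ _ h1 h2, a37_z2 _ _ ((h.d σ).symm.trans (h'.d σ))]
      exact CharTwo.add_self_eq_zero _
    have h4 : IsSquare (((o.d * o'.d : ℕ)) : ℚ) := by
      push_cast
      exact h3
    exact Rat.isSquare_natCast_iff.mp h4
  have h1 : o.d1 = o'.d1 := h.d1.symm.trans h'.d1
  have h2 : o.t = o'.t := h.t.symm.trans h'.t
  have h3 : o.w = o'.w := h.w.symm.trans h'.w
  have h4 : o.c = o'.c := h.c.symm.trans h'.c
  obtain ⟨d, d1, t, w, c⟩ := o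
  obtain ⟨d', d1', t', w', c'⟩ := o'
  simp only at hd h1 h2 h3 h4
  subst hd h1 h2 h3 h4
  rfl

/-! ### the quadratic subfield -/

private theorem a37_pd (g : SD) (h : g * g = 1) : g.pd ≠ 1 := by
  revert g; decide

private theorem a37_b (g : SD) : (g.b = 1 ∨ g.b = 3 ∨ g.b = 5 ∨ g.b = 7) ↔ g.pd = 1 := by
  revert g; decide

/-- the number `d` of a homomorphism -/
private theorem a37_d (ρ : Gam →* SD) (hρ : ρ ∈ Hs) :
    ∃ d : ℕ, Squarefree d ∧ 1 < d ∧ ∀ σ, (ρ σ).pd = chi (d : ℚ) σ := by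
  obtain ⟨q, hq, hqc⟩ := exists_chi (fun σ => (ρ σ).pd) (hρ.2.comp SD.pd) (fun σ τ => by
    rw [map_mul, SD.pd_mul])
  have hden : (q.den : ℚ) ≠ 0 := by exact_mod_cast q.den_nz
  have hz : chi q = chi ((q.num * q.den : ℤ) : ℚ) := by
    rw [← a37_chi q q.den hq hden]
    congr 1
    push_cast
    have h1 : q * q.den = q.num := Rat.mul_den_eq_num q
    rw [← h1]
    ring
  have hz0 : q.num * q.den ≠ 0 := mul_ne_zero (Rat.num_ne_zero.mpr hq) (by
    exact_mod_cast q.den_nz)
  have hpos : 0 < q.num * q.den := by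
    obtain ⟨c, hc, hchi⟩ := exists_conj
    have h1 := hchi _ hz0
    by_contra hneg
    have hneg' : q.num * q.den < 0 := lt_of_le_of_ne (not_lt.mp hneg) hz0
    rw [if_pos hneg', ← hz, ← hqc] at h1
    have h2 : ρ c * ρ c = 1 := by rw [← map_mul, hc, map_one]
    exact a37_pd _ h2 h1
  obtain ⟨d, b, hdb, hd⟩ := Nat.sq_mul_squarefree (q.num * q.den).natAbs
  have hb : b ≠ 0 := by
    rintro rfl
    have : (q.num * q.den).natAbs = 0 := by rw [← hdb]; simp
    exact hz0 (Int.natAbs_eq_zero.mp this)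
  have hbQ : (b : ℚ) ≠ 0 := by exact_mod_cast hb
  have hdQ : (d : ℚ) ≠ 0 := by exact_mod_cast hd.ne_zero
  have hqd : chi q = chi (d : ℚ) := by
    rw [hz, ← a37_chi d b hdQ hbQ]
    congr 1
    have h1 : ((q.num * q.den).natAbs : ℤ) = q.num * q.den := Int.natAbs_of_nonneg hpos.le
    rw [← h1, ← hdb]
    push_cast
    ring
  have hall : ∀ σ, (ρ σ).pd = chi (d : ℚ) σ := by
    intro σ
    have h1 := congrFun hqc σ
    rw [hqd] at h1
    exact h1
  refine ⟨d, hd, ?_, hall⟩
  rcases Nat.lt_or_ge 1 d with h | h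
  · exact h
  · exfalso
    have hd1 : d = 1 := le_antisymm h (Nat.pos_of_ne_zero hd.ne_zero)
    obtain ⟨σ, hσ⟩ := hρ.1 ⟨1, 0⟩
    have h1 := hall σ
    rw [hσ, hd1] at h1
    have h2 := chi_sq 1 σ
    rw [one_pow] at h2
    rw [Nat.cast_one, h2] at h1
    exact absurd h1 (by decide)

/-! ### the parameters -/

private theorem a37_tab (g : SD) :
    (if g = 1 then 0 else if SD.clC g then 3 else if SD.clZ g then 4 else
      if SD.clR g then 7 else 6 : ℕ) =
    3 * (if SD.clC g then 1 else 0) + (4 * (if SD.clZ g then 1 else 0) +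
      6 * (if SD.clT g then 1 else 0) +
      6 * ((if g.pd = 1 then 1 else 0) - (if SD.clR g then 1 else 0)) +
      7 * (if SD.clR g then 1 else 0)) := by
  revert g; decide

theorem stmPar (hP : SaPcl) (hD : SaDsc) (hH : SaHind) (hT : SaChiT) : StmPar := by
  intro ρ hρ
  obtain ⟨d, hd, hd1, hpd⟩ := a37_d ρ hρ
  have hPC := hP ρ SD.clC hρ.2 (by decide)
  have hPR := hP ρ SD.clR hρ.2 (by decide)
  have hPT := hP ρ SD.clT hρ.2 (by decide)
  have hPZ := hP ρ SD.clZ hρ.2 (by decide)
  obtain ⟨hD0, hDp⟩ := hD ρ hρ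
  -- exponents of the products
  have hodd : ∀ n : ℕ, Squarefree (2 * n) → ¬ 2 ∣ n := by
    intro n hn h2
    have h1 := hn 2 (Nat.mul_dvd_mul_left 2 h2)
    exact absurd (Nat.isUnit_iff.mp h1) (by norm_num)
  have hsq : ∀ n : ℕ, Squarefree (2 * n) → Squarefree n := fun n hn =>
    hn.squarefree_of_dvd (Dvd.intro_left 2 rfl)
  have hdvd : ∀ p : ℕ, p.Prime → p ≠ 2 → (p ∣ d ↔ (ρ (tau p)).pd = 1) := by
    intro p hp hp2
    have hdQ : (d : ℚ) ≠ 0 := by exact_mod_cast hd.ne_zero
    rw [hpd, hT p hp hp2 d hdQ]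
    haveI := Fact.mk hp
    rw [padicValRat.of_nat, ← Nat.factorization_def d hp, a37_fac hd hp]
    split_ifs with h
    · exact iff_of_true h (by decide)
    · exact iff_of_false h (by decide)
  have hd1d : pcl SD.clR ρ ∣ d := by
    apply a37_dvd (hsq _ hPR.1) hd.ne_zero
    intro p hp hpR
    have hp2 : p ≠ 2 := by
      rintro rfl
      exact hodd _ hPR.1 hpR
    rw [hdvd p hp hp2]
    exact ((SD.clR_iff _).mp ((hPR.2 p hp hp2).mp hpR)).1
  refine ⟨⟨d, pcl SD.clR ρ, pcl SD.clT ρ, pcl SD.clZ ρ, (dsc ρ).factorization 2⟩,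
    ⟨hd, hd1, hPT.1, hPZ.1, hd1d, ?_⟩, ⟨?_, rfl, rfl, rfl, rfl⟩,
    Nat.one_le_iff_ne_zero.mpr (hsq _ hPC.1).ne_zero, ?_⟩
  · rw [← Nat.not_even_iff_odd, even_iff_two_dvd]
    exact hodd _ hPR.1
  · intro σ
    rw [a37_b, hpd]
  · -- the formula
    have hgd : Nat.gcd d 2 ∣ d := Nat.gcd_dvd_left _ _
    have hg0 : Nat.gcd d 2 ≠ 0 := Nat.gcd_ne_zero_left hd.ne_zero
    have hR0 := (hsq _ hPR.1).ne_zero
    have hT0 := (hsq _ hPT.1).ne_zero
    have hZ0 := (hsq _ hPZ.1).ne_zero
    have hC0 := (hsq _ hPC.1).ne_zero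
    have hcop : Nat.Coprime (pcl SD.clR ρ) (Nat.gcd d 2) := by
      refine Nat.Coprime.coprime_dvd_right (Nat.gcd_dvd_right _ _) ?_
      exact ((Nat.Prime.coprime_iff_not_dvd Nat.prime_two).mpr (hodd _ hPR.1)).symm
    have hRg : pcl SD.clR ρ ∣ d / Nat.gcd d 2 := by
      apply hcop.dvd_of_dvd_mul_left
      rwa [Nat.mul_div_cancel' hgd]
    have hdg0 : d / Nat.gcd d 2 ≠ 0 := by
      rw [Nat.div_ne_zero_iff_of_dvd hgd]
      exact ⟨hd.ne_zero, hg0⟩
    set d0 := d / Nat.gcd d 2 / pcl SD.clR ρ with hd0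
    have hd00 : d0 ≠ 0 := by
      rw [hd0, Nat.div_ne_zero_iff_of_dvd hRg]
      exact ⟨hdg0, hR0⟩
    have hfac0 : d0 * pcl SD.clR ρ * Nat.gcd d 2 = d := by
      rw [hd0, Nat.div_mul_cancel hRg, Nat.div_mul_cancel hgd]
    have hsz : (⟨d, pcl SD.clR ρ, pcl SD.clT ρ, pcl SD.clZ ρ, (dsc ρ).factorization 2⟩ :
        Out).sz = pcl SD.clZ ρ ^ 4 * pcl SD.clT ρ ^ 6 * d0 ^ 6 * pcl SD.clR ρ ^ 7 *
          2 ^ (dsc ρ).factorization 2 := rfl
    rw [hsz]
    have hne : pcl SD.clC ρ ^ 3 * (pcl SD.clZ ρ ^ 4 * pcl SD.clT ρ ^ 6 * d0 ^ 6 *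
        pcl SD.clR ρ ^ 7 * 2 ^ (dsc ρ).factorization 2) ≠ 0 := by positivity
    apply Nat.eq_of_factorization_eq hD0 hne
    intro p
    have hexp : (pcl SD.clC ρ ^ 3 * (pcl SD.clZ ρ ^ 4 * pcl SD.clT ρ ^ 6 * d0 ^ 6 *
        pcl SD.clR ρ ^ 7 * 2 ^ (dsc ρ).factorization 2)).factorization p =
        3 * (pcl SD.clC ρ).factorization p + (4 * (pcl SD.clZ ρ).factorization p +
          6 * (pcl SD.clT ρ).factorization p + 6 * d0.factorization p +
          7 * (pcl SD.clR ρ).factorization p +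
          (dsc ρ).factorization 2 * (2 : ℕ).factorization p) := by
      rw [Nat.factorization_mul (by positivity) (by positivity),
        Nat.factorization_mul (by positivity) (by positivity),
        Nat.factorization_mul (by positivity) (by positivity),
        Nat.factorization_mul (by positivity) (by positivity),
        Nat.factorization_mul (by positivity) (by positivity)]
      simp only [Nat.factorization_pow, Finsupp.add_apply, Finsupp.smul_apply, smul_eq_mul]
    rw [hexp]
    by_cases hp : p.Prime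
    swap
    · simp [Nat.factorization_eq_zero_of_not_prime _ hp]
    by_cases hp2 : p = 2
    · subst hp2
      have h2d : ¬ 2 ∣ d0 := by
        intro h2
        have h3 : 2 * 2 ∣ d := by
          rw [← hfac0]
          have h4 : 2 ∣ d := by
            rw [← hfac0]
            exact Dvd.dvd.mul_right (Dvd.dvd.mul_right h2 _) _
          have h5 : Nat.gcd d 2 = 2 := Nat.gcd_eq_right h4
          rw [h5]
          exact Nat.mul_dvd_mul (Dvd.dvd.mul_right h2 _) (dvd_refl 2)
        exact absurd (Nat.isUnit_iff.mp (hd 2 h3)) (by norm_num)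
      rw [Nat.factorization_eq_zero_of_not_dvd (hodd _ hPC.1),
        Nat.factorization_eq_zero_of_not_dvd (hodd _ hPZ.1),
        Nat.factorization_eq_zero_of_not_dvd (hodd _ hPT.1),
        Nat.factorization_eq_zero_of_not_dvd (hodd _ hPR.1),
        Nat.factorization_eq_zero_of_not_dvd h2d, Nat.prime_two.factorization_self]
      omega
    · have h20 : (2 : ℕ).factorization p = 0 := by
        apply Nat.factorization_eq_zero_of_not_dvd
        intro h
        exact hp2 ((Nat.prime_dvd_prime_iff_eq hp Nat.prime_two).mp h)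
      have hgp : (Nat.gcd d 2).factorization p = 0 := by
        apply Nat.factorization_eq_zero_of_not_dvd
        intro h
        exact hp2 ((Nat.prime_dvd_prime_iff_eq hp Nat.prime_two).mp
          (h.trans (Nat.gcd_dvd_right _ _)))
      have hd0p : d0.factorization p = d.factorization p - (pcl SD.clR ρ).factorization p := by
        have h1 : d.factorization p = d0.factorization p + (pcl SD.clR ρ).factorization p +
            (Nat.gcd d 2).factorization p := by
          conv_lhs => rw [← hfac0]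
          rw [Nat.factorization_mul (mul_ne_zero hd00 hR0) hg0,
            Nat.factorization_mul hd00 hR0]
          rfl
        omega
      have hpcl : ∀ C : SD → Prop, ∀ [Decidable (C (ρ (tau p)))],
          (Squarefree (2 * pcl C ρ) ∧ ∀ p : ℕ, p.Prime → p ≠ 2 →
            (p ∣ pcl C ρ ↔ C (ρ (tau p)))) →
          (pcl C ρ).factorization p = if C (ρ (tau p)) then 1 else 0 := by
        intro C _ hC
        rw [a37_fac (hsq _ hC.1) hp]
        exact if_congr (hC.2 p hp hp2) rfl rfl
      rw [hDp p hp hp2, hH, a37_tab, h20, mul_zero, add_zero, hd0p, hpcl _ hPC, hpcl _ hPZ,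
        hpcl _ hPT, hpcl _ hPR, a37_fac hd hp, if_congr (hdvd p hp hp2) rfl rfl]

end Pool.Agent.H32.MA
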