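import Pool.Agent.H32.MA.AStm
import Pool.Agent.H32.MA.RApx
import Pool.Agent.H32.MA.RIp
import Pool.Agent.H32.MA.RIpC
import Pool.Agent.H98.MK.DiscCompare

/-!
# Project MA9, row A16: unramified square roots (helper78)
-/

set_option autoImplicit false

open scoped BigOperators Pointwise
open NumberField IsDedekindDomain

namespace Pool.Agent.H32.MA

open Pool.Agent.H98.MK (Om Gam dabs fld chi)
open Pool.Agent.H98.MF (ord)
open Pool.Agent.H98.MF.B (ord_mul ord_one ord_inv ord_pow)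

/-- a Galois field with trivial inertia above `p` -/
theorem a16_unram {L : Type} [Field L] [NumberField L] [IsGalois ℚ L] {p : ℕ} (hp : p.Prime)
    (h : ∀ P : Ideal (𝓞 L), P.IsPrime → (p : 𝓞 L) ∈ P → ∀ σ ∈ P.inertia (L ≃ₐ[ℚ] L), σ = 1) :
    ¬ (p : ℤ) ∣ discr L := by
  rw [NumberField.not_dvd_discr_iff_forall_mem L (𝓞 L) (Nat.prime_iff_prime_int.1 hp)]
  intro P hP hpP
  have h1 : (p : 𝓞 L) ∈ P := by simpa using hpP
  have h2 : P.ramificationIdx ℤ = 1 := by
    rw [Pool.Agent.H98.MK.dc_cardZ P, Nat.card_eq_one_iff_unique]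
    refine ⟨⟨fun a b => ?_⟩, ⟨1⟩⟩
    apply Subtype.ext
    rw [h P hP h1 a.1 a.2, h P hP h1 b.1 b.2]
  exact Ideal.ramificationIdx_eq_one_iff.mp h2

section

variable {K : Type} [Field K] [NumberField K]

/-- an integral representative, a unit above `p` -/
theorem a16_unit {b : K} (hb : b ≠ 0) {p : ℕ} (hp : p.Prime)
    (h : ∀ P : HeightOneSpectrum (𝓞 K), 1 ≤ ord P (p : K) → Even (ord P b)) :
    ∃ c : K, c ≠ 0 ∧ IsIntegral ℤ (b * c ^ 2) ∧ ∃ N : ℤ, nmK (b * c ^ 2) = N ∧ ¬ (p : ℤ) ∣ N := by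
  obtain ⟨z, hz0, hz⟩ := st_apx K p hp (fun P => -(ord P b) / 2)
  have h0 : ∀ P : HeightOneSpectrum (𝓞 K), 1 ≤ ord P (p : K) → ord P (b * z ^ 2) = 0 := by
    intro P hP
    rw [ord_mul P hb (pow_ne_zero 2 hz0), ord_pow P z 2, hz P hP]
    obtain ⟨r, hr⟩ := h P hP
    push_cast
    omega
  obtain ⟨s, hs, hint⟩ := (st_ip K p hp (b * z ^ 2)).2 fun P hP => (h0 P hP).ge
  have hs0 : s ≠ 0 := by
    rintro rfl
    rw [Nat.coprime_zero_left] at hs
    exact hp.one_lt.ne' hs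
  have hsK : (s : K) ≠ 0 := by exact_mod_cast hs0
  have hc0 : z * (s : K) ≠ 0 := mul_ne_zero hz0 hsK
  have hint2 : IsIntegral ℤ (b * (z * (s : K)) ^ 2) := by
    have hs' : IsIntegral ℤ (s : K) := by
      exact_mod_cast isIntegral_algebraMap (R := ℤ) (A := K) (x := (s : ℤ))
    have := hs'.mul hint
    rwa [show b * (z * (s : K)) ^ 2 = (s : K) * ((s : K) * (b * z ^ 2)) by ring]
  refine ⟨z * (s : K), hc0, hint2, ?_⟩
  have hn : IsIntegral ℤ (Algebra.norm ℚ (b * (z * (s : K)) ^ 2)) := Algebra.isIntegral_norm ℚ hint2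
  obtain ⟨N, hN⟩ := IsIntegrallyClosed.isIntegral_iff.1 hn
  have hN' : nmK (b * (z * (s : K)) ^ 2) = (N : ℚ) := by
    unfold nmK
    rw [← hN]
    simp
  refine ⟨N, hN', fun hdvd => ?_⟩
  have hβ0 : b * (z * (s : K)) ^ 2 ≠ 0 := mul_ne_zero hb (pow_ne_zero 2 hc0)
  have hβ : ∀ P : HeightOneSpectrum (𝓞 K), 1 ≤ ord P (p : K) →
      ord P (b * (z * (s : K)) ^ 2) = 0 := by
    intro P hP
    rw [show b * (z * (s : K)) ^ 2 = b * z ^ 2 * (s : K) ^ 2 by ring,
      ord_mul P (mul_ne_zero hb (pow_ne_zero 2 hz0)) (pow_ne_zero 2 hsK), h0 P hP,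
      ord_pow P (s : K) 2, r3_ord_coprime P hP hs]
    simp
  have hinv : (b * (z * (s : K)) ^ 2)⁻¹ ∈ Ip K p := by
    rw [st_ip K p hp]
    intro P hP
    rw [ord_inv, hβ P hP]
    simp
  have h1 := (st_ipT K p hp _ hinv).2
  have h2 : nmK (b * (z * (s : K)) ^ 2)⁻¹ = (nmK (b * (z * (s : K)) ^ 2))⁻¹ := by
    refine eq_inv_of_mul_eq_one_right ?_
    rw [← nm_mul, mul_inv_cancel₀ hβ0]
    unfold nmK
    exact map_one _
  have hN0 : N ≠ 0 := by
    rintro rfl
    exact nm_ne hβ0 (by simpa using hN')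
  have : Fact p.Prime := ⟨hp⟩
  rw [h2, hN', padicValRat.inv, padicValRat.of_int] at h1
  have h3 : 1 ≤ padicValInt p N := by
    by_contra hcon
    have h4 : padicValInt p N = 0 := by omega
    rcases padicValInt.eq_zero_iff.1 h4 with h5 | h5 | h5
    · exact hp.one_lt.ne' h5
    · exact hN0 h5
    · exact h5 hdvd
  omega

end

theorem a16_mem {L : Type} [Field L] [NumberField L] {p : ℕ} (hp : p.Prime) (P : Ideal (𝓞 L))
    (hP : P.IsPrime) (hpP : (p : 𝓞 L) ∈ P) {N : ℤ} (hN : (N : 𝓞 L) ∈ P) : (p : ℤ) ∣ N := by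
  by_contra h
  have h1 : IsCoprime (p : ℤ) N := ((Nat.prime_iff_prime_int.1 hp).coprime_iff_not_dvd).2 h
  obtain ⟨u, v, huv⟩ := h1
  apply hP.ne_top
  rw [Ideal.eq_top_iff_one]
  have h2 : (1 : 𝓞 L) = (u : 𝓞 L) * (p : 𝓞 L) + (v : 𝓞 L) * (N : 𝓞 L) := by
    have := congrArg (fun z : ℤ => (z : 𝓞 L)) huv
    push_cast at this
    exact this.symm
  rw [h2]
  exact P.add_mem (P.mul_mem_left _ hpP) (P.mul_mem_left _ hN)

/-- the inertia group fixes square roots of units -/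
theorem a16_fix {L : Type} [Field L] [NumberField L] {p : ℕ} (hp : p.Prime) (hp2 : p ≠ 2)
    (P : Ideal (𝓞 L)) (hP : P.IsPrime) (hpP : (p : 𝓞 L) ∈ P) (σ : L ≃ₐ[ℚ] L)
    (hσ : σ ∈ P.inertia (L ≃ₐ[ℚ] L)) (x y : L) (hx : IsIntegral ℤ x) (hy : IsIntegral ℤ y)
    (h : σ x = x ∨ σ x = -x) (N : ℤ) (hN : x ^ 2 * y = N) (hpN : ¬ (p : ℤ) ∣ N) : σ x = x := by
  rcases h with h | h
  · exact h
  · exfalso
    obtain ⟨X, hX⟩ : ∃ X : 𝓞 L, (X : L) = x := ⟨⟨x, hx⟩, rfl⟩
    obtain ⟨Y, hY⟩ : ∃ Y : 𝓞 L, (Y : L) = y := ⟨⟨y, hy⟩, rfl⟩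
    have h1 : σ • X - X ∈ P := hσ X
    have h2 : ((4 * N : ℤ) : 𝓞 L) = (σ • X - X) * ((σ • X - X) * Y) := by
      apply RingOfIntegers.ext
      have e1 : ((4 * N : ℤ) : L) = (-x - x) * ((-x - x) * y) := by
        push_cast
        rw [← hN]
        ring
      have e2 : (((σ • X - X) * ((σ • X - X) * Y) : 𝓞 L) : L) =
          (σ x - x) * ((σ x - x) * y) := by
        rw [← hX, ← hY]
        rfl
      rw [e2, h, ← e1]
      exact map_intCast (algebraMap (𝓞 L) L) (4 * N)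
    have h4 := a16_mem hp P hP hpP (N := 4 * N) (by rw [h2]; exact P.mul_mem_right _ h1)
    rcases (Nat.prime_iff_prime_int.1 hp).dvd_or_dvd h4 with h5 | h5
    · have h6 : p ∣ 4 := by exact_mod_cast h5
      have h7 : p ∣ 2 ^ 2 := h6
      exact hp2 ((Nat.prime_dvd_prime_iff_eq hp Nat.prime_two).1 (hp.dvd_of_dvd_pow h7))
    · exact hpN h5

theorem a16_sq {R : Type} [Field R] {x y : R} (h : x ^ 2 = y ^ 2) : x = y ∨ x = -y :=
  sq_eq_sq_iff_eq_or_eq_neg.1 h

theorem saUnr {K : Type} [Field K] [NumberField K] (F : QF K) (j : K →+* Om) : SaUnr F j := by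
  intro b θ hb hθ p hp hp2 hTy
  obtain ⟨c, hc0, hint, N, hN, hpN⟩ := a16_unit hb hp hTy.2
  obtain ⟨θ', hθ'⟩ := IsAlgClosed.exists_pow_nat_eq (j (F.cj b)) (n := 2) two_pos
  have hD2 : (j F.dl) ^ 2 = (F.d : Om) := by rw [← map_pow, F.sq, map_natCast]
  have hjxy : ∀ x y : ℚ, j ((x : K) + y * F.dl) = (x : Om) + y * j F.dl := by
    intro x y
    rw [map_add, map_mul, map_ratCast, map_ratCast]
  have hpd : ¬ (p : ℤ) ∣ (F.d : ℤ) := by
    intro h
    exact hTy.1 ((Int.natCast_dvd_natCast.1 h).mul_left 2)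
  -- the Galois field
  set L : IntermediateField ℚ Om := IntermediateField.adjoin ℚ {j F.dl, θ, θ'} with hL
  have hDL : j F.dl ∈ L := IntermediateField.subset_adjoin _ _ (by simp)
  have hθL : θ ∈ L := IntermediateField.subset_adjoin _ _ (by simp)
  have hθL' : θ' ∈ L := IntermediateField.subset_adjoin _ _ (by simp)
  have hrat : ∀ u : ℚ, (u : Om) ∈ L := fun u => by
    have := L.algebraMap_mem u
    rwa [eq_ratCast] at this
  have hjL : ∀ x : K, j x ∈ L := by
    intro x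
    obtain ⟨u, v, rfl⟩ := F.exists_xy x
    rw [hjxy]
    exact L.add_mem (hrat u) (L.mul_mem (hrat v) hDL)
  have hfd : FiniteDimensional ℚ L :=
    IntermediateField.finiteDimensional_adjoin fun x _ => Algebra.IsIntegral.isIntegral x
  have hnf : NumberField L := ⟨⟩
  have hnorm : Normal ℚ L := by
    refine IntermediateField.normal_iff_forall_map_le'.2 ?_
    intro σ
    rw [hL, IntermediateField.adjoin_map, IntermediateField.adjoin_le_iff, ← hL]
    have hσr : ∀ u : ℚ, σ (u : Om) = (u : Om) := fun u => map_ratCast σ u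
    have hσD : σ (j F.dl) = j F.dl ∨ σ (j F.dl) = -(j F.dl) := by
      apply a16_sq
      rw [← map_pow, hD2, map_natCast]
    rcases hσD with h1 | h1
    · have h2 : ∀ x : K, σ (j x) = j x := by
        intro x
        obtain ⟨u, v, rfl⟩ := F.exists_xy x
        rw [hjxy, map_add, map_mul, hσr, hσr, h1]
      have h3 : σ θ = θ ∨ σ θ = -θ := a16_sq (by rw [← map_pow, hθ, h2])
      have h4 : σ θ' = θ' ∨ σ θ' = -θ' := a16_sq (by rw [← map_pow, hθ', h2])
      rintro _ ⟨x, hx, rfl⟩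
      rcases hx with rfl | rfl | hx
      · show σ (j F.dl) ∈ L
        rw [h1]
        exact hDL
      · show σ x ∈ L
        rcases h3 with h3 | h3 <;> rw [h3]
        · exact hθL
        · exact L.neg_mem hθL
      · rw [Set.mem_singleton_iff] at hx
        subst hx
        show σ x ∈ L
        rcases h4 with h4 | h4 <;> rw [h4]
        · exact hθL'
        · exact L.neg_mem hθL'
    · have h2 : ∀ x : K, σ (j x) = j (F.cj x) := by
        intro x
        obtain ⟨u, v, rfl⟩ := F.exists_xy x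
        rw [hjxy, map_add, map_mul, hσr, hσr, h1, F.cj_xy, sub_eq_add_neg, ← neg_mul,
          ← Rat.cast_neg, hjxy, Rat.cast_neg]
        ring
      have h3 : σ θ = θ' ∨ σ θ = -θ' := a16_sq (by rw [← map_pow, hθ, h2, hθ'])
      have h4 : σ θ' = θ ∨ σ θ' = -θ := a16_sq (by rw [← map_pow, hθ', h2, F.cj_cj, hθ])
      rintro _ ⟨x, hx, rfl⟩
      rcases hx with rfl | rfl | hx
      · show σ (j F.dl) ∈ L
        rw [h1]
        exact L.neg_mem hDL
      · show σ x ∈ L
        rcases h3 with h3 | h3 <;> rw [h3]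
        · exact hθL'
        · exact L.neg_mem hθL'
      · rw [Set.mem_singleton_iff] at hx
        subst hx
        show σ x ∈ L
        rcases h4 with h4 | h4 <;> rw [h4]
        · exact hθL
        · exact L.neg_mem hθL
  have hgal : IsGalois ℚ L := ⟨⟩
  have hmain : ¬ (p : ℤ) ∣ discr L := by
    refine a16_unram hp fun P hP hpP σ hσ => ?_
    set jL : K →+* L := j.codRestrict L hjL with hjLdef
    have hjL' : ∀ x, ((jL x : L) : Om) = j x := fun x => rfl
    have hβint : IsIntegral ℤ (jL (b * c ^ 2)) := map_isIntegral_int jL hint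
    have hβint' : IsIntegral ℤ (jL (F.cj (b * c ^ 2))) :=
      map_isIntegral_int (jL.comp (F.cj : K →+* K)) hint
    have hNN : jL (b * c ^ 2) * jL (F.cj (b * c ^ 2)) = (N : L) := by
      rw [← map_mul, ← F.nm_eq, hN, Rat.cast_intCast, map_intCast]
    have hδ2 : (⟨j F.dl, hDL⟩ : L) ^ 2 = (F.d : L) := Subtype.ext (by push_cast; exact hD2)
    have hδ : σ ⟨j F.dl, hDL⟩ = ⟨j F.dl, hDL⟩ := by
      have hi : IsIntegral ℤ (⟨j F.dl, hDL⟩ : L) := by
        refine IsIntegral.of_pow (n := 2) two_pos ?_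
        rw [hδ2]
        exact_mod_cast isIntegral_algebraMap (R := ℤ) (A := L) (x := (F.d : ℤ))
      refine a16_fix hp hp2 P hP hpP σ hσ _ 1 hi isIntegral_one ?_ (F.d : ℤ) ?_ hpd
      · apply a16_sq
        rw [← map_pow, hδ2, map_natCast]
      · rw [hδ2, mul_one]
        push_cast
        rfl
    have hfix : ∀ x : K, σ (jL x) = jL x := by
      intro x
      obtain ⟨u, v, rfl⟩ := F.exists_xy x
      have h1 : jL ((u : K) + v * F.dl) = (u : L) + v * ⟨j F.dl, hDL⟩ := by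
        rw [map_add, map_mul, map_ratCast, map_ratCast]
        rfl
      rw [h1, map_add, map_mul, map_ratCast, map_ratCast, hδ]
    have hroot : ∀ (t : L) (b₁ c₁ y : K), c₁ ≠ 0 → t ^ 2 = jL b₁ →
        IsIntegral ℤ (jL (b₁ * c₁ ^ 2)) → IsIntegral ℤ (jL y) →
        jL (b₁ * c₁ ^ 2) * jL y = (N : L) → σ t = t := by
      intro t b₁ c₁ y hc₁ ht hi hy hNy
      have h1 : (t * jL c₁) ^ 2 = jL (b₁ * c₁ ^ 2) := by
        rw [mul_pow, ht, map_mul, map_pow]
      have h2 : IsIntegral ℤ (t * jL c₁) := by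
        refine IsIntegral.of_pow (n := 2) two_pos ?_
        rw [h1]
        exact hi
      have h3 := a16_fix hp hp2 P hP hpP σ hσ _ (jL y) h2 hy
        (a16_sq (by rw [← map_pow, h1, hfix])) N (by rw [h1, hNy]) hpN
      rw [map_mul, hfix] at h3
      exact mul_right_cancel₀ ((map_ne_zero jL).2 hc₁) h3
    have hθf : σ ⟨θ, hθL⟩ = ⟨θ, hθL⟩ :=
      hroot ⟨θ, hθL⟩ b c (F.cj (b * c ^ 2)) hc0 (Subtype.ext hθ) hβint hβint' hNN
    have hcjβ : F.cj (b * c ^ 2) = F.cj b * F.cj c ^ 2 := by rw [map_mul, map_pow]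
    have hθf' : σ ⟨θ', hθL'⟩ = ⟨θ', hθL'⟩ := by
      refine hroot ⟨θ', hθL'⟩ (F.cj b) (F.cj c) (b * c ^ 2) (F.cj_ne hc0) (Subtype.ext hθ') ?_
        hβint ?_
      · rw [← hcjβ]
        exact hβint'
      · rw [← hcjβ, mul_comm]
        exact hNN
    have hid : (σ : L →ₐ[ℚ] L) = AlgHom.id ℚ L := by
      refine IntermediateField.algHom_ext_of_eq_adjoin ℚ hL fun x hx => ?_
      rcases hx with rfl | rfl | hx
      · exact hδ
      · exact hθf
      · rw [Set.mem_singleton_iff] at hx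
        subst hx
        exact hθf'
    exact AlgEquiv.ext fun x => DFunLike.congr_fun hid x
  -- the subfield
  have hML : IntermediateField.adjoin ℚ {j F.dl, θ} ≤ L := by
    rw [hL]
    refine IntermediateField.adjoin.mono ℚ _ _ ?_
    intro x hx
    rcases hx with hx | hx
    · exact Or.inl hx
    · exact Or.inr (Or.inl hx)
  have hfdM : FiniteDimensional ℚ (IntermediateField.adjoin ℚ {j F.dl, θ} :
      IntermediateField ℚ Om) :=
    IntermediateField.finiteDimensional_adjoin fun x _ => Algebra.IsIntegral.isIntegral x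
  have hnfM : NumberField (IntermediateField.adjoin ℚ {j F.dl, θ} : IntermediateField ℚ Om) := ⟨⟩
  let _ : Algebra (IntermediateField.adjoin ℚ {j F.dl, θ} : IntermediateField ℚ Om) L :=
    (IntermediateField.inclusion hML).toRingHom.toAlgebra
  have hdvd := NumberField.discr_dvd_discr
    (IntermediateField.adjoin ℚ {j F.dl, θ} : IntermediateField ℚ Om) L
  unfold dabs
  rw [dif_pos hnfM]
  refine Nat.factorization_eq_zero_of_not_dvd fun h => hmain ?_
  exact (Int.natCast_dvd.2 h).trans hdvd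

end Pool.Agent.H32.MA
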