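import Pool.Agent.H32.MA.AStm
import Pool.Agent.H98.MK.ChiBasic
import Pool.Agent.H98.MK.CountParamA

/-!
# Project MA9 (MP_a9b340), row A23: the exponent at two of a twist
-/

set_option autoImplicit false

open scoped BigOperators

namespace Pool.Agent.H32.MA

open Pool.Agent.H98.MK (Om Gam dabs fld chi dd adm par lg par_hom par_lc z12 chi_hom chi_lc
  m7_z12_one m7_z12_two m7_z12_adm)

theorem a23_chi_one (d : ℚ) : chi d 1 = 0 := by
  have h := chi_hom d 1 1
  rw [mul_one] at h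
  exact left_eq_add.1 h

/-- a quadratic character as a homomorphism -/
noncomputable def a23Hom (d : ℚ) : Gam →* Multiplicative (ZMod 2) where
  toFun σ := Multiplicative.ofAdd (chi d σ)
  map_one' := by rw [a23_chi_one]; rfl
  map_mul' σ τ := by rw [chi_hom]; rfl

theorem a23_ker (d : ℚ) (σ : Gam) : σ ∈ (a23Hom d).ker ↔ chi d σ = 0 := by
  rw [MonoidHom.mem_ker]
  exact ⟨fun h => Multiplicative.ofAdd.injective h, fun h => congrArg Multiplicative.ofAdd h⟩

theorem a23_open {H : Type} [Group H] (ρ : Gam →* H) (h : IsLocallyConstant ρ) :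
    IsOpen (ρ.ker : Set Gam) := h {1}

theorem a23_exists_U {G₁ G₂ : Type} [Group G₁] [Group G₂] (ρ₁ : Gam →* G₁) (ρ₂ : Gam →* G₂)
    (h₁ : IsLocallyConstant ρ₁) (h₂ : IsLocallyConstant ρ₂) (S : Finset ℚ) :
    ∃ U : Subgroup Gam, U.Normal ∧ IsOpen (U : Set Gam) ∧ U ≤ ρ₁.ker ∧ U ≤ ρ₂.ker ∧
      ∀ d ∈ S, ∀ σ ∈ U, chi d σ = 0 := by
  classical
  induction S using Finset.induction_on with
  | empty =>
    refine ⟨ρ₁.ker ⊓ ρ₂.ker, inferInstance, ?_, inf_le_left, inf_le_right, by simp⟩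
    rw [Subgroup.coe_inf]
    exact (a23_open ρ₁ h₁).inter (a23_open ρ₂ h₂)
  | insert d S _ ih =>
    obtain ⟨U, hn, ho, hU1, hU2, hS⟩ := ih
    refine ⟨U ⊓ (a23Hom d).ker, inferInstance, ?_, inf_le_left.trans hU1,
      inf_le_left.trans hU2, ?_⟩
    · rw [Subgroup.coe_inf]
      refine ho.inter (a23_open _ ?_)
      exact (chi_lc d).comp Multiplicative.ofAdd
    · intro e he σ hσ
      rcases Finset.mem_insert.1 he with rfl | he
      · exact (a23_ker _ σ).1 hσ.2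
      · exact hS e he σ hσ.1

theorem a23_dd {p : ℕ} (hp : p.Prime) (h2 : p ≠ 2) : dd p % 4 = 1 := by
  have h1 : p ≠ 1 := hp.ne_one
  have hodd : p % 2 = 1 := hp.eq_two_or_odd.resolve_left h2
  unfold dd
  rw [if_neg h1, if_neg h2]
  split_ifs with h
  · omega
  · omega

theorem a23_par {W : Type} [AddCommGroup W] [Module (ZMod 2) W] (z z' : ℕ →₀ W)
    (hz : adm z) (hz' : adm z') (h1 : z 1 = z' 1) (h2 : z 2 = z' 2) (σ : Gam)
    (h : ∀ p : ℕ, p.Prime → p ≠ 2 → (z p ≠ 0 ∨ z' p ≠ 0) → chi (dd p : ℤ) σ = 0) :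
    par z σ = par z' σ := by
  classical
  unfold par
  rw [Finsupp.sum_of_support_subset z (Finset.subset_union_left (s₂ := z'.support)) _
    (fun i _ => smul_zero _), Finsupp.sum_of_support_subset z'
    (Finset.subset_union_right (s₁ := z.support)) _ (fun i _ => smul_zero _)]
  refine Finset.sum_congr rfl fun i hi => ?_
  have hi' : z i ≠ 0 ∨ z' i ≠ 0 := by
    rcases Finset.mem_union.1 hi with hi | hi
    · exact Or.inl (Finsupp.mem_support_iff.1 hi)
    · exact Or.inr (Finsupp.mem_support_iff.1 hi)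
  have hpr : i = 1 ∨ i.Prime := hi'.elim (hz i) (hz' i)
  rcases hpr with rfl | hpr
  · rw [h1]
  · by_cases hi2 : i = 2
    · subst hi2
      rw [h2]
    · rw [h i hpr hi2 hi', zero_smul, zero_smul]

theorem saV2 (hT : SaTwo) (hS : SaTwS) : SaV2 := by
  classical
  intro ρ hρ u hu
  set u' : ℕ →₀ ZMod 2 := z12 (u 1) (u 2) with hu'
  have hadm' : adm u' := m7_z12_adm _ _
  obtain ⟨hs1, hl1⟩ := (hS ρ hρ).1 u
  obtain ⟨hs2, hl2⟩ := (hS ρ hρ).1 u'
  obtain ⟨U, hn, ho, hU1, hU2, hU⟩ := a23_exists_U (tw ρ u) (tw ρ u') hl1 hl2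
    ({-1, 2} ∪ (u.support ∪ u'.support).image fun i => ((dd i : ℤ) : ℚ))
  obtain ⟨I, Dc, hUI, hID, hcmp, h4, -, -⟩ := hT U ho
    (hU (-1) (by simp)) (hU 2 (by simp))
  refine hcmp SD (tw ρ u) (tw ρ u') SD.H0 1 hU1 hU2 hs1 hs2 fun σ hσ => ?_
  have e : par u σ = par u' σ := by
    refine a23_par u u' hu hadm' (m7_z12_one _ _).symm (m7_z12_two _ _).symm σ
      fun p hp hp2 hne => ?_
    refine h4 (dd p) (a23_dd hp hp2) (hU _ ?_) σ hσ
    apply Finset.mem_union_right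
    refine Finset.mem_image.2 ⟨p, ?_, rfl⟩
    rcases hne with hne | hne
    · exact Finset.mem_union_left _ (Finsupp.mem_support_iff.2 hne)
    · exact Finset.mem_union_right _ (Finsupp.mem_support_iff.2 hne)
  rw [tw_apply, tw_apply, e, one_mul, inv_one, mul_one]

end Pool.Agent.H32.MA
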