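import Pool.Agent.H32.MA.FDefs

/-!
# Project MA9 (MP_a9b340), block F, row F11: few labels, the bilinear bound in boxes
-/

set_option autoImplicit false

open scoped BigOperators
open NumberField IsDedekindDomain

namespace Pool.Agent.H32.MA

open Pool.Agent.H98.MF (ord)

section

variable {K : Type} [Field K] [NumberField K]

theorem f11_nS_pos {m : ℕ} {S : Finset (HeightOneSpectrum (𝓞 K))} (hS : Good m S) : 0 < nS S :=
  Finset.prod_pos fun P hP => (hS.1 P hP).1.pos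

theorem f11_dvp {m : ℕ} {S : Finset (HeightOneSpectrum (𝓞 K))} (hS : Good m S) (n : ℕ) :
    nS (dvp n S) ∣ n := by
  classical
  unfold nS dvp
  have h1 : ∏ P ∈ S.filter (fun P => nP P ∣ n), nP P =
      ∏ p ∈ (S.filter (fun P => nP P ∣ n)).image nP, p := by
    rw [Finset.prod_image]
    intro P hP Q hQ h
    rw [Finset.mem_coe, Finset.mem_filter] at hP hQ
    exact hS.2 (Finset.mem_coe.2 hP.1) (Finset.mem_coe.2 hQ.1) h
  rw [h1]
  refine Finset.prod_primes_dvd n ?_ ?_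
  · intro p hp
    rw [Finset.mem_image] at hp
    obtain ⟨P, hP, rfl⟩ := hp
    rw [Finset.mem_filter] at hP
    exact (hS.1 P hP.1).1.prime
  · intro p hp
    rw [Finset.mem_image] at hp
    obtain ⟨P, hP, rfl⟩ := hp
    rw [Finset.mem_filter] at hP
    exact hP.2

theorem f11_rtS (F : QF K) (S : Finset (HeightOneSpectrum (𝓞 K))) : rtS F S ≤ nS S := by
  unfold rtS
  split_ifs with h
  · exact h.choose_spec.1.le
  · exact Nat.zero_le _

end

theorem f_lbN (_hPr : ∀ (K : Type) [Field K] [NumberField K] (F : QF K), StPrS F)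
    (hTh : ∀ (K : Type) [Field K] [NumberField K] (F : QF K), StThue F)
    (hNg : ∀ (K : Type) [Field K] [NumberField K] (F : QF K), StNg F) : StLbN := by
  classical
  refine ⟨16, by norm_num, fun K _ _ F m hm hd => ?_⟩
  have hdm : 8 * F.d ≤ m := Nat.le_of_dvd (Nat.pos_of_ne_zero hm) hd
  have hd1 := F.lt
  refine ⟨Finset.range (F.d + 1) ×ˢ ((Finset.Icc 0 ((m * F.d ^ 3 : ℕ) : ℤ) ×ˢ
    Finset.Icc 0 ((m * F.d ^ 3 : ℕ) : ℤ)) ×ˢ ((Finset.univ : Finset (Bool × Bool)) ×ˢ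
    (Finset.range (F.d + 1) ×ˢ Finset.range (F.d + 1)))), ?_, fun S hS => ?_⟩
  · rw [Finset.card_product, Finset.card_product, Finset.card_product, Finset.card_product,
      Finset.card_product, Finset.card_range, Int.card_Icc, Finset.card_univ, Fintype.card_prod,
      Fintype.card_bool]
    have h1 : (((m * F.d ^ 3 : ℕ) : ℤ) + 1 - 0).toNat = m * F.d ^ 3 + 1 := by
      rw [sub_zero]
      exact Int.toNat_natCast_add_one
    rw [h1]
    have h2 : F.d + 1 ≤ m := by omega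
    have h3 : F.d ≤ m := by omega
    have h4 : m * F.d ^ 3 + 1 ≤ 2 * m ^ 4 := by
      have h5 : F.d ^ 3 ≤ m ^ 3 := Nat.pow_le_pow_left h3 3
      have h6 : m * F.d ^ 3 ≤ m ^ 4 := by
        calc m * F.d ^ 3 ≤ m * m ^ 3 := Nat.mul_le_mul_left _ h5
          _ = m ^ 4 := by ring
      have h7 : 1 ≤ m ^ 4 := Nat.one_le_pow _ _ (Nat.pos_of_ne_zero hm)
      omega
    have h5 : (F.d + 1) * ((m * F.d ^ 3 + 1) * (m * F.d ^ 3 + 1) * (2 * 2 *
        ((F.d + 1) * (F.d + 1)))) ≤ 16 * m ^ 20 := by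
      calc (F.d + 1) * ((m * F.d ^ 3 + 1) * (m * F.d ^ 3 + 1) * (2 * 2 *
            ((F.d + 1) * (F.d + 1))))
          ≤ m * ((2 * m ^ 4) * (2 * m ^ 4) * (2 * 2 * (m * m))) := by gcongr
        _ = 16 * m ^ 11 := by ring
        _ ≤ 16 * m ^ 20 :=
          Nat.mul_le_mul_left _ (Nat.pow_le_pow_right (Nat.pos_of_ne_zero hm) (by norm_num))
    exact_mod_cast h5
  · have h1 : ThP F S (th F S) := by
      have h2 := hTh K F m hm hd S hS
      unfold th
      rw [dif_pos h2]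
      exact h2.choose_spec
    obtain ⟨n, hn, hn1, hn2⟩ := hNg K F m hm hd S hS (th F S) h1
    have h3 : ng F S = n := by
      unfold ng
      rw [hn, Nat.mul_div_cancel_left _ (f11_nS_pos hS)]
    have h4 : nS (dvp n S) ≤ n := Nat.le_of_dvd hn1 (f11_dvp hS n)
    have h5 : rtS F (dvp n S) ≤ nS (dvp n S) := f11_rtS F _
    have h6 : 0 < m * n ^ 3 := Nat.mul_pos (Nat.pos_of_ne_zero hm) (pow_pos hn1 3)
    have h7 : m * n ^ 3 ≤ m * F.d ^ 3 := Nat.mul_le_mul_left _ (Nat.pow_le_pow_left hn2 3)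
    have h8 : ∀ a : ℤ, a % ((m * n ^ 3 : ℕ) : ℤ) ∈ Finset.Icc 0 ((m * F.d ^ 3 : ℕ) : ℤ) := by
      intro a
      have h9 : (0 : ℤ) < ((m * n ^ 3 : ℕ) : ℤ) := by exact_mod_cast h6
      rw [Finset.mem_Icc]
      refine ⟨Int.emod_nonneg _ h9.ne', (Int.emod_lt_of_pos _ h9).le.trans ?_⟩
      exact_mod_cast h7
    unfold lab
    rw [h3]
    simp only [Finset.mem_product, Finset.mem_univ, true_and, Finset.mem_range]
    refine ⟨by omega, ⟨h8 _, h8 _⟩, ?_, ?_⟩
    · show nS (dvp n S) < F.d + 1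
      omega
    · show rtS F (dvp n S) < F.d + 1
      omega

open Classical in
theorem f_bx (hG : ∀ (K : Type) [Field K] [NumberField K] (F : QF K), StGLF F)
    (hLab : StLab) (hN : StLbN) : StmBX := by
  obtain ⟨C, κ, hC, hκ, hL⟩ := hLab
  obtain ⟨C1, hC1, hT⟩ := hN
  refine ⟨C1 * C, 20 + κ, mul_nonneg hC1 hC, by linarith, ?_⟩
  intro K _ _ F m hm hd Ψ A hΨ hΨm E N hE hEN α β hα hβ
  obtain ⟨T, hTc, hTm⟩ := hT K F m hm hd
  have hA : 0 ≤ A := (hΨ 0).1.trans (hΨ 0).2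
  have hfE := hG K F m hm hd E
  have hfN := hG K F m hm hd N
  have hm1 : (1 : ℝ) ≤ m := by exact_mod_cast Nat.one_le_iff_ne_zero.2 hm
  have hN0 : 0 ≤ N := by linarith
  -- the sum over the labels
  have h1 : ∀ (X : Finset (HeightOneSpectrum (𝓞 K)) → Finset (HeightOneSpectrum (𝓞 K)) → ℝ),
      ∑ᶠ e ∈ GoodLe K m E, ∑ᶠ f ∈ GoodLe K m N, X e f =
        ∑ e ∈ hfE.toFinset, ∑ f ∈ hfN.toFinset, X e f := by
    intro X
    rw [finsum_mem_eq_finite_toFinset_sum _ hfE]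
    exact Finset.sum_congr rfl fun e _ => finsum_mem_eq_finite_toFinset_sum _ hfN
  have h2 : BX F m Ψ E N α β = ∑ L ∈ T, ∑ᶠ e ∈ GoodLe K m E, ∑ᶠ f ∈ GoodLe K m N,
      if Cmp m e f ∧ lab F m f = L then α e * β f * GG F m Ψ e f else 0 := by
    have h0 : ∑ L ∈ T, (∑ᶠ e ∈ GoodLe K m E, ∑ᶠ f ∈ GoodLe K m N,
        if Cmp m e f ∧ lab F m f = L then α e * β f * GG F m Ψ e f else 0) =
        ∑ L ∈ T, ∑ e ∈ hfE.toFinset, ∑ f ∈ hfN.toFinset,
          if Cmp m e f ∧ lab F m f = L then α e * β f * GG F m Ψ e f else 0 :=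
      Finset.sum_congr rfl fun L _ => h1 _
    unfold BX
    rw [h1, h0]
    symm
    rw [Finset.sum_comm]
    refine Finset.sum_congr rfl fun e _ => ?_
    rw [Finset.sum_comm]
    refine Finset.sum_congr rfl fun f hf => ?_
    have hf' : Good m f := ((Set.Finite.mem_toFinset _).1 hf).1
    have h3 : ∀ L ∈ T, (if Cmp m e f ∧ lab F m f = L then α e * β f * GG F m Ψ e f else 0) =
        if lab F m f = L then (if Cmp m e f then α e * β f * GG F m Ψ e f else 0) else 0 := by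
      intro L _
      by_cases h4 : Cmp m e f <;> by_cases h5 : lab F m f = L <;> simp [h4, h5]
    rw [Finset.sum_congr rfl h3, Finset.sum_ite_eq T (lab F m f), if_pos (hTm f hf')]
  rw [h2]
  refine (Finset.abs_sum_le_sum_abs _ _).trans ?_
  refine (Finset.sum_le_sum fun L _ =>
    hL K F m hm hd Ψ A hΨ hΨm E N hE hEN α β hα hβ L).trans ?_
  rw [Finset.sum_const, nsmul_eq_mul]
  have h3 : E ^ (12 / 13 : ℝ) ≤ E ^ (13 / 14 : ℝ) :=
    Real.rpow_le_rpow_of_exponent_le hE (by norm_num)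
  have h4 : (m : ℝ) ^ (20 + κ) = (m : ℝ) ^ (20 : ℕ) * (m : ℝ) ^ κ := by
    rw [Real.rpow_add (by linarith), ← Real.rpow_natCast]
    norm_num
  have h5 : 0 ≤ C * A * (m : ℝ) ^ κ * N := by positivity
  calc (T.card : ℝ) * (C * A * (m : ℝ) ^ κ * N * E ^ (12 / 13 : ℝ))
      ≤ (C1 * (m : ℝ) ^ (20 : ℕ)) * (C * A * (m : ℝ) ^ κ * N * E ^ (13 / 14 : ℝ)) := by
        refine mul_le_mul hTc (mul_le_mul_of_nonneg_left h3 h5) (by positivity) (by positivity)
    _ = C1 * C * A * (m : ℝ) ^ (20 + κ) * N * E ^ (13 / 14 : ℝ) := by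
        rw [h4]
        ring

end Pool.Agent.H32.MA
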