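import Pool.Agent.H32.MA.FDefs

/-!
# Project MA9, row F9: factorisation over a label (helper78)
-/

set_option autoImplicit false

open scoped BigOperators
open NumberField IsDedekindDomain

namespace Pool.Agent.H32.MA

open Pool.Agent.H98.MF (ord)
open Pool.Agent.H98.MF.B (ord_one ord_neg)

section

variable {K : Type} [Field K] [NumberField K]

theorem ffac_chP_abs (P : HeightOneSpectrum (𝓞 K)) (γ : K) : chP P γ = 1 ∨ chP P γ = -1 := by
  unfold chP
  split_ifs
  · exact Or.inl rfl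
  · exact Or.inr rfl

theorem ffac_chS_sq (S : Finset (HeightOneSpectrum (𝓞 K))) (γ : K) : chS S γ * chS S γ = 1 := by
  unfold chS
  rw [← Finset.prod_mul_distrib]
  refine Finset.prod_eq_one fun P _ => ?_
  rcases ffac_chP_abs P γ with h | h <;> rw [h] <;> rfl

theorem ffac_chS_abs (S : Finset (HeightOneSpectrum (𝓞 K))) (γ : K) : |(chS S γ : ℝ)| ≤ 1 := by
  have h : ((chS S γ : ℝ)) * (chS S γ : ℝ) = 1 := by exact_mod_cast ffac_chS_sq S γ
  rw [abs_le]
  constructor <;> nlinarith

theorem ffac_GG (hBB : StmBB) (F : QF K) (m : ℕ) (hm : m ≠ 0) (h8 : 8 * F.d ∣ m) (Ψ : K → ℝ)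
    (A : ℝ) (hΨ : ∀ b, 0 ≤ Ψ b ∧ Ψ b ≤ A) (e f : Finset (HeightOneSpectrum (𝓞 K))) :
    |GG F m Ψ e f| ≤ A * 4 ^ (m.primeFactors.card + 1) := by
  classical
  obtain ⟨hfin, hcard⟩ := hBB K F m hm h8 (e ∪ f)
  unfold GG
  have hA : 0 ≤ A := (hΨ 0).1.trans (hΨ 0).2
  rw [finsum_mem_eq_finite_toFinset_sum _ hfin]
  calc |∑ q ∈ hfin.toFinset, Ψ (rp q) * (chS e (F.cj (rp q)) : ℝ)| ≤
        ∑ q ∈ hfin.toFinset, |Ψ (rp q) * (chS e (F.cj (rp q)) : ℝ)| :=
        Finset.abs_sum_le_sum_abs _ _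
    _ ≤ ∑ _q ∈ hfin.toFinset, A := by
        refine Finset.sum_le_sum fun q _ => ?_
        rw [abs_mul, abs_of_nonneg (hΨ _).1]
        calc Ψ (rp q) * |(chS e (F.cj (rp q)) : ℝ)| ≤ A * 1 :=
              mul_le_mul (hΨ _).2 (ffac_chS_abs e _) (abs_nonneg _) hA
          _ = A := mul_one A
    _ = (BB (K := K) m (e ∪ f)).ncard * A := by
        rw [Finset.sum_const, nsmul_eq_mul, Set.ncard_eq_toFinset_card _ hfin]
    _ ≤ A * 4 ^ (m.primeFactors.card + 1) := by
        rw [mul_comm]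
        have : ((BB (K := K) m (e ∪ f)).ncard : ℝ) ≤ 4 ^ (m.primeFactors.card + 1) := by
          exact_mod_cast hcard
        exact mul_le_mul_of_nonneg_left this hA

theorem ffac_KK (i : ℕ × ℕ) (x : ℤ × ℤ) : |(KK i x : ℝ)| ≤ 1 := by
  unfold KK
  rcases jacobiSym.trichotomy (x.1 - x.2 * i.2) i.1 with h | h | h <;>
    rcases jacobiSym.trichotomy (x.1 + x.2 * i.2) i.1 with h' | h' | h' <;>
      rw [h, h'] <;> norm_num

theorem ffac_good_sub {m : ℕ} {S T : Finset (HeightOneSpectrum (𝓞 K))} (h : Good m S)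
    (hT : T ⊆ S) : Good m T :=
  ⟨fun P hP => h.1 P (hT hP), h.2.mono (by exact_mod_cast hT)⟩

theorem ffac_nS_pos {m : ℕ} {S : Finset (HeightOneSpectrum (𝓞 K))} (h : Good m S) : 0 < nS S :=
  Finset.prod_pos fun P hP => (h.1 P hP).1.pos

/-- no common norms for compatible sets -/
theorem ffac_cmp {m : ℕ} {e f : Finset (HeightOneSpectrum (𝓞 K))} (h : Cmp m e f)
    {P P' : HeightOneSpectrum (𝓞 K)} (hP : P ∈ e) (hP' : P' ∈ f) : nP P ≠ nP P' := by
  intro hn
  have h1 : P = P' := h.2.2 (by simp [hP]) (by simp [hP']) hn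
  rw [h1] at hP
  exact Finset.disjoint_left.1 h.1 hP hP'

theorem ffac_cmp_of {m : ℕ} {e f : Finset (HeightOneSpectrum (𝓞 K))} (he : Good m e)
    (hf : Good m f) (h : ∀ P ∈ e, ∀ P' ∈ f, nP P ≠ nP P') : Cmp m e f := by
  classical
  refine ⟨Finset.disjoint_left.2 fun P hP hP' => h P hP P hP' rfl, ?_, ?_⟩
  · intro P hP
    rcases Finset.mem_union.1 hP with hP | hP
    · exact he.1 P hP
    · exact hf.1 P hP
  · intro P hP P' hP' hn
    rw [Finset.mem_coe, Finset.mem_union] at hP hP'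
    rcases hP with hP | hP <;> rcases hP' with hP' | hP'
    · exact he.2 hP hP' hn
    · exact absurd hn (h P hP P' hP')
    · exact absurd hn.symm (h P' hP' P hP)
    · exact hf.2 hP hP' hn

theorem f_fac (F : QF K) (hBB : StmBB) (hCj : StCjP F) (hRes : StRes K) (hCh : StChP K)
    (hUnr : StUnr F) (hOrdR : StOrdR K) (hTh : StThue F) (hNg : StNg F) (hLam : StLam F)
    (hSh : StShift F) (hKK : StKK F) (hDis : StDis F) : StFac F := by
  classical
  intro m hm h8 Ψ A hΨ hML L
  have hthP : ∀ S, Good m S → ThP F S (th F S) := by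
    intro S hS
    have h := hTh m hm h8 S hS
    unfold th
    rw [dif_pos h]
    exact h.choose_spec
  have hel : ∀ S, Good m S → el F (th F S) ≠ 0 := by
    intro S hS h0
    refine (hthP S hS).ne ?_
    unfold el at h0
    have h1 := F.indep (x := ((th F S).1 : ℚ)) (y := ((th F S).2 : ℚ)) (by push_cast; exact h0)
    exact Prod.ext (by exact_mod_cast h1.1) (by exact_mod_cast h1.2)
  have hng : ∀ S, Good m S → ng F S ≠ 0 := by
    intro S hS
    obtain ⟨n, h1, h2, -⟩ := hNg m hm h8 S hS _ (hthP S hS)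
    unfold ng
    rw [h1, Nat.mul_div_cancel_left _ (ffac_nS_pos hS)]
    omega
  -- facts on the primes of a good set
  have hprime : ∀ P : HeightOneSpectrum (𝓞 K), gP m P → nP P ≠ 2 ∧
      ord P ((nP P : ℕ) : K) = 1 := by
    intro P hP
    have h2 : nP P ≠ 2 := by
      intro h
      refine hP.2 ?_
      rw [h]
      exact Dvd.dvd.trans ⟨4 * F.d, by ring⟩ h8
    refine ⟨h2, hUnr (nP P) hP.1 ?_ P (hRes P hP.1).1⟩
    intro h
    refine hP.2 (h.trans (Dvd.dvd.trans ⟨4, by ring⟩ h8))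
  let aa : Finset (HeightOneSpectrum (𝓞 K)) → ℝ := fun e =>
    if h : ∃ f₀, Good m f₀ ∧ lab F m f₀ = L ∧ Cmp m e f₀ then
      GG F m Ψ e h.choose * (KK (prS F (ndp L.1 e)) (th F h.choose) : ℝ) else 0
  refine ⟨aa, fun e => ?_, fun e f he hf hL => ?_⟩
  · show |aa e| ≤ _
    simp only [aa]
    split_ifs with h
    · rw [abs_mul]
      calc |GG F m Ψ e h.choose| * |(KK (prS F (ndp L.1 e)) (th F h.choose) : ℝ)| ≤
            A * 4 ^ (m.primeFactors.card + 1) * 1 := by
            refine mul_le_mul (ffac_GG hBB F m hm h8 Ψ A hΨ e _) (ffac_KK _ _) (abs_nonneg _) ?_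
            have hA : 0 ≤ A := (hΨ 0).1.trans (hΨ 0).2
            positivity
        _ = _ := mul_one _
    · rw [abs_zero]
      have hA : 0 ≤ A := (hΨ 0).1.trans (hΨ 0).2
      positivity
  have hL1 : L.1 = ng F f := by rw [← hL]; rfl
  show _ = aa e * _
  by_cases hC : Cmp m e f
  · rw [if_pos hC]
    have hex : ∃ f₀, Good m f₀ ∧ lab F m f₀ = L ∧ Cmp m e f₀ := ⟨f, hf, hL, hC⟩
    simp only [aa]
    rw [dif_pos hex]
    obtain ⟨hf0, hL0, hC0⟩ := hex.choose_spec
    set f₀ := hex.choose with hf₀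
    have hng0 : ng F f = ng F f₀ := by rw [← hL1, ← hL0]; rfl
    obtain ⟨-, l1, l2, l3, l4⟩ := hLam m hm h8 f f₀ hf hf0 (hL.trans hL0.symm)
    have e1 := hel f hf
    have e2 := hel f₀ hf0
    set l : K := el F (th F f) / el F (th F f₀) with hl
    have hl0 : l ≠ 0 := div_ne_zero e1 e2
    have hmul : F.cj l * F.cj (el F (th F f₀)) = F.cj (el F (th F f)) := by
      rw [← map_mul, hl, div_mul_cancel₀ _ e2]
    rw [hSh m hm h8 Ψ hML e f f₀ hC hC0 l hl0 l1 l2 l3, hL1]
    -- the two parts of the character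
    have hsplit : chS e (F.cj l) = chS (dvp (ng F f) e) (F.cj l) *
        chS (ndp (ng F f) e) (F.cj l) := by
      unfold chS dvp ndp
      exact (Finset.prod_filter_mul_prod_filter_not e (fun P => nP P ∣ ng F f) _).symm
    have hone : chS (dvp (ng F f) e) (F.cj l) = 1 := by
      unfold chS
      refine Finset.prod_eq_one fun P hP => ?_
      unfold dvp at hP
      rw [Finset.mem_filter] at hP
      have hg := he.1 P hP.1
      obtain ⟨h2, hord⟩ := hprime P hg
      obtain ⟨P', hn', ho', -⟩ := hCj P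
      have h3 : 1 ≤ ord P' ((nP P : ℕ) : K) := by
        have := (hRes P' (by rw [hn']; exact hg.1)).1
        rwa [hn'] at this
      have h4 := hOrdR (nP P) hg.1 P' h3 ((ng F f : ℕ) : ℚ)
        (by exact_mod_cast hng f hf)
      have h5 : 1 ≤ ord P' ((ng F f : ℕ) : K) := by
        have h6 : (1 : ℤ) ≤ padicValRat (nP P) ((ng F f : ℕ) : ℚ) := by
          rw [padicValRat.of_nat]
          haveI : Fact (nP P).Prime := ⟨hg.1⟩
          exact_mod_cast one_le_padicValNat_of_dvd (hng f hf) hP.2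
        have h7 : (((ng F f : ℕ) : ℚ) : K) = ((ng F f : ℕ) : K) := by push_cast; rfl
        rw [h7] at h4
        rw [h4]
        nlinarith
      obtain ⟨-, -, c3, c4⟩ := hCh P hg.1 h2 hord
      have c1 : chP P (1 : K) = 1 := by
        haveI : Fact (nP P).Prime := ⟨hg.1⟩
        have := c4 1 one_ne_zero padicValRat.one
        rw [Rat.cast_one] at this
        rw [this]
        simp
      rcases l4 P' h5 with h8' | h8'
      · rw [h8', map_one, c1]
      · have h9 : 1 ≤ ord P (1 - F.cj l) := by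
          rw [ho', map_sub, map_one] at h8'
          rw [← neg_sub, ord_neg]
          exact h8'
        rw [← c3 1 (F.cj l) one_ne_zero (F.cj_ne hl0) (ord_one P) h9, c1]
    have hmulS : chS (ndp (ng F f) e) (F.cj l) * chS (ndp (ng F f) e) (F.cj (el F (th F f₀))) =
        chS (ndp (ng F f) e) (F.cj (el F (th F f))) := by
      unfold chS
      rw [← Finset.prod_mul_distrib]
      refine Finset.prod_congr rfl fun P hP => ?_
      unfold ndp at hP
      rw [Finset.mem_filter] at hP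
      have hg := he.1 P hP.1
      obtain ⟨h2, hord⟩ := hprime P hg
      obtain ⟨-, c2, -, -⟩ := hCh P hg.1 h2 hord
      rw [← c2 _ _ (F.cj_ne hl0) (F.cj_ne e2), hmul]
    have hgn : Good m (ndp (ng F f) e) := ffac_good_sub he (Finset.filter_subset _ _)
    have k1 := (hKK m hm h8 _ hgn (th F f) (hthP f hf).ne).2
      ((hDis m hm h8 e f he hf).2 fun P hP P' hP' =>
        ffac_cmp hC (Finset.mem_filter.1 hP).1 hP')
    have k2 := (hKK m hm h8 _ hgn (th F f₀) (hthP f₀ hf0).ne).2
      (by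
        have := (hDis m hm h8 e f₀ he hf0).2 fun P hP P' hP' =>
          ffac_cmp hC0 (Finset.mem_filter.1 hP).1 hP'
        rwa [← hng0] at this)
    have hfin : chS e (F.cj l) = KK (prS F (ndp (ng F f) e)) (th F f) *
        KK (prS F (ndp (ng F f) e)) (th F f₀) := by
      rw [hsplit, hone, one_mul, ← k1, ← k2, ← hmulS, mul_assoc, ffac_chS_sq, mul_one]
    rw [hfin]
    push_cast
    ring
  · rw [if_neg hC]
    by_cases hex : ∃ f₀, Good m f₀ ∧ lab F m f₀ = L ∧ Cmp m e f₀
    · have hz : KK (prS F (ndp L.1 e)) (th F f) = 0 := by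
        by_contra hne
        rw [hL1] at hne
        have hd := (hDis m hm h8 e f he hf).1 hne
        obtain ⟨f₀, hf0, hL0, hC0⟩ := hex
        obtain ⟨l0, -⟩ := hLam m hm h8 f f₀ hf hf0 (hL.trans hL0.symm)
        refine hC (ffac_cmp_of he hf fun P hP P' hP' hn => ?_)
        by_cases hdv : nP P ∣ ng F f
        · have h1 : P' ∈ dvp (ng F f) f := by
            unfold dvp
            rw [Finset.mem_filter]
            exact ⟨hP', by rwa [← hn]⟩
          rw [l0] at h1
          unfold dvp at h1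
          exact ffac_cmp hC0 hP (Finset.mem_filter.1 h1).1 hn
        · refine hd P ?_ P' hP' hn
          unfold ndp
          rw [Finset.mem_filter]
          exact ⟨hP, hdv⟩
      rw [hz, Int.cast_zero, mul_zero]
    · simp only [aa]
      rw [dif_neg hex, zero_mul]

end

end Pool.Agent.H32.MA
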