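import Pool.Agent.H32.MA.FDefs

/-!
# Project MA9 (MP_a9b340), row F3: good sets are determined by their pairs; finiteness; count
-/

set_option autoImplicit false

open scoped BigOperators
open NumberField IsDedekindDomain

namespace Pool.Agent.H32.MA

open Pool.Agent.H98.MF (ord)
open Pool.Agent.H98.MF.B (ord_mul ord_one ord_inv ord_div ord_pow ord_neg ord_zpow ord_finite
  ord_add ord_add_of_lt ord_of_sub_one val_eq)

section

variable {K : Type} [Field K] [NumberField K]

theorem finj_ord_zero (P : HeightOneSpectrum (𝓞 K)) : ord P (0 : K) = 0 := by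
  unfold Pool.Agent.H98.MF.ord
  rw [FractionalIdeal.spanSingleton_zero, FractionalIdeal.count_zero]

theorem finj_lt (P : HeightOneSpectrum (𝓞 K)) {x : K} (h : 1 ≤ ord P x) :
    P.valuation K x < 1 := by
  have hx : x ≠ 0 := by
    rintro rfl
    rw [finj_ord_zero] at h
    omega
  rw [val_eq P hx, ← WithZero.exp_zero, WithZero.exp_lt_exp]
  omega

theorem finj_int (P : HeightOneSpectrum (𝓞 K)) (a : ℤ) : P.valuation K (a : K) ≤ 1 := by
  have h := P.valuation_le_one (K := K) (a : 𝓞 K)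
  have h1 : algebraMap (𝓞 K) K (a : 𝓞 K) = (a : K) := map_intCast (algebraMap (𝓞 K) K) a
  rw [← h1]
  exact h

/-- coprime rational integers are not both in a prime -/
theorem finj_coprime (P : HeightOneSpectrum (𝓞 K)) {x y : ℕ} (h : Nat.Coprime x y)
    (hx : 1 ≤ ord P (x : K)) (hy : 1 ≤ ord P (y : K)) : False := by
  have h1 : IsCoprime (x : ℤ) (y : ℤ) := Nat.isCoprime_iff_coprime.2 h
  obtain ⟨a, b, hab⟩ := h1
  have h2 : (a : K) * (x : K) + (b : K) * (y : K) = 1 := by exact_mod_cast hab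
  have h3 : P.valuation K ((a : K) * (x : K)) < 1 := by
    rw [map_mul]
    exact lt_of_le_of_lt (mul_le_of_le_one_left' (finj_int P a)) (finj_lt P hx)
  have h4 : P.valuation K ((b : K) * (y : K)) < 1 := by
    rw [map_mul]
    exact lt_of_le_of_lt (mul_le_of_le_one_left' (finj_int P b)) (finj_lt P hy)
  have h5 := Valuation.map_add_lt (P.valuation K) h3 h4
  rw [h2, map_one] at h5
  exact lt_irrefl _ h5

theorem finj_sub (F : QF K) (hCj : StCjP F) (hRes : StRes K) (hPr : StPrS F) {m : ℕ}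
    (hm : m ≠ 0) (hdm : 8 * F.d ∣ m) {S S' : Finset (HeightOneSpectrum (𝓞 K))} (hS : Good m S)
    (hS' : Good m S') (he : prS F S = prS F S') : S ⊆ S' := by
  intro P hP
  obtain ⟨hpp, hpm⟩ := hS.1 P hP
  have hn : nS S = nS S' := congrArg Prod.fst he
  have hr : rtS F S = rtS F S' := congrArg Prod.snd he
  have h1 : nP P ∣ nS S' := by
    rw [← hn]
    exact Finset.dvd_prod_of_mem _ hP
  obtain ⟨P', hP', h2⟩ := (Prime.dvd_finsetProd_iff hpp.prime _).1 h1
  obtain ⟨hpp', hpm'⟩ := hS'.1 P' hP'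
  have h3 : nP P = nP P' := (Nat.prime_dvd_prime_iff_eq hpp hpp').1 h2
  have h4 : 1 ≤ ord P (F.dl - (rtS F S : K)) := (hPr m hm hdm S hS).2 P hP
  have h5 : 1 ≤ ord P' (F.dl - (rtS F S : K)) := by
    rw [hr]
    exact (hPr m hm hdm S' hS').2 P' hP'
  have h8 : ¬ nP P ∣ 2 * F.d := by
    intro h
    apply hpm
    refine (h.trans ?_).trans hdm
    exact ⟨4, by ring⟩
  obtain ⟨P'', _, hc2, hc3⟩ := hCj P
  obtain ⟨_, hc4⟩ := hc3 hpp h8
  have h6 : 1 ≤ ord P' ((nP P : ℕ) : K) := by
    rw [h3]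
    exact (hRes P' hpp').1
  rcases hc4 P' h6 with h7 | h7
  · rw [← h7]
    exact hP'
  · exfalso
    rw [h7, hc2] at h5
    have e1 : F.cj (F.dl - (rtS F S : K)) = -F.dl - (rtS F S : K) := by
      rw [map_sub, F.cdl, map_natCast]
    rw [e1] at h5
    have h9 : P.valuation K (2 * F.dl) < 1 := by
      have e2 : 2 * F.dl = (F.dl - (rtS F S : K)) - (-F.dl - (rtS F S : K)) := by ring
      rw [e2]
      refine lt_of_le_of_lt (Valuation.map_sub (P.valuation K) _ _) (max_lt ?_ ?_)
      · exact finj_lt P h4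
      · exact finj_lt P h5
    have h10 : 1 ≤ ord P (2 * F.dl) := by
      have hne : 2 * F.dl ≠ 0 := mul_ne_zero two_ne_zero F.dl_ne
      rw [val_eq P hne, ← WithZero.exp_zero, WithZero.exp_lt_exp] at h9
      omega
    have h11 : 1 ≤ ord P ((4 * F.d : ℕ) : K) := by
      have e3 : ((4 * F.d : ℕ) : K) = (2 * F.dl) ^ 2 := by
        push_cast
        linear_combination (-4 : K) * F.sq
      rw [e3, ord_pow]
      push_cast
      omega
    have h12 : 1 ≤ ord P ((nP P : ℕ) : K) := (hRes P hpp).1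
    have h13 : Nat.Coprime (4 * F.d) (nP P) := by
      rw [Nat.coprime_comm, Nat.Prime.coprime_iff_not_dvd hpp]
      intro h
      apply hpm
      refine (h.trans ?_).trans hdm
      exact ⟨2, by ring⟩
    exact finj_coprime P h13 h11 h12

theorem f_inj {K : Type} [Field K] [NumberField K] (F : QF K) (hCj : StCjP F) (hRes : StRes K)
    (hPr : StPrS F) : StInj F := by
  intro m hm hdm S hS S' hS' he
  exact Finset.Subset.antisymm (finj_sub F hCj hRes hPr hm hdm hS hS' he)
    (finj_sub F hCj hRes hPr hm hdm hS' hS he.symm)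

theorem f_glf {K : Type} [Field K] [NumberField K] (F : QF K) (hI : StInj F) (hPr : StPrS F) :
    StGLF F := by
  intro m hm hdm x
  refine Set.Finite.of_finite_image (f := prS F) ?_ ((hI m hm hdm).mono fun S hS => hS.1)
  refine Set.Finite.subset
    ((Finset.range (⌊x⌋₊ + 1)) ×ˢ (Finset.range (⌊x⌋₊ + 1))).finite_toSet ?_
  rintro _ ⟨S, hS, rfl⟩
  have h1 := (hPr m hm hdm S hS.1).1
  have h2 : nS S ≤ ⌊x⌋₊ := Nat.le_floor hS.2
  have h3 : rtS F S < nS S := h1.lt
  rw [Finset.mem_coe, Finset.mem_product, Finset.mem_range, Finset.mem_range]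
  constructor
  · show nS S < _
    omega
  · show rtS F S < _
    omega

end

theorem f_cnt (hI : ∀ (K : Type) [Field K] [NumberField K] (F : QF K), StInj F)
    (hPr : ∀ (K : Type) [Field K] [NumberField K] (F : QF K), StPrS F) (hC : CntSt) :
    StmCnt := by
  obtain ⟨C, hC0, hC⟩ := hC
  refine ⟨C, hC0.le, ?_⟩
  intro K _ _ F m hm hdm y hy
  have hfin : (GoodLe K m y).Finite := f_glf F (hI K F) (hPr K F) m hm hdm y
  have hinj : Set.InjOn (prS F) (GoodLe K m y) := (hI K F m hm hdm).mono fun S hS => hS.1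
  have hns : ¬ IsSquare F.d := by
    rintro ⟨t, ht⟩
    apply F.not_sq (t : ℚ)
    rw [ht]
    push_cast
    ring
  have hfi := hfin.image (prS F)
  have h1 := hC F.d hns hfi.toFinset y hy fun i hi => by
    rw [Set.Finite.mem_toFinset] at hi
    obtain ⟨S, hS, rfl⟩ := hi
    exact ⟨(hPr K F m hm hdm S hS.1).1, hS.2⟩
  rw [← hinj.ncard_image, Set.ncard_eq_toFinset_card _ hfi]
  exact h1

end Pool.Agent.H32.MA
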