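import Pool.Agent.H32.MA.FDefs

/-!
# Project MA9 (MP_a9b340), block F, row F8: kernel and characters (helper63)
-/

set_option autoImplicit false

open scoped BigOperators
open NumberField IsDedekindDomain

namespace Pool.Agent.H32.MA

open Pool.Agent.H98.MF (ord)
open Pool.Agent.H98.MF.B (ord_mul ord_one ord_inv ord_div ord_pow ord_neg ord_add ord_add_of_lt)

section

variable {K : Type} [Field K] [NumberField K]

private theorem fkk_ord_zero (P : HeightOneSpectrum (𝓞 K)) : ord P (0 : K) = 0 := by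
  unfold Pool.Agent.H98.MF.ord
  rw [FractionalIdeal.spanSingleton_zero, FractionalIdeal.count_zero]

/-- integers prime to `p` are units above `p` -/
private theorem fkk_int_unit (hOrdR : StOrdR K) {p : ℕ} (hp : p.Prime)
    (P : HeightOneSpectrum (𝓞 K)) (h1 : 1 ≤ ord P (p : K)) {k : ℤ} (hk : ¬ (p : ℤ) ∣ k) :
    (k : K) ≠ 0 ∧ ord P (k : K) = 0 := by
  have := Fact.mk hp
  have hk0 : k ≠ 0 := by
    rintro rfl
    exact hk (dvd_zero _)
  refine ⟨by exact_mod_cast hk0, ?_⟩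
  have h2 := hOrdR p hp P h1 (k : ℚ) (by exact_mod_cast hk0)
  rw [padicValRat.of_int, padicValInt.eq_zero_of_not_dvd hk] at h2
  simpa using h2

private theorem fkk_nat_unit (hOrdR : StOrdR K) {p : ℕ} (hp : p.Prime)
    (P : HeightOneSpectrum (𝓞 K)) (h1 : 1 ≤ ord P (p : K)) {k : ℕ} (hk : ¬ p ∣ k) :
    ¬ 1 ≤ ord P (k : K) := by
  have h2 := (fkk_int_unit hOrdR hp P h1 (k := (k : ℤ)) (by exact_mod_cast hk)).2
  push_cast at h2
  rw [h2]
  norm_num

/-- integers divisible by `p` have positive exponent above `p` -/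
private theorem fkk_int_pos (hOrdR : StOrdR K) {p : ℕ} (hp : p.Prime)
    (P : HeightOneSpectrum (𝓞 K)) (h1 : 1 ≤ ord P (p : K)) {k : ℤ} (hk0 : k ≠ 0)
    (hk : (p : ℤ) ∣ k) : 1 ≤ ord P (k : K) := by
  have := Fact.mk hp
  have h2 := hOrdR p hp P h1 (k : ℚ) (by exact_mod_cast hk0)
  rw [padicValRat.of_int] at h2
  have h3 : 1 ≤ padicValInt p k := by
    by_contra h
    have h4 : padicValInt p k = 0 := by omega
    rw [padicValInt.eq_zero_iff] at h4
    rcases h4 with h4 | h4 | h4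
    · exact hp.one_lt.ne' h4
    · exact hk0 h4
    · exact h4 hk
  have h5 : ((k : ℚ) : K) = (k : K) := by push_cast; rfl
  rw [h5] at h2
  rw [h2]
  have h6 : (1 : ℤ) ≤ (padicValInt p k : ℤ) := by exact_mod_cast h3
  nlinarith

private theorem fkk_el_ne (F : QF K) {x : ℤ × ℤ} (hx : x ≠ (0, 0)) : el F x ≠ 0 := by
  intro h
  apply hx
  have h1 := F.indep (x := (x.1 : ℚ)) (y := (x.2 : ℚ)) (by
    unfold el at h
    push_cast
    exact h)
  have h2 : x.1 = 0 := by exact_mod_cast h1.1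
  have h3 : x.2 = 0 := by exact_mod_cast h1.2
  exact Prod.ext h2 h3

private theorem fkk_cj (F : QF K) (x : ℤ × ℤ) : F.cj (el F x) = el F (x.1, -x.2) := by
  have h := F.cj_xy (x.1 : ℚ) (x.2 : ℚ)
  unfold el
  push_cast at h ⊢
  rw [h]
  ring

/-- the element and its residue -/
private theorem fkk_res (F : QF K) (hOrdR : StOrdR K) {p : ℕ} (hp : p.Prime)
    (P : HeightOneSpectrum (𝓞 K)) (h1 : 1 ≤ ord P (p : K)) (r : ℕ)
    (hr : 1 ≤ ord P (F.dl - (r : K))) (x : ℤ × ℤ) :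
    el F x = ((x.1 + x.2 * r : ℤ) : K) ∨
      (el F x - ((x.1 + x.2 * r : ℤ) : K) ≠ 0 ∧ 1 ≤ ord P (el F x - ((x.1 + x.2 * r : ℤ) : K))) := by
  have e : el F x - ((x.1 + x.2 * r : ℤ) : K) = (x.2 : K) * (F.dl - (r : K)) := by
    unfold el
    push_cast
    ring
  by_cases hv : x.2 = 0
  · left
    rw [← sub_eq_zero, e, hv]
    simp
  · right
    have hv' : (x.2 : K) ≠ 0 := by exact_mod_cast hv
    have hd : F.dl - (r : K) ≠ 0 := by
      intro h0
      rw [h0, fkk_ord_zero] at hr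
      omega
    have h2 : 0 ≤ ord P (x.2 : K) := by
      by_cases hdv : (p : ℤ) ∣ x.2
      · exact (by norm_num : (0 : ℤ) ≤ 1).trans (fkk_int_pos hOrdR hp P h1 hv hdv)
      · exact (fkk_int_unit hOrdR hp P h1 hdv).2.ge
    rw [e]
    refine ⟨mul_ne_zero hv' hd, ?_⟩
    rw [ord_mul P hv' hd]
    omega

private theorem fkk_iff (F : QF K) (hOrdR : StOrdR K) {p : ℕ} (hp : p.Prime)
    (P : HeightOneSpectrum (𝓞 K)) (h1 : 1 ≤ ord P (p : K)) (r : ℕ)
    (hr : 1 ≤ ord P (F.dl - (r : K))) (x : ℤ × ℤ) (hx : x ≠ (0, 0)) :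
    ord P (el F x) = 0 ↔ ¬ (p : ℤ) ∣ x.1 + x.2 * r := by
  have hne := fkk_el_ne F hx
  have hres := fkk_res F hOrdR hp P h1 r hr x
  constructor
  · intro h0 hd
    by_cases hA : x.1 + x.2 * r = 0
    · rcases hres with h2 | ⟨_, h3⟩
      · rw [hA] at h2
        exact hne (by simpa using h2)
      · rw [hA] at h3
        simp only [Int.cast_zero, sub_zero] at h3
        omega
    · have h4 := fkk_int_pos hOrdR hp P h1 hA hd
      have hA' : ((x.1 + x.2 * r : ℤ) : K) ≠ 0 := by exact_mod_cast hA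
      rcases hres with h2 | ⟨h2, h3⟩
      · rw [← h2] at h4
        omega
      · have h5 := ord_add P hA' h2 (by rw [add_sub_cancel]; exact hne)
        rw [add_sub_cancel] at h5
        have h6 : 1 ≤ min (ord P ((x.1 + x.2 * r : ℤ) : K))
            (ord P (el F x - ((x.1 + x.2 * r : ℤ) : K))) := le_min h4 h3
        omega
  · intro hd
    obtain ⟨hA', h4⟩ := fkk_int_unit hOrdR hp P h1 hd
    rcases hres with h2 | ⟨h2, h3⟩
    · rw [h2]
      exact h4
    · have h5 := (ord_add_of_lt P hA' h2 (by omega)).2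
      rw [add_sub_cancel] at h5
      rw [h5]
      exact h4

private theorem fkk_jprod (a : ℤ) (S : Finset (HeightOneSpectrum (𝓞 K)))
    (hS : ∀ P ∈ S, (nP P).Prime) : jacobiSym a (nS S) = ∏ P ∈ S, jacobiSym a (nP P) := by
  classical
  unfold nS
  induction S using Finset.induction_on with
  | empty => simp [jacobiSym.one_right]
  | insert Q T hQ ih =>
    have hT : ∀ P ∈ T, (nP P).Prime := fun P hP => hS P (Finset.mem_insert_of_mem hP)
    rw [Finset.prod_insert hQ, Finset.prod_insert hQ, ← ih hT, jacobiSym.mul_right']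
    · exact (hS Q (Finset.mem_insert_self _ _)).ne_zero
    · exact Finset.prod_ne_zero_iff.2 fun P hP => (hT P hP).ne_zero

private theorem fkk_gcd (a : ℤ) (S : Finset (HeightOneSpectrum (𝓞 K)))
    (hS : ∀ P ∈ S, (nP P).Prime) : a.gcd (nS S) = 1 ↔ ∀ P ∈ S, ¬ ((nP P : ℕ) : ℤ) ∣ a := by
  have e : a.gcd (nS S) = a.natAbs.gcd (nS S) := by
    rw [Int.gcd_eq_natAbs, Int.natAbs_natCast]
  rw [e]
  unfold nS
  change Nat.Coprime _ _ ↔ _
  rw [Nat.coprime_prod_right_iff]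
  refine forall₂_congr fun P hP => ?_
  rw [Nat.coprime_comm, (hS P hP).coprime_iff_not_dvd, Int.natCast_dvd]

private theorem fkk_ne (S : Finset (HeightOneSpectrum (𝓞 K))) (r : ℕ) (x : ℤ × ℤ)
    (hS : ∀ P ∈ S, (nP P).Prime) : KK (nS S, r) x ≠ 0 ↔
      ∀ P ∈ S, ¬ ((nP P : ℕ) : ℤ) ∣ x.1 + x.2 * r ∧ ¬ ((nP P : ℕ) : ℤ) ∣ x.1 - x.2 * r := by
  have hn : nS S ≠ 0 := Finset.prod_ne_zero_iff.2 fun P hP => (hS P hP).ne_zero
  have h0 : ∀ a : ℤ, jacobiSym a (nS S) ≠ 0 ↔ a.gcd (nS S) = 1 := by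
    intro a
    rw [Ne, jacobiSym.eq_zero_iff]
    constructor
    · intro h
      by_contra h2
      exact h ⟨hn, h2⟩
    · intro h h2
      exact h2.2 h
  unfold KK
  simp only
  rw [mul_ne_zero_iff, pow_ne_zero_iff two_ne_zero, h0, h0, fkk_gcd _ S hS, fkk_gcd _ S hS]
  constructor
  · exact fun h P hP => ⟨h.2 P hP, h.1 P hP⟩
  · exact fun h => ⟨fun P hP => (h P hP).2, fun P hP => (h P hP).1⟩

end

theorem f_kk {K : Type} [Field K] [NumberField K] (F : QF K) (hRes : StRes K) (hCh : StChP K)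
    (hUnr : StUnr F) (hOrdR : StOrdR K) (hPr : StPrS F) : StKK F := by
  intro m hm hdm S hS x hx
  obtain ⟨-, hrt⟩ := hPr m hm hdm S hS
  have hprime : ∀ P ∈ S, (nP P).Prime := fun P hP => (hS.1 P hP).1
  have h1 : ∀ P ∈ S, 1 ≤ ord P ((nP P : ℕ) : K) := fun P hP => (hRes P (hprime P hP)).1
  have hnd : ∀ P ∈ S, ¬ nP P ∣ 2 * F.d := by
    intro P hP h
    refine (hS.1 P hP).2 (h.trans (dvd_trans ?_ hdm))
    exact ⟨4, by ring⟩
  have hx' : (x.1, -x.2) ≠ ((0 : ℤ), (0 : ℤ)) := by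
    intro h
    apply hx
    rw [Prod.mk.injEq] at h
    exact Prod.ext h.1 (by simpa using h.2)
  have key : KK (prS F S) x ≠ 0 ↔
      ∀ P ∈ S, ord P (el F x) = 0 ∧ ord P (F.cj (el F x)) = 0 := by
    unfold prS
    rw [fkk_ne S _ x hprime]
    refine forall₂_congr fun P hP => ?_
    rw [fkk_cj, fkk_iff F hOrdR (hprime P hP) P (h1 P hP) _ (hrt P hP) x hx,
      fkk_iff F hOrdR (hprime P hP) P (h1 P hP) _ (hrt P hP) _ hx']
    simp only
    rw [neg_mul, ← sub_eq_add_neg]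
  refine ⟨key, fun hKK => ?_⟩
  have hord := key.1 hKK
  unfold prS at hKK
  have hnot := (fkk_ne S _ x hprime).1 hKK
  have hsq : jacobiSym (x.1 + x.2 * (rtS F S)) (nS S) ^ 2 = 1 := by
    apply jacobiSym.sq_one
    rw [fkk_gcd _ S hprime]
    exact fun P hP => (hnot P hP).1
  unfold prS KK chS
  simp only
  rw [hsq, mul_one, fkk_jprod _ S hprime]
  refine Finset.prod_congr rfl fun P hP => ?_
  set p := nP P with hpdef
  set q : ℤ := x.1 - x.2 * (rtS F S) with hq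
  have hp : p.Prime := hprime P hP
  have := Fact.mk hp
  have hq1 : ¬ (p : ℤ) ∣ q := (hnot P hP).2
  have hq0 : q ≠ 0 := by
    intro h
    rw [h] at hq1
    exact hq1 (dvd_zero _)
  have hp2 : p ≠ 2 := by
    intro h
    apply hnd P hP
    rw [← hpdef, h]
    exact dvd_mul_right _ _
  have hp1 : ord P ((p : ℕ) : K) = 1 := hUnr p hp (hnd P hP) P (h1 P hP)
  obtain ⟨-, -, c3, c4⟩ := hCh P hp hp2 hp1
  have hb : ord P (F.cj (el F x)) = 0 := (hord P hP).2
  have hb0 : F.cj (el F x) ≠ 0 := F.cj_ne (fkk_el_ne F hx)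
  have hqK : (q : K) ≠ 0 := by exact_mod_cast hq0
  have e1 : chP P (F.cj (el F x)) = chP P (q : K) := by
    have h5 := fkk_res F hOrdR hp P (h1 P hP) _ (hrt P hP) (x.1, -x.2)
    have h6 : (x.1, -x.2).1 + (x.1, -x.2).2 * ((rtS F S : ℕ) : ℤ) = q := by
      simp only
      rw [hq]
      ring
    rw [h6, ← fkk_cj] at h5
    rcases h5 with h5 | ⟨-, h5⟩
    · rw [h5]
    · exact c3 _ _ hb0 hqK hb h5
  have e2 : chP P (((q : ℚ)) : K) = jacobiSym ((q : ℚ).num * (q : ℚ).den) p := by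
    refine c4 (q : ℚ) (by exact_mod_cast hq0) ?_
    rw [← hpdef, padicValRat.of_int, padicValInt.eq_zero_of_not_dvd hq1]
    rfl
  have e3 : (((q : ℚ)) : K) = (q : K) := by push_cast; rfl
  rw [e3] at e2
  rw [e1, e2]
  simp

theorem f_dis {K : Type} [Field K] [NumberField K] (F : QF K) (hCj : StCjP F) (hRes : StRes K)
    (hUnr : StUnr F) (hOrdR : StOrdR K) (hTh : StThue F) (hNg : StNg F) (hT : StOrdT F)
    (hKK : StKK F) : StDis F := by
  classical
  intro m hm hdm e f he hf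
  have hthP : ThP F f (th F f) := by
    have h := hTh m hm hdm f hf
    unfold th
    rw [dif_pos h]
    exact h.choose_spec
  set x := th F f with hx
  obtain ⟨n, hn1, hn2, hn3⟩ := hNg m hm hdm f hf x hthP
  have hpf : ∀ P ∈ f, (nP P).Prime := fun P hP => (hf.1 P hP).1
  have hnf : 0 < nS f := Finset.prod_pos fun P hP => (hpf P hP).pos
  have hng : ng F f = n := by
    unfold ng
    rw [← hx, hn1, Nat.mul_div_cancel_left _ hnf]
  have hsub : ∀ P ∈ ndp (ng F f) e, P ∈ e ∧ ¬ nP P ∣ ng F f := by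
    intro P hP
    unfold ndp at hP
    exact Finset.mem_filter.1 hP
  have hg1 : Good m (ndp (ng F f) e) := by
    refine ⟨fun P hP => he.1 P (hsub P hP).1, fun P hP Q hQ h => ?_⟩
    exact he.2 (hsub P hP).1 (hsub Q hQ).1 h
  rw [(hKK m hm hdm _ hg1 x hthP.ne).1]
  refine forall₂_congr fun P hP => ?_
  obtain ⟨hPe, hPn⟩ := hsub P hP
  rw [hng] at hPn
  obtain ⟨hp, hpm⟩ := he.1 P hPe
  have hnd : ¬ nP P ∣ 2 * F.d := by
    intro h
    refine hpm (h.trans (dvd_trans ?_ hdm))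
    exact ⟨4, by ring⟩
  have h1 : 1 ≤ ord P ((nP P : ℕ) : K) := (hRes P hp).1
  have hPm : ¬ 1 ≤ ord P (m : K) := fkk_nat_unit hOrdR hp P h1 hpm
  have hPn' : ¬ 1 ≤ ord P (n : K) := fkk_nat_unit hOrdR hp P h1 hPn
  obtain ⟨P', hP'1, hP'2, hP'3⟩ := hCj P
  have hcjn : ∀ k : ℕ, ord P' (k : K) = ord P (k : K) := by
    intro k
    rw [hP'2, map_natCast]
  have hT1 := (hT m hm hdm f hf x n hthP hn1 hn2).1 P hPm hPn'
  have hT2 := (hT m hm hdm f hf x n hthP hn1 hn2).1 P' (by rwa [hcjn]) (by rwa [hcjn])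
  have hA : ord P (el F x) = 0 ↔ P ∉ f := by
    constructor
    · intro h h2
      rw [hT1.1 h2] at h
      exact one_ne_zero h
    · exact hT1.2
  have hB : ord P (F.cj (el F x)) = 0 ↔ P' ∉ f := by
    rw [← hP'2]
    constructor
    · intro h h2
      rw [hT2.1 h2] at h
      exact one_ne_zero h
    · exact hT2.2
  rw [hA, hB]
  constructor
  · rintro ⟨h2, h3⟩ Q hQ h4
    have h5 : 1 ≤ ord Q ((nP Q : ℕ) : K) := (hRes Q (hpf Q hQ)).1
    rw [← h4] at h5
    rcases (hP'3 hp hnd).2 Q h5 with h6 | h6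
    · exact h2 (h6 ▸ hQ)
    · exact h3 (h6 ▸ hQ)
  · intro h
    exact ⟨fun h2 => h P h2 rfl, fun h2 => h P' h2 hP'1.symm⟩

end Pool.Agent.H32.MA
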