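import Pool.Agent.H32.MA.FDefs

/-!
# Project MA9 (MP_a9b340), block F, row F10: the bilinear bound over one label
-/

set_option autoImplicit false

open scoped BigOperators
open NumberField IsDedekindDomain

namespace Pool.Agent.H32.MA

open Pool.Agent.H98.MF (ord)

section

variable {K : Type} [Field K] [NumberField K]

private theorem f10_good_sub {m : ℕ} {S T : Finset (HeightOneSpectrum (𝓞 K))} (h : T ⊆ S)
    (hS : Good m S) : Good m T :=
  ⟨fun P hP => hS.1 P (h hP), hS.2.mono (Finset.coe_subset.2 h)⟩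

private theorem f10_pos {m : ℕ} {S : Finset (HeightOneSpectrum (𝓞 K))} (hS : Good m S) :
    0 < nS S := Finset.prod_pos fun P hP => (hS.1 P hP).1.pos

private theorem f10_dvd {m n : ℕ} {S : Finset (HeightOneSpectrum (𝓞 K))} (hS : Good m S) :
    nS (dvp n S) ∣ n := by
  classical
  have hG : Good m (dvp n S) := f10_good_sub (Finset.filter_subset _ _) hS
  have h1 : nS (dvp n S) = ∏ p ∈ (dvp n S).image nP, p := by
    rw [Finset.prod_image hG.2]
    rfl
  rw [h1]
  refine Finset.prod_primes_dvd n ?_ ?_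
  · intro p hp
    rw [Finset.mem_image] at hp
    obtain ⟨P, hP, rfl⟩ := hp
    exact (hG.1 P hP).1.prime
  · intro p hp
    rw [Finset.mem_image] at hp
    obtain ⟨P, hP, rfl⟩ := hp
    exact (Finset.mem_filter.1 hP).2

private theorem f10_ndp_le {m n : ℕ} {S : Finset (HeightOneSpectrum (𝓞 K))} (hS : Good m S) :
    nS (ndp n S) ≤ nS S := by
  classical
  refine Finset.prod_le_prod_of_subset_of_one_le' (Finset.filter_subset _ _) ?_
  intro P hP _
  exact (hS.1 P hP).1.one_le

private theorem f10_split (n : ℕ) {S T : Finset (HeightOneSpectrum (𝓞 K))}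
    (h1 : dvp n S = dvp n T) (h2 : ndp n S = ndp n T) : S = T := by
  classical
  have hS : dvp n S ∪ ndp n S = S := Finset.filter_union_filter_not_eq _ S
  have hT : dvp n T ∪ ndp n T = T := Finset.filter_union_filter_not_eq _ T
  rw [← hS, ← hT, h1, h2]

private theorem f10_th (F : QF K) (hTh : StThue F) {m : ℕ} (hm : m ≠ 0) (hd : 8 * F.d ∣ m)
    {S : Finset (HeightOneSpectrum (𝓞 K))} (hS : Good m S) : ThP F S (th F S) := by
  classical
  have h := hTh m hm hd S hS
  unfold th
  rw [dif_pos h]
  exact h.choose_spec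

private theorem f10_ng (F : QF K) (hTh : StThue F) (hNg : StNg F) {m : ℕ} (hm : m ≠ 0)
    (hd : 8 * F.d ∣ m) {S : Finset (HeightOneSpectrum (𝓞 K))} (hS : Good m S) :
    (nD F.d (th F S)).natAbs = nS S * ng F S ∧ 1 ≤ ng F S ∧ ng F S ≤ F.d := by
  obtain ⟨n, h1, h2, h3⟩ := hNg m hm hd S hS _ (f10_th F hTh hm hd hS)
  have h4 : ng F S = n := by
    unfold ng
    rw [h1]
    exact Nat.mul_div_cancel_left n (f10_pos hS)
  rw [h4]
  exact ⟨h1, h2, h3⟩

end

private theorem f10_omega (m : ℕ) (hm : m ≠ 0) : (2 : ℝ) ^ m.primeFactors.card ≤ m := by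
  have h1 : 2 ^ m.primeFactors.card ≤ ∏ p ∈ m.primeFactors, p := by
    rw [← Finset.prod_const]
    exact Finset.prod_le_prod' fun p hp => (Nat.prime_of_mem_primeFactors hp).two_le
  have h2 := Nat.le_of_dvd (Nat.pos_of_ne_zero hm) (Nat.prod_primeFactors_dvd m)
  exact_mod_cast h1.trans h2

/-- a bilinear sum over images under injective maps -/
private theorem f10_img {α β : Type} [Nonempty α] [Nonempty β] {X Y : Type} [DecidableEq X]
    [DecidableEq Y] (s : Finset α) (t : Finset β) (φ : α → X) (ψ : β → Y)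
    (hφ : Set.InjOn φ (s : Set α)) (hψ : Set.InjOn ψ (t : Set β)) (u : α → ℝ) (v : β → ℝ)
    (k : X → Y → ℝ) :
    ∑ i ∈ s.image φ, ∑ x ∈ t.image ψ, u (Function.invFunOn φ (s : Set α) i) *
        v (Function.invFunOn ψ (t : Set β) x) * k i x =
      ∑ e ∈ s, ∑ f ∈ t, u e * v f * k (φ e) (ψ f) := by
  rw [Finset.sum_image hφ]
  refine Finset.sum_congr rfl fun e he => ?_
  rw [Finset.sum_image hψ]
  refine Finset.sum_congr rfl fun f hf => ?_
  rw [hφ.leftInvOn_invFunOn (Finset.mem_coe.2 he), hψ.leftInvOn_invFunOn (Finset.mem_coe.2 hf)]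

theorem f_lab (hB : BilSt) (hN : StmNorm)
    (hPr : ∀ (K : Type) [Field K] [NumberField K] (F : QF K), StPrS F)
    (hI : ∀ (K : Type) [Field K] [NumberField K] (F : QF K), StInj F)
    (hG : ∀ (K : Type) [Field K] [NumberField K] (F : QF K), StGLF F)
    (hTh : ∀ (K : Type) [Field K] [NumberField K] (F : QF K), StThue F)
    (hNg : ∀ (K : Type) [Field K] [NumberField K] (F : QF K), StNg F)
    (hF : ∀ (K : Type) [Field K] [NumberField K] (F : QF K), StFac F)
    (hL : ∀ (K : Type) [Field K] [NumberField K] (F : QF K), StLTh F) : StLab := by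
  obtain ⟨C, κ, hC, hκ, hBil⟩ := hB
  refine ⟨16 * C, κ + 4, by positivity, by positivity, ?_⟩
  intro K _ _ F m hm hd Ψ A hA hM E N hE hEN α β hα hβ L
  classical
  have hA0 : 0 ≤ A := (hA 0).1.trans (hA 0).2
  have hE0 : (0 : ℝ) < E := by linarith
  have hN0 : (0 : ℝ) < N := by linarith
  have hm0 : (0 : ℝ) < m := by exact_mod_cast Nat.pos_of_ne_zero hm
  have hR : 0 ≤ 16 * C * A * (m : ℝ) ^ (κ + 4) * N * E ^ (12 / 13 : ℝ) := by positivity
  have hfE := hG K F m hm hd E
  have hfN := hG K F m hm hd N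
  obtain ⟨a, ha, hfac⟩ := hF K F m hm hd Ψ A hA hM L
  set sE := hfE.toFinset with hsE
  set sN := hfN.toFinset.filter (fun f => lab F m f = L) with hsN
  have memE : ∀ e ∈ sE, Good m e ∧ (nS e : ℝ) ≤ E := fun e he => hfE.mem_toFinset.1 he
  have memN : ∀ f ∈ sN, Good m f ∧ (nS f : ℝ) ≤ N ∧ lab F m f = L := fun f hf =>
    ⟨(hfN.mem_toFinset.1 (Finset.mem_filter.1 hf).1).1,
      (hfN.mem_toFinset.1 (Finset.mem_filter.1 hf).1).2, (Finset.mem_filter.1 hf).2⟩
  -- the sum as a finite sum
  have hsum : (∑ᶠ e ∈ GoodLe K m E, ∑ᶠ f ∈ GoodLe K m N,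
      if Cmp m e f ∧ lab F m f = L then α e * β f * GG F m Ψ e f else 0) =
      ∑ e ∈ sE, ∑ f ∈ sN, (α e * a e) * β f * (KK (prS F (ndp L.1 e)) (th F f) : ℝ) := by
    rw [finsum_mem_eq_finite_toFinset_sum _ hfE]
    refine Finset.sum_congr rfl fun e he => ?_
    rw [finsum_mem_eq_finite_toFinset_sum _ hfN, hsN, Finset.sum_filter]
    refine Finset.sum_congr rfl fun f hf => ?_
    by_cases hl : lab F m f = L
    · rw [if_pos hl]
      have h1 := hfac e f (memE e he).1 (hfN.mem_toFinset.1 hf).1 hl
      by_cases hc : Cmp m e f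
      · rw [if_pos ⟨hc, hl⟩]
        rw [if_pos hc] at h1
        rw [h1]
        ring
      · rw [if_neg (fun h => hc h.1)]
        rw [if_neg hc] at h1
        have h2 : (α e * a e) * β f * (KK (prS F (ndp L.1 e)) (th F f) : ℝ) =
            α e * β f * (a e * (KK (prS F (ndp L.1 e)) (th F f) : ℝ)) := by ring
        rw [h2, ← h1, mul_zero]
    · rw [if_neg hl, if_neg (fun h => hl h.2)]
  rw [hsum]
  rcases sN.eq_empty_or_nonempty with hemp | ⟨f₀, hf₀⟩
  · rw [hemp]
    simpa using hR
  set n := L.1 with hn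
  have hngL : ∀ f ∈ sN, ng F f = n := by
    intro f hf
    have h1 := (memN f hf).2.2
    rw [hn, ← h1]
    rfl
  have hn1 : 1 ≤ n ∧ n ≤ F.d := by
    have h1 := f10_ng F (hTh K F) (hNg K F) hm hd (memN f₀ hf₀).1
    rw [hngL f₀ hf₀] at h1
    exact h1.2
  set M : ℝ := A * 4 ^ (m.primeFactors.card + 1) with hMdef
  have hM0 : 0 ≤ M := by positivity
  -- the bound for one value of the pair of the part dividing `n`
  have key : ∀ c : ℕ × ℕ, |∑ e ∈ sE.filter (fun e => prS F (dvp n e) = c), ∑ f ∈ sN,
      (α e * a e) * β f * (KK (prS F (ndp n e)) (th F f) : ℝ)| ≤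
        M * (C * (F.d : ℝ) ^ κ * N * E ^ ((12 : ℝ) / 13)) := by
    intro c
    set sc := sE.filter (fun e => prS F (dvp n e) = c) with hsc
    rcases hM0.eq_or_lt with hM1 | hM1
    · have h1 : ∀ e, a e = 0 := by
        intro e
        have h2 := ha e
        rw [← hM1] at h2
        exact abs_eq_zero.1 (le_antisymm h2 (abs_nonneg _))
      rw [← hM1, zero_mul]
      rw [Finset.sum_eq_zero]
      · simp
      · intro e _
        refine Finset.sum_eq_zero fun f _ => ?_
        rw [h1 e]
        ring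
    · have hinj : Set.InjOn (fun e => prS F (ndp n e)) (sc : Set _) := by
        intro e he e' he' hee
        rw [Finset.mem_coe, hsc, Finset.mem_filter] at he he'
        have g1 := (memE e he.1).1
        have g2 := (memE e' he'.1).1
        refine f10_split n ?_ ?_
        · exact hI K F m hm hd (f10_good_sub (Finset.filter_subset _ _) g1)
            (f10_good_sub (Finset.filter_subset _ _) g2) (he.2.trans he'.2.symm)
        · exact hI K F m hm hd (f10_good_sub (Finset.filter_subset _ _) g1)
            (f10_good_sub (Finset.filter_subset _ _) g2) hee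
      have hinjth : Set.InjOn (th F) (sN : Set _) := by
        intro f hf f' hf' hff
        rw [Finset.mem_coe] at hf hf'
        exact hL K F m hm hd f f' (memN f hf).1 (memN f' hf').1
          ((memN f hf).2.2.trans (memN f' hf').2.2.symm) hff
      have himg := f10_img sc sN (fun e => prS F (ndp n e)) (th F) hinj hinjth
        (fun e => α e * a e / M) β (fun i x => (KK i x : ℝ))
      have hbil := hBil F.d (by
        rintro ⟨t, ht⟩
        exact F.not_sq t (by rw [ht]; push_cast; ring)) E N hE hEN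
        (sc.image fun e => prS F (ndp n e)) (by
          intro i hi
          rw [Finset.mem_image] at hi
          obtain ⟨e, he, rfl⟩ := hi
          rw [hsc, Finset.mem_filter] at he
          have g1 := memE e he.1
          refine ⟨(hPr K F m hm hd _ (f10_good_sub (Finset.filter_subset _ _) g1.1)).1, ?_⟩
          have g2 : nS (ndp n e) ≤ nS e := f10_ndp_le g1.1
          have g3 : ((nS (ndp n e) : ℕ) : ℝ) ≤ nS e := by exact_mod_cast g2
          exact g3.trans g1.2)
        (sN.image (th F)) (by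
          intro x hx
          rw [Finset.mem_image] at hx
          obtain ⟨f, hf, rfl⟩ := hx
          have g1 := f10_th F (hTh K F) hm hd (memN f hf).1
          have g2 : ((th F f).1 : ℝ) ^ 2 ≤ nS f := by exact_mod_cast g1.le1
          have g3 : ((th F f).2 : ℝ) ^ 2 ≤ nS f := by exact_mod_cast g1.le2
          exact ⟨g2.trans (memN f hf).2.1, g3.trans (memN f hf).2.1⟩)
        (by
          intro hx
          rw [Finset.mem_image] at hx
          obtain ⟨f, hf, hx⟩ := hx
          exact (f10_th F (hTh K F) hm hd (memN f hf).1).ne hx)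
        (by
          intro k hk
          rw [Finset.filter_image]
          refine Finset.card_image_le.trans ?_
          rcases (sN.filter fun f => (nD F.d (th F f)).natAbs = k).eq_empty_or_nonempty with
            h0 | ⟨f₁, hf₁⟩
          · rw [h0]
            simp
          · have hnk : ∀ f ∈ sN.filter (fun f => (nD F.d (th F f)).natAbs = k),
                k = nS f * n := by
              intro f hf
              rw [Finset.mem_filter] at hf
              have g1 := (f10_ng F (hTh K F) (hNg K F) hm hd (memN f hf.1).1).1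
              rw [hngL f hf.1, hf.2] at g1
              exact g1
            have hk1 := hnk f₁ hf₁
            have hkn : k / n ≠ 0 := by
              rw [hk1, Nat.mul_div_cancel _ (by omega)]
              exact (f10_pos (memN f₁ (Finset.mem_filter.1 hf₁).1).1).ne'
            have hfin : {S : Finset (HeightOneSpectrum (𝓞 K)) | Good m S ∧
                nS S = k / n}.Finite := by
              refine (hG K F m hm hd ((k / n : ℕ) : ℝ)).subset fun S hS => ⟨hS.1, ?_⟩
              rw [hS.2]
            have g2 : (sN.filter fun f => (nD F.d (th F f)).natAbs = k).card ≤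
                {S : Finset (HeightOneSpectrum (𝓞 K)) | Good m S ∧ nS S = k / n}.ncard := by
              rw [← Set.ncard_coe_finset]
              refine Set.ncard_le_ncard ?_ hfin
              intro f hf
              rw [Finset.mem_coe] at hf
              refine ⟨(memN f (Finset.mem_filter.1 hf).1).1, ?_⟩
              rw [hnk f hf, Nat.mul_div_cancel _ (by omega)]
            have g3 := g2.trans (hN K F m hm hd (k / n) hkn)
            refine g3.trans (Finset.card_le_card ?_)
            exact Nat.divisors_subset_of_dvd (by omega) (Nat.div_dvd_of_dvd ⟨nS f₁, by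
              rw [hk1, mul_comm]⟩))
        (fun i => (fun e => α e * a e / M) (Function.invFunOn (fun e => prS F (ndp n e))
          (sc : Set _) i))
        (fun x => β (Function.invFunOn (th F) (sN : Set _) x))
        (by
          intro i
          have g : ∀ e, |α e * a e / M| ≤ 1 := by
            intro e
            rw [abs_div, abs_mul, abs_of_pos hM1, div_le_one hM1]
            calc |α e| * |a e| ≤ 1 * M :=
                  mul_le_mul (hα e) (ha e) (abs_nonneg _) zero_le_one
              _ = M := one_mul M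
          exact g _)
        (fun x => hβ _)
      have h3 : ∑ e ∈ sc, ∑ f ∈ sN, (α e * a e) * β f * (KK (prS F (ndp n e)) (th F f) : ℝ) =
          M * ∑ e ∈ sc, ∑ f ∈ sN, α e * a e / M * β f * (KK (prS F (ndp n e)) (th F f) : ℝ) := by
        rw [Finset.mul_sum]
        refine Finset.sum_congr rfl fun e _ => ?_
        rw [Finset.mul_sum]
        refine Finset.sum_congr rfl fun f _ => ?_
        field_simp
      rw [h3, abs_mul, abs_of_nonneg hM0]
      refine mul_le_mul_of_nonneg_left ?_ hM0
      have h4 : ∑ e ∈ sc, ∑ f ∈ sN, α e * a e / M * β f *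
          (KK (prS F (ndp n e)) (th F f) : ℝ) = _ := himg.symm
      rw [h4]
      exact hbil
  -- the classes
  set T : Finset (ℕ × ℕ) := Finset.range (n + 1) ×ˢ Finset.range (n + 1) with hT
  have hmaps : ∀ e ∈ sE, prS F (dvp n e) ∈ T := by
    intro e he
    have g1 := (memE e he).1
    have g2 := (hPr K F m hm hd _ (f10_good_sub (T := dvp n e) (Finset.filter_subset _ _)
      g1)).1.lt
    have g3 := Nat.le_of_dvd (by omega) (f10_dvd (n := n) g1)
    have g4 : (prS F (dvp n e)).1 = nS (dvp n e) := rfl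
    rw [hT, Finset.mem_product, Finset.mem_range, Finset.mem_range]
    constructor
    · rw [g4]
      omega
    · rw [g4] at g2
      omega
  rw [← Finset.sum_fiberwise_of_maps_to hmaps]
  refine (Finset.abs_sum_le_sum_abs _ _).trans ?_
  refine (Finset.sum_le_sum fun c _ => key c).trans ?_
  rw [Finset.sum_const, nsmul_eq_mul]
  have hTc : (T.card : ℝ) ≤ 4 * (F.d : ℝ) ^ 2 := by
    rw [hT, Finset.card_product, Finset.card_range]
    have h1 : ((n : ℝ) + 1) ≤ 2 * F.d := by
      have h2 : (n : ℝ) ≤ F.d := by exact_mod_cast hn1.2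
      have h3 : (1 : ℝ) ≤ F.d := by exact_mod_cast F.d_pos
      linarith
    push_cast
    nlinarith [Nat.cast_nonneg (α := ℝ) n]
  have hdm : (F.d : ℝ) ≤ m := by
    have h1 : F.d ∣ m := (Dvd.intro_left 8 rfl).trans hd
    exact_mod_cast Nat.le_of_dvd (Nat.pos_of_ne_zero hm) h1
  have hd0 : (0 : ℝ) ≤ F.d := Nat.cast_nonneg _
  have hω := f10_omega m hm
  have h4ω : (4 : ℝ) ^ (m.primeFactors.card + 1) ≤ 4 * (m : ℝ) ^ 2 := by
    have h1 : (4 : ℝ) ^ (m.primeFactors.card + 1) = 4 * (2 ^ m.primeFactors.card) ^ 2 := by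
      rw [← pow_mul, mul_comm _ 2, pow_mul, pow_succ]
      norm_num
      ring
    rw [h1]
    have h2 : ((2 : ℝ) ^ m.primeFactors.card) ^ 2 ≤ (m : ℝ) ^ 2 :=
      pow_le_pow_left₀ (by positivity) hω 2
    linarith
  have hκm : (F.d : ℝ) ^ κ ≤ (m : ℝ) ^ κ := Real.rpow_le_rpow hd0 hdm hκ.le
  have hd2 : (F.d : ℝ) ^ 2 ≤ (m : ℝ) ^ 2 := pow_le_pow_left₀ hd0 hdm 2
  have hX : 0 ≤ C * N * E ^ ((12 : ℝ) / 13) := by positivity
  have hpow : (m : ℝ) ^ (κ + 4) = (m : ℝ) ^ κ * (m : ℝ) ^ 2 * (m : ℝ) ^ 2 := by
    rw [Real.rpow_add hm0]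
    have h1 : (m : ℝ) ^ (4 : ℝ) = (m : ℝ) ^ (4 : ℕ) := by
      rw [← Real.rpow_natCast]
      norm_num
    rw [h1]
    ring
  calc (T.card : ℝ) * (M * (C * (F.d : ℝ) ^ κ * N * E ^ ((12 : ℝ) / 13)))
      = (T.card : ℝ) * ((4 : ℝ) ^ (m.primeFactors.card + 1)) * ((F.d : ℝ) ^ κ) * A *
          (C * N * E ^ ((12 : ℝ) / 13)) := by
        rw [hMdef]
        ring
    _ ≤ (4 * (m : ℝ) ^ 2) * (4 * (m : ℝ) ^ 2) * ((m : ℝ) ^ κ) * A *
          (C * N * E ^ ((12 : ℝ) / 13)) := by
        have h5 : (T.card : ℝ) ≤ 4 * (m : ℝ) ^ 2 := hTc.trans (by linarith)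
        gcongr
    _ = 16 * C * A * (m : ℝ) ^ (κ + 4) * N * E ^ (12 / 13 : ℝ) := by
        rw [hpow]
        ring

end Pool.Agent.H32.MA
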