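import Pool.Agent.H32.MA.FDefs

/-!
# Project MA9 (MP_a9b340), row F6: two good sets with the same label
-/

set_option autoImplicit false

open scoped BigOperators
open NumberField IsDedekindDomain

namespace Pool.Agent.H32.MA

open Pool.Agent.H98.MF (ord)
open Pool.Agent.H98.MF.B (ord_mul ord_one ord_inv ord_div ord_pow ord_neg ord_alg_nonneg
  ord_of_sub_one)

section

variable {K : Type} [Field K] [NumberField K] (F : QF K)

theorem FLam_el_eq (x : ℤ × ℤ) : el F x = ((x.1 : ℚ) : K) + ((x.2 : ℚ) : K) * F.dl := by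
  unfold el
  push_cast
  rfl

theorem FLam_el_ne {x : ℤ × ℤ} (h : x ≠ (0, 0)) : el F x ≠ 0 := by
  intro h0
  rw [FLam_el_eq] at h0
  obtain ⟨h1, h2⟩ := F.indep h0
  apply h
  ext
  · exact_mod_cast h1
  · exact_mod_cast h2

theorem FLam_int (x : ℤ × ℤ) : ∃ r : 𝓞 K, algebraMap (𝓞 K) K r = el F x := by
  have h1 : IsIntegral ℤ F.dl := by
    refine IsIntegral.of_pow (n := 2) two_pos ?_
    rw [F.sq]
    exact_mod_cast isIntegral_algebraMap (R := ℤ) (A := K) (x := (F.d : ℤ))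
  have h2 : IsIntegral ℤ (el F x) := by
    unfold el
    have h3 : ∀ z : ℤ, IsIntegral ℤ (z : K) := fun z => by
      exact_mod_cast isIntegral_algebraMap (R := ℤ) (A := K) (x := z)
    exact (h3 x.1).add ((h3 x.2).mul h1)
  exact ⟨⟨el F x, h2⟩, rfl⟩

theorem FLam_ord_nonneg (P : HeightOneSpectrum (𝓞 K)) (x : ℤ × ℤ) : 0 ≤ ord P (el F x) := by
  obtain ⟨r, hr⟩ := FLam_int F x
  rw [← hr]
  exact ord_alg_nonneg P r

theorem FLam_nat_nonneg (P : HeightOneSpectrum (𝓞 K)) (n : ℕ) : 0 ≤ ord P (n : K) := by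
  have h := ord_alg_nonneg P (n : 𝓞 K)
  rwa [map_natCast] at h

theorem FLam_good_sub {m : ℕ} {S T : Finset (HeightOneSpectrum (𝓞 K))} (h : T ⊆ S)
    (hS : Good m S) : Good m T :=
  ⟨fun P hP => hS.1 P (h hP), hS.2.mono (by exact_mod_cast h)⟩

theorem FLam_nS_pos {m : ℕ} {S : Finset (HeightOneSpectrum (𝓞 K))} (hS : Good m S) :
    0 < nS S := by
  unfold nS
  exact Finset.prod_pos fun P hP => (hS.1 P hP).1.pos

/-- primes of degree one dividing a natural number -/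
theorem FLam_dvd (hRes : StRes K) (hOrdR : StOrdR K) (P : HeightOneSpectrum (𝓞 K))
    (hP : (nP P).Prime) (n : ℕ) (hn : n ≠ 0) : 1 ≤ ord P (n : K) ↔ nP P ∣ n := by
  have h1 := (hRes P hP).1
  have h2 := hOrdR (nP P) hP P h1 (n : ℚ) (by exact_mod_cast hn)
  rw [Rat.cast_natCast, padicValRat.of_nat] at h2
  have hf : Fact (nP P).Prime := ⟨hP⟩
  constructor
  · intro h
    by_contra hd
    rw [padicValNat.eq_zero_of_not_dvd hd] at h2
    simp at h2
    omega
  · intro hd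
    have h3 : 1 ≤ padicValNat (nP P) n := one_le_padicValNat_of_dvd hn hd
    rw [h2]
    have h4 : (1 : ℤ) ≤ (padicValNat (nP P) n : ℤ) := by exact_mod_cast h3
    nlinarith

/-- the data of a good set -/
theorem FLam_data (hTh : StThue F) (hNg : StNg F) {m : ℕ} (hm : m ≠ 0) (hd : 8 * F.d ∣ m)
    {S : Finset (HeightOneSpectrum (𝓞 K))} (hS : Good m S) :
    ThP F S (th F S) ∧ (nD F.d (th F S)).natAbs = nS S * ng F S ∧ 1 ≤ ng F S := by
  have h1 := hTh m hm hd S hS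
  have h2 : ThP F S (th F S) := by
    have h3 : th F S = h1.choose := by
      unfold th
      rw [dif_pos h1]
    rw [h3]
    exact h1.choose_spec
  obtain ⟨n, hn1, hn2, _⟩ := hNg m hm hd S hS _ h2
  have h4 : ng F S = n := by
    unfold ng
    rw [hn1]
    exact Nat.mul_div_cancel_left _ (FLam_nS_pos hS)
  exact ⟨h2, by rw [h4]; exact hn1, by rw [h4]; exact hn2⟩

theorem FLam_sub {x y : ℤ × ℤ} {M : ℕ} (h1 : x.1 % (M : ℤ) = y.1 % (M : ℤ))
    (h2 : x.2 % (M : ℤ) = y.2 % (M : ℤ)) :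
    ∃ z : ℤ × ℤ, el F x - el F y = (M : K) * el F z := by
  obtain ⟨s, hs⟩ := Int.dvd_of_emod_eq_zero (Int.emod_eq_emod_iff_emod_sub_eq_zero.1 h1)
  obtain ⟨t, ht⟩ := Int.dvd_of_emod_eq_zero (Int.emod_eq_emod_iff_emod_sub_eq_zero.1 h2)
  refine ⟨(s, t), ?_⟩
  have h3 : (x.1 : K) - (y.1 : K) = (M : K) * s := by exact_mod_cast congrArg (Int.cast : ℤ → K) hs
  have h4 : (x.2 : K) - (y.2 : K) = (M : K) * t := by exact_mod_cast congrArg (Int.cast : ℤ → K) ht
  unfold el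
  linear_combination h3 + h4 * F.dl

/-- signs -/
theorem FLam_sgn {x y : ℤ × ℤ} (hx : x ≠ (0, 0)) (hy : y ≠ (0, 0))
    (h : sgn2 F.d x = sgn2 F.d y) (φ : K →+* ℝ) : 0 < φ (el F x / el F y) := by
  have hsq : φ F.dl ^ 2 = (F.d : ℝ) := by
    rw [← map_pow, F.sq, map_natCast]
  have hx0 : φ (el F x) ≠ 0 := by
    rw [Ne, map_eq_zero]; exact FLam_el_ne F hx
  have hy0 : φ (el F y) ≠ 0 := by
    rw [Ne, map_eq_zero]; exact FLam_el_ne F hy
  have he : ∀ z : ℤ × ℤ, φ (el F z) = (z.1 : ℝ) + z.2 * φ F.dl := by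
    intro z
    unfold el
    rw [map_add, map_mul, map_intCast, map_intCast]
  unfold sgn2 at h
  rw [Prod.mk.injEq, decide_eq_decide, decide_eq_decide] at h
  have hiff : 0 < φ (el F x) ↔ 0 < φ (el F y) := by
    have hsd : Real.sqrt (F.d : ℝ) ^ 2 = (F.d : ℝ) := Real.sq_sqrt (Nat.cast_nonneg _)
    rw [← hsd] at hsq
    rcases sq_eq_sq_iff_eq_or_eq_neg.1 hsq with h1 | h1
    · rw [he, he, h1]
      exact h.1
    · rw [he, he, h1]
      have e : ∀ z : ℤ × ℤ, (z.1 : ℝ) + z.2 * -Real.sqrt (F.d : ℝ) =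
          (z.1 : ℝ) - z.2 * Real.sqrt (F.d : ℝ) := fun z => by ring
      rw [e, e]
      exact h.2
  rw [map_div₀]
  rcases lt_or_gt_of_ne hy0 with h1 | h1
  · have h2 : φ (el F x) < 0 := by
      rcases lt_or_gt_of_ne hx0 with h3 | h3
      · exact h3
      · exact absurd (hiff.1 h3) (not_lt.2 h1.le)
    exact div_pos_of_neg_of_neg h2 h1
  · exact div_pos (hiff.2 h1) h1

end

theorem f_lam {K : Type} [Field K] [NumberField K] (F : QF K) (hRes : StRes K)
    (hOrdR : StOrdR K) (hI : StInj F) (hTh : StThue F) (hNg : StNg F) (hT : StOrdT F) :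
    StLam F := by
  intro m hm hd S S₀ hS hS₀ hlab
  obtain ⟨hx, hxn, hn1⟩ := FLam_data F hTh hNg hm hd hS
  obtain ⟨hy, hyn, _⟩ := FLam_data F hTh hNg hm hd hS₀
  unfold lab at hlab
  rw [Prod.mk.injEq, Prod.mk.injEq, Prod.mk.injEq, Prod.mk.injEq] at hlab
  obtain ⟨e1, ⟨e2, e3⟩, e4, e5⟩ := hlab
  rw [← e1] at e2 e3 e5 hyn
  have hdvp : dvp (ng F S) S = dvp (ng F S) S₀ :=
    hI m hm hd (FLam_good_sub (Finset.filter_subset _ _) hS)
      (FLam_good_sub (Finset.filter_subset _ _) hS₀) e5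
  set n := ng F S with hn
  set a := el F (th F S) with ha
  set a₀ := el F (th F S₀) with ha₀
  have hn0 : n ≠ 0 := by omega
  have hane : a ≠ 0 := FLam_el_ne F hx.ne
  have ha₀ne : a₀ ≠ 0 := FLam_el_ne F hy.ne
  obtain ⟨z, hz⟩ := FLam_sub F e2 e3
  rw [← ha, ← ha₀] at hz
  have hmK : (m : K) ≠ 0 := by exact_mod_cast hm
  have hnK : (n : K) ≠ 0 := by exact_mod_cast hn0
  -- exponents of the difference
  have hsub : ∀ P : HeightOneSpectrum (𝓞 K), a / a₀ = 1 ∨
      ord P (m : K) + 3 * ord P (n : K) - ord P a₀ ≤ ord P (a / a₀ - 1) := by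
    intro P
    by_cases hz0 : el F z = 0
    · left
      rw [hz0, mul_zero] at hz
      rw [sub_eq_zero.1 hz]
      exact div_self ha₀ne
    · right
      have h1 : a / a₀ - 1 = ((m * n ^ 3 : ℕ) : K) * el F z / a₀ := by
        rw [← hz, sub_div, div_self ha₀ne]
      have h2 : ((m * n ^ 3 : ℕ) : K) = (m : K) * (n : K) ^ 3 := by push_cast; ring
      have h3 := FLam_ord_nonneg F P z
      rw [h1, h2, ord_div P (mul_ne_zero (mul_ne_zero hmK (pow_ne_zero 3 hnK)) hz0) ha₀ne,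
        ord_mul P (mul_ne_zero hmK (pow_ne_zero 3 hnK)) hz0, ord_mul P hmK (pow_ne_zero 3 hnK),
        ord_pow]
      push_cast
      linarith
  have hTS := hT m hm hd S hS _ n hx hxn hn1
  have hTS₀ := hT m hm hd S₀ hS₀ _ n hy hyn hn1
  have hlast : ∀ P : HeightOneSpectrum (𝓞 K), 1 ≤ ord P (n : K) →
      a / a₀ = 1 ∨ 1 ≤ ord P (a / a₀ - 1) := by
    intro P hP
    rcases hsub P with h | h
    · exact Or.inl h
    · right
      have h1 := hTS₀.2.2 P
      have h2 := FLam_nat_nonneg P (K := K) m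
      rw [← ha₀] at h1
      linarith
  refine ⟨hdvp, ?_, ?_, ?_, hlast⟩
  · intro P hP
    rcases hsub P with h | h
    · exact Or.inl h
    · right
      have h1 := hTS₀.2.1 P hP
      have h2 := FLam_nat_nonneg P (K := K) n
      rw [← ha₀] at h1
      linarith
  · intro φ
    exact FLam_sgn F hx.ne hy.ne e4 φ
  · intro P hPm
    by_cases hPn : 1 ≤ ord P (n : K)
    · have h1 := (ord_of_sub_one P (hlast P hPn)).2
      have h2 : P ∈ S ↔ P ∈ S₀ := by
        have key : ∀ T T' : Finset (HeightOneSpectrum (𝓞 K)), Good m T →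
            dvp n T = dvp n T' → P ∈ T → P ∈ T' := by
          intro T T' hg he hPT
          have h3 : nP P ∣ n := (FLam_dvd hRes hOrdR P (hg.1 P hPT).1 n hn0).1 hPn
          have h4 : P ∈ dvp n T := Finset.mem_filter.2 ⟨hPT, h3⟩
          rw [he] at h4
          exact (Finset.mem_filter.1 h4).1
        exact ⟨key S S₀ hS hdvp, key S₀ S hS₀ hdvp.symm⟩
      have h3 : i2 S P = i2 S₀ P := by
        unfold i2
        by_cases hp : P ∈ S
        · rw [if_pos hp, if_pos (h2.1 hp)]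
        · rw [if_neg hp, if_neg (fun h => hp (h2.2 h))]
      rw [h1, h3, CharTwo.add_self_eq_zero, Int.cast_zero]
    · have h1 := hTS.1 P hPm hPn
      have h2 := hTS₀.1 P hPm hPn
      rw [← ha] at h1
      rw [← ha₀] at h2
      rw [ord_div P hane ha₀ne]
      unfold i2
      by_cases hPS : P ∈ S <;> by_cases hPS₀ : P ∈ S₀
      · rw [h1.1 hPS, h2.1 hPS₀, if_pos hPS, if_pos hPS₀]; decide
      · rw [h1.1 hPS, h2.2 hPS₀, if_pos hPS, if_neg hPS₀]; decide
      · rw [h1.2 hPS, h2.1 hPS₀, if_neg hPS, if_pos hPS₀]; decide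
      · rw [h1.2 hPS, h2.2 hPS₀, if_neg hPS, if_neg hPS₀]; decide

theorem f_lTh {K : Type} [Field K] [NumberField K] (F : QF K) (hRes : StRes K)
    (hOrdR : StOrdR K) (hI : StInj F) (hTh : StThue F) (hNg : StNg F) (hT : StOrdT F) :
    StLTh F := by
  intro m hm hd S S₀ hS hS₀ hlab hth
  have key : ∀ T T' : Finset (HeightOneSpectrum (𝓞 K)), Good m T → Good m T' →
      lab F m T = lab F m T' → th F T = th F T' → ∀ P, P ∈ T → P ∈ T' := by
    intro T T' hg hg' hlab hth P hP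
    obtain ⟨hx, hxn, hn1⟩ := FLam_data F hTh hNg hm hd hg
    obtain ⟨hy, hyn, _⟩ := FLam_data F hTh hNg hm hd hg'
    have hdvp := (f_lam F hRes hOrdR hI hTh hNg hT m hm hd T T' hg hg' hlab).1
    have e1 : ng F T = ng F T' := congrArg Prod.fst hlab
    rw [← e1] at hyn
    set n := ng F T with hn
    have hn0 : n ≠ 0 := by omega
    by_cases hd1 : nP P ∣ n
    · have h4 : P ∈ dvp n T := Finset.mem_filter.2 ⟨hP, hd1⟩
      rw [hdvp] at h4
      exact (Finset.mem_filter.1 h4).1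
    · have hp := (hg.1 P hP).1
      have hPn : ¬ 1 ≤ ord P (n : K) := fun h => hd1 ((FLam_dvd hRes hOrdR P hp n hn0).1 h)
      have hPm : ¬ 1 ≤ ord P (m : K) := fun h =>
        (hg.1 P hP).2 ((FLam_dvd hRes hOrdR P hp m hm).1 h)
      have h1 := ((hT m hm hd T hg _ n hx hxn hn1).1 P hPm hPn).1 hP
      by_contra hP'
      have h2 := ((hT m hm hd T' hg' _ n hy hyn hn1).1 P hPm hPn).2 hP'
      rw [← hth, h1] at h2
      exact one_ne_zero h2
  ext P
  exact ⟨key S S₀ hS hS₀ hlab hth P, key S₀ S hS₀ hS hlab.symm hth.symm P⟩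

end Pool.Agent.H32.MA
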