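import Pool.Agent.H32.MA.FDefs

/-! Row MA9-F14: few good sets of given norm. -/

set_option autoImplicit false

open scoped BigOperators
open NumberField IsDedekindDomain

namespace Pool.Agent.H32.MA

open Pool.Agent.H98.MF (ord)

section

variable {K : Type} [Field K] [NumberField K]

open Classical in
/-- a chosen prime of norm `p` -/
noncomputable def fnorm_gc (K : Type) [Field K] [NumberField K] (p : ℕ) :
    Option (HeightOneSpectrum (𝓞 K)) :=
  if h : ∃ P : HeightOneSpectrum (𝓞 K), nP P = p then some h.choose else none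

theorem fnorm_gc_spec (P : HeightOneSpectrum (𝓞 K)) :
    ∃ R, fnorm_gc K (nP P) = some R ∧ nP R = nP P := by
  have h : ∃ Q : HeightOneSpectrum (𝓞 K), nP Q = nP P := ⟨P, rfl⟩
  exact ⟨h.choose, by unfold fnorm_gc; rw [dif_pos h], h.choose_spec⟩

open Classical in
/-- the product of the norms of the chosen primes -/
noncomputable def fnorm_k (S : Finset (HeightOneSpectrum (𝓞 K))) : ℕ :=
  ∏ P ∈ S.filter (fun P => fnorm_gc K (nP P) = some P), nP P

theorem fnorm_k_dvd (S : Finset (HeightOneSpectrum (𝓞 K))) : fnorm_k S ∣ nS S := by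
  classical
  unfold fnorm_k nS
  exact Finset.prod_dvd_prod_of_subset _ _ _ (Finset.filter_subset _ _)

theorem fnorm_sub (F : QF K) (hCj : StCjP F) (hRes : StRes K) {m : ℕ}
    (hd : 8 * F.d ∣ m) {S S' : Finset (HeightOneSpectrum (𝓞 K))} (hS : Good m S)
    (hS' : Good m S') (hn : nS S = nS S') (hk : fnorm_k S = fnorm_k S') : S ⊆ S' := by
  classical
  intro P hP
  have hpp : (nP P).Prime := (hS.1 P hP).1
  have hpm : ¬ nP P ∣ m := (hS.1 P hP).2
  by_cases hch : fnorm_gc K (nP P) = some P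
  · -- the chosen prime
    have h1 : nP P ∣ fnorm_k S' := by
      rw [← hk]
      unfold fnorm_k
      exact Finset.dvd_prod_of_mem _ (Finset.mem_filter.2 ⟨hP, hch⟩)
    unfold fnorm_k at h1
    obtain ⟨Q, hQ, hdv⟩ := hpp.prime.exists_mem_finset_dvd h1
    obtain ⟨hQS, hQc⟩ := Finset.mem_filter.1 hQ
    have h2 : nP P = nP Q := (Nat.prime_dvd_prime_iff_eq hpp (hS'.1 Q hQS).1).1 hdv
    rw [← h2, hch] at hQc
    have h3 : P = Q := Option.some.inj hQc
    rw [h3]
    exact hQS
  · have h1 : nP P ∣ nS S' := by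
      rw [← hn]
      unfold nS
      exact Finset.dvd_prod_of_mem _ hP
    unfold nS at h1
    obtain ⟨P', hP', hdv⟩ := hpp.prime.exists_mem_finset_dvd h1
    have h2 : nP P = nP P' := (Nat.prime_dvd_prime_iff_eq hpp (hS'.1 P' hP').1).1 hdv
    have hch' : ¬ fnorm_gc K (nP P') = some P' := by
      intro hc
      have h3 : nP P ∣ fnorm_k S := by
        rw [hk]
        unfold fnorm_k
        rw [h2]
        exact Finset.dvd_prod_of_mem _ (Finset.mem_filter.2 ⟨hP', hc⟩)
      unfold fnorm_k at h3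
      obtain ⟨Q, hQ, hdv'⟩ := hpp.prime.exists_mem_finset_dvd h3
      obtain ⟨hQS, hQc⟩ := Finset.mem_filter.1 hQ
      have h4 : nP P = nP Q := (Nat.prime_dvd_prime_iff_eq hpp (hS.1 Q hQS).1).1 hdv'
      have h5 : P = Q := hS.2 hP hQS h4
      rw [← h5] at hQc
      exact hch hQc
    obtain ⟨R, hR, hnR⟩ := fnorm_gc_spec P
    have hRP : P ≠ R := by
      rintro rfl
      exact hch hR
    have hRP' : P' ≠ R := by
      rintro rfl
      rw [h2] at hR
      exact hch' hR
    obtain ⟨R', -, -, hR'⟩ := hCj R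
    have hnd : ¬ nP R ∣ 2 * F.d := by
      rw [hnR]
      intro hc
      exact hpm ((hc.trans ⟨4, by ring⟩ : nP P ∣ 8 * F.d).trans hd)
    have h6 := (hR' (by rw [hnR]; exact hpp) hnd).2
    rw [hnR] at h6
    have h7 : 1 ≤ ord P ((nP P : ℕ) : K) := (hRes P hpp).1
    have h8 : 1 ≤ ord P' ((nP P : ℕ) : K) := by
      rw [h2]
      exact (hRes P' (hS'.1 P' hP').1).1
    have h9 : P = R' := (h6 P h7).resolve_left hRP
    have h10 : P' = R' := (h6 P' h8).resolve_left hRP'
    rw [h9, ← h10]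
    exact hP'

end

theorem f_norm (hCj : ∀ (K : Type) [Field K] [NumberField K] (F : QF K), StCjP F)
    (hRes : ∀ (K : Type) [Field K] [NumberField K], StRes K) : StmNorm := by
  intro K _ _ F m _ hd n hn
  have h1 : {S : Finset (HeightOneSpectrum (𝓞 K)) | Good m S ∧ nS S = n}.ncard ≤
      ((n.divisors : Finset ℕ) : Set ℕ).ncard := by
    refine Set.ncard_le_ncard_of_injOn fnorm_k ?_ ?_ (Finset.finite_toSet _)
    · rintro S ⟨-, hS⟩
      rw [Finset.mem_coe, Nat.mem_divisors]
      exact ⟨hS ▸ fnorm_k_dvd S, hn⟩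
    · rintro S ⟨hS, hSn⟩ S' ⟨hS', hSn'⟩ hk
      exact Finset.Subset.antisymm
        (fnorm_sub F (hCj K F) (hRes K) hd hS hS' (hSn.trans hSn'.symm) hk)
        (fnorm_sub F (hCj K F) (hRes K) hd hS' hS (hSn'.trans hSn.symm) hk.symm)
  rwa [Set.ncard_coe_finset] at h1

end Pool.Agent.H32.MA
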