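import Pool.Agent.H32.MA.FDefs
import Pool.Agent.H32.MA.RBase

/-!
Project MA9 (MP_a9b340), row F5: the cofactor and the exponents of a Thue element
-/

set_option autoImplicit false

open scoped BigOperators
open NumberField IsDedekindDomain

namespace Pool.Agent.H32.MA

open Pool.Agent.H98.MF (ord)
open Pool.Agent.H98.MF.B (ord_mul ord_one ord_neg ord_add val_eq ord_alg_nonneg)

section

variable {K : Type} [Field K] [NumberField K]

theorem fOrd_int_nonneg (P : HeightOneSpectrum (𝓞 K)) (z : ℤ) : 0 ≤ ord P (z : K) := by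
  have h := ord_alg_nonneg P (z : 𝓞 K)
  rwa [map_intCast] at h

theorem fOrd_nat_nonneg (P : HeightOneSpectrum (𝓞 K)) (n : ℕ) : 0 ≤ ord P (n : K) := by
  have h := fOrd_int_nonneg P (n : ℤ)
  push_cast at h
  exact h

theorem fOrd_natAbs (P : HeightOneSpectrum (𝓞 K)) (z : ℤ) :
    ord P (z : K) = ord P (z.natAbs : K) := by
  rcases Int.natAbs_eq z with h | h
  · conv_lhs => rw [h, Int.cast_natCast]
  · conv_lhs => rw [h, Int.cast_neg, Int.cast_natCast, ord_neg]

/-- a rational prime with positive exponent divides the integers with positive exponent -/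
theorem fOrd_dvd (P : HeightOneSpectrum (𝓞 K)) {p : ℕ} (hp : p.Prime)
    (h1 : 1 ≤ ord P (p : K)) (z : ℤ) (hz : 1 ≤ ord P (z : K)) : (p : ℤ) ∣ z := by
  by_contra hcon
  have hpz : Prime (p : ℤ) := Nat.prime_iff_prime_int.1 hp
  have hco : IsCoprime (p : ℤ) z := (Prime.coprime_iff_not_dvd hpz).2 hcon
  obtain ⟨u, v, huv⟩ := hco
  have hpK : (p : K) ≠ 0 := by exact_mod_cast hp.ne_zero
  have hz0 : (z : K) ≠ 0 := by
    intro h0
    rw [h0] at hz
    have : ord P (0 : K) = 0 := by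
      unfold ord
      rw [FractionalIdeal.spanSingleton_zero]
      exact FractionalIdeal.count_zero K P
    omega
  have hK : (u : K) * p + (v : K) * z = 1 := by exact_mod_cast huv
  by_cases hu : (u : K) = 0
  · rw [hu, zero_mul, zero_add] at hK
    have hv : (v : K) ≠ 0 := by
      intro h0
      rw [h0, zero_mul] at hK
      exact zero_ne_one hK
    have h2 := ord_mul P hv hz0
    rw [hK, ord_one] at h2
    have := fOrd_int_nonneg P v
    omega
  by_cases hv : (v : K) = 0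
  · rw [hv, zero_mul, add_zero] at hK
    have h2 := ord_mul P hu hpK
    rw [hK, ord_one] at h2
    have := fOrd_int_nonneg P u
    omega
  have h3 := ord_add P (mul_ne_zero hu hpK) (mul_ne_zero hv hz0) (by rw [hK]; exact one_ne_zero)
  rw [hK, ord_one, ord_mul P hu hpK, ord_mul P hv hz0] at h3
  have := fOrd_int_nonneg P u
  have := fOrd_int_nonneg P v
  rcases min_le_iff.1 h3 with h4 | h4 <;> omega

theorem fOrd_eq (P : HeightOneSpectrum (𝓞 K)) {p q : ℕ} (hp : p.Prime) (hq : q.Prime)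
    (h1 : 1 ≤ ord P (p : K)) (h2 : 1 ≤ ord P (q : K)) : p = q := by
  have h3 := fOrd_dvd P hp h1 (q : ℤ) (by push_cast; exact h2)
  have h4 : p ∣ q := by exact_mod_cast h3
  exact (Nat.prime_dvd_prime_iff_eq hp hq).1 h4

/-- there is a rational prime below -/
theorem fOrd_pr (P : HeightOneSpectrum (𝓞 K)) : ∀ n : ℕ, n ≠ 0 → 1 ≤ ord P (n : K) →
    ∃ p : ℕ, p.Prime ∧ 1 ≤ ord P (p : K) := by
  intro n
  induction n using Nat.strong_induction_on with
  | _ n ih =>
    intro h0 h1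
    have hn1 : n ≠ 1 := by
      rintro rfl
      rw [Nat.cast_one, ord_one] at h1
      omega
    have hp := Nat.minFac_prime hn1
    by_cases h2 : 1 ≤ ord P (n.minFac : K)
    · exact ⟨_, hp, h2⟩
    · obtain ⟨k, hk⟩ := Nat.minFac_dvd n
      have hk0 : k ≠ 0 := by
        rintro rfl
        rw [mul_zero] at hk
        exact h0 hk
      have hkn : k < n := by
        calc k < n.minFac * k := by
              have := hp.two_le
              have : 0 < k := Nat.pos_of_ne_zero hk0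
              nlinarith
          _ = n := hk.symm
      have h3 : ord P (n : K) = ord P (n.minFac : K) + ord P (k : K) := by
        conv_lhs => rw [hk]
        rw [Nat.cast_mul]
        exact ord_mul P (by exact_mod_cast hp.ne_zero) (by exact_mod_cast hk0)
      exact ih k hkn hk0 (by omega)

theorem fOrd_below (P : HeightOneSpectrum (𝓞 K)) :
    ∃ p : ℕ, p.Prime ∧ 1 ≤ ord P (p : K) := by
  have h0 : nP P ≠ 0 := by
    unfold nP
    rw [Ne, Ideal.absNorm_eq_zero_iff]
    exact P.ne_bot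
  have hK : ((nP P : ℕ) : K) ≠ 0 := by exact_mod_cast h0
  refine fOrd_pr P (nP P) h0 ?_
  have hmem : ((nP P : ℕ) : 𝓞 K) ∈ P.asIdeal := Ideal.absNorm_mem _
  have h1 : P.valuation K (algebraMap (𝓞 K) K ((nP P : ℕ) : 𝓞 K)) < 1 :=
    (P.valuation_lt_one_iff_mem (K := K) _).2 hmem
  rw [map_natCast, val_eq P hK, ← WithZero.exp_zero, WithZero.exp_lt_exp] at h1
  omega

variable (F : QF K)

theorem fOrd_el_ne {x : ℤ × ℤ} (hx : x ≠ (0, 0)) : el F x ≠ 0 := by
  intro h
  have h1 : ((x.1 : ℚ) : K) + ((x.2 : ℚ) : K) * F.dl = 0 := by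
    push_cast
    exact h
  obtain ⟨h2, h3⟩ := F.indep h1
  apply hx
  have h4 : x.1 = 0 := by exact_mod_cast h2
  have h5 : x.2 = 0 := by exact_mod_cast h3
  exact Prod.ext h4 h5

theorem fOrd_cj (x : ℤ × ℤ) : F.cj (el F x) = el F (x.1, -x.2) := by
  have h := F.cj_xy (x.1 : ℚ) (x.2 : ℚ)
  have e : el F x = ((x.1 : ℚ) : K) + ((x.2 : ℚ) : K) * F.dl := by
    unfold el
    push_cast
    rfl
  rw [e, h]
  unfold el
  push_cast
  ring

theorem fOrd_nonneg (P : HeightOneSpectrum (𝓞 K)) (x : ℤ × ℤ) : 0 ≤ ord P (el F x) := by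
  have hint : IsIntegral ℤ F.dl := by
    refine ⟨Polynomial.X ^ 2 - Polynomial.C (F.d : ℤ), Polynomial.monic_X_pow_sub_C _ two_ne_zero, ?_⟩
    simp [F.sq]
  let dl' : 𝓞 K := ⟨F.dl, hint⟩
  have h := ord_alg_nonneg P ((x.1 : 𝓞 K) + (x.2 : 𝓞 K) * dl')
  have e : algebraMap (𝓞 K) K ((x.1 : 𝓞 K) + (x.2 : 𝓞 K) * dl') = el F x := by
    rw [map_add, map_mul, map_intCast, map_intCast]
    rfl
  rwa [e] at h

theorem fOrd_nD (x : ℤ × ℤ) : el F x * F.cj (el F x) = ((nD F.d x : ℤ) : K) := by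
  rw [fOrd_cj]
  unfold el nD
  push_cast
  linear_combination -((x.2 : K) ^ 2) * F.sq

theorem fOrd_nD_ne {x : ℤ × ℤ} (hx : x ≠ (0, 0)) : nD F.d x ≠ 0 := by
  intro h
  have h1 := fOrd_nD F x
  rw [h, Int.cast_zero] at h1
  exact (mul_ne_zero (fOrd_el_ne F hx) (F.cj_ne (fOrd_el_ne F hx))) h1

theorem fOrd_sum (P : HeightOneSpectrum (𝓞 K)) {x : ℤ × ℤ} (hx : x ≠ (0, 0)) {a b : ℕ}
    (h : (nD F.d x).natAbs = a * b) :
    ord P (el F x) + ord P (F.cj (el F x)) = ord P (a : K) + ord P (b : K) := by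
  have h0 : a * b ≠ 0 := by
    rw [← h]
    exact Int.natAbs_ne_zero.2 (fOrd_nD_ne F hx)
  have ha : (a : K) ≠ 0 := by
    exact_mod_cast left_ne_zero_of_mul h0
  have hb : (b : K) ≠ 0 := by
    exact_mod_cast right_ne_zero_of_mul h0
  rw [← ord_mul P (fOrd_el_ne F hx) (F.cj_ne (fOrd_el_ne F hx)), fOrd_nD, fOrd_natAbs, h,
    Nat.cast_mul, ord_mul P ha hb]

theorem f_ng {K : Type} [Field K] [NumberField K] (F : QF K) (hRes : StRes K) : StNg F := by
  classical
  intro m hm hdm S hS x hx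
  have hdvd : nS S ∣ (nD F.d x).natAbs := by
    have h1 : nS S = ∏ p ∈ S.image nP, p := by
      unfold nS
      rw [Finset.prod_image]
      intro P hP Q hQ hPQ
      exact hS.2 hP hQ hPQ
    rw [h1]
    refine Finset.prod_primes_dvd _ ?_ ?_
    · intro p hp
      obtain ⟨P, hP, rfl⟩ := Finset.mem_image.1 hp
      exact (hS.1 P hP).1.prime
    · intro p hp
      obtain ⟨P, hP, rfl⟩ := Finset.mem_image.1 hp
      have hpr := (hS.1 P hP).1
      have h2 := (hRes P hpr).1
      have h3 := hx.mem P hP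
      have h4 : 1 ≤ ord P ((nD F.d x : ℤ) : K) := by
        rw [← fOrd_nD, ord_mul P (fOrd_el_ne F hx.ne) (F.cj_ne (fOrd_el_ne F hx.ne)), fOrd_cj]
        have := fOrd_nonneg F P (x.1, -x.2)
        omega
      have h5 := fOrd_dvd P hpr h2 _ h4
      exact Int.natCast_dvd.1 h5
  obtain ⟨n, hn⟩ := hdvd
  have hne : (nD F.d x).natAbs ≠ 0 := Int.natAbs_ne_zero.2 (fOrd_nD_ne F hx.ne)
  have hn1 : 1 ≤ n := by
    rcases Nat.eq_zero_or_pos n with h0 | h0
    · rw [h0, mul_zero] at hn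
      exact absurd hn hne
    · exact h0
  refine ⟨n, hn, hn1, ?_⟩
  have hS1 : 1 ≤ nS S := by
    rcases Nat.eq_zero_or_pos (nS S) with h0 | h0
    · rw [h0, zero_mul] at hn
      exact absurd hn hne
    · exact h0
  have hd : (1 : ℤ) < F.d := by exact_mod_cast F.lt
  have h6 : ((nD F.d x).natAbs : ℤ) ≤ F.d * nS S := by
    rw [Int.natCast_natAbs, abs_le]
    unfold nD
    have a1 := hx.le1
    have a2 := hx.le2
    have b1 := sq_nonneg x.1
    have b2 := sq_nonneg x.2
    constructor <;> nlinarith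
  have h7 : (nS S : ℤ) * n ≤ nS S * F.d := by
    rw [hn] at h6
    push_cast at h6
    linarith
  have h8 : (0 : ℤ) < nS S := by exact_mod_cast hS1
  have h9 := le_of_mul_le_mul_left h7 h8
  exact_mod_cast h9

/-- the exponent of the norm of a good set -/
theorem fOrd_nS_zero (P : HeightOneSpectrum (𝓞 K)) {p : ℕ} (hp : p.Prime)
    (h1 : 1 ≤ ord P (p : K)) (S : Finset (HeightOneSpectrum (𝓞 K)))
    (hS : ∀ Q ∈ S, (nP Q).Prime ∧ nP Q ≠ p) : ord P ((nS S : ℕ) : K) = 0 := by
  classical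
  induction S using Finset.induction_on with
  | empty =>
    unfold nS
    rw [Finset.prod_empty, Nat.cast_one, ord_one]
  | insert Q T hQ ih =>
    have hT := ih fun R hR => hS R (Finset.mem_insert_of_mem hR)
    obtain ⟨h2, h3⟩ := hS Q (Finset.mem_insert_self Q T)
    have h4 : ord P ((nP Q : ℕ) : K) = 0 := by
      by_contra h5
      have h6 := fOrd_nat_nonneg P (nP Q)
      exact h3 (fOrd_eq P hp h2 h1 (by omega)).symm
    have h5 : nS (insert Q T) = nP Q * nS T := by
      unfold nS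
      rw [Finset.prod_insert hQ]
    have h6 : nS T ≠ 0 := by
      unfold nS
      exact Finset.prod_ne_zero_iff.2 fun R hR => (hS R (Finset.mem_insert_of_mem hR)).1.ne_zero
    rw [h5, Nat.cast_mul, ord_mul P (by exact_mod_cast h2.ne_zero) (by exact_mod_cast h6), h4, hT,
      add_zero]

theorem fOrd_nS_one (P : HeightOneSpectrum (𝓞 K)) {p : ℕ} (hp : p.Prime)
    (h1 : 1 ≤ ord P (p : K)) (S : Finset (HeightOneSpectrum (𝓞 K)))
    (hS : ∀ Q ∈ S, (nP Q).Prime) (hinj : Set.InjOn nP (S : Set (HeightOneSpectrum (𝓞 K))))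
    {Q : HeightOneSpectrum (𝓞 K)} (hQ : Q ∈ S) (hQp : nP Q = p) :
    ord P ((nS S : ℕ) : K) = ord P (p : K) := by
  classical
  have h2 : nS S = nP Q * nS (S.erase Q) := by
    unfold nS
    rw [Finset.mul_prod_erase S nP hQ]
  have h3 : ord P ((nS (S.erase Q) : ℕ) : K) = 0 := by
    refine fOrd_nS_zero P hp h1 _ fun R hR => ?_
    obtain ⟨h4, h5⟩ := Finset.mem_erase.1 hR
    refine ⟨hS R h5, fun h6 => h4 ?_⟩
    exact hinj h5 hQ (by rw [h6, hQp])
  have h6 : nS (S.erase Q) ≠ 0 := by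
    unfold nS
    exact Finset.prod_ne_zero_iff.2 fun R hR => (hS R (Finset.mem_of_mem_erase hR)).ne_zero
  rw [h2, Nat.cast_mul, hQp, ord_mul P (by exact_mod_cast hp.ne_zero) (by exact_mod_cast h6), h3,
    add_zero]

theorem f_ordT {K : Type} [Field K] [NumberField K] (F : QF K) (hCj : StCjP F) (hRes : StRes K)
    (hOrdR : StOrdR K) (hUnr : StUnr F) : StOrdT F := by
  classical
  have _ := hOrdR
  intro m hm hdm S hS x n hx hn hn1
  have hsum := fun P => fOrd_sum F P hx.ne hn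
  have hcj0 : ∀ P : HeightOneSpectrum (𝓞 K), 0 ≤ ord P (F.cj (el F x)) := by
    intro P
    rw [fOrd_cj]
    exact fOrd_nonneg F P _
  have hdm2 : 2 * F.d ∣ m := Dvd.dvd.trans ⟨4, by ring⟩ hdm
  -- primes below divide `m` if and only if the exponent is positive
  have hpm : ∀ (P : HeightOneSpectrum (𝓞 K)) (p : ℕ), p.Prime → 1 ≤ ord P (p : K) →
      (1 ≤ ord P (m : K) ↔ p ∣ m) := by
    intro P p hp h1
    constructor
    · intro h2
      have h3 := fOrd_dvd P hp h1 (m : ℤ) (by push_cast; exact h2)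
      exact_mod_cast h3
    · rintro ⟨k, hk⟩
      have hk0 : (k : K) ≠ 0 := by
        intro h0
        apply hm
        have : k = 0 := by exact_mod_cast h0
        rw [hk, this, mul_zero]
      rw [hk, Nat.cast_mul, ord_mul P (by exact_mod_cast hp.ne_zero) hk0]
      have := fOrd_nat_nonneg P k
      omega
  -- the case `P ∣ m`
  have hb : ∀ P : HeightOneSpectrum (𝓞 K), 1 ≤ ord P (m : K) → ord P (el F x) ≤ ord P (n : K) := by
    intro P hP
    obtain ⟨p, hp, h1⟩ := fOrd_below P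
    have hpdm := (hpm P p hp h1).1 hP
    have h2 : ord P ((nS S : ℕ) : K) = 0 := by
      refine fOrd_nS_zero P hp h1 S fun Q hQ => ⟨(hS.1 Q hQ).1, fun h3 => ?_⟩
      apply (hS.1 Q hQ).2
      rw [h3]
      exact hpdm
    have h3 := hsum P
    have h4 := hcj0 P
    omega
  refine ⟨?_, hb, ?_⟩
  · intro P hPm hPn
    obtain ⟨p, hp, h1⟩ := fOrd_below P
    have hpm' : ¬ p ∣ m := fun h => hPm ((hpm P p hp h1).2 h)
    have hp2d : ¬ p ∣ 2 * F.d := fun h => hpm' (h.trans hdm2)
    have h2 := hUnr p hp hp2d P h1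
    have hn0 : ord P (n : K) = 0 := by
      have := fOrd_nat_nonneg P n
      omega
    have h3 := hsum P
    have h4 := hcj0 P
    have h5 := fOrd_nonneg F P x
    by_cases hex : ∃ Q ∈ S, nP Q = p
    · obtain ⟨Q, hQ, hQp⟩ := hex
      have h6 := fOrd_nS_one P hp h1 S (fun R hR => (hS.1 R hR).1) hS.2 hQ hQp
      obtain ⟨Q', hQ1, hQ2, hQ3⟩ := hCj Q
      obtain ⟨hne, hall⟩ := hQ3 (hS.1 Q hQ).1 (by rw [hQp]; exact hp2d)
      rcases hall P (by rw [hQp]; exact h1) with rfl | rfl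
      · have h7 := hx.mem P hQ
        exact ⟨fun _ => by omega, fun h => absurd hQ h⟩
      · have h7 : 1 ≤ ord P (F.cj (el F x)) := by
          rw [hQ2, F.cj_cj]
          exact hx.mem Q hQ
        refine ⟨fun h => ?_, fun _ => by omega⟩
        exact absurd (hS.2 h hQ hQ1) hne
    · push Not at hex
      have h6 : ord P ((nS S : ℕ) : K) = 0 :=
        fOrd_nS_zero P hp h1 S fun Q hQ => ⟨(hS.1 Q hQ).1, hex Q hQ⟩
      refine ⟨fun h => ?_, fun _ => by omega⟩
      exfalso
      have h7 := (hRes P (hS.1 P h).1).1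
      exact hex P h (fOrd_eq P (hS.1 P h).1 hp h7 h1)
  · intro P
    by_cases hPm : 1 ≤ ord P (m : K)
    · have := hb P hPm
      omega
    · obtain ⟨p, hp, h1⟩ := fOrd_below P
      have hpm' : ¬ p ∣ m := fun h => hPm ((hpm P p hp h1).2 h)
      have hp2d : ¬ p ∣ 2 * F.d := fun h => hpm' (h.trans hdm2)
      have h2 := hUnr p hp hp2d P h1
      have h3 := hsum P
      have h4 := hcj0 P
      have h6 : ord P ((nS S : ℕ) : K) ≤ 1 := by
        by_cases hex : ∃ Q ∈ S, nP Q = p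
        · obtain ⟨Q, hQ, hQp⟩ := hex
          have h6 := fOrd_nS_one P hp h1 S (fun R hR => (hS.1 R hR).1) hS.2 hQ hQp
          omega
        · push Not at hex
          have h6 : ord P ((nS S : ℕ) : K) = 0 :=
            fOrd_nS_zero P hp h1 S fun Q hQ => ⟨(hS.1 Q hQ).1, hex Q hQ⟩
          omega
      omega

end

end Pool.Agent.H32.MA
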