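import Pool.Agent.H32.MA.FDefs

/-!
# Project MA9 (MP_a9b340), block F: the pair of a good set
-/

set_option autoImplicit false

open scoped BigOperators
open NumberField IsDedekindDomain

namespace Pool.Agent.H32.MA

open Pool.Agent.H98.MF (ord)
open Pool.Agent.H98.MF.B (ord_mul ord_one ord_neg ord_add ord_alg_nonneg)

section

variable {K : Type} [Field K] [NumberField K]

/-- zero or of positive exponent -/
private def F2Z (P : HeightOneSpectrum (𝓞 K)) (x : K) : Prop := x = 0 ∨ 1 ≤ ord P x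

private theorem f2_add {P : HeightOneSpectrum (𝓞 K)} {x y : K} (hx : F2Z P x) (hy : F2Z P y) :
    F2Z P (x + y) := by
  rcases hx with rfl | hx
  · rwa [zero_add]
  rcases hy with rfl | hy
  · rw [add_zero]
    exact Or.inr hx
  by_cases h0 : x + y = 0
  · exact Or.inl h0
  by_cases hx0 : x = 0
  · rw [hx0, zero_add]
    exact Or.inr hy
  by_cases hy0 : y = 0
  · rw [hy0, add_zero]
    exact Or.inr hx
  right
  have := ord_add P hx0 hy0 h0
  exact le_trans (le_min hx hy) this

private theorem f2_neg {P : HeightOneSpectrum (𝓞 K)} {x : K} (hx : F2Z P x) : F2Z P (-x) := by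
  rcases hx with rfl | hx
  · left
    exact neg_zero
  · right
    rwa [ord_neg]

private theorem f2_mul {P : HeightOneSpectrum (𝓞 K)} {x y : K} (hx : F2Z P x)
    (hy : 0 ≤ ord P y) : F2Z P (x * y) := by
  by_cases hy0 : y = 0
  · left
    rw [hy0, mul_zero]
  rcases hx with rfl | hx
  · left
    exact zero_mul _
  by_cases hx0 : x = 0
  · left
    rw [hx0, zero_mul]
  right
  rw [ord_mul P hx0 hy0]
  linarith

private theorem f2_int (P : HeightOneSpectrum (𝓞 K)) (z : ℤ) : 0 ≤ ord P (z : K) := by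
  have h := ord_alg_nonneg P (z : 𝓞 K)
  simpa using h

private theorem f2_dl (F : QF K) (P : HeightOneSpectrum (𝓞 K)) : 0 ≤ ord P F.dl := by
  have hi : IsIntegral ℤ F.dl := by
    refine IsIntegral.of_pow two_pos ?_
    rw [F.sq]
    exact_mod_cast isIntegral_algebraMap (R := ℤ) (A := K) (x := (F.d : ℤ))
  have h := ord_alg_nonneg P (⟨F.dl, hi⟩ : 𝓞 K)
  exact h

private theorem f2_of_dvd {P : HeightOneSpectrum (𝓞 K)} {p : ℕ} (hp : 1 ≤ ord P (p : K)) {z : ℤ}
    (h : (p : ℤ) ∣ z) : F2Z P (z : K) := by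
  obtain ⟨t, rfl⟩ := h
  push_cast
  exact f2_mul (Or.inr hp) (f2_int P t)

private theorem f2_dvd {P : HeightOneSpectrum (𝓞 K)} {p : ℕ} (hpp : p.Prime)
    (hp : 1 ≤ ord P (p : K)) {z : ℤ} (h : F2Z P (z : K)) : (p : ℤ) ∣ z := by
  by_contra hn
  have hc : IsCoprime (p : ℤ) z := by
    rw [Int.isCoprime_iff_gcd_eq_one]
    have h1 := (Nat.Prime.coprime_iff_not_dvd hpp (n := z.natAbs)).2
      (fun hd => hn (Int.natCast_dvd.2 hd))
    exact h1
  obtain ⟨a, b, hab⟩ := hc
  have h1 : F2Z P ((p : K) * (a : K) + (z : K) * (b : K)) :=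
    f2_add (f2_mul (Or.inr hp) (f2_int P a)) (f2_mul h (f2_int P b))
  have h2 : (p : K) * (a : K) + (z : K) * (b : K) = 1 := by
    have h3 : ((a * (p : ℤ) + b * z : ℤ) : K) = 1 := by
      rw [hab, Int.cast_one]
    push_cast at h3
    linear_combination h3
  rw [h2] at h1
  rcases h1 with h1 | h1
  · exact one_ne_zero h1
  · rw [ord_one] at h1
    omega

omit [NumberField K] in
private theorem f2_prod {ι : Type} (S : Finset ι) (f : ι → ℕ) (hf : ∀ i ∈ S, (f i).Prime)
    (hinj : Set.InjOn f (S : Set ι)) :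
    Squarefree (∏ i ∈ S, f i) ∧
      ∀ z : ℤ, (∀ i ∈ S, (f i : ℤ) ∣ z) → ((∏ i ∈ S, f i : ℕ) : ℤ) ∣ z := by
  classical
  induction S using Finset.induction_on with
  | empty => exact ⟨by simp, fun z _ => by simp⟩
  | insert a s ha ih =>
    have hs := ih (fun i hi => hf i (Finset.mem_insert_of_mem hi))
      (hinj.mono (by simp))
    have hc : (f a).Coprime (∏ i ∈ s, f i) := by
      refine Nat.Coprime.prod_right fun i hi => ?_
      refine (Nat.coprime_primes (hf a (Finset.mem_insert_self a s))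
        (hf i (Finset.mem_insert_of_mem hi))).2 fun h => ?_
      have := hinj (Finset.mem_coe.2 (Finset.mem_insert_self a s))
        (Finset.mem_coe.2 (Finset.mem_insert_of_mem hi)) h
      exact ha (this ▸ hi)
    rw [Finset.prod_insert ha]
    refine ⟨(Nat.squarefree_mul hc).2
      ⟨(hf a (Finset.mem_insert_self a s)).prime.squarefree, hs.1⟩, fun z hz => ?_⟩
    push_cast
    have h1 := hz a (Finset.mem_insert_self a s)
    have h2 := hs.2 z fun i hi => hz i (Finset.mem_insert_of_mem hi)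
    push_cast at h2
    refine IsCoprime.mul_dvd ?_ h1 h2
    have h3 := Nat.isCoprime_iff_coprime.2 hc
    push_cast at h3
    exact h3

/-- the residues modulo the primes of `S` -/
private theorem f2_rt (F : QF K) (hRes : StRes K) (S : Finset (HeightOneSpectrum (𝓞 K)))
    (hS : ∀ P ∈ S, (nP P).Prime) (hinj : Set.InjOn nP (S : Set (HeightOneSpectrum (𝓞 K)))) :
    ∃ r : ℕ, r < nS S ∧ Rt F S r := by
  classical
  have h1 : ∀ P : HeightOneSpectrum (𝓞 K), ∃ r : ℕ, P ∈ S → 1 ≤ ord P (F.dl - (r : K)) := by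
    intro P
    by_cases hP : P ∈ S
    · obtain ⟨hp, hr⟩ := hRes P (hS P hP)
      obtain ⟨r, hr⟩ := hr F.dl (f2_dl F P)
      have hr' : F2Z P (F.dl - (r : K)) := by
        rcases hr with hr | hr
        · left
          rw [hr, sub_self]
        · exact Or.inr hr
      have hpos : (0 : ℤ) < nP P := by exact_mod_cast (hS P hP).pos
      refine ⟨(r % (nP P : ℤ)).toNat, fun _ => ?_⟩
      have h2 : (((r % (nP P : ℤ)).toNat : ℕ) : K) = ((r % (nP P : ℤ) : ℤ) : K) := by
        have : (((r % (nP P : ℤ)).toNat : ℕ) : ℤ) = r % (nP P : ℤ) :=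
          Int.toNat_of_nonneg (Int.emod_nonneg _ hpos.ne')
        exact_mod_cast congrArg (Int.cast : ℤ → K) this
      have h3 : F2Z P ((r - r % (nP P : ℤ) : ℤ) : K) :=
        f2_of_dvd hp (Int.dvd_self_sub_emod)
      have h4 := f2_add hr' h3
      have h5 : F.dl - (r : K) + ((r - r % (nP P : ℤ) : ℤ) : K) =
          F.dl - (((r % (nP P : ℤ)).toNat : ℕ) : K) := by
        rw [h2]
        push_cast
        ring
      rw [h5] at h4
      rcases h4 with h4 | h4
      · exfalso
        refine F.dl_notin (((r % (nP P : ℤ)).toNat : ℕ) : ℚ) ?_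
        push_cast
        exact (sub_eq_zero.1 h4).symm
      · exact h4
    · exact ⟨0, fun h => absurd h hP⟩
  choose a ha using h1
  have hs : ∀ P ∈ S, nP P ≠ 0 := fun P hP => (hS P hP).ne_zero
  have pp : Set.Pairwise (S : Set (HeightOneSpectrum (𝓞 K))) (Function.onFun Nat.Coprime nP) := by
    intro P hP Q hQ hne
    exact (Nat.coprime_primes (hS P hP) (hS Q hQ)).2 fun h => hne (hinj hP hQ h)
  refine ⟨Nat.chineseRemainderOfFinset a nP S hs pp, Nat.chineseRemainderOfFinset_lt_prod a nP hs pp,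
    fun P hP => ?_⟩
  set r : ℕ := (Nat.chineseRemainderOfFinset a nP S hs pp : ℕ) with hr
  have h2 : r ≡ a P [MOD nP P] := (Nat.chineseRemainderOfFinset a nP S hs pp).2 P hP
  obtain ⟨hp, -⟩ := hRes P (hS P hP)
  have h3 : F2Z P (((a P : ℤ) - (r : ℤ) : ℤ) : K) :=
    f2_of_dvd hp ((Nat.modEq_iff_dvd).1 h2)
  have h4 := f2_add (Or.inr (ha P hP)) h3
  have h5 : F.dl - (a P : K) + (((a P : ℤ) - (r : ℤ) : ℤ) : K) = F.dl - (r : K) := by
    push_cast
    ring
  rw [h5] at h4
  rcases h4 with h4 | h4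
  · exfalso
    refine F.dl_notin (r : ℚ) ?_
    push_cast
    exact (sub_eq_zero.1 h4).symm
  · exact h4

end

theorem f_prS {K : Type} [Field K] [NumberField K] (F : QF K) (hRes : StRes K) : StPrS F := by
  classical
  intro m hm hdv S hS
  have hpr : ∀ P ∈ S, (nP P).Prime := fun P hP => (hS.1 P hP).1
  obtain ⟨hlt, hrt⟩ : rtS F S < nS S ∧ Rt F S (rtS F S) := by
    have h := f2_rt F hRes S hpr hS.2
    unfold rtS
    rw [dif_pos h]
    exact h.choose_spec
  refine ⟨⟨?_, ?_, ?_, hlt, ?_⟩, hrt⟩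
  · show Odd (nS S)
    rw [← Nat.coprime_two_left]
    refine Nat.Coprime.prod_right fun P hP => ?_
    rw [Nat.coprime_two_left]
    refine (hpr P hP).odd_of_ne_two fun h => (hS.1 P hP).2 ?_
    rw [h]
    exact dvd_trans (Dvd.intro (4 * F.d) (by ring)) hdv
  · exact (f2_prod S nP hpr hS.2).1
  · show Nat.Coprime (nS S) F.d
    refine Nat.Coprime.prod_left fun P hP => ?_
    refine (Nat.Prime.coprime_iff_not_dvd (hpr P hP)).2 fun h => (hS.1 P hP).2 ?_
    exact dvd_trans (dvd_mul_of_dvd_right h 8) hdv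
  · show ((nS S : ℕ) : ℤ) ∣ ((rtS F S : ℕ) : ℤ) ^ 2 - F.d
    refine (f2_prod S nP hpr hS.2).2 _ fun P hP => ?_
    obtain ⟨hp, -⟩ := hRes P (hpr P hP)
    refine f2_dvd (hpr P hP) hp ?_
    have h1 : F2Z P (F.dl - ((rtS F S : ℕ) : K)) := Or.inr (hrt P hP)
    have h2 := f2_mul (f2_neg h1) (y := F.dl + ((rtS F S : ℕ) : K)) ?_
    · have h3 : -(F.dl - ((rtS F S : ℕ) : K)) * (F.dl + ((rtS F S : ℕ) : K)) =
          ((((rtS F S : ℕ) : ℤ) ^ 2 - F.d : ℤ) : K) := by
        push_cast
        linear_combination -F.sq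
      rwa [h3] at h2
    · by_cases h0 : ((rtS F S : ℕ) : K) = 0
      · rw [h0, add_zero]
        exact f2_dl F P
      · refine le_trans (le_min (f2_dl F P) ?_) (ord_add P F.dl_ne h0 ?_)
        · exact_mod_cast f2_int P ((rtS F S : ℕ) : ℤ)
        · intro h4
          refine F.dl_notin (-(rtS F S : ℕ) : ℚ) ?_
          push_cast
          linear_combination -h4

end Pool.Agent.H32.MA
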