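import Pool.Agent.H32.MA.FDefs

/-!
# Project MA9 (MP_a9b340), row F7: the sum after multiplication by an element close to one
-/

set_option autoImplicit false
set_option linter.unusedSectionVars false

open scoped BigOperators
open NumberField IsDedekindDomain

namespace Pool.Agent.H32.MA

open Pool.Agent.H98.MF (ord)
open Pool.Agent.H98.MF.B (ord_mul ord_one ord_inv ord_div ord_pow ord_neg ord_zpow ord_finite
  ord_add ord_add_of_lt ord_of_sub_one)

section

variable {K : Type} [Field K] [NumberField K]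

private theorem f7_rp_ne (q : SqC K) : rp q ≠ 0 := Units.ne_zero _

private theorem f7_rp {l : K} (hl : l ≠ 0) (q : SqC K) : ∃ z : K, z ≠ 0 ∧
    rp ((QuotientGroup.mk (Units.mk0 l hl) : SqC K) * q) = l * rp q * z ^ 2 := by
  have h1 : (QuotientGroup.mk (Units.mk0 l hl) : SqC K) * q =
      QuotientGroup.mk (Units.mk0 l hl * Quotient.out q) := by
    rw [QuotientGroup.mk_mul, QuotientGroup.out_eq']
  obtain ⟨⟨h, y, hy⟩, hh⟩ := QuotientGroup.mk_out_eq_mul
    ((powMonoidHom 2 : Kˣ →* Kˣ).range) (Units.mk0 l hl * Quotient.out q)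
  refine ⟨(y : K), Units.ne_zero y, ?_⟩
  unfold rp
  rw [h1]
  have h2 : (Quotient.out (QuotientGroup.mk (Units.mk0 l hl * Quotient.out q) : SqC K) : Kˣ) =
      Units.mk0 l hl * Quotient.out q * y ^ 2 := by
    rw [show (y ^ 2 : Kˣ) = h from hy]
    exact hh
  rw [h2]
  push_cast
  rw [Units.val_mk0]

private theorem f7_par {l : K} (hl : l ≠ 0) (q : SqC K) (P : HeightOneSpectrum (𝓞 K)) :
    ((ord P (rp ((QuotientGroup.mk (Units.mk0 l hl) : SqC K) * q)) : ℤ) : ZMod 2) =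
      ((ord P l : ℤ) : ZMod 2) + ((ord P (rp q) : ℤ) : ZMod 2) := by
  obtain ⟨z, hz, h⟩ := f7_rp hl q
  have h0 := f7_rp_ne q
  rw [h, ord_mul P (mul_ne_zero hl h0) (pow_ne_zero 2 hz), ord_mul P hl h0, ord_pow]
  push_cast
  have h2 : (2 : ZMod 2) = 0 := by decide
  rw [h2, zero_mul, add_zero]

/-- the character on a good set -/
private theorem f7_ch (F : QF K) (hRes : StRes K) (hCh : StChP K) (hUnr : StUnr F) {m : ℕ}
    (h8 : 8 * F.d ∣ m) {P : HeightOneSpectrum (𝓞 K)} (hP : gP m P) :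
    (∀ a : K, chP P a = 1 ∨ chP P a = -1) ∧
    (∀ a b : K, a ≠ 0 → b ≠ 0 → chP P (a * b) = chP P a * chP P b) := by
  obtain ⟨hpr, hnm⟩ := hP
  have h2d : ¬ nP P ∣ 2 * F.d := by
    intro h
    exact hnm ((h.trans (Nat.mul_dvd_mul_right (by norm_num) _)).trans h8)
  have hp2 : nP P ≠ 2 := by
    intro h
    apply h2d
    rw [h]
    exact Dvd.intro _ rfl
  have h1 := hUnr _ hpr h2d P (hRes P hpr).1
  obtain ⟨c1, c2, -, -⟩ := hCh P hpr hp2 h1
  exact ⟨c1, c2⟩

private theorem f7_chS (F : QF K) (hRes : StRes K) (hCh : StChP K) (hUnr : StUnr F) {m : ℕ}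
    (h8 : 8 * F.d ∣ m) {e : Finset (HeightOneSpectrum (𝓞 K))} (he : ∀ P ∈ e, gP m P)
    {l : K} (hl : l ≠ 0) (q : SqC K) :
    chS e (F.cj (rp ((QuotientGroup.mk (Units.mk0 l hl) : SqC K) * q))) =
      chS e (F.cj l) * chS e (F.cj (rp q)) := by
  obtain ⟨z, hz, h⟩ := f7_rp hl q
  have h0 := F.cj_ne (f7_rp_ne q)
  have hl' := F.cj_ne hl
  have hz' := F.cj_ne hz
  unfold chS
  rw [← Finset.prod_mul_distrib]
  refine Finset.prod_congr rfl fun P hP => ?_
  obtain ⟨c1, c2⟩ := f7_ch F hRes hCh hUnr h8 (he P hP)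
  rw [h, map_mul, map_mul, map_pow, pow_two, c2 _ _ (mul_ne_zero hl' h0) (mul_ne_zero hz' hz'),
    c2 _ _ hl' h0, c2 _ _ hz' hz']
  rcases c1 (F.cj z) with h3 | h3 <;> rw [h3] <;> ring

open Classical in
private theorem f7_ind {e f f₀ : Finset (HeightOneSpectrum (𝓞 K))} (h1 : Disjoint e f)
    (h2 : Disjoint e f₀) (P : HeightOneSpectrum (𝓞 K)) :
    i2 f P + i2 f₀ P + i2 (e ∪ f₀) P = i2 (e ∪ f) P := by
  have h11 : (1 : ZMod 2) + 1 = 0 := by decide
  unfold i2
  by_cases he : P ∈ e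
  · have hf : P ∉ f := Finset.disjoint_left.1 h1 he
    have hf0 : P ∉ f₀ := Finset.disjoint_left.1 h2 he
    rw [if_neg hf, if_neg hf0, if_pos (Finset.mem_union_left _ he),
      if_pos (Finset.mem_union_left _ he), zero_add, zero_add]
  · have ha : P ∈ e ∪ f ↔ P ∈ f := by
      rw [Finset.mem_union]
      exact ⟨fun h => h.resolve_left he, Or.inr⟩
    have hb : P ∈ e ∪ f₀ ↔ P ∈ f₀ := by
      rw [Finset.mem_union]
      exact ⟨fun h => h.resolve_left he, Or.inr⟩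
    have h3 : (if P ∈ e ∪ f then (1 : ZMod 2) else 0) = if P ∈ f then 1 else 0 := by
      by_cases h : P ∈ f
      · rw [if_pos h, if_pos (ha.2 h)]
      · rw [if_neg h, if_neg fun h' => h (ha.1 h')]
    have h4 : (if P ∈ e ∪ f₀ then (1 : ZMod 2) else 0) = if P ∈ f₀ then 1 else 0 := by
      by_cases h : P ∈ f₀
      · rw [if_pos h, if_pos (hb.2 h)]
      · rw [if_neg h, if_neg fun h' => h (hb.1 h')]
    rw [h3, h4, add_assoc]
    by_cases hf0 : P ∈ f₀
    · rw [if_pos hf0, h11, add_zero]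
    · rw [if_neg hf0, add_zero, add_zero]

theorem f_shift (F : QF K) (hRes : StRes K) (hCh : StChP K) (hUnr : StUnr F) : StShift F := by
  classical
  intro m hm h8 Ψ hΨ e f f₀ hef hef₀ l hl hcong hpos hpar
  obtain ⟨hd, hg⟩ := hef
  obtain ⟨hd₀, hg₀⟩ := hef₀
  have he : ∀ P ∈ e, gP m P := fun P hP => hg.1 P (Finset.mem_union_left _ hP)
  set L : SqC K := QuotientGroup.mk (Units.mk0 l hl) with hL
  have hmem : ∀ q : SqC K, q ∈ BB m (e ∪ f₀) ↔ L * q ∈ BB m (e ∪ f) := by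
    intro q
    have key : ∀ P : HeightOneSpectrum (𝓞 K), ¬ 1 ≤ ord P (m : K) →
        ((((ord P (rp q) : ℤ) : ZMod 2) = i2 (e ∪ f₀) P) ↔
          (((ord P (rp (L * q)) : ℤ) : ZMod 2) = i2 (e ∪ f) P)) := by
      intro P hP
      rw [f7_par hl q P, hpar P hP, ← f7_ind hd hd₀ P]
      constructor
      · intro h
        rw [h]
      · intro h
        exact add_left_cancel h
    constructor
    · intro h P hP
      exact (key P hP).1 (h P hP)
    · intro h P hP
      exact (key P hP).2 (h P hP)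
  have hbij : Set.BijOn (fun q : SqC K => L * q) (BB m (e ∪ f₀)) (BB m (e ∪ f)) := by
    refine ⟨fun q hq => (hmem q).1 hq, fun q _ q' _ h => ?_, ?_⟩
    · have h5 : L⁻¹ * (L * q) = L⁻¹ * (L * q') := congrArg (fun x => L⁻¹ * x) h
      rw [inv_mul_cancel_left, inv_mul_cancel_left] at h5
      exact h5
    intro q hq
    refine ⟨L⁻¹ * q, ?_, by simp⟩
    rw [hmem, mul_inv_cancel_left]
    exact hq
  have hval : ∀ q : SqC K, Ψ (rp (L * q)) * (chS e (F.cj (rp (L * q))) : ℝ) =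
      (chS e (F.cj l) : ℝ) * (Ψ (rp q) * (chS e (F.cj (rp q)) : ℝ)) := by
    intro q
    obtain ⟨z, hz, h⟩ := f7_rp hl q
    have h1 : Ψ (rp (L * q)) = Ψ (rp q) := by
      rw [hL, h, hΨ.sq _ _ (mul_ne_zero hl (f7_rp_ne q)) hz,
        hΨ.loc _ _ (f7_rp_ne q) hl hcong hpos]
    rw [h1, hL, f7_chS F hRes hCh hUnr h8 he hl q]
    push_cast
    ring
  unfold GG
  rw [← finsum_mem_eq_of_bijOn (fun q : SqC K => L * q) hbij
    (f := fun q => (chS e (F.cj l) : ℝ) * (Ψ (rp q) * (chS e (F.cj (rp q)) : ℝ)))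
    (fun q _ => (hval q).symm)]
  have h1 : ∀ (c : ℝ) (g : SqC K → ℝ) (s : Set (SqC K)),
      ∑ᶠ q ∈ s, c * g q = c * ∑ᶠ q ∈ s, g q := by
    intro c g s
    have h2 := smul_finsum c (fun q => ∑ᶠ (_ : q ∈ s), g q)
    rw [smul_eq_mul] at h2
    rw [h2]
    refine finsum_congr fun q => ?_
    have h3 := smul_finsum c (fun _ : q ∈ s => g q)
    rw [h3]
    rfl
  exact h1 _ _ _

end

end Pool.Agent.H32.MA
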