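import Pool.Agent.H32.MA.FDefs

/-!
# Project MA9 (MP_a9b340), block F, row F12: square classes, Hilbert 90, exponents of norms
-/

set_option autoImplicit false

open scoped BigOperators
open NumberField IsDedekindDomain

namespace Pool.Agent.H32.MA

open Pool.Agent.H98.MF (ord)
open Pool.Agent.H98.MF.B (ord_mul ord_pow)

theorem f12_nat_sq {n : ℕ} (h : ∀ p : ℕ, p.Prime → Even (padicValNat p n)) : IsSquare n := by
  rcases Nat.eq_zero_or_pos n with rfl | hn
  · exact ⟨0, rfl⟩
  obtain ⟨a, b, hab, ha⟩ := Nat.sq_mul_squarefree n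
  have hb0 : b ≠ 0 := by
    rintro rfl
    simp at hab
    omega
  have ha0 : a ≠ 0 := by
    rintro rfl
    simp at hab
    omega
  by_cases h1 : a = 1
  · rw [h1, mul_one] at hab
    exact ⟨b, by rw [← hab, pow_two]⟩
  · exfalso
    obtain ⟨p, hp, hpa⟩ := Nat.exists_prime_and_dvd h1
    have := Fact.mk hp
    have h2 := h p hp
    rw [← hab, padicValNat.mul (pow_ne_zero _ hb0) ha0, padicValNat.pow] at h2
    have h3 : padicValNat p a = 1 := by
      have h4 : 1 ≤ padicValNat p a := one_le_padicValNat_of_dvd ha0 hpa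
      have h5 : padicValNat p a ≤ 1 := by
        by_contra h6
        have h7 : p ^ 2 ∣ a := (padicValNat_dvd_iff_le ha0).2 (by omega)
        have h8 := ha p (by rwa [← pow_two])
        exact hp.one_lt.ne' (Nat.isUnit_iff.1 h8)
      omega
    rw [h3] at h2
    obtain ⟨k, hk⟩ := h2
    omega

theorem f12_rat_sq {z : ℚ} (hz : 0 < z) (h : ∀ p : ℕ, p.Prime → Even (padicValRat p z)) :
    IsSquare z := by
  have key : ∀ p : ℕ, p.Prime → Even (padicValNat p z.num.natAbs) ∧
      Even (padicValNat p z.den) := by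
    intro p hp
    have := Fact.mk hp
    have h1 : Even ((padicValNat p z.num.natAbs : ℤ) - (padicValNat p z.den : ℤ)) := h p hp
    have h2 : padicValNat p z.num.natAbs = 0 ∨ padicValNat p z.den = 0 := by
      by_contra hc
      push Not at hc
      have h3 : p ∣ z.num.natAbs := dvd_of_one_le_padicValNat (Nat.one_le_iff_ne_zero.2 hc.1)
      have h4 : p ∣ z.den := dvd_of_one_le_padicValNat (Nat.one_le_iff_ne_zero.2 hc.2)
      have h5 := Nat.dvd_gcd h3 h4
      rw [z.reduced] at h5
      exact hp.one_lt.ne' (Nat.dvd_one.1 h5)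
    rcases h2 with h2 | h2
    · rw [h2, Nat.cast_zero, zero_sub, even_neg, Int.even_coe_nat] at h1
      exact ⟨by rw [h2]; decide, h1⟩
    · rw [h2, Nat.cast_zero, sub_zero, Int.even_coe_nat] at h1
      exact ⟨h1, by rw [h2]; decide⟩
  rw [Rat.isSquare_iff]
  constructor
  · obtain ⟨k, hk⟩ := f12_nat_sq fun p hp => (key p hp).1
    refine ⟨(k : ℤ), ?_⟩
    have h1 : ((z.num.natAbs : ℕ) : ℤ) = z.num := Int.natAbs_of_nonneg (Rat.num_pos.2 hz).le
    rw [← h1, hk]
    push_cast
    rfl
  · exact f12_nat_sq fun p hp => (key p hp).2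

/-- F12: square classes of rational numbers with even exponents outside `m` -/
theorem f_qsq : StQsq := by
  intro m x y hm hx hy h1 hs h2
  apply f12_rat_sq
  · rcases lt_or_gt_of_ne hx with h | h
    · have : ¬ 0 < y := fun h' => (lt_asymm h (hs.2 h')).elim
      have hy' : y < 0 := lt_of_le_of_ne (not_lt.1 this) hy
      exact mul_pos_of_neg_of_neg h hy'
    · exact mul_pos h (hs.1 h)
  · intro p hp
    have := Fact.mk hp
    rw [padicValRat.mul hx hy]
    by_cases hd : p ∣ m
    · have h3 := h2 p (Nat.mem_primeFactors.2 ⟨hp, hd, hm⟩)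
      rw [Int.even_add, ← Int.not_odd_iff_even, ← Int.not_odd_iff_even, h3]
    · exact (h1 p hp hd).1.add (h1 p hp hd).2

/-- F12: Hilbert 90 -/
theorem f_h90 {K : Type} [Field K] [NumberField K] (F : QF K) : StH90 (K := K) := by
  rintro b hb ⟨r, hr⟩
  have hN : nmK b ≠ 0 := nm_ne hb
  have hr0 : r ≠ 0 := by
    rintro rfl
    exact hN (by rw [hr, mul_zero])
  have hrK : (r : K) ≠ 0 := by exact_mod_cast hr0
  by_cases h1 : b = -(r : K)
  · refine ⟨-r, 1, neg_ne_zero.2 hr0, one_ne_zero, ?_⟩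
    rw [h1]
    push_cast
    ring
  · have hnb := F.nm_eq b
    rw [hr] at hnb
    push_cast at hnb
    obtain ⟨c, hcd⟩ : ∃ c : K, c = b / r := ⟨_, rfl⟩
    have hbc : b = r * c := by
      rw [hcd]
      field_simp
    have hc : c * F.cj c = 1 := by
      rw [hcd, map_div₀, F.cj_rat, div_mul_div_comm, ← hnb, div_self (mul_ne_zero hrK hrK)]
    have hh : 1 + c ≠ 0 := by
      intro h2
      apply h1
      rw [hbc]
      linear_combination (r : K) * h2
    have hcj : c * F.cj (1 + c) = 1 + c := by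
      rw [map_add, map_one]
      linear_combination hc
    have hN2 := F.nm_eq (1 + c)
    have hN0 : nmK (1 + c : K) ≠ 0 := nm_ne hh
    obtain ⟨N, hNd⟩ : ∃ N : ℚ, N = nmK (1 + c : K) := ⟨_, rfl⟩
    rw [← hNd] at hN2 hN0
    have hN0K : (N : K) ≠ 0 := by exact_mod_cast hN0
    refine ⟨r / N, 1 + c, div_ne_zero hr0 hN0, hh, ?_⟩
    push_cast
    have h3 : c * (N : K) = (1 + c) ^ 2 := by
      rw [hN2]
      linear_combination (1 + c) * hcj
    rw [div_mul_eq_mul_div, eq_div_iff hN0K, ← h3, hbc]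
    ring

/-- F12: exponents of norms and of rational numbers -/
theorem f_nmE {K : Type} [Field K] [NumberField K] (F : QF K) (hCj : StCjP F) (hRes : StRes K)
    (hOver : StOver K) (hOrdR : StOrdR K) (hUnr : StUnr F) : StNmE F := by
  have _ := hRes
  intro m hm hdm b hb hE
  have key : ∀ p : ℕ, p.Prime → ¬ p ∣ m → ∃ P : HeightOneSpectrum (𝓞 K),
      (∀ q : ℚ, q ≠ 0 → ord P (q : K) = padicValRat p q) ∧ ord P (m : K) = 0 := by
    intro p hp hpm
    obtain ⟨P, hP⟩ := hOver p hp
    have h2 : ¬ p ∣ 2 * F.d := by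
      intro h
      apply hpm
      refine h.trans (Dvd.dvd.trans ?_ hdm)
      exact ⟨4, by ring⟩
    have h1 := hUnr p hp h2 P hP
    have h3 : ∀ q : ℚ, q ≠ 0 → ord P (q : K) = padicValRat p q := by
      intro q hq
      rw [hOrdR p hp P hP q hq, h1, one_mul]
    refine ⟨P, h3, ?_⟩
    have h4 := h3 m (by exact_mod_cast hm)
    rw [padicValRat.of_nat, padicValNat.eq_zero_of_not_dvd hpm] at h4
    have h5 : (((m : ℚ)) : K) = (m : K) := by push_cast; rfl
    rw [h5] at h4
    rw [h4]
    rfl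
  constructor
  · intro p hp hpm
    obtain ⟨P, h1, h2⟩ := key p hp hpm
    obtain ⟨P', -, h3, -⟩ := hCj P
    have h4 : ord P' (m : K) = 0 := by
      rw [h3, map_natCast, h2]
    have e1 := hE P (by rw [h2]; norm_num)
    have e2 := hE P' (by rw [h4]; norm_num)
    rw [h3] at e2
    rw [← h1 _ (nm_ne hb), F.nm_eq, ord_mul P hb (F.cj_ne hb)]
    exact e1.add e2
  · intro t h ht hh hbt p hp hpm
    obtain ⟨P, h1, h2⟩ := key p hp hpm
    have e1 := hE P (by rw [h2]; norm_num)
    have htK : (t : K) ≠ 0 := by exact_mod_cast ht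
    rw [hbt, ord_mul P htK (pow_ne_zero _ hh), ord_pow, h1 t ht] at e1
    rw [Int.even_add] at e1
    exact e1.2 (by exact Even.mul_right (by decide) _)

end Pool.Agent.H32.MA
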