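import Pool.Agent.H32.MA.FDefs

/-!
# Project MA9 (MP_a9b340), F4: Thue elements
-/

set_option autoImplicit false

open scoped BigOperators
open NumberField IsDedekindDomain

namespace Pool.Agent.H32.MA

open Pool.Agent.H98.MF (ord)
open Pool.Agent.H98.MF.B (ord_mul ord_add ord_alg_nonneg)

section

variable {K : Type} [Field K] [NumberField K]

theorem f4_int_nonneg (P : HeightOneSpectrum (𝓞 K)) (z : ℤ) : 0 ≤ ord P (z : K) := by
  have h := ord_alg_nonneg P ((z : ℤ) : 𝓞 K)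
  rwa [map_intCast] at h

theorem f4_int (P : HeightOneSpectrum (𝓞 K)) (hp : 1 ≤ ord P ((nP P : ℕ) : K)) {z : ℤ}
    (hz : z ≠ 0) (hd : ((nP P : ℕ) : ℤ) ∣ z) : 1 ≤ ord P (z : K) := by
  obtain ⟨w, rfl⟩ := hd
  have h1 : ((nP P : ℕ) : K) ≠ 0 := by
    intro h
    apply hz
    have : (nP P : ℕ) = 0 := by exact_mod_cast h
    rw [this]
    simp
  have h2 : ((w : ℤ) : K) ≠ 0 := by
    have : w ≠ 0 := right_ne_zero_of_mul hz
    exact_mod_cast this
  have h3 := f4_int_nonneg P w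
  have h4 : (((((nP P : ℕ) : ℤ) * w : ℤ)) : K) = ((nP P : ℕ) : K) * (w : K) := by
    push_cast
    rfl
  rw [h4, ord_mul P h1 h2]
  linarith

theorem f4_mem (F : QF K) (P : HeightOneSpectrum (𝓞 K)) (hp : 1 ≤ ord P ((nP P : ℕ) : K))
    (r : ℕ) (hr : 1 ≤ ord P (F.dl - (r : K))) (x : ℤ × ℤ) (hx : x ≠ (0, 0))
    (hd : ((nP P : ℕ) : ℤ) ∣ x.1 + x.2 * r) : 1 ≤ ord P (el F x) := by
  have he : el F x = ((x.1 + x.2 * r : ℤ) : K) + (x.2 : K) * (F.dl - (r : K)) := by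
    unfold el
    push_cast
    ring
  by_cases h2 : x.2 = 0
  · have h1 : x.1 ≠ 0 := by
      intro h
      exact hx (Prod.ext h h2)
    rw [h2, zero_mul, add_zero] at hd
    have : el F x = (x.1 : K) := by
      unfold el
      rw [h2]
      simp
    rw [this]
    exact f4_int P hp h1 hd
  · have hdr : F.dl - (r : K) ≠ 0 := by
      intro h
      apply F.dl_notin (r : ℚ)
      rw [sub_eq_zero] at h
      rw [h]
      simp
    have h2K : (x.2 : K) ≠ 0 := by exact_mod_cast h2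
    have hw : (x.2 : K) * (F.dl - (r : K)) ≠ 0 := mul_ne_zero h2K hdr
    have how : 1 ≤ ord P ((x.2 : K) * (F.dl - (r : K))) := by
      rw [ord_mul P h2K hdr]
      have := f4_int_nonneg P x.2
      linarith
    by_cases hz : x.1 + x.2 * r = 0
    · rw [he, hz]
      simpa using how
    · have hzK : ((x.1 + x.2 * r : ℤ) : K) ≠ 0 := by exact_mod_cast hz
      have hne : ((x.1 + x.2 * r : ℤ) : K) + (x.2 : K) * (F.dl - (r : K)) ≠ 0 := by
        rw [← he]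
        intro h
        unfold el at h
        have h3 := F.indep (x := (x.1 : ℚ)) (y := (x.2 : ℚ)) (by exact_mod_cast h)
        exact h2 (by exact_mod_cast h3.2)
      rw [he]
      exact (le_min (f4_int P hp hz hd) how).trans (ord_add P hzK hw hne)

/-- F4: pigeonhole principle of Thue -/
theorem f4_pigeon (n r : ℕ) (hn : 1 ≤ n) : ∃ x : ℤ × ℤ, x ≠ (0, 0) ∧ x.1 ^ 2 ≤ (n : ℤ) ∧
    x.2 ^ 2 ≤ (n : ℤ) ∧ (n : ℤ) ∣ x.1 + x.2 * r := by
  have hk1 : n < (Nat.sqrt n + 1) ^ 2 := by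
    have := Nat.lt_succ_sqrt n
    rw [pow_two]
    exact this
  have hk2 : (Nat.sqrt n) ^ 2 ≤ n := Nat.sqrt_le' n
  have hex := Finset.exists_ne_map_eq_of_card_lt_of_maps_to
    (s := (Finset.range (Nat.sqrt n + 1)) ×ˢ (Finset.range (Nat.sqrt n + 1)))
    (t := Finset.range n) (f := fun a : ℕ × ℕ => (a.1 + a.2 * r) % n)
    (by
      rw [Finset.card_product, Finset.card_range, Finset.card_range, ← pow_two]
      exact hk1)
    (by
      intro a _
      simp only [Finset.coe_range, Set.mem_Iio]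
      exact Nat.mod_lt _ hn)
  obtain ⟨a, ha, b, hb, hab, hf⟩ := hex
  rw [Finset.mem_product, Finset.mem_range, Finset.mem_range] at ha hb
  have hsq : ∀ u v : ℕ, u < Nat.sqrt n + 1 → v < Nat.sqrt n + 1 →
      ((u : ℤ) - (v : ℤ)) ^ 2 ≤ (n : ℤ) := by
    intro u v hu hv
    have h1 : |(u : ℤ) - (v : ℤ)| ≤ (Nat.sqrt n : ℤ) := by
      rw [abs_le]
      constructor <;> omega
    have h2 : ((u : ℤ) - (v : ℤ)) ^ 2 ≤ (Nat.sqrt n : ℤ) ^ 2 := by
      rw [← sq_abs ((u : ℤ) - (v : ℤ))]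
      exact pow_le_pow_left₀ (abs_nonneg _) h1 2
    refine h2.trans ?_
    exact_mod_cast hk2
  refine ⟨((a.1 : ℤ) - (b.1 : ℤ), (a.2 : ℤ) - (b.2 : ℤ)), ?_, hsq _ _ ha.1 hb.1,
    hsq _ _ ha.2 hb.2, ?_⟩
  · intro h
    apply hab
    rw [Prod.mk.injEq] at h
    refine Prod.ext ?_ ?_
    · have := h.1
      omega
    · have := h.2
      omega
  · have h1 : a.1 + a.2 * r ≡ b.1 + b.2 * r [MOD n] := hf
    have h2 := (Nat.modEq_iff_dvd.1 h1.symm)
    push_cast at h2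
    have : (((a.1 : ℤ) - (b.1 : ℤ), (a.2 : ℤ) - (b.2 : ℤ)) : ℤ × ℤ).1 +
      (((a.1 : ℤ) - (b.1 : ℤ), (a.2 : ℤ) - (b.2 : ℤ)) : ℤ × ℤ).2 * r =
      (a.1 : ℤ) + a.2 * r - ((b.1 : ℤ) + b.2 * r) := by
      simp only
      ring
    rw [this]
    exact h2

end

theorem f_thue {K : Type} [Field K] [NumberField K] (F : QF K) (hRes : StRes K) (hPr : StPrS F) :
    StThue F := by
  intro m hm hdm S hS
  obtain ⟨_, hR⟩ := hPr m hm hdm S hS
  have hn : 1 ≤ nS S := by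
    unfold nS
    exact Nat.one_le_iff_ne_zero.2 (Finset.prod_ne_zero_iff.2 fun P hP =>
      (hS.1 P hP).1.ne_zero)
  obtain ⟨x, h0, h1, h2, h3⟩ := f4_pigeon (nS S) (rtS F S) hn
  refine ⟨x, h0, h1, h2, ?_⟩
  intro P hP
  refine f4_mem F P (hRes P (hS.1 P hP).1).1 (rtS F S) (hR P hP) x h0 ?_
  refine dvd_trans ?_ h3
  have : nP P ∣ nS S := Finset.dvd_prod_of_mem nP hP
  exact_mod_cast this

end Pool.Agent.H32.MA
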