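import Pool.Agent.H32.MA.LBilA

/-!
# Project MA9, block L: the bilinear bound (6.6)
-/

set_option autoImplicit false

open scoped BigOperators

namespace Pool.Agent.H32.MA

/-- the square root of a norm bound, as a natural number -/
theorem mem_bx_of_sq {N : ℝ} (hN : 0 ≤ N) {x : ℤ × ℤ} (h : (x.1 : ℝ) ^ 2 ≤ N ∧ (x.2 : ℝ) ^ 2 ≤ N) :
    x ∈ bx ⌊Real.sqrt N⌋₊ := by
  have key : ∀ z : ℤ, (z : ℝ) ^ 2 ≤ N → |z| ≤ ((⌊Real.sqrt N⌋₊ : ℕ) : ℤ) := by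
    intro z hz
    have h1 : |(z : ℝ)| ≤ Real.sqrt N := Real.abs_le_sqrt hz
    have h2 : (z.natAbs : ℝ) ≤ Real.sqrt N := by
      rw [Nat.cast_natAbs, Int.cast_abs]
      exact h1
    have h3 := Nat.le_floor h2
    have h4 : |z| = (z.natAbs : ℤ) := (Int.natCast_natAbs z).symm
    rw [h4]
    exact_mod_cast h3
  rw [mem_bx]
  exact ⟨key _ h.1, key _ h.2⟩

theorem log_le (D : ℝ) (hD : 2 ≤ D) : 1 + Real.log D ≤ D := by
  have := Real.log_le_sub_one_of_pos (by linarith : (0 : ℝ) < D)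
  linarith

/-- large range of `N` -/
theorem bil_big (h1 : LSSt) {d : ℕ} {E N M₀ : ℝ} (hE : 1 ≤ E) (hN : E ^ 6 ≤ N)
    {I : Finset (ℕ × ℕ)} (hI : ∀ i ∈ I, Pr d i ∧ (i.1 : ℝ) ≤ E) (hM : (I.card : ℝ) ≤ M₀ * E)
    (hM0 : 0 ≤ M₀)
    {J : Finset (ℤ × ℤ)} (hJ : ∀ x ∈ J, (x.1 : ℝ) ^ 2 ≤ N ∧ (x.2 : ℝ) ^ 2 ≤ N)
    {a : ℕ × ℕ → ℝ} {b : ℤ × ℤ → ℝ} (ha : ∀ i, |a i| ≤ 1) (hb : ∀ x, |b x| ≤ 1) :
    (∑ i ∈ I, ∑ x ∈ J, a i * b x * KK i x) ^ 2 ≤ 9 * (9 + 6 * M₀) * M₀ * (N ^ 2 * E) := by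
  have hE6 : (1 : ℝ) ≤ E ^ 6 := one_le_pow₀ hE
  have hN1 : 1 ≤ N := hE6.trans hN
  have hN0 : 0 ≤ N := by linarith
  set s := Real.sqrt N with hs
  have hs2 : s ^ 2 = N := Real.sq_sqrt hN0
  have hs0 : 0 ≤ s := Real.sqrt_nonneg _
  have hs3 : E ^ 3 ≤ s := by
    rw [hs]
    apply Real.le_sqrt_of_sq_le
    rw [← pow_mul]
    exact hN
  have hs1 : 1 ≤ s := (one_le_pow₀ hE).trans hs3
  set R := ⌊s⌋₊ with hR
  have hRs : (R : ℝ) ≤ s := Nat.floor_le hs0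
  have hJR : J ⊆ bx R := fun x hx => mem_bx_of_sq hN0 (hJ x hx)
  have hL : (2 * R + 1 : ℝ) ≤ 3 * s := by linarith
  have hL0 : (0 : ℝ) ≤ 2 * R + 1 := by positivity
  have hL2 : (2 * R + 1 : ℝ) ^ 2 ≤ 9 * N := by
    calc (2 * R + 1 : ℝ) ^ 2 ≤ (3 * s) ^ 2 := pow_le_pow_left₀ hL0 hL 2
      _ = 9 * N := by rw [mul_pow, hs2]; norm_num
  have hJc : (J.card : ℝ) ≤ 9 * N := by
    have h2 := Finset.card_le_card hJR
    rw [card_bx] at h2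
    have h3 : (J.card : ℝ) ≤ (2 * R + 1 : ℝ) ^ 2 := by exact_mod_cast h2
    linarith
  have hls := h1 d R ⌊E⌋₊ I (fun i hi => ⟨(hI i hi).1, Nat.le_floor (hI i hi).2⟩) a
  have hE' : ((⌊E⌋₊ : ℕ) : ℝ) ≤ E := Nat.floor_le (by linarith)
  have hE'2 : ((⌊E⌋₊ : ℕ) : ℝ) ^ 2 ≤ E ^ 2 := pow_le_pow_left₀ (by positivity) hE' 2
  have hc0 : (0 : ℝ) ≤ I.card := by positivity
  have hΔ : ((2 * R + 1 : ℝ) ^ 2 + 2 * (2 * R + 1) * ((⌊E⌋₊ : ℕ) : ℝ) ^ 2 * I.card) ≤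
      (9 + 6 * M₀) * N := by
    have h4 : 2 * (2 * R + 1 : ℝ) * ((⌊E⌋₊ : ℕ) : ℝ) ^ 2 * I.card ≤
        2 * (3 * s) * E ^ 2 * (M₀ * E) := by
      apply mul_le_mul _ hM hc0 (by positivity)
      apply mul_le_mul _ hE'2 (by positivity) (by positivity)
      linarith
    have h5 : 2 * (3 * s) * E ^ 2 * (M₀ * E) = 6 * M₀ * (s * E ^ 3) := by ring
    have h6 : s * E ^ 3 ≤ N := by
      rw [← hs2, pow_two]
      exact mul_le_mul_of_nonneg_left hs3 hs0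
    have h7 : 6 * M₀ * (s * E ^ 3) ≤ 6 * M₀ * N := mul_le_mul_of_nonneg_left h6 (by positivity)
    linarith
  have hsa : ∑ i ∈ I, a i ^ 2 ≤ M₀ * E := by
    refine (Finset.sum_le_sum (g := fun _ => (1 : ℝ)) fun i _ => ?_).trans ?_
    · rw [← sq_abs]
      exact pow_le_one₀ (abs_nonneg _) (ha i)
    · rw [Finset.sum_const, nsmul_eq_mul, mul_one]
      exact hM
  have hsb : ∑ x ∈ J, b x ^ 2 ≤ 9 * N := by
    refine (Finset.sum_le_sum (g := fun _ => (1 : ℝ)) fun x _ => ?_).trans ?_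
    · rw [← sq_abs]
      exact pow_le_one₀ (abs_nonneg _) (hb x)
    · rw [Finset.sum_const, nsmul_eq_mul, mul_one]
      exact hJc
  have hsw : ∑ i ∈ I, ∑ x ∈ J, a i * b x * KK i x = ∑ x ∈ J, b x * ∑ i ∈ I, a i * KK i x := by
    rw [Finset.sum_comm]
    refine Finset.sum_congr rfl fun x _ => ?_
    rw [Finset.mul_sum]
    refine Finset.sum_congr rfl fun i _ => ?_
    ring
  rw [hsw]
  have hM0E : 0 ≤ M₀ * E := by positivity
  calc (∑ x ∈ J, b x * ∑ i ∈ I, a i * KK i x) ^ 2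
      ≤ (∑ x ∈ J, b x ^ 2) * ∑ x ∈ J, (∑ i ∈ I, a i * KK i x) ^ 2 :=
        Finset.sum_mul_sq_le_sq_mul_sq _ _ _
    _ ≤ (9 * N) * ((9 + 6 * M₀) * N * (M₀ * E)) := by
        apply mul_le_mul hsb _ (Finset.sum_nonneg fun x _ => sq_nonneg _) (by positivity)
        calc ∑ x ∈ J, (∑ i ∈ I, a i * KK i x) ^ 2 ≤ ∑ x ∈ bx R, (∑ i ∈ I, a i * KK i x) ^ 2 :=
              Finset.sum_le_sum_of_subset_of_nonneg hJR fun x _ _ => sq_nonneg _
          _ ≤ _ := hls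
          _ ≤ (9 + 6 * M₀) * N * (M₀ * E) :=
              mul_le_mul hΔ hsa (Finset.sum_nonneg fun i _ => sq_nonneg _) (by positivity)
    _ = 9 * (9 + 6 * M₀) * M₀ * (N ^ 2 * E) := by ring

/-- small range of `N` -/
theorem bil_small (h2 : LDSt) {d : ℕ} (hd : ¬ IsSquare d) (hd2 : 2 ≤ d) {E N M₀ C₂ : ℝ}
    (hE : 1 ≤ E) (hEN : E ≤ N) (hN : N ≤ E ^ 6)
    (hC₂ : ∀ n : ℕ, 1 ≤ n → (n.divisors.card : ℝ) ≤ C₂ * (n : ℝ) ^ ((1 : ℝ) / 5616))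
    {I : Finset (ℕ × ℕ)} (hI : ∀ i ∈ I, Pr d i ∧ (i.1 : ℝ) ≤ E) (hM : (I.card : ℝ) ≤ M₀ * E)
    (hM0 : 0 ≤ M₀)
    {J : Finset (ℤ × ℤ)} (hJ : ∀ x ∈ J, (x.1 : ℝ) ^ 2 ≤ N ∧ (x.2 : ℝ) ^ 2 ≤ N)
    (hJ0 : (0, 0) ∉ J)
    (hn : ∀ n : ℕ, 1 ≤ n → (J.filter fun x => (nD d x).natAbs = n).card ≤ n.divisors.card)
    {a : ℕ × ℕ → ℝ} {b : ℤ × ℤ → ℝ} (ha : ∀ i, |a i| ≤ 1) (hb : ∀ x, |b x| ≤ 1) :
    |∑ i ∈ I, ∑ x ∈ J, a i * b x * KK i x| ^ 12 ≤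
      (M₀ ^ 11 * (9 + 6 * M₀) * C₂ ^ 12 * 9 ^ 6) * (1 + d : ℝ) ^ 13 *
        (N * E ^ ((12 : ℝ) / 13)) ^ 12 := by
  have hE0 : 0 < E := by linarith
  have hN1 : 1 ≤ N := hE.trans hEN
  have hN0 : 0 ≤ N := by linarith
  have hD : (2 : ℝ) ≤ d := by exact_mod_cast hd2
  have hC20 : 1 ≤ C₂ := by
    have := hC₂ 1 le_rfl
    simpa using this
  set s := Real.sqrt N with hs
  have hs2 : s ^ 2 = N := Real.sq_sqrt hN0
  have hs0 : 0 ≤ s := Real.sqrt_nonneg _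
  have hs1 : 1 ≤ s := Real.one_le_sqrt.2 hN1
  set R := ⌊s⌋₊ with hR
  have hRs : (R : ℝ) ≤ s := Nat.floor_le hs0
  have hJR : J ⊆ bx R := fun x hx => mem_bx_of_sq hN0 (hJ x hx)
  have hJc : (J.card : ℝ) ≤ 9 * N := by
    have h3 := Finset.card_le_card hJR
    rw [card_bx] at h3
    have h4 : (J.card : ℝ) ≤ (2 * R + 1 : ℝ) ^ 2 := by exact_mod_cast h3
    calc (J.card : ℝ) ≤ (2 * R + 1 : ℝ) ^ 2 := h4
      _ ≤ (3 * s) ^ 2 := pow_le_pow_left₀ (by positivity) (by linarith) 2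
      _ = 9 * N := by rw [mul_pow, hs2]; norm_num
  -- the linear forms
  set T : ℕ × ℕ → ℝ := fun i => ∑ x ∈ J, b x * KK i x with hT
  have hS : |∑ i ∈ I, ∑ x ∈ J, a i * b x * KK i x| ≤ ∑ i ∈ I, |T i| := by
    refine (Finset.abs_sum_le_sum_abs _ _).trans (Finset.sum_le_sum fun i _ => ?_)
    have h3 : ∑ x ∈ J, a i * b x * KK i x = a i * T i := by
      rw [hT]
      simp only [Finset.mul_sum]
      refine Finset.sum_congr rfl fun x _ => ?_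
      ring
    rw [h3, abs_mul]
    exact mul_le_of_le_one_left (abs_nonneg _) (ha i)
  have hpow : (∑ i ∈ I, |T i|) ^ 12 ≤ (I.card : ℝ) ^ 11 * ∑ i ∈ I, |T i| ^ 12 :=
    pow_sum_le_card_mul_sum_pow (fun i _ => abs_nonneg _) 11
  -- the sixth powers
  set Q : ℕ := ((1 + d) * R) ^ 6 with hQ
  set B : ℤ × ℤ → ℝ := cf d J b R 6 with hB
  have hT6 : ∀ i ∈ I, |T i| ^ 12 = (∑ y ∈ bx Q, B y * KK i y) ^ 2 := by
    intro i hi
    have h3 := cf_pow (b := b) (by omega : 1 ≤ d) (hI i hi).1 hJR 6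
    rw [← h3, ← pow_mul]
    exact (by decide : Even 12).pow_abs _
  rw [Finset.sum_congr rfl hT6] at hpow
  have hld := h2 d Q ⌊E⌋₊ I (fun i hi => ⟨(hI i hi).1, Nat.le_floor (hI i hi).2⟩) B
  -- the size of the box
  set W : ℝ := (1 + d : ℝ) ^ 6 * N ^ 3 with hW
  have hW1 : 1 ≤ W := by
    rw [hW]
    exact one_le_mul_of_one_le_of_one_le (one_le_pow₀ (by linarith)) (one_le_pow₀ hN1)
  have hQW : (Q : ℝ) ≤ W := by
    rw [hQ, hW]
    push_cast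
    rw [mul_pow]
    apply mul_le_mul_of_nonneg_left _ (by positivity)
    calc (R : ℝ) ^ 6 ≤ s ^ 6 := pow_le_pow_left₀ (by positivity) hRs 6
      _ = N ^ 3 := by rw [← hs2]; ring
  have hE' : ((⌊E⌋₊ : ℕ) : ℝ) ≤ E := Nat.floor_le (by linarith)
  have hE'2 : ((⌊E⌋₊ : ℕ) : ℝ) ^ 2 ≤ E ^ 2 := pow_le_pow_left₀ (by positivity) hE' 2
  have hc0 : (0 : ℝ) ≤ I.card := by positivity
  have hE3W : E ^ 3 ≤ W := by
    calc E ^ 3 ≤ N ^ 3 := pow_le_pow_left₀ hE0.le hEN 3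
      _ ≤ W := by
        rw [hW]
        exact le_mul_of_one_le_left (by positivity) (one_le_pow₀ (by linarith))
  have hΔ : ((2 * Q + 1 : ℝ) ^ 2 + 2 * (2 * Q + 1) * ((⌊E⌋₊ : ℕ) : ℝ) ^ 2 * I.card) ≤
      (9 + 6 * M₀) * W ^ 2 := by
    have h3 : (2 * Q + 1 : ℝ) ≤ 3 * W := by linarith
    have h3' : (0 : ℝ) ≤ 2 * Q + 1 := by positivity
    have h4 : 2 * (2 * Q + 1 : ℝ) * ((⌊E⌋₊ : ℕ) : ℝ) ^ 2 * I.card ≤
        2 * (3 * W) * E ^ 2 * (M₀ * E) := by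
      apply mul_le_mul _ hM hc0 (by positivity)
      apply mul_le_mul _ hE'2 (by positivity) (by positivity)
      linarith
    have h5 : 2 * (3 * W) * E ^ 2 * (M₀ * E) = 6 * M₀ * (W * E ^ 3) := by ring
    have h6 : W * E ^ 3 ≤ W ^ 2 := by
      rw [pow_two]
      exact mul_le_mul_of_nonneg_left hE3W (by linarith)
    have h7 : 6 * M₀ * (W * E ^ 3) ≤ 6 * M₀ * W ^ 2 := mul_le_mul_of_nonneg_left h6 (by positivity)
    have h8 : (2 * Q + 1 : ℝ) ^ 2 ≤ 9 * W ^ 2 := by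
      calc (2 * Q + 1 : ℝ) ^ 2 ≤ (3 * W) ^ 2 := pow_le_pow_left₀ h3' h3 2
        _ = 9 * W ^ 2 := by ring
    linarith
  -- the multiplicities
  set μ : ℝ := C₂ ^ 12 * ((1 + d : ℝ) * E ^ ((1 : ℝ) / 13)) with hμ
  have hμ0 : 0 ≤ μ := by positivity
  have hBle : ∀ y ∈ bx Q, |B y| ≤ μ := by
    intro y hy
    have h3 := abs_cf_le (R := R) hd hb hJ0 hn 6 y
    by_cases hy0 : y = (0, 0)
    · rw [hB, h3.1 hy0, abs_zero]
      exact hμ0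
    · refine (h3.2 hy0).trans ?_
      have hny := nD_ne_zero hd hy0
      have h4 : 1 ≤ (nD d y).natAbs := Nat.one_le_iff_ne_zero.2 (Int.natAbs_ne_zero.2 hny)
      have h5 := hC₂ _ h4
      have h6 : ((nD d y).natAbs : ℝ) ≤ (1 + d) * W ^ 2 := by
        rw [Nat.cast_natAbs, Int.cast_abs]
        unfold nD
        push_cast
        rw [mem_bx] at hy
        have h7 : (y.1 : ℝ) ^ 2 ≤ W ^ 2 := by
          rw [← sq_abs]
          have : |(y.1 : ℝ)| ≤ Q := by exact_mod_cast hy.1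
          exact pow_le_pow_left₀ (abs_nonneg _) (this.trans hQW) 2
        have h8 : (y.2 : ℝ) ^ 2 ≤ W ^ 2 := by
          rw [← sq_abs]
          have : |(y.2 : ℝ)| ≤ Q := by exact_mod_cast hy.2
          exact pow_le_pow_left₀ (abs_nonneg _) (this.trans hQW) 2
        have h9 : 0 ≤ (y.1 : ℝ) ^ 2 := sq_nonneg _
        have h10 : 0 ≤ (y.2 : ℝ) ^ 2 := sq_nonneg _
        have h11 : (d : ℝ) * (y.2 : ℝ) ^ 2 ≤ d * W ^ 2 := mul_le_mul_of_nonneg_left h8 (by linarith)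
        have h12 : 0 ≤ (d : ℝ) * (y.2 : ℝ) ^ 2 := mul_nonneg (by linarith) h10
        have h13 : 0 ≤ W ^ 2 := sq_nonneg _
        have h14 : 0 ≤ (d : ℝ) * W ^ 2 := mul_nonneg (by linarith) h13
        rw [abs_le]
        constructor <;> nlinarith
      have h7 : (1 + d : ℝ) * W ^ 2 = (1 + d) ^ 13 * N ^ 6 := by
        rw [hW]
        ring
      rw [h7] at h6
      -- the exponent
      have h8 : ((nD d y).natAbs : ℝ) ^ ((1 : ℝ) / 5616) ≤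
          ((1 + d : ℝ) ^ 13 * N ^ 6) ^ ((1 : ℝ) / 5616) :=
        Real.rpow_le_rpow (by positivity) h6 (by norm_num)
      have h9 : tD d y ≤ C₂ * ((1 + d : ℝ) ^ 13 * N ^ 6) ^ ((1 : ℝ) / 5616) :=
        h5.trans (mul_le_mul_of_nonneg_left h8 (by linarith))
      refine (pow_le_pow_left₀ (tD_nonneg y) h9 (2 * 6)).trans ?_
      rw [mul_pow, hμ]
      apply mul_le_mul_of_nonneg_left _ (by positivity)
      rw [← Real.rpow_mul_natCast (by positivity), Real.mul_rpow (by positivity) (by positivity)]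
      have h10 : ((1 + d : ℝ) ^ 13) ^ ((1 : ℝ) / 5616 * ((2 * 6 : ℕ) : ℝ)) ≤ 1 + d := by
        rw [← Real.rpow_natCast, ← Real.rpow_mul (by positivity)]
        calc (1 + d : ℝ) ^ (((13 : ℕ) : ℝ) * ((1 : ℝ) / 5616 * ((2 * 6 : ℕ) : ℝ)))
            ≤ (1 + d : ℝ) ^ (1 : ℝ) :=
              Real.rpow_le_rpow_of_exponent_le (by linarith) (by norm_num)
          _ = 1 + d := Real.rpow_one _
      have h11 : (N ^ 6) ^ ((1 : ℝ) / 5616 * ((2 * 6 : ℕ) : ℝ)) ≤ E ^ ((1 : ℝ) / 13) := by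
        calc (N ^ 6) ^ ((1 : ℝ) / 5616 * ((2 * 6 : ℕ) : ℝ))
            ≤ ((E ^ 6) ^ 6) ^ ((1 : ℝ) / 5616 * ((2 * 6 : ℕ) : ℝ)) :=
              Real.rpow_le_rpow (by positivity) (pow_le_pow_left₀ hN0 hN 6) (by norm_num)
          _ = E ^ ((1 : ℝ) / 13) := by
              rw [← pow_mul, ← Real.rpow_natCast, ← Real.rpow_mul hE0.le]
              norm_num
      exact mul_le_mul h10 h11 (by positivity) (by positivity)
  have hBB : ∑ y ∈ bx Q, B y ^ 2 ≤ μ * (9 * N) ^ 6 := by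
    calc ∑ y ∈ bx Q, B y ^ 2 ≤ ∑ y ∈ bx Q, μ * |B y| := by
          refine Finset.sum_le_sum fun y hy => ?_
          rw [← sq_abs, pow_two]
          exact mul_le_mul_of_nonneg_right (hBle y hy) (abs_nonneg _)
      _ = μ * ∑ y ∈ bx Q, |B y| := by rw [Finset.mul_sum]
      _ ≤ μ * (J.card : ℝ) ^ 6 := mul_le_mul_of_nonneg_left (sum_abs_cf hb 6) hμ0
      _ ≤ μ * (9 * N) ^ 6 :=
          mul_le_mul_of_nonneg_left (pow_le_pow_left₀ (by positivity) hJc 6) hμ0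
  calc |∑ i ∈ I, ∑ x ∈ J, a i * b x * KK i x| ^ 12 ≤ (∑ i ∈ I, |T i|) ^ 12 :=
        pow_le_pow_left₀ (abs_nonneg _) hS 12
    _ ≤ (I.card : ℝ) ^ 11 * ∑ i ∈ I, (∑ y ∈ bx Q, B y * KK i y) ^ 2 := hpow
    _ ≤ (M₀ * E) ^ 11 * ((9 + 6 * M₀) * W ^ 2 * (μ * (9 * N) ^ 6)) := by
        apply mul_le_mul (pow_le_pow_left₀ hc0 hM 11) _
          (Finset.sum_nonneg fun i _ => sq_nonneg _) (by positivity)
        exact hld.trans (mul_le_mul hΔ hBB (Finset.sum_nonneg fun y _ => sq_nonneg _)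
          (by positivity))
    _ = (M₀ ^ 11 * (9 + 6 * M₀) * C₂ ^ 12 * 9 ^ 6) * (1 + d : ℝ) ^ 13 * N ^ 12 *
        (E ^ 11 * E ^ ((1 : ℝ) / 13)) := by
        rw [hμ, hW]
        ring
    _ = _ := by
        have h3 : E ^ 11 * E ^ ((1 : ℝ) / 13) = (E ^ ((12 : ℝ) / 13)) ^ 12 := by
          rw [← Real.rpow_natCast E 11, ← Real.rpow_add hE0, ← Real.rpow_mul_natCast hE0.le]
          norm_num
        rw [h3]
        ring

theorem bil_of (h1 : LSSt) (h2 : LDSt) (h3 : CntSt) : BilSt := by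
  obtain ⟨C₁, hC₁, hcnt⟩ := h3
  obtain ⟨C₂, hC₂, hdiv⟩ := Pool.Agent.LX.divisor_bound (1 / 5616) (by norm_num)
  set A : ℝ := (1 + 9 * (9 + 6 * C₁) * C₁) + (1 + C₁ ^ 11 * (9 + 6 * C₁) * C₂ ^ 12 * 9 ^ 6) with hA
  have hA1 : 1 ≤ A := by
    rw [hA]
    have h4 : 0 ≤ 9 * (9 + 6 * C₁) * C₁ := by positivity
    have h5 : 0 ≤ C₁ ^ 11 * (9 + 6 * C₁) * C₂ ^ 12 * 9 ^ 6 := by positivity
    linarith
  refine ⟨A * 8, 3, by positivity, by norm_num, ?_⟩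
  intro d hd E N hE hEN I hI J hJ hJ0 hn a b ha hb
  have hd2 : 2 ≤ d := by
    by_contra h
    apply hd
    have : d = 0 ∨ d = 1 := by omega
    rcases this with rfl | rfl
    · exact ⟨0, rfl⟩
    · exact ⟨1, rfl⟩
  have hD : (2 : ℝ) ≤ d := by exact_mod_cast hd2
  have hN1 : 1 ≤ N := hE.trans hEN
  have hE0 : 0 < E := by linarith
  have hM : (I.card : ℝ) ≤ (C₁ * d) * E := by
    refine (hcnt d hd I E hE hI).trans ?_
    apply mul_le_mul_of_nonneg_right _ hE0.le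
    exact mul_le_mul_of_nonneg_left (log_le d hD) hC₁.le
  have hM0 : 0 ≤ C₁ * d := by positivity
  have h3d : (d : ℝ) ^ (3 : ℝ) = (d : ℝ) ^ 3 := by
    rw [← Real.rpow_natCast]
    norm_num
  rw [h3d]
  have hP : 0 ≤ N * E ^ ((12 : ℝ) / 13) := by positivity
  rcases le_total (E ^ 6) N with hc | hc
  · have h4 := bil_big h1 hE hc hI hM hM0 hJ ha hb
    have h5 : (∑ i ∈ I, ∑ x ∈ J, a i * b x * KK i x) ^ 2 ≤
        (A * 8 * d ^ 3 * N * E ^ ((12 : ℝ) / 13)) ^ 2 := by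
      refine h4.trans ?_
      have h6 : E ≤ (E ^ ((12 : ℝ) / 13)) ^ 2 := by
        rw [← Real.rpow_mul_natCast hE0.le]
        calc E = E ^ (1 : ℝ) := (Real.rpow_one E).symm
          _ ≤ _ := Real.rpow_le_rpow_of_exponent_le hE (by norm_num)
      have h7 : 9 * (9 + 6 * (C₁ * d)) * (C₁ * d) ≤ (A * 8 * d ^ 3) ^ 2 := by
        have h8 : 9 * (9 + 6 * (C₁ * d)) * (C₁ * d) ≤ (9 * (9 + 6 * C₁) * C₁) * (d * d) := by
          have : 0 ≤ C₁ * (d * (d - 1)) := by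
            apply mul_nonneg hC₁.le (mul_nonneg (by linarith) (by linarith))
          nlinarith
        have h9 : 9 * (9 + 6 * C₁) * C₁ ≤ A := by
          rw [hA]
          have h5 : 0 ≤ C₁ ^ 11 * (9 + 6 * C₁) * C₂ ^ 12 * 9 ^ 6 := by positivity
          linarith
        have h10 : A ≤ A ^ 2 := by nlinarith
        have h11 : (d : ℝ) * d ≤ d ^ 6 := by
          have h12 : (1 : ℝ) ≤ d ^ 4 := one_le_pow₀ (by linarith)
          have h13 : (d : ℝ) ^ 6 = d * d * d ^ 4 := by ring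
          rw [h13]
          exact le_mul_of_one_le_right (by positivity) h12
        calc 9 * (9 + 6 * (C₁ * d)) * (C₁ * d) ≤ (9 * (9 + 6 * C₁) * C₁) * (d * d) := h8
          _ ≤ A ^ 2 * d ^ 6 :=
              mul_le_mul (h9.trans h10) h11 (by positivity) (by positivity)
          _ ≤ 64 * (A ^ 2 * d ^ 6) := by
              have : 0 ≤ A ^ 2 * (d : ℝ) ^ 6 := by positivity
              linarith
          _ = (A * 8 * d ^ 3) ^ 2 := by ring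
      calc 9 * (9 + 6 * (C₁ * d)) * (C₁ * d) * (N ^ 2 * E)
          ≤ (A * 8 * d ^ 3) ^ 2 * (N ^ 2 * (E ^ ((12 : ℝ) / 13)) ^ 2) :=
            mul_le_mul h7 (mul_le_mul_of_nonneg_left h6 (by positivity)) (by positivity)
              (by positivity)
        _ = (A * 8 * d ^ 3 * N * E ^ ((12 : ℝ) / 13)) ^ 2 := by ring
    exact abs_le_of_sq_le_sq h5 (by positivity)
  · have h4 := bil_small h2 hd hd2 hE hEN hc hdiv hI hM hM0 hJ hJ0 hn ha hb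
    have h5 : |∑ i ∈ I, ∑ x ∈ J, a i * b x * KK i x| ^ 12 ≤
        (A * 8 * d ^ 3 * N * E ^ ((12 : ℝ) / 13)) ^ 12 := by
      refine h4.trans ?_
      have h6 : (C₁ * d) ^ 11 * (9 + 6 * (C₁ * d)) * C₂ ^ 12 * 9 ^ 6 * (1 + d : ℝ) ^ 13 ≤
          (A * 8 * d ^ 3) ^ 12 := by
        have h7 : (9 + 6 * (C₁ * d)) ≤ (9 + 6 * C₁) * d := by nlinarith
        have h8 : (1 + d : ℝ) ≤ 2 * d := by linarith
        have h9 : C₁ ^ 11 * (9 + 6 * C₁) * C₂ ^ 12 * 9 ^ 6 ≤ A := by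
          rw [hA]
          have h4 : 0 ≤ 9 * (9 + 6 * C₁) * C₁ := by positivity
          linarith
        have h10 : A ≤ A ^ 12 := le_self_pow₀ hA1 (by norm_num)
        calc (C₁ * d) ^ 11 * (9 + 6 * (C₁ * d)) * C₂ ^ 12 * 9 ^ 6 * (1 + d : ℝ) ^ 13
            ≤ (C₁ * d) ^ 11 * ((9 + 6 * C₁) * d) * C₂ ^ 12 * 9 ^ 6 * (2 * d) ^ 13 := by
              gcongr
          _ = (C₁ ^ 11 * (9 + 6 * C₁) * C₂ ^ 12 * 9 ^ 6) * (2 ^ 13 * d ^ 25) := by ring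
          _ ≤ A ^ 12 * (8 ^ 12 * d ^ 36) := by
              apply mul_le_mul (h9.trans h10) _ (by positivity) (by positivity)
              have h11 : (d : ℝ) ^ 25 ≤ d ^ 36 :=
                pow_le_pow_right₀ (by linarith) (by norm_num)
              have h12 : (2 : ℝ) ^ 13 ≤ 8 ^ 12 := by norm_num
              exact mul_le_mul h12 h11 (by positivity) (by positivity)
          _ = (A * 8 * d ^ 3) ^ 12 := by ring
      calc (C₁ * d) ^ 11 * (9 + 6 * (C₁ * d)) * C₂ ^ 12 * 9 ^ 6 * (1 + d : ℝ) ^ 13 *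
            (N * E ^ ((12 : ℝ) / 13)) ^ 12
          ≤ (A * 8 * d ^ 3) ^ 12 * (N * E ^ ((12 : ℝ) / 13)) ^ 12 :=
            mul_le_mul_of_nonneg_right h6 (by positivity)
        _ = (A * 8 * d ^ 3 * N * E ^ ((12 : ℝ) / 13)) ^ 12 := by ring
    exact (pow_le_pow_iff_left₀ (abs_nonneg _) (by positivity) (by norm_num)).1 h5

end Pool.Agent.H32.MA
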