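import Pool.Agent.H32.MA.LDefs
import Pool.Agent.LX.ChiChar

/-!
# Project MA9, row L4: the number of pairs
-/

set_option autoImplicit false

open scoped BigOperators Pointwise

namespace Pool.Agent.H32.MA

/-- the character -/
def lch (d k : ℕ) : ℤ := if Odd k then jacobiSym d k else 0

theorem lch_tri (d k : ℕ) : lch d k = 0 ∨ lch d k = 1 ∨ lch d k = -1 := by
  unfold lch
  split_ifs
  · exact jacobiSym.trichotomy _ _
  · left; rfl

theorem lch_abs (d k : ℕ) : |lch d k| ≤ 1 := by
  rcases lch_tri d k with h | h | h <;> rw [h] <;> simp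

theorem lch_mul (d a b : ℕ) : lch d (a * b) = lch d a * lch d b := by
  unfold lch
  by_cases ha : Odd a
  · by_cases hb : Odd b
    · have hab : Odd (a * b) := ha.mul hb
      have ha0 : a ≠ 0 := by rintro rfl; exact absurd ha (by decide)
      have hb0 : b ≠ 0 := by rintro rfl; exact absurd hb (by decide)
      have : NeZero a := ⟨ha0⟩
      have : NeZero b := ⟨hb0⟩
      rw [if_pos ha, if_pos hb, if_pos hab, jacobiSym.mul_right]
    · have hab : ¬ Odd (a * b) := fun h => hb (Nat.odd_mul.1 h).2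
      rw [if_neg hb, if_neg hab, mul_zero]
  · have hab : ¬ Odd (a * b) := fun h => ha (Nat.odd_mul.1 h).1
    rw [if_neg ha, if_neg hab, zero_mul]

theorem lch_one (d : ℕ) : lch d 1 = 1 := by
  unfold lch
  rw [if_pos (by decide), jacobiSym.one_right]

theorem lch_pow (d p n : ℕ) : lch d (p ^ n) = lch d p ^ n := by
  induction n with
  | zero => rw [pow_zero, pow_zero, lch_one]
  | succ n ih => rw [pow_succ, lch_mul, ih, pow_succ]

theorem lch_per (d k : ℕ) : lch d (4 * d + k) = lch d k := by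
  unfold lch
  by_cases hk : Odd k
  · have h2 : Odd (4 * d + k) := by
      rw [Nat.odd_iff] at hk ⊢
      omega
    rw [if_pos hk, if_pos h2, jacobiSym.mod_right' d h2, jacobiSym.mod_right' d hk,
      Nat.add_mod_left]
  · have h2 : ¬ Odd (4 * d + k) := by
      rw [Nat.odd_iff] at hk ⊢
      omega
    rw [if_neg hk, if_neg h2]

/-- a periodic sequence, bounded by one, with zero sum over a period -/
private theorem lc_per (f : ℕ → ℤ) (N : ℕ) (hN : 0 < N) (hp : ∀ n, f (N + n) = f n)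
    (h0 : ∑ n ∈ Finset.range N, f n = 0) (hb : ∀ n, |f n| ≤ 1) (M : ℕ) :
    |∑ n ∈ Finset.range M, f n| ≤ N := by
  have h1 : ∀ q r : ℕ, ∑ n ∈ Finset.range (N * q + r), f n = ∑ n ∈ Finset.range r, f n := by
    intro q r
    induction q with
    | zero => simp
    | succ q ih =>
      have : N * (q + 1) + r = N + (N * q + r) := by ring
      rw [this, Finset.sum_range_add, h0, zero_add, ← ih]
      exact Finset.sum_congr rfl fun n _ => hp n
  have h2 : M = N * (M / N) + M % N := (Nat.div_add_mod M N).symm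
  rw [h2, h1]
  calc |∑ n ∈ Finset.range (M % N), f n| ≤ ∑ n ∈ Finset.range (M % N), |f n| :=
        Finset.abs_sum_le_sum_abs _ _
    _ ≤ ∑ _n ∈ Finset.range (M % N), (1 : ℤ) := Finset.sum_le_sum fun n _ => hb n
    _ = ((M % N : ℕ) : ℤ) := by simp
    _ ≤ N := by exact_mod_cast (Nat.mod_lt M hN).le

/-- zero sum over a period from a unit with value minus one -/
private theorem lc_zero (f : ℕ → ℤ) (N u : ℕ) (hN : 1 < N) (hp : ∀ n, f (N + n) = f n)
    (hu : Nat.Coprime u N) (hf : ∀ n, f (u * n) = - f n) :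
    ∑ n ∈ Finset.range N, f n = 0 := by
  have hm : ∀ n, f (n % N) = f n := by
    intro n
    have : Function.Periodic f N := fun n => by rw [add_comm, hp]
    exact this.map_mod_nat n
  obtain ⟨v, -, hv⟩ := Nat.exists_mul_mod_eq_one_of_coprime hu hN
  have hN0 : 0 < N := by omega
  have key : ∀ n, n < N → (v * (u * n % N)) % N = n := by
    intro n hn
    have : (v * (u * n % N)) ≡ n [MOD N] := by
      calc (v * (u * n % N)) ≡ v * (u * n) [MOD N] := (Nat.mod_modEq _ _).mul_left _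
        _ = (u * v) * n := by ring
        _ ≡ 1 * n [MOD N] := by
          apply Nat.ModEq.mul_right
          show (u * v) % N = 1 % N
          rw [hv, Nat.mod_eq_of_lt hN]
        _ = n := one_mul n
    have h := this
    unfold Nat.ModEq at h
    rw [h, Nat.mod_eq_of_lt hn]
  have key2 : ∀ n, n < N → (u * (v * n % N)) % N = n := by
    intro n hn
    have : (u * (v * n % N)) ≡ n [MOD N] := by
      calc (u * (v * n % N)) ≡ u * (v * n) [MOD N] := (Nat.mod_modEq _ _).mul_left _
        _ = (u * v) * n := by ring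
        _ ≡ 1 * n [MOD N] := by
          apply Nat.ModEq.mul_right
          show (u * v) % N = 1 % N
          rw [hv, Nat.mod_eq_of_lt hN]
        _ = n := one_mul n
    have h := this
    unfold Nat.ModEq at h
    rw [h, Nat.mod_eq_of_lt hn]
  have h1 : ∑ n ∈ Finset.range N, f (u * n) = ∑ n ∈ Finset.range N, f n := by
    apply Finset.sum_nbij' (fun n => u * n % N) (fun n => v * n % N)
    · intro n _; exact Finset.mem_range.2 (Nat.mod_lt _ hN0)
    · intro n _; exact Finset.mem_range.2 (Nat.mod_lt _ hN0)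
    · intro n hn; exact key n (Finset.mem_range.1 hn)
    · intro n hn; exact key2 n (Finset.mem_range.1 hn)
    · intro n _; exact (hm (u * n)).symm
  rw [Finset.sum_congr rfl (fun n _ => hf n), Finset.sum_neg_distrib] at h1
  omega

/-- partial sums of the character -/
theorem lch_sum (d : ℕ) (hd : ¬ IsSquare d) (M : ℕ) :
    |∑ n ∈ Finset.range M, lch d n| ≤ 4 * d := by
  have hd0 : d ≠ 0 := by
    rintro rfl
    exact hd ⟨0, rfl⟩
  have hd1 : 1 ≤ d := Nat.one_le_iff_ne_zero.2 hd0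
  obtain ⟨u, hu, hJ⟩ := Pool.Agent.LX.cc_neg d hd1 hd
  have hl : lch d u = -1 := by
    unfold lch
    rw [if_pos hu]
    exact hJ
  have hu0 : u ≠ 0 := by rintro rfl; exact absurd hu (by decide)
  have : NeZero u := ⟨hu0⟩
  have hc : Nat.Coprime u d := by
    by_contra hc
    have h1 : jacobiSym (d : ℤ) u = 0 := by
      rw [jacobiSym.eq_zero_iff_not_coprime, Int.gcd_natCast_natCast]
      intro h
      exact hc (Nat.Coprime.symm h)
    rw [hJ] at h1
    norm_num at h1
  have hc4 : Nat.Coprime u (4 * d) := by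
    apply Nat.Coprime.mul_right _ hc
    have : Nat.Coprime u 2 := Nat.coprime_two_right.2 hu
    exact Nat.Coprime.pow_right 2 this
  have h0 : ∑ n ∈ Finset.range (4 * d), lch d n = 0 := by
    apply lc_zero (lch d) (4 * d) u (by omega) (lch_per d) hc4
    intro n
    rw [lch_mul, hl]
    ring
  have := lc_per (lch d) (4 * d) (by omega) (lch_per d) h0 (lch_abs d) M
  push_cast at this
  exact this

/-- summation by parts -/
theorem lc_abel (f a : ℕ → ℝ) (B : ℝ) (hB : ∀ m, |∑ n ∈ Finset.range m, f n| ≤ B) (p : ℕ)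
    (h0 : ∀ n, p ≤ n → 0 ≤ a n) (ha : ∀ n, p ≤ n → a (n + 1) ≤ a n) (q : ℕ) (hq : p ≤ q) :
    |∑ n ∈ Finset.Ico p q, a n * f n| ≤ 2 * B * a p := by
  have h1 : ∀ q, p ≤ q → ∃ E : ℝ, |E| ≤ B * (a p - a q) ∧
      ∑ n ∈ Finset.Ico p q, a n * f n =
        a q * (∑ n ∈ Finset.range q, f n) - a p * (∑ n ∈ Finset.range p, f n) + E := by
    intro q hq
    induction q, hq using Nat.le_induction with
    | base => exact ⟨0, by simp, by simp⟩
    | succ q hq ih =>
      obtain ⟨E, hE, he⟩ := ih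
      refine ⟨E + (a q - a (q + 1)) * (∑ n ∈ Finset.range (q + 1), f n), ?_, ?_⟩
      · refine (abs_add_le _ _).trans ?_
        rw [abs_mul, abs_of_nonneg (sub_nonneg.2 (ha q hq))]
        have h2 := mul_le_mul_of_nonneg_left (hB (q + 1)) (sub_nonneg.2 (ha q hq))
        linarith
      · rw [Finset.sum_Ico_succ_top hq, he, Finset.sum_range_succ]
        ring
  obtain ⟨E, hE, he⟩ := h1 q hq
  rw [he]
  have hB1 := hB q
  have hB2 := hB p
  have h3 : |a q * (∑ n ∈ Finset.range q, f n)| ≤ a q * B := by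
    rw [abs_mul, abs_of_nonneg (h0 q hq)]
    exact mul_le_mul_of_nonneg_left hB1 (h0 q hq)
  have h4 : |a p * (∑ n ∈ Finset.range p, f n)| ≤ a p * B := by
    rw [abs_mul, abs_of_nonneg (h0 p le_rfl)]
    exact mul_le_mul_of_nonneg_left hB2 (h0 p le_rfl)
  have h5 : |a q * (∑ n ∈ Finset.range q, f n) - a p * (∑ n ∈ Finset.range p, f n) + E| ≤
      |a q * (∑ n ∈ Finset.range q, f n)| + |a p * (∑ n ∈ Finset.range p, f n)| + |E| :=
    (abs_add_le _ _).trans (add_le_add (abs_sub _ _) le_rfl)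
  linarith

/-- the sum over divisors -/
noncomputable def lcS (d k : ℕ) : ℤ := ∑ g ∈ k.divisors, lch d g

theorem lcS_mul (d : ℕ) {m n : ℕ} (h : Nat.Coprime m n) : lcS d (m * n) = lcS d m * lcS d n := by
  unfold lcS
  rw [Nat.divisors_mul, Finset.mul_def, Finset.sum_image h.mul_injOn_divisors,
    Finset.sum_product, Finset.sum_mul_sum]
  refine Finset.sum_congr rfl fun a _ => Finset.sum_congr rfl fun b _ => ?_
  exact lch_mul d a b

theorem lcS_pow (d : ℕ) {p : ℕ} (hp : p.Prime) (n : ℕ) :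
    lcS d (p ^ n) = ∑ i ∈ Finset.range (n + 1), lch d p ^ i := by
  unfold lcS
  rw [Nat.sum_divisors_prime_pow hp]
  exact Finset.sum_congr rfl fun i _ => lch_pow d p i

theorem lcS_nonneg (d k : ℕ) : 0 ≤ lcS d k := by
  induction k using Nat.recOnPosPrimePosCoprime with
  | zero => simp [lcS]
  | one => simp [lcS, lch_one]
  | prime_pow p n hp hn =>
    rw [lcS_pow d hp]
    rcases lch_tri d p with h | h | h
    · rw [h]
      exact Finset.sum_nonneg fun i _ => by positivity
    · rw [h]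
      exact Finset.sum_nonneg fun i _ => by positivity
    · rw [h, neg_one_geom_sum]
      split_ifs <;> norm_num
  | coprime a b ha hb hab iha ihb =>
    rw [lcS_mul d hab]
    exact mul_nonneg iha ihb

/-- the roots modulo `e` -/
def lcR (d e : ℕ) : Finset ℕ := (Finset.range e).filter fun r => (e : ℤ) ∣ (r : ℤ) ^ 2 - d

theorem lcR_mul (d : ℕ) {a b : ℕ} (ha : 1 < a) (hb : 1 < b) (h : Nat.Coprime a b) :
    (lcR d (a * b)).card ≤ (lcR d a).card * (lcR d b).card := by
  rw [← Finset.card_product]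
  apply Finset.card_le_card_of_injOn (fun r => (r % a, r % b))
  · intro r hr
    obtain ⟨h1, h2⟩ := Finset.mem_filter.1 hr
    have key : ∀ c : ℕ, 1 < c → c ∣ a * b → r % c ∈ lcR d c := by
      intro c hc hcab
      refine Finset.mem_filter.2 ⟨Finset.mem_range.2 (Nat.mod_lt _ (by omega)), ?_⟩
      have h3 : (c : ℤ) ∣ (r : ℤ) ^ 2 - d := by
        refine dvd_trans ?_ h2
        exact_mod_cast hcab
      have h4 : (c : ℤ) ∣ (((r % c : ℕ) : ℤ)) - r := by
        push_cast
        exact (Int.modEq_iff_dvd.1 (Int.mod_modEq (r : ℤ) (c : ℤ)).symm)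
      have h5 : (((r % c : ℕ) : ℤ)) ^ 2 - d =
          ((((r % c : ℕ) : ℤ)) - r) * ((((r % c : ℕ) : ℤ)) + r) + ((r : ℤ) ^ 2 - d) := by ring
      rw [h5]
      exact dvd_add (h4.mul_right _) h3
    exact Finset.mem_coe.2 (Finset.mem_product.2 ⟨key a ha (dvd_mul_right a b), key b hb (dvd_mul_left b a)⟩)
  · intro r hr s hs hrs
    have h1 := Finset.mem_range.1 (Finset.mem_filter.1 (Finset.mem_coe.1 hr)).1
    have h2 := Finset.mem_range.1 (Finset.mem_filter.1 (Finset.mem_coe.1 hs)).1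
    have h3 : r ≡ s [MOD a] := congrArg Prod.fst hrs
    have h4 : r ≡ s [MOD b] := congrArg Prod.snd hrs
    have h5 : r ≡ s [MOD a * b] := (Nat.modEq_and_modEq_iff_modEq_mul h).1 ⟨h3, h4⟩
    exact Nat.ModEq.eq_of_lt_of_lt h5 h1 h2

theorem lcR_prime (d : ℕ) {p : ℕ} (hp : p.Prime) (ho : Odd p) (hc : Nat.Coprime p d) :
    ((lcR d p).card : ℤ) ≤ 1 + lch d p := by
  have : Fact p.Prime := ⟨hp⟩
  have hl : lch d p = legendreSym p d := by
    unfold lch
    rw [if_pos ho, jacobiSym.legendreSym.to_jacobiSym]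
  have hd0 : ((d : ℤ) : ZMod p) ≠ 0 := by
    rw [Ne, ZMod.intCast_zmod_eq_zero_iff_dvd]
    intro h
    have h1 : p ∣ d := by exact_mod_cast h
    exact (Nat.Prime.coprime_iff_not_dvd hp).1 hc h1
  have hroot : ∀ r ∈ lcR d p, ((r : ℕ) : ZMod p) ^ 2 = d := by
    intro r hr
    have h1 := (Finset.mem_filter.1 hr).2
    rw [← ZMod.intCast_zmod_eq_zero_iff_dvd] at h1
    push_cast at h1
    exact sub_eq_zero.1 h1
  rcases legendreSym.eq_one_or_neg_one p hd0 with h | h
  · rw [hl, h]
    by_cases hne : (lcR d p).Nonempty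
    · obtain ⟨r, hr⟩ := hne
      have hsub : lcR d p ⊆ {r, p - r} := by
        intro s hs
        have h1 := hroot r hr
        have h2 := hroot s hs
        have hrp := Finset.mem_range.1 (Finset.mem_filter.1 hr).1
        have hsp := Finset.mem_range.1 (Finset.mem_filter.1 hs).1
        have h3 : ((s : ℕ) : ZMod p) = r ∨ ((s : ℕ) : ZMod p) = -r := by
          rw [← sq_eq_sq_iff_eq_or_eq_neg, h1, h2]
        rw [Finset.mem_insert, Finset.mem_singleton]
        rcases h3 with h3 | h3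
        · left
          exact Nat.ModEq.eq_of_lt_of_lt ((ZMod.natCast_eq_natCast_iff _ _ _).1 h3) hsp hrp
        · right
          have hr0 : r ≠ 0 := by
            rintro rfl
            apply hd0
            rw [Int.cast_natCast, ← h1]
            simp
          have h4 : ((s : ℕ) : ZMod p) = ((p - r : ℕ) : ZMod p) := by
            rw [Nat.cast_sub hrp.le, h3]
            simp
          exact Nat.ModEq.eq_of_lt_of_lt ((ZMod.natCast_eq_natCast_iff _ _ _).1 h4) hsp (by omega)
      have h1 := Finset.card_le_card hsub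
      have h2 : ({r, p - r} : Finset ℕ).card ≤ 2 := Finset.card_le_two
      have h3 : (lcR d p).card ≤ 2 := h1.trans h2
      exact_mod_cast h3
    · rw [Finset.not_nonempty_iff_eq_empty.1 hne]
      norm_num
  · rw [hl, h]
    have h1 : lcR d p = ∅ := by
      rw [Finset.eq_empty_iff_forall_notMem]
      intro r hr
      have h2 := hroot r hr
      rw [legendreSym.eq_neg_one_iff] at h
      apply h
      refine ⟨(r : ZMod p), ?_⟩
      rw [Int.cast_natCast, ← h2, sq]
    rw [h1]
    norm_num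

theorem lcR_le (d e : ℕ) (ho : Odd e) (hs : Squarefree e) (hc : Nat.Coprime e d) :
    ((lcR d e).card : ℤ) ≤ lcS d e := by
  induction e using Nat.recOnPosPrimePosCoprime with
  | zero => exact absurd ho (by decide)
  | one =>
    have h1 : (lcR d 1).card ≤ (Finset.range 1).card := Finset.card_filter_le _ _
    rw [Finset.card_range] at h1
    have h2 : lcS d 1 = 1 := by simp [lcS, lch_one]
    rw [h2]
    exact_mod_cast h1
  | prime_pow p n hp hn =>
    have hn1 : n = 1 := by
      by_contra hne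
      have h2 : 2 ≤ n := by omega
      have h3 : p * p ∣ p ^ n := by
        rw [← sq]
        exact pow_dvd_pow p h2
      exact hp.one_lt.ne' (Nat.isUnit_iff.1 (hs p h3))
    subst hn1
    rw [pow_one] at ho hc ⊢
    have h4 := lcS_pow d hp 1
    rw [pow_one] at h4
    rw [h4, Finset.sum_range_succ, Finset.sum_range_one, pow_zero, pow_one]
    exact lcR_prime d hp ho hc
  | coprime a b ha hb hab iha ihb =>
    have h1 := iha (Nat.odd_mul.1 ho).1 (hs.squarefree_of_dvd (dvd_mul_right a b))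
      (Nat.Coprime.coprime_dvd_left (dvd_mul_right a b) hc)
    have h2 := ihb (Nat.odd_mul.1 ho).2 (hs.squarefree_of_dvd (dvd_mul_left b a))
      (Nat.Coprime.coprime_dvd_left (dvd_mul_left b a) hc)
    have h3 := lcR_mul d ha hb hab
    rw [lcS_mul d hab]
    calc ((lcR d (a * b)).card : ℤ) ≤ ((lcR d a).card * (lcR d b).card : ℕ) := by
          exact_mod_cast h3
      _ = ((lcR d a).card : ℤ) * (lcR d b).card := by push_cast; rfl
      _ ≤ lcS d a * lcS d b := mul_le_mul h1 h2 (by positivity) (lcS_nonneg d a)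

/-- sum over divisors, swapped -/
theorem lc_swap (d Y : ℕ) : ∑ k ∈ Finset.Ioc 0 Y, lcS d k =
    ∑ g ∈ Finset.Ioc 0 Y, lch d g * ((Y / g : ℕ) : ℤ) := by
  unfold lcS
  rw [Finset.sum_comm' (t' := Finset.Ioc 0 Y)
    (s' := fun g => (Finset.Ioc 0 Y).filter fun k => g ∣ k)]
  · refine Finset.sum_congr rfl fun g _ => ?_
    rw [Finset.sum_const, Nat.Ioc_filter_dvd_card_eq_div, nsmul_eq_mul, mul_comm]
  · intro k g
    rw [Nat.mem_divisors, Finset.mem_filter, Finset.mem_Ioc, Finset.mem_Ioc]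
    constructor
    · rintro ⟨⟨h1, h2⟩, h3, h4⟩
      exact ⟨⟨⟨h1, h2⟩, h3⟩, Nat.pos_of_dvd_of_pos h3 h1, (Nat.le_of_dvd h1 h3).trans h2⟩
    · rintro ⟨⟨⟨h1, h2⟩, h3⟩, h4, h5⟩
      exact ⟨⟨h1, h2⟩, h3, by omega⟩

/-- the main bound -/
theorem lc_main (d : ℕ) (hd : ¬ IsSquare d) (Y : ℕ) :
    ((∑ k ∈ Finset.Ioc 0 Y, lcS d k : ℤ) : ℝ) ≤ (5 * (1 + Real.log d)) * Y := by
  have hd0 : d ≠ 0 := by
    rintro rfl
    exact hd ⟨0, rfl⟩
  have hd1 : 1 ≤ d := Nat.one_le_iff_ne_zero.2 hd0
  have hdr : (1 : ℝ) ≤ d := by exact_mod_cast hd1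
  have hlog : 0 ≤ Real.log d := Real.log_nonneg hdr
  rw [lc_swap, Int.cast_sum]
  simp only [Int.cast_mul, Int.cast_natCast]
  set M := min (4 * d) Y with hM
  have hsplit : ∑ g ∈ Finset.Ioc 0 Y, (lch d g : ℝ) * ((Y / g : ℕ) : ℝ) =
      ∑ g ∈ Finset.Ioc 0 M, (lch d g : ℝ) * ((Y / g : ℕ) : ℝ) +
      ∑ g ∈ Finset.Ico (M + 1) (Y + 1), ((Y / g : ℕ) : ℝ) * (lch d g : ℝ) := by
    have h1 : Finset.Ioc 0 Y = Finset.Ico 1 (Y + 1) := by
      ext x; simp; omega
    have h2 : Finset.Ioc 0 M = Finset.Ico 1 (M + 1) := by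
      ext x; simp; omega
    rw [h1, h2, ← Finset.sum_Ico_consecutive _ (by omega : 1 ≤ M + 1)
      (by have := min_le_right (4 * d) Y; omega : M + 1 ≤ Y + 1)]
    congr 1
    exact Finset.sum_congr rfl fun g _ => mul_comm _ _
  rw [hsplit]
  have hfirst : ∑ g ∈ Finset.Ioc 0 M, (lch d g : ℝ) * ((Y / g : ℕ) : ℝ) ≤
      Y * (1 + Real.log (4 * d)) := by
    have h1 : ∀ g ∈ Finset.Ioc 0 M, (lch d g : ℝ) * ((Y / g : ℕ) : ℝ) ≤ Y * ((g : ℝ))⁻¹ := by
      intro g hg
      have h2 : (lch d g : ℝ) ≤ 1 := by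
        have := (abs_le.1 (lch_abs d g)).2
        exact_mod_cast this
      have h3 : ((Y / g : ℕ) : ℝ) ≤ Y / g := Nat.cast_div_le
      calc (lch d g : ℝ) * ((Y / g : ℕ) : ℝ) ≤ 1 * ((Y / g : ℕ) : ℝ) :=
            mul_le_mul_of_nonneg_right h2 (Nat.cast_nonneg _)
        _ ≤ Y / g := by rw [one_mul]; exact h3
        _ = Y * ((g : ℝ))⁻¹ := div_eq_mul_inv _ _
    refine (Finset.sum_le_sum h1).trans ?_
    rw [← Finset.mul_sum]
    apply mul_le_mul_of_nonneg_left _ (Nat.cast_nonneg _)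
    have h4 : ∑ g ∈ Finset.Ioc 0 M, ((g : ℝ))⁻¹ ≤ ∑ g ∈ Finset.Ioc 0 (4 * d), ((g : ℝ))⁻¹ := by
      apply Finset.sum_le_sum_of_subset_of_nonneg
      · intro x hx
        rw [Finset.mem_Ioc] at hx ⊢
        exact ⟨hx.1, hx.2.trans (min_le_left _ _)⟩
      · intro i _ _
        positivity
    refine h4.trans ?_
    have h5 := harmonic_le_one_add_log (4 * d)
    have h6 : ((harmonic (4 * d) : ℚ) : ℝ) = ∑ g ∈ Finset.Ioc 0 (4 * d), ((g : ℝ))⁻¹ := by
      rw [harmonic_eq_sum_Icc]
      push_cast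
      rfl
    rw [← h6]
    push_cast at h5
    exact h5
  have hsecond : ∑ g ∈ Finset.Ico (M + 1) (Y + 1), ((Y / g : ℕ) : ℝ) * (lch d g : ℝ) ≤ 2 * Y := by
    by_cases hYd : Y ≤ 4 * d
    · have : M = Y := min_eq_right hYd
      rw [this, Finset.Ico_self, Finset.sum_empty]
      positivity
    · have hMd : M = 4 * d := min_eq_left (by omega)
      have h1 := lc_abel (fun n => (lch d n : ℝ)) (fun n => ((Y / n : ℕ) : ℝ)) (4 * d)
        (fun m => by
          have := lch_sum d hd m
          exact_mod_cast this) (M + 1) (fun n _ => Nat.cast_nonneg _)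
        (fun n hn => by
          have : Y / (n + 1) ≤ Y / n := Nat.div_le_div_left (by omega) (by omega)
          exact_mod_cast this) (Y + 1) (by omega)
      refine (le_abs_self _).trans (h1.trans ?_)
      have h2 : ((Y / (M + 1) : ℕ) : ℝ) ≤ (Y : ℝ) / (4 * d) := by
        refine (Nat.cast_div_le).trans ?_
        rw [hMd]
        push_cast
        apply div_le_div_of_nonneg_left (Nat.cast_nonneg _) (by positivity) (by linarith)
      calc 2 * (4 * (d : ℝ)) * ((Y / (M + 1) : ℕ) : ℝ) ≤ 2 * (4 * (d : ℝ)) * ((Y : ℝ) / (4 * d)) :=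
            mul_le_mul_of_nonneg_left h2 (by positivity)
        _ = 2 * Y := by
          field_simp
  have hlog4 : Real.log (4 * d) ≤ 2 + Real.log d := by
    rw [Real.log_mul (by norm_num) (by positivity)]
    have : Real.log 4 ≤ 2 := by
      have h1 : Real.log 4 = 2 * Real.log 2 := by
        rw [show (4 : ℝ) = 2 ^ 2 by norm_num, Real.log_pow]
        norm_num
      rw [h1]
      have := Real.log_two_lt_d9
      linarith
    linarith
  have hY : (0 : ℝ) ≤ Y := Nat.cast_nonneg _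
  have h7 : (Y : ℝ) * (1 + Real.log (4 * d)) ≤ Y * (3 + Real.log d) :=
    mul_le_mul_of_nonneg_left (by linarith) hY
  have h8 : 0 ≤ (Y : ℝ) * Real.log d := mul_nonneg hY hlog
  nlinarith

/-- **Row L4.** -/
theorem cnt_of : CntSt := by
  refine ⟨5, by norm_num, ?_⟩
  intro d hd I y hy hI
  have hd0 : d ≠ 0 := by
    rintro rfl
    exact hd ⟨0, rfl⟩
  have hdr : (1 : ℝ) ≤ d := by exact_mod_cast Nat.one_le_iff_ne_zero.2 hd0
  have hlog : 0 ≤ Real.log d := Real.log_nonneg hdr
  set Y := ⌊y⌋₊ with hY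
  have hYy : (Y : ℝ) ≤ y := Nat.floor_le (by linarith)
  have hmem : ∀ i ∈ I, i.1 ∈ Finset.Ioc 0 Y := by
    intro i hi
    obtain ⟨h1, h2⟩ := hI i hi
    rw [Finset.mem_Ioc]
    refine ⟨h1.odd.pos, Nat.le_floor h2⟩
  have hcard := Finset.card_eq_sum_card_fiberwise (s := I) (t := Finset.Ioc 0 Y)
    (f := Prod.fst) (fun i hi => Finset.mem_coe.2 (hmem i (Finset.mem_coe.1 hi)))
  have hfib : ∀ e ∈ Finset.Ioc 0 Y, (((I.filter fun i => i.1 = e).card : ℕ) : ℤ) ≤ lcS d e := by
    intro e _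
    by_cases hne : (I.filter fun i => i.1 = e).Nonempty
    · obtain ⟨i, hi⟩ := hne
      obtain ⟨hi1, hi2⟩ := Finset.mem_filter.1 hi
      have hp := (hI i hi1).1
      rw [← hi2]
      refine le_trans ?_ (lcR_le d i.1 hp.odd hp.sqf hp.cop)
      rw [hi2]
      have : (I.filter fun i => i.1 = e).card ≤ (lcR d e).card := by
        apply Finset.card_le_card_of_injOn Prod.snd
        · intro j hj
          obtain ⟨hj1, hj2⟩ := Finset.mem_filter.1 (Finset.mem_coe.1 hj)
          have hpj := (hI j hj1).1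
          rw [← hj2]
          exact Finset.mem_coe.2 (Finset.mem_filter.2 ⟨Finset.mem_range.2 hpj.lt, hpj.root⟩)
        · intro j hj k hk hjk
          obtain ⟨hj1, hj2⟩ := Finset.mem_filter.1 (Finset.mem_coe.1 hj)
          obtain ⟨hk1, hk2⟩ := Finset.mem_filter.1 (Finset.mem_coe.1 hk)
          exact Prod.ext (hj2.trans hk2.symm) hjk
      exact_mod_cast this
    · rw [Finset.not_nonempty_iff_eq_empty.1 hne, Finset.card_empty]
      exact_mod_cast lcS_nonneg d e
  have h1 : ((I.card : ℕ) : ℤ) ≤ ∑ k ∈ Finset.Ioc 0 Y, lcS d k := by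
    rw [hcard]
    push_cast
    exact Finset.sum_le_sum hfib
  have h2 : (I.card : ℝ) ≤ ((∑ k ∈ Finset.Ioc 0 Y, lcS d k : ℤ) : ℝ) := by exact_mod_cast h1
  refine h2.trans ((lc_main d hd Y).trans ?_)
  exact mul_le_mul_of_nonneg_left hYy (by positivity)

end Pool.Agent.H32.MA
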