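import Pool.Agent.H32.MA.LDefs

/-!
# Project MA9, row L2: complete sums of `KK_i KK_j` vanish
-/

set_option autoImplicit false

open scoped BigOperators

namespace Pool.Agent.H32.MA

/-- sum over one period -/
theorem sum_Ico_zmod_one (q : ℕ) [NeZero q] (a : ℤ) (g : ZMod q → ℤ) :
    ∑ u ∈ Finset.Ico a (a + q), g (u : ZMod q) = ∑ z : ZMod q, g z := by
  refine Finset.sum_bij (fun u _ => (u : ZMod q)) (fun _ _ => Finset.mem_univ _) ?_ ?_ ?_
  · intro u hu v hv h
    rw [Finset.mem_Ico] at hu hv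
    rw [ZMod.intCast_eq_intCast_iff_dvd_sub] at h
    obtain ⟨t, ht⟩ := h
    have hq : (0 : ℤ) < q := by exact_mod_cast Nat.pos_of_ne_zero (NeZero.ne q)
    have h1 : t = 0 := by
      by_contra h0
      rcases lt_or_gt_of_ne h0 with h2 | h2
      · have : (q : ℤ) * t ≤ -q := by nlinarith
        omega
      · have : (q : ℤ) ≤ q * t := by nlinarith
        omega
    rw [h1] at ht
    omega
  · intro z _
    have hq : (0 : ℤ) < q := by exact_mod_cast Nat.pos_of_ne_zero (NeZero.ne q)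
    refine ⟨a + ((z - (a : ZMod q)).val : ℤ), ?_, ?_⟩
    · rw [Finset.mem_Ico]
      have := ZMod.val_lt (z - (a : ZMod q))
      omega
    · push_cast
      rw [ZMod.natCast_zmod_val]
      ring
  · intro u _
    rfl

/-- sum over `k` periods -/
theorem sum_Ico_zmod (q : ℕ) [NeZero q] (k : ℕ) (a : ℤ) (g : ZMod q → ℤ) :
    ∑ u ∈ Finset.Ico a (a + k * q), g (u : ZMod q) = k * ∑ z : ZMod q, g z := by
  induction k with
  | zero => simp
  | succ k ih =>
    have hq : (0 : ℤ) ≤ q := by positivity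
    have hk : (0 : ℤ) ≤ k * q := by positivity
    have h1 : a + ((k + 1 : ℕ) : ℤ) * q = a + k * q + q := by push_cast; ring
    rw [h1, ← Finset.Ico_union_Ico_eq_Ico (by omega : a ≤ a + k * q) (by omega : a + k * q ≤ a + k * q + q),
      Finset.sum_union (Finset.Ico_disjoint_Ico_consecutive _ _ _), ih, sum_Ico_zmod_one]
    push_cast
    ring

/-- a function on the plane which is periodic and changes its sign under a linear bijection
modulo the period -/
theorem box_zero (N : ℕ) [NeZero N] (k : ℕ) (F : ℤ → ℤ → ℤ)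
    (hF : ∀ u u' v v' : ℤ, (N : ℤ) ∣ u - u' → (N : ℤ) ∣ v - v' → F u v = F u' v')
    (α β γ δ : ℤ)
    (hT : ∀ u v : ℤ, F (α * u + β * v) (γ * u + δ * v) = -F u v)
    (hi : ∀ u v : ℤ, (N : ℤ) ∣ α * u + β * v → (N : ℤ) ∣ γ * u + δ * v →
      (N : ℤ) ∣ u ∧ (N : ℤ) ∣ v)
    (u₀ v₀ : ℤ) :
    ∑ u ∈ Finset.Ico u₀ (u₀ + k * N), ∑ v ∈ Finset.Ico v₀ (v₀ + k * N), F u v = 0 := by
  have hval : ∀ u : ℤ, (N : ℤ) ∣ u - (((u : ZMod N)).val : ℤ) := by
    intro u
    rw [← ZMod.intCast_eq_intCast_iff_dvd_sub]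
    simp
  have hval' : ∀ u : ℤ, (N : ℤ) ∣ (((u : ZMod N)).val : ℤ) - u := fun u =>
    (dvd_sub_comm).1 (hval u)
  have hG : ∀ u v : ℤ, F u v = F ((u : ZMod N).val : ℤ) ((v : ZMod N).val : ℤ) := fun u v =>
    hF _ _ _ _ (hval u) (hval v)
  have h1 : ∑ u ∈ Finset.Ico u₀ (u₀ + k * N), ∑ v ∈ Finset.Ico v₀ (v₀ + k * N), F u v =
      k * ∑ a : ZMod N, (k * ∑ b : ZMod N, F (a.val : ℤ) (b.val : ℤ)) := by
    rw [← sum_Ico_zmod N k u₀ (fun a => k * ∑ b : ZMod N, F (a.val : ℤ) (b.val : ℤ))]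
    refine Finset.sum_congr rfl fun u _ => ?_
    rw [← sum_Ico_zmod N k v₀ (fun b => F ((u : ZMod N).val : ℤ) (b.val : ℤ))]
    exact Finset.sum_congr rfl fun v _ => hG u v
  have h2 : ∑ a : ZMod N, ∑ b : ZMod N, F (a.val : ℤ) (b.val : ℤ) = 0 := by
    let T : ZMod N × ZMod N → ZMod N × ZMod N := fun x =>
      ((α : ZMod N) * x.1 + (β : ZMod N) * x.2, (γ : ZMod N) * x.1 + (δ : ZMod N) * x.2)
    have hTi : Function.Injective T := by
      have hlin : ∀ x y, T (x - y) = T x - T y := by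
        intro x y
        simp only [T, Prod.fst_sub, Prod.snd_sub, Prod.mk_sub_mk, Prod.mk.injEq]
        constructor <;> ring
      intro x y hxy
      have h0 : T (x - y) = 0 := by rw [hlin, hxy, sub_self]
      set z := x - y with hz
      have e1 : ((z.1.val : ℤ) : ZMod N) = z.1 := by simp
      have e2 : ((z.2.val : ℤ) : ZMod N) = z.2 := by simp
      have h3 : (N : ℤ) ∣ α * (z.1.val : ℤ) + β * (z.2.val : ℤ) := by
        rw [← ZMod.intCast_zmod_eq_zero_iff_dvd]
        have := congrArg Prod.fst h0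
        simp only [T, Prod.fst_zero] at this
        rw [← e1, ← e2] at this
        push_cast at this ⊢
        exact this
      have h4 : (N : ℤ) ∣ γ * (z.1.val : ℤ) + δ * (z.2.val : ℤ) := by
        rw [← ZMod.intCast_zmod_eq_zero_iff_dvd]
        have := congrArg Prod.snd h0
        simp only [T, Prod.snd_zero] at this
        rw [← e1, ← e2] at this
        push_cast at this ⊢
        exact this
      obtain ⟨h5, h6⟩ := hi _ _ h3 h4
      rw [← ZMod.intCast_zmod_eq_zero_iff_dvd, e1] at h5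
      rw [← ZMod.intCast_zmod_eq_zero_iff_dvd, e2] at h6
      have : z = 0 := Prod.ext h5 h6
      rw [hz] at this
      exact sub_eq_zero.1 this
    have hTb : Function.Bijective T := Finite.injective_iff_bijective.1 hTi
    have h3 : ∑ x : ZMod N × ZMod N, F (x.1.val : ℤ) (x.2.val : ℤ) =
        ∑ x : ZMod N × ZMod N, F ((T x).1.val : ℤ) ((T x).2.val : ℤ) :=
      (hTb.sum_comp (fun x : ZMod N × ZMod N => F (x.1.val : ℤ) (x.2.val : ℤ))).symm
    have h4 : ∀ x : ZMod N × ZMod N, F ((T x).1.val : ℤ) ((T x).2.val : ℤ) =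
        -F (x.1.val : ℤ) (x.2.val : ℤ) := by
      intro x
      rw [← hT]
      have e1 : (T x).1 = ((α * (x.1.val : ℤ) + β * (x.2.val : ℤ) : ℤ) : ZMod N) := by
        simp [T]
      have e2 : (T x).2 = ((γ * (x.1.val : ℤ) + δ * (x.2.val : ℤ) : ℤ) : ZMod N) := by
        simp [T]
      rw [e1, e2]
      exact hF _ _ _ _ (hval' _) (hval' _)
    have h5 : ∑ x : ZMod N × ZMod N, F (x.1.val : ℤ) (x.2.val : ℤ) =
        -∑ x : ZMod N × ZMod N, F (x.1.val : ℤ) (x.2.val : ℤ) := by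
      conv_lhs => rw [h3]
      rw [Finset.sum_congr rfl fun x _ => h4 x, Finset.sum_neg_distrib]
    rw [Fintype.sum_prod_type] at h5
    have h6 : ∀ z : ℤ, z = -z → z = 0 := fun z hz => by omega
    exact h6 _ h5
  rw [h1, ← Finset.mul_sum, h2]
  ring

theorem jac_congr {a b : ℤ} {n : ℕ} (h : (n : ℤ) ∣ a - b) : jacobiSym a n = jacobiSym b n :=
  jacobiSym.mod_left' (Int.ModEq.symm (Int.modEq_iff_dvd.2 h))

theorem KK_congr (i : ℕ × ℕ) {u u' v v' : ℤ} (h : (i.1 : ℤ) ∣ u - u') (h' : (i.1 : ℤ) ∣ v - v') :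
    KK i (u, v) = KK i (u', v') := by
  unfold KK
  have h1 : (i.1 : ℤ) ∣ (u - v * i.2) - (u' - v' * i.2) := by
    have : (u - v * i.2) - (u' - v' * i.2) = (u - u') - (v - v') * i.2 := by ring
    rw [this]
    exact dvd_sub h (dvd_mul_of_dvd_left h' _)
  have h2 : (i.1 : ℤ) ∣ (u + v * i.2) - (u' + v' * i.2) := by
    have : (u + v * i.2) - (u' + v' * i.2) = (u - u') + (v - v') * i.2 := by ring
    rw [this]
    exact dvd_add h (dvd_mul_of_dvd_left h' _)
  simp only
  rw [jac_congr h1, jac_congr h2]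

/-- a number which is a non-residue modulo `p` and `1` modulo `M` -/
theorem exists_c {p : ℕ} (hp : p.Prime) (hp2 : p ≠ 2) {M : ℕ} (hM : Nat.Coprime p M) :
    ∃ c : ℤ, jacobiSym c p = -1 ∧ (M : ℤ) ∣ c - 1 := by
  haveI : Fact p.Prime := ⟨hp⟩
  obtain ⟨a, ha⟩ := quadraticChar_exists_neg_one (F := ZMod p) (by
    rw [ZMod.ringChar_zmod_n]; exact hp2)
  obtain ⟨k, hk1, hk2⟩ := Nat.chineseRemainder hM a.val 1
  refine ⟨k, ?_, ?_⟩
  · rw [← jacobiSym.legendreSym.to_jacobiSym, legendreSym]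
    have : ((k : ℤ) : ZMod p) = a := by
      have h1 : ((k : ℕ) : ZMod p) = ((a.val : ℕ) : ZMod p) :=
        (ZMod.natCast_eq_natCast_iff _ _ _).2 hk1
      rw [ZMod.natCast_zmod_val] at h1
      exact_mod_cast h1
    rw [this]
    exact ha
  · have := (Nat.modEq_iff_dvd.1 hk2.symm)
    exact_mod_cast this

theorem jac_one_of_dvd {c : ℤ} {m : ℕ} (h : (m : ℤ) ∣ c - 1) : jacobiSym c m = 1 := by
  rw [jac_congr h, jacobiSym.one_left]

/-- scaling -/
theorem KK_scale (i : ℕ × ℕ) (c u v : ℤ) :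
    KK i (c * u, c * v) = jacobiSym c i.1 ^ 3 * KK i (u, v) := by
  unfold KK
  simp only
  have h1 : c * u - c * v * i.2 = c * (u - v * i.2) := by ring
  have h2 : c * u + c * v * i.2 = c * (u + v * i.2) := by ring
  rw [h1, h2, jacobiSym.mul_left, jacobiSym.mul_left]
  ring

theorem coprime_of_jac {c : ℤ} {n : ℕ} (hn : n ≠ 0) (h : jacobiSym c n ≠ 0) :
    IsCoprime c n := by
  haveI : NeZero n := ⟨hn⟩
  have h1 : c.gcd n = 1 := by
    by_contra h2
    exact h (jacobiSym.eq_zero_iff_not_coprime.2 h2)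
  exact Int.isCoprime_iff_gcd_eq_one.2 h1

/-- Case 1: a prime divides `e_i` and not `e_j`. -/
theorem comp_case1 {d : ℕ} {i j : ℕ × ℕ} (hi : Pr d i) (hj : Pr d j) {p : ℕ} (hp : p.Prime)
    (hpi : p ∣ i.1) (hpj : ¬ p ∣ j.1) (u₀ v₀ : ℤ) :
    ∑ u ∈ Finset.Ico u₀ (u₀ + i.1 * j.1), ∑ v ∈ Finset.Ico v₀ (v₀ + i.1 * j.1),
      KK i (u, v) * KK j (u, v) = 0 := by
  have hi0 : i.1 ≠ 0 := hi.sqf.ne_zero
  have hj0 : j.1 ≠ 0 := hj.sqf.ne_zero
  obtain ⟨m, hm⟩ := hpi
  have hpm : Nat.Coprime p m := by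
    have h1 := hi.sqf
    rw [hm] at h1
    exact (Nat.squarefree_mul_iff.1 h1).1
  have hp2 : p ≠ 2 := by
    rintro rfl
    have h1 := hi.odd
    rw [hm] at h1
    exact absurd h1 (by rw [Nat.not_odd_iff_even]; exact even_two.mul_right m)
  have hpj' : Nat.Coprime p j.1 := (Nat.Prime.coprime_iff_not_dvd hp).2 hpj
  obtain ⟨c, hc1, hc2⟩ := exists_c hp hp2 (M := m * j.1) (Nat.Coprime.mul_right hpm hpj')
  have hm0 : m ≠ 0 := by rintro rfl; simp at hm; exact hi0 hm
  haveI : NeZero p := ⟨hp.ne_zero⟩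
  haveI : NeZero m := ⟨hm0⟩
  have hcm : jacobiSym c m = 1 := jac_one_of_dvd (dvd_trans (by push_cast; exact dvd_mul_right _ _) hc2)
  have hcj : jacobiSym c j.1 = 1 :=
    jac_one_of_dvd (dvd_trans (by push_cast; exact dvd_mul_left _ _) hc2)
  have hci : jacobiSym c i.1 = -1 := by
    rw [hm, jacobiSym.mul_right, hc1, hcm]
    ring
  haveI : NeZero (i.1 * j.1) := ⟨mul_ne_zero hi0 hj0⟩
  have hcop : IsCoprime c ((i.1 * j.1 : ℕ) : ℤ) := by
    push_cast
    exact IsCoprime.mul_right (coprime_of_jac hi0 (by rw [hci]; decide))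
      (coprime_of_jac hj0 (by rw [hcj]; decide))
  have key := box_zero (i.1 * j.1) 1 (fun u v => KK i (u, v) * KK j (u, v)) ?_ c 0 0 c ?_ ?_ u₀ v₀
  · simpa using key
  · intro u u' v v' h h'
    have a1 : (i.1 : ℤ) ∣ ((i.1 * j.1 : ℕ) : ℤ) := by push_cast; exact dvd_mul_right _ _
    have a2 : (j.1 : ℤ) ∣ ((i.1 * j.1 : ℕ) : ℤ) := by push_cast; exact dvd_mul_left _ _
    rw [KK_congr i (dvd_trans a1 h) (dvd_trans a1 h'), KK_congr j (dvd_trans a2 h) (dvd_trans a2 h')]
  · intro u v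
    have e1 : c * u + 0 * v = c * u := by ring
    have e2 : 0 * u + c * v = c * v := by ring
    rw [e1, e2, KK_scale, KK_scale, hci, hcj]
    ring
  · intro u v h1 h2
    have e1 : c * u + 0 * v = c * u := by ring
    have e2 : 0 * u + c * v = c * v := by ring
    rw [e1] at h1
    rw [e2] at h2
    exact ⟨hcop.symm.dvd_of_dvd_mul_left h1, hcop.symm.dvd_of_dvd_mul_left h2⟩

/-- Case 2: `e_i = e_j`. -/
theorem comp_case2 {d e r r' : ℕ} (hi : Pr d (e, r)) (hj : Pr d (e, r')) {p : ℕ} (hp : p.Prime)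
    (hpe : p ∣ e) (hr : ¬ (p : ℤ) ∣ (r : ℤ) - r') (u₀ v₀ : ℤ) :
    ∑ u ∈ Finset.Ico u₀ (u₀ + e * e), ∑ v ∈ Finset.Ico v₀ (v₀ + e * e),
      KK (e, r) (u, v) * KK (e, r') (u, v) = 0 := by
  have he0 : e ≠ 0 := hi.sqf.ne_zero
  obtain ⟨m, hm⟩ := hpe
  have hpm : Nat.Coprime p m := by
    have h1 : Squarefree e := hi.sqf
    rw [hm] at h1
    exact (Nat.squarefree_mul_iff.1 h1).1
  have hp2 : p ≠ 2 := by
    rintro rfl
    have h1 : Odd e := hi.odd
    rw [hm] at h1
    exact absurd h1 (by rw [Nat.not_odd_iff_even]; exact even_two.mul_right m)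
  have hm0 : m ≠ 0 := by rintro rfl; simp at hm; exact he0 hm
  haveI : NeZero p := ⟨hp.ne_zero⟩
  haveI : NeZero m := ⟨hm0⟩
  haveI : NeZero e := ⟨he0⟩
  obtain ⟨c, hc1, hc2⟩ := exists_c hp hp2 (M := m) hpm
  have hce : jacobiSym c e = -1 := by
    rw [hm, jacobiSym.mul_right, hc1, jac_one_of_dvd hc2]
    ring
  have hpZ : Prime (p : ℤ) := Nat.prime_iff_prime_int.1 hp
  have hpe' : (p : ℤ) ∣ (e : ℤ) := by rw [hm]; push_cast; exact dvd_mul_right _ _
  have hpd : ¬ (p : ℤ) ∣ (d : ℤ) := by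
    intro h
    have h1 : p ∣ d := by exact_mod_cast h
    have h2 : p ∣ Nat.gcd e d := Nat.dvd_gcd (by rw [hm]; exact dvd_mul_right _ _) h1
    have h3 : Nat.gcd e d = 1 := hi.cop
    rw [h3] at h2
    exact hp.one_lt.ne' (Nat.dvd_one.1 h2)
  have hri : (p : ℤ) ∣ (r : ℤ) ^ 2 - d := dvd_trans hpe' hi.root
  have hrj : (p : ℤ) ∣ (r' : ℤ) ^ 2 - d := dvd_trans hpe' hj.root
  have hpr : ¬ (p : ℤ) ∣ (r : ℤ) := by
    intro h
    apply hpd
    have : (d : ℤ) = (r : ℤ) ^ 2 - ((r : ℤ) ^ 2 - d) := by ring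
    rw [this]
    exact dvd_sub (dvd_pow h two_ne_zero) hri
  have hsum : (p : ℤ) ∣ (r : ℤ) + r' := by
    have h1 : (p : ℤ) ∣ ((r : ℤ) - r') * ((r : ℤ) + r') := by
      have : ((r : ℤ) - r') * ((r : ℤ) + r') = ((r : ℤ) ^ 2 - d) - ((r' : ℤ) ^ 2 - d) := by ring
      rw [this]
      exact dvd_sub hri hrj
    exact (hpZ.dvd_or_dvd h1).resolve_left hr
  have h2r : IsCoprime (2 * (r : ℤ) * m) (p : ℤ) := by
    rw [isCoprime_comm, Prime.coprime_iff_not_dvd hpZ]
    intro h
    rcases hpZ.dvd_or_dvd h with h | h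
    · rcases hpZ.dvd_or_dvd h with h | h
      · have h3 : p ∣ 2 := by exact_mod_cast h
        exact hp2 ((Nat.prime_dvd_prime_iff_eq hp Nat.prime_two).1 h3)
      · exact hpr h
    · have h3 : p ∣ m := by exact_mod_cast h
      exact hp.one_lt.ne' (Nat.dvd_one.1 (hpm ▸ Nat.dvd_gcd dvd_rfl h3))
  obtain ⟨x, y, hxy⟩ := h2r
  -- `w = m x (c - 1)`
  set w : ℤ := m * (x * (c - 1)) with hw
  have hwm : (m : ℤ) ∣ w := dvd_mul_right _ _
  have hwp : (p : ℤ) ∣ (1 + 2 * w * r) - c := by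
    refine ⟨-(y * (c - 1)), ?_⟩
    have : x * (2 * (r : ℤ) * m) = 1 - y * p := by linarith
    calc (1 + 2 * w * r) - c = (x * (2 * (r : ℤ) * m)) * (c - 1) - (c - 1) := by rw [hw]; ring
      _ = (1 - y * p) * (c - 1) - (c - 1) := by rw [this]
      _ = p * -(y * (c - 1)) := by ring
  have hpmZ : IsCoprime (p : ℤ) (m : ℤ) := Nat.isCoprime_iff_coprime.2 hpm
  have hcomb : ∀ z : ℤ, (p : ℤ) ∣ z → (m : ℤ) ∣ z → (e : ℤ) ∣ z := by
    intro z h1 h2
    rw [hm]
    push_cast
    exact hpmZ.mul_dvd h1 h2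
  have hA : (e : ℤ) ∣ (1 + 2 * w * r) - c := by
    refine hcomb _ hwp ?_
    have : (1 + 2 * w * r) - c = w * (2 * r) - (c - 1) := by ring
    rw [this]
    exact dvd_sub (dvd_mul_of_dvd_left hwm _) hc2
  have hB : (e : ℤ) ∣ w * ((r : ℤ) + r') :=
    hcomb _ (dvd_mul_of_dvd_right hsum _) (dvd_mul_of_dvd_left hwm _)
  have hcop : IsCoprime c (e : ℤ) := coprime_of_jac he0 (by rw [hce]; decide)
  refine box_zero e e (fun u v => KK (e, r) (u, v) * KK (e, r') (u, v)) ?_
    (1 + w * r) (-(w * r ^ 2)) (-w) (1 + w * r) ?_ ?_ u₀ v₀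
  · intro u u' v v' h h'
    rw [KK_congr (e, r) h h', KK_congr (e, r') h h']
  · intro u v
    have h1 : KK (e, r) ((1 + w * r) * u + -(w * r ^ 2) * v, -w * u + (1 + w * r) * v) =
        -KK (e, r) (u, v) := by
      unfold KK
      simp only
      have a1 : (e : ℤ) ∣ ((1 + w * r) * u + -(w * r ^ 2) * v - (-w * u + (1 + w * r) * v) * r) -
          c * (u - v * r) := by
        have : ((1 + w * r) * u + -(w * r ^ 2) * v - (-w * u + (1 + w * r) * v) * r) -
          c * (u - v * r) = ((1 + 2 * w * r) - c) * (u - v * r) := by ring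
        rw [this]
        exact dvd_mul_of_dvd_left hA _
      have a2 : (1 + w * r) * u + -(w * r ^ 2) * v + (-w * u + (1 + w * r) * v) * r =
          u + v * r := by ring
      rw [jac_congr a1, a2, jacobiSym.mul_left, hce]
      ring
    have h2 : KK (e, r') ((1 + w * r) * u + -(w * r ^ 2) * v, -w * u + (1 + w * r) * v) =
        KK (e, r') (u, v) := by
      unfold KK
      simp only
      have a1 : (e : ℤ) ∣ ((1 + w * r) * u + -(w * r ^ 2) * v - (-w * u + (1 + w * r) * v) * r') -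
          (u - v * r') := by
        have : ((1 + w * r) * u + -(w * r ^ 2) * v - (-w * u + (1 + w * r) * v) * r') -
          (u - v * r') = w * ((r : ℤ) + r') * (u - v * r) := by ring
        rw [this]
        exact dvd_mul_of_dvd_left hB _
      have a2 : (e : ℤ) ∣ ((1 + w * r) * u + -(w * r ^ 2) * v + (-w * u + (1 + w * r) * v) * r') -
          c * (u + v * r') := by
        refine hcomb _ ?_ ?_
        · have : ((1 + w * r) * u + -(w * r ^ 2) * v + (-w * u + (1 + w * r) * v) * r') -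
            c * (u + v * r') = ((1 + 2 * w * r) - c) * (u + v * r') -
              (w * (u - v * r) + 2 * w * r * v) * ((r : ℤ) + r') := by ring
          rw [this]
          exact dvd_sub (dvd_mul_of_dvd_left hwp _) (dvd_mul_of_dvd_right hsum _)
        · have : ((1 + w * r) * u + -(w * r ^ 2) * v + (-w * u + (1 + w * r) * v) * r') -
            c * (u + v * r') = w * ((u - v * r) * (r - r')) - (c - 1) * (u + v * r') := by ring
          rw [this]
          exact dvd_sub (dvd_mul_of_dvd_left hwm _) (dvd_mul_of_dvd_left hc2 _)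
      rw [jac_congr a1, jac_congr a2, jacobiSym.mul_left, hce]
      ring
    rw [h1, h2]
    ring
  · intro u v h1 h2
    have h3 : (e : ℤ) ∣ c * (u - v * r) := by
      have h4 := dvd_sub h1 (dvd_mul_of_dvd_left h2 (r : ℤ))
      have : c * (u - v * r) = ((1 + w * r) * u + -(w * r ^ 2) * v -
          (-w * u + (1 + w * r) * v) * r) - ((1 + 2 * w * r) - c) * (u - v * r) := by ring
      rw [this]
      exact dvd_sub h4 (dvd_mul_of_dvd_left hA _)
    have h4 : (e : ℤ) ∣ u - v * r := hcop.symm.dvd_of_dvd_mul_left h3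
    constructor
    · have : u = ((1 + w * r) * u + -(w * r ^ 2) * v) - w * r * (u - v * r) := by ring
      rw [this]
      exact dvd_sub h1 (dvd_mul_of_dvd_right h4 _)
    · have : v = (-w * u + (1 + w * r) * v) + w * (u - v * r) := by ring
      rw [this]
      exact dvd_add h2 (dvd_mul_of_dvd_right h4 _)

/-- L2. -/
theorem comp_of : CompSt := by
  intro d i j hi hj hij u₀ v₀
  by_cases hee : i.1 = j.1
  · obtain ⟨e, r⟩ := i
    obtain ⟨e', r'⟩ := j
    simp only at hee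
    subst hee
    have hr : r ≠ r' := fun h => hij (by rw [h])
    have hne : ¬ (e : ℤ) ∣ (r : ℤ) - r' := by
      rintro ⟨t, ht⟩
      have h1 : r < e := hi.lt
      have h2 : r' < e := hj.lt
      have h3 : t = 0 := by
        by_contra h0
        rcases lt_or_gt_of_ne h0 with h4 | h4
        · have : (e : ℤ) * t ≤ -e := by nlinarith
          omega
        · have : (e : ℤ) ≤ e * t := by nlinarith
          omega
      rw [h3] at ht
      omega
    obtain ⟨p, hp, hpe, hpr⟩ : ∃ p : ℕ, p.Prime ∧ p ∣ e ∧ ¬ (p : ℤ) ∣ (r : ℤ) - r' := by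
      by_contra hcon
      push Not at hcon
      apply hne
      have hsq : Squarefree e := hi.sqf
      have h1 : e ∣ ((r : ℤ) - r').natAbs := by
        rw [← Nat.prod_primeFactors_of_squarefree hsq]
        refine Finset.prod_primes_dvd _ (fun p hp => (Nat.prime_of_mem_primeFactors hp).prime) ?_
        intro p hp
        have := hcon p (Nat.prime_of_mem_primeFactors hp) (Nat.dvd_of_mem_primeFactors hp)
        exact Int.natCast_dvd.1 this
      exact Int.natCast_dvd.2 h1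
    exact comp_case2 hi hj hp hpe hpr u₀ v₀
  · have hex : ∃ p : ℕ, p.Prime ∧ ((p ∣ i.1 ∧ ¬ p ∣ j.1) ∨ (p ∣ j.1 ∧ ¬ p ∣ i.1)) := by
      by_contra hcon
      push Not at hcon
      apply hee
      rw [← Nat.prod_primeFactors_of_squarefree hi.sqf,
        ← Nat.prod_primeFactors_of_squarefree hj.sqf]
      refine Finset.prod_congr ?_ fun _ _ => rfl
      ext p
      simp only [Nat.mem_primeFactors]
      constructor
      · rintro ⟨h1, h2, _⟩
        exact ⟨h1, (hcon p h1).1 h2, hj.sqf.ne_zero⟩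
      · rintro ⟨h1, h2, _⟩
        exact ⟨h1, (hcon p h1).2 h2, hi.sqf.ne_zero⟩
    obtain ⟨p, hp, h | h⟩ := hex
    · exact comp_case1 hi hj hp h.1 h.2 u₀ v₀
    · have key := comp_case1 hj hi hp h.1 h.2 u₀ v₀
      rw [mul_comm (j.1 : ℤ) (i.1 : ℤ)] at key
      rw [← key]
      refine Finset.sum_congr rfl fun u _ => Finset.sum_congr rfl fun v _ => ?_
      ring

end Pool.Agent.H32.MA
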