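import Pool.Agent.H32.MA.LDefs

/-!
# Project MA9, block L: the large sieve for the kernel `KK`
-/

set_option autoImplicit false

open scoped BigOperators

namespace Pool.Agent.H32.MA

theorem lsv_jac (a : ℤ) (b : ℕ) : |jacobiSym a b| ≤ 1 := by
  rcases jacobiSym.trichotomy a b with h | h | h <;> rw [h] <;> decide

theorem lsv_KK (i : ℕ × ℕ) (x : ℤ × ℤ) : |KK i x| ≤ 1 := by
  unfold KK
  rw [abs_mul, abs_pow]
  have h1 := lsv_jac (x.1 - x.2 * i.2) i.1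
  have h2 := lsv_jac (x.1 + x.2 * i.2) i.1
  have h3 : |jacobiSym (x.1 + x.2 * i.2) i.1| ^ 2 ≤ 1 := pow_le_one₀ (abs_nonneg _) h2
  exact mul_le_one₀ h1 (by positivity) h3

theorem lsv_add {M : Type} [AddCommMonoid M] (g : ℤ → M) {a b c : ℤ} (h1 : a ≤ b) (h2 : b ≤ c) :
    ∑ u ∈ Finset.Ico a c, g u = ∑ u ∈ Finset.Ico a b, g u + ∑ u ∈ Finset.Ico b c, g u := by
  rw [← Finset.Ico_union_Ico_eq_Ico h1 h2,
    Finset.sum_union (Finset.Ico_disjoint_Ico_consecutive a b c)]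

/-- sums over boxes of periods -/
theorem lsv_box (g : ℤ → ℤ → ℤ) (q : ℤ) (hq : 0 ≤ q)
    (h : ∀ u₀ v₀ : ℤ, ∑ u ∈ Finset.Ico u₀ (u₀ + q), ∑ v ∈ Finset.Ico v₀ (v₀ + q), g u v = 0)
    (k m : ℕ) (u₀ v₀ : ℤ) :
    ∑ u ∈ Finset.Ico u₀ (u₀ + k * q), ∑ v ∈ Finset.Ico v₀ (v₀ + m * q), g u v = 0 := by
  have h1 : ∀ (m : ℕ) (u₀ v₀ : ℤ),
      ∑ u ∈ Finset.Ico u₀ (u₀ + q), ∑ v ∈ Finset.Ico v₀ (v₀ + m * q), g u v = 0 := by
    intro m
    induction m with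
    | zero =>
      intro u₀ v₀
      simp
    | succ m ih =>
      intro u₀ v₀
      have hm : 0 ≤ (m : ℤ) * q := mul_nonneg (Int.natCast_nonneg m) hq
      have h2 : ∀ u, ∑ v ∈ Finset.Ico v₀ (v₀ + (m + 1 : ℕ) * q), g u v =
          ∑ v ∈ Finset.Ico v₀ (v₀ + m * q), g u v +
            ∑ v ∈ Finset.Ico (v₀ + m * q) (v₀ + m * q + q), g u v := by
        intro u
        have h3 : v₀ + ((m + 1 : ℕ) : ℤ) * q = v₀ + m * q + q := by
          push_cast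
          ring
        rw [h3]
        exact lsv_add (g u) (by linarith) (by linarith)
      rw [Finset.sum_congr rfl fun u _ => h2 u, Finset.sum_add_distrib, ih, h, add_zero]
  induction k generalizing u₀ with
  | zero => simp
  | succ k ih =>
    have hk : 0 ≤ (k : ℤ) * q := mul_nonneg (Int.natCast_nonneg k) hq
    have h3 : u₀ + ((k + 1 : ℕ) : ℤ) * q = u₀ + k * q + q := by
      push_cast
      ring
    rw [h3, lsv_add _ (show u₀ ≤ u₀ + k * q by linarith) (show u₀ + k * q ≤ u₀ + k * q + q by linarith),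
      ih, h1, add_zero]

/-- the incomplete sum over the box -/
theorem lsv_inc (g : ℤ → ℤ → ℤ) (q : ℕ) (hq : 0 < q) (hg : ∀ u v, |g u v| ≤ 1)
    (h : ∀ u₀ v₀ : ℤ, ∑ u ∈ Finset.Ico u₀ (u₀ + q), ∑ v ∈ Finset.Ico v₀ (v₀ + q), g u v = 0)
    (R : ℕ) : |∑ x ∈ bx R, g x.1 x.2| ≤ 2 * (2 * R + 1) * q := by
  classical
  set k : ℕ := (2 * R + 1) / q with hk
  have hk1 : k * q ≤ 2 * R + 1 := Nat.div_mul_le_self _ _
  have hk2 : 2 * R + 1 < k * q + q := by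
    have := Nat.lt_div_mul_add (a := 2 * R + 1) hq
    rwa [← hk] at this
  set s : Finset (ℤ × ℤ) := Finset.Ico (-(R : ℤ)) (-(R : ℤ) + k * q) ×ˢ
    Finset.Ico (-(R : ℤ)) (-(R : ℤ) + k * q) with hs
  have hk1' : (k : ℤ) * q ≤ 2 * R + 1 := by exact_mod_cast hk1
  have hk2' : (2 : ℤ) * R + 1 < k * q + q := by exact_mod_cast hk2
  have hsub : s ⊆ bx R := by
    intro x hx
    rw [hs, Finset.mem_product, Finset.mem_Ico, Finset.mem_Ico] at hx
    unfold bx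
    rw [Finset.mem_product, Finset.mem_Icc, Finset.mem_Icc]
    omega
  have h0 : ∑ x ∈ s, g x.1 x.2 = 0 := by
    rw [hs, Finset.sum_product]
    exact lsv_box g q (Int.natCast_nonneg q) h k k _ _
  have h1 : ∑ x ∈ bx R, g x.1 x.2 = ∑ x ∈ bx R \ s, g x.1 x.2 := by
    rw [← Finset.sum_sdiff hsub, h0, add_zero]
  rw [h1]
  refine (Finset.abs_sum_le_sum_abs _ _).trans ?_
  refine (Finset.sum_le_card_nsmul _ _ 1 fun x _ => hg x.1 x.2).trans ?_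
  have hc1 : (bx R).card = (2 * R + 1) * (2 * R + 1) := by
    unfold bx
    rw [Finset.card_product, Int.card_Icc]
    have : ((R : ℤ) + 1 - -(R : ℤ)).toNat = 2 * R + 1 := by omega
    rw [this]
  have hc2 : s.card = (k * q) * (k * q) := by
    rw [hs, Finset.card_product, Int.card_Ico]
    have h5 : (-(R : ℤ) + (k : ℤ) * q - -(R : ℤ)) = ((k * q : ℕ) : ℤ) := by
      push_cast
      ring
    rw [h5, Int.toNat_natCast]
  have hc3 : ((bx R \ s).card : ℤ) = (2 * R + 1) * (2 * R + 1) - (k * q) * (k * q) := by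
    have := Finset.card_sdiff_add_card_eq_card hsub
    rw [hc1, hc2] at this
    have h6 : (((bx R \ s).card : ℤ) + (k * q) * (k * q)) = (2 * R + 1) * (2 * R + 1) := by
      exact_mod_cast this
    linarith
  rw [nsmul_eq_mul, mul_one, hc3]
  have hq0 : (0 : ℤ) < q := by exact_mod_cast hq
  have hkq : (0 : ℤ) ≤ k * q := by positivity
  nlinarith [mul_nonneg (show (0 : ℤ) ≤ 2 * R + 1 - k * q by linarith) hkq,
    mul_nonneg (show (0 : ℤ) ≤ k * q + q - (2 * R + 1) by linarith)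
      (show (0 : ℤ) ≤ (2 * R + 1) + k * q by positivity)]

/-- the correlation of two different kernels -/
theorem lsv_off (h : CompSt) {d R E : ℕ} {i j : ℕ × ℕ} (hi : Pr d i) (hj : Pr d j)
    (hiE : i.1 ≤ E) (hjE : j.1 ≤ E) (hij : i ≠ j) :
    |∑ x ∈ bx R, ((KK i x : ℤ) : ℝ) * KK j x| ≤ 2 * (2 * R + 1) * (E : ℝ) ^ 2 := by
  have hq : 0 < i.1 * j.1 := Nat.mul_pos hi.odd.pos hj.odd.pos
  have h1 := lsv_inc (fun u v => KK i (u, v) * KK j (u, v)) (i.1 * j.1) hq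
    (fun u v => by
      rw [abs_mul]
      exact mul_le_one₀ (lsv_KK i _) (abs_nonneg _) (lsv_KK j _))
    (fun u₀ v₀ => by
      have := h d i j hi hj hij u₀ v₀
      push_cast
      exact this) R
  have h2 : (∑ x ∈ bx R, ((KK i x : ℤ) : ℝ) * KK j x) =
      ((∑ x ∈ bx R, KK i (x.1, x.2) * KK j (x.1, x.2) : ℤ) : ℝ) := by
    push_cast
    rfl
  rw [h2, ← Int.cast_abs]
  have h3 : ((|∑ x ∈ bx R, KK i (x.1, x.2) * KK j (x.1, x.2)| : ℤ) : ℝ) ≤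
      ((2 * (2 * R + 1) * (i.1 * j.1 : ℕ) : ℤ) : ℝ) := by exact_mod_cast h1
  refine h3.trans ?_
  push_cast
  have h4 : (i.1 : ℝ) ≤ E := by exact_mod_cast hiE
  have h5 : (j.1 : ℝ) ≤ E := by exact_mod_cast hjE
  have h6 : (i.1 : ℝ) * j.1 ≤ (E : ℝ) ^ 2 := by
    rw [sq]
    exact mul_le_mul h4 h5 (Nat.cast_nonneg _) (Nat.cast_nonneg _)
  exact mul_le_mul_of_nonneg_left h6 (by positivity)

theorem lsv_diag (R : ℕ) (i : ℕ × ℕ) :
    |∑ x ∈ bx R, ((KK i x : ℤ) : ℝ) * KK i x| ≤ (2 * R + 1 : ℝ) ^ 2 := by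
  refine (Finset.abs_sum_le_sum_abs _ _).trans ?_
  have h1 : ∀ x ∈ bx R, |((KK i x : ℤ) : ℝ) * KK i x| ≤ 1 := by
    intro x _
    rw [abs_mul]
    have h2 : |((KK i x : ℤ) : ℝ)| ≤ 1 := by
      rw [← Int.cast_abs]
      exact_mod_cast lsv_KK i x
    exact mul_le_one₀ h2 (abs_nonneg _) h2
  refine (Finset.sum_le_card_nsmul _ _ 1 h1).trans ?_
  have hc1 : (bx R).card = (2 * R + 1) * (2 * R + 1) := by
    unfold bx
    rw [Finset.card_product, Int.card_Icc]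
    have : ((R : ℤ) + 1 - -(R : ℤ)).toNat = 2 * R + 1 := by omega
    rw [this]
  rw [nsmul_eq_mul, mul_one, hc1]
  push_cast
  exact le_of_eq (by ring)

theorem ls_of (h : CompSt) : LSSt := by
  intro d R E I hI a
  classical
  have e1 : ∑ x ∈ bx R, (∑ i ∈ I, a i * KK i x) ^ 2 =
      ∑ i ∈ I, ∑ j ∈ I, a i * a j * ∑ x ∈ bx R, ((KK i x : ℤ) : ℝ) * KK j x := by
    have h1 : ∀ x ∈ bx R, (∑ i ∈ I, a i * KK i x) ^ 2 =
        ∑ i ∈ I, ∑ j ∈ I, a i * a j * (((KK i x : ℤ) : ℝ) * KK j x) := by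
      intro x _
      rw [sq, Finset.sum_mul_sum]
      refine Finset.sum_congr rfl fun i _ => Finset.sum_congr rfl fun j _ => ?_
      ring
    rw [Finset.sum_congr rfl h1, Finset.sum_comm]
    refine Finset.sum_congr rfl fun i _ => ?_
    rw [Finset.sum_comm]
    exact Finset.sum_congr rfl fun j _ => (Finset.mul_sum _ _ _).symm
  rw [e1]
  have e2 : ∀ i ∈ I, ∀ j ∈ I, a i * a j * ∑ x ∈ bx R, ((KK i x : ℤ) : ℝ) * KK j x ≤
      (if i = j then (2 * R + 1 : ℝ) ^ 2 * a i ^ 2 else 0) +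
        2 * (2 * R + 1) * (E : ℝ) ^ 2 * (|a i| * |a j|) := by
    intro i hi j hj
    refine (le_abs_self _).trans ?_
    rw [abs_mul, abs_mul]
    by_cases hij : i = j
    · subst hij
      rw [if_pos rfl]
      have h1 := lsv_diag R i
      have h2 : |a i| * |a i| = a i ^ 2 := by rw [← sq, sq_abs]
      have h3 : 0 ≤ 2 * (2 * R + 1) * (E : ℝ) ^ 2 * (|a i| * |a i|) := by positivity
      have h4 : |a i| * |a i| * |∑ x ∈ bx R, ((KK i x : ℤ) : ℝ) * KK i x| ≤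
          |a i| * |a i| * (2 * R + 1 : ℝ) ^ 2 := mul_le_mul_of_nonneg_left h1 (by positivity)
      rw [h2] at h4 h3 ⊢
      linarith
    · rw [if_neg hij, zero_add]
      have h1 := lsv_off (R := R) h (hI i hi).1 (hI j hj).1 (hI i hi).2 (hI j hj).2 hij
      have h4 : |a i| * |a j| * |∑ x ∈ bx R, ((KK i x : ℤ) : ℝ) * KK j x| ≤
          |a i| * |a j| * (2 * (2 * R + 1) * (E : ℝ) ^ 2) :=
        mul_le_mul_of_nonneg_left h1 (by positivity)
      linarith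
  refine (Finset.sum_le_sum fun i hi => Finset.sum_le_sum fun j hj => e2 i hi j hj).trans ?_
  have e3 : ∑ i ∈ I, ∑ j ∈ I, ((if i = j then (2 * R + 1 : ℝ) ^ 2 * a i ^ 2 else 0) +
        2 * (2 * R + 1) * (E : ℝ) ^ 2 * (|a i| * |a j|)) =
      (2 * R + 1 : ℝ) ^ 2 * ∑ i ∈ I, a i ^ 2 +
        2 * (2 * R + 1) * (E : ℝ) ^ 2 * (∑ i ∈ I, |a i|) ^ 2 := by
    simp only [Finset.sum_add_distrib]
    congr 1
    · rw [Finset.mul_sum]
      refine Finset.sum_congr rfl fun i hi => ?_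
      rw [Finset.sum_ite_eq, if_pos hi]
    · rw [sq (∑ i ∈ I, |a i|), Finset.sum_mul_sum, Finset.mul_sum]
      refine Finset.sum_congr rfl fun i _ => ?_
      rw [Finset.mul_sum]
  rw [e3]
  have e4 : (∑ i ∈ I, |a i|) ^ 2 ≤ I.card * ∑ i ∈ I, a i ^ 2 := by
    have := sq_sum_le_card_mul_sum_sq (s := I) (f := fun i => |a i|)
    simpa only [sq_abs] using this
  have e5 : 2 * (2 * R + 1) * (E : ℝ) ^ 2 * (∑ i ∈ I, |a i|) ^ 2 ≤
      2 * (2 * R + 1) * (E : ℝ) ^ 2 * (I.card * ∑ i ∈ I, a i ^ 2) :=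
    mul_le_mul_of_nonneg_left e4 (by positivity)
  nlinarith [e5]

theorem ld_of (h : CompSt) : LDSt := by
  intro d R E I hI c
  classical
  set g : ℕ × ℕ → ℝ := fun i => ∑ x ∈ bx R, c x * KK i x with hg
  set D : ℝ := (2 * R + 1 : ℝ) ^ 2 + 2 * (2 * R + 1) * (E : ℝ) ^ 2 * I.card with hD
  have h1 : ∑ x ∈ bx R, (∑ i ∈ I, g i * KK i x) ^ 2 ≤ D * ∑ i ∈ I, g i ^ 2 :=
    ls_of h d R E I hI g
  have h2 : ∑ i ∈ I, g i ^ 2 = ∑ x ∈ bx R, c x * ∑ i ∈ I, g i * KK i x := by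
    have h3 : ∀ i ∈ I, g i ^ 2 = ∑ x ∈ bx R, c x * (g i * KK i x) := by
      intro i _
      rw [sq]
      nth_rewrite 2 [hg]
      rw [Finset.mul_sum]
      refine Finset.sum_congr rfl fun x _ => ?_
      ring
    rw [Finset.sum_congr rfl h3, Finset.sum_comm]
    exact Finset.sum_congr rfl fun x _ => (Finset.mul_sum _ _ _).symm
  have h3 : (∑ i ∈ I, g i ^ 2) ^ 2 ≤
      (∑ x ∈ bx R, c x ^ 2) * ∑ x ∈ bx R, (∑ i ∈ I, g i * KK i x) ^ 2 := by
    nth_rewrite 1 [h2]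
    exact Finset.sum_mul_sq_le_sq_mul_sq _ _ _
  have hB : 0 ≤ ∑ i ∈ I, g i ^ 2 := Finset.sum_nonneg fun i _ => sq_nonneg _
  have hc : 0 ≤ ∑ x ∈ bx R, c x ^ 2 := Finset.sum_nonneg fun x _ => sq_nonneg _
  have h4 : (∑ i ∈ I, g i ^ 2) ^ 2 ≤ (∑ x ∈ bx R, c x ^ 2) * (D * ∑ i ∈ I, g i ^ 2) :=
    h3.trans (mul_le_mul_of_nonneg_left h1 hc)
  have hD0 : 0 ≤ D := by positivity
  change ∑ i ∈ I, g i ^ 2 ≤ D * ∑ x ∈ bx R, c x ^ 2
  rcases hB.eq_or_lt with h5 | h5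
  · rw [← h5]
    positivity
  · have h6 : (∑ i ∈ I, g i ^ 2) * (∑ i ∈ I, g i ^ 2) ≤
        (D * ∑ x ∈ bx R, c x ^ 2) * (∑ i ∈ I, g i ^ 2) := by
      rw [← sq]
      refine h4.trans (le_of_eq ?_)
      ring
    exact le_of_mul_le_mul_right h6 h5

end Pool.Agent.H32.MA
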