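import Pool.Agent.H32.MA.RFinal
import Pool.Agent.H32.MA.LCnt
import Pool.Agent.H32.MA.LBil
import Pool.Agent.H32.MA.LSieve
import Pool.Agent.H32.MA.LComp
import Pool.Agent.H32.MA.FCj
import Pool.Agent.H32.MA.FPr
import Pool.Agent.H32.MA.FInj
import Pool.Agent.H32.MA.FThue
import Pool.Agent.H32.MA.FOrd
import Pool.Agent.H32.MA.FLam
import Pool.Agent.H32.MA.FShift
import Pool.Agent.H32.MA.FKK
import Pool.Agent.H32.MA.FFac
import Pool.Agent.H32.MA.FLab
import Pool.Agent.H32.MA.FBX
import Pool.Agent.H32.MA.FSq
import Pool.Agent.H32.MA.FBB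
import Pool.Agent.H32.MA.FNorm

/-!
# Project MA9 (MP_a9b340), block F: the statements of `FDefs.lean` and the bilinear bound
without hypotheses
-/

set_option autoImplicit false

open scoped BigOperators
open NumberField IsDedekindDomain

namespace Pool.Agent.H32.MA.FF

section

variable {K : Type} [Field K] [NumberField K] (F : QF K)

theorem cjP : StCjP F := f_cjP F

theorem prS : StPrS F := f_prS F (R.res K)

theorem inj : StInj F := f_inj F (cjP F) (R.res K) (prS F)

theorem glf : StGLF F := f_glf F (inj F) (prS F)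

theorem thue : StThue F := f_thue F (R.res K) (prS F)

theorem ngS : StNg F := f_ng F (R.res K)

theorem ordT : StOrdT F := f_ordT F (cjP F) (R.res K) (R.ordR K) (R.unr F)

theorem lam : StLam F :=
  f_lam F (R.res K) (R.ordR K) (inj F) (thue F) (ngS F) (ordT F)

theorem lTh : StLTh F :=
  f_lTh F (R.res K) (R.ordR K) (inj F) (thue F) (ngS F) (ordT F)

theorem shift : StShift F := f_shift F (R.res K) (R.chP K) (R.unr F)

theorem kk : StKK F := f_kk F (R.res K) (R.chP K) (R.unr F) (R.ordR K) (prS F)

theorem dis : StDis F :=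
  f_dis F (cjP F) (R.res K) (R.unr F) (R.ordR K) (thue F) (ngS F) (ordT F) (kk F)

include F in
theorem h90 : StH90 (K := K) := f_h90 F

theorem nmE : StNmE F :=
  f_nmE F (cjP F) (R.res K) (R.ovr K) (R.ordR K) (R.unr F)

end

/-- few classes -/
theorem bb : StmBB := f_bb f_qsq (fun _ _ _ F => h90 F) (fun _ _ _ F => nmE F)

section

variable {K : Type} [Field K] [NumberField K] (F : QF K)

/-- factorisation over a label -/
theorem fac : StFac F :=
  f_fac F bb (cjP F) (R.res K) (R.chP K) (R.unr F) (R.ordR K) (thue F) (ngS F) (lam F) (shift F)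
    (kk F) (dis F)

end

/-- few good sets of given norm -/
theorem norm : StmNorm := f_norm (fun _ _ _ F => cjP F) (fun K _ _ => R.res K)

/-- few good sets of norm at most `y` -/
theorem cnt : StmCnt := f_cnt (fun _ _ _ F => inj F) (fun _ _ _ F => prS F) cnt_of

/-- the bilinear bound for pairs -/
theorem bil : BilSt := bil_of (ls_of comp_of) (ld_of comp_of) cnt_of

/-- the bilinear bound over a label -/
theorem labB : StLab :=
  f_lab bil norm (fun _ _ _ F => prS F) (fun _ _ _ F => inj F) (fun _ _ _ F => glf F)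
    (fun _ _ _ F => thue F) (fun _ _ _ F => ngS F) (fun _ _ _ F => fac F) (fun _ _ _ F => lTh F)

/-- few labels -/
theorem lbN : StLbN :=
  f_lbN (fun _ _ _ F => prS F) (fun _ _ _ F => thue F) (fun _ _ _ F => ngS F)

/-- the bilinear bound in boxes -/
theorem bx : StmBX := f_bx (fun _ _ _ F => glf F) labB lbN

end Pool.Agent.H32.MA.FF
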