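import Pool.Agent.H32.MA.AHind
import Pool.Agent.H32.MA.ASurj
import Pool.Agent.H32.MA.AChiT
import Pool.Agent.H32.MA.ABr
import Pool.Agent.H32.MA.AQF
import Pool.Agent.H32.MA.AAct
import Pool.Agent.H32.MA.AFEx
import Pool.Agent.H32.MA.AFTwo
import Pool.Agent.H32.MA.AKum
import Pool.Agent.H32.MA.ACoc
import Pool.Agent.H32.MA.ALift
import Pool.Agent.H32.MA.ACrit
import Pool.Agent.H32.MA.ASur
import Pool.Agent.H32.MA.ATri
import Pool.Agent.H32.MA.ATriR
import Pool.Agent.H32.MA.AUnr
import Pool.Agent.H32.MA.ATyp
import Pool.Agent.H32.MA.ATw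
import Pool.Agent.H32.MA.ANor
import Pool.Agent.H32.MA.ADsc
import Pool.Agent.H32.MA.ATwo
import Pool.Agent.H32.MA.AMu
import Pool.Agent.H32.MA.AV2
import Pool.Agent.H32.MA.AHasO
import Pool.Agent.H32.MA.ACntU
import Pool.Agent.H32.MA.AFib
import Pool.Agent.H32.MA.AInB
import Pool.Agent.H32.MA.AGood
import Pool.Agent.H32.MA.AFib2
import Pool.Agent.H32.MA.AMh
import Pool.Agent.H32.MA.ALoc
import Pool.Agent.H32.MA.APos
import Pool.Agent.H32.MA.APair
import Pool.Agent.H32.MA.AGLF
import Pool.Agent.H32.MA.ADec
import Pool.Agent.H32.MA.ASum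
import Pool.Agent.H32.MA.AUni
import Pool.Agent.H32.MA.AFin
import Pool.Agent.H32.MA.AEx
import Pool.Agent.H32.MA.RFinal
import Pool.Agent.H32.MA.FFinal

/-!
# Project MA9 (MP_a9b340), block A: the statements of `AStm.lean` without hypotheses, the results
used by the outer sum (helper87)
-/

set_option autoImplicit false

open scoped BigOperators
open NumberField IsDedekindDomain

namespace Pool.Agent.H32.MA.A

open Pool.Agent.H98.MK (Om Gam)

theorem br : SaBr := saBr st_tm

theorem twS : SaTwS := saTwS saSurj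

theorem v2 : SaV2 := saV2 saTwo twS

theorem pcl : SaPcl := saPcl saFinR

section

variable {K : Type} [Field K] [NumberField K] (F : QF K) (j : K →+* Om)

theorem act : SaAct F j := saAct F j

theorem fix : SaFix F j := saFix F j

theorem fEx : SaFEx F j := saFEx F j (act F j)

theorem fCo : SaFCo F j := saFCo F j (act F j)

theorem fTwo : SaFTwo F j := saFTwo F j (act F j) (fix F j)

theorem fSq : SaFSq F j := saFSq F j (act F j)

theorem fRat : SaFRat F j := saFRat F j (act F j)

theorem fInj : SaFInj F j := saFInj F j (act F j) (fix F j)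

theorem kum : SaKum F j := saKum F j (act F j) (fix F j)

theorem coc : SaCoc F j := saCoc F j (act F j)

theorem lift : SaLift F j := saLift F j (coc F j) (fCo F j)

theorem crit : SaCrit F j := saCrit F j (lift F j) br (fSq F j)

theorem la : SaA F j := saA F j (fCo F j)

theorem sur2 : SaSur2 F j := saSur2 F j (la F j) saSurj

theorem tri : SaTri F := saTri F

theorem triR : SaTriR F := saTriR F

theorem unr : SaUnr F j := saUnr F j

theorem typ : SaTyp F j := saTyp F j (unr F j) saChiT (tri F) (triR F) (la F j) (fRat F j)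
  (fTwo F j) (act F j)

theorem twC : SaTw F j := saTw F j (fTwo F j)

theorem twEx : SaTwEx F j := saTwEx F j (fTwo F j) (la F j)

theorem nor : SaNor F j := saNor F j (typ F j) saFinR saTwT

theorem mu : SaMu F j := saMu F j saTwo (act F j) (fTwo F j) twS (la F j)

theorem hasO : SaHasO F j := saHasO F j pcl (typ F j) (tri F) (triR F)

theorem qFin : SaQFin F := saQFin F

theorem fib : SaFib F j := saFib F j (nor F j) (twC F j) (twEx F j) saTwAdd saTwInj saTwT twS v2
  (mu F j) (hasO F j) saCntU (typ F j) (qFin F)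

theorem fibF : SaFibF F j := saFibF F j (fib F j) (hasO F j)

theorem inB : SaInB F := saInB F (tri F)

theorem good : SaGood F j := saGood F j (hasO F j) pcl (typ F j) (tri F) (triR F)

theorem mh : SaMh F j := saMh F j (mu F j)

theorem mhL : SaMhL F j := saMhL F j (mh F j)

theorem fib2 : SaFib2 F j := saFib2 F j (crit F j) (fEx F j) (sur2 F j) (fib F j) (inB F) (tri F)
  (mh F j) (hasO F j)

theorem fib3 : SaFib3 F j := saFib3 F j (fib F j) (inB F) (hasO F j)

theorem loc : SaLoc F j := saLoc F j (mhL F j)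

theorem bd : SaBd F j := saBd F j

theorem pos : SaPos F j := saPos F j (good F j) (kum F j) (crit F j) (mh F j) (hasO F j)

theorem dec : SaDec F j := saDec F j (good F j) (kum F j) (fInj F j) (fSq F j) (inB F)
  (saGLF K) (saRp K) FF.bb (fibF F j)

theorem sum : SaSum F j := saSum F j (dec F j) (fib2 F j) (saPair K) (saRp K) (inB F) FF.bb
  (saGLF K)

end

/-! ### the results -/

theorem par : StmPar := stmPar pcl saDsc saHind saChiT

theorem uni : StmUni := stmUni

theorem fin : StmFin := stmFin saQF fun _ _ _ F j => dec F j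

theorem one : StmOne := stmOne saQF (fun _ _ _ F j => dec F j) (fun _ _ _ F j => fib3 F j) FF.bb
  fun K _ _ => saRp K

theorem alg : StmAlg := stmAlg saQF (fun _ _ _ F j => sum F j) (fun _ _ _ F j => loc F j)
  (fun _ _ _ F j => bd F j) fun _ _ _ F j => pos F j

theorem ex : StmEx := stmEx saQF (fun _ _ _ F j => crit F j) (fun _ _ _ F j => fEx F j)
  fun _ _ _ F j => sur2 F j

end Pool.Agent.H32.MA.A
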