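import Pool.Agent.H32.MA.AStm
import Pool.Agent.H98.ML.NorbBurnside

/-!
# Project MA9 (MP_a9b340), row MA-A1: the index of the elements of the semidihedral group
-/

set_option autoImplicit false

open scoped BigOperators

namespace Pool.Agent.H32.MA

open Pool.Agent.H98.ML (hind norb norb_burnside)

/-- the powers of `g` -/
private def a1P (g a : SD) : Prop :=
  a = 1 ∨ a = g ∨ a = g * g ∨ a = g * g * g ∨ a = g * g * (g * g) ∨ a = g * g * (g * g) * g ∨
    a = g * g * (g * g) * (g * g) ∨ a = g * g * (g * g) * (g * g) * g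

private instance (g a : SD) : Decidable (a1P g a) := by unfold a1P; infer_instance

private theorem a1_p8 (g : SD) : g * g * (g * g) * (g * g * (g * g)) = 1 := by
  revert g; decide

private theorem a1_pow8 (g : SD) : g ^ 8 = 1 := by
  rw [← a1_p8 g]
  simp only [pow_succ, pow_zero, one_mul, mul_assoc]

private theorem a1_mem (g a : SD) : a ∈ Subgroup.zpowers g ↔ a1P g a := by
  rw [Subgroup.mem_zpowers_iff]
  constructor
  · rintro ⟨k, hk⟩
    have h1 : g ^ k = g ^ (k % 8).toNat := by
      have h2 : k = 8 * (k / 8) + k % 8 := (Int.mul_ediv_add_emod k 8).symm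
      have h3 : ((k % 8).toNat : ℤ) = k % 8 := Int.toNat_of_nonneg (Int.emod_nonneg _ (by norm_num))
      rw [← zpow_natCast, h3]
      conv_lhs => rw [h2]
      rw [zpow_add, zpow_mul]
      have h4 : g ^ (8 : ℤ) = 1 := by
        have := a1_pow8 g
        exact_mod_cast this
      rw [h4, one_zpow, one_mul]
    have h5 : (k % 8).toNat < 8 := by omega
    rw [h1] at hk
    subst hk
    generalize (k % 8).toNat = n at h5 ⊢
    unfold a1P
    interval_cases n <;> simp only [pow_succ, pow_zero, one_mul, mul_assoc, true_or, or_true]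
  · intro h
    rcases h with h | h | h | h | h | h | h | h
    · exact ⟨0, by rw [h]; exact zpow_zero g⟩
    · exact ⟨1, by rw [h]; exact zpow_one g⟩
    · exact ⟨((2 : ℕ) : ℤ), by rw [h, zpow_natCast]; simp only [pow_succ, pow_zero, one_mul]⟩
    · exact ⟨((3 : ℕ) : ℤ), by rw [h, zpow_natCast]; simp only [pow_succ, pow_zero, one_mul]⟩
    · exact ⟨((4 : ℕ) : ℤ), by
        rw [h, zpow_natCast]; simp only [pow_succ, pow_zero, one_mul, mul_assoc]⟩
    · exact ⟨((5 : ℕ) : ℤ), by
        rw [h, zpow_natCast]; simp only [pow_succ, pow_zero, one_mul, mul_assoc]⟩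
    · exact ⟨((6 : ℕ) : ℤ), by
        rw [h, zpow_natCast]; simp only [pow_succ, pow_zero, one_mul, mul_assoc]⟩
    · exact ⟨((7 : ℕ) : ℤ), by
        rw [h, zpow_natCast]; simp only [pow_succ, pow_zero, one_mul, mul_assoc]⟩

private theorem a1_cz (g : SD) :
    Nat.card (Subgroup.zpowers g) = (Finset.univ.filter fun a : SD => a1P g a).card := by
  rw [Nat.card_congr (Equiv.subtypeEquivRight fun a => a1_mem g a), Nat.card_eq_fintype_card,
    Fintype.card_subtype]

private theorem a1_ci (g x : SD) :
    Nat.card (Subgroup.zpowers g ⊓ SD.H0.comap (MulAut.conj x).toMonoidHom : Subgroup SD) =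
      (Finset.univ.filter fun a : SD => a1P g a ∧ (x * a * x⁻¹).b = 0).card := by
  have h : ∀ a : SD, a ∈ (Subgroup.zpowers g ⊓ SD.H0.comap (MulAut.conj x).toMonoidHom :
      Subgroup SD) ↔ a1P g a ∧ (x * a * x⁻¹).b = 0 := by
    intro a
    rw [Subgroup.mem_inf, a1_mem]
    exact Iff.rfl
  rw [Nat.card_congr (Equiv.subtypeEquivRight h), Nat.card_eq_fintype_card, Fintype.card_subtype]

private theorem a1_h0 : Nat.card SD.H0 = 2 := by
  have h : ∀ a : SD, a ∈ SD.H0 ↔ a.b = 0 := fun a => Iff.rfl
  rw [Nat.card_congr (Equiv.subtypeEquivRight h), Nat.card_eq_fintype_card, Fintype.card_subtype]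
  decide

private theorem a1_idx : SD.H0.index = 8 := by
  have h := SD.H0.index_mul_card
  rw [a1_h0] at h
  have h2 : Nat.card SD = 16 := by
    rw [Nat.card_eq_fintype_card]
    decide
  omega

/-- the number of orbits -/
private def a1t (g : SD) : ℕ :=
  if g = 1 then 8 else if SD.clC g then 5 else if SD.clZ g then 4 else if SD.clR g then 1 else 2

private theorem a1_fin (g : SD) :
    (∑ x : SD, (Finset.univ.filter fun a : SD => a1P g a ∧ (x * a * x⁻¹).b = 0).card) =
      a1t g * 2 * (Finset.univ.filter fun a : SD => a1P g a).card := by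
  revert g
  decide +kernel

private theorem a1_norb (g : SD) : norb SD.H0 g = a1t g := by
  have h := norb_burnside SD.H0 g
  rw [Finset.sum_congr rfl fun x _ => a1_ci g x, a1_fin, a1_h0, ← a1_cz] at h
  have h2 : 0 < Nat.card (Subgroup.zpowers g) := Nat.card_pos
  have h3 := Nat.eq_of_mul_eq_mul_right h2 h
  omega

theorem saHind : SaHind := by
  intro g
  unfold hind
  rw [a1_norb, a1_idx]
  unfold a1t
  split_ifs <;> rfl

end Pool.Agent.H32.MA
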