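import Pool.Agent.H32.MA.A0

/-!
# Project MA9 (MP_a9b340), block A: statements of the rows (helper87)
-/

set_option autoImplicit false

open scoped BigOperators
open NumberField IsDedekindDomain

namespace Pool.Agent.H32.MA

open Pool.Agent.H98.MK (Om Gam dabs fld chi dd adm par lg par_hom par_lc z12)
open Pool.Agent.H98.MF (ord)
open Pool.Agent.H98.ML (hind norb tau IsTau)

/-! ### groups -/

/-- A1: the index of the elements -/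
def SaHind : Prop := ∀ g : SD, hind SD.H0 g =
  if g = 1 then 0 else if SD.clC g then 3 else if SD.clZ g then 4 else if SD.clR g then 7 else 6

/-- A2: surjectivity -/
def SaSurj : Prop := ∀ ρ : Gam →* SD, Function.Surjective ρ ↔
  (∃ σ, (ρ σ).pd = 1 ∧ (ρ σ).a = 0) ∧ ∃ σ, (ρ σ).pd = 0 ∧ (ρ σ).a = 1

/-! ### quadratic characters at the tame generators -/

/-- A3: quadratic characters at the tame generators -/
def SaChiT : Prop := ∀ p : ℕ, p.Prime → p ≠ 2 → ∀ q : ℚ, q ≠ 0 →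
  chi q (tau p) = ((padicValRat p q : ℤ) : ZMod 2)

/-- A4: symbols and cup products -/
def SaBr : Prop := ∀ a b : Fin 3 → ℚ, (∀ i, a i ≠ 0) → (∀ i, b i ≠ 0) →
  ((∃ g : Gam → ZMod 2, IsLocallyConstant g ∧ ∀ σ τ, g (σ * τ) = g σ + g τ +
      ∑ i, chi (a i) σ * chi (b i) τ) ↔
    (∀ p : ℕ, p.Prime → p ≠ 2 → ∑ i, tm p (a i) (b i) = 0) ∧ ∑ i, tinf (a i) (b i) = 0)

/-! ### real quadratic fields -/

/-- A5: existence of the field -/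
def SaQF : Prop := ∀ d : ℕ, Squarefree d → 1 < d →
  ∃ (K : Type) (_ : Field K) (_ : NumberField K) (F : QF K) (_ : K →+* Om), F.d = d

section

variable {K : Type} [Field K] [NumberField K] (F : QF K) (j : K →+* Om)

/-- A6: the action on the field -/
def SaAct : Prop := ∀ (σ : Gam) (b : K),
  (chi (F.d : ℚ) σ = 0 → σ (j b) = j b) ∧ (chi (F.d : ℚ) σ = 1 → σ (j b) = j (F.cj b))

/-- A6: elements fixed by the automorphisms over the field -/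
def SaFix : Prop := ∀ y : Om, (∀ σ : Gam, chi (F.d : ℚ) σ = 0 → σ y = y) → ∃ b : K, y = j b

/-- A7: existence of the functions -/
def SaFEx : Prop := ∀ b : K, b ≠ 0 → ∃ f : Gam → ZMod 2, IsF F j b f

/-- A7: the functions are locally constant and satisfy the cocycle relation -/
def SaFCo : Prop := ∀ (b : K) (f : Gam → ZMod 2), b ≠ 0 → IsF F j b f →
  IsLocallyConstant f ∧
    ∀ σ τ, f (σ * τ) = f σ + f τ + chi (nmK b) σ * chi (F.d : ℚ) τ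

/-- A8: the two functions attached to an element -/
def SaFTwo : Prop := ∀ (b : K) (f f' : Gam → ZMod 2), b ≠ 0 → IsF F j b f →
  (IsF F j b f' ↔ f' = f ∨ f' = fun σ => f σ + chi (F.d : ℚ) σ)

/-- A8: squares -/
def SaFSq : Prop := ∀ (b z : K) (f : Gam → ZMod 2), b ≠ 0 → z ≠ 0 → IsF F j b f →
  IsF F j (b * z ^ 2) f

/-- A8: rational multiples -/
def SaFRat : Prop := ∀ (b : K) (t : ℚ) (f : Gam → ZMod 2), b ≠ 0 → t ≠ 0 → IsF F j b f →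
  IsF F j (t * b) (fun σ => f σ + chi t σ)

/-- A8: the class is determined -/
def SaFInj : Prop := ∀ (b b' : K) (f : Gam → ZMod 2), b ≠ 0 → b' ≠ 0 → IsF F j b f →
  IsF F j b' f → ∃ z : K, z ≠ 0 ∧ b' = b * z ^ 2

/-- A9: every homomorphism is attached to an element -/
def SaKum : Prop := ∀ ρ : Gam →* SD, IsLocallyConstant ρ →
  (∀ σ, (ρ σ).pd = chi (F.d : ℚ) σ) → ∃ b : K, b ≠ 0 ∧ Cl F j b ρ

/-- A10: the explicit cochain -/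
def SaCoc : Prop := ∀ (b : K) (f : Gam → ZMod 2), b ≠ 0 → trK b ≠ 0 → IsF F j b f →
  ∃ h : Gam → ZMod 2, IsLocallyConstant h ∧ ∀ σ τ,
    bit3 (chi (F.d : ℚ) (σ * τ)) (f (σ * τ) + chi (trK b) (σ * τ)) (h (σ * τ)) =
      bit3 (chi (F.d : ℚ) σ) (f σ + chi (trK b) σ) (h σ) +
      pm (chi (F.d : ℚ) σ + chi (nmK b) σ) * p5 (chi 2 σ) *
        bit3 (chi (F.d : ℚ) τ) (f τ + chi (trK b) τ) (h τ)

/-- A11: lifts and cup products -/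
def SaLift : Prop := ∀ (b : K) (f : Gam → ZMod 2), b ≠ 0 → trK b ≠ 0 → IsF F j b f →
  ((∃ ρ : Gam →* SD, Cl F j b ρ ∧ ∀ σ, (ρ σ).pf = f σ) ↔
    ∃ g : Gam → ZMod 2, IsLocallyConstant g ∧ ∀ σ τ, g (σ * τ) = g σ + g τ +
      (chi (F.d * nmK b) σ * chi (trK b) τ + chi (trK b) σ * chi (trK b) τ +
        chi (2 * F.d * nmK b) σ * chi (F.d : ℚ) τ))

/-- A12: the criterion -/
def SaCrit : Prop := ∀ (b : K) (f : Gam → ZMod 2), b ≠ 0 → IsF F j b f →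
  ((∃ ρ : Gam →* SD, Cl F j b ρ ∧ ∀ σ, (ρ σ).pf = f σ) ↔
    (∀ p : ℕ, p.Prime → p ≠ 2 → Th F p b = 0) ∧ ThI b = 0)

/-- A13: the last coordinate -/
def SaA : Prop := ∀ (b : K) (ρ : Gam →* SD), b ≠ 0 → Cl F j b ρ →
  ∀ σ, (ρ σ).a = chi (F.d : ℚ) σ + chi (nmK b) σ

/-- A13: surjectivity in terms of the norm -/
def SaSur2 : Prop := ∀ (b : K) (ρ : Gam →* SD), b ≠ 0 → Cl F j b ρ →
  (Function.Surjective ρ ↔ ¬ IsSquare (nmK b) ∧ ¬ IsSquare (F.d * nmK b))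

/-! ### types and ramification -/

/-- A14: exponents and the norm at the unramified primes -/
def SaTri : Prop := ∀ p : ℕ, p.Prime → ¬ p ∣ 2 * F.d → ∀ b : K, b ≠ 0 →
  (∀ P : HeightOneSpectrum (𝓞 K), 1 ≤ ord P (p : K) →
    padicValRat p (nmK b) = ord P b + ord P (F.cj b)) ∧
  (TyA F p b ∨ TyB F p b ∨ TyC F p b) ∧
  (TyB F p b → ∃ P : HeightOneSpectrum (𝓞 K), 1 ≤ ord P (p : K) ∧ nP P = p ∧ Odd (ord P b) ∧
    Even (ord P (F.cj b)) ∧ ∀ P' : HeightOneSpectrum (𝓞 K), 1 ≤ ord P' (p : K) → P' ≠ P →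
      Even (ord P' b))

/-- A15: exponents and the norm at the ramified primes -/
def SaTriR : Prop := ∀ p : ℕ, p.Prime → p ≠ 2 → p ∣ F.d → ∀ b : K, b ≠ 0 →
  ∀ P : HeightOneSpectrum (𝓞 K), 1 ≤ ord P (p : K) →
    padicValRat p (nmK b) = ord P b ∧ ∀ P' : HeightOneSpectrum (𝓞 K), 1 ≤ ord P' (p : K) → P' = P

/-- A16: the field of the square root is unramified at the primes of the first type -/
def SaUnr : Prop := ∀ (b : K) (θ : Om), b ≠ 0 → θ ^ 2 = j b → ∀ p : ℕ, p.Prime → p ≠ 2 →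
  TyA F p b → (dabs (IntermediateField.adjoin ℚ {j F.dl, θ})).factorization p = 0

/-- A17: the classes of the tame generators -/
def SaTyp : Prop := ∀ (b : K) (ρ : Gam →* SD), b ≠ 0 → Cl F j b ρ → ∀ p : ℕ, p.Prime → p ≠ 2 →
  (TyA F p b → ρ (tau p) = 1 ∨ ρ (tau p) = SD.zz 1) ∧ (TyB F p b → SD.clC (ρ (tau p))) ∧
  (TyC F p b → SD.clT (ρ (tau p))) ∧ (TyS F p b → SD.clS (ρ (tau p))) ∧
  (TyR F p b → SD.clR (ρ (tau p)))

/-! ### twists -/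

/-- A18: twists and conjugates are attached to the same element -/
def SaTw : Prop := ∀ (b : K) (ρ : Gam →* SD), b ≠ 0 → Cl F j b ρ →
  (∀ u : ℕ →₀ ZMod 2, Cl F j b (tw ρ u)) ∧ Cl F j b (cjs ρ)

/-- A18: all homomorphisms attached to an element -/
def SaTwEx : Prop := ∀ (b : K) (ρ ρ' : Gam →* SD), b ≠ 0 → Cl F j b ρ → Cl F j b ρ' →
  ∃ u : ℕ →₀ ZMod 2, adm u ∧ (ρ' = tw ρ u ∨ ρ' = tw (cjs ρ) u)

/-- A19: normalised lifts -/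
def SaNor : Prop := ∀ (b : K) (ρ : Gam →* SD), b ≠ 0 → Cl F j b ρ →
  ∃ u : ℕ →₀ ZMod 2, adm u ∧ ∀ p : ℕ, p.Prime → p ≠ 2 → TyA F p b → tw ρ u (tau p) = 1

/-- A22: the local count at two is locally constant -/
def SaMu : Prop := ∀ (b l z : K) (ρ ρ' : Gam →* SD), b ≠ 0 → l ≠ 0 → z ≠ 0 → Cong 8 l →
  ρ ∈ Hs → ρ' ∈ Hs → Cl F j b ρ → Cl F j (l * b * z ^ 2) ρ' → ∀ c : ℕ, muc ρ c = muc ρ' c

/-! ### counting -/

/-- A24: the parameters in terms of the types -/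
def SaHasO : Prop := ∀ (o : Out) (b : K) (ρ : Gam →* SD), WfO o → o.d = F.d → b ≠ 0 → ρ ∈ Hs →
  Cl F j b ρ → (HasO o ρ ↔ (∀ p : ℕ, p.Prime → p ≠ 2 → OTy F o b p) ∧
    (∀ p : ℕ, p.Prime → p ≠ 2 → TyA F p b → (ρ (tau p) = SD.zz 1 ↔ p ∣ o.w)) ∧
    (dsc ρ).factorization 2 = o.c)

/-- A26: the number of homomorphisms attached to an element -/
def SaFib : Prop := ∀ (o : Out) (b : K) (ρ : Gam →* SD), WfO o → o.d = F.d → b ≠ 0 → ρ ∈ Hs →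
  Cl F j b ρ → (∀ p : ℕ, p.Prime → p ≠ 2 → OTy F o b p) →
  {ρ' : Gam →* SD | ρ' ∈ Hs ∧ Cl F j b ρ' ∧ HasO o ρ'}.ncard =
    2 * 2 ^ {p : ℕ | p.Prime ∧ p ≠ 2 ∧ ¬ TyA F p b}.ncard * muc ρ o.c ∧
  {ρ' : Gam →* SD | ρ' ∈ Hs ∧ Cl F j b ρ' ∧ HasO o ρ'}.Finite

/-- A26: finiteness of the fibre -/
def SaFibF : Prop := ∀ (o : Out) (b : K), WfO o → o.d = F.d → b ≠ 0 →
  {ρ : Gam →* SD | ρ ∈ Hs ∧ Cl F j b ρ ∧ HasO o ρ}.Finite

/-- A25: almost all odd primes have the first type -/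
def SaQFin : Prop := ∀ b : K, b ≠ 0 → {p : ℕ | p.Prime ∧ p ≠ 2 ∧ ¬ TyA F p b}.Finite

/-- A27: types of the elements of a class -/
def SaInB : Prop := ∀ (o : Out) (S : Finset (HeightOneSpectrum (𝓞 K))) (b : K), WfO o →
  o.d = F.d → Good o.m S → b ≠ 0 → InB o.m S b →
  (∀ P ∈ S, Odd (ord P b) ∧ Even (ord P (F.cj b)) ∧ ¬ nP P ∣ 2 * F.d ∧ ¬ nP P ∣ o.m) ∧
  ∀ p : ℕ, p.Prime → ¬ p ∣ o.m → ¬ TyC F p b ∧ (TyB F p b ↔ ∃ P ∈ S, nP P = p) ∧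
    (TyA F p b ↔ ¬ ∃ P ∈ S, nP P = p)

/-- A28: the good set of a homomorphism -/
def SaGood : Prop := ∀ (o : Out) (b : K) (ρ : Gam →* SD), WfO o → o.d = F.d → b ≠ 0 → ρ ∈ Hs →
  Cl F j b ρ → HasO o ρ → ∃ S : Finset (HeightOneSpectrum (𝓞 K)), Good o.m S ∧ InB o.m S b ∧
    nS S = pcl SD.clC ρ

/-- A29: the number of homomorphisms attached to an element, with the local factor -/
def SaFib2 : Prop := ∀ (o : Out) (S : Finset (HeightOneSpectrum (𝓞 K))) (b : K), WfO o →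
  o.d = F.d → Good o.m S → S.Nonempty → b ≠ 0 → InB o.m S b →
  ({ρ : Gam →* SD | ρ ∈ Hs ∧ Cl F j b ρ ∧ HasO o ρ}.ncard : ℝ) =
    Phi F j o b * ∏ P ∈ S, (1 + (chP P (F.cj b) : ℝ))

/-- A29: upper bound for the fibre -/
def SaFib3 : Prop := ∀ (o : Out) (b : K), WfO o → o.d = F.d → b ≠ 0 → InB o.m ∅ b →
  {ρ : Gam →* SD | ρ ∈ Hs ∧ Cl F j b ρ ∧ HasO o ρ}.Finite ∧
  {ρ : Gam →* SD | ρ ∈ Hs ∧ Cl F j b ρ ∧ HasO o ρ}.ncard ≤ 8 * 2 ^ o.m.primeFactors.card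

/-- A30: the local count in terms of a homomorphism -/
def SaMh : Prop := ∀ (m c : ℕ) (b l z : K) (ρ : Gam →* SD), m ≠ 0 → 8 ∣ m → b ≠ 0 → l ≠ 0 →
  z ≠ 0 → Cong m l → TotPos l → ρ ∈ Hs → Cl F j (l * b * z ^ 2) ρ → mh F j m c b = muc ρ c

/-- A30: the local count is local -/
def SaMhL : Prop := ∀ m c : ℕ, m ≠ 0 → 8 ∣ m → MLoc m (fun b : K => (mh F j m c b : ℝ))

/-- A31: the weight is local -/
def SaLoc : Prop := ∀ o : Out, WfO o → o.d = F.d → MLoc o.m (Psi F j o)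

/-- A31: the weight is bounded -/
def SaBd : Prop := ∀ o : Out, WfO o → o.d = F.d → ∀ b : K,
  0 ≤ Psi F j o b ∧ Psi F j o b ≤ 64 * 2 ^ o.m.primeFactors.card

open Classical in
/-- A33: the product over the good set and the sum over the pairs -/
def SaPair (K : Type) [Field K] [NumberField K] : Prop := ∀ (m : ℕ) (S : Finset (HeightOneSpectrum (𝓞 K))) (γ : K), Good m S →
  S.Nonempty → ∏ P ∈ S, (1 + (chP P γ : ℝ)) =
    ∑ e ∈ S.powerset, if nS e < nS (S \ e) then (1 + (chS S γ : ℝ)) * (chS e γ : ℝ) else 0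

/-- A34: finitely many good sets of bounded norm -/
def SaGLF (K : Type) [Field K] [NumberField K] : Prop := ∀ (m : ℕ) (x : ℝ), (GoodLe K m x).Finite

/-- A34: representatives -/
def SaRp (K : Type) [Field K] [NumberField K] : Prop := (∀ q : SqC K, rp q ≠ 0) ∧
  (∀ b : K, b ≠ 0 → ∃ q : SqC K, ∃ z : K, z ≠ 0 ∧ rp q = b * z ^ 2) ∧
  ∀ (q q' : SqC K) (z : K), z ≠ 0 → rp q' = rp q * z ^ 2 → q = q'

/-- A35: the homomorphisms with given parameters -/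
def SaDec : Prop := ∀ (o : Out) (lo : ℕ) (x : ℝ), WfO o → o.d = F.d →
  {ρ : Gam →* SD | ρ ∈ Hs ∧ HasO o ρ ∧ lo < pcl SD.clC ρ ∧ (pcl SD.clC ρ : ℝ) ≤ x}.Finite ∧
  {ρ : Gam →* SD | ρ ∈ Hs ∧ HasO o ρ ∧ lo < pcl SD.clC ρ ∧ (pcl SD.clC ρ : ℝ) ≤ x}.ncard =
    ∑ᶠ S ∈ {S | S ∈ GoodLe K o.m x ∧ lo < nS S}, ∑ᶠ q ∈ BB o.m S,
      {ρ : Gam →* SD | ρ ∈ Hs ∧ Cl F j (rp q) ρ ∧ HasO o ρ}.ncard

/-- A36: the sum over the classes -/
def SaSum : Prop := ∀ o : Out, WfO o → o.d = F.d → ∀ x : ℝ, 1 ≤ x →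
  (AO o 1 x : ℝ) = TT F o.m (Psi F j o) x

/-- A32: positivity -/
def SaPos : Prop := ∀ o : Out, WfO o → o.d = F.d → (∃ ρ ∈ Hs, HasO o ρ) →
  ∃ (b : K) (S : Finset (HeightOneSpectrum (𝓞 K))), b ≠ 0 ∧ 0 < Psi F j o b ∧ Good o.m S ∧
    ∀ P : HeightOneSpectrum (𝓞 K), ¬ 1 ≤ ord P (o.m : K) →
      (P ∈ S → ((ord P b : ℤ) : ZMod 2) = 1) ∧ (P ∉ S → ((ord P b : ℤ) : ZMod 2) = 0)

end

/-- A18: composition of twists -/
def SaTwAdd : Prop := ∀ (ρ : Gam →* SD) (u u' : ℕ →₀ ZMod 2), tw (tw ρ u) u' = tw ρ (u + u') ∧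
  cjs (tw ρ u) = tw (cjs ρ) u

/-- A18: twists are different -/
def SaTwInj : Prop := ∀ (ρ : Gam →* SD) (u u' : ℕ →₀ ZMod 2), adm u → adm u' →
  tw ρ u = tw ρ u' → u = u'

/-- A18: twists at the tame generators -/
def SaTwT : Prop := ∀ (ρ : Gam →* SD) (u : ℕ →₀ ZMod 2), adm u → ∀ p : ℕ, p.Prime → p ≠ 2 →
  tw ρ u (tau p) = ρ (tau p) * SD.zz (u p)

/-- A18: twists of surjective homomorphisms -/
def SaTwS : Prop := ∀ ρ ∈ Hs, (∀ u : ℕ →₀ ZMod 2, tw ρ u ∈ Hs) ∧ cjs ρ ∈ Hs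

/-- A20: finitely many ramified primes -/
def SaFinR : Prop := ∀ ρ : Gam →* SD, IsLocallyConstant ρ →
  {p : ℕ | p.Prime ∧ p ≠ 2 ∧ ρ (tau p) ≠ 1}.Finite

/-- A20: the exponents of the discriminant at the odd primes -/
def SaDsc : Prop := ∀ ρ ∈ Hs, dsc ρ ≠ 0 ∧
  ∀ p : ℕ, p.Prime → p ≠ 2 → (dsc ρ).factorization p = hind SD.H0 (ρ (tau p))

/-- A21: the local lemma at two, with approximate square roots -/
def SaTwo : Prop := ∀ (U : Subgroup Gam) [U.Normal], IsOpen (U : Set Gam) →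
  (∀ σ ∈ U, chi (-1) σ = 0) → (∀ σ ∈ U, chi 2 σ = 0) →
    ∃ I Dc : Subgroup Gam, U ≤ I ∧ I ≤ Dc ∧
      (∀ (G : Type) [Group G] [Finite G] (ρ ρ' : Gam →* G) (H : Subgroup G) (g : G),
        U ≤ ρ.ker → U ≤ ρ'.ker → Function.Surjective ρ → Function.Surjective ρ' →
        (∀ σ ∈ I, ρ' σ = g * ρ σ * g⁻¹) →
        (dabs (fld (H.comap ρ))).factorization 2 = (dabs (fld (H.comap ρ'))).factorization 2) ∧
      (∀ m : ℤ, m % 4 = 1 → (∀ σ ∈ U, chi m σ = 0) → ∀ σ ∈ I, chi m σ = 0) ∧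
      (∀ h : Gam → ZMod 2, (∀ σ ∈ Dc, ∀ τ ∈ Dc, h (σ * τ) = h σ + h τ) →
        (∀ σ ∈ U, h σ = 0) → ∃ x y : ZMod 2, ∀ σ ∈ I, h σ = x * chi (-1) σ + y * chi 2 σ) ∧
      ∃ A : Set Om, (∀ σ ∈ Dc, ∀ θ ∈ A, σ θ ∈ A) ∧ (∀ θ ∈ A, -θ ∉ A) ∧
        ∀ θ : Om, (∀ σ ∈ U, σ θ = θ) → (∃ (s : ℕ) (y : Om), Odd s ∧ IsIntegral ℤ y ∧
          (s : Om) * (θ ^ 2 - 1) = 8 * y) → θ ∈ A ∨ -θ ∈ A

/-- A23: the exponent at two of a twist -/
def SaV2 : Prop := ∀ ρ ∈ Hs, ∀ u : ℕ →₀ ZMod 2, adm u →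
  (dsc (tw ρ u)).factorization 2 = (dsc (tw ρ (z12 (u 1) (u 2)))).factorization 2

/-- A24: the products of the primes in a class -/
def SaPcl : Prop := ∀ (ρ : Gam →* SD) (C : SD → Prop), IsLocallyConstant ρ → ¬ C 1 →
  Squarefree (2 * pcl C ρ) ∧ ∀ p : ℕ, p.Prime → p ≠ 2 → (p ∣ pcl C ρ ↔ C (ρ (tau p)))

/-- A25: the number of admissible parameters -/
def SaCntU : Prop := ∀ (Q : Finset ℕ) (w : ℕ) (M : Set (ZMod 2 × ZMod 2)), w ≠ 0 →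
  (∀ p ∈ Q, p.Prime ∧ p ≠ 2) →
  {u : ℕ →₀ ZMod 2 | adm u ∧ (u 1, u 2) ∈ M ∧ ∀ p : ℕ, p.Prime → p ≠ 2 → p ∉ Q →
    (u p = 1 ↔ p ∣ w)}.Finite ∧
  {u : ℕ →₀ ZMod 2 | adm u ∧ (u 1, u 2) ∈ M ∧ ∀ p : ℕ, p.Prime → p ≠ 2 → p ∉ Q →
    (u p = 1 ↔ p ∣ w)}.ncard = 2 ^ Q.card * M.ncard

end Pool.Agent.H32.MA
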