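import Pool.Agent.H32.MA.AStm
import Pool.Agent.H32.MA.RFinal

/-!
# Project MA9 (MP_a9b340), block A, row A36: the sum over the classes (helper33)
-/

set_option autoImplicit false

open scoped BigOperators
open NumberField IsDedekindDomain

namespace Pool.Agent.H32.MA

open Pool.Agent.H98.MK (Om Gam dabs fld chi dd adm par lg par_hom par_lc z12)
open Pool.Agent.H98.MF (ord)
open Pool.Agent.H98.ML (hind norb tau IsTau)

private theorem a36_m_ne {o : Out} (h : WfO o) : o.m ≠ 0 := by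
  have h1 : o.d ≠ 0 := h.sqd.ne_zero
  have h2 : o.t ≠ 0 := fun h0 => h.sqt.ne_zero (by rw [h0, mul_zero])
  have h3 : o.w ≠ 0 := fun h0 => h.sqw.ne_zero (by rw [h0, mul_zero])
  unfold Out.m
  positivity

private theorem a36_dvd {o : Out} : 8 * o.d ∣ o.m := by
  unfold Out.m
  exact Dvd.dvd.mul_right (Dvd.dvd.mul_right dvd_rfl _) _

private theorem a36_nP {K : Type} [Field K] [NumberField K] (P : HeightOneSpectrum (𝓞 K)) :
    2 ≤ nP P := by
  have h1 : Ideal.absNorm P.asIdeal ≠ 0 := by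
    rw [Ne, Ideal.absNorm_eq_zero_iff]; exact P.ne_bot
  have h2 : Ideal.absNorm P.asIdeal ≠ 1 := by
    rw [Ne, Ideal.absNorm_eq_one_iff]; exact P.isPrime.ne_top
  unfold nP
  omega

private theorem a36_nS {K : Type} [Field K] [NumberField K]
    (S : Finset (HeightOneSpectrum (𝓞 K))) : 1 < nS S ↔ S.Nonempty := by
  constructor
  · intro h
    by_contra h1
    rw [Finset.not_nonempty_iff_eq_empty] at h1
    rw [h1] at h
    simp [nS] at h
  · rintro ⟨P, hP⟩
    have h1 : nP P ∣ nS S := Finset.dvd_prod_of_mem _ hP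
    have h2 : 0 < nS S := Finset.prod_pos fun Q _ => lt_of_lt_of_le two_pos (a36_nP Q)
    exact lt_of_lt_of_le (lt_of_lt_of_le one_lt_two (a36_nP P)) (Nat.le_of_dvd h2 h1)

theorem saSum {K : Type} [Field K] [NumberField K] (F : QF K) (j : K →+* Om) (hD : SaDec F j)
    (hF : SaFib2 F j) (hP : SaPair K) (hR : SaRp K) (hInB : SaInB F) (hBB : StmBB)
    (hGL : SaGLF K) : SaSum F j := by
  classical
  intro o ho hd x hx
  have hm0 : o.m ≠ 0 := a36_m_ne ho
  have hdv : 8 * F.d ∣ o.m := hd ▸ a36_dvd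
  obtain ⟨-, hcard⟩ := hD o 1 x ho hd
  have hAO : AO o 1 x = ∑ᶠ S ∈ {S | S ∈ GoodLe K o.m x ∧ 1 < nS S}, ∑ᶠ q ∈ BB o.m S,
      {ρ : Gam →* SD | ρ ∈ Hs ∧ Cl F j (rp q) ρ ∧ HasO o ρ}.ncard := hcard
  have hfin : {S | S ∈ GoodLe K o.m x ∧ 1 < nS S}.Finite :=
    (hGL o.m x).subset fun S h => h.1
  have hbb : ∀ S : Finset (HeightOneSpectrum (𝓞 K)), (BB o.m S).Finite :=
    fun S => (hBB K F o.m hm0 hdv S).1
  -- the sum `TT` over the nonempty sets
  have hTT : TT F o.m (Psi F j o) x = ∑ᶠ S ∈ {S | S ∈ GoodLe K o.m x ∧ 1 < nS S},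
      ∑ e ∈ S.powerset, if nS e < nS (S \ e) then GG F o.m (Psi F j o) e (S \ e) else 0 := by
    unfold TT
    rw [finsum_mem_eq_finite_toFinset_sum _ (hGL o.m x),
      finsum_mem_eq_finite_toFinset_sum _ hfin]
    symm
    refine Finset.sum_subset ?_ ?_
    · intro S hS
      rw [Set.Finite.mem_toFinset] at hS ⊢
      exact hS.1
    · intro S hS hS'
      rw [Set.Finite.mem_toFinset] at hS hS'
      have h1 : ¬ 1 < nS S := fun h => hS' ⟨hS, h⟩
      rw [a36_nS, Finset.not_nonempty_iff_eq_empty] at h1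
      rw [h1]
      simp
  rw [hTT, hAO, finsum_mem_eq_finite_toFinset_sum _ hfin,
    finsum_mem_eq_finite_toFinset_sum _ hfin, Nat.cast_sum]
  refine Finset.sum_congr rfl fun S hS => ?_
  rw [Set.Finite.mem_toFinset] at hS
  have hgood : Good o.m S := hS.1.1
  have hne : S.Nonempty := (a36_nS S).1 hS.2
  rw [finsum_mem_eq_finite_toFinset_sum _ (hbb S), Nat.cast_sum]
  -- the inner sums
  have hGG : ∀ e ∈ S.powerset, GG F o.m (Psi F j o) e (S \ e) =
      ∑ q ∈ (hbb S).toFinset, Psi F j o (rp q) * (chS e (F.cj (rp q)) : ℝ) := by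
    intro e he
    unfold GG
    rw [Finset.union_sdiff_of_subset (Finset.mem_powerset.1 he),
      finsum_mem_eq_finite_toFinset_sum _ (hbb S)]
  have h1 : ∑ e ∈ S.powerset, (if nS e < nS (S \ e) then
      GG F o.m (Psi F j o) e (S \ e) else 0) =
      ∑ q ∈ (hbb S).toFinset, ∑ e ∈ S.powerset, if nS e < nS (S \ e) then
        Psi F j o (rp q) * (chS e (F.cj (rp q)) : ℝ) else 0 := by
    rw [Finset.sum_comm]
    refine Finset.sum_congr rfl fun e he => ?_
    split_ifs with h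
    · exact hGG e he
    · rw [Finset.sum_const_zero]
  rw [h1]
  refine Finset.sum_congr rfl fun q hq => ?_
  rw [Set.Finite.mem_toFinset] at hq
  have hq0 : rp q ≠ 0 := hR.1 q
  have hin : InB o.m S (rp q) := hq
  rw [hF o S (rp q) ho hd hgood hne hq0 hin, hP o.m S (F.cj (rp q)) hgood hne, Finset.mul_sum]
  have hodd : ∀ P : HeightOneSpectrum (𝓞 K), ¬ 1 ≤ ord P (o.m : K) →
      (Odd (ord P (rp q)) ↔ P ∈ S) := by
    intro P hPm
    have h2 := hin P hPm
    rw [← ZMod.intCast_eq_one_iff_odd, h2]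
    by_cases h3 : P ∈ S
    · simp [h3]
    · simp [h3]
  have hspn : spn F o.m (rp q) = chS S (F.cj (rp q)) :=
    R.chS F o.m hm0 hdv S hgood (rp q) hq0 hodd
  refine Finset.sum_congr rfl fun e _ => ?_
  split_ifs with h
  · unfold Psi
    rw [hspn]
    ring
  · rw [mul_zero]

end Pool.Agent.H32.MA
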