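import Pool.Agent.H32.MA.AStm
import Pool.Agent.H98.MK.ParClass
import Pool.Agent.H98.ML.ExistsTau

/-!
# Project MA9 (MP_a9b340), block A, row A18: twists
-/

set_option autoImplicit false

open scoped BigOperators
open NumberField IsDedekindDomain

namespace Pool.Agent.H32.MA

open Pool.Agent.H98.MK (Om Gam dabs fld chi dd adm par lg par_hom par_lc z12)
open Pool.Agent.H98.MF (ord)
open Pool.Agent.H98.ML (hind norb tau IsTau)

theorem a18_zz_inj (x y : ZMod 2) (h : SD.zz x = SD.zz y) : x = y := by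
  revert x y; decide

theorem a18_tw_lc (ρ : Gam →* SD) (h : IsLocallyConstant ρ) (u : ℕ →₀ ZMod 2) :
    IsLocallyConstant (tw ρ u) :=
  h.comp₂ (par_lc u) (fun g x => g * SD.zz x)

theorem a18_cjs_lc (ρ : Gam →* SD) (h : IsLocallyConstant ρ) : IsLocallyConstant (cjs ρ) :=
  h.comp (fun g => SD.ss * g * SD.ss⁻¹)

/-- the parameters as functions on one point -/
noncomputable def a18_up (u : ℕ →₀ ZMod 2) : ℕ →₀ (Fin 1 → ZMod 2) :=
  u.mapRange (fun w _ => w) rfl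

/-- the inverse -/
noncomputable def a18_dn (x : ℕ →₀ (Fin 1 → ZMod 2)) : ℕ →₀ ZMod 2 :=
  x.mapRange (fun v => v 0) rfl

theorem a18_par_dn (x : ℕ →₀ (Fin 1 → ZMod 2)) (σ : Gam) : par (a18_dn x) σ = par x σ 0 := by
  unfold par a18_dn
  rw [Finsupp.sum_mapRange_index (fun i => smul_zero _), Finsupp.sum, Finsupp.sum,
    Finset.sum_apply]
  rfl

theorem a18_dn_up (u : ℕ →₀ ZMod 2) : a18_dn (a18_up u) = u := by
  ext i
  rfl

theorem a18_up_dn (x : ℕ →₀ (Fin 1 → ZMod 2)) : a18_up (a18_dn x) = x := by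
  ext i j
  have : j = 0 := Subsingleton.elim _ _
  subst this
  rfl

theorem a18_adm_up (u : ℕ →₀ ZMod 2) (h : adm u) : adm (a18_up u) := by
  intro i hi
  apply h i
  intro h0
  apply hi
  show (fun _ : Fin 1 => u i) = 0
  rw [h0]
  rfl

theorem a18_adm_dn (x : ℕ →₀ (Fin 1 → ZMod 2)) (h : adm x) : adm (a18_dn x) := by
  intro i hi
  apply h i
  intro h0
  apply hi
  show x i 0 = 0
  rw [h0]
  rfl

/-- homomorphisms with the same image modulo the centre -/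
theorem a18_core (ρ ρ' : Gam →* SD) (h1 : IsLocallyConstant ρ) (h2 : IsLocallyConstant ρ')
    (ha : ∀ σ, (ρ σ).a = (ρ' σ).a) (hd : ∀ σ, (ρ σ).pd = (ρ' σ).pd)
    (hf : ∀ σ, (ρ σ).pf = (ρ' σ).pf) : ∃ u : ℕ →₀ ZMod 2, adm u ∧ ρ' = tw ρ u := by
  set h : Gam → ZMod 2 := fun σ => (ρ σ).ph + (ρ' σ).ph with hh
  have hz : ∀ σ, ρ' σ = ρ σ * SD.zz (h σ) := fun σ =>
    SD.eq_mul_zz (ρ σ) (ρ' σ) (ha σ) (hd σ) (hf σ)
  have hadd : ∀ σ τ, h (σ * τ) = h σ + h τ := by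
    intro σ τ
    apply a18_zz_inj
    have h3 := hz (σ * τ)
    rw [map_mul, map_mul, hz σ, hz τ] at h3
    have h4 : ρ σ * SD.zz (h σ) * (ρ τ * SD.zz (h τ)) = ρ σ * ρ τ * SD.zz (h σ + h τ) := by
      rw [SD.zz_add (h σ) (h τ)]
      calc ρ σ * SD.zz (h σ) * (ρ τ * SD.zz (h τ))
          = ρ σ * (SD.zz (h σ) * ρ τ) * SD.zz (h τ) := by simp only [mul_assoc]
        _ = ρ σ * (ρ τ * SD.zz (h σ)) * SD.zz (h τ) := by rw [SD.zz_comm (h σ) (ρ τ)]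
        _ = ρ σ * ρ τ * (SD.zz (h σ) * SD.zz (h τ)) := by simp only [mul_assoc]
    rw [h4] at h3
    exact (mul_left_cancel h3).symm
  have hlc : IsLocallyConstant (fun σ => (fun _ : Fin 1 => h σ)) :=
    h1.comp₂ h2 (fun g g' => (fun _ : Fin 1 => g.ph + g'.ph))
  obtain ⟨x, hx, hpx⟩ := Pool.Agent.H98.MK.par_exists (k := 1) (fun σ _ => h σ) hlc
    (fun σ τ => by funext _; exact hadd σ τ)
  refine ⟨a18_dn x, a18_adm_dn x hx, ?_⟩
  ext1 σ
  rw [tw_apply, a18_par_dn, hpx, hz σ]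

theorem saTw {K : Type} [Field K] [NumberField K] (F : QF K) (j : K →+* Om) (h3 : SaFTwo F j) :
    SaTw F j := by
  intro b ρ hb hcl
  refine ⟨fun u => ⟨a18_tw_lc ρ hcl.lc u, fun σ => ?_, ?_⟩, ⟨a18_cjs_lc ρ hcl.lc, fun σ => ?_, ?_⟩⟩
  · rw [tw_apply, SD.mul_zz_pd, hcl.pd]
  · have : (fun σ => (tw ρ u σ).pf) = fun σ => (ρ σ).pf := by
      funext σ; rw [tw_apply, SD.mul_zz_pf]
    rw [this]
    exact hcl.pf
  · rw [cjs_apply, SD.ss_conj_pd, hcl.pd]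
  · refine (h3 b _ _ hb hcl.pf).2 (Or.inr ?_)
    funext σ
    rw [cjs_apply, SD.ss_conj_pf, hcl.pd]

theorem saTwEx {K : Type} [Field K] [NumberField K] (F : QF K) (j : K →+* Om) (h3 : SaFTwo F j)
    (hA : SaA F j) : SaTwEx F j := by
  intro b ρ ρ' hb hcl hcl'
  rcases (h3 b _ _ hb hcl.pf).1 hcl'.pf with h | h
  · obtain ⟨u, hu, hu2⟩ := a18_core ρ ρ' hcl.lc hcl'.lc
      (fun σ => by rw [hA b ρ hb hcl, hA b ρ' hb hcl'])
      (fun σ => by rw [hcl.pd, hcl'.pd]) (fun σ => (congrFun h σ).symm)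
    exact ⟨u, hu, Or.inl hu2⟩
  · obtain ⟨u, hu, hu2⟩ := a18_core (cjs ρ) ρ' (a18_cjs_lc ρ hcl.lc) hcl'.lc
      (fun σ => by rw [cjs_apply, SD.ss_conj_a, hA b ρ hb hcl, hA b ρ' hb hcl'])
      (fun σ => by rw [cjs_apply, SD.ss_conj_pd, hcl.pd, hcl'.pd])
      (fun σ => by
        rw [cjs_apply, SD.ss_conj_pf, hcl.pd]
        exact (congrFun h σ).symm)
    exact ⟨u, hu, Or.inr hu2⟩

theorem saTwAdd : SaTwAdd := by
  intro ρ u u'
  constructor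
  · ext1 σ
    rw [tw_apply, tw_apply, tw_apply, Pool.Agent.H98.MK.par_add, SD.zz_add, mul_assoc]
  · ext1 σ
    rw [cjs_apply, tw_apply, tw_apply, cjs_apply]
    calc SD.ss * (ρ σ * SD.zz (par u σ)) * SD.ss⁻¹
        = SD.ss * ρ σ * (SD.zz (par u σ) * SD.ss⁻¹) := by simp only [mul_assoc]
      _ = SD.ss * ρ σ * (SD.ss⁻¹ * SD.zz (par u σ)) := by rw [SD.zz_comm]
      _ = _ := by simp only [mul_assoc]

theorem saTwInj : SaTwInj := by
  intro ρ u u' hu hu' h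
  have h1 : ∀ σ, par u σ = par u' σ := by
    intro σ
    have h2 := DFunLike.congr_fun h σ
    rw [tw_apply, tw_apply] at h2
    exact a18_zz_inj _ _ (mul_left_cancel h2)
  have h3 : par (a18_up u) = par (a18_up u') := by
    funext σ i
    have : i = 0 := Subsingleton.elim _ _
    subst this
    rw [← a18_par_dn, ← a18_par_dn, a18_dn_up, a18_dn_up, h1]
  have h4 := Pool.Agent.H98.MK.par_injective (k := 1) _ _ (a18_adm_up u hu) (a18_adm_up u' hu') h3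
  rw [← a18_dn_up u, h4, a18_dn_up]

theorem a18_dd (i p : ℕ) (hp : p.Prime) (hp2 : p ≠ 2) (hi : i = 1 ∨ i.Prime) (hip : i ≠ p) :
    ¬ (p : ℤ) ∣ dd i := by
  intro h
  have h0 : ¬ p ∣ i := by
    rcases hi with rfl | hi
    · exact hp.one_lt.ne' ∘ Nat.dvd_one.1
    · intro h1
      exact hip ((Nat.prime_dvd_prime_iff_eq hp hi).1 h1).symm
  unfold dd at h
  split_ifs at h with h1 h2 h3
  · rw [Int.dvd_neg] at h
    exact hp.one_lt.ne' (Nat.dvd_one.1 (by exact_mod_cast h))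
  · exact hp2 ((Nat.prime_dvd_prime_iff_eq hp Nat.prime_two).1 (by exact_mod_cast h))
  · exact h0 (by exact_mod_cast h)
  · rw [Int.dvd_neg] at h
    exact h0 (by exact_mod_cast h)

theorem a18_tau (p : ℕ) (hp : p.Prime) (hp2 : p ≠ 2) : ∃ φ, IsTau p (tau p) φ := by
  haveI : Fact p.Prime := ⟨hp⟩
  have h := Pool.Agent.H98.ML.exists_tau p hp2
  unfold tau
  rw [dif_pos h]
  exact h.choose_spec

theorem saTwT : SaTwT := by
  intro ρ u hu p hp hp2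
  rw [tw_apply]
  congr 2
  obtain ⟨φ, ht⟩ := a18_tau p hp hp2
  by_cases hup : u p = 0
  · rw [hup, par, Finsupp.sum]
    refine Finset.sum_eq_zero fun i hi => ?_
    have hi0 := Finsupp.mem_support_iff.1 hi
    have hip : i ≠ p := by rintro rfl; exact hi0 hup
    rw [(ht.chi0 (dd i) (a18_dd i p hp hp2 (hu i hi0) hip)).1, zero_smul]
  · rw [par, Finsupp.sum, Finset.sum_eq_single_of_mem p (Finsupp.mem_support_iff.2 hup), ht.chi1,
      one_smul]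
    intro i hi hip
    rw [(ht.chi0 (dd i) (a18_dd i p hp hp2 (hu i (Finsupp.mem_support_iff.1 hi)) hip)).1,
      zero_smul]

theorem saTwS (hS : SaSurj) : SaTwS := by
  intro ρ hρ
  obtain ⟨⟨σ, hσ1, hσ2⟩, τ, hτ1, hτ2⟩ := (hS ρ).1 hρ.1
  refine ⟨fun u => ⟨(hS _).2 ⟨⟨σ, ?_, ?_⟩, τ, ?_, ?_⟩, a18_tw_lc ρ hρ.2 u⟩,
    ⟨(hS _).2 ⟨⟨σ, ?_, ?_⟩, τ, ?_, ?_⟩, a18_cjs_lc ρ hρ.2⟩⟩
  · rw [tw_apply, SD.mul_zz_pd, hσ1]
  · rw [tw_apply, SD.mul_zz_a, hσ2]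
  · rw [tw_apply, SD.mul_zz_pd, hτ1]
  · rw [tw_apply, SD.mul_zz_a, hτ2]
  · rw [cjs_apply, SD.ss_conj_pd, hσ1]
  · rw [cjs_apply, SD.ss_conj_a, hσ2]
  · rw [cjs_apply, SD.ss_conj_pd, hτ1]
  · rw [cjs_apply, SD.ss_conj_a, hτ2]

end Pool.Agent.H32.MA
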