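import Pool.Agent.H32.MA.AbsL
import Pool.Agent.LX.DivBound

/-!
# Project MA9, second phase: abstract bilinear bound for multiplicative kernels (helper4)
-/

set_option autoImplicit false

open scoped BigOperators

namespace Pool.Agent.H32.MA.AB

/-- the radius of the `k`-fold products -/
def rad (c R k : ℕ) : ℕ := c * (c * R) ^ k

section

variable {A : Type} [CommRing A] {n c : ℕ}

open Classical in
/-- coefficients of the `k`-th power -/
noncomputable def cf (L : Lat A n c) (J : Finset A) (b : A → ℝ) (R : ℕ) : ℕ → A → ℝ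
  | 0 => fun x => if x = 1 then 1 else 0
  | k + 1 => fun y => ∑ x ∈ J, ∑ g ∈ bxA L (rad c R k),
      if x * g = y then b x * cf L J b R k g else 0

/-- the divisor function of the norm -/
noncomputable def tD (L : Lat A n c) (x : A) : ℝ := ((L.nrm x).divisors.card : ℝ)

variable {L : Lat A n c} {J : Finset A} {b : A → ℝ} {R : ℕ}

open Classical in
theorem cf_zero (y : A) : cf L J b R 0 y = if y = 1 then 1 else 0 := rfl

open Classical in
theorem cf_succ (k : ℕ) (y : A) : cf L J b R (k + 1) y =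
    ∑ x ∈ J, ∑ g ∈ bxA L (rad c R k), if x * g = y then b x * cf L J b R k g else 0 := rfl

theorem one_mem : (1 : A) ∈ bxA L (rad c R 0) := by
  rw [mem_bxA]
  intro i
  have h := L.one_le i
  unfold rad
  rw [pow_zero, mul_one]
  exact h

theorem mul_mem {k : ℕ} {x y : A} (hx : x ∈ bxA L R) (hy : y ∈ bxA L (rad c R k)) :
    x * y ∈ bxA L (rad c R (k + 1)) := by
  rw [mem_bxA] at hx hy ⊢
  intro i
  refine (L.mul_le x y R (rad c R k) hx hy i).trans (le_of_eq ?_)
  unfold rad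
  push_cast
  ring

/-- powers of the linear form -/
theorem cf_pow {κ : A → ℤ} (h1 : κ 1 = 1) (hmul : ∀ x y, κ (x * y) = κ x * κ y)
    (hJ : J ⊆ bxA L R) (k : ℕ) :
    (∑ x ∈ J, b x * κ x) ^ k = ∑ y ∈ bxA L (rad c R k), cf L J b R k y * κ y := by
  classical
  induction k with
  | zero =>
    rw [pow_zero, Finset.sum_eq_single 1]
    · rw [cf_zero, if_pos rfl, h1]
      norm_num
    · intro y _ hy
      rw [cf_zero, if_neg hy, zero_mul]
    · intro h
      exact absurd one_mem h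
  | succ k ih =>
    rw [pow_succ, ih, mul_comm, Finset.sum_mul_sum]
    have h2 : ∀ y ∈ bxA L (rad c R (k + 1)), cf L J b R (k + 1) y * κ y =
        ∑ x ∈ J, ∑ g ∈ bxA L (rad c R k),
          if x * g = y then b x * cf L J b R k g * κ y else 0 := by
      intro y _
      rw [cf_succ, Finset.sum_mul]
      refine Finset.sum_congr rfl fun x _ => ?_
      rw [Finset.sum_mul]
      refine Finset.sum_congr rfl fun g _ => ?_
      rw [ite_mul, zero_mul]
    rw [Finset.sum_congr rfl h2]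
    conv_rhs => rw [Finset.sum_comm]
    refine Finset.sum_congr rfl fun x hx => ?_
    conv_rhs => rw [Finset.sum_comm]
    refine Finset.sum_congr rfl fun g hg => ?_
    rw [Finset.sum_ite_eq, if_pos (mul_mem (hJ hx) hg), hmul]
    push_cast
    ring

theorem sum_abs_cf (hb : ∀ x, |b x| ≤ 1) (k : ℕ) :
    ∑ y ∈ bxA L (rad c R k), |cf L J b R k y| ≤ (J.card : ℝ) ^ k := by
  classical
  induction k with
  | zero =>
    rw [pow_zero, Finset.sum_eq_single 1]
    · rw [cf_zero, if_pos rfl, abs_one]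
    · intro y _ hy
      rw [cf_zero, if_neg hy, abs_zero]
    · intro h
      exact absurd one_mem h
  | succ k ih =>
    have h1 : ∀ y ∈ bxA L (rad c R (k + 1)), |cf L J b R (k + 1) y| ≤
        ∑ x ∈ J, ∑ g ∈ bxA L (rad c R k),
          if x * g = y then |cf L J b R k g| else 0 := by
      intro y _
      rw [cf_succ]
      refine (Finset.abs_sum_le_sum_abs _ _).trans (Finset.sum_le_sum fun x _ => ?_)
      refine (Finset.abs_sum_le_sum_abs _ _).trans (Finset.sum_le_sum fun g _ => ?_)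
      split_ifs
      · rw [abs_mul]
        exact mul_le_of_le_one_left (abs_nonneg _) (hb x)
      · rw [abs_zero]
    refine (Finset.sum_le_sum h1).trans ?_
    rw [Finset.sum_comm]
    have h2 : ∀ x ∈ J, ∑ y ∈ bxA L (rad c R (k + 1)), ∑ g ∈ bxA L (rad c R k),
        (if x * g = y then |cf L J b R k g| else 0) ≤ (J.card : ℝ) ^ k := by
      intro x _
      rw [Finset.sum_comm]
      refine (Finset.sum_le_sum fun g _ => ?_).trans ih
      rw [Finset.sum_ite_eq]
      split_ifs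
      · exact le_rfl
      · exact abs_nonneg _
    refine (Finset.sum_le_sum h2).trans ?_
    rw [Finset.sum_const, nsmul_eq_mul, pow_succ']

theorem tD_nonneg (x : A) : 0 ≤ tD L x := Nat.cast_nonneg _

/-- the number of elements whose norm divides a given norm -/
theorem card_dvd {B : ℕ} (hn : ∀ t : ℕ, 1 ≤ t →
    (J.filter fun x => L.nrm x = t).card ≤ t.divisors.card ^ B) {y : A}
    (hy : 1 ≤ L.nrm y) :
    ((J.filter fun x => L.nrm x ∣ L.nrm y).card : ℝ) ≤ tD L y ^ (B + 1) := by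
  classical
  set m := L.nrm y with hm
  have hm0 : m ≠ 0 := by omega
  have h1 : (J.filter fun x => L.nrm x ∣ m) ⊆
      m.divisors.biUnion fun t => J.filter fun x => L.nrm x = t := by
    intro x hx
    rw [Finset.mem_filter] at hx
    rw [Finset.mem_biUnion]
    exact ⟨L.nrm x, Nat.mem_divisors.2 ⟨hx.2, hm0⟩, Finset.mem_filter.2 ⟨hx.1, rfl⟩⟩
  have h2 : (J.filter fun x => L.nrm x ∣ m).card ≤ m.divisors.card * m.divisors.card ^ B := by
    refine (Finset.card_le_card h1).trans (Finset.card_biUnion_le.trans ?_)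
    refine (Finset.sum_le_sum (g := fun _ => m.divisors.card ^ B) fun t htm => ?_).trans ?_
    · have h3 := Nat.mem_divisors.1 htm
      refine (hn t (Nat.pos_of_ne_zero ?_)).trans
        (Nat.pow_le_pow_left (Finset.card_le_card (Nat.divisors_subset_of_dvd hm0 h3.1)) B)
      rintro rfl
      exact hm0 (Nat.eq_zero_of_zero_dvd h3.1)
    · rw [Finset.sum_const, smul_eq_mul]
  unfold tD
  rw [← hm, pow_succ']
  exact_mod_cast h2

theorem tD_mono {x y : A} (hy : 1 ≤ L.nrm y) (h : L.nrm x ∣ L.nrm y) : tD L x ≤ tD L y := by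
  unfold tD
  have := Finset.card_le_card (Nat.divisors_subset_of_dvd (by omega : L.nrm y ≠ 0) h)
  exact_mod_cast this

/-- the multiplicities -/
theorem abs_cf_le [IsDomain A] {B : ℕ} (hb : ∀ x, |b x| ≤ 1) (hJ0 : (0 : A) ∉ J)
    (hn : ∀ t : ℕ, 1 ≤ t →
      (J.filter fun x => L.nrm x = t).card ≤ t.divisors.card ^ B) (k : ℕ) :
    ∀ y : A, (y = 0 → cf L J b R k y = 0) ∧
      (y ≠ 0 → |cf L J b R k y| ≤ tD L y ^ ((B + 1) * k)) := by
  classical
  induction k with
  | zero =>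
    intro y
    constructor
    · rintro rfl
      rw [cf_zero, if_neg zero_ne_one]
    · intro _
      rw [mul_zero, pow_zero, cf_zero]
      split_ifs <;> norm_num
  | succ k ih =>
    intro y
    constructor
    · rintro rfl
      rw [cf_succ]
      refine Finset.sum_eq_zero fun x hx => Finset.sum_eq_zero fun g _ => ?_
      split_ifs with h
      · by_cases hg : g = 0
        · rw [(ih g).1 hg, mul_zero]
        · rcases mul_eq_zero.1 h with h' | h'
          · exact absurd (h' ▸ hx) hJ0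
          · exact absurd h' hg
      · rfl
    · intro hy
      have hny := L.nrm_pos y hy
      have h1 : |cf L J b R (k + 1) y| ≤ ∑ x ∈ J.filter (fun x => L.nrm x ∣ L.nrm y),
          tD L y ^ ((B + 1) * k) := by
        rw [cf_succ, Finset.sum_filter]
        refine (Finset.abs_sum_le_sum_abs _ _).trans (Finset.sum_le_sum fun x hx => ?_)
        have hx0 : x ≠ 0 := fun h0 => hJ0 (h0 ▸ hx)
        by_cases hex : ∃ g ∈ bxA L (rad c R k), x * g = y
        · obtain ⟨g, hg, hgy⟩ := hex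
          rw [Finset.sum_eq_single g]
          · rw [if_pos hgy, if_pos (Dvd.intro _ (by rw [← hgy, L.nrm_mul])), abs_mul]
            have hg0 : g ≠ 0 := by
              rintro rfl
              exact hy (by rw [← hgy, mul_zero])
            refine (mul_le_of_le_one_left (abs_nonneg _) (hb x)).trans
              (((ih g).2 hg0).trans ?_)
            refine pow_le_pow_left₀ (tD_nonneg g) (tD_mono hny ?_) _
            exact Dvd.intro_left (L.nrm x) (by rw [← hgy, L.nrm_mul])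
          · intro g' _ hne
            rw [if_neg]
            intro h2
            exact hne (mul_left_cancel₀ hx0 (h2.trans hgy.symm))
          · intro h2
            exact absurd hg h2
        · rw [Finset.sum_eq_zero, abs_zero]
          · split_ifs
            · exact pow_nonneg (tD_nonneg y) _
            · exact le_rfl
          · intro g hg
            rw [if_neg]
            intro h2
            exact hex ⟨g, hg, h2⟩
      refine h1.trans ?_
      rw [Finset.sum_const, nsmul_eq_mul]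
      calc _ ≤ tD L y ^ (B + 1) * tD L y ^ ((B + 1) * k) :=
            mul_le_mul_of_nonneg_right (card_dvd hn hny) (pow_nonneg (tD_nonneg y) _)
        _ = tD L y ^ ((B + 1) * (k + 1)) := by ring

end

section Bil

variable {A : Type} [CommRing A] {n c : ℕ} {L : Lat A n c} {ι : Type} {I : Finset ι}
  {K : ι → A → ℤ} {q : ι → ℕ} {E N M : ℝ} {J : Finset A} {a : ι → ℝ} {b : A → ℝ}

theorem mem_of_pow (hn : 1 ≤ n) (_hN : 0 ≤ N) {x : A} (h : ∀ i, |(L.e x i : ℝ)| ^ n ≤ N) :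
    x ∈ bxA L ⌊N ^ ((1 : ℝ) / n)⌋₊ := by
  rw [mem_bxA]
  intro i
  have hn0 : (n : ℝ) ≠ 0 := by
    have : (1 : ℝ) ≤ n := by exact_mod_cast hn
    linarith
  have h1 : |(L.e x i : ℝ)| ≤ N ^ ((1 : ℝ) / n) := by
    have h2 : (|(L.e x i : ℝ)| ^ n) ^ ((1 : ℝ) / n) = |(L.e x i : ℝ)| := by
      rw [← Real.rpow_natCast, ← Real.rpow_mul (abs_nonneg _), mul_one_div_cancel hn0,
        Real.rpow_one]
    rw [← h2]
    exact Real.rpow_le_rpow (by positivity) (h i) (by positivity)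
  have h2 : ((L.e x i).natAbs : ℝ) ≤ N ^ ((1 : ℝ) / n) := by
    rw [Nat.cast_natAbs, Int.cast_abs]
    exact h1
  have h3 := Nat.le_floor h2
  have h4 : |L.e x i| = ((L.e x i).natAbs : ℤ) := (Int.natCast_natAbs _).symm
  rw [h4]
  exact_mod_cast h3

theorem dlt {n : ℕ} {X W M F : ℝ} (hn : 1 ≤ n) (hX0 : 0 ≤ X) (hX : X ≤ 3 * W) (hW : 0 ≤ W)
    (hM : 0 ≤ M) (hF0 : 0 ≤ F) (hF : F ≤ M * W) :
    X ^ n + n * X ^ (n - 1) * F ≤ 3 ^ n * (1 + n * M) * W ^ n := by
  have h1 : X ^ n ≤ 3 ^ n * W ^ n := by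
    rw [← mul_pow]
    exact pow_le_pow_left₀ hX0 hX n
  have h2 : X ^ (n - 1) ≤ 3 ^ n * W ^ (n - 1) := by
    calc X ^ (n - 1) ≤ (3 * W) ^ (n - 1) := pow_le_pow_left₀ hX0 hX _
      _ = 3 ^ (n - 1) * W ^ (n - 1) := mul_pow _ _ _
      _ ≤ 3 ^ n * W ^ (n - 1) := by
        apply mul_le_mul_of_nonneg_right _ (by positivity)
        exact pow_le_pow_right₀ (by norm_num) (Nat.sub_le _ _)
  have h3 : W ^ (n - 1) * W = W ^ n := by
    rw [← pow_succ]
    congr 1
    omega
  have h4 : n * X ^ (n - 1) * F ≤ n * (3 ^ n * W ^ (n - 1)) * (M * W) := by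
    apply mul_le_mul _ hF hF0 (by positivity)
    exact mul_le_mul_of_nonneg_left h2 (Nat.cast_nonneg _)
  have h5 : n * (3 ^ n * W ^ (n - 1)) * (M * W) = 3 ^ n * (n * M) * W ^ n := by
    rw [← h3]
    ring
  rw [h5] at h4
  calc _ ≤ 3 ^ n * W ^ n + 3 ^ n * (n * M) * W ^ n := add_le_add h1 h4
    _ = _ := by ring

theorem sum_sq_le {β : Type} {S : Finset β} {f : β → ℝ} (hf : ∀ x, |f x| ≤ 1) :
    ∑ x ∈ S, f x ^ 2 ≤ S.card := by
  refine (Finset.sum_le_sum (g := fun _ => (1 : ℝ)) fun x _ => ?_).trans ?_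
  · rw [← sq_abs]
    exact pow_le_one₀ (abs_nonneg _) (hf x)
  · rw [Finset.sum_const, nsmul_eq_mul, mul_one]

/-- large range of `N` -/
theorem bil_big (hn : 1 ≤ n) (hK : Ker L I K q E) (hE : 1 ≤ E) (hN : E ^ (4 * n) ≤ N)
    (hM1 : 1 ≤ M) (hM : (I.card : ℝ) ≤ M * E ^ (1 + 1 / (24 * n : ℝ)))
    (hJ : ∀ x ∈ J, ∀ i, |(L.e x i : ℝ)| ^ n ≤ N) (ha : ∀ i, |a i| ≤ 1) (hb : ∀ x, |b x| ≤ 1) :
    (∑ i ∈ I, ∑ x ∈ J, a i * b x * K i x) ^ 2 ≤
      (3 ^ n * N) * ((3 ^ n * (1 + n * M) * N) * (M * E ^ (1 + 1 / (24 * n : ℝ)))) := by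
  have hn' : (1 : ℝ) ≤ n := by exact_mod_cast hn
  have hN1 : 1 ≤ N := (one_le_pow₀ hE).trans hN
  have hN0 : 0 ≤ N := by linarith
  have hE0 : 0 < E := by linarith
  set s := N ^ ((1 : ℝ) / n) with hs
  have hs0 : 0 ≤ s := Real.rpow_nonneg hN0 _
  have hsn : s ^ n = N := by
    rw [hs, ← Real.rpow_natCast, ← Real.rpow_mul hN0, one_div_mul_cancel (by linarith),
      Real.rpow_one]
  have hs4 : E ^ 4 ≤ s := by
    by_contra hlt
    push Not at hlt
    have h1 : s ^ n < (E ^ 4) ^ n := pow_lt_pow_left₀ hlt hs0 (by omega)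
    rw [hsn, ← pow_mul] at h1
    linarith
  have hs1 : 1 ≤ s := (one_le_pow₀ hE).trans hs4
  set R := ⌊s⌋₊ with hR
  have hRs : (R : ℝ) ≤ s := Nat.floor_le hs0
  have hJR : J ⊆ bxA L R := fun x hx => mem_of_pow hn hN0 (hJ x hx)
  have hL : (2 * R + 1 : ℝ) ≤ 3 * s := by linarith
  have hL0 : (0 : ℝ) ≤ 2 * R + 1 := by positivity
  have hJc : (J.card : ℝ) ≤ 3 ^ n * N := by
    have h2 := Finset.card_le_card hJR
    rw [card_bxA] at h2
    have h3 : (J.card : ℝ) ≤ (2 * R + 1 : ℝ) ^ n := by exact_mod_cast h2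
    refine h3.trans ((pow_le_pow_left₀ hL0 hL n).trans (le_of_eq ?_))
    rw [mul_pow, hsn]
  set η : ℝ := 1 / (24 * n : ℝ) with hη
  have hη1 : η ≤ 1 := by
    rw [hη, div_le_one (by positivity)]
    linarith
  have hη0 : 0 ≤ η := by positivity
  have hF : E ^ 2 * (I.card : ℝ) ≤ M * s := by
    calc E ^ 2 * (I.card : ℝ) ≤ E ^ 2 * (M * E ^ (1 + η)) :=
          mul_le_mul_of_nonneg_left hM (by positivity)
      _ ≤ E ^ 2 * (M * E ^ 2) := by
          apply mul_le_mul_of_nonneg_left _ (by positivity)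
          apply mul_le_mul_of_nonneg_left _ (by linarith)
          rw [← Real.rpow_natCast]
          apply Real.rpow_le_rpow_of_exponent_le hE
          push_cast
          linarith
      _ = M * E ^ 4 := by ring
      _ ≤ M * s := mul_le_mul_of_nonneg_left hs4 (by linarith)
  have hls := ls hK R a
  have hΔ := dlt (n := n) (X := 2 * R + 1) (W := s) (M := M) (F := E ^ 2 * (I.card : ℝ)) hn hL0 hL
    hs0 (by linarith) (by positivity) hF
  rw [hsn, ← mul_assoc (_ * _) (E ^ 2)] at hΔ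
  have hsw : ∑ i ∈ I, ∑ x ∈ J, a i * b x * K i x = ∑ x ∈ J, b x * ∑ i ∈ I, a i * K i x := by
    rw [Finset.sum_comm]
    refine Finset.sum_congr rfl fun x _ => ?_
    rw [Finset.mul_sum]
    refine Finset.sum_congr rfl fun i _ => ?_
    ring
  rw [hsw]
  have hnM : 0 ≤ 1 + (n : ℝ) * M := by positivity
  calc (∑ x ∈ J, b x * ∑ i ∈ I, a i * K i x) ^ 2
      ≤ (∑ x ∈ J, b x ^ 2) * ∑ x ∈ J, (∑ i ∈ I, a i * K i x) ^ 2 :=
        Finset.sum_mul_sq_le_sq_mul_sq _ _ _
    _ ≤ (3 ^ n * N) * ((3 ^ n * (1 + n * M) * N) * (M * E ^ (1 + η))) := by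
        apply mul_le_mul ((sum_sq_le hb).trans hJc) _
          (Finset.sum_nonneg fun x _ => sq_nonneg _) (by positivity)
        calc ∑ x ∈ J, (∑ i ∈ I, a i * K i x) ^ 2 ≤ ∑ x ∈ bxA L R, (∑ i ∈ I, a i * K i x) ^ 2 :=
              Finset.sum_le_sum_of_subset_of_nonneg hJR fun x _ _ => sq_nonneg _
          _ ≤ _ := hls
          _ ≤ _ := mul_le_mul hΔ ((sum_sq_le ha).trans hM)
              (Finset.sum_nonneg fun i _ => sq_nonneg _) (by positivity)

/-- small range of `N` -/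
theorem bil_small [IsDomain A] {B : ℕ} {C₂ : ℝ} (hn : 1 ≤ n) (hK : Ker L I K q E) (hE : 1 ≤ E)
    (hEN : E ≤ N) (hN : N ≤ E ^ (4 * n)) (hC21 : 1 ≤ C₂)
    (hC₂ : ∀ m : ℕ, 1 ≤ m → (m.divisors.card : ℝ) ≤
      C₂ * (m : ℝ) ^ ((1 : ℝ) / (192 * n ^ 3 * (B + 1) : ℝ)))
    (hM1 : 1 ≤ M) (hM : (I.card : ℝ) ≤ M * E ^ (1 + 1 / (24 * n : ℝ)))
    (hJ : ∀ x ∈ J, ∀ i, |(L.e x i : ℝ)| ^ n ≤ N) (hJ0 : (0 : A) ∉ J)
    (hJn : ∀ t : ℕ, 1 ≤ t → (J.filter fun x => L.nrm x = t).card ≤ t.divisors.card ^ B)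
    (ha : ∀ i, |a i| ≤ 1) (hb : ∀ x, |b x| ≤ 1) :
    |∑ i ∈ I, ∑ x ∈ J, a i * b x * K i x| ^ (8 * n) ≤
      (M * E ^ (1 + 1 / (24 * n : ℝ))) ^ (8 * n - 1) *
        ((3 ^ n * (1 + n * M) * ((c : ℝ) ^ (4 * n + 1) * N ^ 4) ^ n) *
          ((C₂ ^ ((B + 1) * (4 * n)) * (c * E ^ ((1 : ℝ) / 3))) * (3 ^ n * N) ^ (4 * n))) := by
  have hn' : (1 : ℝ) ≤ n := by exact_mod_cast hn
  have hE0 : 0 < E := by linarith
  have hN1 : 1 ≤ N := hE.trans hEN
  have hN0 : 0 ≤ N := by linarith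
  have hc1 : (1 : ℝ) ≤ c := by exact_mod_cast L.c_pos
  set s := N ^ ((1 : ℝ) / n) with hs
  have hs0 : 0 ≤ s := Real.rpow_nonneg hN0 _
  have hsn : s ^ n = N := by
    rw [hs, ← Real.rpow_natCast, ← Real.rpow_mul hN0, one_div_mul_cancel (by linarith),
      Real.rpow_one]
  have hs1 : 1 ≤ s := Real.one_le_rpow hN1 (by positivity)
  set R := ⌊s⌋₊ with hR
  have hRs : (R : ℝ) ≤ s := Nat.floor_le hs0
  have hJR : J ⊆ bxA L R := fun x hx => mem_of_pow hn hN0 (hJ x hx)
  have hJc : (J.card : ℝ) ≤ 3 ^ n * N := by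
    have h2 := Finset.card_le_card hJR
    rw [card_bxA] at h2
    have h3 : (J.card : ℝ) ≤ (2 * R + 1 : ℝ) ^ n := by exact_mod_cast h2
    refine h3.trans ((pow_le_pow_left₀ (by positivity)
      (by linarith : (2 * R + 1 : ℝ) ≤ 3 * s) n).trans (le_of_eq ?_))
    rw [mul_pow, hsn]
  set η : ℝ := 1 / (24 * n : ℝ) with hη
  have hη1 : η ≤ 1 := by
    rw [hη, div_le_one (by positivity)]
    linarith
  -- the linear forms
  set T : ι → ℝ := fun i => ∑ x ∈ J, b x * K i x with hT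
  have hS : |∑ i ∈ I, ∑ x ∈ J, a i * b x * K i x| ≤ ∑ i ∈ I, |T i| := by
    refine (Finset.abs_sum_le_sum_abs _ _).trans (Finset.sum_le_sum fun i _ => ?_)
    have h3 : ∑ x ∈ J, a i * b x * K i x = a i * T i := by
      rw [hT]
      simp only [Finset.mul_sum]
      refine Finset.sum_congr rfl fun x _ => ?_
      ring
    rw [h3, abs_mul]
    exact mul_le_of_le_one_left (abs_nonneg _) (ha i)
  have hpow : (∑ i ∈ I, |T i|) ^ (8 * n) ≤
      (I.card : ℝ) ^ (8 * n - 1) * ∑ i ∈ I, |T i| ^ (8 * n) := by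
    have h := pow_sum_le_card_mul_sum_pow (s := I) (f := fun i => |T i|)
      (fun i _ => abs_nonneg _) (8 * n - 1)
    have e : 8 * n - 1 + 1 = 8 * n := by omega
    rw [e] at h
    exact h
  -- the powers
  set Q : ℕ := rad c R (4 * n) with hQ
  set Bc : A → ℝ := cf L J b R (4 * n) with hB
  have hT6 : ∀ i ∈ I, |T i| ^ (8 * n) = (∑ y ∈ bxA L Q, Bc y * K i y) ^ 2 := by
    intro i hi
    have h3 := cf_pow (b := b) (hK.one i hi) (hK.mul i hi) hJR (4 * n)
    rw [← h3, ← pow_mul]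
    have e : 4 * n * 2 = 8 * n := by ring
    rw [e]
    exact (Even.mul_right (by decide : Even 8) n).pow_abs _
  rw [Finset.sum_congr rfl hT6] at hpow
  have hld := ld hK Q Bc
  -- the size of the box
  set W : ℝ := (c : ℝ) ^ (4 * n + 1) * N ^ 4 with hW
  have hcp : (1 : ℝ) ≤ (c : ℝ) ^ (4 * n + 1) := one_le_pow₀ hc1
  have hN4 : (1 : ℝ) ≤ N ^ 4 := one_le_pow₀ hN1
  have hW1 : 1 ≤ W := by
    rw [hW]
    exact one_le_mul_of_one_le_of_one_le hcp hN4
  have hQW : (Q : ℝ) ≤ W := by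
    rw [hQ, hW]
    unfold rad
    push_cast
    have e1 : (c : ℝ) * (c * R) ^ (4 * n) = (c : ℝ) ^ (4 * n + 1) * (R : ℝ) ^ (4 * n) := by
      rw [mul_pow, pow_succ]
      ring
    rw [e1]
    apply mul_le_mul_of_nonneg_left _ (by positivity)
    calc (R : ℝ) ^ (4 * n) ≤ s ^ (4 * n) := pow_le_pow_left₀ (by positivity) hRs _
      _ = N ^ 4 := by rw [mul_comm 4 n, pow_mul, hsn]
  have hc0 : (0 : ℝ) ≤ I.card := by positivity
  have hF : E ^ 2 * (I.card : ℝ) ≤ M * W := by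
    calc E ^ 2 * (I.card : ℝ) ≤ E ^ 2 * (M * E ^ (1 + η)) :=
          mul_le_mul_of_nonneg_left hM (by positivity)
      _ ≤ E ^ 2 * (M * E ^ 2) := by
          apply mul_le_mul_of_nonneg_left _ (by positivity)
          apply mul_le_mul_of_nonneg_left _ (by linarith)
          rw [← Real.rpow_natCast]
          apply Real.rpow_le_rpow_of_exponent_le hE
          push_cast
          linarith
      _ = M * E ^ 4 := by ring
      _ ≤ M * N ^ 4 :=
          mul_le_mul_of_nonneg_left (pow_le_pow_left₀ hE0.le hEN 4) (by linarith)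
      _ ≤ M * W := by
          apply mul_le_mul_of_nonneg_left _ (by linarith)
          rw [hW]
          exact le_mul_of_one_le_left (by positivity) hcp
  have hΔ := dlt (n := n) (X := 2 * Q + 1) (W := W) (M := M) (F := E ^ 2 * (I.card : ℝ)) hn
    (by positivity) (by linarith) (by linarith) (by linarith) (by positivity) hF
  rw [← mul_assoc (_ * _) (E ^ 2)] at hΔ
  -- the multiplicities
  set μ : ℝ := C₂ ^ ((B + 1) * (4 * n)) * (c * E ^ ((1 : ℝ) / 3)) with hμ
  have hμ0 : 0 ≤ μ := by positivity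
  have hBle : ∀ y ∈ bxA L Q, |Bc y| ≤ μ := by
    intro y hy
    have h3 := abs_cf_le (R := R) hb hJ0 hJn (4 * n) y
    by_cases hy0 : y = 0
    · rw [hB, h3.1 hy0, abs_zero]
      exact hμ0
    · refine (h3.2 hy0).trans ?_
      have h4 := L.nrm_pos y hy0
      have h5 := hC₂ _ h4
      have h6 : (L.nrm y : ℝ) ≤ c * W ^ n := by
        have h7 := L.nrm_le y Q (mem_bxA.1 hy)
        have h8 : (L.nrm y : ℝ) ≤ c * (Q : ℝ) ^ n := by exact_mod_cast h7
        exact h8.trans (mul_le_mul_of_nonneg_left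
          (pow_le_pow_left₀ (Nat.cast_nonneg _) hQW n) (by linarith))
      have h7 : (c : ℝ) * W ^ n = (c : ℝ) ^ ((4 * n + 1) * n + 1) * N ^ (4 * n) := by
        rw [hW, mul_pow, ← pow_mul, ← pow_mul]
        ring
      rw [h7] at h6
      set δ : ℝ := (1 : ℝ) / (192 * n ^ 3 * (B + 1) : ℝ) with hδ
      have hδ0 : 0 ≤ δ := by positivity
      have h8 : (L.nrm y : ℝ) ^ δ ≤
          ((c : ℝ) ^ ((4 * n + 1) * n + 1) * N ^ (4 * n)) ^ δ :=
        Real.rpow_le_rpow (by positivity) h6 hδ0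
      have h9 : tD L y ≤ C₂ * ((c : ℝ) ^ ((4 * n + 1) * n + 1) * N ^ (4 * n)) ^ δ :=
        h5.trans (mul_le_mul_of_nonneg_left h8 (by linarith))
      refine (pow_le_pow_left₀ (tD_nonneg y) h9 _).trans ?_
      rw [mul_pow, hμ]
      apply mul_le_mul_of_nonneg_left _ (by positivity)
      rw [← Real.rpow_mul_natCast (by positivity), Real.mul_rpow (by positivity) (by positivity)]
      have hB0 : (0 : ℝ) < B + 1 := by positivity
      have hn0 : (0 : ℝ) < n := by linarith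
      have e2 : δ * (((B + 1) * (4 * n) : ℕ) : ℝ) = 1 / (48 * n ^ 2) := by
        rw [hδ]
        push_cast
        field_simp
        norm_num
      rw [e2]
      have hn2 : (1 : ℝ) ≤ (n : ℝ) ^ 2 := one_le_pow₀ hn'
      have h10 : ((c : ℝ) ^ ((4 * n + 1) * n + 1)) ^ (1 / (48 * (n : ℝ) ^ 2)) ≤ c := by
        rw [← Real.rpow_natCast, ← Real.rpow_mul (by positivity)]
        calc (c : ℝ) ^ ((((4 * n + 1) * n + 1 : ℕ) : ℝ) * (1 / (48 * (n : ℝ) ^ 2)))
            ≤ (c : ℝ) ^ (1 : ℝ) := by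
              apply Real.rpow_le_rpow_of_exponent_le hc1
              rw [mul_one_div, div_le_one (by positivity)]
              push_cast
              nlinarith
          _ = c := Real.rpow_one _
      have h11 : (N ^ (4 * n)) ^ (1 / (48 * (n : ℝ) ^ 2)) ≤ E ^ ((1 : ℝ) / 3) := by
        calc (N ^ (4 * n)) ^ (1 / (48 * (n : ℝ) ^ 2))
            ≤ ((E ^ (4 * n)) ^ (4 * n)) ^ (1 / (48 * (n : ℝ) ^ 2)) :=
              Real.rpow_le_rpow (by positivity) (pow_le_pow_left₀ hN0 hN _) (by positivity)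
          _ = E ^ ((1 : ℝ) / 3) := by
              rw [← pow_mul, ← Real.rpow_natCast, ← Real.rpow_mul hE0.le]
              congr 1
              push_cast
              field_simp
              norm_num
      exact mul_le_mul h10 h11 (by positivity) (by linarith)
  have hBB : ∑ y ∈ bxA L Q, Bc y ^ 2 ≤ μ * (3 ^ n * N) ^ (4 * n) := by
    calc ∑ y ∈ bxA L Q, Bc y ^ 2 ≤ ∑ y ∈ bxA L Q, μ * |Bc y| := by
          refine Finset.sum_le_sum fun y hy => ?_
          rw [← sq_abs, pow_two]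
          exact mul_le_mul_of_nonneg_right (hBle y hy) (abs_nonneg _)
      _ = μ * ∑ y ∈ bxA L Q, |Bc y| := by rw [Finset.mul_sum]
      _ ≤ μ * (J.card : ℝ) ^ (4 * n) := mul_le_mul_of_nonneg_left (sum_abs_cf hb (4 * n)) hμ0
      _ ≤ μ * (3 ^ n * N) ^ (4 * n) :=
          mul_le_mul_of_nonneg_left (pow_le_pow_left₀ (by positivity) hJc _) hμ0
  have hnM : 0 ≤ 1 + (n : ℝ) * M := by positivity
  calc |∑ i ∈ I, ∑ x ∈ J, a i * b x * K i x| ^ (8 * n) ≤ (∑ i ∈ I, |T i|) ^ (8 * n) :=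
        pow_le_pow_left₀ (abs_nonneg _) hS _
    _ ≤ (I.card : ℝ) ^ (8 * n - 1) * ∑ i ∈ I, (∑ y ∈ bxA L Q, Bc y * K i y) ^ 2 := hpow
    _ ≤ (M * E ^ (1 + η)) ^ (8 * n - 1) *
          ((3 ^ n * (1 + n * M) * W ^ n) * (μ * (3 ^ n * N) ^ (4 * n))) := by
        apply mul_le_mul (pow_le_pow_left₀ hc0 hM _) _
          (Finset.sum_nonneg fun i _ => sq_nonneg _) (by positivity)
        exact hld.trans (mul_le_mul hΔ hBB (Finset.sum_nonneg fun y _ => sq_nonneg _)
          (by positivity))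

end Bil

/-- **The bilinear bound.** -/
theorem bil (n B : ℕ) (hn : 1 ≤ n) : ∃ C : ℝ, 0 < C ∧
    ∀ (A : Type) [CommRing A] [IsDomain A] (c : ℕ) (L : Lat A n c) (ι : Type) (I : Finset ι)
      (K : ι → A → ℤ) (q : ι → ℕ) (E N M : ℝ), Ker L I K q E → 1 ≤ E → E ≤ N → 1 ≤ M →
      (I.card : ℝ) ≤ M * E ^ (1 + 1 / (24 * n : ℝ)) →
      ∀ J : Finset A, (∀ x ∈ J, ∀ i, |(L.e x i : ℝ)| ^ n ≤ N) → (0 : A) ∉ J →
      (∀ t : ℕ, 1 ≤ t → (J.filter fun x => L.nrm x = t).card ≤ t.divisors.card ^ B) →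
      ∀ (a : ι → ℝ) (b : A → ℝ), (∀ i, |a i| ≤ 1) → (∀ x, |b x| ≤ 1) →
      |∑ i ∈ I, ∑ x ∈ J, a i * b x * K i x| ≤
        C * (c * M) ^ (n + 1) * N * E ^ (1 - 1 / (24 * n : ℝ)) := by
  have hn' : (1 : ℝ) ≤ n := by exact_mod_cast hn
  obtain ⟨C₁, hC₁, hdiv₁⟩ := Pool.Agent.LX.divisor_bound
    ((1 : ℝ) / (192 * n ^ 3 * (B + 1) : ℝ)) (by positivity)
  set C₂ : ℝ := max 1 C₁ with hC₂
  have hC21 : 1 ≤ C₂ := le_max_left _ _
  have hdiv : ∀ m : ℕ, 1 ≤ m → (m.divisors.card : ℝ) ≤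
      C₂ * (m : ℝ) ^ ((1 : ℝ) / (192 * n ^ 3 * (B + 1) : ℝ)) := fun m hm =>
    (hdiv₁ m hm).trans (mul_le_mul_of_nonneg_right (le_max_right _ _) (by positivity))
  set C : ℝ := (1 + n) * 9 ^ n * C₂ ^ (B + 1) with hC
  have hC2B : 1 ≤ C₂ ^ (B + 1) := one_le_pow₀ hC21
  have h9n : (1 : ℝ) ≤ 9 ^ n := one_le_pow₀ (by norm_num)
  have hC1 : (1 + n) * 9 ^ n ≤ C := by
    rw [hC]
    exact le_mul_of_one_le_right (by positivity) hC2B
  have hC0 : 0 < C := by positivity
  refine ⟨C, hC0, ?_⟩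
  intro A _ _ c L ι I K q E N M hK hE hEN hM1 hM J hJ hJ0 hJn a b ha hb
  have hc1 : (1 : ℝ) ≤ c := by exact_mod_cast L.c_pos
  have hE0 : 0 < E := by linarith
  have hN1 : 1 ≤ N := hE.trans hEN
  have hN0 : 0 ≤ N := by linarith
  have hM0 : 0 ≤ M := by linarith
  set η : ℝ := 1 / (24 * n : ℝ) with hη
  have hη0 : 0 ≤ η := by positivity
  have hηn : 24 * n * η = 1 := by
    rw [hη]
    field_simp
  have hη1 : 24 * η ≤ 1 := by nlinarith
  have hcM : 1 ≤ c * M := one_le_mul_of_one_le_of_one_le hc1 hM1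
  have hMc : M ≤ (c * M) ^ (n + 1) := by
    calc M ≤ c * M := le_mul_of_one_le_left hM0 hc1
      _ ≤ (c * M) ^ (n + 1) := le_self_pow₀ hcM (by omega)
  have h1nM : 1 + n * M ≤ (1 + n) * M := by nlinarith
  have hP : 0 ≤ C * (c * M) ^ (n + 1) * N * E ^ (1 - η) := by positivity
  rcases le_total (E ^ (4 * n)) N with hcase | hcase
  · have h1 := bil_big hn hK hE hcase hM1 hM hJ ha hb
    refine abs_le_of_sq_le_sq (h1.trans ?_) hP
    have h2 : E ^ (1 + η) ≤ (E ^ (1 - η)) ^ 2 := by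
      rw [← Real.rpow_mul_natCast hE0.le]
      apply Real.rpow_le_rpow_of_exponent_le hE
      push_cast
      linarith
    have h3 : (3 : ℝ) ^ n * 3 ^ n = 9 ^ n := by
      rw [← mul_pow]
      norm_num
    have h4 : (9 : ℝ) ^ n * (1 + n * M) * M ≤ (C * (c * M) ^ (n + 1)) ^ 2 := by
      calc (9 : ℝ) ^ n * (1 + n * M) * M ≤ 9 ^ n * ((1 + n) * M) * M := by
            apply mul_le_mul_of_nonneg_right _ hM0
            exact mul_le_mul_of_nonneg_left h1nM (by positivity)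
        _ = ((1 + n) * 9 ^ n) * M ^ 2 := by ring
        _ ≤ ((1 + n) * 9 ^ n) ^ 2 * M ^ 2 := by
            apply mul_le_mul_of_nonneg_right _ (sq_nonneg M)
            apply le_self_pow₀ _ two_ne_zero
            exact one_le_mul_of_one_le_of_one_le (by linarith) h9n
        _ = ((1 + n) * 9 ^ n * M) ^ 2 := by ring
        _ ≤ (C * (c * M) ^ (n + 1)) ^ 2 := by
            apply pow_le_pow_left₀ (by positivity)
            exact mul_le_mul hC1 hMc hM0 hC0.le
    calc (3 ^ n * N) * ((3 ^ n * (1 + n * M) * N) * (M * E ^ (1 + η)))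
        = (3 ^ n * 3 ^ n * (1 + n * M) * M) * (N ^ 2 * E ^ (1 + η)) := by ring
      _ = (9 ^ n * (1 + n * M) * M) * (N ^ 2 * E ^ (1 + η)) := by rw [h3]
      _ ≤ (C * (c * M) ^ (n + 1)) ^ 2 * (N ^ 2 * (E ^ (1 - η)) ^ 2) := by
          apply mul_le_mul h4 _ (by positivity) (by positivity)
          exact mul_le_mul_of_nonneg_left h2 (by positivity)
      _ = (C * (c * M) ^ (n + 1) * N * E ^ (1 - η)) ^ 2 := by ring
  · have h1 := bil_small (B := B) hn hK hE hEN hcase hC21 hdiv hM1 hM hJ hJ0 hJn ha hb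
    have h8n : 8 * n ≠ 0 := by omega
    refine (pow_le_pow_iff_left₀ (abs_nonneg _) hP h8n).1 (h1.trans ?_)
    -- the parts
    have hEp : (E ^ (1 + η)) ^ (8 * n - 1) * E ^ ((1 : ℝ) / 3) ≤ (E ^ (1 - η)) ^ (8 * n) := by
      rw [← Real.rpow_mul_natCast hE0.le, ← Real.rpow_mul_natCast hE0.le, ← Real.rpow_add hE0]
      apply Real.rpow_le_rpow_of_exponent_le hE
      rw [Nat.cast_sub (by omega)]
      push_cast
      nlinarith
    have hMp : M ^ (8 * n - 1) * (1 + n * M) ≤ (1 + n) * M ^ (8 * n) := by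
      calc M ^ (8 * n - 1) * (1 + n * M) ≤ M ^ (8 * n - 1) * ((1 + n) * M) :=
            mul_le_mul_of_nonneg_left h1nM (by positivity)
        _ = (1 + n) * (M ^ (8 * n - 1) * M) := by ring
        _ = (1 + n) * M ^ (8 * n) := by
            rw [← pow_succ]
            congr 2
            omega
    have hcp : ((c : ℝ) ^ (4 * n + 1)) ^ n * c * M ^ (8 * n) ≤ ((c * M) ^ (n + 1)) ^ (8 * n) := by
      rw [← pow_mul, ← pow_succ, ← pow_mul, mul_pow]
      apply mul_le_mul _ _ (by positivity) (by positivity)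
      · apply pow_le_pow_right₀ hc1
        nlinarith
      · apply pow_le_pow_right₀ hM1
        nlinarith
    have hkp : (1 + n : ℝ) * (3 ^ n * (3 ^ n) ^ (4 * n)) * C₂ ^ ((B + 1) * (4 * n)) ≤
        C ^ (8 * n) := by
      rw [hC, mul_pow, mul_pow]
      apply mul_le_mul _ _ (by positivity) (by positivity)
      · apply mul_le_mul _ _ (by positivity) (by positivity)
        · exact le_self_pow₀ (by linarith) h8n
        · have e1 : (9 : ℝ) ^ n = 3 ^ (2 * n) := by
            rw [pow_mul]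
            norm_num
          rw [e1, ← pow_mul, ← pow_mul, ← pow_add]
          apply pow_le_pow_right₀ (by norm_num)
          nlinarith
      · rw [← pow_mul]
        apply pow_le_pow_right₀ hC21
        apply Nat.mul_le_mul_left
        omega
    have hN8 : (N ^ 4) ^ n * N ^ (4 * n) = N ^ (8 * n) := by
      rw [← pow_mul, ← pow_add]
      congr 1
      omega
    have e : (M * E ^ (1 + η)) ^ (8 * n - 1) *
        ((3 ^ n * (1 + n * M) * ((c : ℝ) ^ (4 * n + 1) * N ^ 4) ^ n) *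
          ((C₂ ^ ((B + 1) * (4 * n)) * (c * E ^ ((1 : ℝ) / 3))) * (3 ^ n * N) ^ (4 * n))) =
        (M ^ (8 * n - 1) * (1 + n * M)) * (3 ^ n * (3 ^ n) ^ (4 * n)) *
          C₂ ^ ((B + 1) * (4 * n)) * (((c : ℝ) ^ (4 * n + 1)) ^ n * c) *
          ((N ^ 4) ^ n * N ^ (4 * n)) * ((E ^ (1 + η)) ^ (8 * n - 1) * E ^ ((1 : ℝ) / 3)) := by
      rw [mul_pow, mul_pow, mul_pow]
      ring
    rw [e, hN8]
    clear_value C
    calc (M ^ (8 * n - 1) * (1 + n * M)) * (3 ^ n * (3 ^ n) ^ (4 * n)) *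
          C₂ ^ ((B + 1) * (4 * n)) * (((c : ℝ) ^ (4 * n + 1)) ^ n * c) *
          N ^ (8 * n) * ((E ^ (1 + η)) ^ (8 * n - 1) * E ^ ((1 : ℝ) / 3))
        ≤ ((1 + n) * M ^ (8 * n)) * (3 ^ n * (3 ^ n) ^ (4 * n)) *
          C₂ ^ ((B + 1) * (4 * n)) * (((c : ℝ) ^ (4 * n + 1)) ^ n * c) *
          N ^ (8 * n) * (E ^ (1 - η)) ^ (8 * n) := by
          apply mul_le_mul _ hEp (by positivity) (by positivity)
          apply mul_le_mul_of_nonneg_right _ (by positivity)
          apply mul_le_mul_of_nonneg_right _ (by positivity)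
          apply mul_le_mul_of_nonneg_right _ (by positivity)
          exact mul_le_mul_of_nonneg_right hMp (by positivity)
      _ = ((1 + n : ℝ) * (3 ^ n * (3 ^ n) ^ (4 * n)) * C₂ ^ ((B + 1) * (4 * n))) *
          (((c : ℝ) ^ (4 * n + 1)) ^ n * c * M ^ (8 * n)) *
          (N ^ (8 * n) * (E ^ (1 - η)) ^ (8 * n)) := by ring
      _ ≤ C ^ (8 * n) * ((c * M) ^ (n + 1)) ^ (8 * n) *
          (N ^ (8 * n) * (E ^ (1 - η)) ^ (8 * n)) := by
          apply mul_le_mul_of_nonneg_right _ (by positivity)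
          exact mul_le_mul hkp hcp (by positivity) (by positivity)
      _ = (C * (c * M) ^ (n + 1) * N * E ^ (1 - η)) ^ (8 * n) := by
          rw [mul_pow, mul_pow, mul_pow]
          ring

end Pool.Agent.H32.MA.AB
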