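import Pool.Agent.H32.MA.AbsB

/-!
# Project MA9, second phase: the bilinear bound with small classes (helper4)

As `bil` in `AbsB.lean`, but every kernel may fail to be orthogonal to at most `R` kernels of the
family.  The family is coloured with `R + 1` colours, and each colour class is an orthogonal
family.
-/

set_option autoImplicit false

open scoped BigOperators

namespace Pool.Agent.H32.MA.AB

/-- greedy colouring -/
theorem exists_colour {ι : Type} (r : ι → ι → Prop) (hr : ∀ i j, r i j → r j i) (R : ℕ)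
    (I : Finset ι) (h : ∀ i ∈ I, ∀ S : Finset ι, S ⊆ I → (∀ j ∈ S, j ≠ i ∧ r i j) →
      S.card ≤ R) :
    ∃ f : ι → ℕ, (∀ i ∈ I, f i < R + 1) ∧ ∀ i ∈ I, ∀ j ∈ I, i ≠ j → f i = f j → ¬ r i j := by
  classical
  induction I using Finset.induction_on with
  | empty => exact ⟨fun _ => 0, fun i hi => absurd hi (Finset.notMem_empty i),
      fun i hi => absurd hi (Finset.notMem_empty i)⟩
  | insert a s ha ih =>
    obtain ⟨f, hf1, hf2⟩ := ih fun i hi S hS hS2 =>
      h i (Finset.mem_insert_of_mem hi) S (hS.trans (Finset.subset_insert a s)) hS2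
    -- the colours of the neighbours of `a`
    have hcard : ((s.filter fun j => r a j).image f).card < R + 1 := by
      have h1 := h a (Finset.mem_insert_self a s) (s.filter fun j => r a j)
        ((Finset.filter_subset _ _).trans (Finset.subset_insert a s))
        (fun j hj => ⟨fun h' => ha (h' ▸ (Finset.mem_filter.1 hj).1), (Finset.mem_filter.1 hj).2⟩)
      exact lt_of_le_of_lt Finset.card_image_le (by omega)
    have hex : ∃ c ∈ Finset.range (R + 1), c ∉ (s.filter fun j => r a j).image f := by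
      by_contra hcon
      push Not at hcon
      have h2 : Finset.range (R + 1) ⊆ (s.filter fun j => r a j).image f := fun c hc => hcon c hc
      have h3 := Finset.card_le_card h2
      rw [Finset.card_range] at h3
      omega
    obtain ⟨c, hc1, hc2⟩ := hex
    have hne : ∀ i ∈ s, i ≠ a := fun i hi h' => ha (h' ▸ hi)
    refine ⟨Function.update f a c, ?_, ?_⟩
    · intro i hi
      rcases Finset.mem_insert.1 hi with hia | hi
      · rw [hia, Function.update_self]
        exact Finset.mem_range.1 hc1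
      · rw [Function.update_of_ne (hne _ hi)]
        exact hf1 i hi
    · intro i hi j hj hij hfij hrij
      rcases Finset.mem_insert.1 hi with hia | hi
      · rcases Finset.mem_insert.1 hj with hja | hj
        · exact hij (hia.trans hja.symm)
        · rw [hia, Function.update_self, Function.update_of_ne (hne _ hj)] at hfij
          rw [hia] at hrij
          exact hc2 (Finset.mem_image.2 ⟨j, Finset.mem_filter.2 ⟨hj, hrij⟩, hfij.symm⟩)
      · rcases Finset.mem_insert.1 hj with hja | hj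
        · rw [hja, Function.update_self, Function.update_of_ne (hne _ hi)] at hfij
          rw [hja] at hrij
          exact hc2 (Finset.mem_image.2 ⟨i, Finset.mem_filter.2 ⟨hi, hr _ _ hrij⟩, hfij⟩)
        · rw [Function.update_of_ne (hne _ hi),
            Function.update_of_ne (hne _ hj)] at hfij
          exact hf2 i hi j hj hij hfij hrij

/-- the kernels; `K i` is orthogonal to all `K j` with `j` outside the set `bad i`, and `bad i`
has at most `R` elements -/
structure KerR {A : Type} [CommRing A] {n c : ℕ} (L : Lat A n c) {ι : Type} (I : Finset ι)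
    (K : ι → A → ℤ) (q : ι → ℕ) (E : ℝ) (bad : ι → Finset ι) (R : ℕ) : Prop where
  q_pos : ∀ i ∈ I, 1 ≤ q i
  q_le : ∀ i ∈ I, (q i : ℝ) ≤ E
  abs_le : ∀ i ∈ I, ∀ x, |K i x| ≤ 1
  one : ∀ i ∈ I, K i 1 = 1
  mul : ∀ i ∈ I, ∀ x y, K i (x * y) = K i x * K i y
  per : ∀ i ∈ I, ∀ x y, K i (x + q i * y) = K i x
  card_bad : ∀ i ∈ I, (bad i).card ≤ R
  orth : ∀ i ∈ I, ∀ j ∈ I, j ∉ bad i → ∀ u, ∑ x ∈ cube L u (q i * q j), K i x * K j x = 0

/-- **The bilinear bound, with classes.** -/
theorem bilR (n B : ℕ) (hn : 1 ≤ n) : ∃ C : ℝ, 0 < C ∧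
    ∀ (A : Type) [CommRing A] [IsDomain A] (c : ℕ) (L : Lat A n c) (ι : Type) (I : Finset ι)
      (K : ι → A → ℤ) (q : ι → ℕ) (E N M : ℝ) (bad : ι → Finset ι) (R : ℕ),
      KerR L I K q E bad R → 1 ≤ E → E ≤ N → 1 ≤ M →
      (I.card : ℝ) ≤ M * E ^ (1 + 1 / (24 * n : ℝ)) →
      ∀ J : Finset A, (∀ x ∈ J, ∀ i, |(L.e x i : ℝ)| ^ n ≤ N) → (0 : A) ∉ J →
      (∀ t : ℕ, 1 ≤ t → (J.filter fun x => L.nrm x = t).card ≤ t.divisors.card ^ B) →
      ∀ (a : ι → ℝ) (b : A → ℝ), (∀ i, |a i| ≤ 1) → (∀ x, |b x| ≤ 1) →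
      |∑ i ∈ I, ∑ x ∈ J, a i * b x * K i x| ≤
        (R + 1) * (C * (c * M) ^ (n + 1) * N * E ^ (1 - 1 / (24 * n : ℝ))) := by
  classical
  obtain ⟨C, hC0, hC⟩ := bil n B hn
  refine ⟨C, hC0, ?_⟩
  intro A _ _ c L ι I K q E N M bad R hK hE hEN hM1 hM J hJ hJ0 hJn a b ha hb
  obtain ⟨f, hf1, hf2⟩ := exists_colour
    (fun i j => ¬ ∀ u, ∑ x ∈ cube L u (q i * q j), K i x * K j x = 0)
    (fun i j h h' => h fun u => by
      rw [← h' u, mul_comm (q i) (q j)]
      exact Finset.sum_congr rfl fun x _ => mul_comm _ _) R I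
    (fun i hi S hS hS2 => (Finset.card_le_card fun j hj => by
      by_contra hjb
      exact (hS2 j hj).2 (hK.orth i hi j (hS hj) hjb)).trans (hK.card_bad i hi))
  have e1 : ∑ i ∈ I, ∑ x ∈ J, a i * b x * K i x =
      ∑ t ∈ Finset.range (R + 1), ∑ i ∈ I.filter (fun i => f i = t), ∑ x ∈ J,
        a i * b x * K i x :=
    (Finset.sum_fiberwise_of_maps_to (fun i hi => Finset.mem_range.2 (hf1 i hi)) _).symm
  rw [e1]
  refine (Finset.abs_sum_le_sum_abs _ _).trans ?_
  have h2 : ∀ t ∈ Finset.range (R + 1), |∑ i ∈ I.filter (fun i => f i = t), ∑ x ∈ J,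
      a i * b x * K i x| ≤ C * (c * M) ^ (n + 1) * N * E ^ (1 - 1 / (24 * n : ℝ)) := by
    intro t _
    have hsub : ∀ i ∈ I.filter (fun i => f i = t), i ∈ I := fun i hi =>
      (Finset.mem_filter.1 hi).1
    refine hC A c L ι (I.filter fun i => f i = t) K q E N M
      ⟨fun i hi => hK.q_pos i (hsub i hi), fun i hi => hK.q_le i (hsub i hi),
        fun i hi => hK.abs_le i (hsub i hi), fun i hi => hK.one i (hsub i hi),
        fun i hi => hK.mul i (hsub i hi), fun i hi => hK.per i (hsub i hi), ?_⟩ hE hEN hM1 ?_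
      J hJ hJ0 hJn a b ha hb
    · intro i hi j hj hij
      have h3 := hf2 i (hsub i hi) j (hsub j hj) hij
        ((Finset.mem_filter.1 hi).2.trans (Finset.mem_filter.1 hj).2.symm)
      exact not_not.1 h3
    · refine le_trans ?_ hM
      exact_mod_cast Finset.card_le_card (Finset.filter_subset _ _)
  refine (Finset.sum_le_sum h2).trans ?_
  rw [Finset.sum_const, Finset.card_range, nsmul_eq_mul]
  push_cast
  exact le_rfl

end Pool.Agent.H32.MA.AB
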