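import Pool.Agent.H32.MA.SNId
import Pool.Agent.H98.MF.NMain
import Pool.Agent.H98.MF.NCntS
import Pool.Agent.H98.MF.NReps
import Pool.Agent.H98.MF.NPrS
import Pool.Agent.H98.MF.NIdf
import Pool.Agent.H98.MF.NOrd
import Pool.Agent.H98.MF.NFin

/-!
# Project MA9 (MP_a9b340), block SN: the ideals prime to `m` have a positive density
-/

set_option autoImplicit false

open scoped BigOperators nonZeroDivisors
open NumberField IsDedekindDomain

namespace Pool.Agent.H32.MA.SN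

open Pool.Agent.H98.MF (ord IdLe PER Reps CoP cof sgnN preK idf)
open Pool.Agent.H32.MA

variable {K : Type} [Field K] [NumberField K]

private theorem sno_cof (J : Ideal (𝓞 K)) (α : 𝓞 K) (hα : α ∈ J) :
    Ideal.span {α} = cof J α * J := by
  have h : ∃ I : Ideal (𝓞 K), Ideal.span {α} = I * J := by
    have h1 : J ∣ Ideal.span {α} := by
      rw [Ideal.dvd_span_singleton]
      exact hα
    obtain ⟨I, hI⟩ := h1
    exact ⟨I, by rw [hI, mul_comm]⟩
  unfold cof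
  rw [dif_pos h]
  exact h.choose_spec

private theorem sno_le_iff {I J P : Ideal (𝓞 K)} (hJ : J ≠ ⊥) : I * J ≤ P * J ↔ I ≤ P := by
  rw [← Ideal.dvd_iff_le, ← Ideal.dvd_iff_le]
  exact mul_dvd_mul_iff_right hJ

/-- the indicator function of the ideals prime to `m` is periodic modulo `m` -/
private theorem sno_per (m : ℕ) (hm : m ≠ 0) (J : Ideal (𝓞 K)) (hJ : J ≠ ⊥) :
    PER J (Ideal.span {(m : 𝓞 K)}) (oneC (K := K) m) := by
  classical
  intro α β hα hβ hαJ hαβ hs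
  have hβJ : β ∈ J := by
    have h0 : Ideal.span {(m : 𝓞 K)} * J ≤ J := Ideal.mul_le_right
    have h1 : α - β ∈ J := h0 hαβ
    have h2 : α - (α - β) ∈ J := J.sub_mem hαJ h1
    rwa [sub_sub_cancel] at h2
  have hcα := sno_cof J α hαJ
  have hcβ := sno_cof J β hβJ
  have hneα : cof J α ≠ ⊥ := by
    intro h0
    rw [h0, Ideal.bot_mul] at hcα
    exact hα (Ideal.span_singleton_eq_bot.1 hcα)
  have hneβ : cof J β ≠ ⊥ := by
    intro h0
    rw [h0, Ideal.bot_mul] at hcβ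
    exact hβ (Ideal.span_singleton_eq_bot.1 hcβ)
  have hiff : Cop m (cof J α) ↔ Cop m (cof J β) := by
    unfold Cop
    refine forall_congr' fun P => ?_
    refine imp_congr_right fun hP => ?_
    rw [not_iff_not]
    have hmne : (m : 𝓞 K) ≠ 0 := Nat.cast_ne_zero.2 hm
    have hmP : (m : 𝓞 K) ∈ P.asIdeal ^ 1 := by
      rw [← Pool.Agent.H98.MF.N_le_ord_iff P _ hmne 1]
      simpa using hP
    have hM : Ideal.span {(m : 𝓞 K)} ≤ P.asIdeal ^ 1 :=
      (Ideal.span_singleton_le_iff_mem _).2 hmP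
    have h0 : Ideal.span {(m : 𝓞 K)} * J ≤ P.asIdeal ^ 1 * J := Ideal.mul_mono_left hM
    have h1 := (Pool.Agent.H98.MF.ord_quot P 1 le_rfl J hJ α β hα hβ hαJ (h0 hαβ)).1
    rw [hcα, hcβ, sno_le_iff hJ, sno_le_iff hJ] at h1
    exact h1
  unfold oneC
  by_cases h : Cop m (cof J α)
  · rw [if_pos ⟨h, hneα⟩, if_pos ⟨hiff.1 h, hneβ⟩]
  · rw [if_neg (fun h1 => h h1.1), if_neg (fun h1 => h (hiff.2 h1.1))]

private theorem sno_abs (m : ℕ) (I : Ideal (𝓞 K)) : |oneC (K := K) m I| ≤ 1 := by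
  unfold oneC
  split_ifs <;> simp

private theorem sno_pow (d : ℕ) (hd : 0 < d) :
    Filter.Tendsto (fun X : ℝ => X ^ (1 - 1 / (d : ℝ)) / X) Filter.atTop (nhds 0) := by
  have hd' : (0 : ℝ) < d := by exact_mod_cast hd
  have h1 : 0 < 1 / (d : ℝ) := by positivity
  have h2 := tendsto_rpow_neg_atTop h1
  refine h2.congr' ?_
  filter_upwards [Filter.eventually_gt_atTop 0] with X hX
  rw [Real.rpow_sub hX, Real.rpow_one, Real.rpow_neg hX.le]
  field_simp

/-- the limit from a power saving error term -/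
private theorem sno_lim (g : ℝ → ℝ) (a C : ℝ) (d : ℕ) (hd : 0 < d)
    (h : ∀ X : ℝ, 1 ≤ X → |g X - a * X| ≤ C * X ^ (1 - 1 / (d : ℝ))) :
    Filter.Tendsto (fun X : ℝ => g X / X) Filter.atTop (nhds a) := by
  rw [← tendsto_sub_nhds_zero_iff]
  refine squeeze_zero_norm' (a := fun X : ℝ => C * (X ^ (1 - 1 / (d : ℝ)) / X)) ?_ ?_
  · filter_upwards [Filter.eventually_ge_atTop 1] with X hX
    have hX0 : 0 < X := by linarith
    have e : g X / X - a = (g X - a * X) / X := by field_simp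
    rw [Real.norm_eq_abs, e, abs_div, abs_of_pos hX0, ← mul_div_assoc]
    exact div_le_div_of_nonneg_right (h X hX) hX0.le
  · simpa using (sno_pow d hd).const_mul C

private theorem sno_fin (m : ℕ) :
    {P : HeightOneSpectrum (𝓞 K) | 1 ≤ ord P (m : K)}.Finite := by
  have h := FractionalIdeal.finite_factors
    (FractionalIdeal.spanSingleton (𝓞 K)⁰ (m : K))
  rw [Filter.eventually_cofinite] at h
  refine h.subset fun P hP h0 => ?_
  have h1 : 1 ≤ ord P (m : K) := hP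
  unfold ord at h1
  rw [h0] at h1
  exact absurd h1 (by norm_num)

private theorem sno_card (m : ℕ) (S : Finset (HeightOneSpectrum (𝓞 K)))
    (hS : ∀ P, P ∈ S ↔ 1 ≤ ord P (m : K)) (X : ℝ) :
    (((preK S).idl X).card : ℝ) =
      ∑ᶠ I ∈ {I ∈ IdLe K X | (⊤ : Ideal (𝓞 K)) ∣ I}, oneC m I := by
  classical
  have h1 := Pool.Agent.H98.MF.sum_idl S (oneC m) X
  have h2 : ∑ f ∈ (preK S).idl X, oneC m (idf S f) = (((preK S).idl X).card : ℝ) := by
    rw [Finset.card_eq_sum_ones, Nat.cast_sum]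
    refine Finset.sum_congr rfl fun f _ => ?_
    have hne := Pool.Agent.H98.MF.idf_ne_bot S f
    have hc : Cop m (idf S f) := fun P hP =>
      (Pool.Agent.H98.MF.idf_surj S _ hne).1 ⟨f, rfl⟩ P ((hS P).2 hP)
    unfold oneC
    rw [if_pos ⟨hc, hne⟩, Nat.cast_one]
  rw [← h2, h1]
  refine finsum_mem_inter_support_eq _ _ _ ?_
  ext I
  constructor
  · rintro ⟨⟨h3, -⟩, h4⟩
    exact ⟨⟨h3, by rw [← Ideal.one_eq_top]; exact one_dvd I⟩, h4⟩
  · rintro ⟨⟨h3, -⟩, h4⟩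
    refine ⟨⟨h3, fun Q hQ hle => ?_⟩, h4⟩
    apply h4
    unfold oneC
    exact if_neg fun h5 => h5.1 Q ((hS Q).1 hQ) hle

theorem den_one (m : ℕ) (hm : m ≠ 0) : ∃ A : ℝ, 0 < A ∧ Den m (oneC (K := K) m) A := by
  classical
  obtain ⟨S0, -, hS0⟩ := Pool.Agent.H98.MF.exists_PrS (k := K) ∅
  obtain ⟨R, hR, -⟩ := Pool.Agent.H98.MF.reps_exist K S0 hS0
  obtain ⟨C, hC0, hC⟩ := Pool.Agent.H98.MF.main_count K R hR
  have hMne : Ideal.span {(m : 𝓞 K)} ≠ ⊥ := by
    rw [Ne, Ideal.span_singleton_eq_bot]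
    exact Nat.cast_ne_zero.2 hm
  obtain ⟨A, hA⟩ := hC (Ideal.span {(m : 𝓞 K)}) hMne (oneC m) (sno_abs m)
    (fun J hJ => sno_per m hm J (hR.1 J hJ))
  have hlim : ∀ D : Ideal (𝓞 K), D ≠ ⊥ → Cop m D →
      Filter.Tendsto (fun X : ℝ => (∑ᶠ I ∈ {I ∈ IdLe K X | D ∣ I}, oneC m I) / X)
        Filter.atTop (nhds (A / Ideal.absNorm D)) := by
    intro D hD hcop
    refine sno_lim _ _ (C * ((Ideal.absNorm D : ℝ) *
      Ideal.absNorm (Ideal.span {(m : 𝓞 K)})) ^ (Module.finrank ℚ K + 1))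
      (Module.finrank ℚ K) Module.finrank_pos ?_
    intro X hX
    have h1 := hA D hD ((cop_iff m hm D).1 hcop) X hX
    rwa [mul_div_right_comm] at h1
  have hmem : ∀ P, P ∈ (sno_fin (K := K) m).toFinset ↔ 1 ≤ ord P (m : K) := fun P =>
    Set.Finite.mem_toFinset _
  obtain ⟨κ, hκ, C', hC', h⟩ := Pool.Agent.H98.MF.cnt_S (sno_fin (K := K) m).toFinset
  have htop : Cop m (⊤ : Ideal (𝓞 K)) := fun P _ h1 => P.isPrime.ne_top (top_le_iff.1 h1)
  have htne : (⊤ : Ideal (𝓞 K)) ≠ ⊥ := top_ne_bot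
  have h1 := hlim ⊤ htne htop
  rw [Ideal.absNorm_top, Nat.cast_one, div_one] at h1
  have h2 := sno_lim _ κ C' (Module.finrank ℚ K) Module.finrank_pos h
  have h3 : (fun X : ℝ => (((preK (sno_fin (K := K) m).toFinset).idl X).card : ℝ) / X) =
      fun X : ℝ => (∑ᶠ I ∈ {I ∈ IdLe K X | (⊤ : Ideal (𝓞 K)) ∣ I}, oneC m I) / X := by
    funext X
    rw [sno_card m _ hmem X]
  rw [h3] at h2
  have h4 : A = κ := tendsto_nhds_unique h1 h2
  refine ⟨A, by rw [h4]; exact hκ, ⟨1, sno_abs m⟩, ?_, hlim⟩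
  intro I hI
  unfold oneC
  exact if_neg fun h5 => hI h5.1

end Pool.Agent.H32.MA.SN
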