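import Pool.Agent.H32.MA.SNTail
import Pool.Agent.H32.MA.SNOne
import Pool.Agent.H98.MF.NOrd

/-!
# Project MA9 (MP_a9b340), block SN, row SNPos: many good ideals
-/

set_option autoImplicit false

open scoped BigOperators nonZeroDivisors
open NumberField IsDedekindDomain

namespace Pool.Agent.H32.MA.SN

open Pool.Agent.H98.MF (ord IdLe PER Reps CoP cof sgnN)
open Pool.Agent.H32.MA

variable {K : Type} [Field K] [NumberField K]

/-- the exponent of a natural number -/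
theorem snp_ord (P : HeightOneSpectrum (𝓞 K)) (n : ℕ) (hn : n ≠ 0) :
    1 ≤ ord P (n : K) ↔ (n : 𝓞 K) ∈ P.asIdeal := by
  have h := Pool.Agent.H98.MF.N_le_ord_iff P (n : 𝓞 K) (Nat.cast_ne_zero.2 hn) 1
  rw [pow_one] at h
  rw [← h]
  simp

/-- the sum of the indicator function -/
theorem snp_sum (m : ℕ) (D : Ideal (𝓞 K)) (X : ℝ) :
    ∑ᶠ I ∈ {I ∈ IdLe K X | D ∣ I}, oneC (K := K) m I =
      (({I ∈ IdLe K X | D ∣ I ∧ Cop m I}.ncard : ℕ) : ℝ) := by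
  classical
  have hfin : (IdLe K X).Finite := Pool.Agent.H98.MF.finite_IdLe K X
  have hS : {I ∈ IdLe K X | D ∣ I}.Finite := hfin.subset (fun I h => h.1)
  rw [finsum_mem_eq_finite_toFinset_sum _ hS]
  have h1 : ∀ I, oneC (K := K) m I = if Cop m I ∧ I ≠ ⊥ then 1 else 0 := fun I => by
    unfold oneC
    split_ifs <;> rfl
  rw [Finset.sum_congr rfl (fun I _ => h1 I), Finset.sum_boole, ← Set.ncard_coe_finset]
  congr 2
  ext I
  simp only [Finset.coe_filter, Set.Finite.mem_toFinset, Set.mem_ofPred_eq]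
  constructor
  · rintro ⟨⟨h1, h2⟩, h3, h4⟩
    exact ⟨h1, h2, h3⟩
  · rintro ⟨h1, h2, h3⟩
    exact ⟨⟨h1, h2⟩, h3, h1.1⟩

theorem snp_or (X : ℝ) (p q r : Ideal (𝓞 K) → Prop) (h : ∀ I ∈ IdLe K X, p I → q I ∨ r I) :
    {I ∈ IdLe K X | p I}.ncard ≤ {I ∈ IdLe K X | q I}.ncard + {I ∈ IdLe K X | r I}.ncard := by
  have hfin : (IdLe K X).Finite := Pool.Agent.H98.MF.finite_IdLe K X
  refine (Set.ncard_le_ncard (t := {I ∈ IdLe K X | q I} ∪ {I ∈ IdLe K X | r I}) ?_ ?_).trans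
    (Set.ncard_union_le _ _)
  · rintro I ⟨h1, h2⟩
    rcases h I h1 h2 with h3 | h3
    · exact Or.inl ⟨h1, h3⟩
    · exact Or.inr ⟨h1, h3⟩
  · refine hfin.subset ?_
    rintro I (h1 | h1)
    · exact h1.1
    · exact h1.1

theorem snp_ex {ι : Type} (X : ℝ) (T : Finset ι) (p : ι → Ideal (𝓞 K) → Prop) :
    {I ∈ IdLe K X | ∃ t ∈ T, p t I}.ncard ≤ ∑ t ∈ T, {I ∈ IdLe K X | p t I}.ncard := by
  classical
  induction T using Finset.induction_on with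
  | empty => simp
  | insert a T ha ih =>
    rw [Finset.sum_insert ha]
    refine (snp_or X _ (p a) (fun I => ∃ t ∈ T, p t I) ?_).trans (add_le_add le_rfl ih)
    rintro I _ ⟨t, ht, h2⟩
    rcases Finset.mem_insert.1 ht with rfl | h3
    · exact Or.inl h2
    · exact Or.inr ⟨t, h3, h2⟩

/-- a bound beyond which finite sums of inverse squares are small -/
theorem snp_van {ι : Type} (g : ι → ℕ) (hs : Summable fun i => ((g i : ℝ) ^ 2)⁻¹) :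
    ∃ z₀ : ℕ, ∀ z : ℕ, z₀ ≤ z → ∀ T : Finset ι, (∀ i ∈ T, z < g i) →
      ∑ i ∈ T, ((g i : ℝ) ^ 2)⁻¹ ≤ 1 / 8 := by
  classical
  obtain ⟨S, hS⟩ := (summable_iff_vanishing_norm.1 hs) (1 / 8) (by norm_num)
  refine ⟨S.sup g, fun z hz T hT => ?_⟩
  have hdis : Disjoint T S := by
    rw [Finset.disjoint_left]
    intro i hi hiS
    have h1 := hT i hi
    have h2 : g i ≤ S.sup g := Finset.le_sup hiS
    omega
  have := hS T hdis
  rw [Real.norm_eq_abs] at this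
  exact (le_abs_self _).trans this.le

/-- **Row SNPos.** many good ideals -/
theorem good_pos (hK : 2 ≤ Module.finrank ℚ K) (m : ℕ) (hm : m ≠ 0) : ∃ c : ℝ, 0 < c ∧
    ∀ᶠ X : ℝ in Filter.atTop,
      c * X ≤ (({I ∈ IdLe K X | GoodId m I}.ncard : ℕ) : ℝ) := by
  classical
  obtain ⟨zP, hzP⟩ := snp_van (fun P : HeightOneSpectrum (𝓞 K) => nP P) snt_summable
  obtain ⟨zp, hzp⟩ := snp_van (fun p : ℕ => p) snt_sumN
  obtain ⟨z₀, hz₀⟩ : ∃ z₀, z₀ = max zP zp := ⟨_, rfl⟩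
  obtain ⟨M, hM⟩ : ∃ M, M = m * z₀.factorial := ⟨_, rfl⟩
  have hM0 : M ≠ 0 := by
    rw [hM]
    exact mul_ne_zero hm (Nat.factorial_ne_zero _)
  obtain ⟨A, hA, hDen⟩ := den_one (K := K) M hM0
  obtain ⟨ε, hε, htail⟩ := tail_bound (K := K) hK
  obtain ⟨z₁, hz₁⟩ := (hε.eventually_lt_const (show (0 : ℝ) < A / 8 by positivity)).exists
  -- membership of `M` in primes
  have hMmem : ∀ (P : HeightOneSpectrum (𝓞 K)) (n : ℕ), n ∣ M → (n : 𝓞 K) ∈ P.asIdeal →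
      1 ≤ ord P (M : K) := by
    intro P n hn hP
    rw [snp_ord P M hM0]
    obtain ⟨t, ht⟩ := hn
    rw [ht, Nat.cast_mul]
    exact P.asIdeal.mul_mem_right _ hP
  have hlarge : ∀ P : HeightOneSpectrum (𝓞 K), ¬ 1 ≤ ord P (M : K) → z₀ < nP P := by
    intro P hP
    by_contra hle
    push Not at hle
    apply hP
    apply hMmem P (nP P) _ (Ideal.absNorm_mem P.asIdeal)
    rw [hM]
    refine Dvd.dvd.mul_left ?_ m
    exact Nat.dvd_factorial (by have := snt_nP_two_le P; omega) hle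
  have hlargep : ∀ p : ℕ, p.Prime → ¬ p ∣ M → z₀ < p := by
    intro p hp h
    by_contra hle
    push Not at hle
    apply h
    rw [hM]
    exact Dvd.dvd.mul_left (Nat.dvd_factorial hp.pos hle) m
  -- the finite sets of small bad divisors
  have hfP : {P : HeightOneSpectrum (𝓞 K) | nP P ≤ z₁}.Finite := by
    refine Set.Finite.of_finite_image (f := fun P => P.asIdeal)
      ((Pool.Agent.H98.MF.finite_IdLe K (z₁ : ℝ)).subset ?_) ?_
    · rintro _ ⟨P, hP, rfl⟩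
      refine ⟨P.ne_bot, ?_⟩
      have h1 : nP P ≤ z₁ := hP
      have h2 : (nP P : ℝ) ≤ z₁ := by exact_mod_cast h1
      exact h2
    · intro P _ Q _ hPQ
      exact HeightOneSpectrum.ext hPQ
  obtain ⟨TP, hTP⟩ : ∃ TP : Finset (HeightOneSpectrum (𝓞 K)), ∀ P, P ∈ TP ↔
      nP P ≤ z₁ ∧ ¬ 1 ≤ ord P (M : K) := by
    refine ⟨hfP.toFinset.filter (fun P => ¬ 1 ≤ ord P (M : K)), fun P => ?_⟩
    rw [Finset.mem_filter, Set.Finite.mem_toFinset]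
    rfl
  obtain ⟨Tp, hTp⟩ : ∃ Tp : Finset ℕ, ∀ p, p ∈ Tp ↔ p ≤ z₁ ∧ p.Prime ∧ ¬ p ∣ M := by
    refine ⟨(Finset.range (z₁ + 1)).filter (fun p => p.Prime ∧ ¬ p ∣ M), fun p => ?_⟩
    rw [Finset.mem_filter, Finset.mem_range, Nat.lt_succ_iff]
  -- norms
  have hnP : ∀ P : HeightOneSpectrum (𝓞 K),
      ((Ideal.absNorm (P.asIdeal ^ 2) : ℕ) : ℝ) = (nP P : ℝ) ^ 2 := by
    intro P
    rw [map_pow]
    push_cast
    rfl
  have hnp : ∀ p : ℕ, p.Prime →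
      (p : ℝ) ^ 2 ≤ ((Ideal.absNorm (Ideal.span {(p : 𝓞 K)}) : ℕ) : ℝ) := by
    intro p hp
    rw [Ideal.absNorm_span_natCast, RingOfIntegers.rank]
    push_cast
    exact pow_le_pow_right₀ (by exact_mod_cast hp.one_lt.le) hK
  -- densities
  have hlimD : ∀ D : Ideal (𝓞 K), D ≠ ⊥ → Cop M D →
      Filter.Tendsto (fun X : ℝ => (({I ∈ IdLe K X | D ∣ I ∧ Cop M I}.ncard : ℕ) : ℝ) / X)
        Filter.atTop (nhds (A / Ideal.absNorm D)) := by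
    intro D hD hc
    have h1 := hDen.lim D hD hc
    refine h1.congr fun X => ?_
    rw [snp_sum]
  have hCopP : ∀ P ∈ TP, Cop M (P.asIdeal ^ 2) := by
    intro P hP Q hQ hle
    apply ((hTP P).1 hP).2
    have h1 : P.asIdeal ≤ Q.asIdeal := Q.isPrime.le_of_pow_le hle
    have h2 : P = Q := HeightOneSpectrum.ext (P.isMaximal.eq_of_le Q.isPrime.ne_top h1)
    rw [h2]
    exact hQ
  have hCopp : ∀ p ∈ Tp, Cop M (Ideal.span {(p : 𝓞 K)}) := by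
    intro p hp Q hQ hle
    obtain ⟨_, hpp, hnd⟩ := (hTp p).1 hp
    rw [snp_ord Q M hM0] at hQ
    rw [Ideal.span_singleton_le_iff_mem] at hle
    have hcop : IsCoprime (p : ℤ) (M : ℤ) :=
      Nat.isCoprime_iff_coprime.2 ((Nat.Prime.coprime_iff_not_dvd hpp).2 hnd)
    obtain ⟨a, b, hab⟩ := hcop
    apply Q.isPrime.ne_top
    rw [Ideal.eq_top_iff_one]
    have h1 : (1 : 𝓞 K) = (a : 𝓞 K) * (p : 𝓞 K) + (b : 𝓞 K) * (M : 𝓞 K) := by
      have := congrArg (fun z : ℤ => (z : 𝓞 K)) hab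
      push_cast at this
      exact this.symm
    rw [h1]
    exact Q.asIdeal.add_mem (Q.asIdeal.mul_mem_left _ hle) (Q.asIdeal.mul_mem_left _ hQ)
  have hp0 : ∀ p : ℕ, p.Prime → (Ideal.span {(p : 𝓞 K)} : Ideal (𝓞 K)) ≠ ⊥ := by
    intro p hp
    rw [Ne, Ideal.span_singleton_eq_bot]
    exact_mod_cast hp.ne_zero
  -- the main comparison
  have hcmp : ∀ X : ℝ, 0 ≤ X →
      (({I ∈ IdLe K X | (⊤ : Ideal (𝓞 K)) ∣ I ∧ Cop M I}.ncard : ℕ) : ℝ) ≤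
      (({I ∈ IdLe K X | GoodId m I}.ncard : ℕ) : ℝ) +
      (∑ P ∈ TP, (({I ∈ IdLe K X | P.asIdeal ^ 2 ∣ I ∧ Cop M I}.ncard : ℕ) : ℝ) +
        ∑ p ∈ Tp, (({I ∈ IdLe K X | Ideal.span {(p : 𝓞 K)} ∣ I ∧ Cop M I}.ncard : ℕ) : ℝ)) +
      ε z₁ * X := by
    intro X hX
    have h1 := snp_or X (fun I => (⊤ : Ideal (𝓞 K)) ∣ I ∧ Cop M I) (fun I => GoodId m I)
      (fun I => ((∃ P ∈ TP, P.asIdeal ^ 2 ∣ I ∧ Cop M I) ∨
        ∃ p ∈ Tp, Ideal.span {(p : 𝓞 K)} ∣ I ∧ Cop M I) ∨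
        ((∃ P : HeightOneSpectrum (𝓞 K), z₁ < nP P ∧ I ≤ P.asIdeal ^ 2) ∨
        ∃ p : ℕ, p.Prime ∧ z₁ < p ∧ I ≤ Ideal.span {(p : 𝓞 K)})) ?_
    · have h2 := snp_or X (fun I => ((∃ P ∈ TP, P.asIdeal ^ 2 ∣ I ∧ Cop M I) ∨
        ∃ p ∈ Tp, Ideal.span {(p : 𝓞 K)} ∣ I ∧ Cop M I) ∨
        ((∃ P : HeightOneSpectrum (𝓞 K), z₁ < nP P ∧ I ≤ P.asIdeal ^ 2) ∨
        ∃ p : ℕ, p.Prime ∧ z₁ < p ∧ I ≤ Ideal.span {(p : 𝓞 K)})) _ _ (fun I _ h => h)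
      have h3 := snp_or X (fun I => (∃ P ∈ TP, P.asIdeal ^ 2 ∣ I ∧ Cop M I) ∨
        ∃ p ∈ Tp, Ideal.span {(p : 𝓞 K)} ∣ I ∧ Cop M I) _ _ (fun I _ h => h)
      have h4 := snp_ex X TP (fun P I => P.asIdeal ^ 2 ∣ I ∧ Cop M I)
      have h5 := snp_ex X Tp (fun p I => Ideal.span {(p : 𝓞 K)} ∣ I ∧ Cop M I)
      have h6 := htail z₁ X hX
      have h7 : {I ∈ IdLe K X | (⊤ : Ideal (𝓞 K)) ∣ I ∧ Cop M I}.ncard ≤
          {I ∈ IdLe K X | GoodId m I}.ncard +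
          (∑ P ∈ TP, {I ∈ IdLe K X | P.asIdeal ^ 2 ∣ I ∧ Cop M I}.ncard +
            ∑ p ∈ Tp, {I ∈ IdLe K X | Ideal.span {(p : 𝓞 K)} ∣ I ∧ Cop M I}.ncard) +
          {I ∈ IdLe K X | (∃ P : HeightOneSpectrum (𝓞 K), z₁ < nP P ∧ I ≤ P.asIdeal ^ 2) ∨
            ∃ p : ℕ, p.Prime ∧ z₁ < p ∧ I ≤ Ideal.span {(p : 𝓞 K)}}.ncard := by omega
      have h8 : (({I ∈ IdLe K X | (⊤ : Ideal (𝓞 K)) ∣ I ∧ Cop M I}.ncard : ℕ) : ℝ) ≤
          (({I ∈ IdLe K X | GoodId m I}.ncard +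
          (∑ P ∈ TP, {I ∈ IdLe K X | P.asIdeal ^ 2 ∣ I ∧ Cop M I}.ncard +
            ∑ p ∈ Tp, {I ∈ IdLe K X | Ideal.span {(p : 𝓞 K)} ∣ I ∧ Cop M I}.ncard) +
          {I ∈ IdLe K X | (∃ P : HeightOneSpectrum (𝓞 K), z₁ < nP P ∧ I ≤ P.asIdeal ^ 2) ∨
            ∃ p : ℕ, p.Prime ∧ z₁ < p ∧ I ≤ Ideal.span {(p : 𝓞 K)}}.ncard : ℕ) : ℝ) := by
        exact_mod_cast h7
      push_cast at h8
      push_cast
      linarith
    · rintro I hI ⟨_, hcop⟩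
      by_cases htl : (∃ P : HeightOneSpectrum (𝓞 K), z₁ < nP P ∧ I ≤ P.asIdeal ^ 2) ∨
        ∃ p : ℕ, p.Prime ∧ z₁ < p ∧ I ≤ Ideal.span {(p : 𝓞 K)}
      · exact Or.inr (Or.inr htl)
      by_cases hb1 : ∃ P ∈ TP, P.asIdeal ^ 2 ∣ I ∧ Cop M I
      · exact Or.inr (Or.inl (Or.inl hb1))
      by_cases hb2 : ∃ p ∈ Tp, Ideal.span {(p : 𝓞 K)} ∣ I ∧ Cop M I
      · exact Or.inr (Or.inl (Or.inr hb2))
      left
      refine ⟨hI.1, ?_, ?_, ?_⟩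
      · intro P hP
        apply hcop P
        rw [snp_ord P m hm] at hP
        exact hMmem P m (hM ▸ dvd_mul_right m _) hP
      · intro P hle
        by_cases h1 : 1 ≤ ord P (M : K)
        · exact hcop P h1 (hle.trans (Ideal.pow_le_self two_ne_zero))
        · by_cases h2 : nP P ≤ z₁
          · exact hb1 ⟨P, (hTP P).2 ⟨h2, h1⟩, Ideal.dvd_iff_le.2 hle, hcop⟩
          · exact htl (Or.inl ⟨P, not_le.1 h2, hle⟩)
      · intro p hp _ hle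
        by_cases h1 : p ∣ M
        · have h2 : (Ideal.span {(p : 𝓞 K)} : Ideal (𝓞 K)) ≠ ⊤ := by
            intro h3
            have h4 := hnp p hp
            rw [Ideal.absNorm_eq_one_iff.2 h3] at h4
            have h5 : (2 : ℝ) ≤ p := by exact_mod_cast hp.two_le
            push_cast at h4
            nlinarith
          obtain ⟨Q, hQ, hle2⟩ := Ideal.exists_le_maximal _ h2
          have hQ0 : Q ≠ ⊥ := by
            rintro rfl
            exact hp0 p hp (le_bot_iff.1 hle2)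
          have h3 := hMmem ⟨Q, hQ.isPrime, hQ0⟩ p h1
            ((Ideal.span_singleton_le_iff_mem _).1 hle2)
          exact hcop ⟨Q, hQ.isPrime, hQ0⟩ h3 (hle.trans hle2)
        · by_cases h2 : p ≤ z₁
          · exact hb2 ⟨p, (hTp p).2 ⟨h2, hp, h1⟩, Ideal.dvd_iff_le.2 hle, hcop⟩
          · exact htl (Or.inr ⟨p, hp, not_le.1 h2, hle⟩)
  -- the limit
  have hcopT : Cop M (⊤ : Ideal (𝓞 K)) := fun P _ h => P.isPrime.ne_top (top_le_iff.1 h)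
  have hl0 := hlimD ⊤ top_ne_bot hcopT
  have hl1 : Filter.Tendsto (fun X : ℝ =>
      ∑ P ∈ TP, (({I ∈ IdLe K X | P.asIdeal ^ 2 ∣ I ∧ Cop M I}.ncard : ℕ) : ℝ) / X)
      Filter.atTop (nhds (∑ P ∈ TP, A / Ideal.absNorm (P.asIdeal ^ 2))) :=
    tendsto_finset_sum _ fun P hP => hlimD _ (pow_ne_zero 2 P.ne_bot) (hCopP P hP)
  have hl2 : Filter.Tendsto (fun X : ℝ =>
      ∑ p ∈ Tp, (({I ∈ IdLe K X | Ideal.span {(p : 𝓞 K)} ∣ I ∧ Cop M I}.ncard : ℕ) : ℝ) / X)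
      Filter.atTop (nhds (∑ p ∈ Tp, A / Ideal.absNorm (Ideal.span {(p : 𝓞 K)}))) :=
    tendsto_finset_sum _ fun p hp => hlimD _ (hp0 p ((hTp p).1 hp).2.1) (hCopp p hp)
  have hs1 : ∑ P ∈ TP, A / Ideal.absNorm (P.asIdeal ^ 2) ≤ A / 8 := by
    have h1 : ∀ P ∈ TP, z₀ < nP P := fun P hP => hlarge P ((hTP P).1 hP).2
    have h2 := hzP z₀ (hz₀ ▸ le_max_left _ _) TP h1
    calc ∑ P ∈ TP, A / Ideal.absNorm (P.asIdeal ^ 2) = A * ∑ P ∈ TP, ((nP P : ℝ) ^ 2)⁻¹ := by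
          rw [Finset.mul_sum]
          refine Finset.sum_congr rfl fun P _ => ?_
          rw [hnP, div_eq_mul_inv]
      _ ≤ A * (1 / 8) := mul_le_mul_of_nonneg_left h2 hA.le
      _ = A / 8 := by ring
  have hs2 : ∑ p ∈ Tp, A / Ideal.absNorm (Ideal.span {(p : 𝓞 K)}) ≤ A / 8 := by
    have h1 : ∀ p ∈ Tp, z₀ < p := fun p hp =>
      hlargep p ((hTp p).1 hp).2.1 ((hTp p).1 hp).2.2
    have h2 := hzp z₀ (hz₀ ▸ le_max_right _ _) Tp h1
    calc ∑ p ∈ Tp, A / Ideal.absNorm (Ideal.span {(p : 𝓞 K)}) ≤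
          ∑ p ∈ Tp, A * ((p : ℝ) ^ 2)⁻¹ := by
          refine Finset.sum_le_sum fun p hp => ?_
          have hp' := ((hTp p).1 hp).2.1
          have h3 : (0 : ℝ) < (p : ℝ) ^ 2 := by
            have : (0 : ℝ) < p := by exact_mod_cast hp'.pos
            positivity
          rw [← div_eq_mul_inv]
          exact div_le_div_of_nonneg_left hA.le h3 (hnp p hp')
      _ = A * ∑ p ∈ Tp, ((p : ℝ) ^ 2)⁻¹ := by rw [Finset.mul_sum]
      _ ≤ A * (1 / 8) := mul_le_mul_of_nonneg_left h2 hA.le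
      _ = A / 8 := by ring
  have hl3 := (hl0.sub (hl1.add hl2))
  have hgt : A / 2 < A / Ideal.absNorm (⊤ : Ideal (𝓞 K)) -
      (∑ P ∈ TP, A / Ideal.absNorm (P.asIdeal ^ 2) +
        ∑ p ∈ Tp, A / Ideal.absNorm (Ideal.span {(p : 𝓞 K)})) := by
    rw [Ideal.absNorm_top, Nat.cast_one, div_one]
    linarith
  refine ⟨A / 4, by positivity, ?_⟩
  filter_upwards [hl3.eventually_const_lt hgt, Filter.eventually_gt_atTop 0] with X hX hX0
  have h1 := hcmp X hX0.le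
  rw [← Finset.sum_div, ← Finset.sum_div, ← add_div, ← sub_div, lt_div_iff₀ hX0] at hX
  have h2 : ε z₁ * X ≤ A / 8 * X := mul_le_mul_of_nonneg_right hz₁.le hX0.le
  have h3 : 0 ≤ A * X := by positivity
  linarith

end Pool.Agent.H32.MA.SN
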