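import Pool.Agent.H32.MA.SNId

/-!
# Project MA9 (MP_a9b340), block SN: the inner sums at the ideals of good sets
-/

set_option autoImplicit false

open scoped BigOperators nonZeroDivisors
open NumberField IsDedekindDomain

namespace Pool.Agent.H32.MA.SN

open Pool.Agent.H98.MF (ord IdLe PER Reps CoP cof sgnN)
open Pool.Agent.H32.MA

variable {K : Type} [Field K] [NumberField K]

private theorem gi_dvd_nS {e : Finset (HeightOneSpectrum (𝓞 K))} {P : HeightOneSpectrum (𝓞 K)}
    (hP : P ∈ e) : nP P ∣ nS e := Finset.dvd_prod_of_mem nP hP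

private theorem gi_prime_dvd {m : ℕ} {e : Finset (HeightOneSpectrum (𝓞 K))} (he : Good m e)
    {p : ℕ} (hp : p.Prime) (h : p ∣ nS e) : ∃ Q ∈ e, nP Q = p := by
  unfold nS at h
  obtain ⟨Q, hQ, hQp⟩ := (hp.prime.dvd_finsetProd_iff _).1 h
  refine ⟨Q, hQ, ?_⟩
  exact ((Nat.prime_dvd_prime_iff_eq hp (he.1 Q hQ).1).1 hQp).symm

private theorem gi_nS_ne {m : ℕ} {e : Finset (HeightOneSpectrum (𝓞 K))} (he : Good m e) :
    nS e ≠ 0 := Finset.prod_ne_zero_iff.2 fun Q hQ => (he.1 Q hQ).1.ne_zero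

private theorem gi_not_dvd {m : ℕ} {e f : Finset (HeightOneSpectrum (𝓞 K))} (he : Good m e)
    (hc : Cmp m e f) {P : HeightOneSpectrum (𝓞 K)} (hP : P ∈ f) : ¬ nP P ∣ m * nS e := by
  classical
  obtain ⟨hd, hg⟩ := hc
  have hPu : P ∈ e ∪ f := Finset.mem_union_right _ hP
  obtain ⟨hpr, hnm⟩ := hg.1 P hPu
  intro h
  rcases (hpr.dvd_mul).1 h with h1 | h1
  · exact hnm h1
  · obtain ⟨Q, hQ, hQP⟩ := gi_prime_dvd he hpr h1
    have hQu : Q ∈ e ∪ f := Finset.mem_union_left _ hQ
    have h2 : Q = P := hg.2 (Finset.mem_coe.2 hQu) (Finset.mem_coe.2 hPu) hQP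
    rw [h2] at hQ
    exact Finset.disjoint_left.1 hd hQ hP

/-- the compatible sets are the good sets for a larger modulus -/
theorem cmp_iff (F : QF K) (m : ℕ) (h : Hyp F m) (e f : Finset (HeightOneSpectrum (𝓞 K)))
    (he : Good m e) : (Good m f ∧ Cmp m e f) ↔ Good (m * nS e) f := by
  classical
  have _ := h
  constructor
  · rintro ⟨hf, hc⟩
    exact ⟨fun P hP => ⟨(hf.1 P hP).1, gi_not_dvd he hc hP⟩, hf.2⟩
  · intro hg
    have hm : ∀ P ∈ f, ¬ nP P ∣ m := fun P hP h1 => (hg.1 P hP).2 (h1.mul_right _)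
    have hn : ∀ P ∈ f, ¬ nP P ∣ nS e := fun P hP h1 => (hg.1 P hP).2 (h1.mul_left _)
    have hf : Good m f := ⟨fun P hP => ⟨(hg.1 P hP).1, hm P hP⟩, hg.2⟩
    refine ⟨hf, ?_, ?_, ?_⟩
    · rw [Finset.disjoint_left]
      intro P hPe hPf
      exact hn P hPf (gi_dvd_nS hPe)
    · intro P hP
      rcases Finset.mem_union.1 hP with h1 | h1
      · exact he.1 P h1
      · exact hf.1 P h1
    · intro P hP Q hQ hPQ
      rw [Finset.mem_coe, Finset.mem_union] at hP hQ
      rcases hP with hP | hP <;> rcases hQ with hQ | hQ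
      · exact he.2 (Finset.mem_coe.2 hP) (Finset.mem_coe.2 hQ) hPQ
      · exfalso
        apply hn Q hQ
        rw [← hPQ]
        exact gi_dvd_nS hP
      · exfalso
        apply hn P hP
        rw [hPQ]
        exact gi_dvd_nS hQ
      · exact hf.2 (Finset.mem_coe.2 hP) (Finset.mem_coe.2 hQ) hPQ

theorem GI_idS (F : QF K) (m : ℕ) (h : Hyp F m) (Ψ : K → ℝ)
    (e f : Finset (HeightOneSpectrum (𝓞 K))) (he : Good m e) (hc : Cmp m e f) :
    GI F m Ψ e (idS f) = GG F m Ψ e f := by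
  classical
  have hcop : Cop (m * nS e) (idS f) := by
    intro P hP hle
    have hPf : P ∈ f := (idS_le f P).1 hle
    have hpr : (nP P).Prime := (hc.2.1 P (Finset.mem_union_right _ hPf)).1
    exact gi_not_dvd he hc hPf
      ((ord_nat_iff P hpr _ (mul_ne_zero h.ne (gi_nS_ne he))).1 hP)
  have hset : BI m e (idS f) = BB m (e ∪ f) := by
    unfold BI BB
    ext q
    have hval : ∀ P : HeightOneSpectrum (𝓞 K),
        (if P ∈ e then (1 : ZMod 2) else 0) + ((vI P (idS f) : ℤ) : ZMod 2) =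
          if P ∈ e ∪ f then 1 else 0 := by
      intro P
      rw [vI_idS]
      by_cases h1 : P ∈ e
      · have h2 : P ∉ f := Finset.disjoint_left.1 hc.1 h1
        rw [if_pos h1, if_neg h2, if_pos (Finset.mem_union_left _ h1)]
        simp
      · by_cases h2 : P ∈ f
        · rw [if_neg h1, if_pos h2, if_pos (Finset.mem_union_right _ h2)]
          simp
        · have h3 : P ∉ e ∪ f := fun h3 => (Finset.mem_union.1 h3).elim h1 h2
          rw [if_neg h1, if_neg h2, if_neg h3]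
          simp
    constructor
    · intro hq P hP
      have h1 := hq P hP
      rw [h1]
      convert hval P using 2
    · intro hq P hP
      have h1 := hq P hP
      rw [h1]
      symm
      convert hval P using 2
  unfold GI
  rw [if_pos ⟨hcop, idS_ne_bot f⟩]
  unfold HI GG
  rw [hset]

theorem BI_eq (m : ℕ) (e : Finset (HeightOneSpectrum (𝓞 K))) (I : Ideal (𝓞 K)) (hI : I ≠ ⊥) :
    ∃ S : Finset (HeightOneSpectrum (𝓞 K)), BI m e I = BB m S := by
  classical
  have _ := hI
  have hfin : {P : HeightOneSpectrum (𝓞 K) | vI P I ≠ 0}.Finite := by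
    have h := FractionalIdeal.finite_factors (K := K) (I : FractionalIdeal (𝓞 K)⁰ K)
    simpa [vI, Filter.eventually_cofinite] using h
  refine ⟨(e ∪ hfin.toFinset).filter (fun P =>
    (if P ∈ e then (1 : ZMod 2) else 0) + ((vI P I : ℤ) : ZMod 2) = 1), ?_⟩
  have hz : ∀ x : ZMod 2, x ≠ 1 → x = 0 := by decide
  have hval : ∀ P : HeightOneSpectrum (𝓞 K),
      (if P ∈ e then (1 : ZMod 2) else 0) + ((vI P I : ℤ) : ZMod 2) =
        if P ∈ (e ∪ hfin.toFinset).filter (fun P =>
          (if P ∈ e then (1 : ZMod 2) else 0) + ((vI P I : ℤ) : ZMod 2) = 1) then 1 else 0 := by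
    intro P
    by_cases h1 : (if P ∈ e then (1 : ZMod 2) else 0) + ((vI P I : ℤ) : ZMod 2) = 1
    · have hmem : P ∈ (e ∪ hfin.toFinset).filter (fun P =>
          (if P ∈ e then (1 : ZMod 2) else 0) + ((vI P I : ℤ) : ZMod 2) = 1) := by
        rw [Finset.mem_filter, Finset.mem_union, Set.Finite.mem_toFinset]
        refine ⟨?_, h1⟩
        by_contra hcon
        push Not at hcon
        obtain ⟨h2, h3⟩ := hcon
        have h4 : vI P I = 0 := by
          by_contra h5
          exact h3 h5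
        rw [if_neg h2, h4] at h1
        simp at h1
      rw [h1, if_pos hmem]
    · have hmem : P ∉ (e ∪ hfin.toFinset).filter (fun P =>
          (if P ∈ e then (1 : ZMod 2) else 0) + ((vI P I : ℤ) : ZMod 2) = 1) := by
        rw [Finset.mem_filter]
        exact fun h2 => h1 h2.2
      rw [hz _ h1, if_neg hmem]
  unfold BI BB
  ext q
  constructor
  · intro hq P hP
    have h1 := hq P hP
    rw [h1]
    convert hval P using 2
  · intro hq P hP
    have h1 := hq P hP
    rw [h1]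
    symm
    convert hval P using 2

private theorem gi_chS (e : Finset (HeightOneSpectrum (𝓞 K))) (γ : K) :
    |(chS e γ : ℝ)| = 1 := by
  unfold chS
  push_cast
  rw [Finset.abs_prod]
  refine Finset.prod_eq_one fun P _ => ?_
  unfold chP
  split_ifs <;> simp

theorem GI_bdd (hB : StmBB) (F : QF K) (m : ℕ) (h : Hyp F m) (Ψ : K → ℝ) (A : ℝ)
    (hΨ : ∀ b, 0 ≤ Ψ b ∧ Ψ b ≤ A) (e : Finset (HeightOneSpectrum (𝓞 K))) :
    ∃ C : ℝ, ∀ I, |GI F m Ψ e I| ≤ C := by
  classical
  have hA : 0 ≤ A := (hΨ 0).1.trans (hΨ 0).2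
  refine ⟨((4 ^ (m.primeFactors.card + 1) : ℕ) : ℝ) * A, fun I => ?_⟩
  unfold GI
  split_ifs with hI
  · obtain ⟨S, hS⟩ := BI_eq m e I hI.2
    obtain ⟨hfin, hcard⟩ := hB K F m h.ne h.dv S
    unfold HI
    rw [hS, finsum_mem_eq_finite_toFinset_sum _ hfin]
    refine (Finset.abs_sum_le_sum_abs _ _).trans ?_
    have h1 : ∀ q ∈ hfin.toFinset, |Ψ (rp q) * (chS e (F.cj (rp q)) : ℝ)| ≤ A := by
      intro q _
      rw [abs_mul, gi_chS, mul_one, abs_of_nonneg (hΨ _).1]
      exact (hΨ _).2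
    refine (Finset.sum_le_card_nsmul _ _ _ h1).trans ?_
    rw [nsmul_eq_mul]
    apply mul_le_mul_of_nonneg_right _ hA
    rw [Set.ncard_eq_toFinset_card _ hfin] at hcard
    exact_mod_cast hcard
  · rw [abs_zero]
    positivity

end Pool.Agent.H32.MA.SN
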