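import Pool.Agent.H32.MA.SNPer
import Pool.Agent.H32.MA.SNGI
import Pool.Agent.H98.MF.NElem
import Pool.Agent.H98.MF.NCos
import Pool.Agent.H98.MF.NFin
import Pool.Agent.H98.MF.L.Ord

set_option autoImplicit false

open scoped BigOperators nonZeroDivisors
open NumberField IsDedekindDomain

namespace Pool.Agent.H32.MA.SN

open Pool.Agent.H98.MF (ord IdLe PER Reps CoP cof sgnN)
open Pool.Agent.H32.MA

variable {K : Type} [Field K] [NumberField K]

private theorem ps_cof_eq {J : Ideal (𝓞 K)} (hJ : J ≠ ⊥) {α : 𝓞 K} {I : Ideal (𝓞 K)}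
    (h : Ideal.span {α} = I * J) : cof J α = I := by
  have hex : ∃ I : Ideal (𝓞 K), Ideal.span {α} = I * J := ⟨I, h⟩
  rw [cof, dif_pos hex]
  exact (mul_right_cancel₀ hJ (h.symm.trans hex.choose_spec)).symm

private theorem ps_nonneg (F : QF K) (m : ℕ) (Ψ : K → ℝ) (hΨ : ∀ b, 0 ≤ Ψ b)
    (I : Ideal (𝓞 K)) : 0 ≤ GI F m Ψ ∅ I := by
  unfold GI
  split_ifs
  · unfold HI
    refine finsum_nonneg fun q => finsum_nonneg fun _ => ?_
    have h1 : chS ∅ (F.cj (rp q)) = 1 := by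
      unfold chS
      exact Finset.prod_empty
    rw [h1, Int.cast_one, mul_one]
    exact hΨ _
  · exact le_rfl

private theorem ps_rp (b : K) (hb : b ≠ 0) : ∃ z : K, z ≠ 0 ∧
    rp (QuotientGroup.mk (Units.mk0 b hb) : SqC K) = b * z ^ 2 := by
  obtain ⟨⟨x, hx1⟩, hx⟩ :=
    QuotientGroup.mk_out_eq_mul (powMonoidHom 2 : Kˣ →* Kˣ).range (Units.mk0 b hb)
  obtain ⟨u, hu⟩ := hx1
  refine ⟨(u : K), u.ne_zero, ?_⟩
  unfold rp
  rw [hx]
  show b * (x : K) = b * (u : K) ^ 2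
  rw [← hu]
  rfl

private theorem ps_pos (F : QF K) (m : ℕ) (h : Hyp F m) (Ψ : K → ℝ) (hΨ : ∀ b, 0 ≤ Ψ b)
    (hl : MLoc m Ψ) (hB : StmBB) (b : K) (S : Finset (HeightOneSpectrum (𝓞 K))) (hb : b ≠ 0)
    (hb' : 0 < Ψ b) (hS : Good m S)
    (hP : ∀ P : HeightOneSpectrum (𝓞 K), ¬ 1 ≤ ord P (m : K) →
      (P ∈ S → ((ord P b : ℤ) : ZMod 2) = 1) ∧
      (P ∉ S → ((ord P b : ℤ) : ZMod 2) = 0)) : 0 < GI F m Ψ ∅ (idS S) := by
  classical
  have hGe : Good m (∅ : Finset (HeightOneSpectrum (𝓞 K))) := by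
    refine ⟨fun P hP => absurd hP (Finset.notMem_empty P), ?_⟩
    intro P hP
    exact absurd hP (by simp)
  have hC : Cmp m ∅ S := by
    refine ⟨Finset.disjoint_empty_left _, ?_⟩
    rw [Finset.empty_union]
    exact hS
  rw [GI_idS F m h Ψ ∅ S hGe hC]
  unfold GG
  have hfin := (hB K F m h.ne h.dv (∅ ∪ S)).1
  rw [finsum_mem_eq_finite_toFinset_sum _ hfin]
  obtain ⟨z, hz, hrp⟩ := ps_rp b hb
  have hch : ∀ q : SqC K, chS ∅ (F.cj (rp q)) = 1 := by
    intro q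
    unfold chS
    exact Finset.prod_empty
  refine Finset.sum_pos' (fun q _ => ?_)
    ⟨(QuotientGroup.mk (Units.mk0 b hb) : SqC K), hfin.mem_toFinset.2 ?_, ?_⟩
  · rw [hch, Int.cast_one, mul_one]
    exact hΨ _
  · intro P hPm
    rw [hrp, Pool.Agent.H98.MF.ord_mul P hb (pow_ne_zero 2 hz), Pool.Agent.H98.MF.ord_pow]
    have h2 : (((ord P b + ((2 : ℕ) : ℤ) * ord P z : ℤ)) : ZMod 2) = ((ord P b : ℤ) : ZMod 2) := by
      push_cast
      have : (2 : ZMod 2) = 0 := by decide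
      rw [this, zero_mul, add_zero]
    rw [h2, Finset.empty_union]
    split_ifs with h3
    · exact (hP P hPm).1 h3
    · exact (hP P hPm).2 h3
  · rw [hch, Int.cast_one, mul_one, hrp, hl.sq b z hb hz]
    exact hb'

private theorem ps_ev (D ε s : ℝ) (hε : 0 < ε) (hs : 0 < s) :
    ∀ᶠ Y : ℝ in Filter.atTop, D * Y ^ (1 - s) ≤ ε * Y := by
  have h1 : Filter.Tendsto (fun Y : ℝ => D * Y ^ (-s)) Filter.atTop (nhds (D * 0)) :=
    (tendsto_rpow_neg_atTop hs).const_mul D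
  rw [mul_zero] at h1
  have h2 := h1.eventually (Iio_mem_nhds hε)
  filter_upwards [h2, Filter.eventually_gt_atTop 0] with Y hY hY0
  have e : Y ^ (1 - s) = Y * Y ^ (-s) := by
    rw [sub_eq_add_neg, Real.rpow_add hY0, Real.rpow_one]
  rw [e]
  have h3 : D * Y ^ (-s) < ε := hY
  nlinarith

private theorem ps_cone_ne {α : 𝓞 K} {X : ℝ} (h : α ∈ Pool.Agent.H98.MF.Cone X) : α ≠ 0 := by
  rintro rfl
  apply h.1.2
  simp

/-- positivity of the mean value for `e = ∅` -/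
theorem den_pos (F : QF K) (m : ℕ) (h : Hyp F m) (Ψ : K → ℝ) (hΨ : ∀ b, 0 ≤ Ψ b)
    (hl : MLoc m Ψ) (a : ℝ) (ha : Den (m * nS (∅ : Finset (HeightOneSpectrum (𝓞 K))))
      (GI F m Ψ ∅) a) (hB : StmBB)
    (hex : ∃ (b : K) (S : Finset (HeightOneSpectrum (𝓞 K))), b ≠ 0 ∧ 0 < Ψ b ∧ Good m S ∧
        ∀ P : HeightOneSpectrum (𝓞 K), ¬ 1 ≤ ord P (m : K) →
          (P ∈ S → ((ord P b : ℤ) : ZMod 2) = 1) ∧
          (P ∉ S → ((ord P b : ℤ) : ZMod 2) = 0)) : 0 < a := by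
  classical
  obtain ⟨b, S, hb, hb', hS, hP⟩ := hex
  have hg0 := ps_pos F m h Ψ hΨ hl hB b S hb hb' hS hP
  obtain ⟨x, hx, hx0⟩ := Submodule.exists_mem_ne_zero_of_ne_bot (idS_ne_bot S)
  obtain ⟨J, hJ⟩ := Ideal.dvd_span_singleton.2 hx
  have hJ0 : J ≠ ⊥ := by
    rintro rfl
    rw [Ideal.mul_bot, Ideal.span_singleton_eq_bot] at hJ
    exact hx0 hJ
  have hcof : cof J x = idS S := ps_cof_eq hJ0 hJ
  have hxJ : x ∈ J := by
    have h1 : x ∈ Ideal.span {x} := Ideal.mem_span_singleton_self x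
    rw [hJ] at h1
    exact Ideal.mul_le_right h1
  have hGe : Good m (∅ : Finset (HeightOneSpectrum (𝓞 K))) := by
    refine ⟨fun P hP => absurd hP (Finset.notMem_empty P), ?_⟩
    intro P hP
    exact absurd hP (by simp)
  have hnS : nS (∅ : Finset (HeightOneSpectrum (𝓞 K))) = 1 := by
    unfold nS
    exact Finset.prod_empty
  obtain ⟨M, hM⟩ : ∃ M : Ideal (𝓞 K), M = Ideal.span
      {((m * nS (∅ : Finset (HeightOneSpectrum (𝓞 K))) : ℕ) : 𝓞 K)} := ⟨_, rfl⟩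
  have hM0 : M ≠ ⊥ := by
    rw [hM, Ne, Ideal.span_singleton_eq_bot, hnS, mul_one]
    exact_mod_cast h.ne
  have hMJ : M * J ≠ ⊥ := mul_ne_zero hM0 hJ0
  have hper : PER J M (GI F m Ψ ∅) := by
    rw [hM]
    exact GI_per F m h Ψ hl ∅ hGe J hJ0
  obtain ⟨κ, hκ, C, hC, hcount⟩ := Pool.Agent.H98.MF.coset_count K
  have hNJ : (0:ℝ) < (Ideal.absNorm J : ℝ) := by
    have : Ideal.absNorm J ≠ 0 := fun h0 => hJ0 (Ideal.absNorm_eq_zero_iff.1 h0)
    positivity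
  have hNJ1 : (1:ℝ) ≤ (Ideal.absNorm J : ℝ) := by
    have : 0 < Ideal.absNorm J := by exact_mod_cast hNJ
    exact_mod_cast this
  have hNMJ : (0:ℝ) < (Ideal.absNorm (M * J) : ℝ) := by
    have : Ideal.absNorm (M * J) ≠ 0 := fun h0 => hMJ (Ideal.absNorm_eq_zero_iff.1 h0)
    positivity
  have hw : (0:ℝ) < (Units.torsionOrder K : ℝ) := by
    exact_mod_cast Units.torsionOrder_pos K
  -- lower bound for the sum
  have hlow : ∀ X : ℝ, 1 ≤ X → GI F m Ψ ∅ (idS S) *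
      ((Pool.Agent.H98.MF.coset (M * J) x (sgnN x) (X * Ideal.absNorm J)).ncard : ℝ) ≤
      (Units.torsionOrder K : ℝ) * ∑ᶠ I ∈ {I ∈ IdLe K X | (⊤ : Ideal (𝓞 K)) ∣ I},
        GI F m Ψ ∅ I := by
    intro X hX
    have hY1 : (1:ℝ) ≤ X * Ideal.absNorm J := by nlinarith
    have hfc := (hcount (M * J) hMJ x (sgnN x) (X * Ideal.absNorm J) hY1).1
    have hfin1 : ({I ∈ IdLe K X | (⊤ : Ideal (𝓞 K)) ∣ I}).Finite :=
      (Pool.Agent.H98.MF.finite_IdLe K X).subset (fun I hI => hI.1)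
    have hfin2 : ({I ∈ IdLe K X | CoP J I}).Finite :=
      (Pool.Agent.H98.MF.finite_IdLe K X).subset (fun I hI => hI.1)
    have hfin3 : ({α ∈ Pool.Agent.H98.MF.Cone (K := K) (X * Ideal.absNorm J) | α ∈ J}).Finite :=
      (Pool.Agent.H98.MF.finite_Cone K _).subset (fun I hI => hI.1)
    have h1 : ∑ᶠ I ∈ {I ∈ IdLe K X | CoP J I}, GI F m Ψ ∅ I ≤
        ∑ᶠ I ∈ {I ∈ IdLe K X | (⊤ : Ideal (𝓞 K)) ∣ I}, GI F m Ψ ∅ I := by
      rw [finsum_mem_eq_finite_toFinset_sum _ hfin1, finsum_mem_eq_finite_toFinset_sum _ hfin2]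
      refine Finset.sum_le_sum_of_subset_of_nonneg ?_ (fun I _ _ => ps_nonneg F m Ψ hΨ I)
      intro I hI
      rw [Set.Finite.mem_toFinset] at hI ⊢
      refine ⟨hI.1, ?_⟩
      rw [← Ideal.one_eq_top]
      exact one_dvd I
    refine le_trans ?_ (mul_le_mul_of_nonneg_left h1 hw.le)
    rw [Pool.Agent.H98.MF.elem_sum K J hJ0, finsum_mem_eq_finite_toFinset_sum _ hfin3,
      Set.ncard_eq_toFinset_card _ hfc]
    calc GI F m Ψ ∅ (idS S) * (hfc.toFinset.card : ℝ)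
        = ∑ α ∈ hfc.toFinset, GI F m Ψ ∅ (cof J α) := by
          rw [mul_comm, ← nsmul_eq_mul, ← Finset.sum_const]
          refine Finset.sum_congr rfl fun α hα => ?_
          rw [Set.Finite.mem_toFinset] at hα
          have hαJ : α ∈ J := by
            have h2 : α - x ∈ J := Ideal.mul_le_right hα.2.1
            have h3 := J.add_mem h2 hxJ
            rwa [sub_add_cancel] at h3
          rw [← hcof]
          exact (hper α x (ps_cone_ne hα.1) hx0 hαJ hα.2.1 hα.2.2).symm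
      _ ≤ ∑ α ∈ hfin3.toFinset, GI F m Ψ ∅ (cof J α) := by
          refine Finset.sum_le_sum_of_subset_of_nonneg ?_
            (fun I _ _ => ps_nonneg F m Ψ hΨ _)
          intro α hα
          rw [Set.Finite.mem_toFinset] at hα ⊢
          refine ⟨hα.1, ?_⟩
          have h2 : α - x ∈ J := Ideal.mul_le_right hα.2.1
          have h3 := J.add_mem h2 hxJ
          rwa [sub_add_cancel] at h3
  -- the limit
  have hcop : Cop (m * nS (∅ : Finset (HeightOneSpectrum (𝓞 K)))) (⊤ : Ideal (𝓞 K)) := by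
    intro P _ hle
    exact P.isPrime.ne_top (top_le_iff.1 hle)
  have hlim := ha.lim ⊤ (by
    rw [← Ideal.one_eq_top]
    exact one_ne_zero) hcop
  rw [Ideal.absNorm_top, Nat.cast_one, div_one] at hlim
  have hr : 0 < (1 / (Module.finrank ℚ K : ℝ)) := by
    rw [F.rank]
    norm_num
  obtain ⟨c, hc⟩ : ∃ c : ℝ, c = GI F m Ψ ∅ (idS S) * (κ * Ideal.absNorm J /
      (2 * Ideal.absNorm (M * J))) / Units.torsionOrder K := ⟨_, rfl⟩
  have hc0 : 0 < c := by
    rw [hc]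
    positivity
  have hev : ∀ᶠ X : ℝ in Filter.atTop, c ≤
      (∑ᶠ I ∈ {I ∈ IdLe K X | (⊤ : Ideal (𝓞 K)) ∣ I}, GI F m Ψ ∅ I) / X := by
    have h5 := ps_ev (C * (Ideal.absNorm (M * J) : ℝ) ^ Module.finrank ℚ K)
      (κ / (2 * Ideal.absNorm (M * J))) (1 / (Module.finrank ℚ K : ℝ)) (by positivity) hr
    have h6 : Filter.Tendsto (fun X : ℝ => X * (Ideal.absNorm J : ℝ)) Filter.atTop
        Filter.atTop := Filter.tendsto_id.atTop_mul_const hNJ
    filter_upwards [h6.eventually h5, Filter.eventually_ge_atTop 1] with X hX hX1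
    have hX0 : 0 < X := lt_of_lt_of_le one_pos hX1
    have hY1 : (1:ℝ) ≤ X * Ideal.absNorm J := by nlinarith
    have h7 := (abs_le.1 (hcount (M * J) hMJ x (sgnN x) (X * Ideal.absNorm J) hY1).2).1
    have h8 := hlow X hX1
    have h9 : κ / (2 * Ideal.absNorm (M * J)) * (X * Ideal.absNorm J) ≤
        ((Pool.Agent.H98.MF.coset (M * J) x (sgnN x) (X * Ideal.absNorm J)).ncard : ℝ) := by
      have e9 : κ * (X * Ideal.absNorm J) / Ideal.absNorm (M * J) =
          κ / (2 * Ideal.absNorm (M * J)) * (X * Ideal.absNorm J) +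
          κ / (2 * Ideal.absNorm (M * J)) * (X * Ideal.absNorm J) := by
        field_simp
        ring
      rw [e9] at h7
      linarith
    rw [le_div_iff₀ hX0, hc, div_mul_eq_mul_div, div_le_iff₀ hw]
    have h10 := mul_le_mul_of_nonneg_left h9 hg0.le
    calc GI F m Ψ ∅ (idS S) * (κ * Ideal.absNorm J / (2 * Ideal.absNorm (M * J))) * X
        = GI F m Ψ ∅ (idS S) *
          (κ / (2 * Ideal.absNorm (M * J)) * (X * Ideal.absNorm J)) := by
          field_simp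
      _ ≤ _ := h10
      _ ≤ _ := h8
      _ = _ := mul_comm _ _
  exact lt_of_lt_of_le hc0 (ge_of_tendsto hlim hev)

end Pool.Agent.H32.MA.SN
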