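import Pool.Agent.H32.MA.SNDefs
import Pool.Agent.H98.MF.NFin

set_option autoImplicit false

open scoped BigOperators nonZeroDivisors
open NumberField IsDedekindDomain

namespace Pool.Agent.H32.MA.SN

open Pool.Agent.H98.MF (ord IdLe PER Reps CoP cof sgnN)
open Pool.Agent.H32.MA

variable {K : Type} [Field K] [NumberField K]

open Classical in
private theorem si_ind (Bs : Finset (Ideal (𝓞 K))) (I : Ideal (𝓞 K)) :
    (if ∀ B ∈ Bs, ¬ B ∣ I then (1 : ℝ) else 0) =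
      ∑ W ∈ Bs.powerset, (-1 : ℝ) ^ W.card * (if W.inf id ∣ I then 1 else 0) := by
  have h1 : (if ∀ B ∈ Bs, ¬ B ∣ I then (1 : ℝ) else 0) =
      ∏ B ∈ Bs, (-(if B ∣ I then (1 : ℝ) else 0) + 1) := by
    have e : ∀ B ∈ Bs, (-(if B ∣ I then (1 : ℝ) else 0) + 1) = if ¬ B ∣ I then (1 : ℝ) else 0 := by
      intro B _
      by_cases h : B ∣ I <;> simp [h]
    rw [Finset.prod_congr rfl e, Finset.prod_ite_zero]
    simp
  rw [h1, Finset.prod_add]
  refine Finset.sum_congr rfl fun W _ => ?_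
  rw [Finset.prod_const_one, mul_one, Finset.prod_neg, Finset.prod_ite_zero,
    Finset.prod_const_one]
  have e : (∀ i ∈ W, i ∣ I) ↔ W.inf id ∣ I := by
    rw [Ideal.dvd_iff_le, Finset.le_inf_iff]
    simp only [Ideal.dvd_iff_le, id]
  congr 1
  simp only [e]

open Classical in
private theorem si_sum (p : Ideal (𝓞 K) → Prop) (G : Ideal (𝓞 K) → ℝ) (X : ℝ) :
    ∑ᶠ I ∈ {I ∈ IdLe K X | p I}, G I =
      ∑ I ∈ (Pool.Agent.H98.MF.finite_IdLe K X).toFinset, G I * (if p I then 1 else 0) := by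
  have e : {I ∈ IdLe K X | p I} =
      (((Pool.Agent.H98.MF.finite_IdLe K X).toFinset.filter p : Finset (Ideal (𝓞 K))) :
        Set (Ideal (𝓞 K))) := by
    ext I
    simp
  rw [e, finsum_mem_coe_finset, Finset.sum_filter]
  refine Finset.sum_congr rfl fun I _ => ?_
  by_cases h : p I <;> simp [h]

open Classical in
/-- inclusion and exclusion for finitely many divisors -/
theorem inc_exc (m : ℕ) (Bs : Finset (Ideal (𝓞 K))) (h0 : ∀ B ∈ Bs, B ≠ ⊥)
    (h1 : ∀ B ∈ Bs, Cop m B) : ∃ s : ℝ, ∀ (G : Ideal (𝓞 K) → ℝ) (A : ℝ), Den m G A →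
      Filter.Tendsto
        (fun X : ℝ => (∑ᶠ I ∈ {I ∈ IdLe K X | ∀ B ∈ Bs, ¬ B ∣ I}, G I) / X) Filter.atTop
        (nhds (s * A)) := by
  refine ⟨∑ W ∈ Bs.powerset, (-1 : ℝ) ^ W.card / (Ideal.absNorm (W.inf id) : ℝ), ?_⟩
  intro G A hG
  have e : ∀ X : ℝ, (∑ᶠ I ∈ {I ∈ IdLe K X | ∀ B ∈ Bs, ¬ B ∣ I}, G I) / X =
      ∑ W ∈ Bs.powerset, (-1 : ℝ) ^ W.card *
        ((∑ᶠ I ∈ {I ∈ IdLe K X | W.inf id ∣ I}, G I) / X) := by
    intro X
    have e2 : ∑ᶠ I ∈ {I ∈ IdLe K X | ∀ B ∈ Bs, ¬ B ∣ I}, G I =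
        ∑ W ∈ Bs.powerset, (-1 : ℝ) ^ W.card *
          ∑ᶠ I ∈ {I ∈ IdLe K X | W.inf id ∣ I}, G I := by
      simp only [si_sum, Finset.mul_sum]
      rw [Finset.sum_comm]
      refine Finset.sum_congr rfl fun I _ => ?_
      have h := congrArg (fun t : ℝ => G I * t) (si_ind Bs I)
      simp only [Finset.mul_sum] at h
      refine Eq.trans ?_ (h.trans (Finset.sum_congr rfl fun W _ => ?_))
      · congr
      · ring
    rw [e2, Finset.sum_div]
    refine Finset.sum_congr rfl fun W _ => ?_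
    ring
  simp only [e]
  rw [Finset.sum_mul]
  refine tendsto_finsetSum _ fun W hW => ?_
  have hWs : W ⊆ Bs := Finset.mem_powerset.mp hW
  have hne : W.inf id ≠ ⊥ := by
    intro h
    have h2 : ∏ B ∈ W, id B ≤ W.inf id := Ideal.prod_le_inf
    rw [h, le_bot_iff] at h2
    have h3 : ∏ B ∈ W, id B ≠ 0 := Finset.prod_ne_zero_iff.mpr fun B hB => h0 B (hWs hB)
    exact h3 (by rw [h2]; rfl)
  have hcop : Cop m (W.inf id) := by
    intro P hP hle
    obtain ⟨B, hB, hB2⟩ := (Ideal.IsPrime.inf_le' P.isPrime).mp hle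
    exact h1 B (hWs hB) P hP hB2
  have := (hG.lim (W.inf id) hne hcop).const_mul ((-1 : ℝ) ^ W.card)
  have e3 : (-1 : ℝ) ^ W.card / (Ideal.absNorm (W.inf id) : ℝ) * A =
      (-1 : ℝ) ^ W.card * (A / (Ideal.absNorm (W.inf id) : ℝ)) := by ring
  rw [e3]
  exact this

end Pool.Agent.H32.MA.SN
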