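import Pool.Agent.H32.MA.SNTail
import Pool.Agent.H32.MA.SNInc
import Pool.Agent.H32.MA.SNOne

set_option autoImplicit false

open scoped BigOperators nonZeroDivisors
open NumberField IsDedekindDomain

namespace Pool.Agent.H32.MA.SN

open Pool.Agent.H98.MF (ord IdLe PER Reps CoP cof sgnN)
open Pool.Agent.H32.MA

variable {K : Type} [Field K] [NumberField K]

/-! ### the bad divisors of small norm -/

theorem sv_finite_P (z : ℕ) : {P : HeightOneSpectrum (𝓞 K) | nP P ≤ z}.Finite := by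
  have h1 := Ideal.finite_setOfPred_absNorm_le (S := 𝓞 K) z
  have h2 : Set.InjOn (fun P : HeightOneSpectrum (𝓞 K) => P.asIdeal)
      {P : HeightOneSpectrum (𝓞 K) | nP P ≤ z} := fun P _ Q _ h => HeightOneSpectrum.ext h
  refine Set.Finite.of_finite_image (h1.subset ?_) h2
  rintro _ ⟨P, hP, rfl⟩
  exact hP

variable (K) in
/-- the squares of primes of norm at most `z` and the rational primes at most `z` -/
def svS (m z : ℕ) : Set (Ideal (𝓞 K)) :=
  {B | (∃ P : HeightOneSpectrum (𝓞 K), nP P ≤ z ∧ ¬ 1 ≤ ord P (m : K) ∧ B = P.asIdeal ^ 2) ∨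
    ∃ p : ℕ, p.Prime ∧ ¬ p ∣ m ∧ p ≤ z ∧ B = Ideal.span {(p : 𝓞 K)}}

theorem sv_finite (m z : ℕ) : (svS K m z).Finite := by
  refine Set.Finite.subset ((sv_finite_P (K := K) z).image (fun P => P.asIdeal ^ 2) |>.union
    ((Finset.range (z + 1)).finite_toSet.image (fun p : ℕ => Ideal.span {(p : 𝓞 K)}))) ?_
  rintro B (⟨P, hP, -, rfl⟩ | ⟨p, -, -, hp, rfl⟩)
  · exact Or.inl ⟨P, hP, rfl⟩
  · exact Or.inr ⟨p, Finset.mem_coe.2 (Finset.mem_range.2 (Nat.lt_succ_of_le hp)), rfl⟩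

theorem sv_ne (m z : ℕ) (B : Ideal (𝓞 K)) (hB : B ∈ svS K m z) : B ≠ ⊥ := by
  rcases hB with ⟨P, -, -, rfl⟩ | ⟨p, hp, -, -, rfl⟩
  · exact pow_ne_zero 2 P.ne_bot
  · rw [Ne, Ideal.span_singleton_eq_bot]
    exact_mod_cast hp.ne_zero

theorem sv_cop (m z : ℕ) (hm : m ≠ 0) (B : Ideal (𝓞 K)) (hB : B ∈ svS K m z) : Cop m B := by
  rw [cop_iff m hm]
  rcases hB with ⟨P, -, hP, rfl⟩ | ⟨p, hp, hpm, -, rfl⟩
  · refine IsCoprime.pow_left ?_
    rw [← cop_iff m hm]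
    intro P' h1 h2
    have h3 : P.asIdeal = P'.asIdeal :=
      (P.isPrime.isMaximal P.ne_bot).eq_of_le P'.isPrime.ne_top h2
    have h4 : P = P' := HeightOneSpectrum.ext h3
    exact hP (h4 ▸ h1)
  · rw [Ideal.isCoprime_span_singleton_iff]
    have h1 : IsCoprime (p : ℤ) (m : ℤ) :=
      Nat.isCoprime_iff_coprime.2 ((Nat.Prime.coprime_iff_not_dvd hp).2 hpm)
    have h2 := h1.map (Int.castRingHom (𝓞 K))
    simpa using h2

/-- the difference between the two sums -/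
theorem sv_diff (m : ℕ) (G : Ideal (𝓞 K) → ℝ) (C : ℝ) (hC : ∀ I, |G I| ≤ C)
    (hs : ∀ I, ¬ Cop m I → G I = 0) (z : ℕ) (X : ℝ) :
    |(∑ᶠ I ∈ {I ∈ IdLe K X | ∀ B ∈ svS K m z, ¬ B ∣ I}, G I) -
      ∑ᶠ I ∈ {I ∈ IdLe K X | GoodId m I}, G I| ≤
      C * (({I ∈ IdLe K X | (∃ P : HeightOneSpectrum (𝓞 K), z < nP P ∧ I ≤ P.asIdeal ^ 2) ∨
        ∃ p : ℕ, p.Prime ∧ z < p ∧ I ≤ Ideal.span {(p : 𝓞 K)}}.ncard : ℕ) : ℝ) := by
  classical
  have hfin : (IdLe K X).Finite := Pool.Agent.H98.MF.finite_IdLe K X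
  have f1 : {I ∈ IdLe K X | ∀ B ∈ svS K m z, ¬ B ∣ I}.Finite := hfin.subset fun _ h => h.1
  have f2 : {I ∈ IdLe K X | GoodId m I}.Finite := hfin.subset fun _ h => h.1
  have f3 : {I ∈ IdLe K X | (∃ P : HeightOneSpectrum (𝓞 K), z < nP P ∧ I ≤ P.asIdeal ^ 2) ∨
        ∃ p : ℕ, p.Prime ∧ z < p ∧ I ≤ Ideal.span {(p : 𝓞 K)}}.Finite :=
    hfin.subset fun _ h => h.1
  have hsub : f2.toFinset ⊆ f1.toFinset := by
    intro I hI
    rw [Set.Finite.mem_toFinset] at hI ⊢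
    refine ⟨hI.1, ?_⟩
    rintro B (⟨P, -, -, rfl⟩ | ⟨p, hp, hpm, -, rfl⟩) hd
    · exact hI.2.sq P (Ideal.dvd_iff_le.1 hd)
    · exact hI.2.rat p hp hpm (Ideal.dvd_iff_le.1 hd)
  rw [finsum_mem_eq_finite_toFinset_sum _ f1, finsum_mem_eq_finite_toFinset_sum _ f2,
    ← Finset.sum_sdiff hsub, add_sub_cancel_right, Set.ncard_eq_toFinset_card _ f3]
  have hC0 : 0 ≤ C := (abs_nonneg _).trans (hC ⊥)
  refine (Finset.abs_sum_le_sum_abs _ _).trans ?_
  calc ∑ I ∈ f1.toFinset \ f2.toFinset, |G I|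
      ≤ ∑ I ∈ f1.toFinset \ f2.toFinset, if I ∈ f3.toFinset then C else 0 := by
        refine Finset.sum_le_sum fun I hI => ?_
        rw [Finset.mem_sdiff, Set.Finite.mem_toFinset, Set.Finite.mem_toFinset] at hI
        obtain ⟨⟨hI1, hI2⟩, hI3⟩ := hI
        by_cases hc : Cop m I
        · rw [if_pos]
          · exact hC I
          · rw [Set.Finite.mem_toFinset]
            refine ⟨hI1, ?_⟩
            by_contra hn
            push Not at hn
            refine hI3 ⟨hI1, ⟨hI1.1, hc, ?_, ?_⟩⟩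
            · intro P hP
              have h1 : I ≤ P.asIdeal := hP.trans (Ideal.pow_le_self two_ne_zero)
              have h2 : ¬ 1 ≤ ord P (m : K) := fun h => hc P h h1
              have h3 : nP P ≤ z := by
                by_contra h
                exact hn.1 P (not_le.1 h) hP
              exact hI2 _ (Or.inl ⟨P, h3, h2, rfl⟩) (Ideal.dvd_iff_le.2 hP)
            · intro p hp hpm hI4
              have h3 : p ≤ z := by
                by_contra h
                exact hn.2 p hp (not_le.1 h) hI4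
              exact hI2 _ (Or.inr ⟨p, hp, hpm, h3, rfl⟩) (Ideal.dvd_iff_le.2 hI4)
        · rw [hs I hc, abs_zero]
          split_ifs
          · exact hC0
          · exact le_rfl
    _ ≤ ∑ I ∈ f3.toFinset, C := by
        rw [← Finset.sum_filter]
        refine Finset.sum_le_sum_of_subset_of_nonneg ?_ fun _ _ _ => hC0
        intro I hI
        exact (Finset.mem_filter.1 hI).2
    _ = C * (f3.toFinset.card : ℝ) := by
        rw [Finset.sum_const, nsmul_eq_mul, mul_comm]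

/-! ### limits -/

open Filter

theorem sv_close {g : ℝ → ℝ} {h h' : ℝ → ℝ} {c c' l l' : ℝ}
    (h1 : ∀ X : ℝ, 0 < X → |h X - g X| ≤ c) (h2 : ∀ X : ℝ, 0 < X → |h' X - g X| ≤ c')
    (hl : Tendsto h atTop (nhds l)) (hl' : Tendsto h' atTop (nhds l')) : |l - l'| ≤ c + c' := by
  have h3 : Tendsto (fun X => |h X - h' X|) atTop (nhds |l - l'|) := (hl.sub hl').abs
  refine le_of_tendsto h3 ?_
  filter_upwards [eventually_gt_atTop 0] with X hX
  have h4 := h1 X hX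
  have h5 := h2 X hX
  rw [abs_le] at h4 h5 ⊢
  constructor <;> linarith [h4.1, h4.2, h5.1, h5.2]

theorem sv_cauchy {g : ℝ → ℝ} {h : ℕ → ℝ → ℝ} {c l : ℕ → ℝ}
    (hc : Tendsto c atTop (nhds 0)) (hd : ∀ z, ∀ X : ℝ, 0 < X → |h z X - g X| ≤ c z)
    (hl : ∀ z, Tendsto (h z) atTop (nhds (l z))) : ∃ L, Tendsto l atTop (nhds L) := by
  refine cauchySeq_tendsto_of_complete ?_
  rw [Metric.cauchySeq_iff]
  intro e he
  have h1 := (hc.eventually (gt_mem_nhds (show (0 : ℝ) < e / 2 by linarith)))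
  obtain ⟨N, hN⟩ := eventually_atTop.1 h1
  refine ⟨N, fun n hn k hk => ?_⟩
  rw [Real.dist_eq]
  have h2 := sv_close (hd n) (hd k) (hl n) (hl k)
  have h3 := hN n hn
  have h4 := hN k hk
  linarith

theorem sv_lim {g : ℝ → ℝ} {h : ℕ → ℝ → ℝ} {c l : ℕ → ℝ} {L : ℝ}
    (hc : Tendsto c atTop (nhds 0)) (hd : ∀ z, ∀ X : ℝ, 0 < X → |h z X - g X| ≤ c z)
    (hl : ∀ z, Tendsto (h z) atTop (nhds (l z))) (hL : Tendsto l atTop (nhds L)) :
    Tendsto g atTop (nhds L) := by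
  rw [Metric.tendsto_atTop]
  intro e he
  have h1 := (hc.eventually (gt_mem_nhds (show (0 : ℝ) < e / 3 by linarith)))
  have h2 := (Metric.tendsto_atTop.1 hL) (e / 3) (by linarith)
  obtain ⟨N, hN⟩ := eventually_atTop.1 h1
  obtain ⟨N', hN'⟩ := h2
  set z := max N N' with hz
  obtain ⟨X0, hX0⟩ := (Metric.tendsto_atTop.1 (hl z)) (e / 3) (by linarith)
  refine ⟨max X0 1, fun X hX => ?_⟩
  have h3 := hX0 X ((le_max_left _ _).trans hX)
  have h4 := hd z X (lt_of_lt_of_le one_pos ((le_max_right _ _).trans hX))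
  have h5 := hN z (le_max_left _ _)
  have h6 := hN' z (le_max_right _ _)
  rw [Real.dist_eq, abs_lt] at h3 h6
  rw [abs_le] at h4
  rw [Real.dist_eq, abs_lt]
  constructor <;> linarith [h3.1, h3.2, h4.1, h4.2, h6.1, h6.2]

/-- the sieve without positivity -/
theorem sieve_lim (hK : 2 ≤ Module.finrank ℚ K) (m : ℕ) (hm : m ≠ 0) : ∃ σ : ℝ, 0 ≤ σ ∧
    ∀ (G : Ideal (𝓞 K) → ℝ) (A : ℝ), Den m G A →
      Filter.Tendsto (fun X : ℝ => (∑ᶠ I ∈ {I ∈ IdLe K X | GoodId m I}, G I) / X) Filter.atTop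
        (nhds (σ * A)) := by
  classical
  obtain ⟨ε, hε, htail⟩ := tail_bound (K := K) hK
  have hs : ∀ z : ℕ, ∃ s : ℝ, ∀ (G : Ideal (𝓞 K) → ℝ) (A : ℝ), Den m G A →
      Tendsto (fun X : ℝ => (∑ᶠ I ∈ {I ∈ IdLe K X | ∀ B ∈ svS K m z, ¬ B ∣ I}, G I) / X) atTop
        (nhds (s * A)) := by
    intro z
    obtain ⟨s, h⟩ := inc_exc m (sv_finite (K := K) m z).toFinset
      (fun B hB => sv_ne m z B ((sv_finite m z).mem_toFinset.1 hB))
      (fun B hB => sv_cop m z hm B ((sv_finite m z).mem_toFinset.1 hB))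
    refine ⟨s, fun G A hG => ?_⟩
    have h2 := h G A hG
    simp only [Set.Finite.mem_toFinset] at h2
    exact h2
  choose s hs using hs
  have hd : ∀ (G : Ideal (𝓞 K) → ℝ) (C : ℝ), (∀ I, |G I| ≤ C) → (∀ I, ¬ Cop m I → G I = 0) →
      ∀ z, ∀ X : ℝ, 0 < X →
        |(∑ᶠ I ∈ {I ∈ IdLe K X | ∀ B ∈ svS K m z, ¬ B ∣ I}, G I) / X -
          (∑ᶠ I ∈ {I ∈ IdLe K X | GoodId m I}, G I) / X| ≤ C * ε z := by
    intro G C hC hs z X hX
    rw [← sub_div, abs_div, abs_of_pos hX, div_le_iff₀ hX]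
    have hC0 : 0 ≤ C := (abs_nonneg _).trans (hC ⊥)
    refine (sv_diff m G C hC hs z X).trans ?_
    rw [mul_assoc]
    exact mul_le_mul_of_nonneg_left (htail z X hX.le) hC0
  have hCε : ∀ C : ℝ, Tendsto (fun z => C * ε z) atTop (nhds 0) := fun C => by
    have h := hε.const_mul C
    rwa [mul_zero] at h
  obtain ⟨A1, hA1, hden⟩ := den_one (K := K) m hm
  have h1 : ∀ I : Ideal (𝓞 K), |oneC m I| ≤ 1 := by
    intro I
    unfold oneC
    split_ifs <;> simp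
  have h0 : ∀ I : Ideal (𝓞 K), 0 ≤ oneC m I := by
    intro I
    unfold oneC
    split_ifs <;> simp
  obtain ⟨L, hL⟩ := sv_cauchy (hCε 1) (hd _ 1 h1 hden.supp) (fun z => hs z _ _ hden)
  have hσ : Tendsto s atTop (nhds (L / A1)) := by
    have h2 := hL.div_const A1
    simpa [mul_div_assoc, div_self hA1.ne'] using h2
  refine ⟨L / A1, ?_, ?_⟩
  · refine ge_of_tendsto' hσ fun z => ?_
    have h2 : 0 ≤ s z * A1 := by
      refine ge_of_tendsto (hs z _ _ hden) ?_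
      filter_upwards [eventually_gt_atTop 0] with X hX
      refine div_nonneg ?_ hX.le
      exact finsum_nonneg fun I => finsum_nonneg fun _ => h0 I
    by_contra h3
    push Not at h3
    nlinarith
  · intro G A hG
    obtain ⟨C, hC⟩ := hG.bdd
    exact sv_lim (hCε C) (hd G C hC hG.supp) (fun z => hs z G A hG) (hσ.mul_const A)

end Pool.Agent.H32.MA.SN
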