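import Pool.Agent.H32.MA.SNPer
import Pool.Agent.H32.MA.SNGI
import Pool.Agent.H98.MF.NMain
import Pool.Agent.H98.MF.NReps
import Pool.Agent.H98.MF.NPrS

set_option autoImplicit false

open scoped BigOperators nonZeroDivisors
open NumberField IsDedekindDomain

namespace Pool.Agent.H32.MA.SN

open Pool.Agent.H98.MF (ord IdLe PER Reps CoP cof sgnN)
open Pool.Agent.H32.MA

variable {K : Type} [Field K] [NumberField K]


/-- representatives of the classes exist -/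
theorem exists_reps : ∃ R : Finset (Ideal (𝓞 K)), Reps R := by
  obtain ⟨S, -, hS⟩ := Pool.Agent.H98.MF.exists_PrS (∅ : Finset (HeightOneSpectrum (𝓞 K)))
  obtain ⟨R, hR, -⟩ := Pool.Agent.H98.MF.reps_exist K S hS
  exact ⟨R, hR⟩

/-- a quantity bounded by `X ^ (1 - c)` divided by `X` tends to zero -/
theorem den_tendsto (f : ℝ → ℝ) (L D c : ℝ) (hc : 0 < c)
    (h : ∀ X : ℝ, 1 ≤ X → |f X - L * X| ≤ D * X ^ (1 - c)) :
    Filter.Tendsto (fun X : ℝ => f X / X) Filter.atTop (nhds L) := by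
  rw [tendsto_iff_norm_sub_tendsto_zero]
  have h1 : Filter.Tendsto (fun X : ℝ => D * X ^ (-c)) Filter.atTop (nhds 0) := by
    have := (tendsto_rpow_neg_atTop hc).const_mul D
    rwa [mul_zero] at this
  refine squeeze_zero' (Filter.Eventually.of_forall fun X => norm_nonneg _) ?_ h1
  filter_upwards [Filter.eventually_ge_atTop 1] with X hX
  have hX0 : 0 < X := by linarith
  have e1 : f X / X - L = (f X - L * X) / X := by
    field_simp
  rw [Real.norm_eq_abs, e1, abs_div, abs_of_pos hX0, div_le_iff₀ hX0]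
  refine (h X hX).trans (le_of_eq ?_)
  rw [mul_assoc, ← Real.rpow_add_one hX0.ne']
  congr 2
  ring

theorem den_nS_ne (e : Finset (HeightOneSpectrum (𝓞 K))) : nS e ≠ 0 := by
  have h := absNorm_idS e
  intro h0
  rw [h0, Ideal.absNorm_eq_zero_iff] at h
  exact idS_ne_bot e h

theorem GI_den (hB : StmBB) (F : QF K) (m : ℕ) (h : Hyp F m) (Ψ : K → ℝ) (A : ℝ)
    (hΨ : ∀ b, 0 ≤ Ψ b ∧ Ψ b ≤ A) (hl : MLoc m Ψ)
    (e : Finset (HeightOneSpectrum (𝓞 K))) (he : Good m e) :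
    ∃ a : ℝ, Den (m * nS e) (GI F m Ψ e) a := by
  obtain ⟨C, hC⟩ := GI_bdd hB F m h Ψ A hΨ e
  obtain ⟨R, hR⟩ := exists_reps (K := K)
  obtain ⟨C1, hC1, hmain⟩ := Pool.Agent.H98.MF.main_count K R hR
  have hm0 : m * nS e ≠ 0 := mul_ne_zero h.ne (den_nS_ne e)
  have hM : Ideal.span {((m * nS e : ℕ) : 𝓞 K)} ≠ ⊥ := by
    rw [Ne, Ideal.span_singleton_eq_bot]
    exact Nat.cast_ne_zero.2 hm0
  obtain ⟨C2, hC2⟩ : ∃ C2 : ℝ, C2 = |C| + 1 := ⟨_, rfl⟩
  have hC20 : 0 < C2 := by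
    rw [hC2]
    have := abs_nonneg C
    linarith
  have hb : ∀ I, |GI F m Ψ e I / C2| ≤ 1 := by
    intro I
    rw [abs_div, abs_of_pos hC20, div_le_one hC20, hC2]
    have h1 := hC I
    have h2 := le_abs_self C
    linarith
  have hper : ∀ J ∈ R, PER J (Ideal.span {((m * nS e : ℕ) : 𝓞 K)})
      (fun I => GI F m Ψ e I / C2) := by
    intro J hJ α β hα hβ hαJ hαβ hs
    have h1 := GI_per F m h Ψ hl e he J (hR.1 J hJ) α β hα hβ hαJ hαβ hs
    simp only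
    rw [h1]
  obtain ⟨A0, hA0⟩ := hmain _ hM (fun I => GI F m Ψ e I / C2) hb hper
  refine ⟨C2 * A0, ⟨⟨C, hC⟩, fun I hI => ?_, fun D hD hDc => ?_⟩⟩
  · unfold GI
    rw [if_neg]
    exact fun h1 => hI h1.1
  · have hcop : IsCoprime D (Ideal.span {((m * nS e : ℕ) : 𝓞 K)}) := (cop_iff _ hm0 D).1 hDc
    have hfr : (0 : ℝ) < 1 / (Module.finrank ℚ K : ℝ) := by
      have : (0 : ℝ) < Module.finrank ℚ K := by exact_mod_cast Module.finrank_pos
      positivity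
    refine den_tendsto _ (C2 * A0 / Ideal.absNorm D)
      (C2 * (C1 * ((Ideal.absNorm D : ℝ) *
        Ideal.absNorm (Ideal.span {((m * nS e : ℕ) : 𝓞 K)})) ^ (Module.finrank ℚ K + 1)))
      (1 / (Module.finrank ℚ K : ℝ)) hfr ?_
    intro X hX
    have h1 := hA0 D hD hcop X hX
    have e1 : ∑ᶠ I ∈ {I ∈ IdLe K X | D ∣ I}, GI F m Ψ e I =
        C2 * ∑ᶠ I ∈ {I ∈ IdLe K X | D ∣ I}, GI F m Ψ e I / C2 := by
      rw [mul_finsum_mem]
      refine finsum_mem_congr rfl fun I _ => ?_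
      field_simp
    rw [e1]
    have e2 : C2 * ∑ᶠ I ∈ {I ∈ IdLe K X | D ∣ I}, GI F m Ψ e I / C2 -
        C2 * A0 / Ideal.absNorm D * X =
        C2 * (∑ᶠ I ∈ {I ∈ IdLe K X | D ∣ I}, GI F m Ψ e I / C2 -
          A0 * X / Ideal.absNorm D) := by
      ring
    rw [e2, abs_mul, abs_of_pos hC20, mul_assoc C2]
    exact mul_le_mul_of_nonneg_left h1 hC20.le

end Pool.Agent.H32.MA.SN
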