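import Pool.Agent.H32.MA.SNId
import Pool.Agent.H98.MF.L.QuadX

/-!
# Project MA9 (MP_a9b340), block SN: multiplication of the classes by an element
-/

set_option autoImplicit false

open scoped BigOperators nonZeroDivisors
open NumberField IsDedekindDomain

namespace Pool.Agent.H32.MA.SN

open Pool.Agent.H98.MF (ord IdLe PER Reps CoP cof sgnN)
open Pool.Agent.H32.MA

variable {K : Type} [Field K] [NumberField K]

/-- the norm of a prime lies in the prime -/
theorem sh_ord_nP (P : HeightOneSpectrum (𝓞 K)) (hP : (nP P).Prime) :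
    1 ≤ ord P ((nP P : ℕ) : K) := by
  have h1 := Pool.Agent.H98.MF.le_ord_iff P ((nP P : ℕ) : 𝓞 K) 1
  have h2 : ((nP P : ℕ) : 𝓞 K) ∈ P.asIdeal ^ 1 := by
    rw [pow_one]
    exact Ideal.absNorm_mem P.asIdeal
  have h3 := h1.2 h2
  have h4 : (((nP P : ℕ) : 𝓞 K) : K) = ((nP P : ℕ) : K) := by simp
  rw [h4] at h3
  rcases h3 with h3 | h3
  · exfalso
    have h5 : ((nP P : ℕ) : 𝓞 K) ≠ 0 := by exact_mod_cast hP.ne_zero
    exact h5 h3
  · exact_mod_cast h3

/-- the properties of the characters at the primes of a good set -/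
theorem sh_ch (F : QF K) (m : ℕ) (h : Hyp F m) (P : HeightOneSpectrum (𝓞 K)) (hP : gP m P) :
    (∀ a : K, chP P a = 1 ∨ chP P a = -1) ∧
    (∀ a b : K, a ≠ 0 → b ≠ 0 → chP P (a * b) = chP P a * chP P b) ∧
    (∀ a b : K, a ≠ 0 → b ≠ 0 → ord P a = 0 → 1 ≤ ord P (a - b) → chP P a = chP P b) := by
  have hdv : 2 * F.d ∣ m := (Dvd.intro 4 (by ring)).trans h.dv
  have h2 : nP P ≠ 2 := by
    intro h2
    apply hP.2
    rw [h2]
    exact (Dvd.intro _ rfl).trans hdv
  have h3 : ord P ((nP P : ℕ) : K) = 1 :=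
    h.unr (nP P) hP.1 (fun h4 => hP.2 (h4.trans hdv)) P (sh_ord_nP P hP.1)
  obtain ⟨ha, hb, hc, _⟩ := h.chp P hP.1 h2 h3
  exact ⟨ha, hb, hc⟩

theorem sh_ch_one (F : QF K) (m : ℕ) (h : Hyp F m) (P : HeightOneSpectrum (𝓞 K)) (hP : gP m P) :
    chP P (1 : K) = 1 := by
  obtain ⟨ha, hb, _⟩ := sh_ch F m h P hP
  have h1 := hb 1 1 one_ne_zero one_ne_zero
  rw [mul_one] at h1
  rcases ha 1 with h2 | h2
  · exact h2
  · rw [h2] at h1
    norm_num at h1

theorem sh_chS_mul (F : QF K) (m : ℕ) (h : Hyp F m) (e : Finset (HeightOneSpectrum (𝓞 K)))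
    (he : Good m e) (a b : K) (ha : a ≠ 0) (hb : b ≠ 0) :
    chS e (a * b) = chS e a * chS e b := by
  unfold chS
  rw [← Finset.prod_mul_distrib]
  exact Finset.prod_congr rfl (fun P hP => (sh_ch F m h P (he.1 P hP)).2.1 a b ha hb)

theorem sh_chS_sq (F : QF K) (m : ℕ) (h : Hyp F m) (e : Finset (HeightOneSpectrum (𝓞 K)))
    (he : Good m e) (z : K) (hz : z ≠ 0) : chS e (z ^ 2) = 1 := by
  unfold chS
  refine Finset.prod_eq_one (fun P hP => ?_)
  obtain ⟨ha, hb, _⟩ := sh_ch F m h P (he.1 P hP)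
  rw [pow_two, hb z z hz hz]
  rcases ha z with h2 | h2
  · rw [h2]; norm_num
  · rw [h2]; norm_num

omit [NumberField K] in
/-- a representative of the class of a unit -/
theorem sh_rp (u : Kˣ) (q : SqC K) : ∃ z : K, z ≠ 0 ∧
    rp (QuotientGroup.mk u * q : SqC K) = (u : K) * rp q * z ^ 2 := by
  have h1 : (QuotientGroup.mk (u * Quotient.out q) : SqC K) = QuotientGroup.mk u * q := by
    have h0 : (QuotientGroup.mk (Quotient.out q) : SqC K) = q := Quotient.out_eq' q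
    rw [QuotientGroup.mk_mul, h0]
  have h2 : (QuotientGroup.mk (Quotient.out (QuotientGroup.mk u * q : SqC K)) : SqC K) =
      QuotientGroup.mk u * q := Quotient.out_eq' _
  have h3 := h1.trans h2.symm
  rw [QuotientGroup.eq] at h3
  obtain ⟨z, hz⟩ := h3
  refine ⟨(z : K), z.ne_zero, ?_⟩
  have h4 : (Quotient.out (QuotientGroup.mk u * q : SqC K) : Kˣ) = u * Quotient.out q * z ^ 2 := by
    have h5 : (powMonoidHom 2 : Kˣ →* Kˣ) z = z ^ 2 := rfl
    rw [h5] at hz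
    rw [hz]
    group
  unfold rp
  rw [h4]
  push_cast
  ring

/-- multiplication of the classes by an element -/
theorem shift (F : QF K) (m : ℕ) (h : Hyp F m) (Ψ : K → ℝ) (hl : MLoc m Ψ)
    (e : Finset (HeightOneSpectrum (𝓞 K))) (he : Good m e) (l : K) (hl0 : l ≠ 0)
    (hc : Cong m l) (hp : TotPos l) (I I' : Ideal (𝓞 K))
    (hI : ∀ P : HeightOneSpectrum (𝓞 K), ¬ 1 ≤ ord P (m : K) →
      ((vI P I : ℤ) : ZMod 2) = ((ord P l : ℤ) : ZMod 2) + ((vI P I' : ℤ) : ZMod 2)) :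
    HI F m Ψ e I = (chS e (F.cj l) : ℝ) * HI F m Ψ e I' := by
  classical
  obtain ⟨u, hu⟩ : ∃ u : Kˣ, (u : K) = l := ⟨Units.mk0 l hl0, rfl⟩
  have hz2 : ∀ x : ZMod 2, x + x = 0 := by decide
  -- the exponents of the shifted class
  have hord : ∀ (q : SqC K) (P : HeightOneSpectrum (𝓞 K)),
      ((ord P (rp (QuotientGroup.mk u * q : SqC K)) : ℤ) : ZMod 2) =
        ((ord P l : ℤ) : ZMod 2) + ((ord P (rp q) : ℤ) : ZMod 2) := by
    intro q P
    obtain ⟨z, hz, hq⟩ := sh_rp u q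
    have hr : rp q ≠ 0 := Units.ne_zero _
    rw [hq, hu, Pool.Agent.H98.MF.ord_mul P (mul_ne_zero hl0 hr) (pow_ne_zero 2 hz),
      Pool.Agent.H98.MF.ord_mul P hl0 hr, Pool.Agent.H98.MF.ord_pow]
    push_cast
    have h2 : (2 : ZMod 2) = 0 := by decide
    rw [h2, zero_mul, add_zero]
  -- the values at the shifted class
  have hval : ∀ q : SqC K,
      Ψ (rp (QuotientGroup.mk u * q : SqC K)) *
        (chS e (F.cj (rp (QuotientGroup.mk u * q : SqC K))) : ℝ) =
      (chS e (F.cj l) : ℝ) * (Ψ (rp q) * (chS e (F.cj (rp q)) : ℝ)) := by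
    intro q
    obtain ⟨z, hz, hq⟩ := sh_rp u q
    have hr : rp q ≠ 0 := Units.ne_zero _
    have hcj : ∀ x : K, x ≠ 0 → F.cj x ≠ 0 := fun x hx => by simpa using hx
    rw [hq, hu, hl.sq _ z (mul_ne_zero hl0 hr) hz, hl.loc _ l hr hl0 hc hp, map_mul, map_mul,
      map_pow, sh_chS_mul F m h e he _ _ (mul_ne_zero (hcj l hl0) (hcj _ hr))
        (pow_ne_zero 2 (hcj z hz)), sh_chS_mul F m h e he _ _ (hcj l hl0) (hcj _ hr),
      sh_chS_sq F m h e he _ (hcj z hz)]
    push_cast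
    ring
  -- the bijection
  have hbij : Set.BijOn (fun q : SqC K => (QuotientGroup.mk u * q : SqC K)) (BI m e I')
      (BI m e I) := by
    refine ⟨?_, ?_, ?_⟩
    · intro q hq P hP
      rw [hord q P, hq P hP, hI P hP]
      ring
    · intro a _ b _ hab
      have h1 := congrArg (fun t : SqC K => (QuotientGroup.mk u : SqC K)⁻¹ * t) hab
      simpa only [inv_mul_cancel_left] using h1
    · intro q hq
      refine ⟨(QuotientGroup.mk u : SqC K)⁻¹ * q, ?_, by simp⟩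
      intro P hP
      have h1 := hord ((QuotientGroup.mk u : SqC K)⁻¹ * q) P
      rw [mul_inv_cancel_left, hq P hP, hI P hP] at h1
      have h2 : ((ord P l : ℤ) : ZMod 2) + ((ord P l : ℤ) : ZMod 2) = 0 := hz2 _
      calc ((ord P (rp ((QuotientGroup.mk u : SqC K)⁻¹ * q)) : ℤ) : ZMod 2)
          = (((ord P l : ℤ) : ZMod 2) + ((ord P l : ℤ) : ZMod 2)) +
            ((ord P (rp ((QuotientGroup.mk u : SqC K)⁻¹ * q)) : ℤ) : ZMod 2) := by
              rw [h2, zero_add]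
        _ = ((ord P l : ℤ) : ZMod 2) + (((ord P l : ℤ) : ZMod 2) +
            ((ord P (rp ((QuotientGroup.mk u : SqC K)⁻¹ * q)) : ℤ) : ZMod 2)) := by ring
        _ = ((ord P l : ℤ) : ZMod 2) + ((if P ∈ e then 1 else 0) +
            (((ord P l : ℤ) : ZMod 2) + ((vI P I' : ℤ) : ZMod 2))) := by rw [← h1]
        _ = (((ord P l : ℤ) : ZMod 2) + ((ord P l : ℤ) : ZMod 2)) +
            ((if P ∈ e then 1 else 0) + ((vI P I' : ℤ) : ZMod 2)) := by ring
        _ = (if P ∈ e then 1 else 0) + ((vI P I' : ℤ) : ZMod 2) := by rw [h2, zero_add]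
  have hsum := finsum_mem_eq_of_bijOn (f := fun q : SqC K =>
      (chS e (F.cj l) : ℝ) * (Ψ (rp q) * (chS e (F.cj (rp q)) : ℝ)))
      (g := fun q : SqC K => Ψ (rp q) * (chS e (F.cj (rp q)) : ℝ))
      (fun q : SqC K => (QuotientGroup.mk u * q : SqC K)) hbij (fun q _ => (hval q).symm)
  unfold HI
  rw [← hsum, ← smul_eq_mul, smul_finsum]
  refine finsum_congr (fun q => ?_)
  rw [smul_finsum]
  rfl

/-- the value of the character at an element congruent to one -/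
theorem chS_one (F : QF K) (m : ℕ) (h : Hyp F m) (e : Finset (HeightOneSpectrum (𝓞 K)))
    (he : Good m e) (l : K) (hl0 : l ≠ 0) (hc : Cong (m * nS e) l) :
    chS e (F.cj l) = 1 := by
  unfold chS
  refine Finset.prod_eq_one (fun P hP => ?_)
  obtain ⟨_, _, hcc⟩ := sh_ch F m h P (he.1 P hP)
  have h1 := sh_ch_one F m h P (he.1 P hP)
  by_cases hl1 : l = 1
  · rw [hl1, map_one, h1]
  -- the conjugate prime divides the modulus
  have hdvd : nP P ∣ m * nS e := (Finset.dvd_prod_of_mem nP hP).mul_left m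
  obtain ⟨c, hcm⟩ := hdvd
  have hne : m * nS e ≠ 0 := by
    refine mul_ne_zero h.ne ?_
    unfold nS
    exact Finset.prod_ne_zero_iff.2 (fun Q hQ => (he.1 Q hQ).1.ne_zero)
  have hc0 : c ≠ 0 := by
    rintro rfl
    exact hne hcm
  have hp0 : nP P ≠ 0 := (he.1 P hP).1.ne_zero
  have hp0' : ((nP P : ℕ) : K) ≠ 0 := by exact_mod_cast hp0
  have hc0' : ((c : ℕ) : K) ≠ 0 := by exact_mod_cast hc0
  have hord : 1 ≤ ord (Pool.Agent.H98.MF.cj F.cj P) ((m * nS e : ℕ) : K) := by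
    rw [hcm, Nat.cast_mul, Pool.Agent.H98.MF.ord_mul _ hp0' hc0',
      Pool.Agent.H98.MF.ord_cj, Pool.Agent.H98.MF.ord_cj, map_natCast, map_natCast]
    have h2 := sh_ord_nP P (he.1 P hP).1
    have h3 := Pool.Agent.H98.MF.ord_int_nonneg P ((c : ℕ) : 𝓞 K)
    have h4 : (((c : ℕ) : 𝓞 K) : K) = ((c : ℕ) : K) := by simp
    rw [h4] at h3
    linarith
  rcases hc (Pool.Agent.H98.MF.cj F.cj P) hord with h2 | h2
  · exact absurd h2 hl1
  · have h3 : 1 ≤ ord P (1 - F.cj l) := by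
      have h4 : (1 : K) - F.cj l = -(F.cj (l - 1)) := by
        rw [map_sub, map_one]
        ring
      rw [h4, Pool.Agent.H98.MF.ord_neg, ← Pool.Agent.H98.MF.ord_cj]
      exact hord.trans h2
    have h5 : F.cj l ≠ 0 := by simpa using hl0
    rw [← hcc 1 (F.cj l) one_ne_zero h5 (Pool.Agent.H98.MF.ord_one P) h3, h1]

end Pool.Agent.H32.MA.SN
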