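import Pool.Agent.H32.MA.SNLam
import Pool.Agent.H32.MA.SNShift
import Pool.Agent.H32.MA.SNDen

set_option autoImplicit false

open scoped BigOperators nonZeroDivisors
open NumberField IsDedekindDomain

namespace Pool.Agent.H32.MA.SN

open Pool.Agent.H98.MF (ord IdLe PER Reps CoP cof sgnN)
open Pool.Agent.H32.MA

variable {K : Type} [Field K] [NumberField K]

/-- the sum over the multiples of an ideal -/
private theorem snz_sum (D : Ideal (𝓞 K)) (hD : D ≠ ⊥) (G : Ideal (𝓞 K) → ℝ) (X : ℝ) :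
    ∑ᶠ I ∈ {I ∈ IdLe K X | D ∣ I}, G I =
      ∑ᶠ I ∈ IdLe K (X / Ideal.absNorm D), G (D * I) := by
  have hN : (0 : ℝ) < Ideal.absNorm D := by
    have : Ideal.absNorm D ≠ 0 := fun h => hD (Ideal.absNorm_eq_zero_iff.1 h)
    positivity
  have hset : {I ∈ IdLe K X | D ∣ I} =
      (fun I => D * I) '' IdLe K (X / Ideal.absNorm D) := by
    ext I
    constructor
    · rintro ⟨⟨h1, h2⟩, J, rfl⟩
      refine ⟨J, ⟨?_, ?_⟩, rfl⟩
      · rintro rfl
        exact h1 (Ideal.mul_bot D)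
      · rw [map_mul, Nat.cast_mul] at h2
        rw [le_div_iff₀ hN, mul_comm]
        exact h2
    · rintro ⟨J, ⟨h1, h2⟩, rfl⟩
      refine ⟨⟨mul_ne_zero hD h1, ?_⟩, dvd_mul_right D J⟩
      rw [le_div_iff₀ hN, mul_comm] at h2
      rw [map_mul, Nat.cast_mul]
      exact h2
  rw [hset, finsum_mem_image]
  intro I _ J _ h
  exact mul_left_cancel₀ hD h

/-- the mean value vanishes for `e ≠ ∅` -/
theorem den_zero (F : QF K) (m : ℕ) (h : Hyp F m) (Ψ : K → ℝ)
    (hl : MLoc m Ψ) (e : Finset (HeightOneSpectrum (𝓞 K))) (he : Good m e) (hne : e ≠ ∅)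
    (a : ℝ) (ha : Den (m * nS e) (GI F m Ψ e) a) : a = 0 := by
  classical
  obtain ⟨l, hl0, hlc, hlp, hcop, hchi⟩ := exists_lam F m h e he hne
  have hlK : (l : K) ≠ 0 := by
    rw [Ne, FaithfulSMul.algebraMap_eq_zero_iff]
    exact hl0
  set D : Ideal (𝓞 K) := Ideal.span {l} with hD
  have hD0 : D ≠ ⊥ := by rwa [hD, Ne, Ideal.span_singleton_eq_bot]
  have hN : (0 : ℝ) < Ideal.absNorm D := by
    have : Ideal.absNorm D ≠ 0 := fun h => hD0 (Ideal.absNorm_eq_zero_iff.1 h)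
    positivity
  have hshift : ∀ I : Ideal (𝓞 K), GI F m Ψ e (D * I) = -GI F m Ψ e I := by
    intro I
    by_cases hI : I = ⊥
    · subst hI
      unfold GI
      rw [if_neg, if_neg, neg_zero]
      · exact fun h => h.2 rfl
      · exact fun h => h.2 (Ideal.mul_bot D)
    · have hDI : D * I ≠ ⊥ := mul_ne_zero hD0 hI
      unfold GI
      by_cases hc : Cop (m * nS e) I
      · rw [if_pos ⟨(cop_mul _ _ _).2 ⟨hcop, hc⟩, hDI⟩, if_pos ⟨hc, hI⟩]
        rw [shift F m h Ψ hl e he (l : K) hlK hlc hlp (D * I) I, hchi]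
        · push_cast
          ring
        · intro P _
          rw [vI_mul P hD0 hI, hD, vI_span, Int.cast_add]
      · rw [if_neg, if_neg, neg_zero]
        · exact fun h => hc h.1
        · exact fun h => hc ((cop_mul _ _ _).1 h.1).2
  have h1 := ha.lim D hD0 hcop
  have h2 := ha.lim ⊤ top_ne_bot (by
    intro P _ h
    exact P.isPrime.ne_top (top_le_iff.1 h))
  have htop : (Ideal.absNorm (⊤ : Ideal (𝓞 K)) : ℝ) = 1 := by
    rw [Ideal.absNorm_top, Nat.cast_one]
  rw [htop, div_one] at h2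
  have hset : ∀ X : ℝ, {I ∈ IdLe K X | (⊤ : Ideal (𝓞 K)) ∣ I} = IdLe K X := by
    intro X
    ext I
    constructor
    · exact fun h => h.1
    · exact fun h => ⟨h, by rw [Ideal.dvd_iff_le]; exact le_top⟩
  simp_rw [hset] at h2
  -- the same limit along `X / N D`
  have h3 : Filter.Tendsto (fun X : ℝ => (∑ᶠ I ∈ IdLe K (X / Ideal.absNorm D), GI F m Ψ e I) /
      (X / Ideal.absNorm D)) Filter.atTop (nhds a) :=
    h2.comp (Filter.tendsto_id.atTop_div_const hN)
  have h4 : Filter.Tendsto (fun X : ℝ => (∑ᶠ I ∈ {I ∈ IdLe K X | D ∣ I}, GI F m Ψ e I) / X)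
      Filter.atTop (nhds (-a / Ideal.absNorm D)) := by
    have h5 := (h3.neg).div_const (Ideal.absNorm D : ℝ)
    refine h5.congr' ?_
    filter_upwards [Filter.eventually_gt_atTop 0] with X hX
    have e0 := snz_sum D hD0 (GI F m Ψ e) X
    have e1 : ∑ᶠ I ∈ IdLe K (X / Ideal.absNorm D), GI F m Ψ e (D * I) =
        -∑ᶠ I ∈ IdLe K (X / Ideal.absNorm D), GI F m Ψ e I := by
      rw [← finsum_mem_neg_distrib _ (Pool.Agent.H98.MF.finite_IdLe K _)]
      exact finsum_mem_congr rfl fun I _ => hshift I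
    rw [e1] at e0
    show _ = (∑ᶠ I ∈ {I ∈ IdLe K X | D ∣ I}, GI F m Ψ e I) / X
    rw [e0]
    field_simp
  have h5 := tendsto_nhds_unique h1 h4
  have h6 : a = -a := by
    field_simp at h5
    linarith
  linarith

end Pool.Agent.H32.MA.SN
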