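import Pool.Agent.H32.MA.SNGood
import Pool.Agent.H32.MA.SNSieve
import Pool.Agent.H32.MA.SNPos
import Pool.Agent.H32.MA.SNZero
import Pool.Agent.H32.MA.SNPsi

/-!
# Project MA9 (MP_a9b340), block SN: the sums with fixed `e`, end
-/

set_option autoImplicit false

open scoped BigOperators nonZeroDivisors
open NumberField IsDedekindDomain

namespace Pool.Agent.H32.MA.SN

open Pool.Agent.H98.MF (ord IdLe PER Reps CoP cof sgnN)
open Pool.Agent.H32.MA

variable {K : Type} [Field K] [NumberField K]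

private theorem se_one (m : ℕ) (X : ℝ) :
    ∑ᶠ I ∈ {I ∈ IdLe K X | GoodId m I}, oneC (K := K) m I =
      (({I ∈ IdLe K X | GoodId m I}.ncard : ℕ) : ℝ) := by
  have hfin : {I ∈ IdLe K X | GoodId m I}.Finite :=
    (Pool.Agent.H98.MF.finite_IdLe K X).subset (fun I hI => hI.1)
  rw [finsum_mem_eq_finite_toFinset_sum _ hfin, Set.ncard_eq_toFinset_card _ hfin,
    Finset.card_eq_sum_ones, Nat.cast_sum]
  refine Finset.sum_congr rfl fun I hI => ?_
  rw [Set.Finite.mem_toFinset] at hI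
  unfold oneC
  rw [if_pos ⟨hI.2.cop, hI.2.ne⟩, Nat.cast_one]

/-- the sieve with positivity -/
theorem sieve_good (hK : 2 ≤ Module.finrank ℚ K) (m : ℕ) (hm : m ≠ 0) : ∃ σ : ℝ, 0 < σ ∧
    ∀ (G : Ideal (𝓞 K) → ℝ) (A : ℝ), Den m G A →
      Filter.Tendsto (fun X : ℝ => (∑ᶠ I ∈ {I ∈ IdLe K X | GoodId m I}, G I) / X) Filter.atTop
        (nhds (σ * A)) := by
  obtain ⟨σ, hσ0, hσ⟩ := sieve_lim (K := K) hK m hm
  refine ⟨σ, ?_, hσ⟩
  obtain ⟨c, hc, hev⟩ := good_pos (K := K) hK m hm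
  obtain ⟨A, hA, hden⟩ := den_one (K := K) m hm
  have hlim := hσ _ A hden
  have h1 : c ≤ σ * A := by
    refine ge_of_tendsto hlim ?_
    filter_upwards [hev, Filter.eventually_gt_atTop 0] with X hX hX0
    have h2 := se_one (K := K) m X
    change c ≤ (∑ᶠ I ∈ {I ∈ IdLe K X | GoodId m I}, oneC m I) / X
    rw [h2, le_div_iff₀ hX0]
    exact hX
  rcases hσ0.eq_or_lt with h0 | h0
  · rw [← h0, zero_mul] at h1
    exact absurd h1 (not_le.2 hc)
  · exact h0

private theorem se_nS_pos (S : Finset (HeightOneSpectrum (𝓞 K))) : 0 < nS S := by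
  refine Finset.prod_pos fun P _ => ?_
  refine Nat.pos_of_ne_zero ?_
  unfold nP
  rw [Ne, Ideal.absNorm_eq_zero_iff]
  exact P.ne_bot

private theorem se_fin (m : ℕ) (X : ℝ) : (GoodLe K m X).Finite := by
  refine Set.Finite.of_finite_image (f := idS)
    ((Pool.Agent.H98.MF.finite_IdLe K X).subset ?_) idS_injective.injOn
  rintro _ ⟨f, hf, rfl⟩
  refine ⟨idS_ne_bot f, ?_⟩
  rw [absNorm_idS]
  exact hf.2

/-- the sum with fixed `e` in terms of the larger modulus -/
private theorem se_sng (F : QF K) (m : ℕ) (h : Hyp F m) (Ψ : K → ℝ)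
    (e : Finset (HeightOneSpectrum (𝓞 K))) (he : Good m e) (x : ℝ)
    (hx : (nS e : ℝ) * nS e ≤ x) :
    sng F m Ψ e x = ∑ᶠ f ∈ GoodLe K (m * nS e) (x / nS e), GI F m Ψ e (idS f) -
      ∑ᶠ f ∈ GoodLe K (m * nS e) (nS e), GI F m Ψ e (idS f) := by
  classical
  have hn : (1 : ℝ) ≤ nS e := by exact_mod_cast se_nS_pos e
  have hn0 : (0 : ℝ) < nS e := by linarith
  have hx0 : 0 ≤ x := le_trans (by positivity) hx
  set s1 : Set (Finset (HeightOneSpectrum (𝓞 K))) :=
    {f | Good (m * nS e) f ∧ nS e < nS f ∧ (nS f : ℝ) ≤ x / nS e} with hs1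
  have h1 : sng F m Ψ e x = ∑ᶠ f ∈ s1, GI F m Ψ e (idS f) := by
    unfold sng
    rw [finsum_mem_def, finsum_mem_def]
    refine finsum_congr fun f => ?_
    by_cases hf : f ∈ s1
    · rw [Set.indicator_of_mem hf]
      obtain ⟨hf1, hf2, hf3⟩ := hf
      rw [le_div_iff₀ hn0] at hf3
      obtain ⟨hg, hc⟩ := (cmp_iff F m h e f he).2 hf1
      have hfx : (nS f : ℝ) ≤ x :=
        le_trans (le_mul_of_one_le_right (Nat.cast_nonneg _) hn) hf3
      have hmem : f ∈ GoodLe K m x := ⟨hg, hfx⟩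
      rw [Set.indicator_of_mem hmem, if_pos ⟨hc, hf2, by rw [mul_comm]; exact hf3⟩,
        GI_idS F m h Ψ e f he hc]
    · rw [Set.indicator_of_notMem hf]
      by_cases hA : f ∈ GoodLe K m x
      · rw [Set.indicator_of_mem hA, if_neg]
        rintro ⟨hc, h2, h3⟩
        apply hf
        refine ⟨(cmp_iff F m h e f he).1 ⟨hA.1, hc⟩, h2, ?_⟩
        rw [le_div_iff₀ hn0, mul_comm]
        exact h3
      · rw [Set.indicator_of_notMem hA]
  have h2 : GoodLe K (m * nS e) (x / nS e) = s1 ∪ GoodLe K (m * nS e) (nS e) := by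
    ext f
    constructor
    · rintro ⟨hf1, hf2⟩
      by_cases h3 : nS e < nS f
      · exact Or.inl ⟨hf1, h3, hf2⟩
      · refine Or.inr ⟨hf1, ?_⟩
        exact_mod_cast not_lt.1 h3
    · rintro (⟨hf1, -, hf3⟩ | ⟨hf1, hf2⟩)
      · exact ⟨hf1, hf3⟩
      · refine ⟨hf1, hf2.trans ?_⟩
        rw [le_div_iff₀ hn0]
        exact hx
  have h3 : Disjoint s1 (GoodLe K (m * nS e) (nS e)) := by
    rw [Set.disjoint_left]
    rintro f ⟨-, hf2, -⟩ ⟨-, hf4⟩
    have : nS f ≤ nS e := by exact_mod_cast hf4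
    omega
  have h4 : s1.Finite := (se_fin (m * nS e) (x / nS e)).subset (by
    rw [h2]
    exact Set.subset_union_left)
  rw [h1, h2, finsum_mem_union h3 h4 (se_fin _ _), add_sub_cancel_right]

private theorem se_lim (hB : StmBB)
    (hC : ∀ (K : Type) [Field K] [NumberField K], StChP (K := K))
    (hU : ∀ (K : Type) [Field K] [NumberField K] (F : QF K), StUnr F)
    (F : QF K) (m : ℕ) (h : Hyp F m) (Ψ : K → ℝ) (A : ℝ)
    (hΨ : ∀ b, 0 ≤ Ψ b ∧ Ψ b ≤ A) (hl : MLoc m Ψ)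
    (e : Finset (HeightOneSpectrum (𝓞 K))) (he : Good m e) :
    ∃ σ a : ℝ, 0 < σ ∧ Den (m * nS e) (GI F m Ψ e) a ∧
      Filter.Tendsto (fun x : ℝ => sng F m Ψ e x / x) Filter.atTop (nhds (σ * a / nS e)) := by
  have hn : (1 : ℝ) ≤ nS e := by exact_mod_cast se_nS_pos e
  have hn0 : (0 : ℝ) < nS e := by linarith
  obtain ⟨a, ha⟩ := GI_den hB F m h Ψ A hΨ hl e he
  have hm' : m * nS e ≠ 0 := mul_ne_zero h.ne (se_nS_pos e).ne'
  have h' : Hyp F (m * nS e) := ⟨hm', h.dv.mul_right _, hC K, hU K F⟩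
  obtain ⟨σ, hσ, hlim⟩ := sieve_good (K := K) F.rank.ge (m * nS e) hm'
  refine ⟨σ, a, hσ, ha, ?_⟩
  have h1 := hlim _ a ha
  have h2 : Filter.Tendsto (fun X : ℝ =>
      (∑ᶠ f ∈ GoodLe K (m * nS e) X, GI F m Ψ e (idS f)) / X) Filter.atTop (nhds (σ * a)) := by
    refine h1.congr fun X => ?_
    rw [sum_good F (m * nS e) h' (GI F m Ψ e) X]
  have h3 : Filter.Tendsto (fun x : ℝ => x / (nS e : ℝ)) Filter.atTop Filter.atTop :=
    Filter.Tendsto.atTop_div_const hn0 Filter.tendsto_id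
  have h4 := (h2.comp h3).div_const (nS e : ℝ)
  have h5 : Filter.Tendsto (fun x : ℝ =>
      (∑ᶠ f ∈ GoodLe K (m * nS e) (nS e), GI F m Ψ e (idS f)) / x) Filter.atTop (nhds 0) :=
    Filter.Tendsto.div_atTop tendsto_const_nhds Filter.tendsto_id
  have h6 := h4.sub h5
  rw [sub_zero] at h6
  refine h6.congr' ?_
  filter_upwards [Filter.eventually_ge_atTop ((nS e : ℝ) * nS e),
    Filter.eventually_gt_atTop 0] with x hx hx0
  rw [se_sng F m h Ψ e he x hx, sub_div]
  congr 1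
  simp only [Function.comp]
  rw [div_div, div_mul_cancel₀ _ hn0.ne']

/-- the sums with fixed `e` -/
theorem stmSng (hB : StmBB)
    (hC : ∀ (K : Type) [Field K] [NumberField K], StChP (K := K))
    (hU : ∀ (K : Type) [Field K] [NumberField K] (F : QF K), StUnr F) : StmSng := by
  intro K _ _ F m hm hdv Ψ A hΨ hl
  have h : Hyp F m := ⟨hm, hdv, hC K, hU K F⟩
  constructor
  · intro e he hne
    obtain ⟨σ, a, -, ha, hlim⟩ := se_lim hB hC hU F m h Ψ A hΨ hl e he
    have ha0 := den_zero F m h Ψ hl e he hne a ha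
    rw [ha0, mul_zero, zero_div] at hlim
    exact hlim
  · have he : Good m (∅ : Finset (HeightOneSpectrum (𝓞 K))) := by
      refine ⟨fun P hP => absurd hP (Finset.notMem_empty P), ?_⟩
      rw [Finset.coe_empty]
      exact Set.injOn_empty _
    obtain ⟨σ, a, hσ, ha, hlim⟩ := se_lim hB hC hU F m h Ψ A hΨ hl ∅ he
    refine ⟨_, ?_, hlim, fun hex => ?_⟩
    · refine ge_of_tendsto hlim ?_
      filter_upwards [Filter.eventually_gt_atTop 0] with x hx
      refine div_nonneg ?_ hx.le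
      unfold sng
      refine finsum_nonneg fun f => finsum_nonneg fun _ => ?_
      split_ifs
      · unfold GG
        refine finsum_nonneg fun q => finsum_nonneg fun _ => ?_
        have h1 : chS (∅ : Finset (HeightOneSpectrum (𝓞 K))) (F.cj (rp q)) = 1 :=
          Finset.prod_empty
        rw [h1, Int.cast_one, mul_one]
        exact (hΨ _).1
      · exact le_rfl
    · have ha0 := den_pos F m h Ψ (fun b => (hΨ b).1) hl a ha hB hex
      have hn0 : (0 : ℝ) < nS (∅ : Finset (HeightOneSpectrum (𝓞 K))) := by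
        exact_mod_cast se_nS_pos (K := K) ∅
      exact div_pos (mul_pos hσ ha0) hn0

end Pool.Agent.H32.MA.SN
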