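import Pool.Agent.H32.MA.T5b

/-!
# Project MA9 (MP_a9b340), row T5c: the blocks with a power saving (6.7)
-/

set_option autoImplicit false

open scoped BigOperators
open NumberField IsDedekindDomain

namespace Pool.Agent.H32.MA

section

variable {K : Type} [Field K] [NumberField K]

open Classical in
/-- the term of a piece -/
noncomputable def t5ct (F : QF K) (m : ℕ) (Ψ : K → ℝ) (Q b b' x : ℝ)
    (e f : Finset (HeightOneSpectrum (𝓞 K))) : ℝ :=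
  if Cmp m e f ∧ nS e < nS f ∧ (nS e : ℝ) * nS f ≤ x ∧ Q ≤ nS e ∧ (nS e : ℝ) < 2 * Q ∧
      b ≤ nS f ∧ (nS f : ℝ) < b' then GG F m Ψ e f else 0

theorem t5c_pce (F : QF K) (m : ℕ) (Ψ : K → ℝ) (Q b b' x : ℝ) :
    pce F m Ψ Q b b' x = ∑ e ∈ (finite_GoodLe (K := K) m x).toFinset,
      ∑ f ∈ (finite_GoodLe (K := K) m x).toFinset, t5ct F m Ψ Q b b' x e f := by
  unfold pce
  rw [finsum_mem_eq_finite_toFinset_sum _ (finite_GoodLe (K := K) m x)]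
  refine Finset.sum_congr rfl fun e _ => ?_
  rw [finsum_mem_eq_finite_toFinset_sum _ (finite_GoodLe (K := K) m x)]
  rfl

theorem t5c_add (F : QF K) (m : ℕ) (Ψ : K → ℝ) (Q x : ℝ) {b b' b'' : ℝ} (h : b ≤ b')
    (h' : b' ≤ b'') : pce F m Ψ Q b b'' x = pce F m Ψ Q b b' x + pce F m Ψ Q b' b'' x := by
  rw [t5c_pce, t5c_pce, t5c_pce, ← Finset.sum_add_distrib]
  refine Finset.sum_congr rfl fun e _ => ?_
  rw [← Finset.sum_add_distrib]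
  refine Finset.sum_congr rfl fun f _ => ?_
  unfold t5ct
  by_cases h1 : Cmp m e f ∧ nS e < nS f ∧ (nS e : ℝ) * nS f ≤ x ∧ Q ≤ nS e ∧ (nS e : ℝ) < 2 * Q
  · obtain ⟨a1, a2, a3, a4, a5⟩ := h1
    rcases lt_or_ge (nS f : ℝ) b' with h2 | h2
    · rw [if_neg (c := _ ∧ _ ∧ _ ∧ _ ∧ _ ∧ b' ≤ _ ∧ _)
        (fun hc => absurd hc.2.2.2.2.2.1 (not_le.2 h2)), add_zero]
      by_cases h3 : b ≤ nS f
      · rw [if_pos ⟨a1, a2, a3, a4, a5, h3, h2.trans_le h'⟩, if_pos ⟨a1, a2, a3, a4, a5, h3, h2⟩]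
      · rw [if_neg fun hc => h3 hc.2.2.2.2.2.1, if_neg fun hc => h3 hc.2.2.2.2.2.1]
    · rw [if_neg (c := _ ∧ _ ∧ _ ∧ _ ∧ _ ∧ _ ∧ _ < b')
        (fun hc => absurd hc.2.2.2.2.2.2 (not_lt.2 h2)), zero_add]
      by_cases h3 : (nS f : ℝ) < b''
      · rw [if_pos ⟨a1, a2, a3, a4, a5, h.trans h2, h3⟩, if_pos ⟨a1, a2, a3, a4, a5, h2, h3⟩]
      · rw [if_neg fun hc => h3 hc.2.2.2.2.2.2, if_neg fun hc => h3 hc.2.2.2.2.2.2]
  · rw [if_neg fun hc => h1 ⟨hc.1, hc.2.1, hc.2.2.1, hc.2.2.2.1, hc.2.2.2.2.1⟩,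
      if_neg fun hc => h1 ⟨hc.1, hc.2.1, hc.2.2.1, hc.2.2.2.1, hc.2.2.2.2.1⟩,
      if_neg fun hc => h1 ⟨hc.1, hc.2.1, hc.2.2.1, hc.2.2.2.1, hc.2.2.2.2.1⟩, add_zero]

theorem t5c_zero (F : QF K) (m : ℕ) (Ψ : K → ℝ) {Q x b b' : ℝ} (hQ : 0 < Q) (hb : x / Q < b) :
    pce F m Ψ Q b b' x = 0 := by
  rw [t5c_pce]
  refine Finset.sum_eq_zero fun e _ => Finset.sum_eq_zero fun f _ => ?_
  unfold t5ct
  rw [if_neg]
  rintro ⟨-, -, h3, h4, -, h6, -⟩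
  rw [div_lt_iff₀ hQ] at hb
  have h7 : b * Q ≤ nS f * nS e :=
    mul_le_mul h6 h4 hQ.le (Nat.cast_nonneg _)
  nlinarith

theorem t5c_sum (F : QF K) (m : ℕ) (Ψ : K → ℝ) (Q x : ℝ) (b : ℕ → ℝ) (hb : Monotone b) (k : ℕ) :
    pce F m Ψ Q (b 0) (b k) x = ∑ i ∈ Finset.range k, pce F m Ψ Q (b i) (b (i + 1)) x := by
  induction k with
  | zero =>
    rw [Finset.range_zero, Finset.sum_empty]
    have h := t5c_add F m Ψ Q x (le_refl (b 0)) (le_refl (b 0))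
    linarith
  | succ k ih =>
    rw [Finset.sum_range_succ, ← ih]
    exact t5c_add F m Ψ Q x (hb (Nat.zero_le k)) (hb (Nat.le_succ k))

/-- the block as a piece -/
theorem t5c_blk (F : QF K) (m : ℕ) (Ψ : K → ℝ) (j : ℕ) {x b b' : ℝ}
    (hb : b ≤ 2 ^ j) (hb' : x / 2 ^ j < b') :
    blk F m Ψ j x = pce F m Ψ (2 ^ j) b b' x := by
  rw [t5c_pce]
  unfold blk
  rw [finsum_mem_eq_finite_toFinset_sum _ (finite_GoodLe (K := K) m x)]
  refine Finset.sum_congr rfl fun e _ => ?_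
  rw [finsum_mem_eq_finite_toFinset_sum _ (finite_GoodLe (K := K) m x)]
  refine Finset.sum_congr rfl fun f _ => ?_
  unfold t5ct
  have hQ : (0 : ℝ) < 2 ^ j := by positivity
  by_cases h1 : Cmp m e f ∧ nS e < nS f ∧ (nS e : ℝ) * nS f ≤ x ∧ 2 ^ j ≤ nS e ∧
      nS e < 2 ^ (j + 1)
  · obtain ⟨a1, a2, a3, a4, a5⟩ := h1
    have c4 : (2 : ℝ) ^ j ≤ nS e := by exact_mod_cast a4
    have c5 : (nS e : ℝ) < 2 * 2 ^ j := by
      have h2 : (nS e : ℝ) < 2 ^ (j + 1) := by exact_mod_cast a5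
      rwa [pow_succ'] at h2
    have c2 : (nS e : ℝ) < nS f := by exact_mod_cast a2
    have c6 : b ≤ nS f := hb.trans (c4.trans c2.le)
    have c7 : (nS f : ℝ) < b' := by
      refine lt_of_le_of_lt ?_ hb'
      rw [le_div_iff₀ hQ]
      have h3 : (nS f : ℝ) * 2 ^ j ≤ nS f * nS e :=
        mul_le_mul_of_nonneg_left c4 (Nat.cast_nonneg _)
      linarith [mul_comm (nS f : ℝ) (nS e : ℝ)]
    rw [if_pos ⟨a1, a2, a3, a4, a5⟩, if_pos ⟨a1, a2, a3, c4, c5, c6, c7⟩]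
  · rw [if_neg h1, if_neg]
    rintro ⟨a1, a2, a3, a4, a5, -⟩
    refine h1 ⟨a1, a2, a3, by exact_mod_cast a4, ?_⟩
    have h2 : (nS e : ℝ) < 2 ^ (j + 1) := by rwa [pow_succ']
    exact_mod_cast h2

/-! ### counting -/

/-- good sets with norm in an interval -/
def t5cN (K : Type) [Field K] [NumberField K] (m : ℕ) (b b' : ℝ) :
    Set (Finset (HeightOneSpectrum (𝓞 K))) :=
  {f | Good m f ∧ b ≤ nS f ∧ (nS f : ℝ) < b'}

theorem t5c_finN (m : ℕ) (b b' : ℝ) : (t5cN K m b b').Finite :=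
  (finite_GoodLe (K := K) m b').subset fun _ hf => ⟨hf.1, hf.2.2.le⟩

theorem t5c_cadd (m : ℕ) {b b' b'' : ℝ} (h : b ≤ b') (h' : b' ≤ b'') :
    (t5cN K m b b'').ncard = (t5cN K m b b').ncard + (t5cN K m b' b'').ncard := by
  rw [← Set.ncard_union_eq ?_ (t5c_finN m b b') (t5c_finN m b' b'')]
  · congr 1
    ext f
    constructor
    · rintro ⟨h1, h2, h3⟩
      rcases lt_or_ge (nS f : ℝ) b' with h4 | h4
      · exact Or.inl ⟨h1, h2, h4⟩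
      · exact Or.inr ⟨h1, h4, h3⟩
    · rintro (⟨h1, h2, h3⟩ | ⟨h1, h2, h3⟩)
      · exact ⟨h1, h2, h3.trans_le h'⟩
      · exact ⟨h1, h.trans h2, h3⟩
  · rw [Set.disjoint_left]
    rintro f ⟨-, -, h1⟩ ⟨-, h2, -⟩
    exact absurd h1 (not_lt.2 h2)

theorem t5c_csum (m : ℕ) (b : ℕ → ℝ) (hb : Monotone b) (k : ℕ) :
    ∑ i ∈ Finset.range k, ((t5cN K m (b i) (b (i + 1))).ncard : ℝ) =
      (t5cN K m (b 0) (b k)).ncard := by
  induction k with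
  | zero =>
    have h := t5c_cadd (K := K) m (le_refl (b 0)) (le_refl (b 0))
    rw [Finset.range_zero, Finset.sum_empty]
    have h2 : (t5cN K m (b 0) (b 0)).ncard = 0 := by omega
    rw [h2, Nat.cast_zero]
  | succ k ih =>
    rw [Finset.sum_range_succ, ih, t5c_cadd (K := K) m (hb (Nat.zero_le k)) (hb (Nat.le_succ k))]
    push_cast
    rfl

theorem t5c_cle (m : ℕ) (b b' : ℝ) :
    ((t5cN K m b b').ncard : ℝ) ≤ (GoodLe K m b').ncard := by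
  have h : t5cN K m b b' ⊆ GoodLe K m b' := fun _ hf => ⟨hf.1, hf.2.2.le⟩
  exact_mod_cast Set.ncard_le_ncard h (finite_GoodLe (K := K) m b')

/-- a chain of pieces -/
theorem t5c_chain {C κ : ℝ} (hC : 0 ≤ C) (F : QF K) (m : ℕ) (Ψ : K → ℝ) {A : ℝ} (hA : 0 ≤ A)
    {Q x η : ℝ} (hQ : 1 ≤ Q) (hx : Q ^ 2 ≤ x) (hη : 0 < η)
    (hp : ∀ b, Q ≤ b → b ≤ x / Q → |pce F m Ψ Q b (b * (1 + η)) x| ≤
      C * A * (m : ℝ) ^ κ * (x / Q * Q ^ (13 / 14 : ℝ) +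
        ((t5cN K m b (b * (1 + η))).ncard : ℝ) * (η * Q + 1) * Q ^ (1 / 100 : ℝ)))
    {b0 : ℝ} (hb0 : Q ≤ b0) (k : ℕ) :
    |pce F m Ψ Q b0 (b0 * (1 + η) ^ k) x| ≤
      C * A * (m : ℝ) ^ κ * (k * (x / Q * Q ^ (13 / 14 : ℝ)) +
        ((GoodLe K m (b0 * (1 + η) ^ k)).ncard : ℝ) * (η * Q + 1) * Q ^ (1 / 100 : ℝ)) := by
  have hQ0 : 0 < Q := by linarith
  have hb00 : 0 < b0 := by linarith
  have hx0 : 0 ≤ x := le_trans (sq_nonneg Q) hx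
  set b : ℕ → ℝ := fun i => b0 * (1 + η) ^ i with hbdef
  have hb1 : ∀ i, b (i + 1) = b i * (1 + η) := fun i => by
    simp only [hbdef]
    rw [pow_succ]
    ring
  have hbpos : ∀ i, 0 < b i := fun i => by
    simp only [hbdef]
    positivity
  have hmono : Monotone b := monotone_nat_of_le_succ fun i => by
    rw [hb1 i]
    nlinarith [hbpos i]
  have hbz : b 0 = b0 := by simp [hbdef]
  have hge : ∀ i, Q ≤ b i := fun i => hb0.trans (hbz ▸ hmono (Nat.zero_le i))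
  have hm : 0 ≤ C * A * (m : ℝ) ^ κ :=
    mul_nonneg (mul_nonneg hC hA) (Real.rpow_nonneg (Nat.cast_nonneg _) _)
  have hW : 0 ≤ x / Q * Q ^ (13 / 14 : ℝ) :=
    mul_nonneg (div_nonneg hx0 hQ0.le) (Real.rpow_nonneg hQ0.le _)
  have hZ : 0 ≤ (η * Q + 1) * Q ^ (1 / 100 : ℝ) :=
    mul_nonneg (by positivity) (Real.rpow_nonneg hQ0.le _)
  have hterm : ∀ i, |pce F m Ψ Q (b i) (b (i + 1)) x| ≤ C * A * (m : ℝ) ^ κ *
      (x / Q * Q ^ (13 / 14 : ℝ) +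
        ((t5cN K m (b i) (b (i + 1))).ncard : ℝ) * (η * Q + 1) * Q ^ (1 / 100 : ℝ)) := by
    intro i
    rw [hb1 i]
    rcases le_or_gt (b i) (x / Q) with h | h
    · exact hp (b i) (hge i) h
    · rw [t5c_zero F m Ψ hQ0 h, abs_zero]
      refine mul_nonneg hm (add_nonneg hW ?_)
      rw [mul_assoc]
      exact mul_nonneg (Nat.cast_nonneg _) hZ
  have h1 := t5c_sum F m Ψ Q x b hmono k
  rw [hbz] at h1
  have hbk : b k = b0 * (1 + η) ^ k := rfl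
  rw [← hbk, h1]
  refine (Finset.abs_sum_le_sum_abs _ _).trans ?_
  refine (Finset.sum_le_sum fun i _ => hterm i).trans ?_
  rw [← Finset.mul_sum]
  refine mul_le_mul_of_nonneg_left ?_ hm
  rw [Finset.sum_add_distrib, Finset.sum_const, Finset.card_range, nsmul_eq_mul]
  refine add_le_add le_rfl ?_
  rw [← Finset.sum_mul, ← Finset.sum_mul, t5c_csum m b hmono k, mul_assoc, mul_assoc]
  exact mul_le_mul_of_nonneg_right (t5c_cle m _ _) hZ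

end

/-! ### the ratio of the pieces -/

theorem t5c_eta {Q : ℝ} (hQ : 1 ≤ Q) : ∃ (n : ℕ) (η : ℝ), 1 ≤ n ∧ 0 < η ∧ η ≤ 1 ∧
    (1 + η) ^ n = 2 ∧ (n : ℝ) ≤ 2 * Q ^ (1 / 28 : ℝ) ∧ η ≤ Q ^ (-(1 / 28) : ℝ) := by
  have hQ0 : 0 < Q := by linarith
  have h1 : 1 ≤ Q ^ (1 / 28 : ℝ) := Real.one_le_rpow hQ (by norm_num)
  set n : ℕ := ⌈Q ^ (1 / 28 : ℝ)⌉₊ with hn
  have hn1 : Q ^ (1 / 28 : ℝ) ≤ n := Nat.le_ceil _
  have hn2 : (n : ℝ) < Q ^ (1 / 28 : ℝ) + 1 := Nat.ceil_lt_add_one (by linarith)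
  have hn0 : 1 ≤ n := by
    have h : (1 : ℝ) ≤ n := h1.trans hn1
    exact_mod_cast h
  have hnr : (0 : ℝ) < n := by exact_mod_cast hn0
  set η : ℝ := (2 : ℝ) ^ (1 / (n : ℝ)) - 1 with hη
  have hp : (1 + η) ^ n = 2 := by
    rw [hη, add_sub_cancel, ← Real.rpow_natCast, ← Real.rpow_mul (by norm_num),
      one_div_mul_cancel hnr.ne', Real.rpow_one]
  have hη0 : 0 < η := by
    rw [hη, sub_pos]
    exact Real.one_lt_rpow (by norm_num) (by positivity)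
  have hη1 : (n : ℝ) * η ≤ 1 := by
    have h := one_add_mul_le_pow (show (-2 : ℝ) ≤ η by linarith) n
    rw [hp] at h
    linarith
  have hη2 : η ≤ 1 / n := by
    rw [le_div_iff₀ hnr]
    linarith
  refine ⟨n, η, hn0, hη0, ?_, hp, by linarith, ?_⟩
  · refine hη2.trans ?_
    rw [div_le_one hnr]
    exact_mod_cast hn0
  · refine hη2.trans ?_
    rw [Real.rpow_neg hQ0.le, ← one_div]
    exact one_div_le_one_div_of_le (by linarith) hn1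

/-- sizes -/
theorem t5c_sizes {Q x η n : ℝ} (hQ : 1 ≤ Q) (hx : 0 ≤ x)
    (hn2 : n ≤ 2 * Q ^ (1 / 28 : ℝ)) (hη2 : η ≤ Q ^ (-(1 / 28) : ℝ)) :
    n * (x / Q * Q ^ (13 / 14 : ℝ)) ≤ 2 * (x * Q ^ (-(1 / 50) : ℝ)) ∧
    x / Q * Q ^ (13 / 14 : ℝ) ≤ x * Q ^ (-(1 / 50) : ℝ) ∧
    x / Q * ((η * Q + 1) * Q ^ (1 / 100 : ℝ)) ≤ 2 * (x * Q ^ (-(1 / 50) : ℝ)) := by
  have hQ0 : 0 < Q := by linarith
  have hdiv : ∀ t : ℝ, x / Q * Q ^ t = x * Q ^ (t - 1) := by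
    intro t
    rw [Real.rpow_sub hQ0, Real.rpow_one]
    ring
  have hmono : ∀ s t : ℝ, s ≤ t → x * Q ^ s ≤ x * Q ^ t := fun s t h =>
    mul_le_mul_of_nonneg_left (Real.rpow_le_rpow_of_exponent_le hQ h) hx
  refine ⟨?_, ?_, ?_⟩
  · have h1 : n * (x / Q * Q ^ (13 / 14 : ℝ)) ≤
        2 * Q ^ (1 / 28 : ℝ) * (x / Q * Q ^ (13 / 14 : ℝ)) :=
      mul_le_mul_of_nonneg_right hn2 (by positivity)
    have h2 : 2 * Q ^ (1 / 28 : ℝ) * (x / Q * Q ^ (13 / 14 : ℝ)) =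
        2 * (x * Q ^ (-(1 / 28) : ℝ)) := by
      rw [hdiv]
      have h3 : Q ^ (-(1 / 28) : ℝ) = Q ^ (1 / 28 : ℝ) * Q ^ ((13 / 14 : ℝ) - 1) := by
        rw [← Real.rpow_add hQ0]
        norm_num
      rw [h3]
      ring
    have h4 := hmono (-(1 / 28)) (-(1 / 50)) (by norm_num)
    linarith
  · rw [hdiv]
    exact hmono _ _ (by norm_num)
  · have h1 : η * Q + 1 ≤ 2 * Q ^ (27 / 28 : ℝ) := by
      have h2 : η * Q ≤ Q ^ (-(1 / 28) : ℝ) * Q := mul_le_mul_of_nonneg_right hη2 hQ0.le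
      have h3 : Q ^ (-(1 / 28) : ℝ) * Q = Q ^ (27 / 28 : ℝ) := by
        nth_rewrite 2 [← Real.rpow_one Q]
        rw [← Real.rpow_add hQ0]
        norm_num
      have h4 : 1 ≤ Q ^ (27 / 28 : ℝ) := Real.one_le_rpow hQ (by norm_num)
      linarith
    have h5 : x / Q * ((η * Q + 1) * Q ^ (1 / 100 : ℝ)) ≤
        x / Q * (2 * Q ^ (27 / 28 : ℝ) * Q ^ (1 / 100 : ℝ)) :=
      mul_le_mul_of_nonneg_left (mul_le_mul_of_nonneg_right h1 (by positivity)) (by positivity)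
    have h6 : x / Q * (2 * Q ^ (27 / 28 : ℝ) * Q ^ (1 / 100 : ℝ)) =
        2 * (x * Q ^ ((27 / 28 : ℝ) + 1 / 100 - 1)) := by
      rw [← hdiv, Real.rpow_add hQ0]
      ring
    have h7 := hmono ((27 / 28 : ℝ) + 1 / 100 - 1) (-(1 / 50)) (by norm_num)
    linarith

theorem sav_of (h1 : StmBB) (h2 : StmCnt) (h3 : StmNorm) (h4 : StmBX) : StmSav := by
  obtain ⟨C1, κ1, hC1, hκ1, hP⟩ := piece_of h1 h2 h3 h4
  obtain ⟨C2, hC2, hN⟩ := h2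
  obtain ⟨C3, κ3, hC3, hκ3, hM⟩ := middle_of h4
  refine ⟨6 * C1 + 32 * C1 * C2 + C3, κ1 + κ3 + 1, by positivity, by linarith, ?_⟩
  intro K _ _ F m hm hd Ψ A hΨ hloc j x hx
  have hA : 0 ≤ A := (hΨ 0).1.trans (hΨ 0).2
  have hQ : (1 : ℝ) ≤ 2 ^ j := one_le_pow₀ (by norm_num)
  have hQ0 : (0 : ℝ) < 2 ^ j := by linarith
  have hm1 : (1 : ℝ) ≤ m := by exact_mod_cast Nat.one_le_iff_ne_zero.2 hm
  have hm0 : (0 : ℝ) < m := by linarith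
  rcases lt_or_ge x (((2 : ℝ) ^ j) ^ 2) with hlt | hge
  · have hb : x / 2 ^ j < 2 ^ j := by
      rw [div_lt_iff₀ hQ0, ← sq]
      exact hlt
    rw [t5c_blk F m Ψ j (b := 2 ^ j) (b' := x / 2 ^ j + 1) le_rfl (by linarith),
      t5c_zero F m Ψ hQ0 hb, abs_zero]
    positivity
  obtain ⟨n, η, hn, hη, hη1, hp, hn2, hη2⟩ := t5c_eta hQ
  obtain ⟨s1, s2, s3⟩ := t5c_sizes hQ (by linarith : (0 : ℝ) ≤ x) hn2 hη2
  have hpi : ∀ b, (2 : ℝ) ^ j ≤ b → b ≤ x / 2 ^ j →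
      |pce F m Ψ (2 ^ j) b (b * (1 + η)) x| ≤
      C1 * A * (m : ℝ) ^ κ1 * (x / 2 ^ j * (2 ^ j) ^ (13 / 14 : ℝ) +
        ((t5cN K m b (b * (1 + η))).ncard : ℝ) * (η * 2 ^ j + 1) * (2 ^ j) ^ (1 / 100 : ℝ)) :=
    fun b hb1 hb2 => hP K F m hm hd Ψ A hΨ hloc (2 ^ j) b η x hQ hb1 hb2 hge hη hη1
  have hcnt : ∀ y : ℝ, 1 ≤ y → y ≤ 4 * (x / 2 ^ j) →
      ((GoodLe K m y).ncard : ℝ) ≤ C2 * (2 * m) * (4 * (x / 2 ^ j)) := by
    intro y hy1 hy2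
    have h5 := hN K F m hm hd y hy1
    have h6 : 1 + Real.log F.d ≤ 2 * m := by
      have h7 : (F.d : ℝ) ≤ m := by
        have h8 : F.d ∣ m := (dvd_mul_left _ _).trans hd
        exact_mod_cast Nat.le_of_dvd (Nat.pos_of_ne_zero hm) h8
      have h9 : Real.log F.d ≤ F.d := by
        have h10 : (0 : ℝ) < F.d := by
          have := F.lt
          exact_mod_cast (by omega : 0 < F.d)
        have := Real.log_le_sub_one_of_pos h10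
        linarith
      linarith
    refine h5.trans ?_
    have h7 : C2 * (1 + Real.log F.d) ≤ C2 * (2 * m) := mul_le_mul_of_nonneg_left h6 hC2
    have h8 : 0 ≤ C2 * (2 * (m : ℝ)) := by positivity
    exact (mul_le_mul_of_nonneg_right h7 (by linarith)).trans (mul_le_mul_of_nonneg_left hy2 h8)
  set W : ℝ := x / 2 ^ j * (2 ^ j) ^ (13 / 14 : ℝ) with hW
  set Z : ℝ := (η * 2 ^ j + 1) * (2 ^ j) ^ (1 / 100 : ℝ) with hZ
  set T : ℝ := x * (2 ^ j) ^ (-(1 / 50) : ℝ) with hT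
  have hT0 : 0 ≤ T := by positivity
  have hW0 : 0 ≤ W := by positivity
  have hZ0 : 0 ≤ Z := by positivity
  have hm2 : 0 ≤ C1 * A * (m : ℝ) ^ κ1 := by positivity
  have hm3 : 0 ≤ C3 * A * (m : ℝ) ^ κ3 := by positivity
  have hchain : ∀ b0 : ℝ, 2 ^ j ≤ b0 → ∀ k : ℕ, b0 * (1 + η) ^ k ≤ 4 * (x / 2 ^ j) →
      |pce F m Ψ (2 ^ j) b0 (b0 * (1 + η) ^ k) x| ≤
        C1 * A * (m : ℝ) ^ κ1 * (k * W + C2 * (2 * m) * (4 * (x / 2 ^ j)) * Z) := by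
    intro b0 hb0 k hk
    refine (t5c_chain hC1 F m Ψ hA hQ hge hη hpi hb0 k).trans ?_
    refine mul_le_mul_of_nonneg_left (add_le_add le_rfl ?_) hm2
    rw [mul_assoc]
    refine mul_le_mul_of_nonneg_right (hcnt _ ?_ hk) hZ0
    have h5 : 1 ≤ (1 + η) ^ k := one_le_pow₀ (by linarith)
    nlinarith
  have hQx : (2 : ℝ) ^ j ≤ x / 2 ^ j := by
    rw [le_div_iff₀ hQ0, ← sq]
    exact hge
  have hmain : |blk F m Ψ j x| ≤ C1 * A * (m : ℝ) ^ κ1 *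
      (3 * n * W + 2 * (C2 * (2 * m) * (4 * (x / 2 ^ j)) * Z)) + C3 * A * (m : ℝ) ^ κ3 * W := by
    have hNZ : 0 ≤ C2 * (2 * m) * (4 * (x / 2 ^ j)) * Z := by positivity
    have hnW : 0 ≤ n * W := by positivity
    have hn1 : (1 : ℝ) ≤ n := by exact_mod_cast hn
    rcases lt_or_ge x (4 * ((2 : ℝ) ^ j) ^ 2) with hx4 | hx4
    · have h5 : (1 + η) ^ (2 * n) = 4 := by
        rw [mul_comm, pow_mul, hp]
        norm_num
      have h6 : x / 2 ^ j < 2 ^ j * (1 + η) ^ (2 * n) := by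
        rw [h5, div_lt_iff₀ hQ0]
        linarith
      rw [t5c_blk F m Ψ j le_rfl h6]
      refine (hchain (2 ^ j) le_rfl (2 * n) (by rw [h5]; linarith)).trans ?_
      have h7 : 0 ≤ C3 * A * (m : ℝ) ^ κ3 * W := mul_nonneg hm3 hW0
      have h8 : ((2 * n : ℕ) : ℝ) * W + C2 * (2 * m) * (4 * (x / 2 ^ j)) * Z ≤
          3 * n * W + 2 * (C2 * (2 * m) * (4 * (x / 2 ^ j)) * Z) := by
        push_cast
        linarith
      have h9 := mul_le_mul_of_nonneg_left h8 hm2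
      linarith
    · have h5 : 2 * (2 : ℝ) ^ j ≤ x / (2 * 2 ^ j) := by
        rw [le_div_iff₀ (by positivity)]
        nlinarith
      have h6 : (1 + η) ^ (n + 1) = 2 * (1 + η) := by
        rw [pow_succ, hp]
      have h7 : x / (2 * 2 ^ j) * (1 + η) ^ (n + 1) = x / 2 ^ j * (1 + η) := by
        rw [h6]
        field_simp
      have hxQ : 0 < x / 2 ^ j := by linarith
      have h8 : x / 2 ^ j < x / (2 * 2 ^ j) * (1 + η) ^ (n + 1) := by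
        rw [h7]
        nlinarith
      have h9 : 2 ^ j * (1 + η) ^ n = 2 * (2 : ℝ) ^ j := by
        rw [hp]
        ring
      have h10 : x / (2 * 2 ^ j) ≤ x / (2 * 2 ^ j) * (1 + η) ^ (n + 1) := by
        have h11 : x / (2 * 2 ^ j) ≤ x / 2 ^ j := by
          refine div_le_div_of_nonneg_left (by linarith) hQ0 (by linarith)
        linarith
      rw [t5c_blk F m Ψ j le_rfl h8,
        t5c_add F m Ψ (2 ^ j) x (b := 2 ^ j) (b' := 2 * 2 ^ j) (by linarith) (h5.trans h10),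
        t5c_add F m Ψ (2 ^ j) x (b := 2 * 2 ^ j) (b' := x / (2 * 2 ^ j)) h5 h10]
      have k1 := hchain (2 ^ j) le_rfl n (by rw [h9]; linarith)
      rw [h9] at k1
      have k2 := hM K F m hm hd Ψ A hΨ hloc (2 ^ j) x hQ hx4
      have k3 := hchain (x / (2 * 2 ^ j)) (by linarith) (n + 1) (by rw [h7]; nlinarith)
      have k4 := abs_add_le (pce F m Ψ (2 ^ j) (2 ^ j) (2 * 2 ^ j) x)
        (pce F m Ψ (2 ^ j) (2 * 2 ^ j) (x / (2 * 2 ^ j)) x +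
          pce F m Ψ (2 ^ j) (x / (2 * 2 ^ j)) (x / (2 * 2 ^ j) * (1 + η) ^ (n + 1)) x)
      have k5 := abs_add_le (pce F m Ψ (2 ^ j) (2 * 2 ^ j) (x / (2 * 2 ^ j)) x)
        (pce F m Ψ (2 ^ j) (x / (2 * 2 ^ j)) (x / (2 * 2 ^ j) * (1 + η) ^ (n + 1)) x)
      have k6 : (n * W + C2 * (2 * m) * (4 * (x / 2 ^ j)) * Z) +
          (((n + 1 : ℕ) : ℝ) * W + C2 * (2 * m) * (4 * (x / 2 ^ j)) * Z) ≤
          3 * n * W + 2 * (C2 * (2 * m) * (4 * (x / 2 ^ j)) * Z) := by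
        push_cast
        nlinarith
      have k7 := mul_le_mul_of_nonneg_left k6 hm2
      rw [mul_add] at k7
      linarith
  refine hmain.trans ?_
  have e1 : 3 * n * W + 2 * (C2 * (2 * m) * (4 * (x / 2 ^ j)) * Z) ≤
      (6 + 32 * C2 * m) * T := by
    have e2 : C2 * (2 * m) * (4 * (x / 2 ^ j)) * Z = 8 * C2 * m * (x / 2 ^ j * Z) := by ring
    have e3 : 8 * C2 * m * (x / 2 ^ j * Z) ≤ 8 * C2 * m * (2 * T) :=
      mul_le_mul_of_nonneg_left s3 (by positivity)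
    rw [e2]
    nlinarith
  have e4 : C1 * A * (m : ℝ) ^ κ1 *
      (3 * n * W + 2 * (C2 * (2 * m) * (4 * (x / 2 ^ j)) * Z)) ≤
      C1 * A * (m : ℝ) ^ κ1 * ((6 + 32 * C2 * m) * T) := mul_le_mul_of_nonneg_left e1 hm2
  have e5 : C3 * A * (m : ℝ) ^ κ3 * W ≤ C3 * A * (m : ℝ) ^ κ3 * T :=
    mul_le_mul_of_nonneg_left s2 hm3
  have p1 : (m : ℝ) ^ κ1 ≤ (m : ℝ) ^ (κ1 + κ3 + 1) :=
    Real.rpow_le_rpow_of_exponent_le hm1 (by linarith)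
  have p2 : (m : ℝ) ^ κ3 ≤ (m : ℝ) ^ (κ1 + κ3 + 1) :=
    Real.rpow_le_rpow_of_exponent_le hm1 (by linarith)
  have p3 : (m : ℝ) ^ κ1 * m ≤ (m : ℝ) ^ (κ1 + κ3 + 1) := by
    have p4 : (m : ℝ) ^ κ1 * m = (m : ℝ) ^ (κ1 + 1) := by
      rw [Real.rpow_add hm0, Real.rpow_one]
    rw [p4]
    exact Real.rpow_le_rpow_of_exponent_le hm1 (by linarith)
  have hAT : 0 ≤ A * T := mul_nonneg hA hT0
  have q1 : C1 * A * (m : ℝ) ^ κ1 * ((6 + 32 * C2 * m) * T) =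
      6 * C1 * (A * T) * (m : ℝ) ^ κ1 + 32 * C1 * C2 * (A * T) * ((m : ℝ) ^ κ1 * m) := by ring
  have q2 : 6 * C1 * (A * T) * (m : ℝ) ^ κ1 ≤ 6 * C1 * (A * T) * (m : ℝ) ^ (κ1 + κ3 + 1) :=
    mul_le_mul_of_nonneg_left p1 (by positivity)
  have q3 : 32 * C1 * C2 * (A * T) * ((m : ℝ) ^ κ1 * m) ≤
      32 * C1 * C2 * (A * T) * (m : ℝ) ^ (κ1 + κ3 + 1) :=
    mul_le_mul_of_nonneg_left p3 (by positivity)
  have q4 : C3 * (A * T) * (m : ℝ) ^ κ3 ≤ C3 * (A * T) * (m : ℝ) ^ (κ1 + κ3 + 1) :=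
    mul_le_mul_of_nonneg_left p2 (by positivity)
  have q5 : (6 * C1 + 32 * C1 * C2 + C3) * A * (m : ℝ) ^ (κ1 + κ3 + 1) * x *
      (2 ^ j) ^ (-(1 / 50) : ℝ) =
      6 * C1 * (A * T) * (m : ℝ) ^ (κ1 + κ3 + 1) +
        32 * C1 * C2 * (A * T) * (m : ℝ) ^ (κ1 + κ3 + 1) +
        C3 * (A * T) * (m : ℝ) ^ (κ1 + κ3 + 1) := by
    rw [hT]
    ring
  rw [q5]
  linarith

end Pool.Agent.H32.MA
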