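import Pool.Agent.H32.MA.TStm

/-!
# Project MA9 (MP_a9b340), row T6: the geometric mean of the two bounds
-/

set_option autoImplicit false

open scoped BigOperators
open NumberField IsDedekindDomain

namespace Pool.Agent.H32.MA

private theorem t6_min {u v θ : ℝ} (hu : 0 < u) (hv : 0 < v) (h0 : 0 ≤ θ) (h1 : θ ≤ 1) :
    min u v ≤ u ^ θ * v ^ (1 - θ) := by
  have hm : 0 < min u v := lt_min hu hv
  calc min u v = (min u v) ^ θ * (min u v) ^ (1 - θ) := by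
        rw [← Real.rpow_add hm, add_sub_cancel, Real.rpow_one]
    _ ≤ u ^ θ * v ^ (1 - θ) :=
        mul_le_mul (Real.rpow_le_rpow hm.le (min_le_left _ _) h0)
          (Real.rpow_le_rpow hm.le (min_le_right _ _) (by linarith))
          (Real.rpow_nonneg hm.le _) (Real.rpow_nonneg hu.le _)

theorem blk_of (h1 : StmTriv) (h2 : StmSav) : StmBlk := by
  intro e he
  obtain ⟨C1, κ, hC1, hκ, h2⟩ := h2
  obtain ⟨C2, hC2, h1⟩ := h1 (e / 2) (by linarith)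
  set θ : ℝ := min 1 (e / (2 * (κ + 1))) with hθd
  have hκ1 : 0 < 2 * (κ + 1) := by linarith
  have hθ0 : 0 < θ := lt_min one_pos (by positivity)
  have hθ1 : θ ≤ 1 := min_le_left _ _
  have hθκ : κ * θ ≤ e / 2 := by
    have h3 : θ ≤ e / (2 * (κ + 1)) := min_le_right _ _
    have h4 : κ * θ ≤ κ * (e / (2 * (κ + 1))) := mul_le_mul_of_nonneg_left h3 hκ
    have h5 : κ * (e / (2 * (κ + 1))) ≤ e / 2 := by
      rw [mul_div_assoc', div_le_div_iff₀ hκ1 (by norm_num)]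
      nlinarith
    linarith
  refine ⟨max C1 C2, θ / 50, le_trans hC1 (le_max_left _ _), by positivity, ?_⟩
  intro K _ _ F m hm hdm Ψ A hΨ hloc j x hx
  have hA : 0 ≤ A := (hΨ 1).1.trans (hΨ 1).2
  have hm1 : (1 : ℝ) ≤ m := by exact_mod_cast Nat.one_le_iff_ne_zero.2 hm
  have hm0 : (0 : ℝ) < m := by linarith
  have hQ : (0 : ℝ) < (2 : ℝ) ^ j := by positivity
  have b1 := h1 K F m hm hdm Ψ A hΨ j x hx
  have b2 := h2 K F m hm hdm Ψ A hΨ hloc j x hx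
  set B : ℝ := max C1 C2 with hB
  have hB0 : 0 ≤ B := le_trans hC1 (le_max_left _ _)
  set u : ℝ := (m : ℝ) ^ κ * ((2 : ℝ) ^ j) ^ (-(1 / 50) : ℝ) with hu
  set v : ℝ := (m : ℝ) ^ (e / 2) with hv
  have hu0 : 0 < u := mul_pos (Real.rpow_pos_of_pos hm0 _) (Real.rpow_pos_of_pos hQ _)
  have hv0 : 0 < v := Real.rpow_pos_of_pos hm0 _
  have hZ : 0 ≤ A * x := mul_nonneg hA (by linarith)
  have c1 : |blk F m Ψ j x| ≤ B * (A * x) * v := by
    refine b1.trans ?_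
    have h3 : C2 * (A * x * v) ≤ B * (A * x * v) :=
      mul_le_mul_of_nonneg_right (le_max_right _ _) (mul_nonneg hZ hv0.le)
    calc C2 * A * (m : ℝ) ^ (e / 2) * x = C2 * (A * x * v) := by rw [hv]; ring
      _ ≤ B * (A * x * v) := h3
      _ = _ := by ring
  have c2 : |blk F m Ψ j x| ≤ B * (A * x) * u := by
    refine b2.trans ?_
    have h3 : C1 * (A * x * u) ≤ B * (A * x * u) :=
      mul_le_mul_of_nonneg_right (le_max_left _ _) (mul_nonneg hZ hu0.le)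
    calc C1 * A * (m : ℝ) ^ κ * x * ((2 : ℝ) ^ j) ^ (-(1 / 50) : ℝ) = C1 * (A * x * u) := by
          rw [hu]; ring
      _ ≤ B * (A * x * u) := h3
      _ = _ := by ring
  have hBZ : 0 ≤ B * (A * x) := mul_nonneg hB0 hZ
  have c3 : |blk F m Ψ j x| ≤ B * (A * x) * min u v := by
    rcases min_choice u v with h3 | h3
    · rw [h3]; exact c2
    · rw [h3]; exact c1
  have c4 : u ^ θ * v ^ (1 - θ) ≤ (m : ℝ) ^ e * ((2 : ℝ) ^ j) ^ (-(θ / 50)) := by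
    have h3 : u ^ θ = (m : ℝ) ^ (κ * θ) * ((2 : ℝ) ^ j) ^ (-(θ / 50)) := by
      rw [hu, Real.mul_rpow (Real.rpow_nonneg hm0.le _) (Real.rpow_nonneg hQ.le _),
        ← Real.rpow_mul hm0.le, ← Real.rpow_mul hQ.le]
      congr 2
      ring
    have h4 : v ^ (1 - θ) = (m : ℝ) ^ (e / 2 * (1 - θ)) := by
      rw [hv, ← Real.rpow_mul hm0.le]
    have h5 : (m : ℝ) ^ (κ * θ) * (m : ℝ) ^ (e / 2 * (1 - θ)) ≤ (m : ℝ) ^ e := by
      rw [← Real.rpow_add hm0]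
      refine Real.rpow_le_rpow_of_exponent_le hm1 ?_
      nlinarith
    rw [h3, h4]
    have h6 : 0 ≤ ((2 : ℝ) ^ j) ^ (-(θ / 50)) := Real.rpow_nonneg hQ.le _
    calc (m : ℝ) ^ (κ * θ) * ((2 : ℝ) ^ j) ^ (-(θ / 50)) * (m : ℝ) ^ (e / 2 * (1 - θ))
        = (m : ℝ) ^ (κ * θ) * (m : ℝ) ^ (e / 2 * (1 - θ)) * ((2 : ℝ) ^ j) ^ (-(θ / 50)) := by ring
      _ ≤ _ := mul_le_mul_of_nonneg_right h5 h6
  calc |blk F m Ψ j x| ≤ B * (A * x) * min u v := c3
    _ ≤ B * (A * x) * ((m : ℝ) ^ e * ((2 : ℝ) ^ j) ^ (-(θ / 50))) :=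
        mul_le_mul_of_nonneg_left ((t6_min hu0 hv0 hθ0.le hθ1).trans c4) hBZ
    _ = _ := by ring

end Pool.Agent.H32.MA
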