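import Pool.Agent.H32.MA.TDefs

/-!
# Project MA9 (MP_a9b340): statements used by the block T
-/

set_option autoImplicit false

open scoped BigOperators
open NumberField IsDedekindDomain

namespace Pool.Agent.H32.MA

/-- few classes (F1) -/
def StmBB : Prop :=
  ∀ (K : Type) [Field K] [NumberField K] (F : QF K) (m : ℕ), m ≠ 0 → 8 * F.d ∣ m →
    ∀ S : Finset (HeightOneSpectrum (𝓞 K)),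
      (BB m S).Finite ∧ (BB m S).ncard ≤ 4 ^ (m.primeFactors.card + 1)

/-- few good sets of given norm -/
def StmNorm : Prop :=
  ∀ (K : Type) [Field K] [NumberField K] (F : QF K) (m : ℕ), m ≠ 0 → 8 * F.d ∣ m → ∀ n : ℕ,
    n ≠ 0 → {S : Finset (HeightOneSpectrum (𝓞 K)) | Good m S ∧ nS S = n}.ncard ≤ n.divisors.card

/-- few good sets of norm at most `y` (6.2) -/
def StmCnt : Prop :=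
  ∃ C : ℝ, 0 ≤ C ∧ ∀ (K : Type) [Field K] [NumberField K] (F : QF K) (m : ℕ), m ≠ 0 →
    8 * F.d ∣ m → ∀ y : ℝ, 1 ≤ y → ((GoodLe K m y).ncard : ℝ) ≤ C * (1 + Real.log F.d) * y

/-- the bilinear bound in boxes (6.6) -/
def StmBX : Prop :=
  ∃ C κ : ℝ, 0 ≤ C ∧ 0 ≤ κ ∧ ∀ (K : Type) [Field K] [NumberField K] (F : QF K) (m : ℕ), m ≠ 0 →
    8 * F.d ∣ m → ∀ (Ψ : K → ℝ) (A : ℝ), (∀ b, 0 ≤ Ψ b ∧ Ψ b ≤ A) → MLoc m Ψ →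
    ∀ E N : ℝ, 1 ≤ E → E ≤ N → ∀ α β : Finset (HeightOneSpectrum (𝓞 K)) → ℝ,
      (∀ e, |α e| ≤ 1) → (∀ f, |β f| ≤ 1) →
      |BX F m Ψ E N α β| ≤ C * A * (m : ℝ) ^ κ * N * E ^ (13 / 14 : ℝ)

/-- the blocks with a power saving (6.7) -/
def StmSav : Prop :=
  ∃ C κ : ℝ, 0 ≤ C ∧ 0 ≤ κ ∧ ∀ (K : Type) [Field K] [NumberField K] (F : QF K) (m : ℕ), m ≠ 0 →
    8 * F.d ∣ m → ∀ (Ψ : K → ℝ) (A : ℝ), (∀ b, 0 ≤ Ψ b ∧ Ψ b ≤ A) → MLoc m Ψ →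
    ∀ (j : ℕ) (x : ℝ), 1 ≤ x →
      |blk F m Ψ j x| ≤ C * A * (m : ℝ) ^ κ * x * ((2 : ℝ) ^ j) ^ (-(1 / 50) : ℝ)

/-- the trivial bound for the blocks -/
def StmTriv : Prop :=
  ∀ e : ℝ, 0 < e → ∃ C : ℝ, 0 ≤ C ∧ ∀ (K : Type) [Field K] [NumberField K] (F : QF K) (m : ℕ),
    m ≠ 0 → 8 * F.d ∣ m → ∀ (Ψ : K → ℝ) (A : ℝ), (∀ b, 0 ≤ Ψ b ∧ Ψ b ≤ A) →
    ∀ (j : ℕ) (x : ℝ), 1 ≤ x → |blk F m Ψ j x| ≤ C * A * (m : ℝ) ^ e * x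

/-- the blocks, combined -/
def StmBlk : Prop :=
  ∀ e : ℝ, 0 < e → ∃ C δ : ℝ, 0 ≤ C ∧ 0 < δ ∧ ∀ (K : Type) [Field K] [NumberField K]
    (F : QF K) (m : ℕ), m ≠ 0 → 8 * F.d ∣ m → ∀ (Ψ : K → ℝ) (A : ℝ),
    (∀ b, 0 ≤ Ψ b ∧ Ψ b ≤ A) → MLoc m Ψ → ∀ (j : ℕ) (x : ℝ), 1 ≤ x →
      |blk F m Ψ j x| ≤ C * A * (m : ℝ) ^ e * x * ((2 : ℝ) ^ j) ^ (-δ)

/-- the uniform bound (AN-U) -/
def StmU : Prop :=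
  ∀ e : ℝ, 0 < e → ∃ C : ℝ, 0 ≤ C ∧ ∀ (K : Type) [Field K] [NumberField K] (F : QF K) (m : ℕ),
    m ≠ 0 → 8 * F.d ∣ m → ∀ (Ψ : K → ℝ) (A : ℝ), (∀ b, 0 ≤ Ψ b ∧ Ψ b ≤ A) → MLoc m Ψ →
    ∀ x : ℝ, 1 ≤ x → |TT F m Ψ x| ≤ C * A * (m : ℝ) ^ e * x

/-- the limit for given `e` (6.8) -/
def StmSng : Prop :=
  ∀ (K : Type) [Field K] [NumberField K] (F : QF K) (m : ℕ), m ≠ 0 → 8 * F.d ∣ m →
    ∀ (Ψ : K → ℝ) (A : ℝ), (∀ b, 0 ≤ Ψ b ∧ Ψ b ≤ A) → MLoc m Ψ →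
    (∀ e : Finset (HeightOneSpectrum (𝓞 K)), Good m e → e ≠ ∅ →
      Filter.Tendsto (fun x : ℝ => sng F m Ψ e x / x) Filter.atTop (nhds 0)) ∧
    ∃ l : ℝ, 0 ≤ l ∧ Filter.Tendsto (fun x : ℝ => sng F m Ψ ∅ x / x) Filter.atTop (nhds l) ∧
      ((∃ (b : K) (S : Finset (HeightOneSpectrum (𝓞 K))), b ≠ 0 ∧ 0 < Ψ b ∧ Good m S ∧
        ∀ P : HeightOneSpectrum (𝓞 K), ¬ 1 ≤ Pool.Agent.H98.MF.ord P (m : K) →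
          (P ∈ S → ((Pool.Agent.H98.MF.ord P b : ℤ) : ZMod 2) = 1) ∧
          (P ∉ S → ((Pool.Agent.H98.MF.ord P b : ℤ) : ZMod 2) = 0)) → 0 < l)

/-- the limit (AN-L) -/
def StmL : Prop :=
  ∀ (K : Type) [Field K] [NumberField K] (F : QF K) (m : ℕ), m ≠ 0 → 8 * F.d ∣ m →
    ∀ (Ψ : K → ℝ) (A : ℝ), (∀ b, 0 ≤ Ψ b ∧ Ψ b ≤ A) → MLoc m Ψ →
    ∃ l : ℝ, 0 ≤ l ∧ Filter.Tendsto (fun x : ℝ => TT F m Ψ x / x) Filter.atTop (nhds l) ∧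
      ((∃ (b : K) (S : Finset (HeightOneSpectrum (𝓞 K))), b ≠ 0 ∧ 0 < Ψ b ∧ Good m S ∧
        ∀ P : HeightOneSpectrum (𝓞 K), ¬ 1 ≤ Pool.Agent.H98.MF.ord P (m : K) →
          (P ∈ S → ((Pool.Agent.H98.MF.ord P b : ℤ) : ZMod 2) = 1) ∧
          (P ∉ S → ((Pool.Agent.H98.MF.ord P b : ℤ) : ZMod 2) = 0)) → 0 < l)

end Pool.Agent.H32.MA
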