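import Pool.Agent.H32.MA.T1b
import Pool.Agent.H32.MA.TStm

/-!
# Project MA9 (MP_a9b340), row T7: the uniform bound
-/

set_option autoImplicit false

open scoped BigOperators
open NumberField IsDedekindDomain

namespace Pool.Agent.H32.MA

theorem U_of (h : StmBlk) : StmU := by
  intro e he
  obtain ⟨C, δ, hC, hδ, hb⟩ := h e he
  set r : ℝ := (2 : ℝ) ^ (-δ) with hr
  have hr0 : 0 < r := Real.rpow_pos_of_pos (by norm_num) _
  have hr1 : r < 1 := by
    rw [hr]
    exact Real.rpow_lt_one_of_one_lt_of_neg (by norm_num) (by linarith)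
  have h1r : 0 < 1 - r := by linarith
  refine ⟨C * (1 / (1 - r)), by positivity, ?_⟩
  intro K _ _ F m hm hd Ψ A hΨ hloc x hx
  have hA : 0 ≤ A := (hΨ 0).1.trans (hΨ 0).2
  obtain ⟨J, hJ⟩ := pow_unbounded_of_one_lt x (by norm_num : (1 : ℝ) < 2)
  rw [TT_blk F m Ψ x J hJ]
  have hmr : (0 : ℝ) ≤ (m : ℝ) ^ e := Real.rpow_nonneg (Nat.cast_nonneg m) _
  have hterm : ∀ j ∈ Finset.range J, |blk F m Ψ j x| ≤ C * A * (m : ℝ) ^ e * x * r ^ j := by
    intro j _
    refine (hb K F m hm hd Ψ A hΨ hloc j x hx).trans (le_of_eq ?_)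
    congr 1
    rw [hr, ← Real.rpow_natCast 2 j, ← Real.rpow_mul (by norm_num), ← Real.rpow_natCast,
      ← Real.rpow_mul (by norm_num)]
    congr 1
    ring
  have hgeom : ∑ j ∈ Finset.range J, r ^ j ≤ 1 / (1 - r) := by
    rw [le_div_iff₀ h1r, mul_comm, mul_neg_geom_sum]
    have := pow_pos hr0 J
    linarith
  calc |∑ j ∈ Finset.range J, blk F m Ψ j x| ≤ ∑ j ∈ Finset.range J, |blk F m Ψ j x| :=
        Finset.abs_sum_le_sum_abs _ _
    _ ≤ ∑ j ∈ Finset.range J, C * A * (m : ℝ) ^ e * x * r ^ j := Finset.sum_le_sum hterm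
    _ = C * A * (m : ℝ) ^ e * x * ∑ j ∈ Finset.range J, r ^ j := by rw [Finset.mul_sum]
    _ ≤ C * A * (m : ℝ) ^ e * x * (1 / (1 - r)) :=
        mul_le_mul_of_nonneg_left hgeom (by positivity)
    _ = _ := by ring

end Pool.Agent.H32.MA
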