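import Pool.Agent.H32.MA.T1b
import Pool.Agent.H32.MA.TStm

/-!
# Project MA9 (MP_a9b340), row T8: the limit
-/

set_option autoImplicit false

open scoped BigOperators
open NumberField IsDedekindDomain

namespace Pool.Agent.H32.MA

private theorem t8_blk {K : Type} [Field K] [NumberField K] (F : QF K) (m : ℕ) (Ψ : K → ℝ)
    (l : ℝ)
    (hz : ∀ e : Finset (HeightOneSpectrum (𝓞 K)), Good m e → e ≠ ∅ →
      Filter.Tendsto (fun x : ℝ => sng F m Ψ e x / x) Filter.atTop (nhds 0))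
    (hl : Filter.Tendsto (fun x : ℝ => sng F m Ψ ∅ x / x) Filter.atTop (nhds l)) (j : ℕ) :
    Filter.Tendsto (fun x : ℝ => blk F m Ψ j x / x) Filter.atTop
      (nhds (if j = 0 then l else 0)) := by
  classical
  set E : Set (Finset (HeightOneSpectrum (𝓞 K))) :=
    {e | e ∈ GoodLe K m (2 ^ (j + 1)) ∧ 2 ^ j ≤ nS e ∧ nS e < 2 ^ (j + 1)} with hE
  have hfin : E.Finite := (finite_GoodLe (K := K) m (2 ^ (j + 1))).subset fun e he => he.1
  have h1 : ∀ x : ℝ, blk F m Ψ j x / x = ∑ e ∈ hfin.toFinset, sng F m Ψ e x / x := by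
    intro x
    rw [blk_sng F m Ψ j x, ← Finset.sum_div]
    congr 1
    rw [finsum_mem_eq_finite_toFinset_sum _ hfin]
  have h2 : (if j = 0 then l else 0) = ∑ e ∈ hfin.toFinset, (if e = ∅ then l else 0) := by
    rw [Finset.sum_ite_eq']
    have h3 : (∅ ∈ hfin.toFinset) ↔ j = 0 := by
      rw [Set.Finite.mem_toFinset]
      have hn : nS (∅ : Finset (HeightOneSpectrum (𝓞 K))) = 1 := rfl
      constructor
      · rintro ⟨_, h4, _⟩
        by_contra hj
        rw [hn] at h4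
        have h5 : 1 < 2 ^ j := Nat.one_lt_two_pow hj
        omega
      · rintro rfl
        refine ⟨⟨⟨fun P hP => absurd hP (Finset.notMem_empty P), ?_⟩, ?_⟩, ?_, ?_⟩
        · intro P hP
          exact absurd hP (by simp)
        · rw [hn]
          norm_num
        · rw [hn]
          norm_num
        · rw [hn]
          norm_num
    by_cases hj : j = 0
    · rw [if_pos hj, if_pos (h3.2 hj)]
    · rw [if_neg hj, if_neg (fun h => hj (h3.1 h))]
  rw [h2]
  refine (tendsto_finsetSum _ fun e he => ?_).congr fun x => (h1 x).symm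
  rw [Set.Finite.mem_toFinset] at he
  by_cases h3 : e = ∅
  · rw [if_pos h3, h3]
    exact hl
  · rw [if_neg h3]
    exact hz e he.1.1 h3

theorem L_of (h1 : StmBlk) (h2 : StmSng) : StmL := by
  intro K _ _ F m hm hdm Ψ A hΨ hloc
  obtain ⟨hz, l, hl0, hl, hpos⟩ := h2 K F m hm hdm Ψ A hΨ hloc
  refine ⟨l, hl0, ?_, hpos⟩
  obtain ⟨C, δ, hC, hδ, h1⟩ := h1 1 one_pos
  have hb := h1 K F m hm hdm Ψ A hΨ hloc
  set c : ℝ := C * A * (m : ℝ) ^ (1 : ℝ) with hc
  -- the sum over all blocks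
  have hTT : ∀ x : ℝ, TT F m Ψ x / x = ∑' j : ℕ, blk F m Ψ j x / x := by
    intro x
    obtain ⟨J, hJ⟩ := pow_unbounded_of_one_lt x (one_lt_two (α := ℝ))
    rw [TT_blk F m Ψ x J hJ, Finset.sum_div]
    symm
    refine tsum_eq_sum fun j hj => ?_
    have h3 : J ≤ j := by
      by_contra h4
      exact hj (Finset.mem_range.2 (not_le.1 h4))
    have h4 : x < 2 ^ j := lt_of_lt_of_le hJ (pow_le_pow_right₀ (by norm_num) h3)
    rw [blk_zero F m Ψ j x h4, zero_div]
  have hlim : l = ∑' j : ℕ, (if j = 0 then l else 0) := (tsum_ite_eq 0 (fun _ => l)).symm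
  have hr0 : 0 < (2 : ℝ) ^ (-δ) := Real.rpow_pos_of_pos (by norm_num) _
  have hr1 : (2 : ℝ) ^ (-δ) < 1 := Real.rpow_lt_one_of_one_lt_of_neg (by norm_num) (by linarith)
  have hsum : Summable fun j : ℕ => c * ((2 : ℝ) ^ (-δ)) ^ j :=
    (summable_geometric_of_lt_one hr0.le hr1).mul_left c
  rw [hlim]
  refine (tendsto_tsum_of_dominated_convergence hsum (fun j => t8_blk F m Ψ l hz hl j) ?_).congr
    fun x => (hTT x).symm
  filter_upwards [Filter.eventually_ge_atTop (1 : ℝ)] with x hx j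
  have hx0 : 0 < x := by linarith
  have h3 := hb j x hx
  rw [Real.norm_eq_abs, abs_div, abs_of_pos hx0, div_le_iff₀ hx0]
  refine h3.trans (le_of_eq ?_)
  have h4 : ((2 : ℝ) ^ j) ^ (-δ) = ((2 : ℝ) ^ (-δ)) ^ j := by
    rw [← Real.rpow_natCast (2 : ℝ) j, ← Real.rpow_mul (by norm_num), mul_comm,
      Real.rpow_mul (by norm_num), Real.rpow_natCast]
  rw [h4, hc]
  ring

end Pool.Agent.H32.MA
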