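import Pool.Agent.H32.MA.T4
import Pool.Agent.H32.MA.T5c
import Pool.Agent.H32.MA.T6
import Pool.Agent.H32.MA.T7
import Pool.Agent.H32.MA.T8
import Pool.Agent.H32.MA.FFinal
import Pool.Agent.H32.MA.RFinal
import Pool.Agent.H32.MA.SNEnd

/-!
# Project MA9 (MP_a9b340): the analytic theorem, assembled
-/

set_option autoImplicit false

namespace Pool.Agent.H32.MA

theorem stm_triv : StmTriv := triv_of FF.bb FF.cnt

theorem stm_sav : StmSav := sav_of FF.bb FF.cnt FF.norm FF.bx

theorem stm_blk : StmBlk := blk_of stm_triv stm_sav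

theorem stm_U : StmU := U_of stm_blk

theorem stm_sng : StmSng := SN.stmSng FF.bb (fun K _ _ => R.chP K) (fun K _ _ F => R.unr F)

theorem stm_L : StmL := L_of stm_blk stm_sng

end Pool.Agent.H32.MA
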