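import Pool.Agent.H98.MF.Base

/-!
# Project MA9 (MP_a9b340): definitions for the analytic part

A real quadratic field `K` with a square root of `d`, good ideals as finite sets of primes of
degree one, classes of `Kˣ` modulo squares, and the sum `T`.
-/

set_option autoImplicit false

open scoped BigOperators
open NumberField IsDedekindDomain

namespace Pool.Agent.H32.MA

open Pool.Agent.H98.MF (ord)

/-- a real quadratic field with a chosen square root of `d` and the conjugation -/
structure QF (K : Type) [Field K] [NumberField K] where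
  d : ℕ
  dl : K
  cj : K ≃ₐ[ℚ] K
  sqf : Squarefree d
  lt : 1 < d
  sq : dl ^ 2 = (d : K)
  cdl : cj dl = -dl
  rank : Module.finrank ℚ K = 2

section

variable {K : Type} [Field K] [NumberField K]

/-- the norm of a prime -/
noncomputable def nP (P : HeightOneSpectrum (𝓞 K)) : ℕ := Ideal.absNorm P.asIdeal

/-- the norm of a finite set of primes -/
noncomputable def nS (S : Finset (HeightOneSpectrum (𝓞 K))) : ℕ := ∏ P ∈ S, nP P

open Classical in
/-- the quadratic character at `P` of the unit part -/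
noncomputable def chP (P : HeightOneSpectrum (𝓞 K)) (γ : K) : ℤ :=
  if ∃ c : K, γ * (nP P : K) ^ (-(ord P γ)) * c ^ 2 = 1 ∨
    1 ≤ ord P (γ * (nP P : K) ^ (-(ord P γ)) * c ^ 2 - 1) then 1 else -1

/-- the product of the characters over a finite set of primes -/
noncomputable def chS (S : Finset (HeightOneSpectrum (𝓞 K))) (γ : K) : ℤ := ∏ P ∈ S, chP P γ

/-- `l` is multiplicatively congruent to `1` modulo `m` -/
def Cong (m : ℕ) (l : K) : Prop :=
  ∀ P : HeightOneSpectrum (𝓞 K), 1 ≤ ord P (m : K) → (l = 1 ∨ ord P (m : K) ≤ ord P (l - 1))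

/-- totally positive -/
def TotPos (l : K) : Prop := ∀ φ : K →+* ℝ, 0 < φ l

/-- `m`-local functions -/
structure MLoc (m : ℕ) (Ψ : K → ℝ) : Prop where
  sq : ∀ b z : K, b ≠ 0 → z ≠ 0 → Ψ (b * z ^ 2) = Ψ b
  loc : ∀ b l : K, b ≠ 0 → l ≠ 0 → Cong m l → TotPos l → Ψ (l * b) = Ψ b

/-- primes of degree one not dividing `m` -/
def gP (m : ℕ) (P : HeightOneSpectrum (𝓞 K)) : Prop := (nP P).Prime ∧ ¬ nP P ∣ m

/-- squarefree products of primes of degree one, no two of them conjugate -/
def Good (m : ℕ) (S : Finset (HeightOneSpectrum (𝓞 K))) : Prop :=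
  (∀ P ∈ S, gP m P) ∧ Set.InjOn nP (S : Set (HeightOneSpectrum (𝓞 K)))

variable (K) in
/-- classes modulo squares -/
abbrev SqC : Type := Kˣ ⧸ (powMonoidHom 2 : Kˣ →* Kˣ).range

/-- a representative -/
noncomputable def rp (q : SqC K) : K := ((Quotient.out q : Kˣ) : K)

open Classical in
/-- the classes with odd exponents exactly in `S`, outside `m` -/
noncomputable def BB (m : ℕ) (S : Finset (HeightOneSpectrum (𝓞 K))) : Set (SqC K) :=
  {q | ∀ P : HeightOneSpectrum (𝓞 K), ¬ 1 ≤ ord P (m : K) →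
    ((ord P (rp q) : ℤ) : ZMod 2) = if P ∈ S then 1 else 0}

open Classical in
/-- the inner sum -/
noncomputable def GG (F : QF K) (m : ℕ) (Ψ : K → ℝ) (e f : Finset (HeightOneSpectrum (𝓞 K))) :
    ℝ :=
  ∑ᶠ q ∈ BB m (e ∪ f), Ψ (rp q) * (chS e (F.cj (rp q)) : ℝ)

/-- the good sets of norm at most `x` -/
def GoodLe (K : Type) [Field K] [NumberField K] (m : ℕ) (x : ℝ) :
    Set (Finset (HeightOneSpectrum (𝓞 K))) :=
  {S | Good m S ∧ (nS S : ℝ) ≤ x}

open Classical in
/-- the main sum -/
noncomputable def TT (F : QF K) (m : ℕ) (Ψ : K → ℝ) (x : ℝ) : ℝ :=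
  ∑ᶠ S ∈ GoodLe K m x, ∑ e ∈ S.powerset,
    if nS e < nS (S \ e) then GG F m Ψ e (S \ e) else 0

end

end Pool.Agent.H32.MA
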