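import Pool.Agent.H32.MA.FDefs
import Pool.Agent.H32.MA.RBase
import Pool.Agent.H98.MF.C.Bas

/-!
# Project MA9 (MP_a9b340), row F13: the classes `BB`
-/

set_option autoImplicit false

open scoped BigOperators
open NumberField IsDedekindDomain

namespace Pool.Agent.H32.MA

open Pool.Agent.H98.MF (ord)

section

variable {K : Type} [Field K] [NumberField K]

/-- sign and parities at the primes of `m` -/
private noncomputable def bb_sc (m : ℕ) (x : ℚ) : Bool × Finset ℕ :=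
  (decide (0 < x), m.primeFactors.filter (fun p => Odd (padicValRat p x)))

private theorem bb_sc_mem (m : ℕ) (x : ℚ) :
    bb_sc m x ∈ (Finset.univ : Finset Bool) ×ˢ m.primeFactors.powerset := by
  rw [Finset.mem_product]
  exact ⟨Finset.mem_univ _, Finset.mem_powerset.mpr (Finset.filter_subset _ _)⟩

private theorem bb_sq (hQ : StQsq) {m : ℕ} (hm : m ≠ 0) {x y : ℚ} (hx : x ≠ 0) (hy : y ≠ 0)
    (h1 : ∀ p : ℕ, p.Prime → ¬ p ∣ m → Even (padicValRat p x))
    (h2 : ∀ p : ℕ, p.Prime → ¬ p ∣ m → Even (padicValRat p y))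
    (h : bb_sc m x = bb_sc m y) : IsSquare (x * y) := by
  refine hQ m x y hm hx hy (fun p hp hpm => ⟨h1 p hp hpm, h2 p hp hpm⟩) ?_ ?_
  · have := congrArg Prod.fst h
    simpa [bb_sc] using this
  · intro p hp
    have h3 : m.primeFactors.filter (fun p => Odd (padicValRat p x)) =
        m.primeFactors.filter (fun p => Odd (padicValRat p y)) := congrArg Prod.snd h
    have h4 : p ∈ m.primeFactors.filter (fun p => Odd (padicValRat p x)) ↔
        p ∈ m.primeFactors.filter (fun p => Odd (padicValRat p y)) := by rw [h3]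
    simp only [Finset.mem_filter] at h4
    exact ⟨fun a => (h4.mp ⟨hp, a⟩).2, fun a => (h4.mpr ⟨hp, a⟩).2⟩

private theorem bb_rp_ne (q : SqC K) : rp q ≠ 0 := Units.ne_zero _

private theorem bb_eq {q q' : SqC K} {z : K} (h : rp q * rp q' = z ^ 2) : q = q' := by
  have hz : z ≠ 0 := by
    intro hz
    rw [hz] at h
    have := mul_ne_zero (bb_rp_ne q) (bb_rp_ne q')
    exact this (by rw [h]; simp)
  have e1 : ((Quotient.out q : Kˣ) : SqC K) = q := QuotientGroup.out_eq' q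
  have e2 : ((Quotient.out q' : Kˣ) : SqC K) = q' := QuotientGroup.out_eq' q'
  rw [← e1, ← e2]
  rw [QuotientGroup.eq]
  refine ⟨Units.mk0 z hz * (Quotient.out q)⁻¹, ?_⟩
  have h' : (Quotient.out q : Kˣ) * Quotient.out q' = Units.mk0 z hz ^ 2 := by
    apply Units.ext
    simpa [rp] using h
  show (Units.mk0 z hz * (Quotient.out q)⁻¹) ^ 2 = (Quotient.out q)⁻¹ * Quotient.out q'
  rw [mul_pow, ← h', sq]
  calc (Quotient.out q : Kˣ) * Quotient.out q' * ((Quotient.out q)⁻¹ * (Quotient.out q)⁻¹)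
      = ((Quotient.out q : Kˣ) * (Quotient.out q)⁻¹) * ((Quotient.out q)⁻¹ * Quotient.out q') := by
        ac_rfl
    _ = _ := by rw [mul_inv_cancel, one_mul]

end

theorem f_bb (hQ : StQsq) (hH : ∀ (K : Type) [Field K] [NumberField K] (_ : QF K), StH90 (K := K))
    (hE : ∀ (K : Type) [Field K] [NumberField K] (F : QF K), StNmE F) : StmBB := by
  classical
  intro K _ _ F m hm hd S
  rcases (BB (K := K) m S).eq_empty_or_nonempty with h0 | ⟨q0, hq0⟩
  · rw [h0]
    simp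
  have hev : ∀ q ∈ BB (K := K) m S, ∀ P : HeightOneSpectrum (𝓞 K), ¬ 1 ≤ ord P (m : K) →
      Even (ord P (rp q * rp q0)) := by
    intro q hq P hP
    rw [Pool.Agent.H98.MF.B.ord_mul P (bb_rp_ne q) (bb_rp_ne q0)]
    have h1 := hq P hP
    have h2 := hq0 P hP
    have h3 : ((ord P (rp q) + ord P (rp q0) : ℤ) : ZMod 2) = 0 := by
      push_cast
      rw [h1, h2]
      exact CharTwo.add_self_eq_zero _
    have h4 := (ZMod.intCast_zmod_eq_zero_iff_dvd _ 2).mp h3
    exact even_iff_two_dvd.mpr (by exact_mod_cast h4)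
  set b : SqC K → K := fun q => rp q * rp q0 with hb
  have hb0 : ∀ q, b q ≠ 0 := fun q => mul_ne_zero (bb_rp_ne q) (bb_rp_ne q0)
  have hbev : ∀ q ∈ BB (K := K) m S, ∀ q' ∈ BB (K := K) m S,
      ∀ P : HeightOneSpectrum (𝓞 K), ¬ 1 ≤ ord P (m : K) → Even (ord P (b q * b q')) := by
    intro q hq q' hq' P hP
    rw [Pool.Agent.H98.MF.B.ord_mul P (hb0 q) (hb0 q')]
    exact (hev q hq P hP).add (hev q' hq' P hP)
  set x : SqC K → ℚ := fun q => nmK (b q) with hx
  have hx0 : ∀ q, x q ≠ 0 := fun q => nm_ne (hb0 q)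
  have hxev : ∀ q ∈ BB (K := K) m S, ∀ p : ℕ, p.Prime → ¬ p ∣ m → Even (padicValRat p (x q)) :=
    fun q hq => (hE K F m hm hd (b q) (hb0 q) (hev q hq)).1
  -- two elements with the same first invariant
  have key : ∀ q ∈ BB (K := K) m S, ∀ q' ∈ BB (K := K) m S, bb_sc m (x q) = bb_sc m (x q') →
      ∃ t : ℚ, t ≠ 0 ∧ (∀ p : ℕ, p.Prime → ¬ p ∣ m → Even (padicValRat p t)) ∧
        ∃ h : K, h ≠ 0 ∧ b q * b q' = (t : K) * h ^ 2 := by
    intro q hq q' hq' hs
    have h1 : IsSquare (x q * x q') := bb_sq hQ hm (hx0 q) (hx0 q') (hxev q hq) (hxev q' hq') hs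
    have h2 : IsSquare (nmK (b q * b q')) := by
      rw [nm_mul]
      exact h1
    obtain ⟨t, h, ht, hh, hth⟩ := hH K F (b q * b q') (mul_ne_zero (hb0 q) (hb0 q')) h2
    exact ⟨t, ht, (hE K F m hm hd (b q * b q') (mul_ne_zero (hb0 q) (hb0 q'))
      (hbev q hq q' hq')).2 t h ht hh hth, h, hh, hth⟩
  -- representatives
  have hrep : ∃ r : Bool × Finset ℕ → SqC K, ∀ q ∈ BB (K := K) m S,
      r (bb_sc m (x q)) ∈ BB (K := K) m S ∧ bb_sc m (x (r (bb_sc m (x q)))) = bb_sc m (x q) := by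
    refine ⟨fun v => if h : ∃ q, q ∈ BB (K := K) m S ∧ bb_sc m (x q) = v then h.choose else q0, ?_⟩
    intro q hq
    have h : ∃ q', q' ∈ BB (K := K) m S ∧ bb_sc m (x q') = bb_sc m (x q) := ⟨q, hq, rfl⟩
    simp only [dif_pos h]
    exact h.choose_spec
  obtain ⟨r, hr⟩ := hrep
  have ht : ∃ t : SqC K → ℚ, ∀ q ∈ BB (K := K) m S, t q ≠ 0 ∧
      (∀ p : ℕ, p.Prime → ¬ p ∣ m → Even (padicValRat p (t q))) ∧
        ∃ h : K, h ≠ 0 ∧ b q * b (r (bb_sc m (x q))) = (t q : K) * h ^ 2 := by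
    have : ∀ q : SqC K, ∃ t : ℚ, q ∈ BB (K := K) m S → (t ≠ 0 ∧
      (∀ p : ℕ, p.Prime → ¬ p ∣ m → Even (padicValRat p t)) ∧
        ∃ h : K, h ≠ 0 ∧ b q * b (r (bb_sc m (x q))) = (t : K) * h ^ 2) := by
      intro q
      by_cases hq : q ∈ BB (K := K) m S
      · obtain ⟨t, ht⟩ := key q hq _ (hr q hq).1 (hr q hq).2.symm
        exact ⟨t, fun _ => ht⟩
      · exact ⟨0, fun h => absurd h hq⟩
    choose t ht using this
    exact ⟨t, ht⟩
  obtain ⟨t, ht⟩ := ht
  set V : Finset (Bool × Finset ℕ) := (Finset.univ : Finset Bool) ×ˢ m.primeFactors.powerset with hV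
  set f : SqC K → (Bool × Finset ℕ) × (Bool × Finset ℕ) :=
    fun q => (bb_sc m (x q), bb_sc m (t q)) with hf
  have hmaps : Set.MapsTo f (BB (K := K) m S) ((V ×ˢ V : Finset _) : Set _) := by
    intro q _
    rw [Finset.mem_coe, Finset.mem_product]
    exact ⟨bb_sc_mem m _, bb_sc_mem m _⟩
  have hinj : Set.InjOn f (BB (K := K) m S) := by
    intro q hq q' hq' he
    have e1 : bb_sc m (x q) = bb_sc m (x q') := congrArg Prod.fst he
    have e2 : bb_sc m (t q) = bb_sc m (t q') := congrArg Prod.snd he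
    obtain ⟨t0, tev, h, hh, hth⟩ := ht q hq
    obtain ⟨t0', tev', h', hh', hth'⟩ := ht q' hq'
    rw [← e1] at hth'
    obtain ⟨s, hs⟩ := bb_sq hQ hm t0 t0' tev tev' e2
    have hsK : ((t q : ℚ) : K) * ((t q' : ℚ) : K) = (s : K) ^ 2 := by
      rw [sq]
      exact_mod_cast hs
    set c : K := b (r (bb_sc m (x q))) with hc
    have hc0 : c ≠ 0 := hb0 _
    have h3 : (b q * b q') * c ^ 2 = ((s : K) * h * h') ^ 2 := by
      calc (b q * b q') * c ^ 2 = (b q * c) * (b q' * c) := by ring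
        _ = (((t q : ℚ) : K) * h ^ 2) * (((t q' : ℚ) : K) * h' ^ 2) := by rw [hth, hth']
        _ = (((t q : ℚ) : K) * ((t q' : ℚ) : K)) * (h * h') ^ 2 := by ring
        _ = ((s : K) * h * h') ^ 2 := by rw [hsK]; ring
    have hq00 : rp q0 ≠ 0 := bb_rp_ne q0
    refine bb_eq (z := (s : K) * h * h' / (c * rp q0)) ?_
    rw [div_pow, ← h3]
    simp only [hb]
    field_simp
  have hfin : (BB (K := K) m S).Finite :=
    Set.Finite.of_injOn hmaps hinj (Finset.finite_toSet _)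
  refine ⟨hfin, ?_⟩
  have h1 := Set.ncard_le_ncard_of_injOn f hmaps hinj (Finset.finite_toSet _)
  refine h1.trans (le_of_eq ?_)
  rw [Set.ncard_coe_finset, Finset.card_product, hV, Finset.card_product, Finset.card_powerset,
    Finset.card_univ, Fintype.card_bool, pow_succ]
  have : (4 : ℕ) ^ m.primeFactors.card = 2 ^ m.primeFactors.card * 2 ^ m.primeFactors.card := by
    rw [← mul_pow]
    norm_num
  rw [this]
  ring

end Pool.Agent.H32.MA
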