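import Mathlib

/-!
# Project MA9, block L: pairs `(e, r)`, the kernel `KK`, statements
-/

set_option autoImplicit false

open scoped BigOperators

namespace Pool.Agent.H32.MA

/-- pairs `(e, r)` with `e` odd squarefree prime to `d` and `r` a root of `d` modulo `e` -/
structure Pr (d : ℕ) (i : ℕ × ℕ) : Prop where
  odd : Odd i.1
  sqf : Squarefree i.1
  cop : Nat.Coprime i.1 d
  lt : i.2 < i.1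
  root : (i.1 : ℤ) ∣ (i.2 : ℤ) ^ 2 - d

/-- the kernel -/
def KK (i : ℕ × ℕ) (x : ℤ × ℤ) : ℤ :=
  jacobiSym (x.1 - x.2 * i.2) i.1 * jacobiSym (x.1 + x.2 * i.2) i.1 ^ 2

/-- multiplication in the ring generated by a square root of `d` -/
def mD (d : ℕ) (x y : ℤ × ℤ) : ℤ × ℤ :=
  (x.1 * y.1 + d * (x.2 * y.2), x.1 * y.2 + x.2 * y.1)

/-- the norm -/
def nD (d : ℕ) (x : ℤ × ℤ) : ℤ := x.1 ^ 2 - d * x.2 ^ 2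

/-- the box `|u|, |v| ≤ R` -/
noncomputable def bx (R : ℕ) : Finset (ℤ × ℤ) := Finset.Icc (-(R : ℤ)) R ×ˢ Finset.Icc (-(R : ℤ)) R

/-- L2: complete sums over a period vanish -/
def CompSt : Prop := ∀ (d : ℕ) (i j : ℕ × ℕ), Pr d i → Pr d j → i ≠ j → ∀ u₀ v₀ : ℤ,
  ∑ u ∈ Finset.Ico u₀ (u₀ + i.1 * j.1), ∑ v ∈ Finset.Ico v₀ (v₀ + i.1 * j.1),
    KK i (u, v) * KK j (u, v) = 0

/-- L3: the large sieve, direct form -/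
def LSSt : Prop := ∀ (d R E : ℕ) (I : Finset (ℕ × ℕ)), (∀ i ∈ I, Pr d i ∧ i.1 ≤ E) →
  ∀ a : ℕ × ℕ → ℝ, ∑ x ∈ bx R, (∑ i ∈ I, a i * KK i x) ^ 2 ≤
    ((2 * R + 1 : ℝ) ^ 2 + 2 * (2 * R + 1) * (E : ℝ) ^ 2 * I.card) * ∑ i ∈ I, a i ^ 2

/-- L3': the large sieve, dual form -/
def LDSt : Prop := ∀ (d R E : ℕ) (I : Finset (ℕ × ℕ)), (∀ i ∈ I, Pr d i ∧ i.1 ≤ E) →
  ∀ c : ℤ × ℤ → ℝ, ∑ i ∈ I, (∑ x ∈ bx R, c x * KK i x) ^ 2 ≤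
    ((2 * R + 1 : ℝ) ^ 2 + 2 * (2 * R + 1) * (E : ℝ) ^ 2 * I.card) * ∑ x ∈ bx R, c x ^ 2

/-- L4: the number of pairs (6.2) -/
def CntSt : Prop := ∃ C : ℝ, 0 < C ∧ ∀ d : ℕ, ¬ IsSquare d → ∀ (I : Finset (ℕ × ℕ)) (y : ℝ),
  1 ≤ y → (∀ i ∈ I, Pr d i ∧ (i.1 : ℝ) ≤ y) → (I.card : ℝ) ≤ C * (1 + Real.log d) * y

/-- L5: the bilinear bound (6.6) -/
def BilSt : Prop := ∃ C κ : ℝ, 0 < C ∧ 0 < κ ∧ ∀ d : ℕ, ¬ IsSquare d → ∀ (E N : ℝ), 1 ≤ E →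
  E ≤ N → ∀ I : Finset (ℕ × ℕ), (∀ i ∈ I, Pr d i ∧ (i.1 : ℝ) ≤ E) →
  ∀ J : Finset (ℤ × ℤ), (∀ x ∈ J, (x.1 : ℝ) ^ 2 ≤ N ∧ (x.2 : ℝ) ^ 2 ≤ N) → (0, 0) ∉ J →
  (∀ n : ℕ, 1 ≤ n → (J.filter fun x => (nD d x).natAbs = n).card ≤ n.divisors.card) →
  ∀ (a : ℕ × ℕ → ℝ) (b : ℤ × ℤ → ℝ), (∀ i, |a i| ≤ 1) → (∀ x, |b x| ≤ 1) →
  |∑ i ∈ I, ∑ x ∈ J, a i * b x * KK i x| ≤ C * (d : ℝ) ^ κ * N * E ^ ((12 : ℝ) / 13)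

end Pool.Agent.H32.MA
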