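import Pool.Agent.H32.MA.TStm
import Pool.Agent.H32.MA.LDefs
import Pool.Agent.H32.MA.RStm

/-!
# Project MA9 (MP_a9b340), block F: definitions

Good sets of primes as pairs `(e, r)`, Thue elements, labels.
-/

set_option autoImplicit false

open scoped BigOperators
open NumberField IsDedekindDomain

namespace Pool.Agent.H32.MA

open Pool.Agent.H98.MF (ord)

section

variable {K : Type} [Field K] [NumberField K] (F : QF K)

/-- the element `u + v δ` -/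
noncomputable def el (x : ℤ × ℤ) : K := (x.1 : K) + (x.2 : K) * F.dl

/-- `r` is congruent to `δ` at all primes of `S` -/
def Rt (S : Finset (HeightOneSpectrum (𝓞 K))) (r : ℕ) : Prop :=
  ∀ P ∈ S, 1 ≤ ord P (F.dl - (r : K))

open Classical in
/-- the residue of `δ` modulo the norm of `S` -/
noncomputable def rtS (S : Finset (HeightOneSpectrum (𝓞 K))) : ℕ :=
  if h : ∃ r : ℕ, r < nS S ∧ Rt F S r then h.choose else 0

/-- the pair of a good set -/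
noncomputable def prS (S : Finset (HeightOneSpectrum (𝓞 K))) : ℕ × ℕ := (nS S, rtS F S)

/-- `x` is a small nonzero element of the ideal of `S` -/
structure ThP (S : Finset (HeightOneSpectrum (𝓞 K))) (x : ℤ × ℤ) : Prop where
  ne : x ≠ (0, 0)
  le1 : x.1 ^ 2 ≤ (nS S : ℤ)
  le2 : x.2 ^ 2 ≤ (nS S : ℤ)
  mem : ∀ P ∈ S, 1 ≤ ord P (el F x)

open Classical in
/-- the Thue element -/
noncomputable def th (S : Finset (HeightOneSpectrum (𝓞 K))) : ℤ × ℤ :=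
  if h : ∃ x, ThP F S x then h.choose else (1, 0)

/-- the norm of the cofactor -/
noncomputable def ng (S : Finset (HeightOneSpectrum (𝓞 K))) : ℕ :=
  (nD F.d (th F S)).natAbs / nS S

open Classical in
/-- the signs of `u + v √d`, `u - v √d` -/
noncomputable def sgn2 (d : ℕ) (x : ℤ × ℤ) : Bool × Bool :=
  (decide (0 < (x.1 : ℝ) + x.2 * Real.sqrt d), decide (0 < (x.1 : ℝ) - x.2 * Real.sqrt d))

/-- labels: norm of the cofactor, residues of the Thue element, signs, pair of the part of `S`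
dividing the cofactor -/
abbrev Lb : Type := ℕ × (ℤ × ℤ) × (Bool × Bool) × (ℕ × ℕ)

/-- the primes of `S` with norm dividing `n` -/
noncomputable def dvp (n : ℕ) (S : Finset (HeightOneSpectrum (𝓞 K))) :
    Finset (HeightOneSpectrum (𝓞 K)) := S.filter fun P => nP P ∣ n

/-- the primes of `S` with norm not dividing `n` -/
noncomputable def ndp (n : ℕ) (S : Finset (HeightOneSpectrum (𝓞 K))) :
    Finset (HeightOneSpectrum (𝓞 K)) := S.filter fun P => ¬ nP P ∣ n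

/-- the label of a good set -/
noncomputable def lab (m : ℕ) (S : Finset (HeightOneSpectrum (𝓞 K))) : Lb :=
  (ng F S, ((th F S).1 % ((m * ng F S ^ 3 : ℕ) : ℤ), (th F S).2 % ((m * ng F S ^ 3 : ℕ) : ℤ)),
    sgn2 F.d (th F S), prS F (dvp (ng F S) S))

open Classical in
omit [NumberField K] in
/-- the indicator of `S` modulo two -/
noncomputable def i2 (S : Finset (HeightOneSpectrum (𝓞 K))) (P : HeightOneSpectrum (𝓞 K)) :
    ZMod 2 := if P ∈ S then 1 else 0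

/-! ### statements of the rows -/

/-- F1: conjugate primes -/
def StCjP : Prop := ∀ P : HeightOneSpectrum (𝓞 K), ∃ P' : HeightOneSpectrum (𝓞 K),
  nP P' = nP P ∧ (∀ a : K, ord P' a = ord P (F.cj a)) ∧
    ((nP P).Prime → ¬ nP P ∣ 2 * F.d → P' ≠ P ∧
      ∀ Q : HeightOneSpectrum (𝓞 K), 1 ≤ ord Q ((nP P : ℕ) : K) → Q = P ∨ Q = P')

/-- F2: the pair of a good set -/
def StPrS : Prop := ∀ m : ℕ, m ≠ 0 → 8 * F.d ∣ m → ∀ S : Finset (HeightOneSpectrum (𝓞 K)),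
  Good m S → Pr F.d (prS F S) ∧ Rt F S (rtS F S)

/-- F3: a good set is determined by its pair -/
def StInj : Prop := ∀ m : ℕ, m ≠ 0 → 8 * F.d ∣ m →
  Set.InjOn (prS F) {S : Finset (HeightOneSpectrum (𝓞 K)) | Good m S}

/-- F3: finiteness -/
def StGLF : Prop := ∀ m : ℕ, m ≠ 0 → 8 * F.d ∣ m → ∀ x : ℝ, (GoodLe K m x).Finite

/-- F4: Thue elements -/
def StThue : Prop := ∀ m : ℕ, m ≠ 0 → 8 * F.d ∣ m → ∀ S : Finset (HeightOneSpectrum (𝓞 K)),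
  Good m S → ∃ x : ℤ × ℤ, ThP F S x

/-- F5: the cofactor -/
def StNg : Prop := ∀ m : ℕ, m ≠ 0 → 8 * F.d ∣ m → ∀ S : Finset (HeightOneSpectrum (𝓞 K)),
  Good m S → ∀ x : ℤ × ℤ, ThP F S x →
    ∃ n : ℕ, (nD F.d x).natAbs = nS S * n ∧ 1 ≤ n ∧ n ≤ F.d

/-- F5: exponents of a Thue element -/
def StOrdT : Prop := ∀ m : ℕ, m ≠ 0 → 8 * F.d ∣ m → ∀ S : Finset (HeightOneSpectrum (𝓞 K)),
  Good m S → ∀ (x : ℤ × ℤ) (n : ℕ), ThP F S x → (nD F.d x).natAbs = nS S * n → 1 ≤ n →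
    (∀ P : HeightOneSpectrum (𝓞 K), ¬ 1 ≤ ord P (m : K) → ¬ 1 ≤ ord P (n : K) →
      (P ∈ S → ord P (el F x) = 1) ∧ (P ∉ S → ord P (el F x) = 0)) ∧
    (∀ P : HeightOneSpectrum (𝓞 K), 1 ≤ ord P (m : K) → ord P (el F x) ≤ ord P (n : K)) ∧
    (∀ P : HeightOneSpectrum (𝓞 K), ord P (el F x) ≤ ord P (n : K) + 1)

/-- F6: the quotient of the Thue elements of two good sets with the same label -/
def StLam : Prop := ∀ m : ℕ, m ≠ 0 → 8 * F.d ∣ m →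
  ∀ S S₀ : Finset (HeightOneSpectrum (𝓞 K)), Good m S → Good m S₀ → lab F m S = lab F m S₀ →
    dvp (ng F S) S = dvp (ng F S) S₀ ∧
    Cong m (el F (th F S) / el F (th F S₀)) ∧ TotPos (el F (th F S) / el F (th F S₀)) ∧
    (∀ P : HeightOneSpectrum (𝓞 K), ¬ 1 ≤ ord P (m : K) →
      ((ord P (el F (th F S) / el F (th F S₀)) : ℤ) : ZMod 2) = i2 S P + i2 S₀ P) ∧
    (∀ P : HeightOneSpectrum (𝓞 K), 1 ≤ ord P ((ng F S : ℕ) : K) →
      el F (th F S) / el F (th F S₀) = 1 ∨ 1 ≤ ord P (el F (th F S) / el F (th F S₀) - 1))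

/-- F7: the sum `GG` after multiplication by an element close to one -/
def StShift : Prop := ∀ m : ℕ, m ≠ 0 → 8 * F.d ∣ m → ∀ Ψ : K → ℝ, MLoc m Ψ →
  ∀ e f f₀ : Finset (HeightOneSpectrum (𝓞 K)), Cmp m e f → Cmp m e f₀ →
    ∀ l : K, l ≠ 0 → Cong m l → TotPos l →
      (∀ P : HeightOneSpectrum (𝓞 K), ¬ 1 ≤ ord P (m : K) →
        ((ord P l : ℤ) : ZMod 2) = i2 f P + i2 f₀ P) →
      GG F m Ψ e f = (chS e (F.cj l) : ℝ) * GG F m Ψ e f₀

/-- F8: the kernel and the characters -/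
def StKK : Prop := ∀ m : ℕ, m ≠ 0 → 8 * F.d ∣ m → ∀ S : Finset (HeightOneSpectrum (𝓞 K)),
  Good m S → ∀ x : ℤ × ℤ, x ≠ (0, 0) →
    (KK (prS F S) x ≠ 0 ↔ ∀ P ∈ S, ord P (el F x) = 0 ∧ ord P (F.cj (el F x)) = 0) ∧
    (KK (prS F S) x ≠ 0 → chS S (F.cj (el F x)) = KK (prS F S) x)

/-- F8: the kernel detects common primes -/
def StDis : Prop := ∀ m : ℕ, m ≠ 0 → 8 * F.d ∣ m →
  ∀ e f : Finset (HeightOneSpectrum (𝓞 K)), Good m e → Good m f →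
    (KK (prS F (ndp (ng F f) e)) (th F f) ≠ 0 ↔ ∀ P ∈ ndp (ng F f) e, ∀ P' ∈ f, nP P ≠ nP P')

open Classical in
/-- F9: factorisation over a label -/
def StFac : Prop := ∀ m : ℕ, m ≠ 0 → 8 * F.d ∣ m → ∀ (Ψ : K → ℝ) (A : ℝ),
  (∀ b, 0 ≤ Ψ b ∧ Ψ b ≤ A) → MLoc m Ψ → ∀ L : Lb,
    ∃ a : Finset (HeightOneSpectrum (𝓞 K)) → ℝ,
      (∀ e, |a e| ≤ A * 4 ^ (m.primeFactors.card + 1)) ∧
      ∀ e f : Finset (HeightOneSpectrum (𝓞 K)), Good m e → Good m f → lab F m f = L →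
        (if Cmp m e f then GG F m Ψ e f else 0) = a e * (KK (prS F (ndp L.1 e)) (th F f) : ℝ)

/-- F9: good sets with the same label and the same Thue element are equal -/
def StLTh : Prop := ∀ m : ℕ, m ≠ 0 → 8 * F.d ∣ m →
  ∀ S S₀ : Finset (HeightOneSpectrum (𝓞 K)), Good m S → Good m S₀ → lab F m S = lab F m S₀ →
    th F S = th F S₀ → S = S₀

/-- F12: square classes of rational numbers with even exponents outside `m` -/
def StQsq : Prop := ∀ (m : ℕ) (x y : ℚ), m ≠ 0 → x ≠ 0 → y ≠ 0 →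
  (∀ p : ℕ, p.Prime → ¬ p ∣ m → Even (padicValRat p x) ∧ Even (padicValRat p y)) →
  (0 < x ↔ 0 < y) →
  (∀ p ∈ m.primeFactors, (Odd (padicValRat p x) ↔ Odd (padicValRat p y))) → IsSquare (x * y)

/-- F12: Hilbert 90 -/
def StH90 : Prop := ∀ b : K, b ≠ 0 → IsSquare (nmK b) → ∃ (t : ℚ) (h : K), t ≠ 0 ∧ h ≠ 0 ∧
  b = (t : K) * h ^ 2

/-- F12: exponents of norms and of rational numbers -/
def StNmE : Prop := ∀ m : ℕ, m ≠ 0 → 8 * F.d ∣ m → ∀ b : K, b ≠ 0 →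
  (∀ P : HeightOneSpectrum (𝓞 K), ¬ 1 ≤ ord P (m : K) → Even (ord P b)) →
    (∀ p : ℕ, p.Prime → ¬ p ∣ m → Even (padicValRat p (nmK b))) ∧
    ∀ (t : ℚ) (h : K), t ≠ 0 → h ≠ 0 → b = (t : K) * h ^ 2 →
      ∀ p : ℕ, p.Prime → ¬ p ∣ m → Even (padicValRat p t)

end

open Classical in
/-- F10: one label -/
def StLab : Prop :=
  ∃ C κ : ℝ, 0 ≤ C ∧ 0 ≤ κ ∧ ∀ (K : Type) [Field K] [NumberField K] (F : QF K) (m : ℕ), m ≠ 0 →
    8 * F.d ∣ m → ∀ (Ψ : K → ℝ) (A : ℝ), (∀ b, 0 ≤ Ψ b ∧ Ψ b ≤ A) → MLoc m Ψ →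
    ∀ E N : ℝ, 1 ≤ E → E ≤ N → ∀ α β : Finset (HeightOneSpectrum (𝓞 K)) → ℝ,
      (∀ e, |α e| ≤ 1) → (∀ f, |β f| ≤ 1) → ∀ L : Lb,
      |∑ᶠ e ∈ GoodLe K m E, ∑ᶠ f ∈ GoodLe K m N,
        if Cmp m e f ∧ lab F m f = L then α e * β f * GG F m Ψ e f else 0| ≤
          C * A * (m : ℝ) ^ κ * N * E ^ (12 / 13 : ℝ)

/-- F11: few labels -/
def StLbN : Prop :=
  ∃ C : ℝ, 0 ≤ C ∧ ∀ (K : Type) [Field K] [NumberField K] (F : QF K) (m : ℕ), m ≠ 0 →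
    8 * F.d ∣ m → ∃ T : Finset Lb, (T.card : ℝ) ≤ C * (m : ℝ) ^ (20 : ℕ) ∧
      ∀ S : Finset (HeightOneSpectrum (𝓞 K)), Good m S → lab F m S ∈ T

end Pool.Agent.H32.MA
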