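import Pool.Agent.H32.MA.TStm
import Pool.Agent.LX.DivBound

/-!
# Project MA9 (MP_a9b340), row T3: powers of m beat divisor-type factors
-/

set_option autoImplicit false

open scoped BigOperators
open NumberField IsDedekindDomain

namespace Pool.Agent.H32.MA

private theorem t3_omega (e : ℝ) (he : 0 < e) : ∃ C : ℝ, 0 ≤ C ∧ ∀ m : ℕ, m ≠ 0 →
    (64 : ℝ) ^ m.primeFactors.card ≤ C * (m : ℝ) ^ e := by
  classical
  set M : ℕ := ⌈(64 : ℝ) ^ (1 / e)⌉₊ with hM
  refine ⟨64 ^ M, by positivity, fun m hm => ?_⟩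
  have h1 : (64 : ℝ) ^ m.primeFactors.card = ∏ _p ∈ m.primeFactors, (64 : ℝ) := by
    rw [Finset.prod_const]
  have h2 : ∀ p ∈ m.primeFactors, (64 : ℝ) ≤ (if p < M then 64 else 1) * (p : ℝ) ^ e := by
    intro p hp
    have hp1 : (1 : ℝ) ≤ p := by exact_mod_cast (Nat.prime_of_mem_primeFactors hp).one_le
    have hpe : 1 ≤ (p : ℝ) ^ e := Real.one_le_rpow hp1 he.le
    split_ifs with h
    · linarith
    · push Not at h
      have h3 : (64 : ℝ) ^ (1 / e) ≤ p := (Nat.le_ceil _).trans (by exact_mod_cast h)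
      have h4 : ((64 : ℝ) ^ (1 / e)) ^ e ≤ (p : ℝ) ^ e :=
        Real.rpow_le_rpow (by positivity) h3 he.le
      rw [← Real.rpow_mul (by norm_num), one_div_mul_cancel he.ne', Real.rpow_one] at h4
      linarith
  have h3 : ∏ p ∈ m.primeFactors, (if p < M then (64 : ℝ) else 1) ≤ 64 ^ M := by
    rw [← Finset.prod_filter, Finset.prod_const]
    apply pow_le_pow_right₀ (by norm_num)
    calc (m.primeFactors.filter (fun p => p < M)).card ≤ (Finset.range M).card := by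
          apply Finset.card_le_card
          intro p hp
          rw [Finset.mem_filter] at hp
          exact Finset.mem_range.2 hp.2
      _ = M := Finset.card_range M
  have h4 : ∏ p ∈ m.primeFactors, (p : ℝ) ^ e ≤ (m : ℝ) ^ e := by
    rw [Real.finsetProd_rpow _ _ (fun i _ => by positivity)]
    apply Real.rpow_le_rpow (by positivity) _ he.le
    have h5 := Nat.le_of_dvd (Nat.pos_of_ne_zero hm) (Nat.prod_primeFactors_dvd m)
    have h6 : ((∏ p ∈ m.primeFactors, p : ℕ) : ℝ) ≤ (m : ℝ) := Nat.cast_le.2 h5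
    rw [Nat.cast_prod] at h6
    exact h6
  rw [h1]
  calc ∏ _p ∈ m.primeFactors, (64 : ℝ)
      ≤ ∏ p ∈ m.primeFactors, ((if p < M then (64 : ℝ) else 1) * (p : ℝ) ^ e) :=
        Finset.prod_le_prod (fun _ _ => by norm_num) h2
    _ = (∏ p ∈ m.primeFactors, (if p < M then (64 : ℝ) else 1)) *
          ∏ p ∈ m.primeFactors, (p : ℝ) ^ e := Finset.prod_mul_distrib
    _ ≤ 64 ^ M * (m : ℝ) ^ e :=
        mul_le_mul h3 h4 (Finset.prod_nonneg fun p _ => by positivity) (by positivity)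

/-- `4 ^ omega(m) (1 + log m) ^ 2` is at most a small power of `m` -/
theorem small_pow (e : ℝ) (he : 0 < e) : ∃ C : ℝ, 0 ≤ C ∧ ∀ m : ℕ, m ≠ 0 →
    (64 : ℝ) ^ (m.primeFactors.card + 1) * (1 + Real.log m) ^ 3 ≤ C * (m : ℝ) ^ e := by
  obtain ⟨C, hC, h⟩ := t3_omega (e / 4) (by positivity)
  refine ⟨C * 64 * (1 + 1 / (e / 4)) ^ 3, by positivity, fun m hm => ?_⟩
  have hm1 : (1 : ℝ) ≤ m := by exact_mod_cast Nat.one_le_iff_ne_zero.2 hm
  have hm0 : (0 : ℝ) < m := by linarith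
  have hlog : 0 ≤ Real.log m := Real.log_nonneg hm1
  set x : ℝ := (m : ℝ) ^ (e / 4) with hx
  have hx1 : 1 ≤ x := Real.one_le_rpow hm1 (by positivity)
  have h1 : 1 + Real.log m ≤ (1 + 1 / (e / 4)) * x := by
    have h2 := Real.log_le_rpow_div hm0.le (ε := e / 4) (by positivity)
    have h3 : (m : ℝ) ^ (e / 4) / (e / 4) = 1 / (e / 4) * x := by
      rw [hx]
      ring
    rw [h3] at h2
    linarith
  have h2 : (1 + Real.log m) ^ 3 ≤ ((1 + 1 / (e / 4)) * x) ^ 3 :=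
    pow_le_pow_left₀ (by linarith) h1 3
  have h3 := h m hm
  have hxe : x ^ 4 = (m : ℝ) ^ e := by
    rw [hx, ← Real.rpow_natCast, ← Real.rpow_mul hm0.le]
    congr 1
    push_cast
    ring
  calc (64 : ℝ) ^ (m.primeFactors.card + 1) * (1 + Real.log m) ^ 3
      ≤ (C * x * 64) * ((1 + 1 / (e / 4)) * x) ^ 3 := by
        apply mul_le_mul _ h2 (by positivity) (by positivity)
        rw [pow_succ]
        exact mul_le_mul_of_nonneg_right h3 (by norm_num)
    _ = C * 64 * (1 + 1 / (e / 4)) ^ 3 * x ^ 4 := by ring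
    _ = C * 64 * (1 + 1 / (e / 4)) ^ 3 * (m : ℝ) ^ e := by rw [hxe]

/-- the divisor bound -/
theorem tau_pow (e : ℝ) (he : 0 < e) : ∃ C : ℝ, 0 ≤ C ∧ ∀ m : ℕ, m ≠ 0 →
    (m.divisors.card : ℝ) ≤ C * (m : ℝ) ^ e := by
  obtain ⟨C, hC, h⟩ := Pool.Agent.LX.divisor_bound e he
  exact ⟨C, hC.le, fun m hm => h m (Nat.one_le_iff_ne_zero.2 hm)⟩

end Pool.Agent.H32.MA
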