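import Pool.Agent.H32.MA.OStm
import Pool.Agent.H32.MA.T3

/-!
# Project MA9 (MP_a9b340), row O2: bounds and limits for every outer parameter
-/

set_option autoImplicit false

open scoped BigOperators
open NumberField IsDedekindDomain

namespace Pool.Agent.H32.MA

private theorem o2_pcl_pos (C : SD → Prop) (ρ : Pool.Agent.H98.MK.Gam →* SD) : 0 < pcl C ρ := by
  classical
  unfold pcl
  refine finprod_induction (fun n : ℕ => 0 < n) one_pos (fun _ _ h h' => Nat.mul_pos h h') ?_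
  intro p
  exact p.2.1.pos

private theorem o2_m {o : Out} (ho : WfO o) : o.m ≠ 0 := by
  have h1 : o.d ≠ 0 := ho.sqd.ne_zero
  have h2 : 2 * o.t ≠ 0 := ho.sqt.ne_zero
  have h3 : 2 * o.w ≠ 0 := ho.sqw.ne_zero
  have h4 : o.t ≠ 0 := fun h => h2 (by rw [h])
  have h5 : o.w ≠ 0 := fun h => h3 (by rw [h])
  unfold Out.m
  exact mul_ne_zero (mul_ne_zero (mul_ne_zero (by norm_num) h1) h4) h5

private theorem o2_dvd (o : Out) : 8 * o.d ∣ o.m := ⟨o.t * o.w, by unfold Out.m; ring⟩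

private theorem o2_zero (o : Out) (x : ℝ) (hx : x < 1) : AO o 0 x = 0 := by
  unfold AO
  have : {ρ : Pool.Agent.H98.MK.Gam →* SD | ρ ∈ Hs ∧ HasO o ρ ∧ 0 < pcl SD.clC ρ ∧
      (pcl SD.clC ρ : ℝ) ≤ x} = ∅ := by
    ext ρ
    simp only [Set.mem_setOf_eq, Set.mem_empty_iff_false, iff_false]
    rintro ⟨_, _, h, h'⟩
    have : (1 : ℝ) ≤ (pcl SD.clC ρ : ℝ) := by exact_mod_cast h
    linarith
  rw [this, Set.ncard_empty]

private theorem o2_split (h3 : StmFin) {o : Out} (ho : WfO o) {x : ℝ} (hx : 1 ≤ x) :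
    AO o 0 x = AO o 0 1 + AO o 1 x := by
  have e : {ρ : Pool.Agent.H98.MK.Gam →* SD | ρ ∈ Hs ∧ HasO o ρ ∧ 0 < pcl SD.clC ρ ∧
      (pcl SD.clC ρ : ℝ) ≤ x} =
      {ρ : Pool.Agent.H98.MK.Gam →* SD | ρ ∈ Hs ∧ HasO o ρ ∧ 0 < pcl SD.clC ρ ∧
        (pcl SD.clC ρ : ℝ) ≤ 1} ∪
      {ρ : Pool.Agent.H98.MK.Gam →* SD | ρ ∈ Hs ∧ HasO o ρ ∧ 1 < pcl SD.clC ρ ∧
        (pcl SD.clC ρ : ℝ) ≤ x} := by
    ext ρ
    simp only [Set.mem_setOf_eq, Set.mem_union]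
    constructor
    · rintro ⟨a, b, c, d⟩
      rcases Nat.lt_or_ge 1 (pcl SD.clC ρ) with h | h
      · exact Or.inr ⟨a, b, h, d⟩
      · exact Or.inl ⟨a, b, c, by exact_mod_cast h⟩
    · rintro (⟨a, b, c, d⟩ | ⟨a, b, c, d⟩)
      · exact ⟨a, b, c, d.trans hx⟩
      · exact ⟨a, b, by omega, d⟩
  unfold AO
  rw [e]
  refine Set.ncard_union_eq ?_ (h3 o 0 1 ho) (h3 o 1 x ho)
  rw [Set.disjoint_left]
  rintro ρ ⟨_, _, _, h⟩ ⟨_, _, h', _⟩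
  have : pcl SD.clC ρ ≤ 1 := by exact_mod_cast h
  omega

theorem AO_le (hU : StmU) (hA : StmAlg) (h1 : StmOne) (h3 : StmFin) (e : ℝ) (he : 0 < e) :
    ∃ C : ℝ, 0 ≤ C ∧ ∀ o : Out, WfO o → ∀ x : ℝ, 0 ≤ x →
      (AO o 0 x : ℝ) ≤ C * (o.m : ℝ) ^ e * x := by
  obtain ⟨C1, hC1, hs1⟩ := small_pow e he
  obtain ⟨C2, hC2, hs2⟩ := small_pow (e / 2) (by linarith)
  obtain ⟨C3, hC3, hU3⟩ := hU (e / 2) (by linarith)
  refine ⟨64 * C1 + C3 * (64 * C2), by positivity, fun o ho x hx => ?_⟩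
  have hm := o2_m ho
  have hm1 : (1 : ℝ) ≤ (o.m : ℝ) := by exact_mod_cast Nat.one_le_iff_ne_zero.mpr hm
  have hme : (0 : ℝ) ≤ (o.m : ℝ) ^ e := Real.rpow_nonneg (by linarith) _
  rcases lt_or_ge x 1 with hx1 | hx1
  · rw [o2_zero o x hx1]
    have : 0 ≤ (64 * C1 + C3 * (64 * C2)) * (o.m : ℝ) ^ e * x := by positivity
    simpa using this
  rw [o2_split h3 ho hx1]
  set k := o.m.primeFactors.card with hk
  have hlog : (1 : ℝ) ≤ (1 + Real.log o.m) ^ 3 := by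
    have := Real.log_nonneg hm1
    exact one_le_pow₀ (by linarith)
  have hp : (0 : ℝ) ≤ (64 : ℝ) ^ (k + 1) := by positivity
  have b1 : (64 : ℝ) ^ (k + 1) ≤ C1 * (o.m : ℝ) ^ e := by
    refine le_trans ?_ (hs1 o.m hm)
    exact le_mul_of_one_le_right hp hlog
  have b2 : (64 : ℝ) ^ (k + 1) ≤ C2 * (o.m : ℝ) ^ (e / 2) := by
    refine le_trans ?_ (hs2 o.m hm)
    exact le_mul_of_one_le_right hp hlog
  have c1 : (AO o 0 1 : ℝ) ≤ 64 * C1 * (o.m : ℝ) ^ e * x := by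
    have h := h1 o ho
    have h' : (AO o 0 1 : ℝ) ≤ 64 * 8 ^ (k + 1) := by exact_mod_cast h
    have h8 : (8 : ℝ) ^ (k + 1) ≤ 64 ^ (k + 1) :=
      pow_le_pow_left₀ (by norm_num) (by norm_num) _
    calc (AO o 0 1 : ℝ) ≤ 64 * (C1 * (o.m : ℝ) ^ e) := by linarith
      _ ≤ 64 * (C1 * (o.m : ℝ) ^ e) * x := le_mul_of_one_le_right (by positivity) hx1
      _ = _ := by ring
  have c2 : (AO o 1 x : ℝ) ≤ C3 * (64 * C2) * (o.m : ℝ) ^ e * x := by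
    obtain ⟨K, iK, iN, F, Ψ, hd, hΨ, hloc, hTT, -⟩ := hA o ho
    rw [hTT x hx1]
    refine (le_abs_self _).trans ?_
    have hdv : 8 * F.d ∣ o.m := by rw [hd]; exact o2_dvd o
    refine (hU3 K F o.m hm hdv Ψ _ hΨ hloc x hx1).trans ?_
    have h2 : (64 : ℝ) * 2 ^ k ≤ 64 * (C2 * (o.m : ℝ) ^ (e / 2)) := by
      have h4 : (2 : ℝ) ^ k ≤ 64 ^ (k + 1) := by
        calc (2 : ℝ) ^ k ≤ 64 ^ k := pow_le_pow_left₀ (by norm_num) (by norm_num) _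
          _ ≤ 64 ^ (k + 1) := pow_le_pow_right₀ (by norm_num) (Nat.le_succ k)
      linarith
    have hmh : (0 : ℝ) ≤ (o.m : ℝ) ^ (e / 2) := Real.rpow_nonneg (by linarith) _
    have hsq : (o.m : ℝ) ^ (e / 2) * (o.m : ℝ) ^ (e / 2) = (o.m : ℝ) ^ e := by
      rw [← Real.rpow_add (by linarith)]
      congr 1
      ring
    calc C3 * (64 * 2 ^ k) * (o.m : ℝ) ^ (e / 2) * x
        ≤ C3 * (64 * (C2 * (o.m : ℝ) ^ (e / 2))) * (o.m : ℝ) ^ (e / 2) * x := by gcongr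
      _ = C3 * (64 * C2) * ((o.m : ℝ) ^ (e / 2) * (o.m : ℝ) ^ (e / 2)) * x := by ring
      _ = _ := by rw [hsq]
  push_cast
  calc (AO o 0 1 : ℝ) + (AO o 1 x : ℝ) ≤ 64 * C1 * (o.m : ℝ) ^ e * x +
        C3 * (64 * C2) * (o.m : ℝ) ^ e * x := add_le_add c1 c2
    _ = _ := by ring

theorem AO_lim (hL : StmL) (hA : StmAlg) (h1 : StmOne) (h3 : StmFin) (o : Out) (ho : WfO o) :
    ∃ l : ℝ, 0 ≤ l ∧ Filter.Tendsto (fun x : ℝ => (AO o 0 x : ℝ) / x) Filter.atTop (nhds l) ∧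
      ((∃ ρ ∈ Hs, HasO o ρ) → 0 < l) := by
  obtain ⟨K, iK, iN, F, Ψ, hd, hΨ, hloc, hTT, hex⟩ := hA o ho
  have hm := o2_m ho
  have hdv : 8 * F.d ∣ o.m := by rw [hd]; exact o2_dvd o
  obtain ⟨l, hl0, hlt, hlp⟩ := hL K F o.m hm hdv Ψ _ hΨ hloc
  refine ⟨l, hl0, ?_, fun h => hlp (hex h)⟩
  have ht : Filter.Tendsto (fun x : ℝ => (AO o 0 1 : ℝ) / x + TT F o.m Ψ x / x) Filter.atTop
      (nhds (0 + l)) :=
    (Filter.Tendsto.const_div_atTop Filter.tendsto_id _).add hlt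
  rw [zero_add] at ht
  refine ht.congr' ?_
  filter_upwards [Filter.eventually_ge_atTop (1 : ℝ)] with x hx
  rw [o2_split h3 ho hx, ← hTT x hx]
  push_cast
  rw [add_div]

end Pool.Agent.H32.MA
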