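import Pool.Agent.H32.MA.OStm

/-!
# Project MA9 (MP_a9b340), row O3: the outer parameters are summable
-/

set_option autoImplicit false

open scoped BigOperators
open NumberField IsDedekindDomain

namespace Pool.Agent.H32.MA

private theorem o3_dec (o : Out) (ho : WfO o) : o.d = Nat.gcd o.d 2 * (o.d0 * o.d1) := by
  have hgpos : 0 < Nat.gcd o.d 2 := Nat.gcd_pos_of_pos_right _ two_pos
  obtain ⟨k, hk⟩ := Nat.gcd_dvd_left o.d 2
  have hcop : Nat.Coprime o.d1 (Nat.gcd o.d 2) :=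
    Nat.Coprime.coprime_dvd_right (Nat.gcd_dvd_right _ _) (Nat.coprime_two_right.2 ho.odd)
  have h1 : o.d / Nat.gcd o.d 2 = k := Nat.div_eq_of_eq_mul_right hgpos hk
  have h2 : o.d1 ∣ k := by
    have h3 := ho.d1
    rw [hk] at h3
    exact hcop.dvd_of_dvd_mul_left h3
  unfold Out.d0
  rw [h1, Nat.div_mul_cancel h2]
  exact hk

private theorem o3_gcd (o : Out) : Nat.gcd o.d 2 = if 2 ∣ o.d then 2 else 1 := by
  split_ifs with h
  · exact Nat.gcd_eq_right h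
  · rw [← Nat.coprime_iff_gcd_eq_one, Nat.coprime_two_right, ← Nat.not_even_iff_odd]
    exact fun h1 => h (even_iff_two_dvd.1 h1)

private theorem o3_pos (o : Out) (ho : WfO o) :
    0 < o.w ∧ 0 < o.t ∧ 0 < o.d0 ∧ 0 < o.d1 := by
  have h := o3_dec o ho
  have hd : 0 < o.d := lt_trans one_pos ho.ltd
  rw [h] at hd
  have h1 := Nat.pos_of_mul_pos_left hd
  refine ⟨?_, ?_, ?_, ?_⟩
  · rcases Nat.eq_zero_or_pos o.w with h2 | h2
    · exact absurd ho.sqw (by rw [h2]; exact not_squarefree_zero)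
    · exact h2
  · rcases Nat.eq_zero_or_pos o.t with h2 | h2
    · exact absurd ho.sqt (by rw [h2]; exact not_squarefree_zero)
    · exact h2
  · rcases Nat.eq_zero_or_pos o.d0 with h2 | h2
    · rw [h2] at hd
      simp at hd
    · exact h2
  · rcases Nat.eq_zero_or_pos o.d1 with h2 | h2
    · rw [h2] at hd
      simp at hd
    · exact h2

theorem sz_pos (o : Out) (ho : WfO o) : 0 < o.sz := by
  obtain ⟨h1, h2, h3, h4⟩ := o3_pos o ho
  unfold Out.sz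
  positivity

/-- the product of the parameters -/
private def o3z (o : Out) : ℕ := o.w * (o.t * (o.d0 * o.d1))

private theorem o3_m (o : Out) (ho : WfO o) : o.m ≤ 16 * o3z o := by
  have h := o3_dec o ho
  have hg : Nat.gcd o.d 2 ≤ 2 := Nat.gcd_le_right _ two_pos
  have h1 : o.m = 8 * Nat.gcd o.d 2 * o3z o := by
    unfold Out.m o3z
    conv_lhs => rw [h]
    ring
  rw [h1]
  exact Nat.mul_le_mul_right _ (by omega)

private theorem o3_sz (o : Out) (ho : WfO o) : o3z o ^ 4 * 2 ^ o.c ≤ o.sz := by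
  obtain ⟨h1, h2, h3, h4⟩ := o3_pos o ho
  unfold Out.sz o3z
  refine Nat.mul_le_mul_right _ ?_
  rw [mul_pow, mul_pow, mul_pow]
  have e2 : o.t ^ 4 ≤ o.t ^ 6 := Nat.pow_le_pow_right h2 (by norm_num)
  have e3 : o.d0 ^ 4 ≤ o.d0 ^ 6 := Nat.pow_le_pow_right h3 (by norm_num)
  have e4 : o.d1 ^ 4 ≤ o.d1 ^ 7 := Nat.pow_le_pow_right h4 (by norm_num)
  calc o.w ^ 4 * (o.t ^ 4 * (o.d0 ^ 4 * o.d1 ^ 4)) ≤ o.w ^ 4 * (o.t ^ 6 * (o.d0 ^ 6 * o.d1 ^ 7)) :=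
        Nat.mul_le_mul_left _ (Nat.mul_le_mul e2 (Nat.mul_le_mul e3 e4))
    _ = o.w ^ 4 * o.t ^ 6 * o.d0 ^ 6 * o.d1 ^ 7 := by ring

/-- the majorant -/
private noncomputable def o3f (n : ℕ) : ℝ := (n : ℝ) ^ (-(37 / 30) : ℝ)

private noncomputable def o3r : ℝ := (2 : ℝ) ^ (-(1 / 3) : ℝ)

private noncomputable def o3G (x : Bool × ℕ × ℕ × ℕ × ℕ × ℕ) : ℝ :=
  2 * (o3f x.2.1 * (o3f x.2.2.1 * (o3f x.2.2.2.1 * (o3f x.2.2.2.2.1 * o3r ^ x.2.2.2.2.2))))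

private theorem o3f_nonneg (n : ℕ) : 0 ≤ o3f n := Real.rpow_nonneg (Nat.cast_nonneg _) _

private theorem o3r_nonneg : 0 ≤ o3r := Real.rpow_nonneg (by norm_num) _

private theorem o3f_summable : Summable o3f := by
  unfold o3f
  rw [Real.summable_nat_rpow]
  norm_num

private theorem o3r_summable : Summable fun c : ℕ => o3r ^ c :=
  summable_geometric_of_lt_one o3r_nonneg
    (Real.rpow_lt_one_of_one_lt_of_neg (by norm_num) (by norm_num))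

private theorem o3G_summable : Summable o3G := by
  have h1 : Summable fun x : ℕ × ℕ => o3f x.1 * o3r ^ x.2 :=
    o3f_summable.mul_of_nonneg o3r_summable o3f_nonneg (fun c => pow_nonneg o3r_nonneg c)
  have n1 : ∀ x : ℕ × ℕ, 0 ≤ o3f x.1 * o3r ^ x.2 := fun x =>
    mul_nonneg (o3f_nonneg _) (pow_nonneg o3r_nonneg _)
  have h2 : Summable fun x : ℕ × ℕ × ℕ => o3f x.1 * (o3f x.2.1 * o3r ^ x.2.2) :=
    o3f_summable.mul_of_nonneg h1 o3f_nonneg n1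
  have n2 : ∀ x : ℕ × ℕ × ℕ, 0 ≤ o3f x.1 * (o3f x.2.1 * o3r ^ x.2.2) := fun x =>
    mul_nonneg (o3f_nonneg _) (n1 _)
  have h3 : Summable fun x : ℕ × ℕ × ℕ × ℕ =>
      o3f x.1 * (o3f x.2.1 * (o3f x.2.2.1 * o3r ^ x.2.2.2)) :=
    o3f_summable.mul_of_nonneg h2 o3f_nonneg n2
  have n3 : ∀ x : ℕ × ℕ × ℕ × ℕ,
      0 ≤ o3f x.1 * (o3f x.2.1 * (o3f x.2.2.1 * o3r ^ x.2.2.2)) := fun x =>
    mul_nonneg (o3f_nonneg _) (n2 _)
  have h4 : Summable fun x : ℕ × ℕ × ℕ × ℕ × ℕ =>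
      o3f x.1 * (o3f x.2.1 * (o3f x.2.2.1 * (o3f x.2.2.2.1 * o3r ^ x.2.2.2.2))) :=
    o3f_summable.mul_of_nonneg h3 o3f_nonneg n3
  have n4 : ∀ x : ℕ × ℕ × ℕ × ℕ × ℕ,
      0 ≤ o3f x.1 * (o3f x.2.1 * (o3f x.2.2.1 * (o3f x.2.2.2.1 * o3r ^ x.2.2.2.2))) := fun x =>
    mul_nonneg (o3f_nonneg _) (n3 _)
  have h5 : Summable fun _ : Bool => (2 : ℝ) := (hasSum_fintype _).summable
  exact h5.mul_of_nonneg h4 (fun _ => by norm_num) n4

/-- the index -/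
private def o3i (o : {o : Out // WfO o}) : Bool × ℕ × ℕ × ℕ × ℕ × ℕ :=
  (decide (2 ∣ o.1.d), o.1.w, o.1.t, o.1.d0, o.1.d1, o.1.c)

private theorem o3i_inj : Function.Injective o3i := by
  rintro ⟨o, ho⟩ ⟨o', ho'⟩ h
  unfold o3i at h
  simp only [Prod.mk.injEq, decide_eq_decide] at h
  obtain ⟨h1, h2, h3, h4, h5, h6⟩ := h
  have h7 : o.d = o'.d := by
    rw [o3_dec o ho, o3_dec o' ho', o3_gcd, o3_gcd, h4, h5]
    congr 1
    by_cases h8 : 2 ∣ o.d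
    · rw [if_pos h8, if_pos (h1.1 h8)]
    · rw [if_neg h8, if_neg fun h9 => h8 (h1.2 h9)]
  apply Subtype.ext
  cases o
  cases o'
  simp only at h2 h3 h5 h6 h7
  subst h2 h3 h5 h6 h7
  rfl

private theorem o3_le (o : {o : Out // WfO o}) :
    (o.1.m : ℝ) ^ (1 / 10 : ℝ) / (o.1.sz : ℝ) ^ (1 / 3 : ℝ) ≤ o3G (o3i o) := by
  obtain ⟨o, ho⟩ := o
  obtain ⟨h1, h2, h3, h4⟩ := o3_pos o ho
  have hz : 0 < o3z o := by
    unfold o3z
    positivity
  have hzr : (1 : ℝ) ≤ o3z o := by exact_mod_cast hz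
  have hz0 : (0 : ℝ) < o3z o := by linarith
  have hm : (o.m : ℝ) ≤ 16 * o3z o := by exact_mod_cast o3_m o ho
  have hs : ((o3z o : ℝ)) ^ 4 * 2 ^ o.c ≤ (o.sz : ℝ) := by exact_mod_cast o3_sz o ho
  have e1 : (o.m : ℝ) ^ (1 / 10 : ℝ) ≤ 2 * (o3z o : ℝ) ^ (1 / 10 : ℝ) := by
    refine (Real.rpow_le_rpow (Nat.cast_nonneg _) hm (by norm_num)).trans ?_
    rw [Real.mul_rpow (by norm_num) hz0.le]
    refine mul_le_mul_of_nonneg_right ?_ (Real.rpow_nonneg hz0.le _)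
    have e2 : (16 : ℝ) = 2 ^ (4 : ℝ) := by norm_num
    rw [e2, ← Real.rpow_mul (by norm_num)]
    calc (2 : ℝ) ^ ((4 : ℝ) * (1 / 10)) ≤ 2 ^ (1 : ℝ) :=
          Real.rpow_le_rpow_of_exponent_le (by norm_num) (by norm_num)
      _ = 2 := Real.rpow_one 2
  have e3 : (o3z o : ℝ) ^ (4 / 3 : ℝ) * (2 : ℝ) ^ ((o.c : ℝ) * (1 / 3)) ≤
      (o.sz : ℝ) ^ (1 / 3 : ℝ) := by
    refine le_trans (le_of_eq ?_) (Real.rpow_le_rpow (by positivity) hs (by norm_num))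
    rw [Real.mul_rpow (by positivity) (by positivity), ← Real.rpow_natCast,
      ← Real.rpow_mul hz0.le, ← Real.rpow_natCast, ← Real.rpow_mul (by norm_num)]
    norm_num
  have e4 : 0 < (o3z o : ℝ) ^ (4 / 3 : ℝ) * (2 : ℝ) ^ ((o.c : ℝ) * (1 / 3)) := by positivity
  have e5 : o3G (o3i ⟨o, ho⟩) =
      2 * (o3z o : ℝ) ^ (1 / 10 : ℝ) /
        ((o3z o : ℝ) ^ (4 / 3 : ℝ) * (2 : ℝ) ^ ((o.c : ℝ) * (1 / 3))) := by
    have e6 : (o3z o : ℝ) ^ (1 / 10 : ℝ) / (o3z o : ℝ) ^ (4 / 3 : ℝ) =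
        o3f o.w * (o3f o.t * (o3f o.d0 * o3f o.d1)) := by
      rw [← Real.rpow_sub hz0]
      unfold o3f o3z
      push_cast
      rw [← Real.mul_rpow (by positivity) (by positivity),
        ← Real.mul_rpow (by positivity) (by positivity),
        ← Real.mul_rpow (by positivity) (by positivity)]
      norm_num
    have e7 : o3r ^ o.c = ((2 : ℝ) ^ ((o.c : ℝ) * (1 / 3)))⁻¹ := by
      unfold o3r
      rw [← Real.rpow_natCast, ← Real.rpow_mul (by norm_num), ← Real.rpow_neg (by norm_num)]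
      congr 1
      ring
    have e8 : o3G (o3i ⟨o, ho⟩) = 2 * ((o3f o.w * (o3f o.t * (o3f o.d0 * o3f o.d1))) *
        o3r ^ o.c) := by
      unfold o3G o3i
      ring
    rw [e8, ← e6, e7]
    field_simp
  rw [e5]
  exact div_le_div₀ (by positivity) e1 e4 e3

theorem out_summable : Summable (fun o : {o : Out // WfO o} =>
    (o.1.m : ℝ) ^ (1 / 10 : ℝ) / (o.1.sz : ℝ) ^ (1 / 3 : ℝ)) := by
  refine Summable.of_nonneg_of_le (fun o => ?_) o3_le (o3G_summable.comp_injective o3i_inj)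
  exact div_nonneg (Real.rpow_nonneg (Nat.cast_nonneg _) _) (Real.rpow_nonneg (Nat.cast_nonneg _) _)

end Pool.Agent.H32.MA
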