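import Pool.Agent.H32.MA.O1
import Pool.Agent.H32.MA.O2
import Pool.Agent.H32.MA.O3

/-!
# Project MA9 (MP_a9b340), row O4: the asymptotic formula for the homomorphisms
-/

set_option autoImplicit false

open scoped BigOperators
open NumberField IsDedekindDomain

namespace Pool.Agent.H32.MA

open Pool.Agent.H98.MK (Om Gam)

private theorem o4_m (o : Out) (ho : WfO o) : (1 : ℝ) ≤ (o.m : ℝ) := by
  have h1 : o.d ≠ 0 := ho.sqd.ne_zero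
  have h2 : 2 * o.t ≠ 0 := ho.sqt.ne_zero
  have h3 : 2 * o.w ≠ 0 := ho.sqw.ne_zero
  have h4 : o.t ≠ 0 := fun h => h2 (by rw [h])
  have h5 : o.w ≠ 0 := fun h => h3 (by rw [h])
  have hm : o.m ≠ 0 := mul_ne_zero (mul_ne_zero (mul_ne_zero (by norm_num) h1) h4) h5
  exact_mod_cast Nat.one_le_iff_ne_zero.mpr hm

/-- finitely many outer parameters of bounded size -/
private theorem o4_fin (X : ℝ) : {o : {o : Out // WfO o} | (o.1.sz : ℝ) ≤ X}.Finite := by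
  rcases le_or_gt X 0 with hX | hX
  · refine Set.Finite.subset Set.finite_empty fun o ho => ?_
    have h1 : (0 : ℝ) < o.1.sz := by exact_mod_cast sz_pos o.1 o.2
    have h2 : (o.1.sz : ℝ) ≤ X := ho
    linarith
  have h := out_summable.tendsto_cofinite_zero
  have hpos : 0 < 1 / X ^ (1 / 3 : ℝ) := by positivity
  have h1 := h.eventually (gt_mem_nhds hpos)
  rw [Filter.eventually_cofinite] at h1
  refine h1.subset fun o ho => ?_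
  have h2 : (o.1.sz : ℝ) ≤ X := ho
  have h3 : (0 : ℝ) < o.1.sz := by exact_mod_cast sz_pos o.1 o.2
  rw [Set.mem_setOf_eq, not_lt]
  have h4 : (1 : ℝ) ≤ (o.1.m : ℝ) ^ (1 / 10 : ℝ) := Real.one_le_rpow (o4_m o.1 o.2) (by norm_num)
  have h5 : (o.1.sz : ℝ) ^ (1 / 3 : ℝ) ≤ X ^ (1 / 3 : ℝ) :=
    Real.rpow_le_rpow h3.le h2 (by norm_num)
  have h6 : (0 : ℝ) < (o.1.sz : ℝ) ^ (1 / 3 : ℝ) := Real.rpow_pos_of_pos h3 _
  calc 1 / X ^ (1 / 3 : ℝ) ≤ 1 / (o.1.sz : ℝ) ^ (1 / 3 : ℝ) := one_div_le_one_div_of_le h6 h5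
    _ ≤ (o.1.m : ℝ) ^ (1 / 10 : ℝ) / (o.1.sz : ℝ) ^ (1 / 3 : ℝ) :=
        div_le_div_of_nonneg_right h4 h6.le

/-- finiteness of the count from the formula for the discriminant -/
theorem fin_of (h1 : StmPar) (hU : StmU) (hA : StmAlg) (h3 : StmFin) (h4 : StmOne) (X : ℝ) :
    {ρ : Gam →* SD | ρ ∈ Hs ∧ (dsc ρ : ℝ) ≤ X}.Finite := by
  have hf := (o4_fin X).biUnion (t := fun o : {o : Out // WfO o} =>
    {ρ : Gam →* SD | ρ ∈ Hs ∧ HasO o.1 ρ ∧ 0 < pcl SD.clC ρ ∧ (pcl SD.clC ρ : ℝ) ≤ X})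
    (fun o _ => h3 o.1 0 X o.2)
  refine hf.subset ?_
  rintro ρ ⟨hρ, hX⟩
  obtain ⟨o, ho, hoρ, hN, hd⟩ := h1 ρ hρ
  have hs : 1 ≤ o.sz := sz_pos o ho
  have hNN : pcl SD.clC ρ ≤ pcl SD.clC ρ ^ 3 := Nat.le_self_pow (by norm_num) _
  have hN3 : 1 ≤ pcl SD.clC ρ ^ 3 := Nat.one_le_pow _ _ hN
  have e1 : o.sz ≤ dsc ρ := by
    rw [hd]
    exact Nat.le_mul_of_pos_left _ hN3
  have e2 : pcl SD.clC ρ ≤ dsc ρ := by
    rw [hd]
    exact hNN.trans (Nat.le_mul_of_pos_right _ hs)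
  have e1' : (o.sz : ℝ) ≤ X := le_trans (by exact_mod_cast e1) hX
  have e2' : (pcl SD.clC ρ : ℝ) ≤ X := le_trans (by exact_mod_cast e2) hX
  rw [Set.mem_iUnion₂]
  exact ⟨⟨o, ho⟩, e1', hρ, hoρ, hN, e2'⟩

theorem cntX_of (h1 : StmPar) (h2 : StmUni) (h3 : StmFin) (hU : StmU) (hL : StmL)
    (hA : StmAlg) (h4 : StmOne) (h5 : StmEx) : StmCntX := by
  obtain ⟨C, hC, hle⟩ := AO_le hU hA h4 h3 (1 / 10) (by norm_num)
  choose l hl0 hlt hlp using fun o : {o : Out // WfO o} => AO_lim hL hA h4 h3 o.1 o.2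
  have hsz : ∀ o : {o : Out // WfO o}, (0 : ℝ) < o.1.sz := fun o => by
    exact_mod_cast sz_pos o.1 o.2
  have hsz3 : ∀ o : {o : Out // WfO o}, (0 : ℝ) < (o.1.sz : ℝ) ^ (1 / 3 : ℝ) := fun o =>
    Real.rpow_pos_of_pos (hsz o) _
  have hsum : Summable fun o : {o : Out // WfO o} =>
      C * ((o.1.m : ℝ) ^ (1 / 10 : ℝ) / (o.1.sz : ℝ) ^ (1 / 3 : ℝ)) := out_summable.mul_left C
  -- the terms
  have hdiv : ∀ (X : ℝ), 0 ≤ X → ∀ o : {o : Out // WfO o},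
      (X / (o.1.sz : ℝ)) ^ (1 / 3 : ℝ) = X ^ (1 / 3 : ℝ) / (o.1.sz : ℝ) ^ (1 / 3 : ℝ) :=
    fun X hX o => Real.div_rpow hX (hsz o).le _
  have hbd : ∀ (X : ℝ), 0 < X → ∀ o : {o : Out // WfO o},
      ‖(AO o.1 0 ((X / (o.1.sz : ℝ)) ^ (1 / 3 : ℝ)) : ℝ) / X ^ (1 / 3 : ℝ)‖ ≤
        C * ((o.1.m : ℝ) ^ (1 / 10 : ℝ) / (o.1.sz : ℝ) ^ (1 / 3 : ℝ)) := by
    intro X hX o
    have hX3 : 0 < X ^ (1 / 3 : ℝ) := Real.rpow_pos_of_pos hX _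
    rw [Real.norm_of_nonneg (by positivity), div_le_iff₀ hX3]
    have h := hle o.1 o.2 ((X / (o.1.sz : ℝ)) ^ (1 / 3 : ℝ))
      (Real.rpow_nonneg (div_nonneg hX.le (hsz o).le) _)
    refine h.trans (le_of_eq ?_)
    rw [hdiv X hX.le o]
    ring
  have hlim : ∀ o : {o : Out // WfO o}, Filter.Tendsto
      (fun X : ℝ => (AO o.1 0 ((X / (o.1.sz : ℝ)) ^ (1 / 3 : ℝ)) : ℝ) / X ^ (1 / 3 : ℝ))
      Filter.atTop (nhds (l o / (o.1.sz : ℝ) ^ (1 / 3 : ℝ))) := by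
    intro o
    have ht : Filter.Tendsto (fun X : ℝ => (X / (o.1.sz : ℝ)) ^ (1 / 3 : ℝ)) Filter.atTop
        Filter.atTop :=
      (tendsto_rpow_atTop (by norm_num : (0 : ℝ) < 1 / 3)).comp
        (Filter.tendsto_id.atTop_div_const (hsz o))
    have h := ((hlt o).comp ht).div_const ((o.1.sz : ℝ) ^ (1 / 3 : ℝ))
    refine h.congr' ?_
    filter_upwards [Filter.eventually_gt_atTop (0 : ℝ)] with X hX
    have hX3 : 0 < X ^ (1 / 3 : ℝ) := Real.rpow_pos_of_pos hX _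
    have hs3 := hsz3 o
    show (AO o.1 0 ((X / (o.1.sz : ℝ)) ^ (1 / 3 : ℝ)) : ℝ) / (X / (o.1.sz : ℝ)) ^ (1 / 3 : ℝ) /
      (o.1.sz : ℝ) ^ (1 / 3 : ℝ) = _
    rw [div_div]
    congr 1
    rw [hdiv X hX.le o]
    field_simp
  have hT := tendsto_tsum_of_dominated_convergence hsum hlim
    ((Filter.eventually_gt_atTop (0 : ℝ)).mono fun X hX => hbd X hX)
  have hg0 : ∀ o : {o : Out // WfO o}, 0 ≤ l o / (o.1.sz : ℝ) ^ (1 / 3 : ℝ) := fun o =>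
    div_nonneg (hl0 o) (hsz3 o).le
  have hgs : Summable fun o : {o : Out // WfO o} => l o / (o.1.sz : ℝ) ^ (1 / 3 : ℝ) := by
    refine Summable.of_nonneg_of_le hg0 (fun o => ?_) hsum
    refine le_of_tendsto (hlim o) ?_
    filter_upwards [Filter.eventually_gt_atTop (0 : ℝ)] with X hX
    exact (le_abs_self _).trans (hbd X hX o)
  refine ⟨∑' o : {o : Out // WfO o}, l o / (o.1.sz : ℝ) ^ (1 / 3 : ℝ), ?_, ?_⟩
  · obtain ⟨ρ, hρ⟩ := h5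
    obtain ⟨o, ho, hoρ, -, -⟩ := h1 ρ hρ
    refine hgs.tsum_pos hg0 ⟨o, ho⟩ ?_
    exact div_pos (hlp ⟨o, ho⟩ ⟨ρ, hρ, hoρ⟩) (hsz3 ⟨o, ho⟩)
  · refine hT.congr' ?_
    filter_upwards [Filter.eventually_gt_atTop (0 : ℝ)] with X hX
    rw [cnt_sum h1 h2 h3 X hX (fin_of h1 hU hA h3 h4 X), tsum_div_const]

end Pool.Agent.H32.MA
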