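import Pool.Agent.H32.MA.ADefs
import Pool.Agent.H32.MA.TStm

/-!
# Project MA9 (MP_a9b340): statements used by the outer sum
-/

set_option autoImplicit false

open scoped BigOperators
open NumberField IsDedekindDomain

namespace Pool.Agent.H32.MA

open Pool.Agent.H98.MK (Om Gam)

/-- admissible outer parameters -/
structure WfO (o : Out) : Prop where
  sqd : Squarefree o.d
  ltd : 1 < o.d
  sqt : Squarefree (2 * o.t)
  sqw : Squarefree (2 * o.w)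
  d1 : o.d1 ∣ o.d
  odd : Odd o.d1

/-- the odd part of `d / d1` -/
def Out.d0 (o : Out) : ℕ := o.d / Nat.gcd o.d 2 / o.d1

/-- the outer size -/
def Out.sz (o : Out) : ℕ := o.w ^ 4 * o.t ^ 6 * o.d0 ^ 6 * o.d1 ^ 7 * 2 ^ o.c

/-- the parameters of a surjective homomorphism and its discriminant (A1) -/
def StmPar : Prop :=
  ∀ ρ ∈ Hs, ∃ o : Out, WfO o ∧ HasO o ρ ∧ 1 ≤ pcl SD.clC ρ ∧
    dsc ρ = pcl SD.clC ρ ^ 3 * o.sz

/-- the parameters are unique (A1') -/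
def StmUni : Prop := ∀ (ρ : Gam →* SD) (o o' : Out), WfO o → WfO o' → HasO o ρ → HasO o' ρ →
  o = o'

/-- finiteness -/
def StmFin : Prop :=
  ∀ (o : Out) (lo : ℕ) (x : ℝ), WfO o →
    {ρ : Gam →* SD | ρ ∈ Hs ∧ HasO o ρ ∧ lo < pcl SD.clC ρ ∧ (pcl SD.clC ρ : ℝ) ≤ x}.Finite

/-- the number of homomorphisms with parameters `o` as a sum `TT` (A2) -/
def StmAlg : Prop :=
  ∀ o : Out, WfO o → ∃ (K : Type) (_ : Field K) (_ : NumberField K) (F : QF K) (Ψ : K → ℝ),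
    F.d = o.d ∧ (∀ b, 0 ≤ Ψ b ∧ Ψ b ≤ 64 * 2 ^ o.m.primeFactors.card) ∧ MLoc o.m Ψ ∧
    (∀ x : ℝ, 1 ≤ x → (AO o 1 x : ℝ) = TT F o.m Ψ x) ∧
    ((∃ ρ ∈ Hs, HasO o ρ) →
      ∃ (b : K) (S : Finset (HeightOneSpectrum (𝓞 K))), b ≠ 0 ∧ 0 < Ψ b ∧ Good o.m S ∧
        ∀ P : HeightOneSpectrum (𝓞 K), ¬ 1 ≤ Pool.Agent.H98.MF.ord P (o.m : K) →
          (P ∈ S → ((Pool.Agent.H98.MF.ord P b : ℤ) : ZMod 2) = 1) ∧
          (P ∉ S → ((Pool.Agent.H98.MF.ord P b : ℤ) : ZMod 2) = 0))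

/-- the part with `N = 1` is small -/
def StmOne : Prop :=
  ∀ o : Out, WfO o → AO o 0 1 ≤ 64 * 8 ^ (o.m.primeFactors.card + 1)

/-- there is a surjective homomorphism (section 7) -/
def StmEx : Prop := ∃ ρ : Gam →* SD, ρ ∈ Hs

/-- the count of surjective homomorphisms -/
noncomputable def cntX (X : ℝ) : ℕ := {ρ : Gam →* SD | ρ ∈ Hs ∧ (dsc ρ : ℝ) ≤ X}.ncard

/-- the asymptotic formula for the homomorphisms -/
def StmCntX : Prop :=
  ∃ c : ℝ, 0 < c ∧ Filter.Tendsto (fun X : ℝ => (cntX X : ℝ) / X ^ (1 / 3 : ℝ)) Filter.atTop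
    (nhds c)

end Pool.Agent.H32.MA
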