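import Pool.Agent.H32.MA.ZDefs
import Pool.Agent.H98.ML.CountHoms2

/-!
# Project MA9 (MP_a9b340), row Z3: fields inside the algebraic closure and surjective homomorphisms
-/

set_option autoImplicit false

open scoped BigOperators

namespace Pool.Agent.H32.MA

open Pool.Agent.H98.MK (Om Gam dabs fld)
open Pool.Agent.H98.ML

section

variable {n : ℕ} {G : Subgroup (Equiv.Perm (Fin n))}

/-- a field comes from a surjection, on the nose -/
theorem z3_exists (i0 : Fin n) (M : IntermediateField ℚ Om) (hfd : FiniteDimensional ℚ M)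
    (e : (M →ₐ[ℚ] Om) ≃ Fin n) (he : ∀ π : Equiv.Perm (Fin n),
    π ∈ G ↔ ∃ σ : Gam, ∀ φ : M →ₐ[ℚ] Om, e (σ.toAlgHom.comp φ) = π (e φ))
    (h0 : e M.val = i0) :
    ∃ ρ : Gam →* G, Function.Surjective ρ ∧ IsLocallyConstant ρ ∧ fld (ch2U i0 ρ) = M := by
  set P := Pool.Agent.H98.MK.cfPerm M n e with hP
  have hPG : ∀ σ, P σ ∈ G := fun σ =>
    (he _).2 ⟨σ, fun φ => (Pool.Agent.H98.MK.cfPerm_apply M n e σ φ).symm⟩
  have hGP : ∀ π ∈ G, ∃ σ, P σ = π := by
    intro π hπ
    obtain ⟨σ, hσ⟩ := (he _).1 hπ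
    refine ⟨σ, ?_⟩
    ext i
    obtain ⟨φ, rfl⟩ := e.surjective i
    rw [hP, Pool.Agent.H98.MK.cfPerm_apply, hσ]
  let ρ : Gam →* G := P.codRestrict G hPG
  have hρ : ∀ σ (φ : M →ₐ[ℚ] Om), (ρ σ : Equiv.Perm (Fin n)) (e φ) = e (σ.toAlgHom.comp φ) :=
    fun σ φ => Pool.Agent.H98.MK.cfPerm_apply M n e σ φ
  have hs : Function.Surjective ρ := by
    rintro ⟨π, hπ⟩
    obtain ⟨σ, hσ⟩ := hGP π hπ
    exact ⟨σ, Subtype.ext hσ⟩
  have hfixφ : ∀ (φ : M →ₐ[ℚ] Om) (σ : Gam),
      σ ∈ φ.fieldRange.fixingSubgroup ↔ σ.toAlgHom.comp φ = φ := by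
    intro φ σ
    rw [IntermediateField.mem_fixingSubgroup_iff]
    constructor
    · intro h
      ext x
      exact h (φ x) ⟨x, rfl⟩
    · rintro h y ⟨x, rfl⟩
      exact DFunLike.congr_fun h x
  have hl : IsLocallyConstant ρ := by
    apply Pool.Agent.H98.MK.lc_of_ker_open
    have hfin : Finite (M →ₐ[ℚ] Om) := Finite.of_equiv _ e.symm
    have h1 : (ρ.ker : Set Gam) = ⋂ φ : M →ₐ[ℚ] Om, (φ.fieldRange.fixingSubgroup : Set Gam) := by
      ext σ
      rw [Set.mem_iInter]
      constructor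
      · intro h φ
        have h2 : ρ σ = 1 := h
        rw [SetLike.mem_coe, hfixφ]
        apply e.injective
        rw [← hρ, h2]
        rfl
      · intro h
        have h2 : ρ σ = 1 := by
          apply Subtype.ext
          ext i
          obtain ⟨φ, rfl⟩ := e.surjective i
          rw [hρ, (hfixφ φ σ).1 (h φ)]
          rfl
        exact h2
    rw [h1]
    refine isOpen_iInter_of_finite fun φ => ?_
    have hf : FiniteDimensional ℚ φ.fieldRange :=
      (AlgEquiv.ofInjectiveField φ).toLinearEquiv.finiteDimensional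
    exact IntermediateField.fixingSubgroup_isOpen _
  refine ⟨ρ, hs, hl, ?_⟩
  have h1 : ch2U i0 ρ = M.fixingSubgroup := by
    ext σ
    rw [ch2_mem, ← h0, hρ, e.injective.eq_iff, IntermediateField.mem_fixingSubgroup_iff]
    constructor
    · intro h x hx
      exact DFunLike.congr_fun h (⟨x, hx⟩ : M)
    · intro h
      ext x
      exact h (x : Om) x.2
  rw [h1]
  exact InfiniteGalois.fixedField_fixingSubgroup _

/-- moving the inclusion to a given index -/
theorem z3_move (htr : MulAction.IsPretransitive G (Fin n)) (i0 : Fin n)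
    (M : IntermediateField ℚ Om) (h : Ch2Emb n G M) :
    ∃ e : (M →ₐ[ℚ] Om) ≃ Fin n, (∀ π : Equiv.Perm (Fin n),
      π ∈ G ↔ ∃ σ : Gam, ∀ φ : M →ₐ[ℚ] Om, e (σ.toAlgHom.comp φ) = π (e φ)) ∧
      e M.val = i0 := by
  obtain ⟨e, he⟩ := h
  obtain ⟨g, hg⟩ := htr.exists_smul_eq (e M.val) i0
  refine ⟨e.trans (g : Equiv.Perm (Fin n)), fun π => ?_, hg⟩
  have h1 : π ∈ G ↔ (g : Equiv.Perm (Fin n))⁻¹ * π * g ∈ G := by
    rw [G.mul_mem_cancel_right g.2, G.mul_mem_cancel_left (G.inv_mem g.2)]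
  rw [h1, he]
  refine exists_congr fun σ => forall_congr' fun φ => ?_
  constructor
  · intro h2
    change (g : Equiv.Perm (Fin n)) (e (σ.toAlgHom.comp φ)) =
      π ((g : Equiv.Perm (Fin n)) (e φ))
    rw [h2]
    exact Equiv.apply_symm_apply (g : Equiv.Perm (Fin n)) _
  · intro h2
    have h3 : (g : Equiv.Perm (Fin n)) (e (σ.toAlgHom.comp φ)) =
      π ((g : Equiv.Perm (Fin n)) (e φ)) := h2
    change _ = (g : Equiv.Perm (Fin n))⁻¹ (π ((g : Equiv.Perm (Fin n)) (e φ)))
    rw [← h3]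
    exact (Equiv.symm_apply_apply (g : Equiv.Perm (Fin n)) _).symm

/-- the counting argument -/
theorem z3_main (htr : MulAction.IsPretransitive G (Fin n)) (i0 : Fin n) (B : ℝ)
    (P : IntermediateField ℚ Om → Prop)
    (hP : ∀ M, P M ↔ FiniteDimensional ℚ M ∧ Module.finrank ℚ M = n ∧ Ch2Emb n G M ∧
      (dabs M : ℝ) ≤ B) :
    Nat.card {M : IntermediateField ℚ Om // P M} *
      Nat.card {α : MulAut G // ∀ x : G, x ∈ MulAction.stabilizer G i0 ↔
          α x ∈ MulAction.stabilizer G i0} =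
      Nat.card {ρ : Gam →* G // Function.Surjective ρ ∧ IsLocallyConstant ρ ∧
        (dabs (fld ((MulAction.stabilizer G i0).comap ρ)) : ℝ) ≤ B} := by
  classical
  let A := {α : MulAut G // ∀ x : G, x ∈ MulAction.stabilizer G i0 ↔
          α x ∈ MulAction.stabilizer G i0}
  let T := {ρ : Gam →* G // Function.Surjective ρ ∧ IsLocallyConstant ρ ∧
        (dabs (fld (ch2U i0 ρ)) : ℝ) ≤ B}
  let F : T → {M : IntermediateField ℚ Om // P M} := fun t => ⟨fld (ch2U i0 t.1),
    (hP _).2 ⟨Pool.Agent.H98.MK.fld_finite _ (ch2_open i0 t.1 t.2.2.1),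
      ch2_finrank htr i0 t.1 t.2.1 t.2.2.1, ch2_emb htr i0 t.1 t.2.1 t.2.2.1, t.2.2.2⟩⟩
  have hF : Function.Surjective F := by
    rintro ⟨M, hM⟩
    obtain ⟨hfd, hn, he, hd⟩ := (hP M).1 hM
    obtain ⟨e, he1, he2⟩ := z3_move htr i0 M he
    obtain ⟨ρ, hs, hl, hf⟩ := z3_exists i0 M hfd e he1 he2
    exact ⟨⟨ρ, hs, hl, by rw [hf]; exact hd⟩, Subtype.ext hf⟩
  choose R hR using hF
  have hU : ∀ (ρ : Gam →* G) (α : A),
      ch2U i0 ((α.1 : G ≃* G).toMonoidHom.comp ρ) = ch2U i0 ρ := by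
    intro ρ α
    ext σ
    exact (α.2 (ρ σ)).symm
  let tw : T → A → T := fun t α => ⟨(α.1 : G ≃* G).toMonoidHom.comp t.1,
    (α.1 : G ≃* G).surjective.comp t.2.1, t.2.2.1.comp _, by
      rw [hU]
      exact t.2.2.2⟩
  have hFtw : ∀ t α, F (tw t α) = F t := by
    intro t α
    apply Subtype.ext
    change fld (ch2U i0 ((α.1 : G ≃* G).toMonoidHom.comp t.1)) = fld (ch2U i0 t.1)
    rw [hU]
  let ψ : {M : IntermediateField ℚ Om // P M} × A → T := fun x => tw (R x.1) x.2
  have hψ : Function.Bijective ψ := by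
    constructor
    · rintro ⟨c, α⟩ ⟨c', α'⟩ h
      have h1 : F (tw (R c) α) = F (tw (R c') α') := congrArg F h
      rw [hFtw, hFtw, hR, hR] at h1
      subst h1
      have h2 : (tw (R c) α).1 = (tw (R c) α').1 := congrArg Subtype.val h
      have h3 : α = α' := by
        apply Subtype.ext
        apply MulEquiv.ext
        intro x
        obtain ⟨σ, rfl⟩ := (R c).2.1 x
        exact DFunLike.congr_fun h2 σ
      rw [h3]
    · intro t
      set s : T := R (F t) with hs
      have h1 : F s = F t := hR (F t)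
      have h1' : fld (ch2U i0 s.1) = fld (ch2U i0 t.1) := congrArg Subtype.val h1
      have h1'' : ch2U i0 s.1 = ch2U i0 t.1 := by
        rw [← Pool.Agent.H98.MK.fld_fixing _ (ch2_open i0 s.1 s.2.2.1), h1',
          Pool.Agent.H98.MK.fld_fixing _ (ch2_open i0 t.1 t.2.2.1)]
      have hk := ch2_ker htr i0 s.2.1 t.2.1 1 (fun σ => by
        rw [one_mul, inv_one, mul_one, h1''])
      let a : G ≃* G := (QuotientGroup.quotientKerEquivOfSurjective s.1 s.2.1).symm.trans
        ((QuotientGroup.quotientMulEquivOfEq hk).trans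
          (QuotientGroup.quotientKerEquivOfSurjective t.1 t.2.1))
      have ha : ∀ σ, a (s.1 σ) = t.1 σ := by
        intro σ
        have h2 : (QuotientGroup.quotientKerEquivOfSurjective s.1 s.2.1).symm (s.1 σ) =
            (QuotientGroup.mk σ : Gam ⧸ s.1.ker) := by
          rw [MulEquiv.symm_apply_eq]
          rfl
        change QuotientGroup.quotientKerEquivOfSurjective t.1 t.2.1
          (QuotientGroup.quotientMulEquivOfEq hk
            ((QuotientGroup.quotientKerEquivOfSurjective s.1 s.2.1).symm (s.1 σ))) = t.1 σ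
        rw [h2]
        rfl
      refine ⟨(F t, ⟨a, fun x => ?_⟩), ?_⟩
      · obtain ⟨σ, rfl⟩ := s.2.1 x
        rw [ha]
        change σ ∈ ch2U i0 s.1 ↔ σ ∈ ch2U i0 t.1
        rw [h1'']
      · apply Subtype.ext
        apply MonoidHom.ext
        intro σ
        exact ha σ
  have h1 := Nat.card_congr (Equiv.ofBijective ψ hψ)
  rw [Nat.card_prod] at h1
  exact h1

end

/-- the count of fields inside the algebraic closure (compare `count_homs2`) -/
theorem count_in (n : ℕ) (G : Subgroup (Equiv.Perm (Fin n)))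
    (htr : MulAction.IsPretransitive G (Fin n)) (i0 : Fin n) (X : ℝ) :
    NQ G X * Nat.card {α : MulAut G // ∀ x : G, x ∈ MulAction.stabilizer G i0 ↔
          α x ∈ MulAction.stabilizer G i0} =
      Nat.card {ρ : Gam →* G // Function.Surjective ρ ∧ IsLocallyConstant ρ ∧
        (dabs (fld ((MulAction.stabilizer G i0).comap ρ)) : ℝ) ≤ X} := by
  have hn : 0 < n := by
    have := i0.2
    omega
  unfold NQ
  rw [← Nat.card_coe_set_eq]
  refine z3_main htr i0 X (fun L : IntermediateField ℚ (AlgebraicClosure ℚ) =>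
    Module.finrank ℚ L = n ∧
    (∃ e : (L →ₐ[ℚ] AlgebraicClosure ℚ) ≃ Fin n, ∀ π : Equiv.Perm (Fin n),
      π ∈ G ↔ ∃ σ : AlgebraicClosure ℚ ≃ₐ[ℚ] AlgebraicClosure ℚ,
        ∀ φ : L →ₐ[ℚ] AlgebraicClosure ℚ, e (σ.toAlgHom.comp φ) = π (e φ)) ∧
    ∃ h : NumberField L, ((|@NumberField.discr L _ h| : ℤ) : ℝ) ≤ X) (fun M => ?_)
  have hd : ∀ hfd : FiniteDimensional ℚ M,
      (∃ h : NumberField M, ((|@NumberField.discr M _ h| : ℤ) : ℝ) ≤ X) ↔ (dabs M : ℝ) ≤ X := by
    intro hfd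
    have := Pool.Agent.H98.MK.cf_disc M hfd n X
    rw [Rat.numberField_discr, abs_one, Int.cast_one, one_pow, mul_one] at this
    exact this
  constructor
  · rintro ⟨h1, h2, h3⟩
    have hfd : FiniteDimensional ℚ M := Module.finite_of_finrank_pos (by rw [h1]; exact hn)
    exact ⟨hfd, h1, h2, (hd hfd).1 h3⟩
  · rintro ⟨hfd, h1, h2, h3⟩
    exact ⟨h1, h2, (hd hfd).2 h3⟩

end Pool.Agent.H32.MA
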