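import Pool.Agent.H32.MA.Z1
import Pool.Agent.H32.MA.Z3
import Pool.Agent.H32.MA.OStm

/-!
Project MA9 (MP_a9b340), row Z4: the count of fields in terms of cntX
-/

set_option autoImplicit false

open scoped BigOperators

namespace Pool.Agent.H32.MA

open Pool.Agent.H98.MK (Om Gam dabs fld)

/-- the isomorphism of the semidihedral group with `T8` -/
private noncomputable def z4e : SD ≃* T8 :=
  (MonoidHom.ofInjective prm_inj).trans (MulEquiv.subgroupCongr prm_range)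

private theorem z4e_coe (g : SD) : ((z4e g : T8) : Equiv.Perm (Fin 8)) = prm g := rfl

private theorem z4_stab (g : SD) :
    z4e g ∈ MulAction.stabilizer T8 (0 : Fin 8) ↔ g ∈ SD.H0 := by
  rw [MulAction.mem_stabilizer_iff, ← prm_stab]
  exact Iff.rfl

private theorem z4_comap (ρ : Gam →* SD) :
    (MulAction.stabilizer T8 (0 : Fin 8)).comap (z4e.toMonoidHom.comp ρ) = SD.H0.comap ρ := by
  ext σ
  rw [Subgroup.mem_comap, Subgroup.mem_comap]
  exact z4_stab (ρ σ)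

/-- homomorphisms to `SD` and to `T8` -/
private noncomputable def z4E (X : ℝ) :
    {ρ : Gam →* SD | ρ ∈ Hs ∧ (dsc ρ : ℝ) ≤ X} ≃
      {ρ : Gam →* T8 // Function.Surjective ρ ∧ IsLocallyConstant ρ ∧
        (dabs (fld ((MulAction.stabilizer T8 (0 : Fin 8)).comap ρ)) : ℝ) ≤ X} where
  toFun ρ := ⟨z4e.toMonoidHom.comp ρ.1, by
    obtain ⟨ρ, ⟨h1, h2⟩, h3⟩ := ρ
    refine ⟨z4e.surjective.comp h1, h2.comp z4e, ?_⟩
    rw [z4_comap]
    exact h3⟩
  invFun ρ := ⟨z4e.symm.toMonoidHom.comp ρ.1, by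
    obtain ⟨ρ, h1, h2, h3⟩ := ρ
    refine ⟨⟨z4e.symm.surjective.comp h1, h2.comp z4e.symm⟩, ?_⟩
    have h4 : z4e.toMonoidHom.comp (z4e.symm.toMonoidHom.comp ρ) = ρ := by
      ext σ : 1
      exact z4e.apply_symm_apply (ρ σ)
    have h5 := z4_comap (z4e.symm.toMonoidHom.comp ρ)
    rw [h4] at h5
    show (dabs (fld (SD.H0.comap (z4e.symm.toMonoidHom.comp ρ))) : ℝ) ≤ X
    rw [← h5]
    exact h3⟩
  left_inv ρ := by
    apply Subtype.ext
    ext σ : 1
    exact z4e.symm_apply_apply (ρ.1 σ)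
  right_inv ρ := by
    apply Subtype.ext
    ext σ : 1
    exact z4e.apply_symm_apply (ρ.1 σ)

theorem NQ_cntX : ∃ κ : ℝ, 0 < κ ∧ ∀ X : ℝ, (NQ T8 X : ℝ) = κ * cntX X := by
  set A : ℕ := Nat.card {α : MulAut T8 // ∀ x : T8, x ∈ MulAction.stabilizer T8 (0 : Fin 8) ↔
    α x ∈ MulAction.stabilizer T8 (0 : Fin 8)} with hA
  have hfin : Finite {α : MulAut T8 // ∀ x : T8, x ∈ MulAction.stabilizer T8 (0 : Fin 8) ↔
      α x ∈ MulAction.stabilizer T8 (0 : Fin 8)} := by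
    have h1 : Finite (MulAut T8) :=
      Finite.of_injective (fun α : MulAut T8 => (α : T8 → T8)) DFunLike.coe_injective
    exact Subtype.finite
  have hne : Nonempty {α : MulAut T8 // ∀ x : T8, x ∈ MulAction.stabilizer T8 (0 : Fin 8) ↔
      α x ∈ MulAction.stabilizer T8 (0 : Fin 8)} := ⟨⟨1, fun x => Iff.rfl⟩⟩
  have hpos : 0 < A := by
    rw [hA]
    exact Nat.card_pos
  have hposR : (0 : ℝ) < A := by exact_mod_cast hpos
  refine ⟨1 / A, by positivity, fun X => ?_⟩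
  have h1 := count_in 8 T8 T8_trans 0 X
  rw [← hA, ← Nat.card_congr (z4E X)] at h1
  have h2 : Nat.card {ρ : Gam →* SD | ρ ∈ Hs ∧ (dsc ρ : ℝ) ≤ X} = cntX X := rfl
  rw [h2] at h1
  have h3 : (NQ T8 X : ℝ) * A = cntX X := by exact_mod_cast h1
  rw [← h3]
  field_simp

end Pool.Agent.H32.MA
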