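import Pool.Agent.H32.MA.Z2
import Pool.Agent.H32.MA.Z4

/-!
# Project MA9 (MP_a9b340), row Z5: Malle for 8T8 from the count of homomorphisms
-/

set_option autoImplicit false

open scoped BigOperators

namespace Pool.Agent.H32.MA

open Pool.Agent.H98.MK (Om Gam dabs fld)

theorem malle_of (h : StmCntX) : MalleQ T8 := by
  obtain ⟨c, hc, hlim⟩ := h
  obtain ⟨κ, hκ, hN⟩ := NQ_cntX
  refine ⟨κ * c, mul_pos hκ hc, (hlim.const_mul κ).congr (fun X => ?_)⟩
  rw [hN X, mInd_T8, bM_T8, Nat.sub_self, pow_zero, mul_one, mul_div_assoc]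
  norm_num

end Pool.Agent.H32.MA
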