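import Pool.Agent.H32.MA.AnFinal
import Pool.Agent.H32.MA.AFinal
import Pool.Agent.H32.MA.O4
import Pool.Agent.H32.MA.Z5

/-!
# Project MA9 (MP_a9b340): Malle's conjecture for the rationals and 8T8
-/

set_option autoImplicit false

namespace Pool.Agent.H32.MA

theorem stm_cntX : StmCntX :=
  cntX_of A.par A.uni A.fin stm_U stm_L A.alg A.one A.ex

/-- Malle's conjecture for the rationals and `8T8` -/
theorem malle_T8 : MalleQ T8 := malle_of stm_cntX

end Pool.Agent.H32.MA
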