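import Pool.Agent.H32.MA.LDefs
import Pool.Agent.LX.DivBound

/-!
# Project MA9, block L: products of elements and coefficients of powers
-/

set_option autoImplicit false

open scoped BigOperators

namespace Pool.Agent.H32.MA

theorem nD_mul (d : ℕ) (x y : ℤ × ℤ) : nD d (mD d x y) = nD d x * nD d y := by
  unfold nD mD
  ring

theorem nD_ne_zero {d : ℕ} (hd : ¬ IsSquare d) {x : ℤ × ℤ} (hx : x ≠ (0, 0)) : nD d x ≠ 0 := by
  intro h
  unfold nD at h
  have h1 : x.1 ^ 2 = d * x.2 ^ 2 := by linarith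
  have h2 : x.1.natAbs ^ 2 = d * x.2.natAbs ^ 2 := by
    zify
    rw [sq_abs, sq_abs]
    exact h1
  by_cases h0 : x.2.natAbs = 0
  · rw [h0] at h2
    have h3 : x.1.natAbs = 0 := by
      have : x.1.natAbs ^ 2 = 0 := by rw [h2]; ring
      exact pow_eq_zero_iff two_ne_zero |>.1 this
    apply hx
    exact Prod.ext (Int.natAbs_eq_zero.1 h3) (Int.natAbs_eq_zero.1 h0)
  · have h3 : x.2.natAbs ∣ x.1.natAbs := by
      rw [← Nat.pow_dvd_pow_iff two_ne_zero, h2]
      exact Dvd.intro_left _ rfl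
    obtain ⟨c, hc⟩ := h3
    apply hd
    refine ⟨c, ?_⟩
    have h4 : x.2.natAbs ^ 2 * d = x.2.natAbs ^ 2 * (c * c) := by
      rw [mul_comm, ← h2, hc]
      ring
    exact Nat.eq_of_mul_eq_mul_left (by positivity) h4

theorem mD_ne_zero {d : ℕ} (hd : ¬ IsSquare d) {x y : ℤ × ℤ} (hx : x ≠ (0, 0))
    (hy : y ≠ (0, 0)) : mD d x y ≠ (0, 0) := by
  intro h
  have h1 := nD_mul d x y
  rw [h] at h1
  have h2 : nD d (0, 0) = 0 := by
    unfold nD
    ring
  rw [h2] at h1
  rcases mul_eq_zero.1 h1.symm with h3 | h3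
  · exact nD_ne_zero hd hx h3
  · exact nD_ne_zero hd hy h3

theorem mD_inj {d : ℕ} (hd : ¬ IsSquare d) {x y z : ℤ × ℤ} (hx : x ≠ (0, 0))
    (h : mD d x y = mD d x z) : y = z := by
  have h1 : ∀ w : ℤ × ℤ, mD d (x.1, -x.2) (mD d x w) = (nD d x * w.1, nD d x * w.2) := by
    intro w
    unfold nD mD
    apply Prod.ext
    · show x.1 * (x.1 * w.1 + d * (x.2 * w.2)) + d * (-x.2 * (x.1 * w.2 + x.2 * w.1)) = _
      ring
    · show x.1 * (x.1 * w.2 + x.2 * w.1) + -x.2 * (x.1 * w.1 + d * (x.2 * w.2)) = _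
      ring
  have h2 := h1 y
  rw [h, h1 z, Prod.mk.injEq] at h2
  have hn := nD_ne_zero hd hx
  exact Prod.ext (mul_left_cancel₀ hn h2.1).symm (mul_left_cancel₀ hn h2.2).symm

theorem KK_mul {d : ℕ} {i : ℕ × ℕ} (hi : Pr d i) (x y : ℤ × ℤ) :
    KK i (mD d x y) = KK i x * KK i y := by
  have h1 : jacobiSym ((mD d x y).1 - (mD d x y).2 * i.2) i.1 =
      jacobiSym (x.1 - x.2 * i.2) i.1 * jacobiSym (y.1 - y.2 * i.2) i.1 := by
    rw [← jacobiSym.mul_left]
    apply jacobiSym.mod_left'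
    apply Int.ModEq.eq
    apply Int.ModEq.symm
    rw [Int.modEq_iff_dvd]
    obtain ⟨c, hc⟩ := hi.root
    refine ⟨- (x.2 * y.2 * c), ?_⟩
    unfold mD
    linear_combination (- (x.2 * y.2)) * hc
  have h2 : jacobiSym ((mD d x y).1 + (mD d x y).2 * i.2) i.1 =
      jacobiSym (x.1 + x.2 * i.2) i.1 * jacobiSym (y.1 + y.2 * i.2) i.1 := by
    rw [← jacobiSym.mul_left]
    apply jacobiSym.mod_left'
    apply Int.ModEq.eq
    apply Int.ModEq.symm
    rw [Int.modEq_iff_dvd]
    obtain ⟨c, hc⟩ := hi.root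
    refine ⟨- (x.2 * y.2 * c), ?_⟩
    unfold mD
    linear_combination (- (x.2 * y.2)) * hc
  unfold KK
  rw [h1, h2]
  ring

theorem KK_one (i : ℕ × ℕ) : KK i (1, 0) = 1 := by
  unfold KK
  simp

theorem abs_KK_le (i : ℕ × ℕ) (x : ℤ × ℤ) : |(KK i x : ℝ)| ≤ 1 := by
  have h : ∀ a : ℤ, ∀ n : ℕ, jacobiSym a n = 0 ∨ jacobiSym a n = 1 ∨ jacobiSym a n = -1 :=
    fun a n => jacobiSym.trichotomy a n
  unfold KK
  rcases h (x.1 - x.2 * i.2) i.1 with h1 | h1 | h1 <;>
    rcases h (x.1 + x.2 * i.2) i.1 with h2 | h2 | h2 <;> rw [h1, h2] <;> norm_num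

theorem mem_bx {R : ℕ} {x : ℤ × ℤ} : x ∈ bx R ↔ |x.1| ≤ R ∧ |x.2| ≤ R := by
  unfold bx
  rw [Finset.mem_product, Finset.mem_Icc, Finset.mem_Icc, abs_le, abs_le]

theorem card_bx (R : ℕ) : (bx R).card = (2 * R + 1) ^ 2 := by
  unfold bx
  rw [Finset.card_product, Int.card_Icc]
  have h : ((R : ℤ) + 1 - -(R : ℤ)).toNat = 2 * R + 1 := by omega
  rw [h]
  ring

/-- coefficients of the `k`-th power -/
noncomputable def cf (d : ℕ) (J : Finset (ℤ × ℤ)) (b : ℤ × ℤ → ℝ) (R : ℕ) : ℕ → ℤ × ℤ → ℝ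
  | 0 => fun x => if x = (1, 0) then 1 else 0
  | k + 1 => fun y => ∑ x ∈ J, ∑ g ∈ bx (((1 + d) * R) ^ k),
      if mD d x g = y then b x * cf d J b R k g else 0

/-- the divisor function of the norm -/
noncomputable def tD (d : ℕ) (x : ℤ × ℤ) : ℝ := ((nD d x).natAbs.divisors.card : ℝ)

section

variable {d : ℕ} {J : Finset (ℤ × ℤ)} {b : ℤ × ℤ → ℝ} {R : ℕ}

theorem mD_mem_bx {d : ℕ} (hd : 1 ≤ d) {R S : ℕ} {x y : ℤ × ℤ} (hx : x ∈ bx R) (hy : y ∈ bx S) :
    mD d x y ∈ bx ((1 + d) * R * S) := by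
  rw [mem_bx] at hx hy ⊢
  have hd' : (1 : ℤ) ≤ d := by exact_mod_cast hd
  have hR : (0 : ℤ) ≤ R := by positivity
  have hS : (0 : ℤ) ≤ S := by positivity
  have h11 : |x.1 * y.1| ≤ R * S := by
    rw [abs_mul]
    exact mul_le_mul hx.1 hy.1 (abs_nonneg _) hR
  have h22 : |x.2 * y.2| ≤ R * S := by
    rw [abs_mul]
    exact mul_le_mul hx.2 hy.2 (abs_nonneg _) hR
  have h12 : |x.1 * y.2| ≤ R * S := by
    rw [abs_mul]
    exact mul_le_mul hx.1 hy.2 (abs_nonneg _) hR
  have h21 : |x.2 * y.1| ≤ R * S := by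
    rw [abs_mul]
    exact mul_le_mul hx.2 hy.1 (abs_nonneg _) hR
  have hRS : (0 : ℤ) ≤ R * S := mul_nonneg hR hS
  unfold mD
  push_cast
  constructor
  · refine (abs_add_le _ _).trans ?_
    have h3 : |(d : ℤ) * (x.2 * y.2)| ≤ d * (R * S) := by
      rw [abs_mul, abs_of_nonneg (by linarith : (0 : ℤ) ≤ d)]
      exact mul_le_mul_of_nonneg_left h22 (by linarith)
    calc _ ≤ (R : ℤ) * S + d * (R * S) := add_le_add h11 h3
      _ = (1 + d) * R * S := by ring
  · refine (abs_add_le _ _).trans ?_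
    calc _ ≤ (R : ℤ) * S + R * S := add_le_add h12 h21
      _ ≤ (1 + d) * R * S := by nlinarith

/-- powers of the linear form -/
theorem cf_pow (hd : 1 ≤ d) {i : ℕ × ℕ} (hi : Pr d i) (hJ : J ⊆ bx R) (k : ℕ) :
    (∑ x ∈ J, b x * KK i x) ^ k = ∑ y ∈ bx (((1 + d) * R) ^ k), cf d J b R k y * KK i y := by
  classical
  induction k with
  | zero =>
    rw [pow_zero, pow_zero]
    have h1 : (1, 0) ∈ bx 1 := by
      rw [mem_bx]
      norm_num
    rw [Finset.sum_eq_single (1, 0)]
    · show (1 : ℝ) = (if ((1, 0) : ℤ × ℤ) = (1, 0) then 1 else 0) * _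
      rw [if_pos rfl, KK_one]
      norm_num
    · intro y _ hy
      show (if y = (1, 0) then (1 : ℝ) else 0) * _ = 0
      rw [if_neg hy, zero_mul]
    · intro h
      exact absurd h1 h
  | succ k ih =>
    rw [pow_succ, ih, mul_comm, Finset.sum_mul_sum]
    have h1 : ∀ y ∈ bx (((1 + d) * R) ^ (k + 1)), cf d J b R (k + 1) y * KK i y =
        ∑ x ∈ J, ∑ g ∈ bx (((1 + d) * R) ^ k),
          if mD d x g = y then b x * cf d J b R k g * KK i y else 0 := by
      intro y _
      show (∑ x ∈ J, ∑ g ∈ bx (((1 + d) * R) ^ k),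
        if mD d x g = y then b x * cf d J b R k g else 0) * _ = _
      rw [Finset.sum_mul]
      refine Finset.sum_congr rfl fun x _ => ?_
      rw [Finset.sum_mul]
      refine Finset.sum_congr rfl fun g _ => ?_
      rw [ite_mul, zero_mul]
    rw [Finset.sum_congr rfl h1]
    conv_rhs => rw [Finset.sum_comm]
    refine Finset.sum_congr rfl fun x hx => ?_
    conv_rhs => rw [Finset.sum_comm]
    refine Finset.sum_congr rfl fun g hg => ?_
    rw [Finset.sum_ite_eq, if_pos, KK_mul hi]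
    · push_cast
      ring
    · have := mD_mem_bx hd (hJ hx) hg
      rwa [← pow_succ'] at this

theorem sum_abs_cf (hb : ∀ x, |b x| ≤ 1) (k : ℕ) :
    ∑ y ∈ bx (((1 + d) * R) ^ k), |cf d J b R k y| ≤ (J.card : ℝ) ^ k := by
  classical
  induction k with
  | zero =>
    rw [pow_zero, pow_zero]
    rw [Finset.sum_eq_single (1, 0)]
    · show |(if ((1, 0) : ℤ × ℤ) = (1, 0) then (1 : ℝ) else 0)| ≤ 1
      rw [if_pos rfl, abs_one]
    · intro y _ hy
      show |(if y = (1, 0) then (1 : ℝ) else 0)| = 0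
      rw [if_neg hy, abs_zero]
    · intro h
      exfalso
      apply h
      rw [mem_bx]
      norm_num
  | succ k ih =>
    have h1 : ∀ y ∈ bx (((1 + d) * R) ^ (k + 1)), |cf d J b R (k + 1) y| ≤
        ∑ x ∈ J, ∑ g ∈ bx (((1 + d) * R) ^ k),
          if mD d x g = y then |cf d J b R k g| else 0 := by
      intro y _
      show |∑ x ∈ J, ∑ g ∈ bx (((1 + d) * R) ^ k),
        if mD d x g = y then b x * cf d J b R k g else 0| ≤ _
      refine (Finset.abs_sum_le_sum_abs _ _).trans (Finset.sum_le_sum fun x _ => ?_)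
      refine (Finset.abs_sum_le_sum_abs _ _).trans (Finset.sum_le_sum fun g _ => ?_)
      split_ifs
      · rw [abs_mul]
        exact mul_le_of_le_one_left (abs_nonneg _) (hb x)
      · rw [abs_zero]
    refine (Finset.sum_le_sum h1).trans ?_
    rw [Finset.sum_comm]
    have h2 : ∀ x ∈ J, ∑ y ∈ bx (((1 + d) * R) ^ (k + 1)), ∑ g ∈ bx (((1 + d) * R) ^ k),
        (if mD d x g = y then |cf d J b R k g| else 0) ≤ (J.card : ℝ) ^ k := by
      intro x _
      rw [Finset.sum_comm]
      refine (Finset.sum_le_sum fun g _ => ?_).trans ih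
      rw [Finset.sum_ite_eq]
      split_ifs
      · exact le_rfl
      · exact abs_nonneg _
    refine (Finset.sum_le_sum h2).trans ?_
    rw [Finset.sum_const, nsmul_eq_mul, pow_succ']

theorem tD_nonneg (x : ℤ × ℤ) : 0 ≤ tD d x := Nat.cast_nonneg _

/-- the number of elements whose norm divides a given norm -/
theorem card_dvd (hn : ∀ n : ℕ, 1 ≤ n →
    (J.filter fun x => (nD d x).natAbs = n).card ≤ n.divisors.card) {y : ℤ × ℤ}
    (hy : nD d y ≠ 0) :
    ((J.filter fun x => nD d x ∣ nD d y).card : ℝ) ≤ tD d y ^ 2 := by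
  classical
  set m := (nD d y).natAbs with hm
  have hm0 : m ≠ 0 := by
    rw [hm]
    exact Int.natAbs_ne_zero.2 hy
  have h1 : (J.filter fun x => nD d x ∣ nD d y) ⊆
      m.divisors.biUnion fun n => J.filter fun x => (nD d x).natAbs = n := by
    intro x hx
    rw [Finset.mem_filter] at hx
    rw [Finset.mem_biUnion]
    exact ⟨(nD d x).natAbs, Nat.mem_divisors.2 ⟨Int.natAbs_dvd_natAbs.2 hx.2, hm0⟩,
      Finset.mem_filter.2 ⟨hx.1, rfl⟩⟩
  have h2 : (J.filter fun x => nD d x ∣ nD d y).card ≤ m.divisors.card * m.divisors.card := by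
    refine (Finset.card_le_card h1).trans (Finset.card_biUnion_le.trans ?_)
    refine (Finset.sum_le_sum (g := fun _ => m.divisors.card) fun n hnm => ?_).trans ?_
    · have h3 := Nat.mem_divisors.1 hnm
      refine (hn n (Nat.pos_of_ne_zero ?_)).trans
        (Finset.card_le_card (Nat.divisors_subset_of_dvd hm0 h3.1))
      rintro rfl
      exact hm0 (Nat.eq_zero_of_zero_dvd h3.1)
    · rw [Finset.sum_const, smul_eq_mul]
  unfold tD
  rw [← hm, pow_two]
  exact_mod_cast h2

theorem tD_mono {x y : ℤ × ℤ} (hy : nD d y ≠ 0) (h : nD d x ∣ nD d y) : tD d x ≤ tD d y := by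
  unfold tD
  have := Finset.card_le_card (Nat.divisors_subset_of_dvd (Int.natAbs_ne_zero.2 hy)
    (Int.natAbs_dvd_natAbs.2 h))
  exact_mod_cast this

theorem one_le_tD {y : ℤ × ℤ} (hy : nD d y ≠ 0) : 1 ≤ tD d y := by
  unfold tD
  have : 1 ≤ (nD d y).natAbs.divisors.card :=
    Finset.card_pos.2 ⟨1, Nat.mem_divisors.2 ⟨one_dvd _, Int.natAbs_ne_zero.2 hy⟩⟩
  exact_mod_cast this

/-- the multiplicities -/
theorem abs_cf_le (hd : ¬ IsSquare d) (hb : ∀ x, |b x| ≤ 1) (hJ0 : (0, 0) ∉ J)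
    (hn : ∀ n : ℕ, 1 ≤ n →
      (J.filter fun x => (nD d x).natAbs = n).card ≤ n.divisors.card) (k : ℕ) :
    ∀ y : ℤ × ℤ, (y = (0, 0) → cf d J b R k y = 0) ∧
      (y ≠ (0, 0) → |cf d J b R k y| ≤ tD d y ^ (2 * k)) := by
  classical
  induction k with
  | zero =>
    intro y
    constructor
    · rintro rfl
      show (if ((0, 0) : ℤ × ℤ) = (1, 0) then (1 : ℝ) else 0) = 0
      rw [if_neg]
      intro h
      rw [Prod.mk.injEq] at h
      exact zero_ne_one h.1
    · intro _
      rw [mul_zero, pow_zero]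
      show |(if y = (1, 0) then (1 : ℝ) else 0)| ≤ 1
      split_ifs <;> norm_num
  | succ k ih =>
    intro y
    constructor
    · rintro rfl
      show (∑ x ∈ J, ∑ g ∈ bx (((1 + d) * R) ^ k),
        if mD d x g = (0, 0) then b x * cf d J b R k g else 0) = 0
      refine Finset.sum_eq_zero fun x hx => Finset.sum_eq_zero fun g _ => ?_
      split_ifs with h
      · by_cases hg : g = (0, 0)
        · rw [(ih g).1 hg, mul_zero]
        · exact absurd h (mD_ne_zero hd (fun h0 => hJ0 (h0 ▸ hx)) hg)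
      · rfl
    · intro hy
      have hny := nD_ne_zero hd hy
      have h1 : |cf d J b R (k + 1) y| ≤ ∑ x ∈ J.filter (fun x => nD d x ∣ nD d y),
          tD d y ^ (2 * k) := by
        show |∑ x ∈ J, ∑ g ∈ bx (((1 + d) * R) ^ k),
          if mD d x g = y then b x * cf d J b R k g else 0| ≤ _
        rw [Finset.sum_filter]
        refine (Finset.abs_sum_le_sum_abs _ _).trans (Finset.sum_le_sum fun x hx => ?_)
        have hx0 : x ≠ (0, 0) := fun h0 => hJ0 (h0 ▸ hx)
        by_cases hex : ∃ g ∈ bx (((1 + d) * R) ^ k), mD d x g = y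
        · obtain ⟨g, hg, hgy⟩ := hex
          rw [Finset.sum_eq_single g]
          · rw [if_pos hgy, if_pos (Dvd.intro _ (by rw [← hgy, nD_mul])), abs_mul]
            have hg0 : g ≠ (0, 0) := by
              rintro rfl
              apply hy
              rw [← hgy]
              unfold mD
              simp
            refine (mul_le_of_le_one_left (abs_nonneg _) (hb x)).trans
              (((ih g).2 hg0).trans ?_)
            refine pow_le_pow_left₀ (tD_nonneg g) (tD_mono hny ?_) _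
            exact Dvd.intro_left (nD d x) (by rw [← hgy, nD_mul])
          · intro g' _ hne
            rw [if_neg]
            intro h2
            exact hne (mD_inj hd hx0 (h2.trans hgy.symm))
          · intro h2
            exact absurd hg h2
        · rw [Finset.sum_eq_zero, abs_zero]
          · split_ifs
            · exact pow_nonneg (tD_nonneg y) _
            · exact le_rfl
          · intro g hg
            rw [if_neg]
            intro h2
            exact hex ⟨g, hg, h2⟩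
      refine h1.trans ?_
      rw [Finset.sum_const, nsmul_eq_mul]
      calc _ ≤ tD d y ^ 2 * tD d y ^ (2 * k) :=
            mul_le_mul_of_nonneg_right (card_dvd hn hny) (pow_nonneg (tD_nonneg y) _)
        _ = tD d y ^ (2 * (k + 1)) := by ring

end

end Pool.Agent.H32.MA
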