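import Pool.Agent.H32.MA.LBil
import Pool.Agent.H32.MA.LCnt
import Pool.Agent.H32.MA.LSieve
import Pool.Agent.H32.MA.LComp

/-!
# Project MA9, block L: the results without hypotheses
-/

set_option autoImplicit false

namespace Pool.Agent.H32.MA

/-- the large sieve -/
theorem lsSt : LSSt := ls_of comp_of

/-- the bilinear bound (6.6) -/
theorem bilSt : BilSt := bil_of (ls_of comp_of) (ld_of comp_of) cnt_of

end Pool.Agent.H32.MA
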