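import Pool.Agent.H32.MA.OStm

/-!
# Project MA9 (MP_a9b340), row O1: the count as a sum over the outer parameters
-/

set_option autoImplicit false

open scoped BigOperators
open NumberField IsDedekindDomain

namespace Pool.Agent.H32.MA

open Pool.Agent.H98.MK (Om Gam)

/-- the outer size is positive -/
private theorem o1_sz_pos (o : Out) (h : WfO o) : 0 < o.sz := by
  have ht : 0 < o.t := by
    rcases Nat.eq_zero_or_pos o.t with h0 | h0
    · exact absurd (by rw [h0, Nat.mul_zero]) h.sqt.ne_zero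
    · exact h0
  have hw : 0 < o.w := by
    rcases Nat.eq_zero_or_pos o.w with h0 | h0
    · exact absurd (by rw [h0, Nat.mul_zero]) h.sqw.ne_zero
    · exact h0
  have hd : 0 < o.d := lt_trans Nat.zero_lt_one h.ltd
  have hd1 : 0 < o.d1 := Nat.pos_of_dvd_of_pos h.d1 hd
  have hg : Nat.gcd o.d 2 ∣ o.d := Nat.gcd_dvd_left _ _
  have hgp : 0 < Nat.gcd o.d 2 := Nat.gcd_pos_of_pos_left _ hd
  have hcop : Nat.Coprime (Nat.gcd o.d 2) o.d1 := by
    refine Nat.Coprime.coprime_dvd_left (Nat.gcd_dvd_right _ _) ?_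
    exact (Nat.coprime_two_left).2 h.odd
  have hdv : Nat.gcd o.d 2 * o.d1 ∣ o.d := hcop.mul_dvd_of_dvd_of_dvd hg h.d1
  have hd0 : 0 < o.d0 := by
    unfold Out.d0
    rw [Nat.div_div_eq_div_mul]
    exact Nat.div_pos (Nat.le_of_dvd hd hdv) (Nat.mul_pos hgp hd1)
  unfold Out.sz
  positivity

/-- the sum over the outer parameters -/
theorem cnt_sum (h1 : StmPar) (h2 : StmUni) (h3 : StmFin) (X : ℝ) (hX : 0 < X)
    (hfin : {ρ : Gam →* SD | ρ ∈ Hs ∧ (dsc ρ : ℝ) ≤ X}.Finite) :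
    (cntX X : ℝ) = ∑' o : {o : Out // WfO o}, (AO o.1 0 ((X / o.1.sz) ^ (1 / 3 : ℝ)) : ℝ) := by
  classical
  have hne : Nonempty {o : Out // WfO o} := by
    refine ⟨⟨⟨2, 1, 1, 1, 0⟩, ?_⟩⟩
    refine ⟨Nat.squarefree_two, by norm_num, ?_, ?_, ?_, ?_⟩
    · show Squarefree (2 * 1)
      exact Nat.squarefree_two
    · show Squarefree (2 * 1)
      exact Nat.squarefree_two
    · exact one_dvd _
    · exact odd_one
  obtain ⟨φ, hφ⟩ : ∃ φ : (Gam →* SD) → {o : Out // WfO o}, ∀ ρ ∈ Hs,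
      HasO (φ ρ).1 ρ ∧ 1 ≤ pcl SD.clC ρ ∧ dsc ρ = pcl SD.clC ρ ^ 3 * (φ ρ).1.sz := by
    refine ⟨fun ρ => if h : ρ ∈ Hs then ⟨(h1 ρ h).choose, (h1 ρ h).choose_spec.1⟩
      else hne.some, fun ρ hρ => ?_⟩
    simp only [dif_pos hρ]
    exact (h1 ρ hρ).choose_spec.2
  have key : ∀ o : {o : Out // WfO o}, AO o.1 0 ((X / o.1.sz) ^ (1 / 3 : ℝ))
      = (hfin.toFinset.filter (fun ρ => φ ρ = o)).card := by
    intro o
    unfold AO
    rw [← Set.ncard_coe_finset]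
    congr 1
    ext ρ
    simp only [Set.mem_setOf_eq, Finset.coe_filter, Set.Finite.mem_toFinset]
    have hsz : (0 : ℝ) < (o.1.sz : ℝ) := by exact_mod_cast o1_sz_pos o.1 o.2
    have hiff : ∀ N : ℕ, ((N : ℝ) ≤ (X / o.1.sz) ^ (1 / 3 : ℝ)) ↔
        (((N ^ 3 * o.1.sz : ℕ)) : ℝ) ≤ X := by
      intro N
      have hq : 0 ≤ X / (o.1.sz : ℝ) := (div_pos hX hsz).le
      have e3 : ((X / o.1.sz) ^ (1 / 3 : ℝ)) ^ (3 : ℕ) = X / o.1.sz := by
        rw [← Real.rpow_natCast, ← Real.rpow_mul hq]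
        norm_num
      have e4 : ((N : ℝ) ≤ (X / o.1.sz) ^ (1 / 3 : ℝ)) ↔
          ((N : ℝ) ^ 3 ≤ ((X / o.1.sz) ^ (1 / 3 : ℝ)) ^ (3 : ℕ)) := by
        constructor
        · intro h
          exact pow_le_pow_left₀ (Nat.cast_nonneg N) h 3
        · intro h
          exact le_of_pow_le_pow_left₀ (by norm_num) (Real.rpow_nonneg hq _) h
      rw [e4, e3, le_div_iff₀ hsz]
      push_cast
      rfl
    constructor
    · rintro ⟨hH, hO, hN, hle⟩
      obtain ⟨hO', _, hd⟩ := hφ ρ hH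
      have he : (φ ρ).1 = o.1 := h2 ρ _ _ (φ ρ).2 o.2 hO' hO
      refine ⟨⟨hH, ?_⟩, Subtype.ext he⟩
      rw [hd, he]
      exact (hiff _).1 hle
    · rintro ⟨⟨hH, hX'⟩, he⟩
      obtain ⟨hO', hN, hd⟩ := hφ ρ hH
      rw [he] at hO' hd
      refine ⟨hH, hO', by omega, ?_⟩
      rw [hiff, ← hd]
      exact hX'
  have h0 : cntX X = hfin.toFinset.card := by
    unfold cntX
    exact Set.ncard_eq_toFinset_card _ hfin
  rw [h0, Finset.card_eq_sum_card_image φ hfin.toFinset]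
  simp only [key]
  rw [tsum_eq_sum (s := hfin.toFinset.image φ)]
  · push_cast
    rfl
  · intro o ho
    have h5 : hfin.toFinset.filter (fun ρ => φ ρ = o) = ∅ := by
      rw [Finset.filter_eq_empty_iff]
      intro ρ hρ he
      exact ho (Finset.mem_image.2 ⟨ρ, hρ, he⟩)
    rw [h5]
    simp

end Pool.Agent.H32.MA
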