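import Pool.Agent.H32.MA.TStm
import Pool.Agent.H32.MA.RStm
import Pool.Agent.H98.MF.NDefs

/-!
# Project MA9 (MP_a9b340), block SN: the sums with fixed `e` (definitions)
-/

set_option autoImplicit false

open scoped BigOperators nonZeroDivisors
open NumberField IsDedekindDomain

namespace Pool.Agent.H32.MA.SN

open Pool.Agent.H98.MF (ord IdLe PER)
open Pool.Agent.H32.MA

variable {K : Type} [Field K] [NumberField K]

/-- the product of the primes of a finite set -/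
noncomputable def idS (f : Finset (HeightOneSpectrum (𝓞 K))) : Ideal (𝓞 K) := ∏ P ∈ f, P.asIdeal

/-- the exponent of a prime in an ideal -/
noncomputable def vI (P : HeightOneSpectrum (𝓞 K)) (I : Ideal (𝓞 K)) : ℤ :=
  FractionalIdeal.count K P (I : FractionalIdeal (𝓞 K)⁰ K)

/-- prime to `m` -/
def Cop (m : ℕ) (I : Ideal (𝓞 K)) : Prop :=
  ∀ P : HeightOneSpectrum (𝓞 K), 1 ≤ ord P (m : K) → ¬ I ≤ P.asIdeal

/-- good ideals -/
structure GoodId (m : ℕ) (I : Ideal (𝓞 K)) : Prop where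
  ne : I ≠ ⊥
  cop : Cop m I
  sq : ∀ P : HeightOneSpectrum (𝓞 K), ¬ I ≤ P.asIdeal ^ 2
  rat : ∀ p : ℕ, p.Prime → ¬ p ∣ m → ¬ I ≤ Ideal.span {(p : 𝓞 K)}

/-- mean value `A` with independence of divisibility by ideals prime to `m` -/
structure Den (m : ℕ) (G : Ideal (𝓞 K) → ℝ) (A : ℝ) : Prop where
  bdd : ∃ C : ℝ, ∀ I, |G I| ≤ C
  supp : ∀ I, ¬ Cop m I → G I = 0
  lim : ∀ D : Ideal (𝓞 K), D ≠ ⊥ → Cop m D →
    Filter.Tendsto (fun X : ℝ => (∑ᶠ I ∈ {I ∈ IdLe K X | D ∣ I}, G I) / X) Filter.atTop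
      (nhds (A / Ideal.absNorm D))

open Classical in
/-- the classes with given parities -/
noncomputable def BI (m : ℕ) (e : Finset (HeightOneSpectrum (𝓞 K))) (I : Ideal (𝓞 K)) :
    Set (SqC K) :=
  {q | ∀ P : HeightOneSpectrum (𝓞 K), ¬ 1 ≤ ord P (m : K) →
    ((ord P (rp q) : ℤ) : ZMod 2) = (if P ∈ e then 1 else 0) + ((vI P I : ℤ) : ZMod 2)}

/-- the inner sum for an ideal -/
noncomputable def HI (F : QF K) (m : ℕ) (Ψ : K → ℝ) (e : Finset (HeightOneSpectrum (𝓞 K)))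
    (I : Ideal (𝓞 K)) : ℝ :=
  ∑ᶠ q ∈ BI m e I, Ψ (rp q) * (chS e (F.cj (rp q)) : ℝ)

open Classical in
/-- the inner sum, supported on ideals prime to `m` and `e` -/
noncomputable def GI (F : QF K) (m : ℕ) (Ψ : K → ℝ) (e : Finset (HeightOneSpectrum (𝓞 K)))
    (I : Ideal (𝓞 K)) : ℝ :=
  if Cop (m * nS e) I ∧ I ≠ ⊥ then HI F m Ψ e I else 0

open Classical in
/-- the indicator function of the ideals prime to `m` -/
noncomputable def oneC (m : ℕ) (I : Ideal (𝓞 K)) : ℝ := if Cop m I ∧ I ≠ ⊥ then 1 else 0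

/-- the standing assumptions -/
structure Hyp (F : QF K) (m : ℕ) : Prop where
  ne : m ≠ 0
  dv : 8 * F.d ∣ m
  chp : StChP (K := K)
  unr : StUnr F

end Pool.Agent.H32.MA.SN
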