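import Pool.Agent.H32.MA.SNEnd
import Pool.Agent.H32.MA.FFinal
import Pool.Agent.H32.MA.RFinal

/-!
# MA9, block SN: the sums with one variable (StmSng), without hypotheses
-/

set_option autoImplicit false

namespace Pool.Agent.H32.MA.SN

open Pool.Agent.H32.MA

theorem sng : StmSng :=
  stmSng FF.bb (fun K _ _ => R.chP K) (fun _ _ _ F => R.unr F)

end Pool.Agent.H32.MA.SN
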