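import Pool.Agent.H32.MA.SNId

set_option autoImplicit false

open scoped BigOperators nonZeroDivisors
open NumberField IsDedekindDomain

namespace Pool.Agent.H32.MA.SN

open Pool.Agent.H98.MF (ord IdLe PER Reps CoP cof sgnN)
open Pool.Agent.H32.MA

variable {K : Type} [Field K] [NumberField K]

theorem sg_coe (n : ℕ) : ((n : 𝓞 K) : K) = (n : K) := by simp

theorem sg_ne {n : ℕ} (hn : n ≠ 0) : (n : 𝓞 K) ≠ 0 := by exact_mod_cast hn

theorem sg_le_iff (P : HeightOneSpectrum (𝓞 K)) {n : ℕ} (hn : n ≠ 0) (k : ℕ) :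
    (k : ℤ) ≤ ord P (n : K) ↔ (n : 𝓞 K) ∈ P.asIdeal ^ k := by
  rw [← sg_coe n]
  exact Pool.Agent.H98.MF.N_le_ord_iff P (n : 𝓞 K) (sg_ne hn) k

theorem sg_mem_iff (P : HeightOneSpectrum (𝓞 K)) {n : ℕ} (hn : n ≠ 0) :
    1 ≤ ord P (n : K) ↔ (n : 𝓞 K) ∈ P.asIdeal := by
  have := sg_le_iff P hn 1
  rw [pow_one, Nat.cast_one] at this
  exact this

theorem sg_norm (F : QF K) (p : ℕ) : Ideal.absNorm (Ideal.span {(p : 𝓞 K)}) = p ^ 2 := by
  rw [Ideal.absNorm_span_singleton]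
  have h : (p : 𝓞 K) = algebraMap ℤ (𝓞 K) (p : ℤ) := by simp
  rw [h, Algebra.norm_algebraMap, RingOfIntegers.rank, F.rank]
  simp [Int.natAbs_pow]

/-- a prime ideal contains a prime number -/
theorem sg_exists_prime (P : HeightOneSpectrum (𝓞 K)) :
    ∃ p : ℕ, p.Prime ∧ (p : 𝓞 K) ∈ P.asIdeal := by
  have key : ∀ n : ℕ, 1 ≤ n → (n : 𝓞 K) ∈ P.asIdeal →
      ∃ p : ℕ, p.Prime ∧ (p : 𝓞 K) ∈ P.asIdeal := by
    intro n
    induction n using Nat.strong_induction_on with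
    | _ n ih =>
      intro h1 h2
      by_cases h : n = 1
      · exfalso
        rw [h, Nat.cast_one] at h2
        exact P.isPrime.ne_top ((Ideal.eq_top_iff_one _).2 h2)
      · have hp := Nat.minFac_prime h
        obtain ⟨r, hr⟩ := Nat.minFac_dvd n
        have h3 : ((n.minFac : ℕ) : 𝓞 K) * (r : 𝓞 K) ∈ P.asIdeal := by
          rw [← Nat.cast_mul, ← hr]; exact h2
        rcases P.isPrime.mem_or_mem h3 with h4 | h4
        · exact ⟨_, hp, h4⟩
        · have hr0 : 1 ≤ r := Nat.one_le_iff_ne_zero.2 (fun h0 => by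
            rw [h0, mul_zero] at hr; omega)
          refine ih r ?_ hr0 h4
          have := hp.two_le
          calc r < 2 * r := by omega
            _ ≤ n.minFac * r := Nat.mul_le_mul_right _ this
            _ = n := hr.symm
  refine key (Ideal.absNorm P.asIdeal) ?_ (Ideal.absNorm_mem P.asIdeal)
  rw [Nat.one_le_iff_ne_zero, Ne, Ideal.absNorm_eq_zero_iff]
  exact P.ne_bot

/-- above every prime number there is a prime ideal -/
theorem sg_exists_above {p : ℕ} (F : QF K) (hp : p.Prime) :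
    ∃ P : HeightOneSpectrum (𝓞 K), (p : 𝓞 K) ∈ P.asIdeal := by
  have h : Ideal.span {(p : 𝓞 K)} ≠ ⊤ := by
    intro h
    have h1 := sg_norm F p
    rw [h, Ideal.absNorm_top] at h1
    have := hp.two_le
    nlinarith
  obtain ⟨M, hM, hle⟩ := Ideal.exists_le_maximal _ h
  have hmem : (p : 𝓞 K) ∈ M := hle (Ideal.mem_span_singleton_self _)
  refine ⟨⟨M, hM.isPrime, fun h0 => ?_⟩, hmem⟩
  rw [h0, Ideal.mem_bot] at hmem
  exact sg_ne hp.ne_zero hmem

/-- the primes above a rational prime not dividing `m` -/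
theorem quad_primes (F : QF K) (m : ℕ) (h : Hyp F m) (p : ℕ) (hp : p.Prime) (hpm : ¬ p ∣ m)
    (P : HeightOneSpectrum (𝓞 K)) (hP : 1 ≤ ord P (p : K)) :
    (nP P = p ^ 2 ∧ Ideal.span {(p : 𝓞 K)} = P.asIdeal) ∨
    (nP P = p ∧ ∃ P' : HeightOneSpectrum (𝓞 K), P' ≠ P ∧ nP P' = p ∧
      Ideal.span {(p : 𝓞 K)} = P.asIdeal * P'.asIdeal) := by
  have hmem := (sg_mem_iff P hp.ne_zero).1 hP
  obtain ⟨J, hJ⟩ : P.asIdeal ∣ Ideal.span {(p : 𝓞 K)} :=
    Ideal.dvd_iff_le.2 ((Ideal.span_singleton_le_iff_mem _).2 hmem)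
  have hN : nP P * Ideal.absNorm J = p ^ 2 := by
    rw [← sg_norm F p, hJ, map_mul]; rfl
  have hd : nP P ∣ p ^ 2 := ⟨_, hN.symm⟩
  obtain ⟨k, hk, hk2⟩ := (Nat.dvd_prime_pow hp).1 hd
  have hp2 := hp.two_le
  interval_cases k
  · exfalso
    rw [pow_zero] at hk2
    exact P.isPrime.ne_top (Ideal.absNorm_eq_one_iff.1 hk2)
  · right
    rw [pow_one] at hk2
    have hJN : Ideal.absNorm J = p := by
      rw [hk2, pow_two] at hN
      exact Nat.eq_of_mul_eq_mul_left hp.pos hN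
    have hJp : J.IsPrime := Ideal.isPrime_of_irreducible_absNorm (by rw [hJN]; exact hp)
    have hJ0 : J ≠ ⊥ := by
      rintro rfl
      rw [Ideal.absNorm_bot] at hJN
      omega
    refine ⟨hk2, ⟨J, hJp, hJ0⟩, fun he => ?_, hJN, hJ⟩
    have hJP : J = P.asIdeal := congrArg HeightOneSpectrum.asIdeal he
    have h2 : (2 : ℤ) ≤ ord P (p : K) := by
      have := (sg_le_iff P hp.ne_zero 2).2 (by
        rw [pow_two, ← Ideal.span_singleton_le_iff_mem, hJ, hJP])
      exact_mod_cast this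
    have h3 := h.unr p hp (fun hd2 => hpm ((hd2.trans (Dvd.intro_left 4 (by ring))).trans h.dv)) P
      hP
    omega
  · left
    refine ⟨hk2, ?_⟩
    have hJN : Ideal.absNorm J = 1 := by
      rw [hk2] at hN
      exact Nat.eq_of_mul_eq_mul_left (pow_pos hp.pos 2) (by rw [hN, mul_one])
    rw [hJ, Ideal.absNorm_eq_one_iff.1 hJN, Ideal.mul_top]

theorem sg_gP_ord {m : ℕ} {P : HeightOneSpectrum (𝓞 K)} (hP : gP m P) :
    1 ≤ ord P (nP P : K) := by
  rw [sg_mem_iff P hP.1.ne_zero]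
  exact Ideal.absNorm_mem P.asIdeal

/-- the only primes above `p` -/
theorem sg_two {P P' Q : HeightOneSpectrum (𝓞 K)} {p : ℕ}
    (h : Ideal.span {(p : 𝓞 K)} = P.asIdeal * P'.asIdeal) (hQ : (p : 𝓞 K) ∈ Q.asIdeal) :
    Q = P ∨ Q = P' := by
  have h1 : P.asIdeal * P'.asIdeal ≤ Q.asIdeal := by
    rw [← h, Ideal.span_singleton_le_iff_mem]; exact hQ
  have hm : ∀ R : HeightOneSpectrum (𝓞 K), R.asIdeal ≤ Q.asIdeal → Q = R := fun R hR =>
    HeightOneSpectrum.ext ((R.isMaximal.eq_of_le Q.isPrime.ne_top hR).symm)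
  rcases (Q.isPrime.mul_le).1 h1 with h2 | h2
  · exact Or.inl (hm P h2)
  · exact Or.inr (hm P' h2)

/-- products of distinct primes -/
theorem sg_idS_dvd (f : Finset (HeightOneSpectrum (𝓞 K))) (I : Ideal (𝓞 K))
    (h : ∀ P ∈ f, P.asIdeal ∣ I) : idS f ∣ I := by
  classical
  have h1 : idS f = ∏ J ∈ f.image HeightOneSpectrum.asIdeal, J := by
    rw [Finset.prod_image (fun P _ Q _ hPQ => HeightOneSpectrum.ext hPQ)]
    rfl
  rw [h1]
  refine Finset.prod_primes_dvd I (fun J hJ => ?_) (fun J hJ => ?_)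
  · obtain ⟨P, _, rfl⟩ := Finset.mem_image.1 hJ
    exact P.prime
  · obtain ⟨P, hP, rfl⟩ := Finset.mem_image.1 hJ
    exact h P hP

theorem good_iff (F : QF K) (m : ℕ) (h : Hyp F m) (I : Ideal (𝓞 K)) :
    GoodId m I ↔ ∃ f, Good m f ∧ idS f = I := by
  classical
  constructor
  · intro hI
    have hfin := Ideal.finite_factors hI.ne
    set f : Finset (HeightOneSpectrum (𝓞 K)) := hfin.toFinset with hf
    have hmem : ∀ P : HeightOneSpectrum (𝓞 K), P ∈ f ↔ I ≤ P.asIdeal := fun P => by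
      rw [hf, Set.Finite.mem_toFinset, Set.mem_ofPred_eq, Ideal.dvd_iff_le]
    -- a prime in `f` lies above a prime number with two primes above it
    have hpr : ∀ P ∈ f, ∃ p : ℕ, p.Prime ∧ ¬ p ∣ m ∧ nP P = p ∧
        ∃ P' : HeightOneSpectrum (𝓞 K), P' ≠ P ∧
          Ideal.span {(p : 𝓞 K)} = P.asIdeal * P'.asIdeal := by
      intro P hP
      obtain ⟨p, hp, hpP⟩ := sg_exists_prime P
      have hpm : ¬ p ∣ m := by
        rintro ⟨r, rfl⟩
        refine hI.cop P ?_ ((hmem P).1 hP)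
        rw [sg_mem_iff P h.ne, Nat.cast_mul]
        exact P.asIdeal.mul_mem_right _ hpP
      rcases quad_primes F m h p hp hpm P ((sg_mem_iff P hp.ne_zero).2 hpP) with
        ⟨_, h2⟩ | ⟨h1, P', h2, _, h4⟩
      · exact absurd (h2 ▸ (hmem P).1 hP) (hI.rat p hp hpm)
      · exact ⟨p, hp, hpm, h1, P', h2, h4⟩
    refine ⟨f, ⟨fun P hP => ?_, fun P hP Q hQ hPQ => ?_⟩, ?_⟩
    · obtain ⟨p, hp, hpm, h1, _⟩ := hpr P hP
      exact ⟨by rw [h1]; exact hp, by rw [h1]; exact hpm⟩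
    · by_contra hne
      obtain ⟨p, hp, hpm, h1, P', h2, h4⟩ := hpr P hP
      have hQp : (p : 𝓞 K) ∈ Q.asIdeal := by
        have := Ideal.absNorm_mem Q.asIdeal
        change ((nP Q : ℕ) : 𝓞 K) ∈ Q.asIdeal at this
        rwa [← hPQ, h1] at this
      rcases sg_two h4 hQp with h5 | h5
      · exact hne h5.symm
      · refine hI.rat p hp hpm ?_
        rw [h4, ← h5]
        have hd : idS {P, Q} ∣ I := sg_idS_dvd _ _ (fun R hR => by
          rcases Finset.mem_insert.1 hR with rfl | hR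
          · exact Ideal.dvd_iff_le.2 ((hmem _).1 hP)
          · rw [Finset.mem_singleton] at hR
            rw [hR]
            exact Ideal.dvd_iff_le.2 ((hmem _).1 hQ))
        have h6 : idS {P, Q} = P.asIdeal * Q.asIdeal := Finset.prod_pair hne
        rw [← h6]
        exact Ideal.dvd_iff_le.1 hd
    · obtain ⟨J, hJ⟩ := sg_idS_dvd f I (fun P hP => Ideal.dvd_iff_le.2 ((hmem P).1 hP))
      by_cases hJt : J = ⊤
      · rw [hJ, hJt, Ideal.mul_top]
      · exfalso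
        obtain ⟨M, hM, hle⟩ := Ideal.exists_le_maximal J hJt
        have hM0 : M ≠ ⊥ := by
          rintro rfl
          rw [le_bot_iff] at hle
          apply hI.ne
          rw [hJ, hle, Ideal.mul_bot]
        let Q : HeightOneSpectrum (𝓞 K) := ⟨M, hM.isPrime, hM0⟩
        have hQI : I ≤ Q.asIdeal := by
          rw [hJ]; exact Ideal.mul_le_right.trans hle
        have hQf := (idS_le f Q).2 ((hmem Q).2 hQI)
        refine hI.sq Q ?_
        rw [hJ, pow_two]
        exact Ideal.mul_mono hQf hle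
  · rintro ⟨f, hf, rfl⟩
    refine ⟨idS_ne_bot f, fun P hP hle => ?_, fun P hle => ?_, fun p hp hpm hle => ?_⟩
    · have hPf := (idS_le f P).1 hle
      have h1 := hf.1 P hPf
      exact h1.2 ((ord_nat_iff P h1.1 m h.ne).1 hP)
    · have h1 := (Pool.Agent.H98.MF.N_cnt_le_iff P (idS f) (idS_ne_bot f) 2).2 hle
      have h2 : vI P (idS f) = if P ∈ f then 1 else 0 := vI_idS f P
      have h3 : ((2 : ℕ) : ℤ) ≤ vI P (idS f) := h1
      rw [h2] at h3
      split_ifs at h3 <;> norm_num at h3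
    · obtain ⟨P, hP⟩ := sg_exists_above F hp
      have hle' : ∀ R : HeightOneSpectrum (𝓞 K), (p : 𝓞 K) ∈ R.asIdeal → R ∈ f := fun R hR =>
        (idS_le f R).1 (hle.trans ((Ideal.span_singleton_le_iff_mem _).2 hR))
      have hPf := hle' P hP
      rcases quad_primes F m h p hp hpm P ((sg_mem_iff P hp.ne_zero).2 hP) with
        ⟨h1, _⟩ | ⟨h1, P', h2, h3, h4⟩
      · have h5 := (hf.1 P hPf).1
        rw [h1] at h5
        exact (Nat.Prime.not_prime_pow (le_refl 2)) h5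
      · have hP' : (p : 𝓞 K) ∈ P'.asIdeal := by
          rw [← Ideal.span_singleton_le_iff_mem, h4]
          exact Ideal.mul_le_right
        exact h2 (hf.2 (hle' P' hP') hPf (by rw [h1, h3]))

theorem sum_good (F : QF K) (m : ℕ) (h : Hyp F m) (G : Ideal (𝓞 K) → ℝ) (X : ℝ) :
    ∑ᶠ f ∈ GoodLe K m X, G (idS f) = ∑ᶠ I ∈ {I ∈ IdLe K X | GoodId m I}, G I := by
  refine finsum_mem_eq_of_bijOn idS ⟨fun f hf => ?_, fun f _ g _ hfg => idS_injective hfg,
    fun I hI => ?_⟩ (fun f _ => rfl)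
  · refine ⟨⟨idS_ne_bot f, ?_⟩, (good_iff F m h _).2 ⟨f, hf.1, rfl⟩⟩
    rw [absNorm_idS]
    exact hf.2
  · obtain ⟨f, hf, rfl⟩ := (good_iff F m h I).1 hI.2
    refine ⟨f, ⟨hf, ?_⟩, rfl⟩
    have := hI.1.2
    rwa [absNorm_idS] at this

end Pool.Agent.H32.MA.SN
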