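import Pool.Agent.H32.MA.SNDefs
import Pool.Agent.H98.MF.NOrd

/-!
# Project MA9 (MP_a9b340), block SN: products of primes, exponents, ideals prime to `m`
-/

set_option autoImplicit false

open scoped BigOperators nonZeroDivisors
open NumberField IsDedekindDomain

namespace Pool.Agent.H32.MA.SN

open Pool.Agent.H98.MF (ord IdLe PER Reps CoP cof sgnN)
open Pool.Agent.H32.MA

variable {K : Type} [Field K] [NumberField K]


theorem idS_ne_bot (f : Finset (HeightOneSpectrum (𝓞 K))) : idS f ≠ ⊥ := by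
  unfold idS
  rw [← Ideal.zero_eq_bot]
  exact Finset.prod_ne_zero_iff.2 fun P _ => P.ne_bot

theorem absNorm_idS (f : Finset (HeightOneSpectrum (𝓞 K))) :
    Ideal.absNorm (idS f) = nS f := by
  unfold idS nS nP
  exact map_prod Ideal.absNorm _ _

theorem idS_le (f : Finset (HeightOneSpectrum (𝓞 K))) (P : HeightOneSpectrum (𝓞 K)) :
    idS f ≤ P.asIdeal ↔ P ∈ f := by
  unfold idS
  rw [P.isPrime.prod_le]
  constructor
  · rintro ⟨Q, hQ, h⟩
    have h1 : Q.asIdeal = P.asIdeal := Q.isMaximal.eq_of_le P.isPrime.ne_top h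
    have h2 : Q = P := HeightOneSpectrum.ext h1
    rw [← h2]
    exact hQ
  · intro h
    exact ⟨P, h, le_rfl⟩

theorem idS_injective :
    Function.Injective (idS : Finset (HeightOneSpectrum (𝓞 K)) → Ideal (𝓞 K)) := by
  intro f g h
  ext P
  rw [← idS_le, h, idS_le]

open Classical in
theorem vI_idS (f : Finset (HeightOneSpectrum (𝓞 K))) (P : HeightOneSpectrum (𝓞 K)) :
    vI P (idS f) = if P ∈ f then 1 else 0 := by
  have h1 : ((idS f : Ideal (𝓞 K)) : FractionalIdeal (𝓞 K)⁰ K) =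
      ∏ Q ∈ f, (Q.asIdeal : FractionalIdeal (𝓞 K)⁰ K) := by
    unfold idS
    induction f using Finset.induction_on with
    | empty =>
      rw [Finset.prod_empty, Finset.prod_empty, Ideal.one_eq_top, FractionalIdeal.coeIdeal_top]
    | insert Q f hQ ih =>
      rw [Finset.prod_insert hQ, Finset.prod_insert hQ, FractionalIdeal.coeIdeal_mul, ih]
  unfold vI
  rw [h1, FractionalIdeal.count_prod K P f _ fun Q _ => FractionalIdeal.coeIdeal_ne_zero.2 Q.ne_bot]
  have h2 : ∀ Q ∈ f, FractionalIdeal.count K P (Q.asIdeal : FractionalIdeal (𝓞 K)⁰ K) =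
      if Q = P then 1 else 0 := fun Q _ => FractionalIdeal.count_maximal K P Q
  rw [Finset.sum_congr rfl h2, Finset.sum_ite_eq']

theorem vI_mul (P : HeightOneSpectrum (𝓞 K)) {I J : Ideal (𝓞 K)} (hI : I ≠ ⊥) (hJ : J ≠ ⊥) :
    vI P (I * J) = vI P I + vI P J := by
  unfold vI
  rw [FractionalIdeal.coeIdeal_mul, FractionalIdeal.count_mul K P
    (FractionalIdeal.coeIdeal_ne_zero.2 hI) (FractionalIdeal.coeIdeal_ne_zero.2 hJ)]

theorem vI_span (P : HeightOneSpectrum (𝓞 K)) (α : 𝓞 K) :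
    vI P (Ideal.span {α}) = ord P (α : K) :=
  (Pool.Agent.H98.MF.N_ord_eq P α).symm

theorem sni_ord_nat (P : HeightOneSpectrum (𝓞 K)) (n : ℕ) (hn : n ≠ 0) :
    1 ≤ ord P (n : K) ↔ (n : 𝓞 K) ∈ P.asIdeal := by
  have h1 : ((n : 𝓞 K) : K) = (n : K) := by simp
  have h2 : (n : 𝓞 K) ≠ 0 := Nat.cast_ne_zero.2 hn
  have h3 := Pool.Agent.H98.MF.N_le_ord_iff P (n : 𝓞 K) h2 1
  rw [h1, pow_one] at h3
  exact_mod_cast h3

/-- primes dividing a natural number -/
theorem ord_nat_iff (P : HeightOneSpectrum (𝓞 K)) (hP : (nP P).Prime) (n : ℕ) (hn : n ≠ 0) :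
    1 ≤ ord P (n : K) ↔ nP P ∣ n := by
  have hp : ((nP P : ℕ) : 𝓞 K) ∈ P.asIdeal := Ideal.absNorm_mem P.asIdeal
  rw [sni_ord_nat P n hn]
  constructor
  · intro h
    by_contra hd
    have hc : Nat.Coprime (nP P) n := (Nat.Prime.coprime_iff_not_dvd hP).2 hd
    obtain ⟨a, b, hab⟩ := Nat.isCoprime_iff_coprime.2 hc
    have h1 : (1 : 𝓞 K) = (a : 𝓞 K) * ((nP P : ℕ) : 𝓞 K) + (b : 𝓞 K) * (n : 𝓞 K) := by
      have h2 := congrArg (Int.cast : ℤ → 𝓞 K) hab
      push_cast at h2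
      exact h2.symm
    apply P.isPrime.ne_top
    rw [Ideal.eq_top_iff_one, h1]
    exact P.asIdeal.add_mem (P.asIdeal.mul_mem_left _ hp) (P.asIdeal.mul_mem_left _ h)
  · rintro ⟨c, rfl⟩
    rw [Nat.cast_mul]
    exact P.asIdeal.mul_mem_right _ hp

theorem cop_iff (m : ℕ) (hm : m ≠ 0) (I : Ideal (𝓞 K)) :
    Cop m I ↔ IsCoprime I (Ideal.span {(m : 𝓞 K)}) := by
  unfold Cop
  rw [Ideal.isCoprime_iff_sup_eq]
  constructor
  · intro h
    by_contra hne
    obtain ⟨M, hM, hle⟩ := Ideal.exists_le_maximal _ hne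
    have h1 : (m : 𝓞 K) ∈ M := by
      apply hle
      exact Ideal.mem_sup_right (Ideal.mem_span_singleton_self _)
    have h2 : M ≠ ⊥ := by
      rintro rfl
      rw [Ideal.mem_bot] at h1
      exact hm (Nat.cast_eq_zero.1 h1)
    let P : HeightOneSpectrum (𝓞 K) := ⟨M, hM.isPrime, h2⟩
    exact h P ((sni_ord_nat P m hm).2 h1) (le_sup_left.trans hle)
  · intro h P hP hI
    rw [sni_ord_nat P m hm] at hP
    apply P.isPrime.ne_top
    rw [eq_top_iff, ← h]
    exact sup_le hI ((Ideal.span_singleton_le_iff_mem _).2 hP)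

theorem cop_mul (m : ℕ) (I J : Ideal (𝓞 K)) : Cop m (I * J) ↔ Cop m I ∧ Cop m J := by
  unfold Cop
  constructor
  · intro h
    exact ⟨fun P hP hI => h P hP (P.isPrime.mul_le.2 (Or.inl hI)),
      fun P hP hJ => h P hP (P.isPrime.mul_le.2 (Or.inr hJ))⟩
  · rintro ⟨h1, h2⟩ P hP hIJ
    rcases P.isPrime.mul_le.1 hIJ with h | h
    · exact h1 P hP h
    · exact h2 P hP h

end Pool.Agent.H32.MA.SN
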