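import Pool.Agent.H32.MA.SNId
import Pool.Agent.H98.MF.L.QuadX

/-!
# Project MA9 (MP_a9b340), block SN: an element with a nontrivial character
-/

set_option autoImplicit false

open scoped BigOperators nonZeroDivisors
open NumberField IsDedekindDomain

namespace Pool.Agent.H32.MA.SN

open Pool.Agent.H98.MF (ord IdLe PER Reps CoP cof sgnN)
open Pool.Agent.H32.MA

variable {K : Type} [Field K] [NumberField K]

private theorem lam_ord_nonneg (P : HeightOneSpectrum (𝓞 K)) (n : ℕ) : 0 ≤ ord P (n : K) := by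
  have h := Pool.Agent.H98.MF.B.ord_alg_nonneg P (n : 𝓞 K)
  rwa [map_natCast] at h

/-- the character of a natural number at a prime of the set -/
private theorem lam_chP (F : QF K) (m : ℕ) (h : Hyp F m) (P : HeightOneSpectrum (𝓞 K))
    (hP : gP m P) (n : ℕ) (hn : n ≠ 0) (hd : ¬ nP P ∣ n) :
    chP P (n : K) = jacobiSym (n : ℤ) (nP P) := by
  have hp := hP.1
  have h2 : 2 ∣ m := (Dvd.dvd.mul_right (by norm_num) F.d : 2 ∣ 8 * F.d).trans h.dv
  have hp2 : nP P ≠ 2 := fun h3 => hP.2 (by rw [h3]; exact h2)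
  have hd2 : ¬ nP P ∣ 2 * F.d := fun h3 => hP.2 ((h3.trans ⟨4, by ring⟩).trans h.dv)
  have h1 : 1 ≤ ord P ((nP P : ℕ) : K) :=
    (ord_nat_iff P hp (nP P) hp.ne_zero).2 (dvd_refl _)
  have ho := h.unr (nP P) hp hd2 P h1
  have hc := (h.chp P hp hp2 ho).2.2.2 (n : ℚ) (by exact_mod_cast hn) (by
    rw [padicValRat.of_nat, padicValNat.eq_zero_of_not_dvd hd]
    rfl)
  rw [Rat.num_natCast, Rat.den_natCast, Nat.cast_one, mul_one] at hc
  rw [← hc]
  congr 1
  push_cast
  rfl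

/-- an element with a nontrivial character -/
theorem exists_lam (F : QF K) (m : ℕ) (h : Hyp F m) (e : Finset (HeightOneSpectrum (𝓞 K)))
    (he : Good m e) (hne : e ≠ ∅) : ∃ l : 𝓞 K, l ≠ 0 ∧ Cong m (l : K) ∧ TotPos (l : K) ∧
      Cop (m * nS e) (Ideal.span {l}) ∧ chS e (F.cj (l : K)) = -1 := by
  classical
  obtain ⟨P0, hP0⟩ := Finset.nonempty_iff_ne_empty.2 hne
  have hp0 : (nP P0).Prime := (he.1 P0 hP0).1
  have hp0m : ¬ nP P0 ∣ m := (he.1 P0 hP0).2
  have hnS : nS e = nP P0 * nS (e.erase P0) := (Finset.mul_prod_erase e nP hP0).symm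
  have h2 : 2 ∣ m := (Dvd.dvd.mul_right (by norm_num) F.d : 2 ∣ 8 * F.d).trans h.dv
  have hp02 : nP P0 ≠ 2 := fun h3 => hp0m (by rw [h3]; exact h2)
  have hF := Fact.mk hp0
  have hcop1 : Nat.Coprime (nP P0) (nS (e.erase P0)) := by
    unfold nS
    refine Nat.Coprime.prod_right fun P hP => ?_
    rw [Finset.mem_erase] at hP
    exact (Nat.coprime_primes hp0 (he.1 P hP.2).1).2 fun h3 => hP.1 (he.2 hP0 hP.2 h3).symm
  have hcop : Nat.Coprime (m * nS (e.erase P0)) (nP P0) :=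
    (((Nat.Prime.coprime_iff_not_dvd hp0).2 hp0m).mul_right hcop1).symm
  obtain ⟨a, ha⟩ : ∃ a : ZMod (nP P0), ¬ IsSquare a :=
    FiniteField.exists_nonsquare (by rw [ZMod.ringChar_zmod_n]; exact hp02)
  have ha0 : a ≠ 0 := fun h3 => ha (by rw [h3]; exact IsSquare.zero)
  obtain ⟨n, hn1, hn2⟩ := Nat.chineseRemainder hcop 1 a.val
  have hn1' : n ≡ 1 [MOD m] := hn1.of_mul_right _
  have hna : (n : ZMod (nP P0)) = a := by
    have h3 := (ZMod.natCast_eq_natCast_iff _ _ _).2 hn2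
    rw [h3, ZMod.natCast_zmod_val]
  have hm8 : 8 ∣ m := (Dvd.intro F.d rfl).trans h.dv
  have hn0 : n ≠ 0 := by
    rintro rfl
    have h3 : (0 : ℕ) ≡ 1 [MOD 8] := hn1'.of_dvd hm8
    exact absurd h3 (by decide)
  have hdiv : ∀ P ∈ e, ¬ nP P ∣ n := by
    intro P hP hd
    by_cases hPP : P = P0
    · subst hPP
      rw [(ZMod.natCast_eq_zero_iff _ _).2 hd] at hna
      exact ha0 hna.symm
    · have h3 : nP P ∣ m * nS (e.erase P0) :=
        (Finset.dvd_prod_of_mem nP (Finset.mem_erase.2 ⟨hPP, hP⟩)).mul_left _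
      have h4 : n ≡ 1 [MOD nP P] := hn1.of_dvd h3
      have h5 : (nP P) ∣ 1 := (h4.dvd_iff (dvd_refl _)).1 hd
      exact (he.1 P hP).1.one_lt.ne' (Nat.dvd_one.1 h5)
  have hcopn : Nat.Coprime n (m * nS e) := by
    refine Nat.Coprime.mul_right ?_ (Nat.Coprime.prod_right fun P hP => ?_)
    · have h3 : Nat.gcd n m = Nat.gcd 1 m := hn1'.gcd_eq
      rw [Nat.gcd_one_left] at h3
      exact h3
    · exact ((Nat.Prime.coprime_iff_not_dvd (he.1 P hP).1).2 (hdiv P hP)).symm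
  have hnS0 : nS e ≠ 0 := Finset.prod_ne_zero_iff.2 fun P hP => (he.1 P hP).1.ne_zero
  refine ⟨(n : 𝓞 K), by exact_mod_cast hn0, ?_, ?_, ?_, ?_⟩
  · -- the congruence
    intro P _
    have hle : 1 ≤ n := Nat.one_le_iff_ne_zero.2 hn0
    obtain ⟨k, hk⟩ : m ∣ n - 1 := (Nat.modEq_iff_dvd' hle).1 hn1'.symm
    have hcast : ((n : 𝓞 K) : K) = (n : K) := map_natCast _ n
    rw [hcast]
    rcases Nat.eq_zero_or_pos k with h3 | h3
    · left
      rw [h3, mul_zero] at hk
      have h4 : n = 1 := by omega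
      rw [h4, Nat.cast_one]
    · right
      have h4 : (n : K) - 1 = (m : K) * (k : K) := by
        have h5 : n = 1 + m * k := by omega
        rw [h5]
        push_cast
        ring
      rw [h4, Pool.Agent.H98.MF.B.ord_mul P (by exact_mod_cast h.ne) (by exact_mod_cast h3.ne')]
      have h5 := lam_ord_nonneg P k
      linarith
  · intro φ
    have hcast : ((n : 𝓞 K) : K) = (n : K) := map_natCast _ n
    rw [hcast, map_natCast]
    exact_mod_cast Nat.pos_of_ne_zero hn0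
  · rw [cop_iff _ (mul_ne_zero h.ne hnS0), Ideal.isCoprime_span_singleton_iff]
    have h3 : IsCoprime ((n : ℕ) : ℤ) ((m * nS e : ℕ) : ℤ) := Nat.isCoprime_iff_coprime.2 hcopn
    have h4 := h3.map (Int.castRingHom (𝓞 K))
    simpa using h4
  · have hcast : ((n : 𝓞 K) : K) = (n : K) := map_natCast _ n
    rw [hcast, map_natCast]
    unfold chS
    rw [← Finset.mul_prod_erase e _ hP0, Finset.prod_eq_one, mul_one,
      lam_chP F m h P0 (he.1 P0 hP0) n hn0 (hdiv P0 hP0),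
      ← jacobiSym.legendreSym.to_jacobiSym, legendreSym.eq_neg_one_iff]
    · rw [Int.cast_natCast, hna]
      exact ha
    · intro P hP
      rw [Finset.mem_erase] at hP
      rw [lam_chP F m h P (he.1 P hP.2) n hn0 (hdiv P hP.2)]
      have h3 : nP P ∣ m * nS (e.erase P0) :=
        (Finset.dvd_prod_of_mem nP (Finset.mem_erase.2 hP)).mul_left _
      have h4 : n ≡ 1 [MOD nP P] := hn1.of_dvd h3
      have h5 : ((n : ℕ) : ℤ) % ((nP P : ℕ) : ℤ) = 1 % ((nP P : ℕ) : ℤ) := by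
        exact_mod_cast h4
      rw [jacobiSym.mod_left (n : ℤ) (nP P), h5, ← jacobiSym.mod_left, jacobiSym.one_left]

end Pool.Agent.H32.MA.SN
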