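import Pool.Agent.H32.MA.SNShift
import Pool.Agent.H98.MF.NOrd

/-!
# Project MA9 (MP_a9b340), block SN: periodicity of the inner sums
-/

set_option autoImplicit false

open scoped BigOperators nonZeroDivisors
open NumberField IsDedekindDomain

namespace Pool.Agent.H32.MA.SN

open Pool.Agent.H98.MF (ord IdLe PER Reps CoP cof sgnN)
open Pool.Agent.H32.MA

variable {K : Type} [Field K] [NumberField K]

private theorem snper_cof (J : Ideal (𝓞 K)) (α : 𝓞 K) (hα : α ∈ J) :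
    Ideal.span {α} = cof J α * J := by
  have h : ∃ I : Ideal (𝓞 K), Ideal.span {α} = I * J := by
    have h1 : J ∣ Ideal.span {α} := by
      rw [Ideal.dvd_span_singleton]
      exact hα
    obtain ⟨I, hI⟩ := h1
    exact ⟨I, by rw [hI, mul_comm]⟩
  unfold cof
  rw [dif_pos h]
  exact h.choose_spec

private theorem snper_le_iff {I J P : Ideal (𝓞 K)} (hJ : J ≠ ⊥) : I * J ≤ P * J ↔ I ≤ P := by
  rw [← Ideal.dvd_iff_le, ← Ideal.dvd_iff_le]
  exact mul_dvd_mul_iff_right hJ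

omit [NumberField K] in
private theorem snper_sign {α β : 𝓞 K} (hα : α ≠ 0) (hβ : β ≠ 0) (h : sgnN α = sgnN β)
    (φ : K →+* ℝ) : 0 < φ ((α : K) / (β : K)) := by
  have hα' : (α : K) ≠ 0 := by
    rw [Ne, FaithfulSMul.algebraMap_eq_zero_iff]
    exact hα
  have hβ' : (β : K) ≠ 0 := by
    rw [Ne, FaithfulSMul.algebraMap_eq_zero_iff]
    exact hβ
  have hreal : ComplexEmbedding.IsReal (Complex.ofRealHom.comp φ) := by
    rw [ComplexEmbedding.isReal_iff]
    ext x
    simp [ComplexEmbedding.conjugate]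
  have hw : InfinitePlace.IsReal (InfinitePlace.mk (Complex.ofRealHom.comp φ)) :=
    InfinitePlace.isReal_mk_iff.2 hreal
  have hemb : ∀ x : K, InfinitePlace.embedding_of_isReal hw x = φ x := by
    intro x
    have h1 := InfinitePlace.embedding_of_isReal_apply hw x
    rw [InfinitePlace.embedding_mk_eq_of_isReal hreal] at h1
    exact Complex.ofReal_injective h1
  have hmem : ∀ γ : 𝓞 K,
      (⟨InfinitePlace.mk (Complex.ofRealHom.comp φ), hw⟩ : Pool.Agent.H98.MF.RP K) ∈ sgnN γ ↔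
      φ (γ : K) < 0 := by
    intro γ
    unfold sgnN
    rw [Set.mem_ofPred_eq, mixedEmbedding.mixedEmbedding_apply_isReal, hemb]
  have h2 : φ (α : K) < 0 ↔ φ (β : K) < 0 := by
    rw [← hmem, ← hmem, h]
  have h3 : φ (α : K) ≠ 0 := (map_ne_zero φ).2 hα'
  have h4 : φ (β : K) ≠ 0 := (map_ne_zero φ).2 hβ'
  rw [map_div₀]
  rcases lt_or_gt_of_ne h3 with h5 | h5
  · exact div_pos_of_neg_of_neg h5 (h2.1 h5)
  · have h6 : ¬ φ (β : K) < 0 := fun h7 => absurd (h2.2 h7) (not_lt.2 h5.le)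
    exact div_pos h5 (lt_of_le_of_ne (not_lt.1 h6) h4.symm)

/-- the exponent of an element in terms of its cofactor -/
private theorem snper_vI (J : Ideal (𝓞 K)) (hJ : J ≠ ⊥) (α : 𝓞 K) (hα : α ≠ 0)
    (hαJ : α ∈ J) (P : HeightOneSpectrum (𝓞 K)) :
    ord P (α : K) = vI P (cof J α) + vI P J := by
  have h1 := snper_cof J α hαJ
  have h2 : cof J α ≠ ⊥ := by
    intro h0
    rw [h0, Ideal.bot_mul] at h1
    exact hα (Ideal.span_singleton_eq_bot.1 h1)
  rw [Pool.Agent.H98.MF.N_ord_eq, h1, FractionalIdeal.coeIdeal_mul,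
    FractionalIdeal.count_mul K P (FractionalIdeal.coeIdeal_ne_zero.2 h2)
      (FractionalIdeal.coeIdeal_ne_zero.2 hJ)]
  rfl

private theorem snper_nS (e : Finset (HeightOneSpectrum (𝓞 K))) : nS e ≠ 0 := by
  unfold nS
  refine Finset.prod_ne_zero_iff.2 fun P _ => ?_
  unfold nP
  rw [Ne, Ideal.absNorm_eq_zero_iff]
  exact P.ne_bot

theorem GI_per (F : QF K) (m : ℕ) (h : Hyp F m) (Ψ : K → ℝ) (hl : MLoc m Ψ)
    (e : Finset (HeightOneSpectrum (𝓞 K))) (he : Good m e) (J : Ideal (𝓞 K)) (hJ : J ≠ ⊥) :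
    PER J (Ideal.span {((m * nS e : ℕ) : 𝓞 K)}) (GI F m Ψ e) := by
  classical
  intro α β hα hβ hαJ hαβ hs
  have hn0 : m * nS e ≠ 0 := mul_ne_zero h.ne (snper_nS e)
  have hnO : ((m * nS e : ℕ) : 𝓞 K) ≠ 0 := Nat.cast_ne_zero.2 hn0
  have hncast : (((m * nS e : ℕ) : 𝓞 K) : K) = ((m * nS e : ℕ) : K) :=
    map_natCast (algebraMap (𝓞 K) K) _
  have hα' : (α : K) ≠ 0 := by
    rw [Ne, FaithfulSMul.algebraMap_eq_zero_iff]
    exact hα
  have hβ' : (β : K) ≠ 0 := by
    rw [Ne, FaithfulSMul.algebraMap_eq_zero_iff]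
    exact hβ
  have hβJ : β ∈ J := by
    have h1 : α - β ∈ J := Ideal.mul_le_right hαβ
    have h2 : α - (α - β) ∈ J := J.sub_mem hαJ h1
    rwa [sub_sub_cancel] at h2
  have hcα := snper_cof J α hαJ
  have hcβ := snper_cof J β hβJ
  have hneα : cof J α ≠ ⊥ := by
    intro h0
    rw [h0, Ideal.bot_mul] at hcα
    exact hα (Ideal.span_singleton_eq_bot.1 hcα)
  have hneβ : cof J β ≠ ⊥ := by
    intro h0
    rw [h0, Ideal.bot_mul] at hcβ
    exact hβ (Ideal.span_singleton_eq_bot.1 hcβ)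
  have hcong : ∀ Q : HeightOneSpectrum (𝓞 K), 1 ≤ ord Q ((m * nS e : ℕ) : K) →
      (cof J α ≤ Q.asIdeal ↔ cof J β ≤ Q.asIdeal) ∧
      (¬ cof J β ≤ Q.asIdeal → ((α : K) / (β : K) = 1 ∨
        ord Q ((m * nS e : ℕ) : K) ≤ ord Q ((α : K) / (β : K) - 1))) := by
    intro Q hQ
    obtain ⟨a, ha⟩ := Int.eq_ofNat_of_zero_le (le_trans zero_le_one hQ)
    have ha1 : 1 ≤ a := by
      rw [ha] at hQ
      exact_mod_cast hQ
    have hM : Ideal.span {((m * nS e : ℕ) : 𝓞 K)} ≤ Q.asIdeal ^ a := by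
      rw [Ideal.span_singleton_le_iff_mem]
      refine (Pool.Agent.H98.MF.N_le_ord_iff Q _ hnO a).1 ?_
      rw [hncast, ha]
    have h0 : Ideal.span {((m * nS e : ℕ) : 𝓞 K)} * J ≤ Q.asIdeal ^ a * J :=
      Ideal.mul_mono_left hM
    have h1 := Pool.Agent.H98.MF.ord_quot Q a ha1 J hJ α β hα hβ hαJ (h0 hαβ)
    rw [hcα, hcβ, snper_le_iff hJ, snper_le_iff hJ] at h1
    rw [ha]
    exact h1
  have hcop : Cop (m * nS e) (cof J α) ↔ Cop (m * nS e) (cof J β) := by
    constructor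
    · intro h1 P hP h2
      exact h1 P hP ((hcong P hP).1.2 h2)
    · intro h1 P hP h2
      exact h1 P hP ((hcong P hP).1.1 h2)
  unfold GI
  by_cases hA : Cop (m * nS e) (cof J α)
  · have hB := hcop.1 hA
    rw [if_pos ⟨hA, hneα⟩, if_pos ⟨hB, hneβ⟩]
    have hl0 : (α : K) / (β : K) ≠ 0 := div_ne_zero hα' hβ'
    have hC : Cong (m * nS e) ((α : K) / (β : K)) := fun P hP => (hcong P hP).2 (hB P hP)
    have hCm : Cong m ((α : K) / (β : K)) := by
      intro P hP
      have hmK : (m : K) ≠ 0 := Nat.cast_ne_zero.2 h.ne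
      have hnK : (nS e : K) ≠ 0 := Nat.cast_ne_zero.2 (snper_nS e)
      have h1 : ord P ((m * nS e : ℕ) : K) = ord P (m : K) + ord P (nS e : K) := by
        rw [Nat.cast_mul]
        exact Pool.Agent.H98.MF.B.ord_mul P hmK hnK
      have h2 : 0 ≤ ord P (nS e : K) := by
        have h3 := Pool.Agent.H98.MF.N_ord_nonneg P ((nS e : ℕ) : 𝓞 K)
        have h4 : (((nS e : ℕ) : 𝓞 K) : K) = (nS e : K) := map_natCast (algebraMap (𝓞 K) K) _
        rwa [h4] at h3
      rcases hC P (by rw [h1]; linarith) with h4 | h4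
      · exact Or.inl h4
      · right
        rw [h1] at h4
        linarith
    have h5 := shift F m h Ψ hl e he ((α : K) / (β : K)) hl0 hCm
      (fun φ => snper_sign hα hβ hs φ) (cof J α) (cof J β) (fun P _ => by
        have h6 := snper_vI J hJ α hα hαJ P
        have h7 := snper_vI J hJ β hβ hβJ P
        have h8 : vI P (cof J α) = ord P ((α : K) / (β : K)) + vI P (cof J β) := by
          rw [Pool.Agent.H98.MF.B.ord_div P hα' hβ', h6, h7]
          ring
        rw [h8]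
        push_cast
        ring)
    rw [h5, chS_one F m h e he _ hl0 hC]
    simp
  · have hB : ¬ Cop (m * nS e) (cof J β) := fun h1 => hA (hcop.2 h1)
    rw [if_neg (fun h1 => hA h1.1), if_neg (fun h1 => hB h1.1)]

end Pool.Agent.H32.MA.SN
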