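import Pool.Agent.H32.MA.SNDefs
import Pool.Agent.H98.MF.NFin

/-!
# Project MA9 (MP_a9b340), block SN, row SNTail: few ideals with a large bad divisor
-/

set_option autoImplicit false

open scoped BigOperators nonZeroDivisors
open NumberField IsDedekindDomain

namespace Pool.Agent.H32.MA.SN

open Pool.Agent.H98.MF (ord IdLe PER Reps CoP cof sgnN)
open Pool.Agent.H32.MA

variable {K : Type} [Field K] [NumberField K]

/-- the number of ideals of norm at most `Y` -/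
theorem snt_count : ∃ C : ℝ, 0 ≤ C ∧ ∀ Y : ℝ, 0 ≤ Y →
    (((IdLe K Y).ncard : ℕ) : ℝ) ≤ C * Y := by
  have hlim := NumberField.Ideal.tendsto_norm_le_div_atTop K
  obtain ⟨L, hL⟩ : ∃ L : ℝ, Filter.Tendsto (fun s : ℝ ↦
      (Nat.card {I : Ideal (𝓞 K) // (Ideal.absNorm I : ℝ) ≤ s} : ℝ) / s) Filter.atTop
      (nhds L) := ⟨_, hlim⟩
  have h1 : ∀ᶠ s : ℝ in Filter.atTop,
      (Nat.card {I : Ideal (𝓞 K) // (Ideal.absNorm I : ℝ) ≤ s} : ℝ) / s < L + 1 :=
    hL.eventually_lt_const (by linarith)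
  obtain ⟨s0, hs0⟩ := Filter.eventually_atTop.1 h1
  obtain ⟨s1, hs1⟩ : ∃ s1, s1 = max s0 1 := ⟨_, rfl⟩
  have hs10 : s0 ≤ s1 := hs1 ▸ le_max_left _ _
  have hs11 : 1 ≤ s1 := hs1 ▸ le_max_right _ _
  obtain ⟨c1, hc1⟩ : ∃ c1 : ℝ, c1 = ((IdLe K s1).ncard : ℕ) := ⟨_, rfl⟩
  have hc10 : 0 ≤ c1 := by
    rw [hc1]
    exact Nat.cast_nonneg _
  refine ⟨max (L + 1) c1, le_max_of_le_right hc10, fun Y hY => ?_⟩
  by_cases hY1 : Y < 1
  · have hempty : IdLe K Y = ∅ := by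
      rw [Set.eq_empty_iff_forall_notMem]
      rintro I ⟨hI, hI2⟩
      have h2 : Ideal.absNorm I ≠ 0 := by
        rw [Ne, Ideal.absNorm_eq_zero_iff]
        exact hI
      have h3 : (1 : ℝ) ≤ Ideal.absNorm I := by exact_mod_cast Nat.one_le_iff_ne_zero.2 h2
      linarith
    rw [hempty, Set.ncard_empty, Nat.cast_zero]
    exact mul_nonneg (le_max_of_le_right hc10) hY
  push Not at hY1
  by_cases hY2 : Y ≤ s1
  · have h2 : ((IdLe K Y).ncard : ℕ) ≤ (IdLe K s1).ncard :=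
      Set.ncard_le_ncard (fun I hI => ⟨hI.1, hI.2.trans hY2⟩)
        (Pool.Agent.H98.MF.finite_IdLe K s1)
    have h3 : (((IdLe K Y).ncard : ℕ) : ℝ) ≤ c1 := by
      rw [hc1]
      exact_mod_cast h2
    calc (((IdLe K Y).ncard : ℕ) : ℝ) ≤ c1 * 1 := by rw [mul_one]; exact h3
      _ ≤ max (L + 1) c1 * Y :=
        mul_le_mul (le_max_right _ _) hY1 zero_le_one (le_max_of_le_right hc10)
  · push Not at hY2
    have h2 := hs0 Y (by linarith)
    rw [div_lt_iff₀ (by linarith)] at h2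
    have hfin : {I : Ideal (𝓞 K) | (Ideal.absNorm I : ℝ) ≤ Y}.Finite := by
      refine (Ideal.finite_setOfPred_absNorm_le (S := 𝓞 K) ⌊Y⌋₊).subset ?_
      intro I hI
      exact Nat.le_floor hI
    have h3 : (IdLe K Y).ncard ≤ Nat.card {I : Ideal (𝓞 K) // (Ideal.absNorm I : ℝ) ≤ Y} :=
      Set.ncard_le_ncard (t := {I : Ideal (𝓞 K) | (Ideal.absNorm I : ℝ) ≤ Y})
        (fun I hI => hI.2) hfin
    have h4 : (((IdLe K Y).ncard : ℕ) : ℝ) ≤
        (Nat.card {I : Ideal (𝓞 K) // (Ideal.absNorm I : ℝ) ≤ Y} : ℝ) := by exact_mod_cast h3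
    calc (((IdLe K Y).ncard : ℕ) : ℝ) ≤ (L + 1) * Y := by linarith
      _ ≤ max (L + 1) c1 * Y := mul_le_mul_of_nonneg_right (le_max_left _ _) hY

theorem snt_norm_pos {D : Ideal (𝓞 K)} (hD : D ≠ ⊥) : (0 : ℝ) < Ideal.absNorm D := by
  have h2 : Ideal.absNorm D ≠ 0 := by
    rw [Ne, Ideal.absNorm_eq_zero_iff]
    exact hD
  exact_mod_cast Nat.pos_of_ne_zero h2

/-- the multiples of an ideal -/
theorem snt_dvd_sub {D : Ideal (𝓞 K)} (hD : D ≠ ⊥) (X : ℝ) :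
    {I ∈ IdLe K X | D ∣ I} ⊆ (fun J => D * J) '' IdLe K (X / Ideal.absNorm D) := by
  rintro I ⟨⟨hI, hI2⟩, J, rfl⟩
  refine ⟨J, ⟨?_, ?_⟩, rfl⟩
  · rintro rfl
    exact hI (by simp)
  · rw [le_div_iff₀ (snt_norm_pos hD)]
    rw [map_mul] at hI2
    push_cast at hI2
    linarith

theorem count_dvd : ∃ C : ℝ, 0 ≤ C ∧ ∀ D : Ideal (𝓞 K), D ≠ ⊥ → ∀ X : ℝ, 0 ≤ X →
    (({I ∈ IdLe K X | D ∣ I}.ncard : ℕ) : ℝ) ≤ C * X / Ideal.absNorm D := by
  obtain ⟨C, hC, h⟩ := snt_count (K := K)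
  refine ⟨C, hC, fun D hD X hX => ?_⟩
  have hfin := Pool.Agent.H98.MF.finite_IdLe K (X / Ideal.absNorm D)
  have h1 : {I ∈ IdLe K X | D ∣ I}.ncard ≤ (IdLe K (X / Ideal.absNorm D)).ncard :=
    (Set.ncard_le_ncard (snt_dvd_sub hD X) (hfin.image _)).trans (Set.ncard_image_le hfin)
  have h2 := h (X / Ideal.absNorm D) (div_nonneg hX (snt_norm_pos hD).le)
  calc (({I ∈ IdLe K X | D ∣ I}.ncard : ℕ) : ℝ) ≤ ((IdLe K (X / Ideal.absNorm D)).ncard : ℕ) := by
        exact_mod_cast h1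
    _ ≤ C * (X / Ideal.absNorm D) := h2
    _ = _ := by ring

theorem snt_nP_two_le (P : HeightOneSpectrum (𝓞 K)) : 2 ≤ nP P := by
  have h1 : Ideal.absNorm P.asIdeal ≠ 0 := by
    rw [Ne, Ideal.absNorm_eq_zero_iff]
    exact P.ne_bot
  have h2 : Ideal.absNorm P.asIdeal ≠ 1 := by
    rw [Ne, Ideal.absNorm_eq_one_iff]
    exact P.isPrime.ne_top
  unfold nP
  omega

/-- summability over the primes -/
theorem snt_summable :
    Summable fun P : HeightOneSpectrum (𝓞 K) => ((nP P : ℝ) ^ 2)⁻¹ := by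
  classical
  obtain ⟨C, hC, h⟩ := snt_count (K := K)
  refine summable_of_sum_le (c := 4 * C) (fun P => by positivity) fun S => ?_
  obtain ⟨M, hM⟩ : ∃ M : ℕ, ∀ P ∈ S, Nat.log 2 (nP P) < M := by
    refine ⟨S.sup (fun P => Nat.log 2 (nP P)) + 1, fun P hP => ?_⟩
    exact Nat.lt_succ_of_le (Finset.le_sup (f := fun P => Nat.log 2 (nP P)) hP)
  rw [← Finset.sum_fiberwise_of_maps_to (t := Finset.range M)
    (g := fun P : HeightOneSpectrum (𝓞 K) => Nat.log 2 (nP P))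
    (fun P hP => Finset.mem_range.2 (hM P hP))]
  have key : ∀ k ∈ Finset.range M,
      ∑ P ∈ S with Nat.log 2 (nP P) = k, ((nP P : ℝ) ^ 2)⁻¹ ≤ 2 * C * (1 / 2) ^ k := by
    intro k _
    have h1 : ∀ P ∈ S.filter (fun P => Nat.log 2 (nP P) = k),
        ((nP P : ℝ) ^ 2)⁻¹ ≤ ((4 : ℝ) ^ k)⁻¹ := by
      intro P hP
      rw [Finset.mem_filter] at hP
      have h2 : 2 ^ k ≤ nP P := by
        rw [← hP.2]
        exact Nat.pow_log_le_self 2 (by have := snt_nP_two_le P; omega)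
      have h3 : ((2 : ℝ) ^ k) ≤ nP P := by exact_mod_cast h2
      have h4 : (4 : ℝ) ^ k = (2 ^ k) ^ 2 := by
        rw [← pow_mul, mul_comm k 2, pow_mul]
        norm_num
      rw [h4]
      have h5 : (0 : ℝ) < 2 ^ k := by positivity
      exact inv_anti₀ (by positivity) (pow_le_pow_left₀ h5.le h3 2)
    have h6 : ((S.filter (fun P => Nat.log 2 (nP P) = k)).card : ℝ) ≤ C * 2 ^ (k + 1) := by
      have h7 : (S.filter (fun P => Nat.log 2 (nP P) = k)).card ≤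
          (IdLe K ((2 : ℝ) ^ (k + 1))).ncard := by
        rw [← Set.ncard_coe_finset]
        refine Set.ncard_le_ncard_of_injOn (fun P => P.asIdeal) ?_ ?_
          (Pool.Agent.H98.MF.finite_IdLe K _)
        · intro P hP
          have hP' := (Finset.mem_filter.1 (Finset.mem_coe.1 hP)).2
          refine ⟨P.ne_bot, ?_⟩
          have h8 : nP P < 2 ^ (k + 1) := by
            rw [← hP']
            exact Nat.lt_pow_succ_log_self (by norm_num) _
          have h9 : (nP P : ℝ) ≤ 2 ^ (k + 1) := by exact_mod_cast h8.le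
          exact h9
        · intro P _ Q _ hPQ
          exact HeightOneSpectrum.ext hPQ
      have h10 := h ((2 : ℝ) ^ (k + 1)) (by positivity)
      calc ((S.filter (fun P => Nat.log 2 (nP P) = k)).card : ℝ) ≤
          ((IdLe K ((2 : ℝ) ^ (k + 1))).ncard : ℕ) := by exact_mod_cast h7
        _ ≤ _ := h10
    calc ∑ P ∈ S with Nat.log 2 (nP P) = k, ((nP P : ℝ) ^ 2)⁻¹
        ≤ ∑ P ∈ S with Nat.log 2 (nP P) = k, ((4 : ℝ) ^ k)⁻¹ := Finset.sum_le_sum h1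
      _ = ((S.filter (fun P => Nat.log 2 (nP P) = k)).card : ℝ) * ((4 : ℝ) ^ k)⁻¹ := by
        rw [Finset.sum_const, nsmul_eq_mul]
      _ ≤ C * 2 ^ (k + 1) * ((4 : ℝ) ^ k)⁻¹ :=
        mul_le_mul_of_nonneg_right h6 (by positivity)
      _ = 2 * C * (1 / 2) ^ k := by
        have h4 : (4 : ℝ) ^ k = 2 ^ k * 2 ^ k := by
          rw [← mul_pow]
          norm_num
        rw [h4, pow_succ, one_div, inv_pow]
        have h5 : (2 : ℝ) ^ k ≠ 0 := by positivity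
        field_simp
  calc ∑ k ∈ Finset.range M, ∑ P ∈ S with Nat.log 2 (nP P) = k, ((nP P : ℝ) ^ 2)⁻¹
      ≤ ∑ k ∈ Finset.range M, 2 * C * (1 / 2) ^ k := Finset.sum_le_sum key
    _ = 2 * C * ∑ k ∈ Finset.range M, (1 / 2 : ℝ) ^ k := by rw [Finset.mul_sum]
    _ ≤ 2 * C * 2 := by
      refine mul_le_mul_of_nonneg_left ?_ (by positivity)
      have h1 := Summable.sum_le_tsum (Finset.range M) (fun k _ => by positivity)
        summable_geometric_two
      rw [tsum_geometric_two] at h1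
      exact h1
    _ = 4 * C := by ring

open Classical in
/-- the tail over the primes -/
noncomputable def sntA (K : Type) [Field K] [NumberField K] (z : ℕ) : ℝ :=
  ∑' P : HeightOneSpectrum (𝓞 K), if z < nP P then ((nP P : ℝ) ^ 2)⁻¹ else 0

open Classical in
/-- the tail over the rational primes -/
noncomputable def sntB (z : ℕ) : ℝ :=
  ∑' p : ℕ, if z < p then ((p : ℝ) ^ 2)⁻¹ else 0

theorem snt_sumN : Summable fun p : ℕ => ((p : ℝ) ^ 2)⁻¹ := Real.summable_nat_pow_inv.2 (by norm_num)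

open Classical in
theorem snt_tail {ι : Type} (g : ι → ℕ) (hs : Summable fun i => ((g i : ℝ) ^ 2)⁻¹) :
    Filter.Tendsto (fun z : ℕ => ∑' i, if z < g i then ((g i : ℝ) ^ 2)⁻¹ else 0)
      Filter.atTop (nhds 0) := by
  have h := tendsto_tsum_of_dominated_convergence (𝓕 := Filter.atTop)
    (f := fun (z : ℕ) (i : ι) => if z < g i then ((g i : ℝ) ^ 2)⁻¹ else 0)
    (g := fun _ => (0 : ℝ)) (bound := fun i => ((g i : ℝ) ^ 2)⁻¹) hs ?_ ?_
  · simpa using h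
  · intro i
    refine tendsto_const_nhds.congr' ?_
    filter_upwards [Filter.eventually_ge_atTop (g i)] with z hz
    rw [if_neg (by omega)]
  · refine Filter.Eventually.of_forall fun z i => ?_
    rw [Real.norm_eq_abs]
    split_ifs
    · exact (abs_of_nonneg (by positivity)).le
    · rw [abs_zero]
      positivity

/-- few ideals have a large bad divisor; false over the rationals, hence the degree -/
theorem tail_bound (hK : 2 ≤ Module.finrank ℚ K) : ∃ ε : ℕ → ℝ, Filter.Tendsto ε Filter.atTop (nhds 0) ∧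
    ∀ (z : ℕ) (X : ℝ), 0 ≤ X →
      (({I ∈ IdLe K X | (∃ P : HeightOneSpectrum (𝓞 K), z < nP P ∧ I ≤ P.asIdeal ^ 2) ∨
        ∃ p : ℕ, p.Prime ∧ z < p ∧ I ≤ Ideal.span {(p : 𝓞 K)}}.ncard : ℕ) : ℝ) ≤ ε z * X := by
  classical
  obtain ⟨C, hC, h⟩ := count_dvd (K := K)
  refine ⟨fun z => C * (sntA K z + sntB z), ?_, fun z X hX => ?_⟩
  · have h1 : Filter.Tendsto (sntA K) Filter.atTop (nhds 0) :=
      snt_tail (fun P : HeightOneSpectrum (𝓞 K) => nP P) snt_summable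
    have h2 : Filter.Tendsto sntB Filter.atTop (nhds 0) :=
      snt_tail (fun p : ℕ => p) snt_sumN
    have h3 := (h1.add h2).const_mul C
    simpa using h3
  -- the finite sets of bad divisors
  have hfP : {P : HeightOneSpectrum (𝓞 K) | (nP P : ℝ) ≤ X}.Finite := by
    refine Set.Finite.of_finite_image (f := fun P => P.asIdeal)
      ((Pool.Agent.H98.MF.finite_IdLe K X).subset ?_) ?_
    · rintro _ ⟨P, hP, rfl⟩
      exact ⟨P.ne_bot, hP⟩
    · intro P _ Q _ hPQ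
      exact HeightOneSpectrum.ext hPQ
  obtain ⟨SP, hSP⟩ : ∃ SP : Finset (HeightOneSpectrum (𝓞 K)), ∀ P, P ∈ SP ↔
      (nP P : ℝ) ≤ X ∧ z < nP P := by
    refine ⟨hfP.toFinset.filter (fun P => z < nP P), fun P => ?_⟩
    rw [Finset.mem_filter, Set.Finite.mem_toFinset]
    rfl
  obtain ⟨Sp, hSp⟩ : ∃ Sp : Finset ℕ, ∀ p, p ∈ Sp ↔ p ≤ ⌊X⌋₊ ∧ p.Prime ∧ z < p := by
    refine ⟨(Finset.range (⌊X⌋₊ + 1)).filter (fun p => p.Prime ∧ z < p), fun p => ?_⟩
    rw [Finset.mem_filter, Finset.mem_range, Nat.lt_succ_iff]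
  have hnp : ∀ p : ℕ, p.Prime →
      (p : ℝ) ^ 2 ≤ ((Ideal.absNorm (Ideal.span {(p : 𝓞 K)}) : ℕ) : ℝ) := by
    intro p hp
    rw [Ideal.absNorm_span_natCast, RingOfIntegers.rank]
    push_cast
    exact pow_le_pow_right₀ (by exact_mod_cast hp.one_lt.le) hK
  have hnP : ∀ P : HeightOneSpectrum (𝓞 K),
      ((Ideal.absNorm (P.asIdeal ^ 2) : ℕ) : ℝ) = (nP P : ℝ) ^ 2 := by
    intro P
    rw [map_pow]
    push_cast
    rfl
  have hsub : {I ∈ IdLe K X | (∃ P : HeightOneSpectrum (𝓞 K), z < nP P ∧ I ≤ P.asIdeal ^ 2) ∨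
        ∃ p : ℕ, p.Prime ∧ z < p ∧ I ≤ Ideal.span {(p : 𝓞 K)}} ⊆
      (⋃ P ∈ SP, {I ∈ IdLe K X | P.asIdeal ^ 2 ∣ I}) ∪
        (⋃ p ∈ Sp, {I ∈ IdLe K X | Ideal.span {(p : 𝓞 K)} ∣ I}) := by
    rintro I ⟨hI, h1⟩
    have hIpos := snt_norm_pos hI.1
    have hle : ∀ D : Ideal (𝓞 K), D ∣ I → ((Ideal.absNorm D : ℕ) : ℝ) ≤ X := by
      rintro D ⟨J, hJ⟩
      have h2 : Ideal.absNorm D ≤ Ideal.absNorm I :=
        Nat.le_of_dvd (by exact_mod_cast hIpos) ⟨Ideal.absNorm J, by rw [hJ, map_mul]⟩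
      have h3 : ((Ideal.absNorm D : ℕ) : ℝ) ≤ Ideal.absNorm I := by exact_mod_cast h2
      exact h3.trans hI.2
    rcases h1 with ⟨P, hz, hP⟩ | ⟨p, hp, hz, hI2⟩
    · left
      have h2 : P.asIdeal ^ 2 ∣ I := Ideal.dvd_iff_le.2 hP
      have h3 : (nP P : ℝ) ≤ X := hle P.asIdeal ((dvd_pow_self _ two_ne_zero).trans h2)
      exact Set.mem_biUnion (Finset.mem_coe.2 ((hSP P).2 ⟨h3, hz⟩)) ⟨hI, h2⟩
    · right
      have h2 : Ideal.span {(p : 𝓞 K)} ∣ I := Ideal.dvd_iff_le.2 hI2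
      have h3 := (hnp p hp).trans (hle _ h2)
      have hp1 : (1 : ℝ) ≤ p := by exact_mod_cast hp.one_lt.le
      have h4 : (p : ℝ) ≤ X := by nlinarith
      exact Set.mem_biUnion (Finset.mem_coe.2 ((hSp p).2 ⟨Nat.le_floor h4, hp, hz⟩)) ⟨hI, h2⟩
  have hfin : ((⋃ P ∈ SP, {I ∈ IdLe K X | P.asIdeal ^ 2 ∣ I}) ∪
        (⋃ p ∈ Sp, {I ∈ IdLe K X | Ideal.span {(p : 𝓞 K)} ∣ I})).Finite := by
    refine (Pool.Agent.H98.MF.finite_IdLe K X).subset ?_
    rintro I (hI | hI)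
    · rw [Set.mem_iUnion₂] at hI
      obtain ⟨_, _, hI⟩ := hI
      exact hI.1
    · rw [Set.mem_iUnion₂] at hI
      obtain ⟨_, _, hI⟩ := hI
      exact hI.1
  have h1 := (Set.ncard_le_ncard hsub hfin).trans ((Set.ncard_union_le _ _).trans
    (add_le_add (Finset.set_ncard_biUnion_le SP _) (Finset.set_ncard_biUnion_le Sp _)))
  have h2 : (∑ P ∈ SP, ((({I ∈ IdLe K X | P.asIdeal ^ 2 ∣ I}).ncard : ℕ) : ℝ)) ≤
      C * X * sntA K z := by
    have h3 : ∀ P ∈ SP, ((({I ∈ IdLe K X | P.asIdeal ^ 2 ∣ I}).ncard : ℕ) : ℝ) ≤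
        C * X * (if z < nP P then ((nP P : ℝ) ^ 2)⁻¹ else 0) := by
      intro P hP
      have h4 := h (P.asIdeal ^ 2) (pow_ne_zero 2 P.ne_bot) X hX
      rw [hnP] at h4
      rw [if_pos ((hSP P).1 hP).2, ← div_eq_mul_inv]
      exact h4
    refine (Finset.sum_le_sum h3).trans ?_
    rw [← Finset.mul_sum]
    refine mul_le_mul_of_nonneg_left ?_ (mul_nonneg hC hX)
    refine Summable.sum_le_tsum SP (fun P _ => ?_) ?_
    · split_ifs
      · positivity
      · exact le_refl _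
    · refine Summable.of_nonneg_of_le (fun P => ?_) (fun P => ?_) (snt_summable (K := K))
      · split_ifs
        · positivity
        · exact le_refl _
      · split_ifs
        · exact le_refl _
        · positivity
  have h3 : (∑ p ∈ Sp, ((({I ∈ IdLe K X | Ideal.span {(p : 𝓞 K)} ∣ I}).ncard : ℕ) : ℝ)) ≤
      C * X * sntB z := by
    have h3 : ∀ p ∈ Sp, ((({I ∈ IdLe K X | Ideal.span {(p : 𝓞 K)} ∣ I}).ncard : ℕ) : ℝ) ≤
        C * X * (if z < p then ((p : ℝ) ^ 2)⁻¹ else 0) := by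
      intro p hp
      have hp' := (hSp p).1 hp
      have h5 : Ideal.span {(p : 𝓞 K)} ≠ ⊥ := by
        rw [Ne, Ideal.span_singleton_eq_bot]
        exact_mod_cast hp'.2.1.ne_zero
      have h4 := h (Ideal.span {(p : 𝓞 K)}) h5 X hX
      have hp0 : (0 : ℝ) < (p : ℝ) ^ 2 := by
        have : (0 : ℝ) < p := by exact_mod_cast hp'.2.1.pos
        positivity
      rw [if_pos hp'.2.2, ← div_eq_mul_inv]
      exact h4.trans (div_le_div_of_nonneg_left (mul_nonneg hC hX) hp0 (hnp p hp'.2.1))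
    refine (Finset.sum_le_sum h3).trans ?_
    rw [← Finset.mul_sum]
    refine mul_le_mul_of_nonneg_left ?_ (mul_nonneg hC hX)
    refine Summable.sum_le_tsum Sp (fun p _ => ?_) ?_
    · split_ifs
      · positivity
      · exact le_refl _
    · refine Summable.of_nonneg_of_le (fun p => ?_) (fun p => ?_) snt_sumN
      · split_ifs
        · positivity
        · exact le_refl _
      · split_ifs
        · exact le_refl _
        · positivity
  have h4 : (({I ∈ IdLe K X | (∃ P : HeightOneSpectrum (𝓞 K), z < nP P ∧ I ≤ P.asIdeal ^ 2) ∨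
        ∃ p : ℕ, p.Prime ∧ z < p ∧ I ≤ Ideal.span {(p : 𝓞 K)}}.ncard : ℕ) : ℝ) ≤
      ∑ P ∈ SP, ((({I ∈ IdLe K X | P.asIdeal ^ 2 ∣ I}).ncard : ℕ) : ℝ) +
      ∑ p ∈ Sp, ((({I ∈ IdLe K X | Ideal.span {(p : 𝓞 K)} ∣ I}).ncard : ℕ) : ℝ) := by
    exact_mod_cast h1
  show _ ≤ C * (sntA K z + sntB z) * X
  calc _ ≤ _ := h4
    _ ≤ C * X * sntA K z + C * X * sntB z := add_le_add h2 h3
    _ = _ := by ring

end Pool.Agent.H32.MA.SN
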