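import Pool.Agent.H32.MA.TDefs

/-!
# Project MA9 (MP_a9b340), row T1: finiteness and the pair form
-/

set_option autoImplicit false

open scoped BigOperators
open NumberField IsDedekindDomain

namespace Pool.Agent.H32.MA

variable {K : Type} [Field K] [NumberField K]

private theorem t1_one_le {m : ℕ} {P : HeightOneSpectrum (𝓞 K)} (h : gP m P) : 1 ≤ nP P :=
  h.1.one_lt.le

private theorem t1_le_nS {m : ℕ} {S : Finset (HeightOneSpectrum (𝓞 K))} (h : Good m S)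
    {P : HeightOneSpectrum (𝓞 K)} (hP : P ∈ S) : nP P ≤ nS S :=
  Finset.single_le_prod' (f := nP) (fun Q hQ => t1_one_le (h.1 Q hQ)) hP

private theorem t1_finite (x : ℝ) : {P : HeightOneSpectrum (𝓞 K) | (nP P : ℝ) ≤ x}.Finite := by
  have h1 := Ideal.finite_setOfPred_absNorm_le (S := 𝓞 K) ⌊x⌋₊
  refine Set.Finite.of_finite_image (f := fun P : HeightOneSpectrum (𝓞 K) => P.asIdeal)
    (h1.subset ?_) ?_
  · rintro _ ⟨P, hP, rfl⟩
    exact Nat.le_floor hP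
  · intro P _ Q _ h
    exact HeightOneSpectrum.ext h

theorem finite_GoodLe (m : ℕ) (x : ℝ) : (GoodLe K m x).Finite := by
  classical
  refine Set.Finite.subset (Finset.finite_toSet (t1_finite (K := K) x).toFinset.powerset) ?_
  rintro S ⟨h1, h2⟩
  rw [Finset.mem_coe, Finset.mem_powerset]
  intro P hP
  rw [Set.Finite.mem_toFinset]
  have h3 : (nP P : ℝ) ≤ nS S := by exact_mod_cast t1_le_nS h1 hP
  exact h3.trans h2

theorem nS_pos {m : ℕ} {S : Finset (HeightOneSpectrum (𝓞 K))} (h : Good m S) : 1 ≤ nS S :=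
  Finset.one_le_prod' fun Q hQ => t1_one_le (h.1 Q hQ)

theorem good_mono {m : ℕ} {S S' : Finset (HeightOneSpectrum (𝓞 K))} (h : Good m S)
    (hs : S' ⊆ S) : Good m S' :=
  ⟨fun P hP => h.1 P (hs hP), h.2.mono (by exact_mod_cast hs)⟩

open Classical in
private theorem t1_union {e f : Finset (HeightOneSpectrum (𝓞 K))} (h : Disjoint e f) :
    nS (e ∪ f) = nS e * nS f :=
  Finset.prod_union h

open Classical in
theorem TT_pairs (F : QF K) (m : ℕ) (Ψ : K → ℝ) (x : ℝ) :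
    TT F m Ψ x = ∑ᶠ e ∈ GoodLe K m x, ∑ᶠ f ∈ GoodLe K m x,
      if Cmp m e f ∧ nS e < nS f ∧ (nS e : ℝ) * nS f ≤ x then GG F m Ψ e f else 0 := by
  have hfin := finite_GoodLe (K := K) m x
  have hR : (∑ᶠ e ∈ GoodLe K m x, ∑ᶠ f ∈ GoodLe K m x,
      if Cmp m e f ∧ nS e < nS f ∧ (nS e : ℝ) * nS f ≤ x then GG F m Ψ e f else 0) =
      ∑ e ∈ hfin.toFinset, ∑ f ∈ hfin.toFinset,
        if Cmp m e f ∧ nS e < nS f ∧ (nS e : ℝ) * nS f ≤ x then GG F m Ψ e f else 0 := by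
    rw [finsum_mem_eq_finite_toFinset_sum _ hfin]
    refine Finset.sum_congr rfl fun e _ => ?_
    rw [finsum_mem_eq_finite_toFinset_sum _ hfin]
  rw [hR]
  unfold TT
  rw [finsum_mem_eq_finite_toFinset_sum _ hfin, Finset.sum_sigma', ← Finset.sum_product']
  have hF : ∑ p ∈ hfin.toFinset ×ˢ hfin.toFinset,
      (if Cmp m p.1 p.2 ∧ nS p.1 < nS p.2 ∧ (nS p.1 : ℝ) * nS p.2 ≤ x
        then GG F m Ψ p.1 p.2 else 0) =
      ∑ p ∈ (hfin.toFinset ×ˢ hfin.toFinset).filter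
        (fun p => Cmp m p.1 p.2 ∧ (nS p.1 : ℝ) * nS p.2 ≤ x),
        (if nS p.1 < nS p.2 then GG F m Ψ p.1 p.2 else 0) := by
    rw [Finset.sum_filter]
    refine Finset.sum_congr rfl fun p _ => ?_
    by_cases h1 : Cmp m p.1 p.2 <;> by_cases h2 : nS p.1 < nS p.2 <;>
      by_cases h3 : (nS p.1 : ℝ) * nS p.2 ≤ x <;> simp [h1, h2, h3]
  rw [hF]
  refine Finset.sum_bij' (fun s _ => (s.2, s.1 \ s.2)) (fun p _ => ⟨p.1 ∪ p.2, p.1⟩)
    ?_ ?_ ?_ ?_ ?_
  · rintro ⟨S, e⟩ hs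
    rw [Finset.mem_sigma, Set.Finite.mem_toFinset, Finset.mem_powerset] at hs
    obtain ⟨⟨hS, hx⟩, he⟩ := hs
    have he' : e ⊆ S := he
    have hu : e ∪ S \ e = S := Finset.union_sdiff_of_subset he'
    have hd : Disjoint e (S \ e) := Finset.disjoint_sdiff
    have hn : nS S = nS e * nS (S \ e) := by
      conv_lhs => rw [← hu]
      exact t1_union hd
    have hge : Good m e := good_mono hS he'
    have hgf : Good m (S \ e) := good_mono hS Finset.sdiff_subset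
    have h1 := nS_pos hge
    have h2 := nS_pos hgf
    have h3 : (nS e : ℝ) * nS (S \ e) ≤ x := by
      rw [hn] at hx
      push_cast at hx
      exact hx
    have h4 : (1 : ℝ) ≤ nS e := by exact_mod_cast h1
    have h5 : (1 : ℝ) ≤ nS (S \ e) := by exact_mod_cast h2
    rw [Finset.mem_filter, Finset.mem_product, Set.Finite.mem_toFinset, Set.Finite.mem_toFinset]
    refine ⟨⟨⟨hge, ?_⟩, ⟨hgf, ?_⟩⟩, ⟨hd, ?_⟩, h3⟩
    · show (nS e : ℝ) ≤ x
      nlinarith
    · show (nS (S \ e) : ℝ) ≤ x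
      nlinarith
    · show Good m (e ∪ S \ e)
      rw [hu]
      exact hS
  · rintro ⟨e, f⟩ hp
    rw [Finset.mem_filter] at hp
    obtain ⟨_, ⟨hd, hg⟩, hx⟩ := hp
    rw [Finset.mem_sigma, Set.Finite.mem_toFinset, Finset.mem_powerset]
    refine ⟨⟨hg, ?_⟩, Finset.subset_union_left⟩
    show (nS (e ∪ f) : ℝ) ≤ x
    rw [t1_union hd]
    push_cast
    exact hx
  · rintro ⟨S, e⟩ hs
    rw [Finset.mem_sigma, Finset.mem_powerset] at hs
    have he' : e ⊆ S := hs.2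
    show (⟨e ∪ S \ e, e⟩ : (_ : Finset (HeightOneSpectrum (𝓞 K))) ×
      Finset (HeightOneSpectrum (𝓞 K))) = ⟨S, e⟩
    rw [Finset.union_sdiff_of_subset he']
  · rintro ⟨e, f⟩ hp
    rw [Finset.mem_filter] at hp
    obtain ⟨_, ⟨hd, hg⟩, hx⟩ := hp
    show (e, (e ∪ f) \ e) = (e, f)
    rw [Finset.union_sdiff_cancel_left hd]
  · rintro ⟨S, e⟩ _
    rfl

end Pool.Agent.H32.MA
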