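import Pool.Agent.H32.MA.T1

/-!
# Project MA9 (MP_a9b340), row T1b: the blocks
-/

set_option autoImplicit false

open scoped BigOperators
open NumberField IsDedekindDomain

namespace Pool.Agent.H32.MA

variable {K : Type} [Field K] [NumberField K]

theorem TT_blk (F : QF K) (m : ℕ) (Ψ : K → ℝ) (x : ℝ) (J : ℕ) (hJ : x < 2 ^ J) :
    TT F m Ψ x = ∑ j ∈ Finset.range J, blk F m Ψ j x := by
  classical
  rw [TT_pairs]
  unfold blk
  have hG := finite_GoodLe (K := K) m x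
  simp only [finsum_mem_eq_finite_toFinset_sum _ hG]
  refine Eq.trans (Finset.sum_congr rfl fun e he => ?_) Finset.sum_comm
  refine Eq.trans (Finset.sum_congr rfl fun f hf => ?_) Finset.sum_comm
  rw [Set.Finite.mem_toFinset] at he
  have hpos : 1 ≤ nS e := nS_pos he.1
  have hlog : ∀ j, (2 ^ j ≤ nS e ∧ nS e < 2 ^ (j + 1)) ↔ Nat.log 2 (nS e) = j := fun j =>
    (Nat.log_eq_iff (Or.inr ⟨by norm_num, by omega⟩)).symm
  rw [Finset.sum_eq_single (Nat.log 2 (nS e))]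
  · by_cases h : Cmp m e f ∧ nS e < nS f ∧ (nS e : ℝ) * nS f ≤ x
    · rw [if_pos h, if_pos ⟨h.1, h.2.1, h.2.2, (hlog _).2 rfl⟩]
    · rw [if_neg h, if_neg fun h' => h ⟨h'.1, h'.2.1, h'.2.2.1⟩]
  · intro j _ hj
    rw [if_neg fun h' => hj ((hlog j).1 h'.2.2.2).symm]
  · intro hj
    exfalso
    rw [Finset.mem_range, not_lt] at hj
    have h1 : 2 ^ J ≤ nS e :=
      (Nat.pow_le_pow_right (by norm_num) hj).trans ((hlog _).2 rfl).1
    have h2 : (2 : ℝ) ^ J ≤ nS e := by exact_mod_cast h1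
    have h3 : (nS e : ℝ) ≤ x := he.2
    linarith

theorem blk_sng (F : QF K) (m : ℕ) (Ψ : K → ℝ) (j : ℕ) (x : ℝ) :
    blk F m Ψ j x = ∑ᶠ e ∈ {e | e ∈ GoodLe K m (2 ^ (j + 1)) ∧ 2 ^ j ≤ nS e ∧
      nS e < 2 ^ (j + 1)}, sng F m Ψ e x := by
  classical
  have hG := finite_GoodLe (K := K) m x
  have hA : {e : Finset (HeightOneSpectrum (𝓞 K)) | e ∈ GoodLe K m (2 ^ (j + 1)) ∧
      2 ^ j ≤ nS e ∧ nS e < 2 ^ (j + 1)}.Finite :=
    (finite_GoodLe (K := K) m (2 ^ (j + 1))).subset fun e he => he.1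
  unfold blk sng
  simp only [finsum_mem_eq_finite_toFinset_sum _ hG, finsum_mem_eq_finite_toFinset_sum _ hA]
  have h1 : ∀ e ∈ hG.toFinset, ∑ f ∈ hG.toFinset,
      (if Cmp m e f ∧ nS e < nS f ∧ (nS e : ℝ) * nS f ≤ x ∧ 2 ^ j ≤ nS e ∧ nS e < 2 ^ (j + 1)
        then GG F m Ψ e f else 0) =
      if 2 ^ j ≤ nS e ∧ nS e < 2 ^ (j + 1) then
        ∑ f ∈ hG.toFinset, (if Cmp m e f ∧ nS e < nS f ∧ (nS e : ℝ) * nS f ≤ x
          then GG F m Ψ e f else 0) else 0 := by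
    intro e _
    by_cases h : 2 ^ j ≤ nS e ∧ nS e < 2 ^ (j + 1)
    · rw [if_pos h]
      refine Finset.sum_congr rfl fun f _ => ?_
      by_cases h' : Cmp m e f ∧ nS e < nS f ∧ (nS e : ℝ) * nS f ≤ x
      · rw [if_pos h', if_pos ⟨h'.1, h'.2.1, h'.2.2, h⟩]
      · rw [if_neg h', if_neg fun h'' => h' ⟨h''.1, h''.2.1, h''.2.2.1⟩]
    · rw [if_neg h]
      refine Finset.sum_eq_zero fun f _ => ?_
      rw [if_neg fun h'' => h h''.2.2.2]
  rw [Finset.sum_congr rfl h1, ← Finset.sum_filter]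
  refine Finset.sum_subset ?_ ?_
  · intro e he
    rw [Finset.mem_filter, Set.Finite.mem_toFinset] at he
    rw [Set.Finite.mem_toFinset]
    refine ⟨⟨he.1.1, ?_⟩, he.2⟩
    exact_mod_cast he.2.2.le
  · intro e he he'
    rw [Set.Finite.mem_toFinset] at he
    refine Finset.sum_eq_zero fun f hf => ?_
    rw [Set.Finite.mem_toFinset] at hf
    refine if_neg fun h => he' ?_
    rw [Finset.mem_filter, Set.Finite.mem_toFinset]
    refine ⟨⟨he.1.1, ?_⟩, he.2⟩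
    have h2 : (1 : ℝ) ≤ nS f := by exact_mod_cast nS_pos hf.1
    have h3 : (0 : ℝ) ≤ nS e := Nat.cast_nonneg _
    nlinarith [h.2.2]

/-- large blocks are empty -/
theorem blk_zero (F : QF K) (m : ℕ) (Ψ : K → ℝ) (j : ℕ) (x : ℝ) (h : x < 2 ^ j) :
    blk F m Ψ j x = 0 := by
  classical
  have hG := finite_GoodLe (K := K) m x
  unfold blk
  simp only [finsum_mem_eq_finite_toFinset_sum _ hG]
  refine Finset.sum_eq_zero fun e he => Finset.sum_eq_zero fun f _ => if_neg fun h' => ?_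
  rw [Set.Finite.mem_toFinset] at he
  have h1 : (nS e : ℝ) ≤ x := he.2
  have h2 : (2 : ℝ) ^ j ≤ nS e := by exact_mod_cast h'.2.2.2.1
  linarith

end Pool.Agent.H32.MA
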