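import Pool.Agent.H32.MA.TStm

/-!
# Project MA9 (MP_a9b340), row T2: the terms are bounded
-/

set_option autoImplicit false

open scoped BigOperators
open NumberField IsDedekindDomain

namespace Pool.Agent.H32.MA

variable {K : Type} [Field K] [NumberField K]

theorem abs_chS (S : Finset (HeightOneSpectrum (𝓞 K))) (b : K) : |chS S b| = 1 := by
  unfold chS
  rw [Finset.abs_prod]
  refine Finset.prod_eq_one fun P _ => ?_
  unfold chP
  split_ifs <;> simp

theorem GG_abs (F : QF K) (m : ℕ) (Ψ : K → ℝ) (A : ℝ) (hΨ : ∀ b, 0 ≤ Ψ b ∧ Ψ b ≤ A) (B : ℕ)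
    (e f : Finset (HeightOneSpectrum (𝓞 K)))
    (hB : ∀ S : Finset (HeightOneSpectrum (𝓞 K)), (BB m S).Finite ∧ (BB m S).ncard ≤ B) :
    |GG F m Ψ e f| ≤ A * B := by
  classical
  have hA : 0 ≤ A := (hΨ 0).1.trans (hΨ 0).2
  unfold GG
  generalize hS : (BB m (e ∪ f) : Set (SqC K)) = T
  have h1 : T.Finite ∧ T.ncard ≤ B := by
    rw [← hS]
    exact hB _
  rw [finsum_mem_eq_finite_toFinset_sum _ h1.1]
  refine (Finset.abs_sum_le_sum_abs _ _).trans ?_
  have h2 : ∀ q ∈ h1.1.toFinset, |Ψ (rp q) * (chS e (F.cj (rp q)) : ℝ)| ≤ A := by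
    intro q _
    have h3 : |(chS e (F.cj (rp q)) : ℝ)| = 1 := by
      rw [← Int.cast_abs, abs_chS, Int.cast_one]
    rw [abs_mul, h3, mul_one, abs_of_nonneg (hΨ _).1]
    exact (hΨ _).2
  refine (Finset.sum_le_sum h2).trans ?_
  rw [Finset.sum_const, nsmul_eq_mul, ← Set.ncard_eq_toFinset_card T h1.1, mul_comm]
  exact mul_le_mul_of_nonneg_left (Nat.cast_le.mpr h1.2) hA

end Pool.Agent.H32.MA
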