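import Pool.Agent.H32.MA.TStm
import Pool.Agent.H32.MA.T1
import Pool.Agent.H32.MA.T2
import Pool.Agent.H32.MA.T3

/-!
# Project MA9 (MP_a9b340), row T4: the trivial bound for a block
-/

set_option autoImplicit false

open scoped BigOperators
open NumberField IsDedekindDomain

namespace Pool.Agent.H32.MA

open Classical in
private theorem t4_blk_sum {K : Type} [Field K] [NumberField K] (F : QF K) (m : ℕ) (Ψ : K → ℝ)
    (j : ℕ) (x : ℝ) (G : Finset (Finset (HeightOneSpectrum (𝓞 K))))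
    (hG : (G : Set (Finset (HeightOneSpectrum (𝓞 K)))) = GoodLe K m x) :
    blk F m Ψ j x = ∑ e ∈ G, ∑ f ∈ G,
      if Cmp m e f ∧ nS e < nS f ∧ (nS e : ℝ) * nS f ≤ x ∧ 2 ^ j ≤ nS e ∧ nS e < 2 ^ (j + 1)
      then GG F m Ψ e f else 0 := by
  unfold blk
  rw [← hG, finsum_mem_coe_finset]
  refine Finset.sum_congr rfl fun e _ => ?_
  rw [finsum_mem_coe_finset]

open Classical in
private theorem t4_blk_le {K : Type} [Field K] [NumberField K] (F : QF K) (m : ℕ) (Ψ : K → ℝ)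
    (j : ℕ) (x M : ℝ) (hM : 0 ≤ M)
    (hG : ∀ e f : Finset (HeightOneSpectrum (𝓞 K)), |GG F m Ψ e f| ≤ M) :
    |blk F m Ψ j x| ≤ ((GoodLe K m (2 ^ (j + 1))).ncard : ℝ) *
      ((GoodLe K m (x / 2 ^ j)).ncard : ℝ) * M := by
  set G := (finite_GoodLe (K := K) m x).toFinset with hGd
  set G1 := (finite_GoodLe (K := K) m (2 ^ (j + 1))).toFinset with hG1
  set G2 := (finite_GoodLe (K := K) m (x / 2 ^ j)).toFinset with hG2
  have hQ : (0 : ℝ) < 2 ^ j := by positivity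
  rw [t4_blk_sum F m Ψ j x G (by rw [hGd]; simp)]
  have e1 : ((GoodLe K m (2 ^ (j + 1))).ncard : ℝ) = (G1.card : ℝ) := by
    rw [hG1, Set.ncard_eq_toFinset_card _ (finite_GoodLe (K := K) m (2 ^ (j + 1)))]
  have e2 : ((GoodLe K m (x / 2 ^ j)).ncard : ℝ) = (G2.card : ℝ) := by
    rw [hG2, Set.ncard_eq_toFinset_card _ (finite_GoodLe (K := K) m (x / 2 ^ j))]
  rw [e1, e2]
  rw [← Finset.sum_product']
  have h1 : (∑ p ∈ G ×ˢ G, if Cmp m p.1 p.2 ∧ nS p.1 < nS p.2 ∧ (nS p.1 : ℝ) * nS p.2 ≤ x ∧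
      2 ^ j ≤ nS p.1 ∧ nS p.1 < 2 ^ (j + 1) then GG F m Ψ p.1 p.2 else 0) =
      ∑ p ∈ (G ×ˢ G).filter (fun p => Cmp m p.1 p.2 ∧ nS p.1 < nS p.2 ∧
        (nS p.1 : ℝ) * nS p.2 ≤ x ∧ 2 ^ j ≤ nS p.1 ∧ nS p.1 < 2 ^ (j + 1)),
        GG F m Ψ p.1 p.2 := by
    rw [Finset.sum_filter]
  rw [h1]
  refine (Finset.abs_sum_le_sum_abs _ _).trans ?_
  refine (Finset.sum_le_card_nsmul _ _ M fun p _ => hG p.1 p.2).trans ?_
  rw [nsmul_eq_mul]
  refine mul_le_mul_of_nonneg_right ?_ hM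
  have h2 : (G ×ˢ G).filter (fun p => Cmp m p.1 p.2 ∧ nS p.1 < nS p.2 ∧
        (nS p.1 : ℝ) * nS p.2 ≤ x ∧ 2 ^ j ≤ nS p.1 ∧ nS p.1 < 2 ^ (j + 1)) ⊆ G1 ×ˢ G2 := by
    intro p hp
    rw [Finset.mem_filter, Finset.mem_product] at hp
    obtain ⟨⟨hp1, hp2⟩, _, _, hle, hlo, hhi⟩ := hp
    rw [hGd, Set.Finite.mem_toFinset] at hp1 hp2
    rw [Finset.mem_product, hG1, hG2, Set.Finite.mem_toFinset, Set.Finite.mem_toFinset]
    refine ⟨⟨hp1.1, ?_⟩, ⟨hp2.1, ?_⟩⟩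
    · exact_mod_cast hhi.le
    · rw [le_div_iff₀ hQ]
      have hlo' : (2 : ℝ) ^ j ≤ (nS p.1 : ℝ) := by exact_mod_cast hlo
      have h0 : (0 : ℝ) ≤ (nS p.2 : ℝ) := Nat.cast_nonneg _
      nlinarith [mul_le_mul_of_nonneg_right hlo' h0]
  have h3 := Finset.card_le_card h2
  rw [Finset.card_product] at h3
  exact_mod_cast h3

theorem triv_of (h1 : StmBB) (h2 : StmCnt) : StmTriv := by
  intro e he
  obtain ⟨C, hC, hcnt⟩ := h2
  obtain ⟨C', hC', hsm⟩ := small_pow e he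
  refine ⟨2 * C ^ 2 * C', by positivity, ?_⟩
  intro K _ _ F m hm hd Ψ A hΨ j x hx
  have hA : 0 ≤ A := (hΨ 0).1.trans (hΨ 0).2
  have hbb := h1 K F m hm hd
  have hM : (0 : ℝ) ≤ A * ((4 ^ (m.primeFactors.card + 1) : ℕ) : ℝ) :=
    mul_nonneg hA (Nat.cast_nonneg _)
  have hb := t4_blk_le F m Ψ j x _ hM
    (fun e f => GG_abs F m Ψ A hΨ (4 ^ (m.primeFactors.card + 1)) e f hbb)
  have hd1 : (1 : ℝ) ≤ (F.d : ℝ) := by exact_mod_cast F.lt.le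
  have hdm : (F.d : ℝ) ≤ (m : ℝ) := by
    have : F.d ∣ m := (Dvd.intro_left 8 rfl).trans hd
    exact_mod_cast Nat.le_of_dvd (Nat.pos_of_ne_zero hm) this
  have hm1 : (1 : ℝ) ≤ (m : ℝ) := hd1.trans hdm
  have hL0 : 0 ≤ Real.log F.d := Real.log_nonneg hd1
  have hLm : Real.log F.d ≤ Real.log m := Real.log_le_log (by linarith) hdm
  set L : ℝ := 1 + Real.log F.d with hL
  have hL1 : 1 ≤ L := by rw [hL]; linarith
  have hL' : L ≤ 1 + Real.log m := by rw [hL]; linarith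
  have hQ : (0 : ℝ) < 2 ^ j := by positivity
  have hQ1 : (1 : ℝ) ≤ 2 ^ (j + 1) := one_le_pow₀ (by norm_num)
  have hg1 : ((GoodLe K m (2 ^ (j + 1))).ncard : ℝ) ≤ C * L * 2 ^ (j + 1) :=
    hcnt K F m hm hd _ hQ1
  have hg2 : ((GoodLe K m (x / 2 ^ j)).ncard : ℝ) ≤ C * L * (x / 2 ^ j) := by
    by_cases hxq : 1 ≤ x / 2 ^ j
    · exact hcnt K F m hm hd _ hxq
    · have : GoodLe K m (x / 2 ^ j) = ∅ := by
        rw [Set.eq_empty_iff_forall_notMem]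
        intro S hS
        have h1 : (1 : ℝ) ≤ (nS S : ℝ) := by exact_mod_cast nS_pos hS.1
        exact hxq (h1.trans hS.2)
      rw [this, Set.ncard_empty, Nat.cast_zero]
      positivity
  have hprod : ((GoodLe K m (2 ^ (j + 1))).ncard : ℝ) * ((GoodLe K m (x / 2 ^ j)).ncard : ℝ) ≤
      2 * C ^ 2 * L ^ 2 * x := by
    refine (mul_le_mul hg1 hg2 (Nat.cast_nonneg _) (by positivity)).trans (le_of_eq ?_)
    rw [pow_succ]
    field_simp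
  have hs := hsm m hm
  have h4 : (4 : ℝ) ^ (m.primeFactors.card + 1) ≤ (64 : ℝ) ^ (m.primeFactors.card + 1) :=
    pow_le_pow_left₀ (by norm_num) (by norm_num) _
  have hl2 : L ^ 2 ≤ (1 + Real.log m) ^ 3 :=
    (pow_le_pow_right₀ hL1 (by norm_num)).trans (pow_le_pow_left₀ (by linarith) hL' 3)
  have hfin : (4 : ℝ) ^ (m.primeFactors.card + 1) * L ^ 2 ≤ C' * (m : ℝ) ^ e :=
    (mul_le_mul h4 hl2 (by positivity) (by positivity)).trans hs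
  calc |blk F m Ψ j x| ≤ _ := hb
    _ ≤ 2 * C ^ 2 * L ^ 2 * x * (A * ((4 ^ (m.primeFactors.card + 1) : ℕ) : ℝ)) :=
        mul_le_mul_of_nonneg_right hprod hM
    _ = 2 * C ^ 2 * A * x * ((4 : ℝ) ^ (m.primeFactors.card + 1) * L ^ 2) := by
        push_cast; ring
    _ ≤ 2 * C ^ 2 * A * x * (C' * (m : ℝ) ^ e) :=
        mul_le_mul_of_nonneg_left hfin (by positivity)
    _ = 2 * C ^ 2 * C' * A * (m : ℝ) ^ e * x := by ring

end Pool.Agent.H32.MA
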