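import Pool.Agent.H32.MA.TStm
import Pool.Agent.H32.MA.T1
import Pool.Agent.H32.MA.T3

/-!
# Project MA9 (MP_a9b340), row T5a: good sets with norm in a short interval
-/

set_option autoImplicit false

open scoped BigOperators
open NumberField IsDedekindDomain

namespace Pool.Agent.H32.MA

theorem short_of (h : StmNorm) (e : ℝ) (he : 0 < e) : ∃ C : ℝ, 0 ≤ C ∧
    ∀ (K : Type) [Field K] [NumberField K] (F : QF K) (m : ℕ), m ≠ 0 → 8 * F.d ∣ m →
    ∀ a b : ℝ, 1 ≤ a → a ≤ b →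
      ({S : Finset (HeightOneSpectrum (𝓞 K)) | Good m S ∧ a ≤ nS S ∧ (nS S : ℝ) ≤ b}.ncard : ℝ) ≤
        C * (b - a + 1) * b ^ e := by
  obtain ⟨C, hC, hτ⟩ := tau_pow e he
  refine ⟨C, hC, ?_⟩
  intro K _ _ F m hm hd a b ha hab
  classical
  have hb : 0 ≤ b := by linarith
  have hfin : {S : Finset (HeightOneSpectrum (𝓞 K)) | Good m S ∧ a ≤ nS S ∧
      (nS S : ℝ) ≤ b}.Finite :=
    (finite_GoodLe (K := K) m b).subset (fun S hS => ⟨hS.1, hS.2.2⟩)
  have hmaps : ∀ S ∈ hfin.toFinset, nS S ∈ Finset.Icc ⌈a⌉₊ ⌊b⌋₊ := by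
    intro S hS
    rw [Set.Finite.mem_toFinset] at hS
    rw [Finset.mem_Icc]
    exact ⟨Nat.ceil_le.2 hS.2.1, Nat.le_floor hS.2.2⟩
  rw [Set.ncard_eq_toFinset_card _ hfin, Finset.card_eq_sum_card_fiberwise hmaps]
  push_cast
  have hn : ∀ n ∈ Finset.Icc ⌈a⌉₊ ⌊b⌋₊,
      ((hfin.toFinset.filter (fun S => nS S = n)).card : ℝ) ≤ C * b ^ e := by
    intro n hn
    rw [Finset.mem_Icc] at hn
    have hn0 : n ≠ 0 := by
      rintro rfl
      have h1 : a ≤ ((0 : ℕ) : ℝ) := Nat.ceil_le.1 hn.1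
      push_cast at h1
      linarith
    have hnb : (n : ℝ) ≤ b := (Nat.le_floor_iff hb).1 hn.2
    have hfn : {S : Finset (HeightOneSpectrum (𝓞 K)) | Good m S ∧ nS S = n}.Finite := by
      refine (finite_GoodLe (K := K) m n).subset (fun S hS => ⟨hS.1, ?_⟩)
      rw [hS.2]
    have h1 : (hfin.toFinset.filter (fun S => nS S = n)).card ≤
        {S : Finset (HeightOneSpectrum (𝓞 K)) | Good m S ∧ nS S = n}.ncard := by
      rw [← Set.ncard_coe_finset]
      refine Set.ncard_le_ncard ?_ hfn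
      intro S hS
      rw [Finset.mem_coe, Finset.mem_filter, Set.Finite.mem_toFinset] at hS
      exact ⟨hS.1.1, hS.2⟩
    have h2 := h1.trans (h K F m hm hd n hn0)
    have h3 := hτ n hn0
    calc ((hfin.toFinset.filter (fun S => nS S = n)).card : ℝ) ≤ (n.divisors.card : ℝ) := by
          exact_mod_cast h2
      _ ≤ C * (n : ℝ) ^ e := h3
      _ ≤ C * b ^ e := by
          refine mul_le_mul_of_nonneg_left ?_ hC
          exact Real.rpow_le_rpow (Nat.cast_nonneg n) hnb he.le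
  refine (Finset.sum_le_sum hn).trans ?_
  rw [Finset.sum_const, nsmul_eq_mul, Nat.card_Icc]
  have hcard : ((⌊b⌋₊ + 1 - ⌈a⌉₊ : ℕ) : ℝ) ≤ b - a + 1 := by
    rcases le_total ⌈a⌉₊ (⌊b⌋₊ + 1) with h1 | h1
    · rw [Nat.cast_sub h1]
      push_cast
      have h2 := Nat.floor_le hb
      have h3 := Nat.le_ceil a
      linarith
    · rw [Nat.sub_eq_zero_of_le h1]
      push_cast
      linarith
  calc _ ≤ (b - a + 1) * (C * b ^ e) :=
        mul_le_mul_of_nonneg_right hcard (mul_nonneg hC (Real.rpow_nonneg hb e))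
    _ = _ := by ring

end Pool.Agent.H32.MA
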