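import Pool.Agent.H32.MA.TStm
import Pool.Agent.H32.MA.T1
import Pool.Agent.H32.MA.T2
import Pool.Agent.H32.MA.T5a

/-!
# Project MA9 (MP_a9b340), row T5b: one piece
-/

set_option autoImplicit false

open scoped BigOperators
open NumberField IsDedekindDomain

namespace Pool.Agent.H32.MA

open Classical in
/-- the pairs with `Q ≤ nS e < 2 Q` and `b ≤ nS f < b'` -/
noncomputable def pce {K : Type} [Field K] [NumberField K] (F : QF K) (m : ℕ) (Ψ : K → ℝ)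
    (Q b b' x : ℝ) : ℝ :=
  ∑ᶠ e ∈ GoodLe K m x, ∑ᶠ f ∈ GoodLe K m x,
    if Cmp m e f ∧ nS e < nS f ∧ (nS e : ℝ) * nS f ≤ x ∧ Q ≤ nS e ∧ (nS e : ℝ) < 2 * Q ∧
      b ≤ nS f ∧ (nS f : ℝ) < b' then GG F m Ψ e f else 0

section

variable {K : Type} [Field K] [NumberField K]

theorem t5b_sum {m : ℕ} {y X : ℝ} (hyX : y ≤ X)
    (g : Finset (HeightOneSpectrum (𝓞 K)) → ℝ)
    (hg : ∀ e ∈ GoodLe K m X, e ∉ GoodLe K m y → g e = 0) :
    ∑ᶠ e ∈ GoodLe K m y, g e = ∑ e ∈ (finite_GoodLe (K := K) m X).toFinset, g e := by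
  rw [finsum_mem_eq_finite_toFinset_sum _ (finite_GoodLe (K := K) m y)]
  refine Finset.sum_subset ?_ ?_
  · intro e he
    rw [Set.Finite.mem_toFinset] at he ⊢
    exact ⟨he.1, he.2.trans hyX⟩
  · intro e he hne
    rw [Set.Finite.mem_toFinset] at he hne
    exact hg e he hne

theorem t5b_good {m : ℕ} {e f : Finset (HeightOneSpectrum (𝓞 K))} (h : Cmp m e f) :
    Good m e ∧ Good m f := by
  classical
  unfold Cmp at h
  exact ⟨good_mono h.2 (by
      have := Finset.subset_union_left (s₁ := e) (s₂ := f)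
      convert this using 2),
    good_mono h.2 (by
      have := Finset.subset_union_right (s₁ := e) (s₂ := f)
      convert this using 2)⟩

theorem t5b_one_le {m : ℕ} {S : Finset (HeightOneSpectrum (𝓞 K))} (h : Good m S) :
    (1 : ℝ) ≤ nS S := by exact_mod_cast nS_pos h

open Classical in
/-- a piece as a finite sum -/
theorem t5b_pce (F : QF K) (m : ℕ) (Ψ : K → ℝ) (Q b b' x X : ℝ) (hX : x ≤ X) :
    pce F m Ψ Q b b' x = ∑ e ∈ (finite_GoodLe (K := K) m X).toFinset,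
      ∑ f ∈ (finite_GoodLe (K := K) m X).toFinset,
      if Cmp m e f ∧ nS e < nS f ∧ (nS e : ℝ) * nS f ≤ x ∧ Q ≤ nS e ∧ (nS e : ℝ) < 2 * Q ∧
        b ≤ nS f ∧ (nS f : ℝ) < b' then GG F m Ψ e f else 0 := by
  unfold pce
  have hin : ∀ e : Finset (HeightOneSpectrum (𝓞 K)), (∑ᶠ f ∈ GoodLe K m x,
      if Cmp m e f ∧ nS e < nS f ∧ (nS e : ℝ) * nS f ≤ x ∧ Q ≤ nS e ∧ (nS e : ℝ) < 2 * Q ∧
        b ≤ nS f ∧ (nS f : ℝ) < b' then GG F m Ψ e f else 0) =
      ∑ f ∈ (finite_GoodLe (K := K) m X).toFinset,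
      if Cmp m e f ∧ nS e < nS f ∧ (nS e : ℝ) * nS f ≤ x ∧ Q ≤ nS e ∧ (nS e : ℝ) < 2 * Q ∧
        b ≤ nS f ∧ (nS f : ℝ) < b' then GG F m Ψ e f else 0 := by
    intro e
    refine t5b_sum hX _ fun f hf hne => if_neg ?_
    rintro ⟨h1, _, h3, _⟩
    have h4 := t5b_one_le (t5b_good h1).1
    have h5 := t5b_one_le (t5b_good h1).2
    refine hne ⟨(t5b_good h1).2, le_trans ?_ h3⟩
    exact le_mul_of_one_le_left (by linarith) h4
  rw [show (∑ᶠ e ∈ GoodLe K m x, ∑ᶠ f ∈ GoodLe K m x,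
      if Cmp m e f ∧ nS e < nS f ∧ (nS e : ℝ) * nS f ≤ x ∧ Q ≤ nS e ∧ (nS e : ℝ) < 2 * Q ∧
        b ≤ nS f ∧ (nS f : ℝ) < b' then GG F m Ψ e f else 0) =
      ∑ᶠ e ∈ GoodLe K m x, ∑ f ∈ (finite_GoodLe (K := K) m X).toFinset,
      if Cmp m e f ∧ nS e < nS f ∧ (nS e : ℝ) * nS f ≤ x ∧ Q ≤ nS e ∧ (nS e : ℝ) < 2 * Q ∧
        b ≤ nS f ∧ (nS f : ℝ) < b' then GG F m Ψ e f else 0 from
      finsum_congr fun e => finsum_congr fun _ => hin e]
  refine t5b_sum hX _ fun e he hne => Finset.sum_eq_zero fun f hf => if_neg ?_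
  rintro ⟨h1, _, h3, _⟩
  have h4 := t5b_one_le (t5b_good h1).1
  have h5 := t5b_one_le (t5b_good h1).2
  refine hne ⟨(t5b_good h1).1, le_trans ?_ h3⟩
  exact le_mul_of_one_le_right (by linarith) h5

open Classical in
/-- a box sum as a finite sum -/
theorem t5b_box (F : QF K) (m : ℕ) (Ψ : K → ℝ) (E N X : ℝ) (hE : E ≤ X) (hN : N ≤ X)
    (α β : Finset (HeightOneSpectrum (𝓞 K)) → ℝ) (hα : ∀ e, E < nS e → α e = 0)
    (hβ : ∀ f, N < nS f → β f = 0) :
    BX F m Ψ E N α β = ∑ e ∈ (finite_GoodLe (K := K) m X).toFinset,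
      ∑ f ∈ (finite_GoodLe (K := K) m X).toFinset,
      if Cmp m e f then α e * β f * GG F m Ψ e f else 0 := by
  unfold BX
  have hin : ∀ e : Finset (HeightOneSpectrum (𝓞 K)), (∑ᶠ f ∈ GoodLe K m N,
      if Cmp m e f then α e * β f * GG F m Ψ e f else 0) =
      ∑ f ∈ (finite_GoodLe (K := K) m X).toFinset,
      if Cmp m e f then α e * β f * GG F m Ψ e f else 0 := by
    intro e
    refine t5b_sum hN _ fun f hf hne => ?_
    have h1 : N < nS f := by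
      by_contra h
      exact hne ⟨hf.1, not_lt.1 h⟩
    rw [hβ f h1, mul_zero, zero_mul, ite_self]
  rw [show (∑ᶠ e ∈ GoodLe K m E, ∑ᶠ f ∈ GoodLe K m N,
      if Cmp m e f then α e * β f * GG F m Ψ e f else 0) =
      ∑ᶠ e ∈ GoodLe K m E, ∑ f ∈ (finite_GoodLe (K := K) m X).toFinset,
      if Cmp m e f then α e * β f * GG F m Ψ e f else 0 from
      finsum_congr fun e => finsum_congr fun _ => hin e]
  refine t5b_sum hE _ fun e he hne => Finset.sum_eq_zero fun f _ => ?_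
  have h1 : E < nS e := by
    by_contra h
    exact hne ⟨he.1, not_lt.1 h⟩
  rw [hα e h1, zero_mul, zero_mul, ite_self]

end

theorem t5b_pow (Q : ℝ) (hQ : 1 ≤ Q) : (2 * Q) ^ (13 / 14 : ℝ) ≤ 2 * Q ^ (13 / 14 : ℝ) := by
  rw [Real.mul_rpow (by norm_num) (by linarith)]
  refine mul_le_mul_of_nonneg_right ?_ (Real.rpow_nonneg (by linarith) _)
  calc (2 : ℝ) ^ (13 / 14 : ℝ) ≤ (2 : ℝ) ^ (1 : ℝ) :=
        Real.rpow_le_rpow_of_exponent_le (by norm_num) (by norm_num)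
    _ = 2 := Real.rpow_one 2

theorem t5b_pow4 (Q : ℝ) (hQ : 1 ≤ Q) : (4 * Q) ^ (1 / 100 : ℝ) ≤ 4 * Q ^ (1 / 100 : ℝ) := by
  rw [Real.mul_rpow (by norm_num) (by linarith)]
  refine mul_le_mul_of_nonneg_right ?_ (Real.rpow_nonneg (by linarith) _)
  calc (4 : ℝ) ^ (1 / 100 : ℝ) ≤ (4 : ℝ) ^ (1 : ℝ) :=
        Real.rpow_le_rpow_of_exponent_le (by norm_num) (by norm_num)
    _ = 4 := Real.rpow_one 4

/-- the middle range, where no condition couples `e` and `f` -/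
theorem middle_of (h4 : StmBX) :
    ∃ C κ : ℝ, 0 ≤ C ∧ 0 ≤ κ ∧ ∀ (K : Type) [Field K] [NumberField K] (F : QF K) (m : ℕ),
    m ≠ 0 → 8 * F.d ∣ m → ∀ (Ψ : K → ℝ) (A : ℝ), (∀ b, 0 ≤ Ψ b ∧ Ψ b ≤ A) → MLoc m Ψ →
    ∀ Q x : ℝ, 1 ≤ Q → 4 * Q ^ 2 ≤ x →
      |pce F m Ψ Q (2 * Q) (x / (2 * Q)) x| ≤
        C * A * (m : ℝ) ^ κ * (x / Q * Q ^ (13 / 14 : ℝ)) := by
  classical
  obtain ⟨C, κ, hC, hκ, h⟩ := h4
  refine ⟨C, κ, hC, hκ, ?_⟩
  intro K _ _ F m hm hd Ψ A hΨ hloc Q x hQ hx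
  have hA : 0 ≤ A := (hΨ 0).1.trans (hΨ 0).2
  have hQ2 : Q ≤ Q ^ 2 := by
    rw [pow_two]
    exact le_mul_of_one_le_left (by linarith) hQ
  have h2Q : 2 * Q ≤ x := by linarith
  have hx0 : 0 < x := by linarith
  have hN : 2 * Q ≤ x / (2 * Q) := by
    rw [le_div_iff₀ (by linarith)]
    calc 2 * Q * (2 * Q) = 4 * Q ^ 2 := by ring
      _ ≤ x := hx
  have hNx : x / (2 * Q) ≤ x := div_le_self hx0.le (by linarith)
  set α : Finset (HeightOneSpectrum (𝓞 K)) → ℝ :=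
    fun e => if Q ≤ nS e ∧ (nS e : ℝ) < 2 * Q then 1 else 0 with hα
  set β : Finset (HeightOneSpectrum (𝓞 K)) → ℝ :=
    fun f => if 2 * Q ≤ nS f ∧ (nS f : ℝ) < x / (2 * Q) then 1 else 0 with hβ
  have hα1 : ∀ e, |α e| ≤ 1 := by
    intro e
    simp only [hα]
    split_ifs <;> simp
  have hβ1 : ∀ f, |β f| ≤ 1 := by
    intro f
    simp only [hβ]
    split_ifs <;> simp
  have heq : pce F m Ψ Q (2 * Q) (x / (2 * Q)) x = BX F m Ψ (2 * Q) (x / (2 * Q)) α β := by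
    rw [t5b_pce F m Ψ Q _ _ x x le_rfl, t5b_box F m Ψ _ _ x h2Q hNx α β ?_ ?_]
    · refine Finset.sum_congr rfl fun e _ => Finset.sum_congr rfl fun f _ => ?_
      by_cases hc : Cmp m e f
      · rw [if_pos hc]
        by_cases ha : Q ≤ nS e ∧ (nS e : ℝ) < 2 * Q
        · by_cases hb : 2 * Q ≤ nS f ∧ (nS f : ℝ) < x / (2 * Q)
          · have e1 : α e = 1 := if_pos ha
            have e2 : β f = 1 := if_pos hb
            rw [e1, e2, one_mul, one_mul, if_pos]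
            have hlt : (nS e : ℝ) < nS f := ha.2.trans_le hb.1
            refine ⟨hc, by exact_mod_cast hlt, ?_, ha.1, ha.2, hb.1, hb.2⟩
            have h5 : (nS e : ℝ) * nS f ≤ 2 * Q * (x / (2 * Q)) :=
              mul_le_mul ha.2.le hb.2.le (Nat.cast_nonneg _) (by linarith)
            rwa [mul_div_cancel₀ _ (by linarith : (2 * Q) ≠ 0)] at h5
          · have e2 : β f = 0 := if_neg hb
            rw [e2, mul_zero, zero_mul, if_neg]
            rintro ⟨_, _, _, _, _, h6, h7⟩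
            exact hb ⟨h6, h7⟩
        · have e1 : α e = 0 := if_neg ha
          rw [e1, zero_mul, zero_mul, if_neg]
          rintro ⟨_, _, _, h6, h7, _⟩
          exact ha ⟨h6, h7⟩
      · rw [if_neg hc, if_neg]
        rintro ⟨h6, _⟩
        exact hc h6
    · intro e he
      refine if_neg ?_
      rintro ⟨_, h6⟩
      linarith
    · intro f hf
      refine if_neg ?_
      rintro ⟨_, h6⟩
      linarith
  rw [heq]
  have h5 := h K F m hm hd Ψ A hΨ hloc (2 * Q) (x / (2 * Q)) (by linarith) hN α β hα1 hβ1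
  have hmk : (0 : ℝ) ≤ (m : ℝ) ^ κ := Real.rpow_nonneg (Nat.cast_nonneg _) _
  have hq : (0 : ℝ) ≤ Q ^ (13 / 14 : ℝ) := Real.rpow_nonneg (by linarith) _
  refine h5.trans ?_
  calc C * A * (m : ℝ) ^ κ * (x / (2 * Q)) * (2 * Q) ^ (13 / 14 : ℝ)
      ≤ C * A * (m : ℝ) ^ κ * (x / (2 * Q)) * (2 * Q ^ (13 / 14 : ℝ)) :=
        mul_le_mul_of_nonneg_left (t5b_pow Q hQ) (by positivity)
    _ = C * A * (m : ℝ) ^ κ * (x / Q * Q ^ (13 / 14 : ℝ)) := by
        field_simp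

theorem t5b_card {ι : Type*} (F : Finset ι) (T : Set ι) (hT : T.Finite)
    (h : ∀ S ∈ F, S ∈ T) : (F.card : ℝ) ≤ (T.ncard : ℝ) := by
  have h1 : (F : Set ι).ncard ≤ T.ncard := Set.ncard_le_ncard (fun S hS => h S hS) hT
  rw [Set.ncard_coe_finset] at h1
  exact_mod_cast h1

section

variable {K : Type} [Field K] [NumberField K]

omit [NumberField K] in
open Classical in
/-- the sum over a product of two sets -/
theorem t5b_count (G : Finset (Finset (HeightOneSpectrum (𝓞 K))))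
    (P R : Finset (HeightOneSpectrum (𝓞 K)) → Prop) (c : ℝ) :
    (∑ e ∈ G, ∑ f ∈ G, if P e ∧ R f then c else 0) =
      ((G.filter P).card : ℝ) * ((G.filter R).card : ℝ) * c := by
  have h1 : ∀ e ∈ G, (∑ f ∈ G, if P e ∧ R f then c else 0) =
      if P e then ((G.filter R).card : ℝ) * c else 0 := by
    intro e _
    by_cases hP : P e
    · simp only [hP, true_and, if_true]
      rw [← Finset.sum_filter, Finset.sum_const, nsmul_eq_mul]
    · simp only [hP, false_and, if_false, Finset.sum_const_zero]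
  rw [Finset.sum_congr rfl h1, ← Finset.sum_filter, Finset.sum_const, nsmul_eq_mul, mul_assoc]

open Classical in
/-- the exceptional `e` -/
theorem t5b_bad {m : ℕ} {C5 : ℝ} (hC5 : 0 ≤ C5)
    (h : ∀ a b : ℝ, 1 ≤ a → a ≤ b →
      ({S : Finset (HeightOneSpectrum (𝓞 K)) | Good m S ∧ a ≤ nS S ∧ (nS S : ℝ) ≤ b}.ncard : ℝ) ≤
        C5 * (b - a + 1) * b ^ (1 / 100 : ℝ))
    (G : Finset (Finset (HeightOneSpectrum (𝓞 K)))) (Q b η x : ℝ) (hQ : 1 ≤ Q) (hQb : Q ≤ b)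
    (hb : b ≤ x / Q) (hη : 0 < η) (hη1 : η ≤ 1) :
    ((G.filter fun e => Good m e ∧ Q ≤ nS e ∧ (nS e : ℝ) < 2 * Q ∧ (nS e : ℝ) < b * (1 + η) ∧
      (nS e : ℝ) * b ≤ x ∧ (b ≤ nS e ∨ x < (nS e : ℝ) * (b * (1 + η)))).card : ℝ) ≤
      32 * C5 * ((η * Q + 1) * Q ^ (1 / 100 : ℝ)) := by
  have hb0 : 0 < b := by linarith
  have hx : b * Q ≤ x := by rwa [le_div_iff₀ (by linarith)] at hb
  have hfin : ∀ a y : ℝ,
      {S : Finset (HeightOneSpectrum (𝓞 K)) | Good m S ∧ a ≤ nS S ∧ (nS S : ℝ) ≤ y}.Finite :=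
    fun a y => (finite_GoodLe (K := K) m y).subset fun S hS => ⟨hS.1, hS.2.2⟩
  have hQe : (0 : ℝ) ≤ Q ^ (1 / 100 : ℝ) := Real.rpow_nonneg (by linarith) _
  have hbound : ∀ a y : ℝ, 1 ≤ a → a ≤ y → y - a ≤ 4 * (η * Q) → y ≤ 4 * Q →
      ({S : Finset (HeightOneSpectrum (𝓞 K)) | Good m S ∧ a ≤ nS S ∧ (nS S : ℝ) ≤ y}.ncard : ℝ) ≤
        16 * C5 * ((η * Q + 1) * Q ^ (1 / 100 : ℝ)) := by
    intro a y ha hay h1 h2
    refine (h a y ha hay).trans ?_
    have h3 : y ^ (1 / 100 : ℝ) ≤ 4 * Q ^ (1 / 100 : ℝ) :=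
      (Real.rpow_le_rpow (by linarith) h2 (by norm_num)).trans (t5b_pow4 Q hQ)
    have h4 : y - a + 1 ≤ 4 * (η * Q + 1) := by linarith
    have hηQ : 0 ≤ η * Q := by positivity
    calc C5 * (y - a + 1) * y ^ (1 / 100 : ℝ)
        ≤ C5 * (4 * (η * Q + 1)) * (4 * Q ^ (1 / 100 : ℝ)) :=
          mul_le_mul (mul_le_mul_of_nonneg_left h4 hC5) h3
            (Real.rpow_nonneg (by linarith) _) (by positivity)
      _ = 16 * C5 * ((η * Q + 1) * Q ^ (1 / 100 : ℝ)) := by ring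
  have hbasic : (0 : ℝ) ≤ 16 * C5 * ((η * Q + 1) * Q ^ (1 / 100 : ℝ)) := by positivity
  have hsplit : (G.filter fun e => Good m e ∧ Q ≤ nS e ∧ (nS e : ℝ) < 2 * Q ∧
      (nS e : ℝ) < b * (1 + η) ∧
      (nS e : ℝ) * b ≤ x ∧ (b ≤ nS e ∨ x < (nS e : ℝ) * (b * (1 + η)))) ⊆
      (G.filter fun e => Good m e ∧ (nS e : ℝ) < 2 * Q ∧ b ≤ nS e ∧ (nS e : ℝ) < b * (1 + η)) ∪
      (G.filter fun e => Good m e ∧ Q ≤ nS e ∧ (nS e : ℝ) < 2 * Q ∧ (nS e : ℝ) * b ≤ x ∧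
        x < (nS e : ℝ) * (b * (1 + η))) := by
    intro e he
    rw [Finset.mem_filter] at he
    rw [Finset.mem_union, Finset.mem_filter, Finset.mem_filter]
    obtain ⟨h0, h1, h2, h3, h4, h5, h6 | h6⟩ := he
    · exact Or.inl ⟨h0, h1, h3, h6, h4⟩
    · exact Or.inr ⟨h0, h1, h2, h3, h5, h6⟩
  have hc1 : ((G.filter fun e => Good m e ∧ (nS e : ℝ) < 2 * Q ∧ b ≤ nS e ∧
      (nS e : ℝ) < b * (1 + η)).card : ℝ) ≤ 16 * C5 * ((η * Q + 1) * Q ^ (1 / 100 : ℝ)) := by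
    rcases (G.filter fun e => Good m e ∧ (nS e : ℝ) < 2 * Q ∧ b ≤ nS e ∧
      (nS e : ℝ) < b * (1 + η)).eq_empty_or_nonempty with h0 | ⟨e, he⟩
    · rw [h0, Finset.card_empty, Nat.cast_zero]
      exact hbasic
    · rw [Finset.mem_filter] at he
      have hb2 : b < 2 * Q := he.2.2.2.1.trans_lt he.2.2.1
      have h1 : b * η ≤ 2 * Q * η := mul_le_mul_of_nonneg_right hb2.le hη.le
      have h2 : b * η ≤ b := mul_le_of_le_one_right hb0.le hη1
      have hηQ : 0 ≤ η * Q := by positivity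
      refine le_trans ?_ (hbound b (b * (1 + η)) (by linarith) (by linarith [mul_pos hb0 hη])
        (by linarith) (by linarith))
      refine t5b_card _ _ (hfin _ _) fun S hS => ?_
      rw [Finset.mem_filter] at hS
      exact ⟨hS.2.1, hS.2.2.2.1, hS.2.2.2.2.le⟩
  have hc2 : ((G.filter fun e => Good m e ∧ Q ≤ nS e ∧ (nS e : ℝ) < 2 * Q ∧
      (nS e : ℝ) * b ≤ x ∧ x < (nS e : ℝ) * (b * (1 + η))).card : ℝ) ≤
      16 * C5 * ((η * Q + 1) * Q ^ (1 / 100 : ℝ)) := by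
    rcases (G.filter fun e => Good m e ∧ Q ≤ nS e ∧ (nS e : ℝ) < 2 * Q ∧
      (nS e : ℝ) * b ≤ x ∧ x < (nS e : ℝ) * (b * (1 + η))).eq_empty_or_nonempty with h0 | ⟨e, he⟩
    · rw [h0, Finset.card_empty, Nat.cast_zero]
      exact hbasic
    · rw [Finset.mem_filter] at he
      obtain ⟨_, _, _, he2, _, he5⟩ := he
      have hb1 : 0 < b * (1 + η) := by positivity
      have hx4 : x ≤ 4 * Q * b := by
        have h1 : (nS e : ℝ) * (b * (1 + η)) ≤ 2 * Q * (b * (1 + η)) :=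
          mul_le_mul_of_nonneg_right he2.le hb1.le
        have h2 : 2 * Q * (b * (1 + η)) ≤ 2 * Q * (b * 2) :=
          mul_le_mul_of_nonneg_left (mul_le_mul_of_nonneg_left (by linarith) hb0.le) (by linarith)
        linarith
      have hy4 : x / b ≤ 4 * Q := by rwa [div_le_iff₀ hb0]
      have hQy : Q ≤ x / b := by
        rw [le_div_iff₀ hb0]
        linarith
      have hx0 : 0 ≤ x := le_trans (by positivity) hx
      have hle : x / (b * (1 + η)) ≤ x / b :=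
        div_le_div_of_nonneg_left hx0 hb0 (by linarith [mul_pos hb0 hη])
      have hdiff : x / b - x / (b * (1 + η)) ≤ 4 * (η * Q) := by
        have e1 : x / b - x / (b * (1 + η)) = η * (x / (b * (1 + η))) := by
          field_simp
          ring
        rw [e1]
        have h3 : x / (b * (1 + η)) ≤ 4 * Q := hle.trans hy4
        have := mul_le_mul_of_nonneg_left h3 hη.le
        linarith
      refine le_trans ?_ (hbound (max Q (x / (b * (1 + η)))) (x / b)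
        (hQ.trans (le_max_left _ _)) (max_le hQy hle) (by
          have := le_max_right Q (x / (b * (1 + η)))
          linarith) hy4)
      refine t5b_card _ _ (hfin _ _) fun S hS => ?_
      rw [Finset.mem_filter] at hS
      obtain ⟨_, h1, h2, _, h5, h6⟩ := hS
      refine ⟨h1, max_le h2 ?_, ?_⟩
      · rw [div_le_iff₀ hb1]
        exact h6.le
      · rwa [le_div_iff₀ hb0]
  have hcard := (Finset.card_le_card hsplit).trans (Finset.card_union_le _ _)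
  have hcard' : ((G.filter fun e => Good m e ∧ Q ≤ nS e ∧ (nS e : ℝ) < 2 * Q ∧
      (nS e : ℝ) < b * (1 + η) ∧
      (nS e : ℝ) * b ≤ x ∧ (b ≤ nS e ∨ x < (nS e : ℝ) * (b * (1 + η)))).card : ℝ) ≤
      ((G.filter fun e => Good m e ∧ (nS e : ℝ) < 2 * Q ∧ b ≤ nS e ∧
        (nS e : ℝ) < b * (1 + η)).card : ℝ) +
      ((G.filter fun e => Good m e ∧ Q ≤ nS e ∧ (nS e : ℝ) < 2 * Q ∧ (nS e : ℝ) * b ≤ x ∧
        x < (nS e : ℝ) * (b * (1 + η))).card : ℝ) := by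
    exact_mod_cast hcard
  linarith

end

/-- a piece is a box sum up to the `e` in two short intervals -/
theorem piece_of (h1 : StmBB) (h2 : StmCnt) (h3 : StmNorm) (h4 : StmBX) :
    ∃ C κ : ℝ, 0 ≤ C ∧ 0 ≤ κ ∧ ∀ (K : Type) [Field K] [NumberField K] (F : QF K) (m : ℕ),
    m ≠ 0 → 8 * F.d ∣ m → ∀ (Ψ : K → ℝ) (A : ℝ), (∀ b, 0 ≤ Ψ b ∧ Ψ b ≤ A) → MLoc m Ψ →
    ∀ Q b η x : ℝ, 1 ≤ Q → Q ≤ b → b ≤ x / Q → Q ^ 2 ≤ x → 0 < η → η ≤ 1 →
      |pce F m Ψ Q b (b * (1 + η)) x| ≤ C * A * (m : ℝ) ^ κ * (x / Q * Q ^ (13 / 14 : ℝ) +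
        ({f : Finset (HeightOneSpectrum (𝓞 K)) | Good m f ∧ b ≤ nS f ∧
          (nS f : ℝ) < b * (1 + η)}.ncard : ℝ) * (η * Q + 1) * Q ^ (1 / 100 : ℝ)) := by
  classical
  obtain ⟨C4, κ4, hC4, hκ4, hBX⟩ := h4
  obtain ⟨C5, hC5, hsh⟩ := short_of h3 (1 / 100) (by norm_num)
  obtain ⟨C3, hC3, hsm⟩ := small_pow 1 one_pos
  refine ⟨4 * C4 + 32 * C5 * C3, max κ4 1, by positivity, le_trans hκ4 (le_max_left _ _), ?_⟩
  intro K _ _ F m hm hd Ψ A hΨ hloc Q b η x hQ hQb hbx hQx hη hη1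
  have hA : 0 ≤ A := (hΨ 0).1.trans (hΨ 0).2
  have hb0 : 0 < b := by linarith
  have hQ0 : 0 < Q := by linarith
  have hx0 : 0 < x := lt_of_lt_of_le (by positivity) hQx
  have hb'0 : 0 < b * (1 + η) := by positivity
  have hb'1 : 1 ≤ b * (1 + η) := by
    have := mul_pos hb0 hη
    linarith
  have hbb' : b ≤ b * (1 + η) := by
    have := mul_pos hb0 hη
    linarith
  have hb'2 : b * (1 + η) ≤ 2 * b := by
    have := mul_le_of_le_one_right hb0.le hη1
    linarith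
  set N : ℝ := max (b * (1 + η)) (2 * Q) with hNdef
  set X : ℝ := max x (max N (2 * Q)) with hXdef
  have hxX : x ≤ X := le_max_left _ _
  have hNX : N ≤ X := (le_max_left _ _).trans (le_max_right _ _)
  have hQX : 2 * Q ≤ X := (le_max_right _ _).trans (le_max_right _ _)
  set G := (finite_GoodLe (K := K) m X).toFinset with hG
  set α : Finset (HeightOneSpectrum (𝓞 K)) → ℝ :=
    fun e => if Q ≤ nS e ∧ (nS e : ℝ) < 2 * Q ∧ (nS e : ℝ) < b ∧
      (nS e : ℝ) * (b * (1 + η)) ≤ x then 1 else 0 with hα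
  set β : Finset (HeightOneSpectrum (𝓞 K)) → ℝ :=
    fun f => if b ≤ nS f ∧ (nS f : ℝ) < b * (1 + η) then 1 else 0 with hβ
  have hα1 : ∀ e, |α e| ≤ 1 := by
    intro e
    simp only [hα]
    split_ifs <;> simp
  have hβ1 : ∀ f, |β f| ≤ 1 := by
    intro f
    simp only [hβ]
    split_ifs <;> simp
  -- the number of classes
  set B : ℕ := 4 ^ (m.primeFactors.card + 1) with hB
  have hGG : ∀ e f : Finset (HeightOneSpectrum (𝓞 K)), |GG F m Ψ e f| ≤ A * B :=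
    fun e f => GG_abs F m Ψ A hΨ B e f fun S => h1 K F m hm hd S
  have hm1 : (1 : ℝ) ≤ m := by exact_mod_cast Nat.one_le_iff_ne_zero.2 hm
  have hB3 : (B : ℝ) ≤ C3 * (m : ℝ) ^ (max κ4 1) := by
    have h5 := hsm m hm
    have h6 : (B : ℝ) ≤ (64 : ℝ) ^ (m.primeFactors.card + 1) := by
      rw [hB]
      push_cast
      exact pow_le_pow_left₀ (by norm_num) (by norm_num) _
    have h7 : (1 : ℝ) ≤ (1 + Real.log m) ^ 3 :=
      one_le_pow₀ (by linarith [Real.log_nonneg hm1])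
    have h8 : (64 : ℝ) ^ (m.primeFactors.card + 1) ≤
        (64 : ℝ) ^ (m.primeFactors.card + 1) * (1 + Real.log m) ^ 3 :=
      le_mul_of_one_le_right (by positivity) h7
    have h9 : (m : ℝ) ^ (1 : ℝ) ≤ (m : ℝ) ^ (max κ4 1) :=
      Real.rpow_le_rpow_of_exponent_le hm1 (le_max_right _ _)
    calc (B : ℝ) ≤ C3 * (m : ℝ) ^ (1 : ℝ) := h6.trans (h8.trans h5)
      _ ≤ C3 * (m : ℝ) ^ (max κ4 1) := mul_le_mul_of_nonneg_left h9 hC3
  -- the difference
  set P : Finset (HeightOneSpectrum (𝓞 K)) → Prop := fun e => Good m e ∧ Q ≤ nS e ∧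
    (nS e : ℝ) < 2 * Q ∧ (nS e : ℝ) < b * (1 + η) ∧ (nS e : ℝ) * b ≤ x ∧
      (b ≤ nS e ∨ x < (nS e : ℝ) * (b * (1 + η))) with hP
  set R : Finset (HeightOneSpectrum (𝓞 K)) → Prop := fun f => Good m f ∧ b ≤ nS f ∧
    (nS f : ℝ) < b * (1 + η) with hR
  have hpce := t5b_pce F m Ψ Q b (b * (1 + η)) x X hxX
  have hbox := t5b_box F m Ψ (2 * Q) N X hQX hNX α β (fun e he => if_neg (by
      rintro ⟨_, h6, _⟩
      linarith)) (fun f hf => if_neg (by
      rintro ⟨_, h6⟩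
      have := le_max_left (b * (1 + η)) (2 * Q)
      linarith))
  have hterm : ∀ e f : Finset (HeightOneSpectrum (𝓞 K)),
      |(if Cmp m e f ∧ nS e < nS f ∧ (nS e : ℝ) * nS f ≤ x ∧ Q ≤ nS e ∧ (nS e : ℝ) < 2 * Q ∧
        b ≤ nS f ∧ (nS f : ℝ) < b * (1 + η) then GG F m Ψ e f else 0) -
        (if Cmp m e f then α e * β f * GG F m Ψ e f else 0)| ≤
      if P e ∧ R f then A * B else 0 := by
    intro e f
    have hAB : 0 ≤ A * B := by positivity
    by_cases hc : Cmp m e f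
    · obtain ⟨hge, hgf⟩ := t5b_good hc
      have hne1 := t5b_one_le hge
      rw [if_pos hc]
      by_cases hb : b ≤ nS f ∧ (nS f : ℝ) < b * (1 + η)
      · have e2 : β f = 1 := if_pos hb
        rw [e2, mul_one]
        by_cases ha : Q ≤ nS e ∧ (nS e : ℝ) < 2 * Q ∧ (nS e : ℝ) < b ∧
            (nS e : ℝ) * (b * (1 + η)) ≤ x
        · have e1 : α e = 1 := if_pos ha
          have hlt : (nS e : ℝ) < nS f := ha.2.2.1.trans_le hb.1
          have hpr : (nS e : ℝ) * nS f ≤ x :=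
            (mul_le_mul_of_nonneg_left hb.2.le (by linarith)).trans ha.2.2.2
          rw [e1, one_mul, if_pos ⟨hc, by exact_mod_cast hlt, hpr, ha.1, ha.2.1, hb.1, hb.2⟩,
            sub_self, abs_zero]
          split_ifs
          · exact hAB
          · exact le_rfl
        · have e1 : α e = 0 := if_neg ha
          rw [e1, zero_mul, sub_zero]
          by_cases hcond : Cmp m e f ∧ nS e < nS f ∧ (nS e : ℝ) * nS f ≤ x ∧ Q ≤ nS e ∧
              (nS e : ℝ) < 2 * Q ∧ b ≤ nS f ∧ (nS f : ℝ) < b * (1 + η)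
          · rw [if_pos hcond]
            obtain ⟨_, k1, k2, k3, k4, _, _⟩ := hcond
            have k1' : (nS e : ℝ) < nS f := by exact_mod_cast k1
            have hPe : P e := by
              refine ⟨hge, k3, k4, k1'.trans hb.2,
                (mul_le_mul_of_nonneg_left hb.1 (by linarith)).trans k2, ?_⟩
              by_contra hcon
              push Not at hcon
              exact ha ⟨k3, k4, hcon.1, hcon.2⟩
            rw [if_pos ⟨hPe, hgf, hb.1, hb.2⟩]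
            exact hGG e f
          · rw [if_neg hcond, abs_zero]
            split_ifs
            · exact hAB
            · exact le_rfl
      · have e2 : β f = 0 := if_neg hb
        rw [e2, mul_zero, zero_mul, sub_zero, if_neg, abs_zero]
        · split_ifs
          · exact hAB
          · exact le_rfl
        · rintro ⟨_, _, _, _, _, k1, k2⟩
          exact hb ⟨k1, k2⟩
    · rw [if_neg hc, sub_zero, if_neg, abs_zero]
      · split_ifs
        · exact hAB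
        · exact le_rfl
      · rintro ⟨k, _⟩
        exact hc k
  have hdiff : |pce F m Ψ Q b (b * (1 + η)) x - BX F m Ψ (2 * Q) N α β| ≤
      ((G.filter P).card : ℝ) * ((G.filter R).card : ℝ) * (A * B) := by
    have hcnt : (∑ e ∈ G, ∑ f ∈ G, if P e ∧ R f then A * (B : ℝ) else 0) =
        ((G.filter P).card : ℝ) * ((G.filter R).card : ℝ) * (A * B) := by
      convert t5b_count G P R (A * B)
    rw [← hcnt, hpce, hbox, ← Finset.sum_sub_distrib]
    refine (Finset.abs_sum_le_sum_abs _ _).trans (Finset.sum_le_sum fun e _ => ?_)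
    rw [← Finset.sum_sub_distrib]
    exact (Finset.abs_sum_le_sum_abs _ _).trans (Finset.sum_le_sum fun f _ => hterm e f)
  have hbad := t5b_bad (m := m) hC5 (hsh K F m hm hd) G Q b η x hQ hQb hbx hη hη1
  set M : ℝ := ({f : Finset (HeightOneSpectrum (𝓞 K)) | Good m f ∧ b ≤ nS f ∧
    (nS f : ℝ) < b * (1 + η)}.ncard : ℝ) with hM
  have hRM : ((G.filter R).card : ℝ) ≤ M := by
    rw [hM]
    refine t5b_card _ _ ((finite_GoodLe (K := K) m (b * (1 + η))).subset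
        fun S hS => ⟨hS.1, hS.2.2.le⟩) fun S hS => ?_
    rw [Finset.mem_filter] at hS
    exact hS.2
  have hM0 : 0 ≤ M := Nat.cast_nonneg _
  -- the box
  have hEN : 2 * Q ≤ N := le_max_right _ _
  have hbxv := hBX K F m hm hd Ψ A hΨ hloc (2 * Q) N (by linarith) hEN α β hα1 hβ1
  have hN2 : N ≤ 2 * (x / Q) := by
    refine max_le ?_ ?_
    · linarith
    · have : Q ≤ x / Q := by
        rw [le_div_iff₀ hQ0, ← pow_two]
        exact hQx
      linarith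
  have hmk4 : (m : ℝ) ^ κ4 ≤ (m : ℝ) ^ (max κ4 1) :=
    Real.rpow_le_rpow_of_exponent_le hm1 (le_max_left _ _)
  have hmk : (0 : ℝ) ≤ (m : ℝ) ^ (max κ4 1) := Real.rpow_nonneg (by linarith) _
  have hmk0 : (0 : ℝ) ≤ (m : ℝ) ^ κ4 := Real.rpow_nonneg (by linarith) _
  have hq : (0 : ℝ) ≤ Q ^ (13 / 14 : ℝ) := Real.rpow_nonneg hQ0.le _
  have hqe : (0 : ℝ) ≤ Q ^ (1 / 100 : ℝ) := Real.rpow_nonneg hQ0.le _
  have hxQ : 0 ≤ x / Q := by positivity
  have hbox2 : |BX F m Ψ (2 * Q) N α β| ≤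
      4 * C4 * (A * (m : ℝ) ^ (max κ4 1)) * (x / Q * Q ^ (13 / 14 : ℝ)) := by
    refine hbxv.trans ?_
    have s1 : C4 * A * (m : ℝ) ^ κ4 ≤ C4 * A * (m : ℝ) ^ (max κ4 1) :=
      mul_le_mul_of_nonneg_left hmk4 (by positivity)
    have s2 : C4 * A * (m : ℝ) ^ κ4 * N ≤ C4 * A * (m : ℝ) ^ (max κ4 1) * (2 * (x / Q)) :=
      mul_le_mul s1 hN2 (by linarith) (by positivity)
    have s3 : C4 * A * (m : ℝ) ^ κ4 * N * (2 * Q) ^ (13 / 14 : ℝ) ≤
        C4 * A * (m : ℝ) ^ (max κ4 1) * (2 * (x / Q)) * (2 * Q ^ (13 / 14 : ℝ)) :=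
      mul_le_mul s2 (t5b_pow Q hQ) (Real.rpow_nonneg (by linarith) _) (by positivity)
    refine s3.trans (le_of_eq ?_)
    ring
  have hdiff2 : |pce F m Ψ Q b (b * (1 + η)) x - BX F m Ψ (2 * Q) N α β| ≤
      32 * C5 * C3 * (A * (m : ℝ) ^ (max κ4 1)) * (M * (η * Q + 1) * Q ^ (1 / 100 : ℝ)) := by
    refine hdiff.trans ?_
    have s1 : ((G.filter P).card : ℝ) * ((G.filter R).card : ℝ) ≤
        32 * C5 * ((η * Q + 1) * Q ^ (1 / 100 : ℝ)) * M :=
      mul_le_mul hbad hRM (Nat.cast_nonneg _) (by positivity)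
    have s2 : A * (B : ℝ) ≤ A * (C3 * (m : ℝ) ^ (max κ4 1)) := mul_le_mul_of_nonneg_left hB3 hA
    have s3 : ((G.filter P).card : ℝ) * ((G.filter R).card : ℝ) * (A * B) ≤
        32 * C5 * ((η * Q + 1) * Q ^ (1 / 100 : ℝ)) * M * (A * (C3 * (m : ℝ) ^ (max κ4 1))) :=
      mul_le_mul s1 s2 (by positivity) (by positivity)
    refine s3.trans (le_of_eq ?_)
    ring
  have htri : |pce F m Ψ Q b (b * (1 + η)) x| ≤
      |pce F m Ψ Q b (b * (1 + η)) x - BX F m Ψ (2 * Q) N α β| +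
        |BX F m Ψ (2 * Q) N α β| := by
    have := abs_add_le (pce F m Ψ Q b (b * (1 + η)) x - BX F m Ψ (2 * Q) N α β)
      (BX F m Ψ (2 * Q) N α β)
    rwa [sub_add_cancel] at this
  have hU : 0 ≤ A * (m : ℝ) ^ (max κ4 1) := mul_nonneg hA hmk
  set U : ℝ := A * (m : ℝ) ^ (max κ4 1) with hUdef
  set V : ℝ := x / Q * Q ^ (13 / 14 : ℝ) with hV
  set W : ℝ := M * (η * Q + 1) * Q ^ (1 / 100 : ℝ) with hW
  have hV0 : 0 ≤ V := mul_nonneg hxQ hq
  have hW0 : 0 ≤ W := by positivity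
  have hfinal : (4 * C4 + 32 * C5 * C3) * A * (m : ℝ) ^ (max κ4 1) * (V + W) =
      4 * C4 * U * V + 32 * C5 * C3 * U * W + 4 * C4 * U * W + 32 * C5 * C3 * U * V := by
    rw [hUdef]
    ring
  rw [hfinal]
  have t1 : 0 ≤ 4 * C4 * U * W := by positivity
  have t2 : 0 ≤ 32 * C5 * C3 * U * V := by positivity
  linarith

end Pool.Agent.H32.MA
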