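import Pool.Agent.H32.MA.Defs

/-!
# Project MA9 (MP_a9b340): definitions for the blocks of the main sum
-/

set_option autoImplicit false

open scoped BigOperators
open NumberField IsDedekindDomain

namespace Pool.Agent.H32.MA

section

variable {K : Type} [Field K] [NumberField K]

open Classical in
/-- disjoint good sets with good union -/
def Cmp (m : ℕ) (e f : Finset (HeightOneSpectrum (𝓞 K))) : Prop := Disjoint e f ∧ Good m (e ∪ f)

open Classical in
/-- the bilinear sum over boxes -/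
noncomputable def BX (F : QF K) (m : ℕ) (Ψ : K → ℝ) (E N : ℝ)
    (α β : Finset (HeightOneSpectrum (𝓞 K)) → ℝ) : ℝ :=
  ∑ᶠ e ∈ GoodLe K m E, ∑ᶠ f ∈ GoodLe K m N,
    if Cmp m e f then α e * β f * GG F m Ψ e f else 0

open Classical in
/-- the part of the main sum with `2 ^ j ≤ nS e < 2 ^ (j + 1)` -/
noncomputable def blk (F : QF K) (m : ℕ) (Ψ : K → ℝ) (j : ℕ) (x : ℝ) : ℝ :=
  ∑ᶠ e ∈ GoodLe K m x, ∑ᶠ f ∈ GoodLe K m x,
    if Cmp m e f ∧ nS e < nS f ∧ (nS e : ℝ) * nS f ≤ x ∧ 2 ^ j ≤ nS e ∧ nS e < 2 ^ (j + 1)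
    then GG F m Ψ e f else 0

open Classical in
/-- the part of the main sum with given `e` -/
noncomputable def sng (F : QF K) (m : ℕ) (Ψ : K → ℝ) (e : Finset (HeightOneSpectrum (𝓞 K)))
    (x : ℝ) : ℝ :=
  ∑ᶠ f ∈ GoodLe K m x,
    if Cmp m e f ∧ nS e < nS f ∧ (nS e : ℝ) * nS f ≤ x then GG F m Ψ e f else 0

end

end Pool.Agent.H32.MA
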