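import Pool.Agent.H32.MA.ZDefs
import Pool.Agent.H32.MA.ADefs

/-!
# Project MA9 (MP_a9b340), row Z1: the permutation group 8T8
-/

set_option autoImplicit false

open scoped BigOperators

namespace Pool.Agent.H32.MA

open Pool.Agent.H98.MK (Om Gam dabs fld)

/-- the permutation `x ↦ 3 ^ a x + b` of `Fin 8 = ZMod 8` -/
def prm : SD →* Equiv.Perm (Fin 8) where
  toFun g := (⟨fun x : ZMod 8 => pw g.a * x + g.b, fun x : ZMod 8 => pw g.a * (x - g.b),
    fun x => by revert x; rcases g with ⟨b, a⟩; revert a b; decide,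
    fun x => by revert x; rcases g with ⟨b, a⟩; revert a b; decide⟩ : Equiv.Perm (ZMod 8))
  map_one' := by ext x; revert x; decide
  map_mul' := by
    intro g h
    refine Equiv.ext fun (x : ZMod 8) => ?_
    show pw (g.a + h.a) * x + (g.b + pw g.a * h.b) = pw g.a * (pw h.a * x + h.b) + g.b
    rw [pw_add]
    ring

theorem z1_apply (g : SD) (x : ZMod 8) : prm g x = pw g.a * x + g.b := rfl

theorem z1_pw_inj {a a' : ZMod 2} (h : pw a = pw a') : a = a' := by
  revert a a'
  decide

theorem prm_inj : Function.Injective prm := by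
  intro g h e
  have h0 : pw g.a * 0 + g.b = pw h.a * 0 + h.b := by
    rw [← z1_apply, ← z1_apply, e]
  have h1 : pw g.a * 1 + g.b = pw h.a * 1 + h.b := by
    rw [← z1_apply, ← z1_apply, e]
  have hb : g.b = h.b := by simpa using h0
  rw [hb] at h1
  have ha : pw g.a = pw h.a := by simpa using h1
  exact SD.ext hb (z1_pw_inj ha)

theorem z1_rot : finRotate 8 = prm ⟨1, 0⟩ := by
  refine Equiv.ext fun x => ?_
  revert x
  decide

theorem z1_swp : (Equiv.swap 1 3 * Equiv.swap 2 6 * Equiv.swap 5 7 : Equiv.Perm (Fin 8)) =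
    prm ⟨0, 1⟩ := by
  refine Equiv.ext fun x => ?_
  revert x
  decide

theorem z1_gen (g : SD) : g = (⟨1, 0⟩ : SD) ^ g.b.val * (⟨0, 1⟩ : SD) ^ g.a.val := by
  rcases g with ⟨b, a⟩
  revert b a
  decide

theorem prm_range : prm.range = T8 := by
  apply le_antisymm
  · rintro _ ⟨g, rfl⟩
    rw [z1_gen g, map_mul, map_pow, map_pow, ← z1_rot, ← z1_swp]
    exact T8.mul_mem (T8.pow_mem (Subgroup.subset_closure (by simp)) _)
      (T8.pow_mem (Subgroup.subset_closure (by simp)) _)
  · unfold T8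
    rw [Subgroup.closure_le]
    rintro x (rfl | rfl)
    · rw [z1_rot]
      exact ⟨_, rfl⟩
    · rw [z1_swp]
      exact ⟨_, rfl⟩

theorem prm_stab (g : SD) : prm g 0 = 0 ↔ g ∈ SD.H0 := by
  have h : prm g 0 = g.b := by
    show pw g.a * (0 : ZMod 8) + g.b = g.b
    rw [mul_zero, zero_add]
  rw [h]
  rfl

theorem T8_trans : MulAction.IsPretransitive T8 (Fin 8) := by
  constructor
  intro x y
  have hm : prm ⟨(show ZMod 8 from y) - (show ZMod 8 from x), 0⟩ ∈ T8 := by
    rw [← prm_range]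
    exact ⟨_, rfl⟩
  refine ⟨⟨_, hm⟩, ?_⟩
  show prm ⟨(show ZMod 8 from y) - (show ZMod 8 from x), 0⟩ x = y
  have h : prm ⟨(show ZMod 8 from y) - (show ZMod 8 from x), 0⟩ x =
    pw 0 * (show ZMod 8 from x) + ((show ZMod 8 from y) - (show ZMod 8 from x)) := rfl
  rw [h, show pw 0 = 1 by decide, one_mul]
  exact add_sub_cancel (show ZMod 8 from x) (show ZMod 8 from y)

end Pool.Agent.H32.MA
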