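import Pool.Agent.H32.MA.Z1

/-!
# Project MA9 (MP_a9b340), row Z2: the invariants a and b of 8T8
-/

set_option autoImplicit false

open scoped BigOperators

namespace Pool.Agent.H32.MA

open Pool.Agent.H98.MK (Om Gam dabs fld)

/-- the map of `s` on `Fin 8 = ZMod 8` -/
private def z2g (s : SD) : Fin 8 → Fin 8 :=
  (fun x : ZMod 8 => pw s.a * x + s.b : ZMod 8 → ZMod 8)

private theorem z2_prm (s : SD) (y : Fin 8) : prm s y = z2g s y := rfl

/-- the orbit relation -/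
private def z2r (s : SD) (x y : Fin 8) : Prop := ∃ k : Fin 8, z2g (s ^ (k : ℕ)) y = x

private theorem z2_pow8 : ∀ s : SD, s ^ 8 = 1 := by decide +kernel

private theorem z2_rel (s : SD) (x y : Fin 8) :
    (MulAction.orbitRel (Subgroup.zpowers (prm s)) (Fin 8)) x y ↔ z2r s x y := by
  rw [MulAction.orbitRel_apply]
  constructor
  · rintro ⟨⟨h, hh⟩, h2⟩
    obtain ⟨k, hk⟩ := Subgroup.mem_zpowers_iff.mp hh
    have h3 : s ^ k = s ^ (k % 8).toNat := by
      have h4 : ((k % 8).toNat : ℤ) = k % 8 := Int.toNat_of_nonneg (Int.emod_nonneg _ (by norm_num))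
      rw [← zpow_natCast, h4]
      have h5 : k = 8 * (k / 8) + k % 8 := (Int.mul_ediv_add_emod k 8).symm
      have h6 : (s ^ (8 : ℤ)) = 1 := by exact_mod_cast z2_pow8 s
      calc s ^ k = s ^ (8 * (k / 8) + k % 8) := by rw [← h5]
        _ = s ^ (k % 8) := by rw [zpow_add, zpow_mul, h6, one_zpow, one_mul]
    have h7 : (k % 8).toNat < 8 := by
      have := Int.emod_lt_of_pos k (show (0 : ℤ) < 8 by norm_num)
      omega
    refine ⟨⟨(k % 8).toNat, h7⟩, ?_⟩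
    rw [← z2_prm]
    have h8 : h y = x := h2
    rw [← h8, ← hk, ← map_zpow, h3]
  · rintro ⟨k, hk⟩
    refine ⟨⟨prm s ^ (k : ℕ), Subgroup.npow_mem_zpowers _ _⟩, ?_⟩
    show (prm s ^ (k : ℕ)) y = x
    rw [← map_pow, z2_prm, hk]

/-- the number of orbits -/
private def z2c (s : SD) : ℕ :=
  (Finset.univ.filter (fun x : Fin 8 => ∀ k : Fin 8, x ≤ z2g (s ^ (k : ℕ)) x)).card

private theorem z2_pind (s : SD) : pind (prm s) = 8 - z2c s := by
  unfold pind z2c
  congr 1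
  rw [← Fintype.card_subtype, ← Nat.card_eq_fintype_card]
  symm
  refine Nat.card_congr (Equiv.ofBijective (fun x => (Quotient.mk _ x.1 :
    MulAction.orbitRel.Quotient (Subgroup.zpowers (prm s)) (Fin 8))) ⟨?_, ?_⟩)
  · rintro ⟨x, hx⟩ ⟨y, hy⟩ h
    apply Subtype.ext
    have h1 := Quotient.exact h
    obtain ⟨k, hk⟩ := (z2_rel s x y).mp h1
    obtain ⟨l, hl⟩ := (z2_rel s y x).mp
      ((MulAction.orbitRel (Subgroup.zpowers (prm s)) (Fin 8)).iseqv.symm h1)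
    exact le_antisymm ((hx l).trans_eq hl) ((hy k).trans_eq hk)
  · intro q
    induction q using Quotient.inductionOn with
    | h x =>
      obtain ⟨k, -, hk⟩ := Finset.exists_min_image (Finset.univ : Finset (Fin 8))
        (fun k : Fin 8 => z2g (s ^ (k : ℕ)) x) ⟨0, Finset.mem_univ _⟩
      have h1 : (MulAction.orbitRel (Subgroup.zpowers (prm s)) (Fin 8))
        (z2g (s ^ (k : ℕ)) x) x := (z2_rel s _ _).mpr ⟨k, rfl⟩
      refine ⟨⟨z2g (s ^ (k : ℕ)) x, fun j => ?_⟩, Quotient.sound h1⟩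
      have h2 : (MulAction.orbitRel (Subgroup.zpowers (prm s)) (Fin 8))
        (z2g (s ^ (j : ℕ)) (z2g (s ^ (k : ℕ)) x)) (z2g (s ^ (k : ℕ)) x) :=
        (z2_rel s _ _).mpr ⟨j, rfl⟩
      obtain ⟨l, hl⟩ := (z2_rel s _ _).mp
        ((MulAction.orbitRel (Subgroup.zpowers (prm s)) (Fin 8)).iseqv.trans h2 h1)
      exact (hk l (Finset.mem_univ _)).trans_eq hl

private theorem z2_ge : ∀ s : SD, s ≠ 1 → 3 ≤ 8 - z2c s := by decide +kernel

private theorem z2_three : ∀ s : SD, 8 - z2c s = 3 → s.a = 1 ∧ 4 * s.b = 0 := by decide +kernel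

private theorem z2_conj : ∀ s t : SD, (s.a = 1 ∧ 4 * s.b = 0) → (t.a = 1 ∧ 4 * t.b = 0) →
    ∃ u : SD, u * s * u⁻¹ = t := by decide +kernel

private theorem z2_ex : 8 - z2c ⟨0, 1⟩ = 3 := by decide +kernel

private theorem z2_mem (s : SD) : prm s ∈ T8 := prm_range ▸ ⟨s, rfl⟩

private theorem z2_ne : (⟨0, 1⟩ : SD) ≠ 1 := by decide

theorem mInd_T8 : mInd T8 = 3 := by
  unfold mInd
  have h1 : 3 ∈ {j | ∃ g ∈ T8, g ≠ 1 ∧ pind g = j} := by
    refine ⟨prm ⟨0, 1⟩, z2_mem _, ?_, ?_⟩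
    · intro h
      exact z2_ne (prm_inj (h.trans (map_one prm).symm))
    · rw [z2_pind, z2_ex]
  refine le_antisymm (Nat.sInf_le h1) ?_
  refine le_csInf ⟨3, h1⟩ ?_
  rintro j ⟨g, hg, hg1, rfl⟩
  rw [← prm_range] at hg
  obtain ⟨s, rfl⟩ := hg
  rw [z2_pind]
  refine z2_ge s ?_
  rintro rfl
  exact hg1 (map_one prm)

theorem bM_T8 : bM ℚ T8 = 1 := by
  have hsub : Subsingleton (MinCl T8) := by
    constructor
    rintro ⟨c, g, rfl, -, h2⟩ ⟨c', g', rfl, -, h2'⟩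
    apply Subtype.ext
    show ConjClasses.mk g = ConjClasses.mk g'
    obtain ⟨g, hg⟩ := g
    obtain ⟨g', hg'⟩ := g'
    have h3 := hg
    have h3' := hg'
    rw [← prm_range] at h3 h3'
    obtain ⟨s, rfl⟩ := h3
    obtain ⟨s', rfl⟩ := h3'
    rw [mInd_T8] at h2 h2'
    have h4 : 8 - z2c s = 3 := by rw [← z2_pind]; exact h2
    have h4' : 8 - z2c s' = 3 := by rw [← z2_pind]; exact h2'
    obtain ⟨u, hu⟩ := z2_conj s s' (z2_three s h4) (z2_three s' h4')
    rw [ConjClasses.mk_eq_mk_iff_isConj, isConj_iff]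
    refine ⟨⟨prm u, z2_mem u⟩, ?_⟩
    apply Subtype.ext
    show prm u * prm s * (prm u)⁻¹ = prm s'
    rw [← map_inv, ← map_mul, ← map_mul, hu]
  have hne : Nonempty (MinCl T8) := by
    refine ⟨⟨ConjClasses.mk ⟨prm ⟨0, 1⟩, z2_mem _⟩, _, rfl, ?_, ?_⟩⟩
    · intro h
      have h5 : prm ⟨0, 1⟩ = 1 := congrArg Subtype.val h
      exact z2_ne (prm_inj (h5.trans (map_one prm).symm))
    · show pind (prm ⟨0, 1⟩) = mInd T8
      rw [mInd_T8, z2_pind, z2_ex]
  unfold bM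
  rw [Nat.card_eq_one_iff_unique]
  exact ⟨⟨fun a b => by
    induction a using Quot.ind with
    | mk a => induction b using Quot.ind with
      | mk b => rw [Subsingleton.elim a b]⟩, ⟨Quot.mk _ hne.some⟩⟩

end Pool.Agent.H32.MA
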