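import Mathlib

/-!
# Project MA9 (MP_a9b340): Malle's conjecture over the rationals, the statement
-/

set_option autoImplicit false

namespace Pool.Agent.H32.MA

/-- the index of a permutation: the degree minus the number of orbits -/
noncomputable def pind {n : ℕ} (g : Equiv.Perm (Fin n)) : ℕ :=
  n - Nat.card (MulAction.orbitRel.Quotient (Subgroup.zpowers g) (Fin n))

/-- the least index of an element different from `1`; `a(G) = 1 / mInd G` -/
noncomputable def mInd {n : ℕ} (G : Subgroup (Equiv.Perm (Fin n))) : ℕ :=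
  sInf {j | ∃ g ∈ G, g ≠ 1 ∧ pind g = j}

/-- the conjugacy classes of `G` of least index -/
abbrev MinCl {n : ℕ} (G : Subgroup (Equiv.Perm (Fin n))) : Type :=
  {c : ConjClasses G // ∃ g : G, ConjClasses.mk g = c ∧ g ≠ 1 ∧
    pind (g : Equiv.Perm (Fin n)) = mInd G}

/-- `σ` maps the class `C` to `C ^ χ(σ)`, where `σ ζ = ζ ^ χ(σ)` for `ζ ^ |G| = 1` -/
def cycRel (k : Type) [Field k] {n : ℕ} (G : Subgroup (Equiv.Perm (Fin n)))
    (c c' : MinCl G) : Prop :=
  ∃ (σ : AlgebraicClosure k ≃ₐ[k] AlgebraicClosure k) (j : ℕ),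
    (∀ ζ : AlgebraicClosure k, ζ ^ Nat.card G = 1 → σ ζ = ζ ^ j) ∧
    ∃ g : G, ConjClasses.mk g = c.1 ∧ ConjClasses.mk (g ^ j) = c'.1

/-- the number of orbits of the cyclotomic action on the classes of least index -/
noncomputable def bM (k : Type) [Field k] {n : ℕ} (G : Subgroup (Equiv.Perm (Fin n))) : ℕ :=
  Nat.card (Quot (cycRel k G))

/-- the number of extensions `L` of the rationals inside the algebraic closure of degree `n`,
whose Galois group acting on the `n` embeddings is conjugate to `G`, with `|disc L| ≤ X` -/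
noncomputable def NQ {n : ℕ} (G : Subgroup (Equiv.Perm (Fin n))) (X : ℝ) : ℕ :=
  {L : IntermediateField ℚ (AlgebraicClosure ℚ) | Module.finrank ℚ L = n ∧
    (∃ e : (L →ₐ[ℚ] AlgebraicClosure ℚ) ≃ Fin n, ∀ π : Equiv.Perm (Fin n),
      π ∈ G ↔ ∃ σ : AlgebraicClosure ℚ ≃ₐ[ℚ] AlgebraicClosure ℚ,
        ∀ φ : L →ₐ[ℚ] AlgebraicClosure ℚ, e (σ.toAlgHom.comp φ) = π (e φ)) ∧
    ∃ h : NumberField L, ((|@NumberField.discr L _ h| : ℤ) : ℝ) ≤ X}.ncard

/-- Malle's conjecture for the rationals and `G` -/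
def MalleQ {n : ℕ} (G : Subgroup (Equiv.Perm (Fin n))) : Prop :=
  ∃ c : ℝ, 0 < c ∧ Filter.Tendsto (fun X : ℝ => (NQ G X : ℝ) /
    (X ^ (1 / (mInd G : ℝ)) * Real.log X ^ (bM ℚ G - 1))) Filter.atTop (nhds c)

/-- the transitive group `8T8`, generated by the cycle `i ↦ i + 1` and by `i ↦ 3 i` modulo 8 -/
def T8 : Subgroup (Equiv.Perm (Fin 8)) :=
  Subgroup.closure {finRotate 8, Equiv.swap 1 3 * Equiv.swap 2 6 * Equiv.swap 5 7}

end Pool.Agent.H32.MA
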